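import Pool.Agent.Lib.MP_234305_co.H25Hyp

/-!
Rows whose cycles are sums of faces, for hypertrees.
-/

namespace Pool.Agent.Lib.MP_234305_co.Sums

open Finset Matrix Slack

namespace CaseAAux

variable {E X : Type} [Fintype E] [DecidableEq E] [Fintype X] [DecidableEq X]
  {τ : Flag E → Flag E} {vtx : Dart E → X}

/-- The faces other than the root face. -/
noncomputable def faces (τ : Flag E → Flag E) (d₀ : Dart E) : Finset (Finset (Dart E)) :=
  (univ.image (gcl τ ∅ false)).erase (gcl τ ∅ false (d₀.1, false))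

/-- The edge of `d` avoids `K` but its face does not. -/
def Al (τ : Flag E → Flag E) (vtx : Dart E → X) (K : Finset X) (d : Dart E) : Prop :=
  (vtx (d.1, false) ∈ Kᶜ ∧ vtx (d.1, true) ∈ Kᶜ) ∧ gcl τ ∅ false d ∉ inner τ vtx K

theorem slack_id {d₀ : Dart E} {K : Finset X} (hK : vtx d₀ ∈ K) {T : Finset E}
    {p : Finset (Dart E) → Dart E} {dep : Finset (Dart E) → ℕ}
    (h : ∀ F ∈ faces τ d₀, Rt (gcl τ ∅ false) (· ∉ T) p dep F) :
    slack vtx Kᶜ T = (((inner τ vtx K).card + Kᶜ.card : ℝ) -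
      ((univ.filter fun e => vtx (e, false) ∈ Kᶜ ∧ vtx (e, true) ∈ Kᶜ).card + 1)) +
      ∑ e, ind (vtx (e, false) ∈ Kᶜ ∧ vtx (e, true) ∈ Kᶜ) *
        ind (e ∉ T ∧ e ∉ (faces τ d₀).image fun F => (p F).1) +
      ∑ F ∈ faces τ d₀, ind (Al τ vtx K (p F)) := by
  classical
  set S := faces τ d₀ with hS
  have h1 : ∑ e, ind (vtx (e, false) ∈ Kᶜ ∧ vtx (e, true) ∈ Kᶜ) =
      ∑ e ∈ T, ind (vtx (e, false) ∈ Kᶜ ∧ vtx (e, true) ∈ Kᶜ) +
      ∑ e, ind (vtx (e, false) ∈ Kᶜ ∧ vtx (e, true) ∈ Kᶜ) *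
        ind (e ∉ T ∧ e ∉ S.image fun F => (p F).1) +
      ∑ e ∈ S.image fun F => (p F).1, ind (vtx (e, false) ∈ Kᶜ ∧ vtx (e, true) ∈ Kᶜ) := by
    rw [← sum_ite_mem_eq T, ← sum_ite_mem_eq (S.image _), ← sum_add_distrib, ← sum_add_distrib]
    refine sum_congr rfl fun e _ => ?_
    by_cases a1 : e ∈ S.image fun F => (p F).1
    · have a2 : e ∉ T := by
        obtain ⟨F, hF, rfl⟩ := mem_image.1 a1
        exact (h F hF).2.1
      simp only [a1, a2, if_true, if_false, not_true, and_false, ind_neg not_false]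
      ring
    · by_cases a2 : e ∈ T <;> simp only [a1, a2, if_true, if_false, not_true, false_and,
        ind_neg not_false, not_false_iff, and_self, ind_pos trivial] <;> ring
  have h2 : ((inner τ vtx K).card : ℝ) = ∑ F ∈ S, ind (F ∈ inner τ vtx K) := by
    rw [← card_eq_ind]
    congr 2
    ext F
    refine ⟨fun a => mem_filter.2 ⟨mem_erase.2 ⟨?_, (mem_filter.1 a).1⟩, a⟩,
      fun a => (mem_filter.1 a).2⟩
    rintro rfl
    exact ((both' (fun d => vtx d ∉ K) d₀).1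
      ((mem_filter.1 a).2 (d₀.1, false) (self_mem_gcl _))).1 hK
  have h3 : ∑ F ∈ S, ind (vtx ((p F).1, false) ∈ Kᶜ ∧ vtx ((p F).1, true) ∈ Kᶜ) =
      ∑ F ∈ S, ind (F ∈ inner τ vtx K) + ∑ F ∈ S, ind (Al τ vtx K (p F)) := by
    rw [← sum_add_distrib]
    refine sum_congr rfl fun F hF => ?_
    rw [Al, (h F hF).1]
    by_cases a : F ∈ inner τ vtx K
    · have := (mem_filter.1 a).2 (p F) ((h F hF).1.subset (self_mem_gcl _))
      simp [ind, a, this]
    · simp [ind, a]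
  rw [sum_image fun F hF G hG e => (h F hF).inj (h G hG) e, h3, ← h2] at h1
  rw [slack, card_eq_ind, card_eq_ind, h1]
  ring

omit [Fintype X] in
theorem count_one {β W : Finset X} {t : X} (ht : t ∈ β) (h : β.card = 2 ∨ β.card = 3) :
    ∑ v ∈ β.erase t, ind (v ∈ W ∧ t ∉ W) = ind (t ∉ W ∧ (β ∩ W).Nonempty) +
      if β.card = 3 then ind (t ∉ W ∧ β.erase t ⊆ W) else 0 := by
  by_cases a : t ∈ W
  · simp [ind, a]
  have e : (β ∩ W).Nonempty ↔ ∃ v ∈ β.erase t, v ∈ W :=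
    ⟨fun ⟨v, hv⟩ => ⟨v, mem_erase.2 ⟨fun c => a (c ▸ (mem_inter.1 hv).2), (mem_inter.1 hv).1⟩,
      (mem_inter.1 hv).2⟩, fun ⟨v, b, c⟩ => ⟨v, mem_inter.2 ⟨mem_of_mem_erase b, c⟩⟩⟩
  have c := card_erase_add_one ht
  rw [e]
  rcases h with h | h
  · obtain ⟨u, hu⟩ := card_eq_one.1 (show (β.erase t).card = 1 by omega)
    rw [hu, if_neg (by omega)]
    by_cases b : u ∈ W <;> simp [ind, a, b]
  · obtain ⟨u, w, b1, hu⟩ := card_eq_two.1 (show (β.erase t).card = 2 by omega)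
    rw [hu, if_pos h, sum_pair b1]
    by_cases b : u ∈ W <;> by_cases b' : w ∈ W <;> simp [ind, a, b, b', insert_subset_iff]

omit [Fintype E] in
theorem cc_slack [Nonempty X] {H : Finset (Finset X)} {dep : X → ℕ} {y : X} (h : Ord H dep)
    (hy : ∀ v, Root H dep v ↔ v = y) (hc : ∀ β ∈ H, β.card = 2 ∨ β.card = 3) {T : Finset E}
    {par : X → Dart E} (hT : RT vtx T y par)
    (hp : ∀ β ∈ H, ∀ v ∈ β, v ≠ top dep β → vtx (fl (par v)) = top dep β) (W : Finset X) :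
    cc W H - 1 = slack vtx W T - ∑ β ∈ H.filter (·.card = 3),
      ind (top dep β ∉ W ∧ β.erase (top dep β) ⊆ W) := by
  have h1 := sum_split h univ fun v => ind (v ∈ W ∧ vtx (fl (par v)) ∉ W)
  have h0 : ∑ v, ind (Root H dep v) * ind (v ∈ W ∧ vtx (fl (par v)) ∉ W) =
      ind (y ∈ W ∧ vtx (fl (par y)) ∉ W) := by
    rw [sum_eq_single y (fun v _ a => by rw [ind_neg ((hy v).not.2 a), zero_mul]) (by simp),
      ind_pos ((hy y).2 rfl), one_mul]
  rw [h0, ← add_sum_erase _ _ (mem_univ y), add_right_inj] at h1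
  have h2 : ∀ β ∈ H, ∑ v ∈ (β ∩ univ).erase (top dep β), ind (v ∈ W ∧ vtx (fl (par v)) ∉ W) =
      ind (top dep β ∉ W ∧ (β ∩ W).Nonempty) +
      if β.card = 3 then ind (top dep β ∉ W ∧ β.erase (top dep β) ⊆ W) else 0 := fun β a => by
    have b : β.Nonempty := card_pos.1 (by have := hc β a; omega)
    rw [inter_univ, ← count_one (top_spec dep b).1 (hc β a)]
    exact sum_congr rfl fun v hv => by rw [hp β a v (mem_of_mem_erase hv) (ne_of_mem_erase hv)]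
  rw [sum_congr rfl h2, sum_add_distrib, ← sum_filter] at h1
  rw [cc_tree h hy, hT.slack, h1]
  by_cases a : y ∈ W
  · simp [ind, a]
  · simp [ind, a]
    ring

theorem col_data [Nonempty X] (hF : Fac τ vtx) (d₀ : Dart E)
    (hf : ∀ β : Finset X, (cone vtx ∅ univ).IsClique (β : Set X) → β.card = 3 → ∃ d, ∀ v,
      v ∈ β ↔ ∃ d' ∈ gcl τ ∅ false d, ∃ i, vtx (d'.1, i) = v)
    {H : Finset (Finset X)} (hH : HT vtx H) :
    ∃ (T : Finset E) (p : Finset (Dart E) → Dart E) (D : Finset (Finset (Dart E))),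
      (∃ dep, ∀ F ∈ faces τ d₀, Rt (gcl τ ∅ false) (· ∉ T) p dep F) ∧
      ∀ K : Finset X, vtx d₀ ∈ K → cc Kᶜ H - 1 = slack vtx Kᶜ T -
        ∑ F ∈ faces τ d₀ ∩ D, ind (Al τ vtx K (p F)) := by
  classical
  have : Nonempty E := ⟨d₀.1⟩
  obtain ⟨dep, ho, hy⟩ := hH.2 (vtx (fl d₀))
  obtain ⟨T, par, hT, hC, hp⟩ := exists_par (fun β a => (hH.1 β a).1) ho hy
  obtain ⟨p, dp, h⟩ := exists_rt (gcl τ ∅ false) (· ∉ T) (gcl τ ∅ false (d₀.1, false))
  have h' : ∀ F ∈ faces τ d₀, Rt (gcl τ ∅ false) (· ∉ T) p dp F := fun F a => by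
    obtain ⟨d, -, rfl⟩ := mem_image.1 (mem_of_mem_erase a)
    exact h _ (dual_conn hF.map hF.hv hF.surj hF.hm hC _ d) (ne_of_mem_erase a)
  choose! f hf using hf
  have hc : ∀ β ∈ H, β.card = 2 ∨ β.card = 3 := fun β a => by
    have b1 := (hH.1 β a).2
    by_cases b : 3 ≤ β.card
    · exact .inr (hF.tri β (hH.1 β a).1 b).1
    · omega
  have hf' : ∀ β ∈ H.filter (·.card = 3), ∀ v,
      v ∈ β ↔ ∃ d' ∈ gcl τ ∅ false (f β), ∃ i, vtx (d'.1, i) = v := fun β a =>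
    hf β (hH.1 β (mem_filter.1 a).1).1 (mem_filter.1 a).2
  refine ⟨T, p, (H.filter (·.card = 3)).image fun β => gcl τ ∅ false (f β), ⟨dp, h'⟩,
    fun K hK => ?_⟩
  rw [cc_slack ho hy hc hT (fun β a v b c => (hp β a v b c).2.2), inter_comm, ← sum_ite_mem,
    sum_image fun β a β' a' e => Finset.ext fun v => by
      rw [hf' β a, hf' β' a', show gcl τ ∅ false (f β) = gcl τ ∅ false (f β') from e]]
  congr 1
  refine sum_congr rfl fun β a => ?_
  have a1 := (mem_filter.1 a).1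
  have a2 : β.card = 3 := (mem_filter.1 a).2
  have a3 := (top_spec dep (card_pos.1 (by omega) : β.Nonempty)).1
  split_ifs with b
  · obtain ⟨b1, b2, -⟩ := h' _ b
    generalize p (gcl τ ∅ false (f β)) = d at b1 b2
    have c1 : ∀ i, vtx (d.1, i) ∈ β := fun i => (hf' β a _).2 ⟨d, b1 ▸ self_mem_gcl d, i, rfl⟩
    have c2 : ∀ i, vtx (d.1, i) ≠ top dep β := fun i e => by
      have c3 : vtx (d.1, !i) ≠ top dep β := fun e' => hF.simp.1 (d.1, i) (e.trans e'.symm)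
      obtain ⟨c4, c5, c6⟩ := hp β a1 _ (c1 _) c3
      have c7 := hF.simp.2 _ (d.1, !i) c5 (by rw [c6, ← e]; simp [fl])
      have c8 := hT.mem _ (mem_erase.2 ⟨c4, mem_univ _⟩)
      rw [c7] at c8
      exact b2 c8
    have c3 : β.erase (top dep β) = {vtx (d.1, false), vtx (d.1, true)} := by
      refine (eq_of_subset_of_card_le (insert_subset (mem_erase.2 ⟨c2 _, c1 _⟩)
        (singleton_subset_iff.2 (mem_erase.2 ⟨c2 _, c1 _⟩))) ?_).symm
      have c4 : vtx (d.1, false) ≠ vtx (d.1, true) := hF.simp.1 (d.1, false)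
      rw [card_pair c4, card_erase_of_mem a3, a2]
    have c4 : gcl τ ∅ false d ∈ inner τ vtx K ↔ β ⊆ Kᶜ := by
      rw [Slack.inner, mem_filter, and_iff_right (mem_image_of_mem _ (mem_univ d)), b1]
      refine ⟨fun c v hv => ?_, fun c d' hd => ⟨mem_compl.1 (c ((hf' β a _).2 ⟨d', hd, _, rfl⟩)),
        mem_compl.1 (c ((hf' β a _).2 ⟨d', hd, _, rfl⟩))⟩⟩
      obtain ⟨d', c5, i, rfl⟩ := (hf' β a v).1 hv
      cases i
      exacts [mem_compl.2 (c d' c5).1, mem_compl.2 (c d' c5).2]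
    congr 1
    have c5 : β ⊆ Kᶜ ↔ top dep β ∈ Kᶜ ∧ β.erase (top dep β) ⊆ Kᶜ := by
      rw [← insert_subset_iff, insert_erase a3]
    rw [Al, c4, c5, c3]
    simp only [insert_subset_iff, singleton_subset_iff, eq_iff_iff]
    tauto
  · have b1 : gcl τ ∅ false (f β) = gcl τ ∅ false (d₀.1, false) := by
      by_contra c
      exact b (mem_erase.2 ⟨c, mem_image_of_mem _ (mem_univ _)⟩)
    have c1 : ∀ i, vtx (d₀.1, i) ∈ β := fun i =>
      (hf' β a _).2 ⟨(d₀.1, false), b1 ▸ self_mem_gcl _, i, rfl⟩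
    have c2 := Root.eq_top ho ((hy _).2 rfl) a1 (c1 _)
    exact ind_neg fun c => mem_compl.1
      (c.2 (mem_erase.2 ⟨c2 ▸ hF.simp.1 d₀, c1 d₀.2⟩)) hK

end CaseAAux

open CaseAAux in
theorem aStmt : AStmt := by
  intro E X _ _ _ _ _ τ vtx d₀ hF hf
  classical
  have : Nonempty E := ⟨d₀.1⟩
  refine nr_col (fun H (c : Finset E × (Finset (Dart E) → Dart E) × Finset (Finset (Dart E))) =>
    (∃ dep, ∀ F ∈ faces τ d₀, Rt (gcl τ ∅ false) (· ∉ c.1) c.2.1 dep F) ∧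
      ∀ K : Finset X, vtx d₀ ∈ K → cc Kᶜ H - 1 = slack vtx Kᶜ c.1 -
        ∑ F ∈ faces τ d₀ ∩ c.2.2, ind (Al τ vtx K (c.2.1 F))) ?_ fun H hH => ?_
  swap
  · obtain ⟨T, p, D, h⟩ := col_data hF d₀ hf hH
    exact ⟨(T, p, D), h⟩
  refine ((((NR.rank_one (fun K => ((inner τ vtx K).card + Kᶜ.card : ℝ) -
    ((univ.filter fun e => vtx (e, false) ∈ Kᶜ ∧ vtx (e, true) ∈ Kᶜ).card + 1)) (fun _ => 1)
    (fun K hK => ?_) (fun _ _ => zero_le_one) fun _ _ _ _ => rfl).add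
    (NR.sum_le univ fun e _ => NR.rank_one
      (fun K => ind (vtx (e, false) ∈ Kᶜ ∧ vtx (e, true) ∈ Kᶜ))
      (fun x => ind (e ∉ x.2.1 ∧ e ∉ (faces τ d₀).image fun F => (x.2.2.1 F).1))
      (fun _ _ => ind_nonneg _) (fun _ _ => ind_nonneg _) fun _ _ _ _ => rfl)).add
    (nr_par (gcl τ ∅ false) (fun x => faces τ d₀ \ x.2.2.2) (fun x => x.2.2.1)
      (fun x ⟨⟨_, h⟩, _⟩ F hF => (h F (mem_sdiff.1 hF).1).1) (Al τ vtx)
      fun _ _ => True)).congr ?_).mono ?_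
  · rw [sub_nonneg]
    exact_mod_cast euler_le hF.hv hF.surj hK.1 hK.2.1 hK.2.2
  · rintro K ⟨H, T, p, D⟩ ⟨hK, -⟩ ⟨⟨dep, h⟩, h'⟩
    dsimp only at h h' ⊢
    rw [h' K hK.1, slack_id hK.1 h, ← sum_inter_add_sum_sdiff (faces τ d₀) D]
    simp only [ind_pos trivial, mul_one]
    ring
  · rw [card_univ]
    linarith

end Pool.Agent.Lib.MP_234305_co.Sums
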