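import Pool.Agent.Lib.MP_234305_co.H25Hyp

/-!
Rows with known roots, the bound for one piece, and the removal of apices.
-/

namespace Pool.Agent.Lib.MP_234305_co.Sums

open Finset Slack

namespace ApexAux

variable {V : Type} [DecidableEq V] {ω : ℕ} {U : Finset V} {G : SimpleGraph V}

theorem card_sig (hω : ∀ β ∈ cliq U G, β.card ≤ ω) :
    (((cliq U G).sigma fun β => β).card : ℝ) ≤ ω * (cliq U G).card := by
  rw [card_sigma, mul_comm]
  exact_mod_cast sum_le_card_nsmul _ _ ω hω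

theorem npair_le [Fintype V] (h : ∀ a b, G.Adj a b → a ∈ U) (K : Finset V) :
    npair G K ≤ ((cliq U G).sigma fun β => β).card := by
  classical
  unfold npair
  refine card_le_card_of_injOn (fun p => ⟨{p.1, p.2}, p.1⟩) (fun p hp => ?_) fun p hp q hq e => ?_
  · have a := (mem_filter.1 (mem_coe.1 hp)).2.1
    refine mem_coe.2 (mem_sigma.2 ⟨mem_cliq.2 ⟨?_, ?_⟩, by simp⟩)
    · exact insert_subset (h _ _ a) (singleton_subset_iff.2 (h _ _ a.symm))
    · simpa [SimpleGraph.isClique_pair] using fun _ => a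
  · have a := (mem_filter.1 (mem_coe.1 hp)).2.1.ne
    obtain ⟨e1, e2⟩ := Sigma.mk.inj e
    have e3 : p.1 = q.1 := eq_of_heq e2
    have e4 : p.2 ∈ ({q.1, q.2} : Finset V) := e1 ▸ by simp
    refine Prod.ext e3 ((mem_insert.1 e4).elim (fun e5 => ?_) mem_singleton.1)
    exact absurd (e3.trans e5.symm) a

end ApexAux

open ApexAux

theorem rootStmt : RootStmt := by
  intro V _ _ _ ω U K G hK hω
  classical
  have key : ∀ Q ∈ K.powerset, NR (fun S : Finset V => S ⊆ U ∧ S ∩ K = Q) (HC U G)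
      (fun S x => ent K (S, true) x) ((U.card : ℝ) + ω * (cliq U G).card) := by
    intro Q hQ
    obtain ⟨Q', hQ'⟩ : ∃ Q' : Finset (Finset V) × (V → V) → Finset V × (V → ℕ) → Prop,
        ∀ x c, Q' x c ↔ HC U G x ∧ c.1 ⊆ Q ∧ c.1.card = (Q.image x.2).card ∧ Ord x.1 c.2 ∧
          ∀ y ∈ c.1, Root x.1 c.2 y := ⟨_, fun _ _ => Iff.rfl⟩
    refine nr_col Q' ?_ fun x hx => ?_
    · have a1 := nr_fam (P := fun S : Finset V => S ⊆ U ∧ S ∩ K = Q)
        (Q := fun x : (Finset (Finset V) × (V → V)) × (Finset V × (V → ℕ)) => Q' x.1 x.2) U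
        (fun x => U.filter fun v => Root x.1.1 x.2.2 v ∧ v ∉ x.2.1) (fun _ v => v)
        (fun _ _ _ h => (mem_filter.1 h).1) (fun S v => ind (v ∈ S)) fun _ _ => ind_nonneg _
      have a2 := nr_fam (P := fun S : Finset V => S ⊆ U ∧ S ∩ K = Q)
        (Q := fun x : (Finset (Finset V) × (V → V)) × (Finset V × (V → ℕ)) => Q' x.1 x.2)
        ((cliq U G).sigma fun β => β) (fun x => x.1.1.filter Finset.Nonempty)
        (fun x β => ⟨β, top x.2.2 β⟩) (fun x hx β h => by
          obtain ⟨h1, h2⟩ := mem_filter.1 h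
          have h3 := ((hQ' _ _).1 hx).1.1 β h1
          exact mem_sigma.2 ⟨mem_cliq.2 ⟨h3.1, h3.2.1⟩, (top_spec _ h2).1⟩)
        (fun S a => ind (a.2 ∉ S ∧ (a.1 ∩ S).Nonempty)) fun _ _ => ind_nonneg _
      refine ((a1.add a2).congr fun S x hS hx => ?_).mono (add_le_add le_rfl (card_sig hω))
      obtain ⟨-, b1, b2, b3, b4⟩ := (hQ' _ _).1 hx
      have b5 : x.2.1 ⊆ S.filter (Root x.1.1 x.2.2) := fun y hy =>
        mem_filter.2 ⟨(mem_inter.1 (hS.2 ▸ b1 hy)).1, b4 y hy⟩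
      have b6 : (U.filter fun v => Root x.1.1 x.2.2 v ∧ v ∉ x.2.1).filter (· ∈ S) =
          S.filter (Root x.1.1 x.2.2) \ x.2.1 := by
        ext v
        have := @hS.1 v
        simp only [mem_filter, mem_sdiff]
        tauto
      have b7 : ∑ β ∈ x.1.1.filter Finset.Nonempty,
          ind (top x.2.2 β ∉ S ∧ (β ∩ S).Nonempty) =
          ∑ β ∈ x.1.1, ind (top x.2.2 β ∉ S ∧ (β ∩ S).Nonempty) :=
        sum_filter_of_ne fun β _ h => by
          by_contra e
          exact h (ind_neg fun a => e (a.2.mono inter_subset_left))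
      have b8 : ∀ (T : Finset V) (p : V → Prop) [DecidablePred p],
          ∑ v ∈ T, ind (p v) = (T.filter p).card := fun T p _ => by
        rw [card_filter, Nat.cast_sum]
        exact sum_congr rfl fun v _ => by by_cases a : p v <;> simp [ind, a]
      simp only [ent, if_true, cc_eq b3, b7, hS.2, ← b2]
      rw [b8, b8, b6, cast_card_sdiff b5]
      ring
    · obtain ⟨dep, hd⟩ := hx.2
      obtain ⟨Y, y1, y2, y3⟩ := exists_subset_injOn_image_eq_of_surjOn (f := x.2) (Q : Set V)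
        (Q.image x.2) (by rw [coe_image]; exact Set.surjOn_image _ _)
      obtain ⟨d, d1, d2⟩ := reroot_set (fun β h => (hx.1 β h).1) (fun β h => (hx.1 β h).2.2) hd Y
        ((coe_subset.1 y1).trans ((mem_powerset.1 hQ).trans hK)) y2
      exact ⟨(Y, d), (hQ' _ _).2 ⟨hx, y1, by rw [← y3, card_image_of_injOn y2], d1.1, d2⟩⟩
  refine (nr_cover K.powerset _ (fun S hS => ⟨_, mem_powerset.2 inter_subset_right, hS, rfl⟩)
    key).mono (le_of_eq ?_)
  rw [card_powerset]
  push_cast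
  rfl

theorem baseStmt (h : RootStmt) : BaseStmt := by
  intro V _ _ _ ω L N U G hG hω hM hL hN
  classical
  refine ⟨hG, fun K h1 h2 => ?_⟩
  have k1 : K.card ≤ ω := hω K (mem_cliq.2 ⟨h1, h2⟩)
  have gen : NR (Row U) (HC U G) (ent K)
      (N + 2 ^ K.card * ((U.card : ℝ) + ω * (cliq U G).card)) :=
    nr_or (P₁ := fun i => i.2 = false ∧ i.1 ⊆ U ∧ i.1.Nonempty)
      (P₂ := fun i => i.2 = true ∧ i.1 ⊆ U)
      (NR.comap hM Prod.fst id (fun _ a => a.2) (fun _ a => a) fun i x a _ => by simp [ent, a.1])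
      ((h V ω U K G h1 hω).comap Prod.fst id (fun _ a => a.2) (fun _ a => a) fun i x a _ => by
        simp [ent, a.1])
      fun i hi => by
        cases e : i.2
        · exact .inl ⟨rfl, hi.1, hi.2 e⟩
        · exact .inr ⟨rfl, hi.1⟩
  by_cases e : K = U
  · subst e
    refine ⟨k1, ?_, ?_⟩
    · have : npair G K = 0 := by
        unfold npair
        exact card_eq_zero.2 (filter_eq_empty_iff.2 fun p _ a =>
          a.2 ⟨hG _ _ a.1, hG _ _ a.1.symm⟩)
      simp [this]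
    · rw [if_pos rfl]
      refine (NR.of_row_label (P := Row K) (Q := HC K G) (M := ent K) (K.powerset ×ˢ univ) id
        (fun i hi => mem_product.2 ⟨mem_powerset.2 hi.1, mem_univ _⟩)
        (fun _ _ a b => gen.entry_nonneg a b) fun i i' j _ _ _ e => congrArg (ent K · j) e).mono ?_
      rw [card_product, card_powerset, card_univ, Fintype.card_bool, ← pow_succ]
      exact_mod_cast Nat.pow_le_pow_right two_pos (by omega)
  have k2 : K.card < U.card := card_lt_card ⟨h1, fun a => e (subset_antisymm h1 a)⟩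
  have k3 := hN (card_pos.1 (by omega))
  have k4 : (1 : ℝ) ≤ U.card - K.card := by
    have : (K.card : ℝ) + 1 ≤ U.card := by exact_mod_cast k2
    linarith
  have k5 : (K.card : ℝ) ≤ ω := by exact_mod_cast k1
  have k6 : (0 : ℝ) ≤ K.card := Nat.cast_nonneg _
  have k7 : L * U.card ≤ L * ((ω + 1) * (U.card - K.card)) :=
    mul_le_mul_of_nonneg_left (by nlinarith) hL
  have k8 : (0 : ℝ) ≤ U.card + ω * (cliq U G).card := by positivity
  have k9 : (0 : ℝ) ≤ 2 ^ (ω + 1) * ((ω + 1) * (U.card - K.card) - (ω + 1 - K.card)) :=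
    mul_nonneg (by positivity) (by nlinarith)
  have k10 : (0 : ℝ) ≤ 2 ^ (ω + 1) * (ω + 1 - K.card) := mul_nonneg (by positivity) (by linarith)
  refine ⟨k1, ?_, ?_⟩
  · have a1 : (npair G K : ℝ) ≤ ω * (cliq U G).card :=
      (Nat.cast_le.2 (npair_le hG K)).trans (card_sig hω)
    have a2 := le_mul_of_one_le_left k8 (one_le_pow₀ (n := ω) (one_le_two (α := ℝ)))
    have a3 := NR.nonneg hM
    have a4 : (0 : ℝ) ≤ U.card := Nat.cast_nonneg _
    linarith
  · rw [if_neg e]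
    refine gen.mono ?_
    have a1 := mul_le_mul_of_nonneg_right (pow_le_pow_right₀ (one_le_two (α := ℝ)) k1) k8
    linarith

theorem apexStmt (h : RootStmt) : ApexStmt := by
  intro V X _ _ _ _ _ _ ι A U G P ω N hι hA hU hP hω hM
  obtain ⟨pre, hpre⟩ : ∃ pre : Finset V → Finset X, ∀ β a, a ∈ pre β ↔ ι a ∈ β :=
    ⟨fun β => univ.filter (ι · ∈ β), fun _ _ => by simp⟩
  have p1 : ∀ β : Finset V, G.IsClique (β : Set V) → P.IsClique (pre β : Set X) :=
    fun β hβ a ha b hb e => hP a b (hβ ((hpre _ _).1 ha) ((hpre _ _).1 hb) (hι.ne e))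
  have p2 : ∀ β ∈ cliq U G, pre β ∈ cliq univ P := fun β hβ =>
    mem_cliq.2 ⟨subset_univ _, p1 β (mem_cliq.1 hβ).2⟩
  have c1 : ∀ β ∈ cliq U G, β.card ≤ A.card + ω := fun β hβ => by
    refine (card_le_card (t := A ∪ (pre β).image ι) fun v hv => ?_).trans
      ((card_union_le _ _).trans (add_le_add le_rfl (card_image_le.trans (hω _ (p2 β hβ)))))
    rcases hU v ((mem_cliq.1 hβ).1 hv) with a | ⟨a, rfl⟩
    · exact mem_union_left _ a
    · exact mem_union_right _ (mem_image_of_mem _ ((hpre _ _).2 hv))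
  refine ⟨c1, ?_, ?_⟩
  · rw [← card_powerset, ← card_product]
    refine card_le_card_of_injOn (fun β => (β ∩ A, pre β))
      (fun β hβ => mem_coe.2 (mem_product.2 ⟨mem_powerset.2 inter_subset_right, p2 β hβ⟩)) ?_
    have : ∀ β ∈ cliq U G, ∀ β', (β ∩ A, pre β) = (β' ∩ A, pre β') → β ⊆ β' := by
      intro β hβ β' e v hv
      obtain ⟨e1, e2⟩ := Prod.mk.inj e
      rcases hU v ((mem_cliq.1 hβ).1 hv) with a | ⟨a, rfl⟩
      · exact (mem_inter.1 (e1 ▸ mem_inter.2 ⟨hv, a⟩)).1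
      · exact (hpre _ _).1 (e2 ▸ (hpre _ _).2 hv)
    exact fun β hβ β' hβ' e => subset_antisymm (this β hβ β' e) (this β' hβ' β e.symm)
  have p3 : ∀ T ⊆ U, (∀ a ∈ A, a ∉ T) → (pre T).card = T.card := fun T h1 h2 => by
    rw [← card_image_of_injective _ hι]
    congr 1
    ext v
    refine ⟨fun hv => ?_, fun hv => ?_⟩
    · obtain ⟨a, b, rfl⟩ := mem_image.1 hv
      exact (hpre _ _).1 b
    · obtain ⟨a, rfl⟩ := (hU v (h1 hv)).resolve_left fun a => h2 v a hv
      exact mem_image_of_mem _ ((hpre _ _).2 hv)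
  have p4 : ∀ (dep : V → ℕ) β v, Nt (dep ∘ ι) (pre β) v → Nt dep β (ι v) :=
    fun dep β v ⟨a, u, b, c⟩ => ⟨(hpre _ _).1 a, ι u, (hpre _ _).1 b, c⟩
  have p5 : ∀ x, HC U G x → ∃ lab : X → X, HC univ P (x.1.image pre, lab) := by
    rintro x ⟨h1, dep, h2, -⟩
    have o : Ord (x.1.image pre) (dep ∘ ι) := ⟨h2.1.comp hι, fun β a β' b v c d => by
      obtain ⟨γ, a', rfl⟩ := mem_image.1 a
      obtain ⟨γ', b', rfl⟩ := mem_image.1 b
      rw [h2.2 γ a' γ' b' _ (p4 _ _ _ c) (p4 _ _ _ d)]⟩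
    obtain ⟨lab, -, l2, -, l4, -⟩ := exists_lab o
    refine ⟨lab, fun β a => ⟨subset_univ _, ?_, l4 β a⟩, _, o, fun u _ v _ a b c => ?_⟩
    · obtain ⟨γ, a', rfl⟩ := mem_image.1 a
      exact p1 γ (h1 γ a').2.1
    · exact (l2 u a).symm.trans (c.trans (l2 v b))
  choose! lab hlab using p5
  refine nr_or (P₁ := fun S => S ⊆ U ∧ S.Nonempty ∧ ∀ a ∈ A, a ∉ S)
    (P₂ := fun S => ∃ a ∈ A, S ⊆ U ∧ a ∈ S) ?_ (nr_cover A _ (fun _ a => a) fun a ha => ?_)
    fun S hS => ?_
  · refine NR.comap hM pre (fun x => (x.1.image pre, lab x)) (fun S hS => ⟨subset_univ _, ?_⟩) hlab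
      fun S x hS hx => ?_
    · rw [← card_pos, p3 S hS.1 hS.2.2, card_pos]
      exact hS.2.1
    obtain ⟨-, dep, h2, -⟩ := hx
    have e : ∀ β, (pre β ∩ pre S).card = (β ∩ S).card := fun β => by
      rw [← p3 (β ∩ S) (inter_subset_right.trans hS.1) fun a b c => hS.2.2 a b (mem_inter.1 c).2]
      congr 1
      ext a
      simp only [mem_inter, hpre]
    simp only [cc]
    rw [sum_image_of_pairwise_eq_zero fun β a β' b c d => ?_, p3 S hS.1 hS.2.2]
    · simp only [e]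
    refine Nat.cast_eq_zero.2 (Nat.sub_eq_zero_of_le (card_le_one.2 fun u hu v hv => ?_))
    by_contra e1
    have hu' := (mem_inter.1 hu).1
    have hv' := (mem_inter.1 hv).1
    rcases lt_or_gt_of_ne ((h2.1.comp hι).ne e1) with e2 | e2
    · exact c (h2.2 β a β' b _ (p4 _ _ v ⟨hv', u, hu', e2⟩) (p4 _ _ v (d ▸ ⟨hv', u, hu', e2⟩)))
    · exact c (h2.2 β a β' b _ (p4 _ _ u ⟨hu', v, hv', e2⟩) (p4 _ _ u (d ▸ ⟨hu', v, hv', e2⟩)))
  · have := h V (A.card + ω) U {a} G (singleton_subset_iff.2 (hA ha)) c1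
    rw [card_singleton, pow_one] at this
    exact this.comap id id (fun _ b => b.1) (fun _ b => b) fun S x b _ => by
      simp [ent, inter_singleton_of_mem b.2]
  · by_cases e : ∃ a ∈ A, a ∈ S
    · obtain ⟨a, b, c⟩ := e
      exact .inr ⟨a, b, hS.1, c⟩
    · exact .inl ⟨hS.1, hS.2, fun a b c => e ⟨a, b, c⟩⟩

end Pool.Agent.Lib.MP_234305_co.Sums
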