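import Pool.Agent.Lib.MP_234305_co.H25Hyp

/-!
Hypertrees against rows that avoid a dual cycle which is not a cut.
-/

namespace Pool.Agent.Lib.MP_234305_co.Sums

open Finset Matrix Slack

namespace CaseB

variable {E X : Type} [Fintype E] [DecidableEq E] [Fintype X] [DecidableEq X]
  {τ : Flag E → Flag E} {vtx : Dart E → X} {φ : Vec E}

omit [Fintype E] [DecidableEq E] [Fintype X] [DecidableEq X] in
theorem fl_fl (d : Dart E) : fl (fl d) = d := by simp [fl]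

omit [Fintype E] [DecidableEq E] [Fintype X] [DecidableEq X] in
theorem edge_eq (h : Simp vtx) {d d' : Dart E}
    (e : (vtx d = vtx d' ∧ vtx (fl d) = vtx (fl d')) ∨ (vtx d = vtx (fl d') ∧ vtx (fl d) = vtx d')) :
    d.1 = d'.1 := by
  rcases e with e | e
  · rw [h.2 _ _ e.1 e.2]
  · rw [h.2 d (fl d') e.1 (by rw [fl_fl]; exact e.2)]
    rfl

/-- A dual cycle sums to zero on a triangle. -/
theorem tri_zero (hF : Fac τ vtx) (hφ : ∀ d, φ ⬝ᵥ st (gcl τ ∅ false d) = 0) {β : Finset X}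
    (hc : (cone vtx ∅ univ).IsClique (β : Set X)) {d d₁ d₂ : Dart E} (a1 : vtx d ∈ β)
    (a2 : vtx (fl d) ∈ β) (a3 : vtx (fl d₁) ∈ β) (b1 : vtx d₁ = vtx d) (b2 : vtx d₂ = vtx (fl d))
    (b3 : vtx (fl d₂) = vtx (fl d₁)) : φ d.1 + (φ d₁.1 + φ d₂.1) = 0 := by
  have n1 := hF.simp.1 d
  have n2 := b1 ▸ hF.simp.1 d₁
  have n3 := b3 ▸ b2 ▸ hF.simp.1 d₂
  have h1 : ({vtx d, vtx (fl d), vtx (fl d₁)} : Finset X) ⊆ β := by
    simp [insert_subset_iff, a1, a2, a3]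
  have h2 : ({vtx d, vtx (fl d), vtx (fl d₁)} : Finset X).card = 3 :=
    card_eq_three.2 ⟨_, _, _, n1, n2, n3, rfl⟩
  obtain ⟨h3, f, h4, h5, -⟩ := hF.tri β hc (h2 ▸ card_le_card h1)
  have h6 := eq_of_subset_of_card_le h1 (by omega)
  have h7 := Euler.mem_perp.1 (Euler.mem_Cyc.2 hφ) _ (Euler.mem_Cut.2 ⟨f, h4, rfl⟩)
  have i0 : ∀ d' : Dart E, Ins vtx β d'.1 ↔ vtx d' ∈ β ∧ vtx (fl d') ∈ β := fun d' =>
    both' (fun d => vtx d ∈ β) d'
  have m1 : d.1 ≠ d₁.1 := fun e => n3 (by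
    have := (both' (fun d' => vtx d' = vtx d ∨ vtx d' = vtx (fl d)) d₁).1
      (e ▸ (both' (fun d' => vtx d' = vtx d ∨ vtx d' = vtx (fl d)) d).2 ⟨.inl rfl, .inr rfl⟩)
    exact (this.2.resolve_left n2.symm).symm)
  have m2 : d.1 ≠ d₂.1 := fun e => n3 (by
    have := (both' (fun d' => vtx d' = vtx d ∨ vtx d' = vtx (fl d)) d₂).1
      (e ▸ (both' (fun d' => vtx d' = vtx d ∨ vtx d' = vtx (fl d)) d).2 ⟨.inl rfl, .inr rfl⟩)
    exact (((b3 ▸ this.2 :)).resolve_left n2.symm).symm)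
  have m3 : d₁.1 ≠ d₂.1 := fun e => n3 (by
    have := (both' (fun d' => vtx d' = vtx d ∨ vtx d' = vtx (fl d₁)) d₂).1
      (e ▸ (both' (fun d' => vtx d' = vtx d ∨ vtx d' = vtx (fl d₁)) d₁).2 ⟨.inl b1, .inr rfl⟩)
    exact ((b2 ▸ this.1 :)).resolve_left n1.symm)
  rw [dotProduct, ← sum_subset (subset_univ {d.1, d₁.1, d₂.1}) fun e _ he => ?_,
    sum_insert (by simp [m1, m2]), sum_pair m3] at h7
  · simpa only [Euler.cobD_apply, h5, iz_pos ((i0 d).2 ⟨a1, a2⟩), iz_pos ((i0 d₁).2 ⟨b1 ▸ a1, a3⟩),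
      iz_pos ((i0 d₂).2 ⟨b2 ▸ a2, b3 ▸ a3⟩), one_mul] using h7
  rw [Euler.cobD_apply, h5, iz_neg, zero_mul]
  intro c
  obtain ⟨c1, c2⟩ := (i0 (e, false)).1 c
  have c3 := hF.simp.1 (e, false)
  have g := fun d' => edge_eq hF.simp (d := (e, false)) (d' := d')
  simp only [← h6, mem_insert, mem_singleton, not_or] at c1 c2 he
  rcases c1 with c1 | c1 | c1 <;> rcases c2 with c2 | c2 | c2
  · exact c3 (c1.trans c2.symm)
  · exact he.1 (g d (.inl ⟨c1, c2⟩))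
  · exact he.2.1 (g d₁ (.inl ⟨c1.trans b1.symm, c2⟩))
  · exact he.1 (g d (.inr ⟨c1, c2⟩))
  · exact c3 (c1.trans c2.symm)
  · exact he.2.2 (g d₂ (.inl ⟨c1.trans b2.symm, c2.trans b3.symm⟩))
  · exact he.2.1 (g d₁ (.inr ⟨c1, c2.trans b1.symm⟩))
  · exact he.2.2 (g d₂ (.inr ⟨c1.trans b3.symm, c2.trans b2.symm⟩))
  · exact c3 (c1.trans c2.symm)

/-- Data attached to a column. -/
structure BD (E X : Type) where
  /-- the order for the fixed root -/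
  d₁ : X → ℕ
  /-- the order for the special root -/
  d₂ : X → ℕ
  /-- the tree -/
  T : Finset E
  /-- the path -/
  c : CD E X
  /-- the member of a hyperedge on the path -/
  u : Finset X → X

/-- The properties of the data. -/
def BQ [Nonempty X] (vtx : Dart E → X) (φ : Vec E) (r : X) (H : Finset (Finset X)) (x : BD E X) :
    Prop :=
  (∀ β ∈ H, (cone vtx ∅ univ).IsClique (β : Set X) ∧ β.Nonempty ∧ x.u β ∈ β ∧
    ∀ d, vtx d ∈ β → vtx (fl d) ∈ β → φ d.1 = x.c.t (vtx d) + x.c.t (vtx (fl d))) ∧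
  Ord H x.d₁ ∧ (∀ v, Root H x.d₁ v ↔ v = r) ∧ Ord H x.d₂ ∧
  (∀ v, Root H x.d₂ v ↔ v = vtx (x.c.e₀, false)) ∧ CQ vtx φ r x.T x.c ∧
  ∀ W : Finset X, ∑ β ∈ H, ind (top x.d₂ β ∉ W ∧ x.u β ∈ W) =
    ∑ a ∈ x.c.A, ind (a ∈ W ∧ vtx (fl (x.c.par' a)) ∉ W)

theorem exists_bq [Nonempty X] (hF : Fac τ vtx) (hφ : ∀ d, φ ⬝ᵥ st (gcl τ ∅ false d) = 0)
    (hn : ∀ t : X → Z2, ∃ e, φ e ≠ t (vtx (e, false)) + t (vtx (e, true))) (r : X)
    {H : Finset (Finset X)} (hH : HT vtx H) : ∃ x, BQ vtx φ r H x := by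
  classical
  have : Nonempty E := ⟨(hn 0).choose⟩
  obtain ⟨d₁, o1, r1⟩ := hH.2 r
  obtain ⟨T₁, p₁, a1, -, a2⟩ := exists_par (fun β h => (hH.1 β h).1) o1 r1
  obtain ⟨t, t1, t2⟩ := a1.exists_cob φ
  have t3 : ∀ β ∈ H, ∀ v ∈ β, v ≠ top d₁ β → φ (p₁ v).1 = t v + t (top d₁ β) := fun β a v b c => by
    obtain ⟨b1, b2, b3⟩ := a2 β a v b c
    rw [t2 _ (a1.mem v (by simpa using b1)), both (fun d => t (vtx d)), b2, b3]
  have t4 : ∀ β ∈ H, ∀ d, vtx d ∈ β → vtx (fl d) ∈ β → φ d.1 = t (vtx d) + t (vtx (fl d)) := by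
    intro β a d b c
    by_cases e1 : vtx (fl d) = top d₁ β
    · have e2 : vtx d ≠ top d₁ β := e1 ▸ hF.simp.1 d
      obtain ⟨-, b2, b3⟩ := a2 β a _ b e2
      rw [edge_eq hF.simp (.inl ⟨b2.symm, e1.trans b3.symm⟩), t3 β a _ b e2, e1]
    obtain ⟨-, b2, b3⟩ := a2 β a _ c e1
    by_cases e2 : vtx d = top d₁ β
    · rw [edge_eq hF.simp (.inr ⟨e2.trans b3.symm, b2.symm⟩), t3 β a _ c e1, e2, add_comm]
    obtain ⟨-, b4, b5⟩ := a2 β a _ b e2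
    have := tri_zero hF hφ (hH.1 β a).1 b c (b5 ▸ (top_spec d₁ ⟨_, b⟩).1) b4 b2 (b3.trans b5.symm)
    rw [t3 β a _ b e2, t3 β a _ c e1, add_add_add_comm, z2_add_self, add_zero] at this
    exact z2_add_eq_zero.1 this
  obtain ⟨e₀, h4⟩ := hn t
  obtain ⟨d₂, o2, r2⟩ := hH.2 (vtx (e₀, false))
  obtain ⟨T, p, b1, b2, b3⟩ := exists_par (fun β h => (hH.1 β h).1) o2 r2
  obtain ⟨par, h1⟩ := b2.rt r
  obtain ⟨A, h6, h7, h8⟩ := b1.exists_anc (vtx (e₀, true))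
  have hy : vtx (e₀, false) ∉ A := fun a => by simpa using h6 a
  have h9 : ∀ a ∈ A, ∀ a' ∈ A, vtx (fl (p a)) = vtx (fl (p a')) → a = a' := by
    intro a c1 a' c2 c3
    by_contra c4
    have c5 := h7 fun v => ind (v = vtx (fl (p a)))
    have c6 := sum_le_sum_of_subset_of_nonneg (f := fun v => ind (vtx (fl (p v)) = vtx (fl (p a))))
      (show {a, a'} ⊆ A by simp [insert_subset_iff, c1, c2]) fun _ _ _ => ind_nonneg _
    rw [sum_pair c4, ind_pos rfl, ind_pos c3.symm] at c6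
    have c7 : ∑ v ∈ insert (vtx (e₀, false)) A, ind (v = vtx (fl (p a))) ≤ 1 := by
      by_cases c : vtx (fl (p a)) ∈ insert (vtx (e₀, false)) A
      · rw [sum_eq_single_of_mem _ c fun v _ c => ind_neg c, ind_pos rfl]
      · rw [sum_eq_zero fun v b => ind_neg fun (e : v = vtx (fl (p a))) => c (e ▸ b)]
        norm_num
    rw [sum_insert hy] at c7
    rw [sum_sub_distrib] at c5
    linarith [ind_nonneg (vtx (e₀, true) = vtx (fl (p a)))]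
  have h10 : ∀ β : Finset X, ∃ u, β ∈ H → u ∈ β ∧ ∀ W : Finset X, ind (top d₂ β ∉ W ∧ u ∈ W) =
      ∑ v ∈ (β ∩ A).erase (top d₂ β), ind (v ∈ W ∧ vtx (fl (p v)) ∉ W) := by
    intro β
    rcases ((β ∩ A).erase (top d₂ β)).eq_empty_or_nonempty with e | ⟨u, e⟩
    · exact ⟨top d₂ β, fun a => ⟨(top_spec d₂ (card_pos.1 (by have := (hH.1 β a).2; omega))).1,
        fun W => by rw [e, sum_empty, ind_neg fun c => c.1 c.2]⟩⟩
    · simp only [mem_erase, mem_inter] at e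
      refine ⟨u, fun a => ⟨e.2.1, fun W => ?_⟩⟩
      rw [sum_eq_single_of_mem u (by simp [e]) fun v c1 c2 => absurd (by
        simp only [mem_erase, mem_inter] at c1
        exact h9 v c1.2.2 u e.2.2 ((b3 β a v c1.2.1 c1.1).2.2.trans
          (b3 β a u e.2.1 e.1).2.2.symm)) c2, (b3 β a u e.2.1 e.1).2.2, and_comm]
  choose u hu using h10
  refine ⟨⟨d₁, d₂, T, ⟨par, t, e₀, p, A⟩, u⟩, fun β a => ⟨(hH.1 β a).1, ⟨_, (hu β a).1⟩, (hu β a).1,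
    t4 β a⟩, o1, r1, o2, r2, ⟨h1, t1, fun e he => ?_, h4, b1, h6, h7, h8⟩, fun W => ?_⟩
  · rw [← b1.image] at he
    obtain ⟨v, c1, rfl⟩ := mem_image.1 he
    obtain ⟨β, c2, c3⟩ : ∃ β ∈ H, Nt d₂ β v := by
      simpa only [Root, not_forall, not_not, exists_prop] using (r2 v).not.2 (ne_of_mem_erase c1)
    obtain ⟨c4, c5⟩ := (nt_iff o2.1).1 c3
    obtain ⟨-, c6, c7⟩ := b3 β c2 v c4 c5
    rw [both (fun d => t (vtx d))]
    exact t4 β c2 _ (c6.symm ▸ c4) (c7.symm ▸ (top_spec d₂ ⟨v, c4⟩).1)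
  · dsimp only
    rw [sum_split o2 A, sum_eq_zero (s := A) fun v c => by
      rw [ind_neg fun e => hy ((r2 v).1 e ▸ c), zero_mul], zero_add]
    exact sum_congr rfl fun β a => (hu β a).2 W

end CaseB

open CaseB in
theorem bStmt : BStmt := by
  intro E X _ _ _ _ _ τ vtx φ r N hF hφ hn hG
  classical
  have hτ := Euler.cov_isMap hF.map φ
  have hc : ∀ d d', Sec (cov τ φ) ∅ true d d' ↔ lab vtx φ d = lab vtx φ d' := fun d d' => by
    rw [cov_sec E τ hF.map, lab, lab, Prod.mk.injEq, hF.hv]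
  obtain ⟨e₁, -⟩ := hn 0
  have : Nonempty (BD E X) :=
    ⟨⟨0, 0, ∅, ⟨fun _ => (e₁, true), 0, e₁, fun _ => (e₁, true), ∅⟩, fun _ => r⟩⟩
  refine nr_row (fun K (f : X → Z2) => r ∈ K ∧ f r = 0 ∧ ∀ e, vtx (e, false) ∈ K →
    vtx (e, true) ∈ K → φ e = f (vtx (e, false)) + f (vtx (e, true))) ?_ fun _ h => h
  refine nr_col (BQ vtx φ r) ?_ fun H hH => exists_bq hF hφ hn r hH
  let D : Finset X × (X → Z2) → Vec (E × Z2) := fun x =>
    st (univ.filter fun d => (lab vtx φ d).1 ∈ x.1 ∧ x.2 (lab vtx φ d).1 = (lab vtx φ d).2)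
  let P : Finset X × (X → Z2) → Prop := fun x => r ∈ x.1 ∧ x.2 r = 0 ∧ ∀ e, vtx (e, false) ∈ x.1 →
    vtx (e, true) ∈ x.1 → φ e = x.2 (vtx (e, false)) + x.2 (vtx (e, true))
  let Q : Finset (Finset X) × BD E X → Prop := fun x => BQ vtx φ r x.1 x.2
  let 𝒜 : Finset (Finset X × X × X × Z2) :=
    (cliq univ (cone vtx ∅ univ)).biUnion fun β => {β} ×ˢ β ×ˢ β ×ˢ univ
  have hA : (𝒜.card : ℝ) ≤ 18 * (cliq univ (cone vtx ∅ univ)).card := by
    have := card_biUnion_le_card_mul (cliq univ (cone vtx ∅ univ))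
      (fun β => {β} ×ˢ β ×ˢ β ×ˢ (univ : Finset Z2)) 18 fun β a => by
        have b : β.card ≤ 3 := by
          by_contra c
          have := (hF.tri β (mem_cliq.1 a).2 (by omega)).1
          omega
        simp only [card_product, card_singleton, card_univ, ZMod.card]
        nlinarith
    rw [mul_comm]
    exact_mod_cast this
  have hm : ∀ x, Q x → ∀ β ∈ x.1, ∀ (d : X → ℕ) (b : Z2), (β, top d β, x.2.u β, b) ∈ 𝒜 :=
    fun x h β a d b => mem_biUnion.2 ⟨β, mem_cliq.2 ⟨subset_univ _, (h.1 β a).1⟩, by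
      simp [(top_spec d (h.1 β a).2.1).1, (h.1 β a).2.2.1]⟩
  have n1 := nr_fam (P := P) (Q := Q) 𝒜 (fun x => x.1)
    (fun x β => (β, top x.2.d₁ β, x.2.u β, x.2.c.t (top x.2.d₁ β))) (fun x h β a => hm x h β a _ _)
    (fun i a => ind (a.2.1 ∈ i.1 ∧ i.2 a.2.1 ≠ a.2.2.2 ∧ (a.1 ∩ i.1ᶜ).Nonempty))
    fun _ _ => ind_nonneg _
  have n2 := nr_fam (P := P) (Q := Q) 𝒜 (fun x => x.1)
    (fun x β => (β, top x.2.d₂ β, x.2.u β, x.2.c.t (top x.2.d₂ β))) (fun x h β a => hm x h β a _ _)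
    (fun i a => ind ((a.2.1 ∈ i.1 ∧ i.2 a.2.1 = a.2.2.2) ∧ a.2.2.1 ∈ i.1 ∧ (a.1 ∩ i.1ᶜ).Nonempty))
    fun _ _ => ind_nonneg _
  refine (((n1.add n2).add ((hG.swap.comap (P' := P) (Q' := Q) D
    (fun x => (x.2.c.e₀, Mt vtx x.2.c)) ?_ ?_ fun _ _ _ _ => rfl).smul (c := 1 / 2)
    (by norm_num))).congr ?_).mono (by linarith [Nat.cast_nonneg (α := ℝ) 𝒜.card])
  · intro x _ d
    simpa using st_dot_st (B := ∅) hτ (by simp) (fun y hy => by
      simp only [mem_filter, mem_univ, true_and, (hc _ _).1 (Sec.step hy)])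
      fun y hy => mem_gcl_step hy d
  · rintro ⟨H, x⟩ ⟨-, -, -, -, -, h, -⟩ d hd
    have h1 := h.sum id rfl (fun p => lab vtx φ d = p) (D := st (gcl (cov τ φ) ∅ true d))
      fun e => by simp only [st_eq, mem_gcl, hc]
    have h2 : ∀ i, ¬ lab vtx φ d = (vtx (x.c.e₀, i), x.c.t (vtx (x.c.e₀, i))) := fun i e =>
      hd ((x.c.e₀, x.c.t (vtx (x.c.e₀, i)) + if i then φ x.c.e₀ else 0), i)
        (mem_gcl.2 ((hc _ _).2 (by rw [e, lab, add_assoc, z2_add_self, add_zero]))) rfl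
    refine h1.trans ((h.2.2.2.2.2.2.2 fun u => iz (lab vtx φ d = (u, x.c.t u))).trans ?_)
    rw [iz_neg (h2 _), iz_neg (h2 _), add_zero]
  rintro ⟨K, f⟩ ⟨H, d₁, d₂, T, c, u⟩ ⟨k1, k2, k3⟩ ⟨q1, o1, r1, o2, r2, h, q2⟩
  dsimp only at k1 k2 k3 q1 o1 r1 o2 r2 h q2 ⊢
  have hD : ∀ e, D (K, f) e = iz ((fun p : X × Z2 => p.1 ∈ K ∧ f p.1 = p.2) (lab vtx φ (e, false))) +
      iz ((fun p : X × Z2 => p.1 ∈ K ∧ f p.1 = p.2) (lab vtx φ (e, true))) := fun e => by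
    simp only [D, st_eq, mem_filter, mem_univ, true_and]
  have h1 := h.sum val (by simp [val]) (fun p : X × Z2 => p.1 ∈ K ∧ f p.1 = p.2) hD
  have h2 := h.sum id rfl (fun p : X × Z2 => p.1 ∈ K ∧ f p.1 = p.2) hD
  obtain ⟨-, a2, -, a4, -, -, a7, a8⟩ := h
  dsimp only [id] at h1 h2
  rw [a8 fun u => iz (u ∈ K ∧ f u = c.t u)] at h2
  simp only [val_iz] at h1
  rw [sum_add_distrib, a7 fun u => ind (u ∈ K ∧ f u = c.t u), ← mul_sum] at h1
  set W := (K.filter fun v => f v = c.t v)ᶜ with hW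
  have mW : ∀ v, v ∈ W ↔ ¬ (v ∈ K ∧ f v = c.t v) := fun v => by simp only [hW, mem_compl, mem_filter]
  have e1 : ∀ β ∈ H, ∀ w ∈ β, w ∉ W → ∀ v ∈ β, (v ∈ W ↔ v ∉ K) := by
    intro β a w b1 b2 v b3
    rw [mW, not_not] at b2
    rw [mW]
    refine not_congr (and_iff_left_of_imp fun b4 => ?_)
    by_cases e : v = w
    · exact e ▸ b2.2
    obtain ⟨-, -, -, b5⟩ := (q1 β a).1 b3 b1 e
    obtain ⟨d, rfl, rfl⟩ := (b5.resolve_left (notMem_empty _)).resolve_left (notMem_empty _)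
    obtain ⟨b6, b7⟩ := (both' (fun d => vtx d ∈ K) d).2 ⟨b4, b2.1⟩
    have b8 := (k3 _ b6 b7).symm.trans ((q1 β a).2.2.2 d b3 b1)
    rw [both (fun d => f (vtx d)), b2.2] at b8
    exact add_right_cancel b8
  have e0 : ∀ β ∈ H, ∀ w ∈ β, w ∉ W → ((β ∩ W).Nonempty ↔ (β ∩ Kᶜ).Nonempty) := fun β a w b1 b2 =>
    exists_congr fun v => by
      simp only [mem_inter, mem_compl]
      exact and_congr_right (e1 β a w b1 b2 v)
  have e2 := cc_tree o1 r1 Kᶜ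
  have e3 := cc_tree o1 r1 W
  have e4 := cc_tree o2 r2 W
  rw [ind_neg (by simpa using k1), sum_congr rfl (g := fun β =>
    ind (top d₁ β ∉ W ∧ (β ∩ W).Nonempty) + ind (top d₁ β ∈ K ∧ f (top d₁ β) ≠ c.t (top d₁ β) ∧
      (β ∩ Kᶜ).Nonempty)) fun β a => by
      have := e0 β a _ (top_spec d₁ (q1 β a).2.1).1
      rw [mW] at this ⊢
      by_cases b1 : top d₁ β ∈ K <;> by_cases b2 : f (top d₁ β) = c.t (top d₁ β) <;>
        simp_all [ind], sum_add_distrib] at e2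
  rw [ind_neg (by simp [mW, k1, k2, a2])] at e3
  rw [sum_congr rfl (g := fun β => ind (top d₂ β ∉ W ∧ u β ∈ W) +
    ind ((top d₂ β ∈ K ∧ f (top d₂ β) = c.t (top d₂ β)) ∧ u β ∈ K ∧ (β ∩ Kᶜ).Nonempty)) fun β a => by
      by_cases b1 : top d₂ β ∈ W
      · rw [ind_neg fun e => e.1 b1, ind_neg fun e => e.1 b1, ind_neg fun e => (mW _).1 b1 e.1,
          add_zero]
      have b2 := e0 β a _ (top_spec d₂ (q1 β a).2.1).1 b1
      have b3 := e1 β a _ (top_spec d₂ (q1 β a).2.1).1 b1 _ (q1 β a).2.2.1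
      by_cases b4 : u β ∈ K
      · rw [ind_neg (p := _ ∧ u β ∈ W) fun e => b3.1 e.2 b4, zero_add, b2, and_iff_right b1,
          and_iff_right (not_not.1 ((mW _).not.1 b1)), and_iff_right b4]
      · rw [ind_pos ⟨b1, _, mem_inter.2 ⟨(q1 β a).2.2.1, b3.2 b4⟩⟩, ind_pos ⟨b1, b3.2 b4⟩,
          ind_neg fun e => b4 e.2.1, add_zero], sum_add_distrib, q2] at e4
  rw [cnt, h1, dotProduct, h2, val_iz]
  simp only [mW, not_not] at e4
  have e7 : ind (¬(vtx (c.e₀, true) ∈ K ∧ f (vtx (c.e₀, true)) = c.t (vtx (c.e₀, true))) ∧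
      vtx (c.e₀, false) ∈ K ∧ f (vtx (c.e₀, false)) = c.t (vtx (c.e₀, false))) =
      ind (vtx (c.e₀, false) ∈ K ∧ f (vtx (c.e₀, false)) = c.t (vtx (c.e₀, false))) := by
    rw [and_iff_right_of_imp fun b1 b2 => a4 (by rw [k3 _ b1.1 b2.1, b1.2, b2.2])]
  have e8 : ∀ p : Prop, ind (¬ p) + ind p = 1 := fun p => by
    by_cases a : p <;> simp [ind, a]
  linarith [e8 (vtx (c.e₀, false) ∈ K ∧ f (vtx (c.e₀, false)) = c.t (vtx (c.e₀, false)))]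

end Pool.Agent.Lib.MP_234305_co.Sums
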