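import Pool.Agent.Lib.MP_234305_co.H25Stmts

/-!
Reduction of a map with apices to the facial case.
-/

namespace Pool.Agent.Lib.MP_234305_co.Sums

open Finset Matrix Slack

namespace ConeAux

section Basic
variable {E V : Type} [DecidableEq V] {vtx : Dart E → V}

/-- No clique separates `W`. -/
def NoSep (vtx : Dart E → V) (W : Finset V) : Prop :=
  ∀ C D : Finset V, C ⊆ W → D ⊆ W → C.Nonempty → Disjoint C D →
    (cone vtx ∅ W).IsClique (D : Set V) →
    (∀ d, vtx d ∈ C → vtx (fl d) ∈ C ∨ vtx (fl d) ∈ D) → ∀ v ∈ W, v ∈ C ∨ v ∈ D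

/-- Every triangle is a sum of faces. -/
def Tri (τ : Flag E → Flag E) (vtx : Dart E → V) (W : Finset V) : Prop :=
  ∀ β : Finset V, β ⊆ W → (cone vtx ∅ W).IsClique (β : Set V) → β.card = 3 →
    ∃ f : Dart E → Z2, (∀ d d', Sec τ ∅ false d d' → f d = f d') ∧
      ∀ e, iz (Ins vtx β e) = f (e, false) + f (e, true)

omit [DecidableEq V] in
theorem ins_iff {S : Finset V} (d : Dart E) : Ins vtx S d.1 ↔ vtx d ∈ S ∧ vtx (fl d) ∈ S :=
  both' (fun d => vtx d ∈ S) d

omit [DecidableEq V] in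
theorem dart_of {W β : Finset V} (h : (cone vtx ∅ W).IsClique (β : Set V)) {a b : V} (ha : a ∈ β)
    (hb : b ∈ β) (hab : a ≠ b) : ∃ d, vtx d = a ∧ vtx (fl d) = b := by
  obtain ⟨-, -, -, h1 | h1 | h1⟩ := h ha hb hab
  exacts [(notMem_empty _ h1).elim, (notMem_empty _ h1).elim, h1]

omit [DecidableEq V] in
theorem adj_sub {A A' U U' : Finset V} {keep : E → Prop} (hA : A ⊆ A') {a b : V}
    (h : (cone vtx A U).Adj a b) (ha : a ∈ U') (hb : b ∈ U')
    (hk : ∀ d, vtx d = a → vtx (fl d) = b → a ∈ A' ∨ b ∈ A' ∨ keep d.1) :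
    (cone (fun d : Dart {e // keep e} => vtx (d.1.1, d.2)) A' U').Adj a b := by
  obtain ⟨h1, -, -, h2 | h2 | ⟨d, h2, h3⟩⟩ := h
  · exact ⟨h1, ha, hb, .inl (hA h2)⟩
  · exact ⟨h1, ha, hb, .inr (.inl (hA h2))⟩
  · refine ⟨h1, ha, hb, (hk d h2 h3).imp_right fun h => h.imp_right fun h => ?_⟩
    exact ⟨(⟨d.1, h⟩, d.2), h2, h3⟩

omit [DecidableEq V] in
theorem simp_sub (hs : Simp vtx) (keep : E → Prop) :
    Simp (fun d : Dart {e // keep e} => vtx (d.1.1, d.2)) := by
  refine ⟨fun d => hs.1 (d.1.1, d.2), fun d d' h1 h2 => ?_⟩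
  have := hs.2 (d.1.1, d.2) (d'.1.1, d'.2) h1 h2
  exact Prod.ext (Subtype.ext (Prod.ext_iff.1 this).1) (Prod.ext_iff.1 this).2

theorem two_set (hs : Simp vtx) {S : Finset V} (h : S.card = 2) {e e' : E} (h1 : Ins vtx S e)
    (h2 : Ins vtx S e') : e = e' := by
  obtain ⟨p, q, -, rfl⟩ := card_eq_two.1 h
  have a1 : vtx (e, false) ≠ vtx (e, true) := hs.1 (e, false)
  have a2 : vtx (e', false) ≠ vtx (e', true) := hs.1 (e', false)
  have a3 : vtx (e, false) = vtx (e', false) → vtx (e, true) = vtx (e', true) → e = e' :=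
    fun a b => congrArg Prod.fst (hs.2 (e, false) (e', false) a b)
  have a4 : vtx (e, false) = vtx (e', true) → vtx (e, true) = vtx (e', false) → e = e' :=
    fun a b => congrArg Prod.fst (hs.2 (e, false) (e', true) a b)
  simp only [Ins, mem_insert, mem_singleton] at h1 h2
  obtain ⟨b1 | b1, b2 | b2⟩ := h1 <;> obtain ⟨b3 | b3, b4 | b4⟩ := h2 <;> simp_all

theorem sum_erase {b : Finset V} (hb : b.card = 4) {u w : V} (h : u ≠ w) :
    ∑ x ∈ b, iz (u ∈ b.erase x ∧ w ∈ b.erase x) = 0 := by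
  by_cases h1 : u ∈ b ∧ w ∈ b
  · simp only [iz_eq_ite]
    rw [sum_boole]
    have e : b.filter (fun x => u ∈ b.erase x ∧ w ∈ b.erase x) = (b.erase u).erase w := by
      ext x
      simp only [mem_filter, mem_erase, h1.1, h1.2, and_true]
      tauto
    rw [e, card_erase_of_mem (mem_erase.2 ⟨h.symm, h1.2⟩), card_erase_of_mem h1.1, hb]
    rfl
  · exact sum_eq_zero fun x _ => iz_neg fun h2 =>
      h1 ⟨mem_of_mem_erase h2.1, mem_of_mem_erase h2.2⟩

variable {X : Type} [Fintype X] [DecidableEq X] {ι : X → V} {vx : Dart E → X} {W : Finset V}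

omit [DecidableEq X] in
theorem clique_map (hι : Function.Injective ι) (hW : ∀ a, ι a ∈ W) {D : Finset X}
    (h : (cone vx ∅ univ).IsClique (D : Set X)) :
    (cone (fun d => ι (vx d)) ∅ W).IsClique ((D.image ι : Finset V) : Set V) := by
  intro a ha b hb hab
  obtain ⟨a, ha', rfl⟩ := mem_image.1 ha
  obtain ⟨b, hb', rfl⟩ := mem_image.1 hb
  obtain ⟨d, h1, h2⟩ := dart_of h ha' hb' fun e => hab (hι.eq_iff.2 e)
  exact ⟨hab, hW a, hW b, .inr (.inr ⟨d, congrArg ι h1, congrArg ι h2⟩)⟩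

theorem NoSep.comap (hι : Function.Injective ι) (hW : ∀ a, ι a ∈ W)
    (h : NoSep (fun d => ι (vx d)) W) : NoSep vx univ := by
  intro C D _ _ h1 h2 h3 h4 v _
  have m : ∀ (S : Finset X) a, ι a ∈ S.image ι ↔ a ∈ S := fun S a => hι.mem_finset_image
  have s : ∀ S : Finset X, S.image ι ⊆ W := fun S a ha => by
    obtain ⟨a, -, rfl⟩ := mem_image.1 ha
    exact hW a
  simpa only [m] using h (C.image ι) (D.image ι) (s C) (s D) (h1.image ι)
    ((disjoint_image hι).2 h2) (clique_map hι hW h3) (fun d => by simpa only [m] using h4 d)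
    (ι v) (hW v)

theorem Tri.comap {τ : Flag E → Flag E} (hι : Function.Injective ι) (hW : ∀ a, ι a ∈ W)
    (h : Tri τ (fun d => ι (vx d)) W) : Tri τ vx univ := by
  intro β _ h1 h2
  obtain ⟨f, h3, h4⟩ := h (β.image ι) (fun a ha => by
    obtain ⟨a, -, rfl⟩ := mem_image.1 ha
    exact hW a) (clique_map hι hW h1) (by rw [card_image_of_injective _ hι, h2])
  refine ⟨f, h3, fun e => (iz_congr ?_).trans (h4 e)⟩
  simp only [Ins, hι.mem_finset_image]

end Basic

section Facial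
variable {E X : Type} [Fintype E] [DecidableEq E] [Fintype X] [DecidableEq X]
  {τ : Flag E → Flag E} {vtx : Dart E → X}

omit [Fintype E] [DecidableEq E] in
theorem NoSep.card (hn : NoSep vtx univ) {C D : Finset X} (h1 : C.Nonempty) (h2 : Disjoint C D)
    (h3 : (cone vtx ∅ univ).IsClique (D : Set X))
    (h4 : ∀ d, vtx d ∈ C → vtx (fl d) ∈ C ∨ vtx (fl d) ∈ D) :
    Fintype.card X ≤ C.card + D.card :=
  (card_le_card (s := univ) fun v hv =>
    mem_union.2 (hn C D (subset_univ _) (subset_univ _) h1 h2 h3 h4 v hv)).trans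
    (card_union_le _ _)

omit [Fintype E] [DecidableEq E] in
theorem surj (h5 : 5 ≤ Fintype.card X) (hn : NoSep vtx univ) : Function.Surjective vtx := by
  intro v
  by_contra h
  have := hn.card (C := {v}) (D := ∅) (by simp) (by simp) (by simp)
    fun d hd => (h ⟨d, mem_singleton.1 hd⟩).elim
  simp only [card_singleton, card_empty] at this
  omega

omit [Fintype E] [DecidableEq E] [DecidableEq X] in
theorem conn (hn : NoSep vtx univ) (a b : X) :
    Link (fun e i => vtx (e, i)) (fun _ => True) a b := by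
  classical
  have := hn (univ.filter (Link (fun e i => vtx (e, i)) (fun _ => True) a)) ∅ (subset_univ _)
    (subset_univ _) ⟨a, by simpa using Link.refl a⟩ (by simp) (by simp) (fun d hd => .inl (by
      simp only [mem_filter, mem_univ, true_and] at hd ⊢
      exact hd.trans (Link.edge' (n := fun e i => vtx (e, i)) (S := fun _ => True) (k := d.1)
        trivial d.2 (!d.2)))) b (mem_univ b)
  simpa using this

omit [DecidableEq E] [Fintype X] [DecidableEq X] in
theorem med_link (hτ : IsMap τ) (hv : ∀ d d', vtx d = vtx d' ↔ Sec τ ∅ true d d')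
    (hs : Function.Surjective vtx)
    (hc : ∀ a b, Link (fun e i => vtx (e, i)) (fun _ => True) a b) (e e' : E) :
    Link (med τ) (fun _ => True) e e' := by
  have h1 : ∀ d d', vtx d = vtx d' → Link (med τ) (fun _ => True) d.1 d'.1 := fun d d' h =>
    Link.induct (r := fun d d' : Dart E => Link (med τ) (fun _ => True) d.1 d'.1)
      ⟨fun _ => Link.refl _, Link.symm, Link.trans⟩ (fun x _ => Euler.link_flag hτ x)
      ((hv d d').1 h)
  refine Link.induct (r := fun u v => ∀ d d', vtx d = u → vtx d' = v →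
    Link (med τ) (fun _ => True) d.1 d'.1) ⟨fun u d d' a b => h1 d d' (a.trans b.symm),
    fun h d d' a b => (h d' d b a).symm, fun {u v w} h h' d d' a b => ?_⟩ (fun k _ d d' a b => ?_)
    (hc (vtx (e, false)) (vtx (e', false))) (e, false) (e', false) rfl rfl
  · obtain ⟨d'', c⟩ := hs v
    exact (h d d'' a c).trans (h' d'' d' c b)
  · exact (h1 d (k, false) a).trans (h1 (k, true) d' b.symm)

omit [Fintype E] [DecidableEq E] in
theorem pend (hτ : IsMap τ) (hv : ∀ d d', vtx d = vtx d' ↔ Sec τ ∅ true d d') (hs : Simp vtx)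
    (h5 : 5 ≤ Fintype.card X) (hn : NoSep vtx univ) (x : Flag E) : (τ x).1 ≠ x.1 := by
  intro h
  have h1 : pr true (τ x) = pr true x := by
    have a := (hv _ _).2 (Euler.sec_flag (τ := τ) true x)
    by_contra b
    refine hs.1 (pr true x) (a.trans (congrArg vtx (Prod.ext h ?_)))
    exact Bool.eq_not_iff.2 fun c => b (Prod.ext h c)
  have h2 : ∀ y, pr true y = pr true x → pr true (τ y) = pr true x := by
    intro y hy
    by_cases a : y = x
    · rw [a, h1]
    have b : y = τ x := by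
      have c := hy.trans h1.symm
      simp only [pr, if_true, Prod.mk.injEq] at hy h1 c
      refine Prod.ext c.1 (Prod.ext c.2 ?_)
      have a1 : y.2.2 ≠ x.2.2 := fun e => a (Prod.ext hy.1 (Prod.ext hy.2 e))
      have a2 : (τ x).2.2 ≠ x.2.2 := fun e => hτ.2 x (Prod.ext h1.1 (Prod.ext h1.2 e))
      exact (Bool.eq_not_iff.2 a1).trans (Bool.eq_not_iff.2 a2).symm
    rw [b, hτ.1]
  have h3 : ∀ d, vtx d = vtx (pr true x) → d = pr true x := fun d hd =>
    (Euler.sec_ind (τ := τ) (s := true) (fun d => d = pr true x) (fun y => propext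
      ⟨fun a => by simpa only [hτ.1] using h2 _ a, h2 y⟩) ((hv _ _).1 hd)).mpr rfl
  have := hn.card (C := {vtx (pr true x)}) (D := {vtx (fl (pr true x))}) (by simp)
    (by simpa using hs.1 _) (by simp) fun d hd => .inr (by rw [h3 d (mem_singleton.1 hd)]; simp)
  simp only [card_singleton] at this
  omega

omit [Fintype E] [DecidableEq E] in
theorem tri_three (hv : ∀ d d', vtx d = vtx d' ↔ Sec τ ∅ true d d') (h5 : 5 ≤ Fintype.card X)
    (hn : NoSep vtx univ) (ht : Tri τ vtx univ) {β : Finset X}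
    (h1 : (cone vtx ∅ univ).IsClique (β : Set X)) (h2 : β.card = 3) :
    ∃ f ∈ Euler.Fs τ false, (∀ e, f (e, false) + f (e, true) = iz (Ins vtx β e)) ∧
      ∀ d, f d ≠ 0 → Ins vtx β d.1 := by
  classical
  obtain ⟨f, f1, f2⟩ := ht β (subset_univ _) h1 h2
  have a1 : ∀ d, vtx d ∉ β → f (d.1, false) = f (d.1, true) := fun d hd => by
    rw [← z2_add_eq_zero, ← f2]
    exact iz_neg fun h => hd ((ins_iff d).1 h).1
  have a2 : ∀ d d', vtx d = vtx d' → vtx d ∉ β → f (d.1, false) = f (d'.1, false) :=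
    fun d d' h hd => face_const hv (K := {vtx d'}) (d₀ := d') ⟨mem_singleton_self _, fun v hv => by
      rw [mem_singleton.1 hv]; exact Link.refl _⟩ f1
      (fun c hc => a1 c (by rw [mem_singleton.1 hc, ← h]; exact hd)) d (mem_singleton.2 h)
  obtain ⟨v, -, hv₀⟩ := exists_mem_notMem_of_card_lt_card (s := β) (t := univ)
    (by rw [card_univ]; omega)
  obtain ⟨d₀, rfl⟩ := surj h5 hn v
  have a3 : ∀ d, vtx d ∉ β → f (d.1, false) = f (d₀.1, false) := by
    intro d hd
    by_contra a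
    have := hn (univ.filter fun v => v ∉ β ∧ ∃ c, vtx c = v ∧ f (c.1, false) ≠ f (d₀.1, false)) β
      (subset_univ _) (subset_univ _) ⟨vtx d, mem_filter.2 ⟨mem_univ _, hd, d, rfl, a⟩⟩
      (disjoint_left.2 fun v hv => (mem_filter.1 hv).2.1) h1 (fun c hc => ?_) (vtx d₀) (mem_univ _)
    · rcases this with h | h
      · obtain ⟨-, -, c, c1, c2⟩ := mem_filter.1 h
        exact c2 (a2 c d₀ c1 (c1 ▸ hv₀))
      · exact hv₀ h
    · obtain ⟨-, c0, c', c1, c2⟩ := mem_filter.1 hc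
      refine (em (vtx (fl c) ∈ β)).symm.imp_left fun h => ?_
      exact mem_filter.2 ⟨mem_univ _, h, fl c, rfl, fun e => c2 ((a2 c c' c1.symm c0).symm.trans e)⟩
  refine ⟨fun d => f d + f (d₀.1, false), fun x => ?_, fun e => ?_, fun d hd => ?_⟩
  · dsimp only
    rw [f1 _ _ (Euler.sec_flag false x)]
  · dsimp only
    rw [f2, add_add_add_comm, z2_add_self, add_zero]
  · by_contra a
    refine hd (z2_add_eq_zero.2 ?_)
    have b : ∃ c : Dart E, c.1 = d.1 ∧ vtx c ∉ β := by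
      by_contra b
      push Not at b
      exact a ⟨b _ rfl, b _ rfl⟩
    obtain ⟨c, c1, c2⟩ := b
    have b1 := a1 c c2
    have b2 := a3 c c2
    rw [c1] at b1 b2
    rcases d with ⟨e, _ | _⟩
    exacts [b2, b1.symm.trans b2]

omit [DecidableEq E] in
theorem fac (hτ : IsMap τ) (hv : ∀ d d', vtx d = vtx d' ↔ Sec τ ∅ true d d') (hs : Simp vtx)
    (h5 : 5 ≤ Fintype.card X) (hn : NoSep vtx univ) (ht : Tri τ vtx univ) : Fac τ vtx := by
  have hm := med_link hτ hv (surj h5 hn) (conn hn)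
  refine ⟨hτ, hv, surj h5 hn, conn hn, hm, hs, pend hτ hv hs h5 hn, fun β h1 h2 => ?_⟩
  suffices h : β.card = 3 from ⟨h, tri_three hv h5 hn ht h1 h⟩
  by_contra h3
  obtain ⟨b, b1, b2⟩ := exists_subset_card_eq (s := β) (n := 4) (by omega)
  have c1 : ∀ x, (cone vtx ∅ univ).IsClique ((b.erase x : Finset X) : Set X) := fun x =>
    h1.subset (coe_subset.2 ((erase_subset _ _).trans b1))
  have c2 : ∀ x ∈ b, (b.erase x).card = 3 := fun x hx => by rw [card_erase_of_mem hx, b2]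
  choose! f f1 f2 f3 using fun x hx => tri_three hv h5 hn ht (c1 x) (c2 x hx)
  obtain ⟨v, -, hv₀⟩ := exists_mem_notMem_of_card_lt_card (s := b) (t := univ)
    (by rw [card_univ]; omega)
  obtain ⟨d₀, rfl⟩ := surj h5 hn v
  have g0 : ∑ x ∈ b, f x = 0 := by
    refine Euler.dart_zero (τ := τ) (reps := {d₀.1}) (s := false)
      (fun e => ⟨d₀.1, mem_singleton_self _, hm _ _⟩) (Submodule.sum_mem _ f1) (fun e => ?_)
      fun r hr => ?_
    · rw [eq_comm, ← z2_add_eq_zero, Finset.sum_apply, Finset.sum_apply, ← sum_add_distrib,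
        sum_congr rfl fun x hx => f2 x hx e]
      exact sum_erase b2 (hs.1 (e, false))
    · rw [mem_singleton.1 hr, Finset.sum_apply]
      refine sum_eq_zero fun x hx => ?_
      by_contra a
      exact hv₀ (mem_of_mem_erase ((ins_iff d₀).1 (f3 x hx (d₀.1, false) a)).1)
  obtain ⟨p, hp⟩ := card_pos.1 (show 0 < b.card by omega)
  obtain ⟨u, hu, w, hw, huw⟩ := one_lt_card.1 (show 1 < (b.erase p).card by rw [c2 p hp]; omega)
  obtain ⟨d, rfl, rfl⟩ := dart_of (c1 p) hu hw huw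
  have a1 : ∃ s, f p (d.1, s) ≠ 0 := by
    by_contra a
    push Not at a
    have := f2 p hp d.1
    rw [a, a, iz_pos ((ins_iff d).2 ⟨hu, hw⟩)] at this
    exact absurd this (by decide)
  obtain ⟨s, a1⟩ := a1
  have a2 : ∃ q ∈ b, q ≠ p ∧ f q (d.1, s) ≠ 0 := by
    by_contra a
    push Not at a
    have := congrFun g0 (d.1, s)
    rw [Finset.sum_apply, sum_eq_single_of_mem p hp a] at this
    exact a1 this
  obtain ⟨q, hq, hqp, a2⟩ := a2
  have a3 : ∀ c : Dart E, f p c ≠ 0 → f q c ≠ 0 → Ins vtx ((b.erase p).erase q) c.1 := by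
    intro c h h'
    have i1 := f3 p hp c h
    have i2 := f3 q hq c h'
    exact ⟨mem_erase.2 ⟨(mem_erase.1 i2.1).1, i1.1⟩, mem_erase.2 ⟨(mem_erase.1 i2.2).1, i1.2⟩⟩
  refine pend hτ hv hs h5 hn (d.1, false, s) (two_set hs (S := (b.erase p).erase q) ?_
    (a3 (pr false (τ (d.1, false, s))) ?_ ?_) (a3 (d.1, s) a1 a2))
  · rw [card_erase_of_mem (mem_erase.2 ⟨hqp, hq⟩), c2 p hp]
  · rw [f1 p hp]; exact a1
  · rw [f1 q hq]; exact a2

end Facial

theorem tri_cyc {E V : Type} [Fintype E] [DecidableEq E] [DecidableEq V] {τ : Flag E → Flag E}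
    {vtx : Dart E → V} (hv : ∀ d d', vtx d = vtx d' ↔ Sec τ ∅ true d d') (hs : Simp vtx)
    {W β : Finset V} (h1 : (cone vtx ∅ W).IsClique (β : Set V)) (h2 : β.card = 3) (d : Dart E) :
    (fun e => iz (Ins vtx β e)) ⬝ᵥ st (gcl τ ∅ true d) = 0 := by
  classical
  rw [dot_st]
  by_cases hd : vtx d ∈ β
  · simp only [iz_eq_ite]
    rw [sum_boole, card_nbij (t := β.erase (vtx d)) (fun c => vtx (fl c)) ?_ ?_ ?_,
      card_erase_of_mem hd, h2]
    · rfl
    · intro c hc
      obtain ⟨c1, c2⟩ := mem_filter.1 hc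
      rw [mem_gcl, ← hv] at c1
      exact mem_erase.2 ⟨c1 ▸ (hs.1 c).symm, ((ins_iff c).1 c2).2⟩
    · intro c hc c' hc' e
      have c1 := (hv _ _).2 (mem_gcl.1 (mem_filter.1 hc).1)
      have c2 := (hv _ _).2 (mem_gcl.1 (mem_filter.1 hc').1)
      exact hs.2 c c' (c1.symm.trans c2) e
    · intro w hw
      obtain ⟨w1, w2⟩ := mem_erase.1 hw
      obtain ⟨c, c1, c2⟩ := dart_of h1 hd w2 w1.symm
      exact ⟨c, mem_filter.2 ⟨mem_gcl.2 ((hv _ _).1 c1.symm),
        (ins_iff c).2 ⟨c1 ▸ hd, c2 ▸ w2⟩⟩, c2⟩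
  · refine sum_eq_zero fun c hc => iz_neg fun h => hd ?_
    rw [(hv _ _).2 (mem_gcl.1 hc)]
    exact ((ins_iff c).1 h).1

end ConeAux

open ConeAux in
theorem coneStmt (h1 : SumStmt) (h2 : SubStmt) (h3 : TopStmt) (h4 : ParallelStmt) : ConeStmt := by
  classical
  intro k
  obtain ⟨c, hc, hT⟩ := h3 k
  refine ⟨c, hc, fun V _ _ _ L γ₀ hL hγ₀ hG => ⟨fun U => (hT V L hL ∅ U).1, ?_⟩⟩
  suffices H : ∀ n, ∀ (E : Type) [Fintype E] [DecidableEq E] (τ : Flag E → Flag E)
      (vtx : Dart E → V) (A U : Finset V) (γ : ℕ), (U \ A).card = n → IsMap τ →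
      (∀ d d', vtx d = vtx d' ↔ Sec τ ∅ true d d') → Simp vtx → Gen τ γ → γ ≤ γ₀ → A ⊆ U →
      A.card + 3 * γ ≤ k → (∀ d, vtx d ∈ U ∧ vtx d ∉ A) →
      JB (k + 4) (c * (1 + L)) U (cone vtx A U) from
    fun E _ _ τ vtx A U γ => H _ E τ vtx A U γ rfl
  intro n
  induction n using Nat.strong_induction_on with | _ n ih => ?_
  intro E _ _ τ vtx A U γ hn hτ hv hs hg hγ hA hk hU
  subst hn
  by_cases hsm : U.card ≤ k + 4
  · exact (hT V L hL A U).1 _ (fun a b h => h.2.1) hsm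
  by_cases hN : NoSep vtx (U \ A)
  swap
  · simp only [NoSep] at hN
    push Not at hN
    obtain ⟨C, D, c1, d1, ⟨w, hw⟩, c3, d2, c4, v, v1, v2, v3⟩ := hN
    have key : ∀ U' : Finset V, A ⊆ U' → U' ⊆ U → (∃ v ∈ U \ A, v ∉ U') →
        JB (k + 4) (c * (1 + L)) U'
          (cone (fun d : Dart {e // Ins vtx U' e} => vtx (d.1.1, d.2)) A U') := by
      rintro U' u1 u2 ⟨x, x1, x2⟩
      obtain ⟨τ', t1, t2, t3, -⟩ := h2 E V τ vtx (Ins vtx U') hτ hv
      refine ih _ (card_lt_card ⟨sdiff_subset_sdiff u2 Subset.rfl, fun h => ?_⟩) _ τ' _ A U' γ rfl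
        t1 t2 (simp_sub hs _) (t3 γ hg) hγ u1 hk fun d => ⟨?_, (hU _).2⟩
      · exact x2 (mem_sdiff.1 (h x1)).1
      · exact ((ins_iff (d.1.1, d.2)).1 d.1.2).1
    have sub : ∀ (U' : Finset V) {a b : V}, (cone vtx A U).Adj a b → a ∈ U' → b ∈ U' →
        (cone (fun d : Dart {e // Ins vtx U' e} => vtx (d.1.1, d.2)) A U').Adj a b :=
      fun U' a b h ha hb => adj_sub Subset.rfl h ha hb fun d e1 e2 =>
        .inr (.inr ((ins_iff d).2 ⟨e1 ▸ ha, e2 ▸ hb⟩))
    have cU : ∀ x ∈ C, x ∈ U ∧ x ∉ A := fun x hx => mem_sdiff.1 (c1 hx)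
    have dU : ∀ x ∈ D, x ∈ U ∧ x ∉ A := fun x hx => mem_sdiff.1 (d1 hx)
    have cl : ∀ a ∈ (A ∪ C ∪ D) ∩ (U \ C), ∀ b ∈ (A ∪ C ∪ D) ∩ (U \ C), a ≠ b →
        (cone vtx A U).Adj a b := by
      intro a ha b hb hab
      simp only [mem_inter, mem_union, mem_sdiff] at ha hb
      refine ⟨hab, ha.2.1, hb.2.1, ?_⟩
      by_cases a1 : a ∈ A
      · exact .inl a1
      by_cases b1 : b ∈ A
      · exact .inr (.inl b1)
      exact .inr (.inr (dart_of d2 (by tauto) (by tauto) hab))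
    have := h1 V _ _ _ _ _ _ (key (A ∪ C ∪ D) (fun x hx => by simp [hx]) (fun x hx => ?_)
      ⟨v, v1, by simp [v2, v3, (mem_sdiff.1 v1).2]⟩)
      (key (U \ C) (fun x hx => mem_sdiff.2 ⟨hA hx, fun h => (cU x h).2 hx⟩) sdiff_subset
        ⟨w, c1 hw, by simp [hw]⟩)
      (fun a ha b hb hab => sub _ (cl a ha b hb hab) (mem_inter.1 ha).1 (mem_inter.1 hb).1)
      fun a ha b hb hab => sub _ (cl a ha b hb hab) (mem_inter.1 ha).2 (mem_inter.1 hb).2
    · have e : A ∪ C ∪ D ∪ U \ C = U := by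
        ext x
        have := @hA x
        have := cU x
        have := dU x
        simp only [mem_union, mem_sdiff]
        tauto
      rw [e] at this
      refine this.mono fun a b h => ?_
      have c5 : ∀ {a b}, (cone vtx A U).Adj a b → a ∈ C → b ∈ A ∪ C ∪ D := by
        rintro a b ⟨-, -, -, h | h | ⟨d, rfl, rfl⟩⟩ ha
        · exact ((cU a ha).2 h).elim
        · simp [h]
        · rcases c4 d ha with h | h <;> simp [h]
      by_cases a1 : a ∈ C
      · exact .inl (sub _ h (by simp [a1]) (c5 h a1))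
      by_cases b1 : b ∈ C
      · exact .inl (sub _ h (c5 h.symm b1) (by simp [b1]))
      exact .inr (sub _ h (mem_sdiff.2 ⟨h.2.1, a1⟩) (mem_sdiff.2 ⟨h.2.2.1, b1⟩))
    · simp only [mem_union] at hx
      rcases hx with (hx | hx) | hx
      exacts [hA hx, (cU x hx).1, (dU x hx).1]
  by_cases hR : Tri τ vtx (U \ A)
  swap
  · simp only [Tri, not_forall] at hR
    obtain ⟨β, b1, b2, b3, b4⟩ := hR
    obtain ⟨φ, p1, p2, z, z1, z2⟩ := (h4 E τ hτ _ (tri_cyc hv hs b2 b3)).resolve_left b4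
    obtain ⟨τ', t1, t2, -, t3⟩ :=
      h2 E V τ vtx (fun e => vtx (e, false) ∉ β ∧ vtx (e, true) ∉ β) hτ hv
    obtain ⟨γ', rfl, t4⟩ := t3 γ φ z hg (Euler.mem_Cyc.2 p1) (Euler.mem_Cyc.2 z1) z2 fun e he => by
      by_contra a
      obtain ⟨i, e', i', a1, a2⟩ := p2 e a
      have a3 : Ins vtx β e' := by
        by_contra a3
        exact a1 (iz_neg a3)
      have a4 : vtx (e, i) ∈ β := (hv _ _).2 a2 ▸ ((ins_iff (e', i')).1 a3).1
      cases i
      exacts [he.1 a4, he.2 a4]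
    obtain ⟨x, hx⟩ := card_pos.1 (show 0 < β.card by omega)
    refine (ih _ (card_lt_card ⟨sdiff_subset_sdiff Subset.rfl subset_union_left, fun h => ?_⟩) _ τ'
      _ (A ∪ β) U γ' rfl t1 t2 (simp_sub hs _) t4 (by omega)
      (union_subset hA (b1.trans sdiff_subset)) ?_ fun d => ⟨(hU _).1, ?_⟩).mono fun a b h => ?_
    · exact (mem_sdiff.1 (h (b1 hx))).2 (mem_union_right _ hx)
    · have := card_union_le A β
      omega
    · rw [mem_union, not_or]
      exact ⟨(hU _).2, ((both' (fun d => vtx d ∉ β) (d.1.1, d.2)).1 d.1.2).1⟩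
    · refine adj_sub subset_union_left h h.2.1 h.2.2.1 fun d e1 e2 => ?_
      by_cases a1 : a ∈ β
      · exact .inl (mem_union_right _ a1)
      by_cases a2 : b ∈ β
      · exact .inr (.inl (mem_union_right _ a2))
      exact .inr (.inr ((both' (fun d => vtx d ∉ β) d).2 ⟨e1 ▸ a1, e2 ▸ a2⟩))
  have h5 : 5 ≤ Fintype.card {v // v ∈ U \ A} := by
    rw [Fintype.card_coe, card_sdiff_of_subset hA]
    omega
  have : Nonempty {v // v ∈ U \ A} := Fintype.card_pos_iff.1 (by omega)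
  let vx : Dart E → {v // v ∈ U \ A} := fun d => ⟨vtx d, mem_sdiff.2 (hU d)⟩
  refine (hT V L hL A U).2 E _ τ vx Subtype.val γ (Fintype.card V ^ 2)
    (fac hτ (fun d d' => Subtype.ext_iff.trans (hv d d'))
      ⟨fun d h => hs.1 d (congrArg Subtype.val h),
        fun d d' a b => hs.2 d d' (congrArg Subtype.val a) (congrArg Subtype.val b)⟩ h5
      (NoSep.comap Subtype.val_injective (fun a => a.2) hN)
      (Tri.comap Subtype.val_injective (fun a => a.2) hR)) hg (by omega) ?_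
    (fun E _ _ τ a1 a2 a3 => hG E τ a1 a2 (by omega)) Subtype.val_injective hA (by omega)
    (fun a => mem_sdiff.1 a.2) fun v hv' =>
      (em (v ∈ A)).imp_right fun h => ⟨⟨v, mem_sdiff.2 ⟨hv', h⟩⟩, rfl⟩
  rw [sq, ← Fintype.card_prod]
  exact Fintype.card_le_of_injective (fun e => (vtx (e, false), vtx (e, true))) fun e e' h =>
    congrArg Prod.fst (hs.2 (e, false) (e', false) (congrArg Prod.fst h) (congrArg Prod.snd h))

end Pool.Agent.Lib.MP_234305_co.Sums
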