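import Pool.Agent.Lib.MP_234305_co.H77Stmts

/-!
Step 9: from maps on abstract flags to embedded simple graphs.
-/

namespace Pool.Agent.Lib.MP_234305_co

open Finset

namespace Final

lemma nCl_eq {E V : Type} [Fintype E] [DecidableEq E] (τ : Flag E → Flag E) (s : Bool)
    (f : Dart E → V) (hf : Function.Surjective f) (h : ∀ d d', f d = f d' ↔ Sec τ ∅ s d d') :
    nCl τ s = Nat.card V := by
  classical
  have := Fintype.ofSurjective f hf
  let g : V → Finset (Dart E) := fun v => univ.filter fun d => v = f d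
  have hg : Function.Injective g := by
    intro v w e
    obtain ⟨d, rfl⟩ := hf v
    have : d ∈ g (f d) := by simp [g]
    rw [e] at this
    simpa [g, eq_comm] using this
  have e : gcl τ ∅ s = g ∘ f := by
    funext d
    ext d'
    simp [gcl, g, h]
  rw [nCl, e, ← image_image, image_univ_of_surjective hf, card_image_of_injective _ hg,
    card_univ, Nat.card_eq_fintype_card]

lemma link_tau {E : Type} [Fintype E] [DecidableEq E] {τ : Flag E → Flag E} (h : IsMap τ)
    (x : Flag E) : Link (med τ) (fun _ => True) x.1 (τ x).1 := by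
  rcases lt_trichotomy (Fintype.equivFin (Flag E) x) (Fintype.equivFin (Flag E) (τ x))
    with e | e | e
  · exact .rel _ _ ⟨⟨x, e⟩, trivial, rfl, rfl⟩
  · exact absurd ((Fintype.equivFin (Flag E)).injective e).symm (h.2 x)
  · exact .symm _ _ (.rel _ _ ⟨⟨τ x, by rwa [h.1]⟩, trivial, rfl, by simp [med, h.1]⟩)

lemma link_of_sec {E : Type} [Fintype E] [DecidableEq E] {τ : Flag E → Flag E} (h : IsMap τ)
    {d d' : Dart E} (hs : Sec τ ∅ true d d') : Link (med τ) (fun _ => True) d.1 d'.1 := by
  induction hs with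
  | rel a b hab =>
    obtain ⟨x, -, rfl, rfl⟩ := hab
    exact link_tau h x
  | refl a => exact .refl _
  | symm a b _ ih => exact ih.symm _ _
  | trans a b c _ _ ih1 ih2 => exact ih1.trans _ _ _ ih2

variable {n : ℕ} {G : SimpleGraph (Fin n)}

lemma exists_equiv (G : SimpleGraph (Fin n)) : ∃ δ : G.edgeSet × Bool ≃ G.Dart,
    (∀ e i, δ (e, !i) = (δ (e, i)).symm) ∧ ∀ e i, (δ (e, i)).edge = e := by
  have ho : ∀ e : G.edgeSet, ∃ D : G.Dart, D.edge = e := by
    rintro ⟨e, he⟩
    induction e using Sym2.ind with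
    | _ u v => exact ⟨⟨(u, v), he⟩, rfl⟩
  choose o ho using ho
  let δ : G.edgeSet × Bool → G.Dart := fun d => if d.2 then (o d.1).symm else o d.1
  have h1 : ∀ e i, (δ (e, i)).edge = e := by
    intro e i; cases i <;> simp [δ, ho]
  refine ⟨Equiv.ofBijective δ ⟨?_, fun D => ?_⟩, fun e i => ?_, h1⟩
  · rintro ⟨e, i⟩ ⟨e', i'⟩ h
    obtain rfl : e = e' := Subtype.ext (by rw [← h1 e i, h, h1])
    cases i <;> cases i'
    · rfl
    · exact absurd h.symm (o e).symm_ne
    · exact absurd h (o e).symm_ne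
    · rfl
  · rcases (SimpleGraph.dart_edge_eq_iff _ _).1 (ho ⟨D.edge, D.edge_mem⟩) with h | h
    · exact ⟨(⟨D.edge, D.edge_mem⟩, false), h⟩
    · exact ⟨(⟨D.edge, D.edge_mem⟩, true), by simp [δ, h]⟩
  · cases i <;> simp [δ]

lemma card_filter [Fintype G.edgeSet] (A : Set (Sym2 (Fin n))) (hA : A ⊆ G.edgeSet)
    (p : G.edgeSet → Prop) [DecidablePred p] (hp : ∀ e, p e ↔ e.1 ∈ A) :
    (univ.filter p).card = A.ncard := by
  classical
  rw [← card_image_of_injective _ Subtype.val_injective, ← Set.ncard_coe_finset]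
  congr 1
  ext e
  simp only [coe_image, coe_filter, mem_univ, true_and, Set.mem_image, Set.mem_ofPred_eq, hp]
  exact ⟨fun ⟨x, h1, h2⟩ => h2 ▸ h1, fun h => ⟨⟨e, hA h⟩, h, rfl⟩⟩

lemma dart_ext {D D' : G.Dart} (h1 : D.fst = D'.fst) (h2 : D.snd = D'.snd) : D = D' :=
  SimpleGraph.Dart.ext _ _ (Prod.ext h1 h2)

/-- A graph with a cellular embedding of bounded genus has linearly many edges. -/
lemma few_edges (hG : G.Connected) {γ : ℕ} {τ : G.Dart × Bool → G.Dart × Bool}
    (h1 : ∀ x, τ (τ x) = x) (h2 : ∀ x, τ x ≠ x) (h3 : ∀ x, (τ x).1.fst = x.1.fst)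
    (h4 : ∀ x y : G.Dart × Bool, x.1.fst = y.1.fst →
      Relation.EqvGen (fun a b => b = τ a ∨ b = (a.1, !a.2)) x y)
    (h5 : G.edgeSet.ncard + 2 ≤
      n + Nat.card (Quot fun a b : G.Dart × Bool => b = τ a ∨ b = (a.1.symm, a.2)) + γ) :
    G.edgeSet.ncard ≤ 5 * (n + γ) := by
  classical
  have hd : Fintype.card G.Dart = 2 * G.edgeSet.ncard := by
    rw [SimpleGraph.dart_card_eq_twice_card_edges, ← SimpleGraph.coe_edgeFinset,
      Set.ncard_coe_finset]
  have leaf : ∀ x : G.Dart × Bool, τ x = (x.1, !x.2) → ∀ D : G.Dart, D.fst = x.1.fst →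
      D = x.1 := by
    intro x hx D hD
    have key : ∀ a b, Relation.EqvGen (fun a b => b = τ a ∨ b = (a.1, !a.2)) a b →
        (a.1 = x.1 ↔ b.1 = x.1) := by
      have t : ∀ a : G.Dart × Bool, a.1 = x.1 → (τ a).1 = x.1 := by
        rintro ⟨a, s⟩ rfl
        by_cases hs : s = x.2
        · subst hs; rw [hx]
        · have : (x.1, s) = τ x := by rw [hx, Bool.eq_not_iff.2 hs]
          rw [this, h1]
      intro a b h
      induction h with
      | rel a b hab =>
        rcases hab with rfl | rfl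
        · exact ⟨t a, fun h => by simpa [h1] using t _ h⟩
        · rfl
      | refl a => rfl
      | symm a b _ ih => exact ih.symm
      | trans a b c _ _ ih1 ih2 => exact ih1.trans ih2
    exact (key _ _ (h4 (D, false) x hD)).2 rfl
  by_cases hc : ∃ x : G.Dart × Bool, τ x = (x.1, !x.2) ∧ τ (x.1.symm, x.2) = (x.1.symm, !x.2)
  · obtain ⟨x, c1, c2⟩ := hc
    have l1 := leaf x c1
    have l2 := leaf (x.1.symm, x.2) c2
    have hv : ∀ u v, G.Reachable u v → (v = x.1.fst ∨ v = x.1.snd) →
        (u = x.1.fst ∨ u = x.1.snd) := by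
      rintro u v ⟨w⟩
      induction w with
      | nil => exact id
      | @cons a b c hab _ ih =>
        intro h
        rcases ih h with e | e
        · exact Or.inr (congrArg (·.snd) (l1 ⟨(b, a), hab.symm⟩ e))
        · exact Or.inl (congrArg (·.snd) (l2 ⟨(b, a), hab.symm⟩ e))
    have hs : (univ : Finset G.Dart) ⊆ {x.1, x.1.symm} := by
      intro D _
      rcases hv D.fst _ (hG _ _) (Or.inl rfl) with e | e
      · simp [l1 D e]
      · simp [l2 D e]
    have := (card_le_card hs).trans card_le_two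
    rw [card_univ] at this
    have : 0 < n := Fin.pos x.1.fst
    omega
  · let r := fun a b : G.Dart × Bool => b = τ a ∨ b = (a.1.symm, a.2)
    have := Fintype.ofSurjective (Quot.mk r) Quot.mk_surjective
    have key := mul_card_image_le_card (s := univ) (f := Quot.mk r) 5 ?_
    · rw [image_univ_of_surjective Quot.mk_surjective, card_univ, card_univ, Fintype.card_prod,
        hd, Fintype.card_bool, ← Nat.card_eq_fintype_card] at key
      change _ ≤ n + Nat.card (Quot r) + γ at h5
      omega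
    · intro q _
      induction q using Quot.ind with | _ x => ?_
      have a1 : ∀ a, Quot.mk r (τ a) = Quot.mk r a :=
        fun a => (Quot.sound (r := r) (Or.inl rfl)).symm
      have a2 : ∀ a : G.Dart × Bool, Quot.mk r (a.1.symm, a.2) = Quot.mk r a :=
        fun a => (Quot.sound (r := r) (Or.inr rfl)).symm
      have hs : ({x, τ x, (x.1.symm, x.2), τ (x.1.symm, x.2), ((τ x).1.symm, (τ x).2)} :
          Finset (G.Dart × Bool)) ⊆ univ.filter fun a => Quot.mk r a = Quot.mk r x := by
        intro y hy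
        simp only [mem_insert, mem_singleton] at hy
        rcases hy with rfl | rfl | rfl | rfl | rfl <;> simp [a1, a2]
      refine le_trans (le_of_eq ?_) (card_le_card hs)
      have n1 : x.1.fst ≠ x.1.snd := x.1.adj.ne
      have n2 : x.1.fst ≠ (τ x).1.snd := h3 x ▸ (τ x).1.adj.ne
      have f : ∀ {a b : G.Dart × Bool}, a.1.fst ≠ b.1.fst → a ≠ b := fun h e => h (e ▸ rfl)
      have b1 : x ≠ τ x := (h2 x).symm
      have b2 : x ≠ (x.1.symm, x.2) := f n1
      have b3 : x ≠ τ (x.1.symm, x.2) := f (by rw [h3]; exact n1)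
      have b4 : x ≠ ((τ x).1.symm, (τ x).2) := f n2
      have b5 : τ x ≠ (x.1.symm, x.2) := f (by rw [h3]; exact n1)
      have b6 : τ x ≠ τ (x.1.symm, x.2) := f (by rw [h3, h3]; exact n1)
      have b7 : τ x ≠ ((τ x).1.symm, (τ x).2) := f (by rw [h3]; exact n2)
      have b8 : (x.1.symm, x.2) ≠ τ (x.1.symm, x.2) := (h2 _).symm
      have b9 : (x.1.symm, x.2) ≠ ((τ x).1.symm, (τ x).2) := by
        intro e
        refine b1 (Prod.ext ?_ (Prod.ext_iff.1 e).2)
        simpa using congrArg (fun y => y.1.symm) e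
      have b10 : τ (x.1.symm, x.2) ≠ ((τ x).1.symm, (τ x).2) := by
        intro e
        have e1 : (τ x).1 = x.1 := dart_ext (h3 x) (by
          have := h3 (x.1.symm, x.2)
          rw [e] at this
          exact this)
        have e2 : (τ x).2 = !x.2 := Bool.eq_not_iff.2 fun e' => b1 (Prod.ext e1.symm e'.symm)
        exact hc ⟨x, Prod.ext e1 e2, by rw [e, e1, e2]⟩
      rw [card_insert_of_notMem (by simp [b1, b2, b3, b4]),
        card_insert_of_notMem (by simp [b5, b6, b7]), card_insert_of_notMem (by simp [b8, b9]),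
        card_pair b10]

end Final

open Final in
theorem final (h1 : SlackStmt) (h2 : EfStmt) : FinalStmt := by
  classical
  intro γ ε hε
  obtain ⟨K, hK, hS⟩ := h1 ε hε γ
  refine ⟨K * (5 * (1 + γ)) ^ (1 + ε) + 5 * (1 + γ), fun n G hG ⟨τ, t1, t2, t3, t4, t5⟩ => ?_⟩
  have hn : 0 < n := Fin.pos hG.nonempty.some
  have hE := few_edges hG t1 t2 t3 t4 t5
  suffices h : NR (fun S : Finset (Fin n) => S.Nonempty)
      (fun T : SimpleGraph (Fin n) => T ≤ G ∧ T.IsTree)
      (fun S T => (S.card : ℝ) - 1 - ({e ∈ T.edgeSet | ∀ v ∈ e, v ∈ S}.ncard : ℝ))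
      (K * (G.edgeSet.ncard : ℝ) ^ (1 + ε)) by
    obtain ⟨d, k, A, b, π, e, hk⟩ := h2 n G hG _ h
    refine ⟨d, k, A, b, π, e, hk.trans ?_⟩
    have a1 : (1 : ℝ) ≤ n := by exact_mod_cast hn
    have a2 : (G.edgeSet.ncard : ℝ) ≤ 5 * (1 + γ) * n := by
      have : (G.edgeSet.ncard : ℝ) ≤ 5 * (n + γ) := by exact_mod_cast hE
      nlinarith [Nat.cast_nonneg (α := ℝ) γ]
    have a3 : (n : ℝ) ≤ (n : ℝ) ^ (1 + ε) := by
      simpa using Real.rpow_le_rpow_of_exponent_le a1 (show (1 : ℝ) ≤ 1 + ε by linarith)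
    have a4 : (G.edgeSet.ncard : ℝ) ^ (1 + ε) ≤ (5 * (1 + γ)) ^ (1 + ε) * (n : ℝ) ^ (1 + ε) := by
      rw [← Real.mul_rpow (by positivity) (by positivity)]
      exact Real.rpow_le_rpow (by positivity) a2 (by linarith)
    have a5 := mul_le_mul_of_nonneg_left a4 hK.le
    have a6 := mul_le_mul_of_nonneg_left a3 (show (0 : ℝ) ≤ 5 * (1 + γ) by positivity)
    nlinarith
  rcases subsingleton_or_nontrivial (Fin n) with hs | hs
  · refine NR.zero (fun S T h _ => ?_) (by positivity)
    have e1 : S.card = 1 := le_antisymm (card_le_one_of_subsingleton S) h.card_pos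
    have e2 : {e ∈ T.edgeSet | ∀ v ∈ e, v ∈ S} = ∅ := by
      ext e
      induction e using Sym2.ind with
      | _ u v => simp [Subsingleton.elim u v]
    rw [e1, e2]
    simp
  obtain ⟨δ, d1, d2⟩ := exists_equiv G
  let Φ : Flag G.edgeSet ≃ G.Dart × Bool :=
    (Equiv.prodAssoc _ _ _).symm.trans (δ.prodCongr (Equiv.refl _))
  let τ' : Flag G.edgeSet → Flag G.edgeSet := fun x => Φ.symm (τ (Φ x))
  have p0 : ∀ x, Φ (τ' x) = τ (Φ x) := fun x => Φ.apply_symm_apply _
  have p1 : ∀ x, (Φ x).1 = δ (pr true x) := fun x => rfl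
  have p2 : ∀ a, pr true (Φ.symm a) = δ.symm a.1 := fun a => rfl
  have p3 : ∀ a, pr false (Φ.symm a) = ((δ.symm a.1).1, a.2) := fun a => rfl
  have p4 : ∀ D : G.Dart, δ.symm D.symm = ((δ.symm D).1, !(δ.symm D).2) := fun D => by
    rw [Equiv.symm_apply_eq, d1]; simp
  have hm : IsMap τ' := ⟨fun x => Φ.injective (by rw [p0, p0, t1]),
    fun x e => t2 (Φ x) (by rw [← p0, e])⟩
  let vtx : Dart G.edgeSet → Fin n := fun d => (δ d).fst
  have hv : ∀ d d', vtx d = vtx d' ↔ Sec τ' ∅ true d d' := by
    refine fun d d' => ⟨fun h => ?_, fun h => ?_⟩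
    · have key : ∀ a b, Relation.EqvGen (fun a b => b = τ a ∨ b = (a.1, !a.2)) a b →
          Sec τ' ∅ true (δ.symm a.1) (δ.symm b.1) := by
        intro a b h
        induction h with
        | rel a b hab =>
          rcases hab with rfl | rfl
          · exact .rel _ _ ⟨Φ.symm a, notMem_empty _, rfl, by simp [τ', p2]⟩
          · exact .refl _
        | refl a => exact .refl _
        | symm a b _ ih => exact ih.symm _ _
        | trans a b c _ _ ih1 ih2 => exact ih1.trans _ _ _ ih2
      simpa using key _ _ (t4 (δ d, false) (δ d', false) h)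
    · induction h with
      | rel a b hab =>
        obtain ⟨x, -, rfl, rfl⟩ := hab
        have := t3 (Φ x)
        rw [← p0] at this
        exact this.symm
      | refl a => rfl
      | symm a b _ ih => exact ih.symm
      | trans a b c _ _ ih1 ih2 => exact ih1.trans ih2
  have hadj : ∀ {u v} (h : G.Adj u v), ∃ e i, vtx (e, i) = u ∧ vtx (e, !i) = v ∧
      e.1 = s(u, v) := by
    intro u v h
    obtain ⟨⟨e, i⟩, hd⟩ := δ.surjective ⟨(u, v), h⟩
    exact ⟨e, i, by simp [vtx, hd], by simp [vtx, d1, hd], by rw [← d2 e i, hd]; rfl⟩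
  have hsurj : Function.Surjective vtx := by
    intro u
    obtain ⟨v, h⟩ := hG.preconnected.exists_adj_of_nontrivial u
    obtain ⟨e, i, h1, -⟩ := hadj h
    exact ⟨_, h1⟩
  have hlink : ∀ e e', Link (med τ') (fun _ => True) e e' := by
    have key : ∀ u v, G.Reachable u v → ∀ d d', vtx d = u → vtx d' = v →
        Link (med τ') (fun _ => True) d.1 d'.1 := by
      rintro u v ⟨w⟩
      induction w with
      | nil => exact fun d d' h h' => link_of_sec hm ((hv _ _).1 (h.trans h'.symm))
      | cons hab _ ih =>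
        intro d d' h h'
        obtain ⟨e, i, h1, h2, -⟩ := hadj hab
        exact (link_of_sec hm ((hv _ _).1 (h.trans h1.symm))).trans _ _ _ (ih (e, !i) d' h2 h')
    exact fun e e' => key _ _ (hG _ _) (e, false) (e', false) rfl rfl
  let r := fun a b : G.Dart × Bool => b = τ a ∨ b = (a.1.symm, a.2)
  let fc : Dart G.edgeSet → Quot r := fun d => Quot.mk r (δ (d.1, false), d.2)
  have f1 : ∀ x, fc (pr false x) = Quot.mk r (Φ x) := by
    rintro ⟨e, i, s⟩
    cases i
    · rfl
    · exact Quot.sound (Or.inr (Prod.ext (d1 e false) rfl))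
  have hf : ∀ d d', fc d = fc d' ↔ Sec τ' ∅ false d d' := by
    refine fun d d' => ⟨fun h => ?_, fun h => ?_⟩
    · have key : ∀ a b, Relation.EqvGen r a b →
          Sec τ' ∅ false ((δ.symm a.1).1, a.2) ((δ.symm b.1).1, b.2) := by
        intro a b h
        induction h with
        | rel a b hab =>
          rcases hab with rfl | rfl
          · exact .rel _ _ ⟨Φ.symm a, notMem_empty _, rfl, by simp [τ', p3]⟩
          · rw [p4]; exact .refl _
        | refl a => exact .refl _
        | symm a b _ ih => exact ih.symm _ _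
        | trans a b c _ _ ih1 ih2 => exact ih1.trans _ _ _ ih2
      simpa using key _ _ (Quot.eqvGen_exact h)
    · induction h with
      | rel a b hab =>
        obtain ⟨x, -, rfl, rfl⟩ := hab
        simp only [if_true, Bool.false_eq_true, if_false, f1, p0]
        exact Quot.sound (Or.inl rfl)
      | refl a => rfl
      | symm a b _ ih => exact ih.symm
      | trans a b c _ _ ih1 ih2 => exact ih1.trans ih2
  have hfs : Function.Surjective fc := by
    intro q
    induction q using Quot.ind with | _ a => ?_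
    exact ⟨_, (f1 (Φ.symm a)).trans (by simp)⟩
  have hc : Fintype.card G.edgeSet = G.edgeSet.ncard := by
    rw [← Nat.card_eq_fintype_card, Nat.card_coe_set_eq]
  have := hS G.edgeSet (Fin n) τ' vtx hm ⟨(hsurj hG.nonempty.some).choose.1⟩ hv hsurj hlink (by
    rw [nCl_eq τ' true vtx hsurj hv, nCl_eq τ' false fc hfs hf, hc]
    simpa using t5)
  rw [hc] at this
  refine this.comap id (fun T => univ.filter fun e => e.1 ∈ T.edgeSet) (fun _ h => h)
    (fun T hT => ⟨?_, fun a b => ?_⟩) fun S T _ hT => ?_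
  · rw [card_filter T.edgeSet (SimpleGraph.edgeSet_mono hT.1) _ fun _ => Iff.rfl,
      ← Nat.card_coe_set_eq, ← Nat.card_eq_fintype_card]
    exact (SimpleGraph.isTree_iff_connected_and_card.1 hT.2).2
  · obtain ⟨w⟩ := hT.2.connected a b
    induction w with
    | nil => exact .refl _
    | cons hab _ ih =>
      obtain ⟨e, i, h1, h2, h3⟩ := hadj (hT.1 hab)
      refine Relation.EqvGen.trans _ _ _ ?_ ih
      have he : e ∈ univ.filter fun e : G.edgeSet => e.1 ∈ T.edgeSet := by simpa [h3] using hab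
      cases i
      · exact .rel _ _ ⟨e, he, h1, h2⟩
      · exact .symm _ _ (.rel _ _ ⟨e, he, h2, h1⟩)
  · rw [filter_filter, card_filter {e ∈ T.edgeSet | ∀ v ∈ e, v ∈ S}
      (fun e he => SimpleGraph.edgeSet_mono hT.1 he.1)]
    · rfl
    · intro e
      have : e.1 = s(vtx (e, false), vtx (e, true)) := by
        rw [← d2 e false]
        simp only [vtx, show δ (e, true) = _ from d1 e false]
        rfl
      simp only [Set.mem_ofPred_eq, id]
      refine and_congr_right fun _ => ?_
      rw [this]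
      simp

end Pool.Agent.Lib.MP_234305_co
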