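import Pool.Agent.Lib.MP_234305_co.H25Stmts
import Pool.Agent.Lib.MP_234305_co.H60Final

/-!
Count: the numbers of edges and of cliques in the facial case.
-/

namespace Pool.Agent.Lib.MP_234305_co.Sums

open Finset Matrix Slack

namespace Count

variable {E X : Type} [Fintype E] [DecidableEq E] [Fintype X] [DecidableEq X]
  {τ : Flag E → Flag E} {vtx : Dart E → X}

/-- The corner of a flag keeps the vertex. -/
theorem corner_vtx (F : Fac τ vtx) (x : Flag E) :
    vtx ((τ x).1, (τ x).2.1) = vtx (x.1, x.2.1) :=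
  ((F.hv _ _).2 (Euler.sec_flag true x)).symm

omit [DecidableEq E] in
/-- The corner of a flag keeps the face. -/
theorem corner_face (x : Flag E) :
    ((τ x).1, (τ x).2.2) ∈ gcl τ ∅ false (x.1, x.2.2) :=
  Euler.mem_gcl.2 (Euler.sec_flag false x)

/-- The far end of the next edge is not the far end of the edge. -/
theorem far_ne (F : Fac τ vtx) (e : E) (s : Bool) :
    vtx ((τ (e, false, s)).1, !(τ (e, false, s)).2.1) ≠ vtx (e, true) := by
  intro h
  have := F.simp.2 ((τ (e, false, s)).1, (τ (e, false, s)).2.1) (e, false)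
    (corner_vtx F (e, false, s)) h
  exact F.pend (e, false, s) (Prod.ext_iff.1 this).1

theorem edges_ne (F : Fac τ vtx) (e : E) (s : Bool) :
    (τ (e, false, s)).1 ≠ (τ (e, true, s)).1 := by
  intro h
  have h0 := corner_vtx F (e, false, s)
  have h1 := corner_vtx F (e, true, s)
  have h2 := far_ne F e s
  have h3 := F.simp.1 (e, false)
  rw [← h] at h1
  simp only [fl, Bool.not_false] at h0 h1 h3
  generalize (τ (e, false, s)).2.1 = i at h0 h2
  generalize (τ (e, true, s)).2.1 = j at h1
  cases i <;> cases j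
  · exact h3 (h0.symm.trans h1)
  · exact h2 h1
  · exact h2 h1
  · exact h3 (h0.symm.trans h1)

/-- Every face has at least three darts. -/
theorem three_le (F : Fac τ vtx) (d : Dart E) : 3 ≤ (gcl τ ∅ false d).card := by
  obtain ⟨e, s⟩ := d
  refine two_lt_card_iff.2 ⟨(e, s), _, _, self_mem_gcl _, corner_face (τ := τ) (e, false, s),
    corner_face (τ := τ) (e, true, s), fun h => ?_, fun h => ?_, fun h => ?_⟩
  · exact F.pend (e, false, s) (Prod.ext_iff.1 h).1.symm
  · exact F.pend (e, true, s) (Prod.ext_iff.1 h).1.symm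
  · exact edges_ne F e s (Prod.ext_iff.1 h).1

theorem faces_le (F : Fac τ vtx) : 3 * nCl τ false ≤ 2 * Fintype.card E := by
  classical
  have h := mul_card_image_le_card (f := gcl τ ∅ false) (univ : Finset (Dart E)) 3 (by
    intro b hb
    obtain ⟨d, -, rfl⟩ := mem_image.1 hb
    refine (three_le F d).trans (card_le_card fun a ha => ?_)
    simp only [mem_filter, mem_univ, true_and]
    exact (Euler.gcl_eq_iff.2 (Euler.mem_gcl.1 ha)).symm)
  rw [card_univ, Fintype.card_prod, Fintype.card_bool] at h
  unfold nCl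
  convert h using 1
  ring

omit [Fintype E] [DecidableEq E] in
theorem adj_edge {a b : X} (h : (cone vtx ∅ univ).Adj a b) :
    ∃ d, vtx d = a ∧ vtx (fl d) = b := by
  rcases h.2.2.2 with h | h | h
  · exact absurd h (notMem_empty _)
  · exact absurd h (notMem_empty _)
  · exact h

/-- A triangle is the vertex set of a face. -/
theorem tri_face (F : Fac τ vtx) (β : Finset X) (hβ : (cone vtx ∅ univ).IsClique (β : Set X))
    (h3 : β.card = 3) :
    ∃ d, ∀ v, v ∈ β ↔ ∃ d' ∈ gcl τ ∅ false d, ∃ i, vtx (d'.1, i) = v := by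
  obtain ⟨-, f, hf, h1, h2⟩ := F.tri β hβ h3.ge
  obtain ⟨a, ha, b, hb, hab⟩ := one_lt_card.1 (show 1 < β.card by omega)
  obtain ⟨d, rfl, rfl⟩ := adj_edge (hβ (mem_coe.2 ha) (mem_coe.2 hb) hab)
  have he : Ins vtx β d.1 := (both' (fun d => vtx d ∈ β) d).2 ⟨ha, hb⟩
  generalize d.1 = e at he
  obtain ⟨s, hs⟩ : ∃ s, f (e, s) ≠ 0 := by
    by_contra hc
    push Not at hc
    have := h1 e
    rw [hc, hc, iz_pos he] at this
    exact absurd this (by decide)
  have hin : ∀ d' ∈ gcl τ ∅ false (e, s), ∀ i, vtx (d'.1, i) ∈ β := by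
    intro d' hd' i
    have := h2 d' (by rw [← Euler.mem_Fs_iff.1 hf _ _ (Euler.mem_gcl.1 hd')]; exact hs)
    cases i
    · exact this.1
    · exact this.2
  refine ⟨(e, s), fun v => ⟨fun hv => ?_, fun ⟨d', hd', i, hi⟩ => hi ▸ hin d' hd' i⟩⟩
  have hy := corner_face (τ := τ) (e, false, s)
  have hsub : ({vtx (e, false), vtx (e, true),
      vtx ((τ (e, false, s)).1, !(τ (e, false, s)).2.1)} : Finset X) = β := by
    refine eq_of_subset_of_card_le (fun w hw => ?_) ?_
    · simp only [mem_insert, mem_singleton] at hw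
      rcases hw with rfl | rfl | rfl
      · exact he.1
      · exact he.2
      · exact hin _ hy _
    · rw [h3]
      refine (card_eq_three.2 ⟨_, _, _, F.simp.1 (e, false), ?_, (far_ne F e s).symm, rfl⟩).ge
      rw [← corner_vtx F (e, false, s)]
      exact F.simp.1 ((τ (e, false, s)).1, (τ (e, false, s)).2.1)
  rw [← hsub] at hv
  simp only [mem_insert, mem_singleton] at hv
  rcases hv with rfl | rfl | rfl
  · exact ⟨_, self_mem_gcl _, false, rfl⟩
  · exact ⟨_, self_mem_gcl _, true, rfl⟩
  · exact ⟨_, hy, _, rfl⟩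

theorem card_vtx (F : Fac τ vtx) : Fintype.card X ≤ 2 * Fintype.card E := by
  have := Fintype.card_le_of_surjective vtx F.surj
  rw [Fintype.card_prod, Fintype.card_bool] at this
  omega

theorem cliq_le (F : Fac τ vtx) :
    (cliq univ (cone vtx ∅ univ)).card ≤ 1 + 6 * Fintype.card E := by
  classical
  let A : Finset (Finset X) := univ.image fun v : X => {v}
  let B : Finset (Finset X) := univ.image fun e : E => {vtx (e, false), vtx (e, true)}
  let C : Finset (Finset X) := univ.image fun d : Dart E =>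
    univ.filter fun v => ∃ d' ∈ gcl τ ∅ false d, ∃ i, vtx (d'.1, i) = v
  have hsub : cliq univ (cone vtx ∅ univ) ⊆ insert ∅ (A ∪ (B ∪ C)) := by
    intro β hβ
    have hc := (mem_cliq.1 hβ).2
    simp only [mem_insert, mem_union]
    rcases Nat.lt_or_ge β.card 3 with h | h
    · have h' : β.card = 0 ∨ β.card = 1 ∨ β.card = 2 := by omega
      rcases h' with h' | h' | h'
      · exact .inl (card_eq_zero.1 h')
      · obtain ⟨v, rfl⟩ := card_eq_one.1 h'
        exact .inr (.inl (mem_image_of_mem _ (mem_univ v)))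
      · obtain ⟨a, b, hab, rfl⟩ := card_eq_two.1 h'
        obtain ⟨⟨e, i⟩, rfl, rfl⟩ := adj_edge (hc (by simp) (by simp) hab)
        refine .inr (.inr (.inl (mem_image.2 ⟨e, mem_univ _, ?_⟩)))
        cases i
        · rfl
        · exact pair_comm _ _
    · obtain ⟨d, hd⟩ := tri_face F β hc (F.tri β hc h).1
      refine .inr (.inr (.inr (mem_image.2 ⟨d, mem_univ _, ?_⟩)))
      ext v
      simp only [mem_filter, mem_univ, true_and]
      exact (hd v).symm
  have h1 : A.card ≤ Fintype.card X := card_image_le.trans card_univ.le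
  have h2 : B.card ≤ Fintype.card E := card_image_le.trans card_univ.le
  have h3 : C.card ≤ Fintype.card (Dart E) := card_image_le.trans card_univ.le
  rw [Fintype.card_prod, Fintype.card_bool] at h3
  have h4 := card_le_card hsub
  have h5 := card_insert_le ∅ (A ∪ (B ∪ C))
  have h6 := card_union_le A (B ∪ C)
  have h7 := card_union_le B C
  have h8 := card_vtx F
  omega

end Count

theorem countStmt : CountStmt := by
  intro E X _ _ _ _ τ vtx γ F h
  have h1 := Final.nCl_eq τ true vtx F.surj F.hv
  rw [Nat.card_eq_fintype_card] at h1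
  have h2 := Count.faces_le F
  exact ⟨by omega, Count.card_vtx F, Count.cliq_le F, Count.tri_face F⟩

end Pool.Agent.Lib.MP_234305_co.Sums
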