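import Pool.Agent.Lib.MP_234305_co.H25Hyp

/-!
The slack matrix of the hyperforests in the facial case.
-/

namespace Pool.Agent.Lib.MP_234305_co.Sums

open Finset Matrix Slack

namespace FacAux

variable {E X : Type} [Fintype X] [DecidableEq X] [Nonempty X] {vtx : Dart E → X}

/-- A hyperforest of cliques of a connected graph extends to a hypertree. -/
theorem ext_tree (hc : ∀ a b, Link (fun e i => vtx (e, i)) (fun _ => True) a b)
    {x : Finset (Finset X) × (X → X)} (hx : HC univ (cone vtx ∅ univ) x) :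
    ∃ H, HT vtx H ∧ x.1.filter (fun β => 2 ≤ β.card) ⊆ H := by
  classical
  obtain ⟨dep₀, h0⟩ := hx.2
  obtain ⟨H, hH, hmax⟩ := exists_max_image
    ((cliq univ (cone vtx ∅ univ)).powerset.filter fun H =>
      x.1.filter (fun β : Finset X => 2 ≤ β.card) ⊆ H ∧ (∀ β ∈ H, 2 ≤ β.card) ∧ ∃ dep, Ord H dep)
    card ⟨x.1.filter fun β : Finset X => 2 ≤ β.card, mem_filter.2 ⟨mem_powerset.2 fun β hβ =>
      mem_cliq.2 ⟨subset_univ _, (hx.1 β (mem_filter.1 hβ).1).2.1⟩, Subset.rfl,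
      fun β hβ => (mem_filter.1 hβ).2, dep₀, h0.1.mono (filter_subset _ _)⟩⟩
  obtain ⟨a1, a2, a3, dep, a4⟩ := mem_filter.1 hH
  obtain ⟨lab, -, l2, -, l4, -⟩ := exists_lab a4
  have hcert : Cert univ H lab dep := ⟨a4, fun u _ v _ hu hv e => by rw [← l2 u hu, e, l2 v hv]⟩
  have hl : ∀ a b, lab a = lab b := fun a b => by
    refine Link.const lab (fun e _ => ?_) (hc a b)
    by_contra hne
    have hab : vtx (e, false) ≠ vtx (e, true) := fun h => hne (congrArg lab h)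
    obtain ⟨d, ⟨d1, -⟩, d2⟩ := reroot_set (fun _ _ => subset_univ _) l4 hcert
      {vtx (e, false), vtx (e, true)} (subset_univ _) (by
        rw [coe_pair]
        exact (Set.injOn_pair ..).2 fun h => absurd h hne)
    have hn : ({vtx (e, false), vtx (e, true)} : Finset X) ∉ H := fun h =>
      hne (l4 _ h _ (by simp) _ (by simp))
    have := hmax (insert {vtx (e, false), vtx (e, true)} H) (mem_filter.2 ⟨mem_powerset.2
      (insert_subset (mem_cliq.2 ⟨subset_univ _, ?_⟩) (mem_powerset.1 a1)),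
      a2.trans (subset_insert _ _), fun β hβ => ?_, d, d1.1, fun β b1 β' b2 v b3 b4 => ?_⟩)
    · rw [card_insert_of_notMem hn] at this
      omega
    · rw [coe_pair]
      exact SimpleGraph.isClique_pair.2 fun _ =>
        ⟨hab, mem_univ _, mem_univ _, .inr (.inr ⟨(e, false), rfl, rfl⟩)⟩
    · rcases mem_insert.1 hβ with rfl | h
      · rw [card_pair hab]
      · exact a3 β h
    · rcases mem_insert.1 b1 with rfl | c1 <;> rcases mem_insert.1 b2 with rfl | c2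
      · rfl
      · exact absurd b4 (d2 v b3.1 _ c2)
      · exact absurd b3 (d2 v b4.1 _ c1)
      · exact d1.2 _ c1 _ c2 v b3 b4
  refine ⟨H, ⟨fun β hβ => ⟨(mem_cliq.1 (mem_powerset.1 a1 hβ)).2, a3 β hβ⟩, fun y => ?_⟩, a2⟩
  obtain ⟨d, d1, d2, -⟩ := reroot (fun _ _ => subset_univ _) l4 hcert (mem_univ y)
  exact ⟨d, d1.1, fun v => ⟨fun h => d1.2 v (mem_univ _) y (mem_univ _) h d2 (hl _ _),
    fun h => h ▸ d2⟩⟩

/-- From hypertrees to hyperforests. -/
theorem forest (hc : ∀ a b, Link (fun e i => vtx (e, i)) (fun _ => True) a b) {N : ℝ}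
    (h : NR (fun S : Finset X => S.Nonempty) (HT vtx) (fun S H => cc S H - 1) N) :
    MB univ (cone vtx ∅ univ) (N + (cliq univ (cone vtx ∅ univ)).card) := by
  refine nr_col (fun x H => HT vtx H ∧ x.1.filter (fun β => 2 ≤ β.card) ⊆ H) ?_
    fun x hx => ext_tree hc hx
  refine ((h.comap id Prod.snd (fun S hS => hS.2) (fun x hx => hx.1) fun _ _ _ _ => rfl).add
    (nr_fam (cliq univ (cone vtx ∅ univ)) (fun x => x.2 \ x.1.1.filter fun β => 2 ≤ β.card)
      (fun _ β => β) (fun x hx β hβ => mem_cliq.2 ⟨subset_univ _, (hx.1.1 β (mem_sdiff.1 hβ).1).1⟩)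
      (fun S β => (((β ∩ S).card - 1 : ℕ) : ℝ)) fun _ _ => Nat.cast_nonneg _)).congr
    fun S x _ hx => ?_
  have h1 := sum_sdiff (f := fun β => (((β ∩ S).card - 1 : ℕ) : ℝ)) hx.2
  have h2 : ∑ β ∈ x.1.1.filter (fun β => 2 ≤ β.card), (((β ∩ S).card - 1 : ℕ) : ℝ) =
      ∑ β ∈ x.1.1, (((β ∩ S).card - 1 : ℕ) : ℝ) :=
    sum_filter_of_ne fun β _ hβ => by
      have := card_le_card (inter_subset_left (s₁ := β) (s₂ := S))
      have h3 : (β ∩ S).card - 1 ≠ 0 := by exact_mod_cast hβ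
      omega
  simp only [cc, id]
  linarith

theorem nr_top {I : Type} {P : I → Prop} (r : X)
    (h3 : ∀ β ∈ cliq univ (cone vtx ∅ univ), β.card ≤ 3) (α : I → Finset X → X → Prop) :
    NR P (fun x : Finset (Finset X) × (X → ℕ) =>
        HT vtx x.1 ∧ Ord x.1 x.2 ∧ ∀ v, Root x.1 x.2 v ↔ v = r)
      (fun i x => ∑ β ∈ x.1, ind (α i β (top x.2 β))) (3 * (cliq univ (cone vtx ∅ univ)).card) := by
  refine (nr_fam ((cliq univ (cone vtx ∅ univ)).sigma fun β => β)
    (fun x : Finset (Finset X) × (X → ℕ) => x.1) (fun x β => ⟨β, top x.2 β⟩)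
    (fun x hx β hβ => ?_) (fun i a => ind (α i a.1 a.2)) fun _ _ => ind_nonneg _).mono ?_
  · obtain ⟨b1, b2⟩ := hx.1.1 β hβ
    exact mem_sigma.2 ⟨mem_cliq.2 ⟨subset_univ _, b1⟩,
      (top_spec x.2 (card_pos.1 (zero_lt_two.trans_le b2))).1⟩
  · rw [card_sigma]
    have := sum_le_card_nsmul _ _ 3 h3
    rw [smul_eq_mul, mul_comm] at this
    exact_mod_cast this

/-- Reduction to rows whose complement is connected and contains the root. -/
theorem reduce (r : X) (h3 : ∀ β ∈ cliq univ (cone vtx ∅ univ), β.card ≤ 3) {N : ℝ}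
    (h : NR (fun K => KC vtx r K ∧ Kᶜ.Nonempty) (HT vtx) (fun K H => cc Kᶜ H - 1) N) :
    NR (fun S : Finset X => S.Nonempty) (HT vtx) (fun S H => cc S H - 1)
      (3 * (cliq univ (cone vtx ∅ univ)).card + (N + 3 * (cliq univ (cone vtx ∅ univ)).card)) := by
  refine nr_col (fun H dep => HT vtx H ∧ Ord H dep ∧ ∀ v, Root H dep v ↔ v = r) ?_
    fun H hH => (hH.2 r).imp fun _ h => ⟨hH, h⟩
  refine nr_or (P₁ := fun S => r ∈ S) (P₂ := fun S => S.Nonempty ∧ r ∉ S) ?_ ?_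
    fun S hS => (em (r ∈ S)).imp_right fun h => ⟨hS, h⟩
  · refine (nr_top r h3 fun S β t => t ∉ S ∧ (β ∩ S).Nonempty).congr fun S x hS hx => ?_
    rw [cc_tree hx.2.1 hx.2.2, ind_pos hS, add_sub_cancel_left]
  refine ((h.comap (comp vtx r) Prod.fst (fun S hS => ⟨comp_kc hS.2, ?_⟩) (fun x hx => hx.1)
    fun _ _ _ _ => rfl).add (nr_top r h3
      fun S β t => t ∉ S ∧ t ∉ comp vtx r S ∧ (β ∩ S).Nonempty)).congr fun S x hS hx => ?_
  · obtain ⟨v, hv⟩ := hS.1
    exact ⟨v, mem_compl.2 fun h => comp_not hS.2 h hv⟩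
  rw [cc_tree hx.2.1 hx.2.2, cc_tree hx.2.1 hx.2.2, ind_neg hS.2,
    ind_neg (by simpa using (comp_kc hS.2).1), zero_add, zero_add, sub_add_eq_add_sub,
    ← sum_add_distrib]
  congr 1
  refine sum_congr rfl fun β hβ => ?_
  by_cases a : top x.2 β ∈ comp vtx r S
  · have a1 := comp_not hS.2 a
    rw [ind_neg (p := _ ∧ _ ∉ comp vtx r S ∧ _) fun h => h.2.1 a, add_zero]
    congr 1
    refine propext ⟨fun ⟨_, v, hv⟩ => ⟨by simpa using a, v, mem_inter.2 ⟨(mem_inter.1 hv).1,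
      mem_compl.2 fun h => comp_not hS.2 h (mem_inter.1 hv).2⟩⟩, fun ⟨_, v, hv⟩ => ⟨a1, v, ?_⟩⟩
    obtain ⟨b1, b2⟩ := mem_inter.1 hv
    refine mem_inter.2 ⟨b1, by_contra fun b3 => mem_compl.1 b2 ?_⟩
    by_cases e : top x.2 β = v
    · exact e ▸ a
    obtain ⟨-, -, -, b4⟩ := (hx.1.1 β hβ).1 (top_spec x.2 ⟨v, b1⟩).1 b1 e
    obtain ⟨d, e1, e2⟩ := (b4.resolve_left (notMem_empty _)).resolve_left (notMem_empty _)
    rw [← e2]
    exact (comp_step (e1 ▸ a1) (e2 ▸ b3)).1 (e1 ▸ a)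
  · rw [ind_neg (p := _ ∉ (comp vtx r S)ᶜ ∧ _) fun h => h.1 (mem_compl.2 a), zero_add]
    congr 1
    exact propext ⟨fun h => ⟨h.1, a, h.2⟩, fun h => ⟨h.1, h.2.2⟩⟩

end FacAux

theorem facStmt (hA : AStmt) (hB : BStmt) (hC : CountStmt) (h4 : ParallelStmt) (h5 : FewStmt) :
    FacStmt := by
  intro E X _ _ _ _ _ τ vtx γ m L hf hγ hm hH hL
  classical
  obtain ⟨⟨e₁, -⟩, -⟩ := hf.surj (Classical.arbitrary X)
  have hE : Nonempty E := ⟨e₁⟩
  have hτ := hf.map
  have hv := hf.hv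
  obtain ⟨-, -, c3, c4⟩ := hC E X τ vtx γ hf hγ
  obtain ⟨Φ, f1, f2, f3⟩ := h5 E τ hτ γ hf.hm hγ
  choose s hs' using hf.surj
  have h3 : ∀ β ∈ cliq univ (cone vtx ∅ univ), β.card ≤ 3 := fun β hβ => by
    by_contra h
    have := (hf.tri β (mem_cliq.1 hβ).2 (by omega)).1
    omega
  have hB' := nr_cover (P := fun A => KC vtx (vtx (e₁, false)) A ∧ ¬ CaseA τ vtx A)
    (Φ.filter fun φ => ∀ t : X → Z2, ∃ e, φ e ≠ t (vtx (e, false)) + t (vtx (e, true))) _ ?_
    fun φ hφ => hB E X τ vtx φ (vtx (e₁, false)) _ hf (f2 φ (mem_filter.1 hφ).1)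
      (mem_filter.1 hφ).2 (hH E τ hτ hf.hm hγ hm φ (f2 φ (mem_filter.1 hφ).1) fun h => by
        obtain ⟨f, g1, g2⟩ := Euler.mem_Cut.1 h
        obtain ⟨e, he⟩ := (mem_filter.1 hφ).2 fun v => f (s v)
        have q : ∀ d, f (s (vtx d)) = f d := fun d =>
          Euler.mem_Fs_iff.1 g1 _ _ ((hv _ _).1 (hs' _))
        exact he (by rw [q, q, ← g2, Euler.cobD_apply]))
  · refine (FacAux.forest hf.conn (FacAux.reduce (vtx (e₁, false)) h3
      (nr_or (hA E X τ vtx (e₁, false) hf c4) hB' fun A hA =>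
        (em (CaseA τ vtx A)).imp (fun h => ⟨hA.1, hA.2, h⟩) fun h => ⟨hA.1, h⟩))).mono ?_
    have a1 : (1 : ℝ) ≤ Fintype.card E := by exact_mod_cast Fintype.card_pos
    have a2 : ((cliq univ (cone vtx ∅ univ)).card : ℝ) ≤ 1 + 6 * Fintype.card E := by
      exact_mod_cast c3
    have a3 : ((Φ.filter fun φ => ∀ t : X → Z2,
        ∃ e, φ e ≠ t (vtx (e, false)) + t (vtx (e, true))).card : ℝ) ≤ 2 ^ γ := by
      exact_mod_cast (card_filter_le _ _).trans f1
    have a4 := mul_le_mul a3 (by linarith : 40 * ((cliq univ (cone vtx ∅ univ)).card : ℝ) +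
      L * (Fintype.card E : ℝ) ≤ (280 + L) * (Fintype.card E : ℝ)) (by positivity) (by positivity)
    have a5 : (Fintype.card E : ℝ) ≤ 2 ^ γ * Fintype.card E :=
      le_mul_of_one_le_left (by positivity) (one_le_pow₀ (by norm_num))
    linarith
  rintro A ⟨hA, hn⟩
  simp only [CaseA, not_forall] at hn
  obtain ⟨z, z1, z2, z3⟩ := hn
  obtain ⟨φ, p1, p2, c, p3, p4⟩ := (h4 E τ hτ z z2).resolve_left z3
  obtain ⟨φ₀, q1, g, q2, q3⟩ := f3 φ p1
  have q4 : ∀ d, g (s (vtx d)) = g d := fun d => q2 _ _ ((hv _ _).1 (hs' _))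
  refine ⟨φ₀, mem_filter.2 ⟨q1, fun t => ?_⟩, fun v => g (s v) + g (e₁, false), hA.1,
    by simp only [q4, z2_add_self], fun e a1 a2 => ?_⟩
  · by_contra h
    push Not at h
    have : φ = cob (fun e i => vtx (e, i)) fun v => t v + g (s v) := funext fun e => by
      have := (q3 e).symm.trans (h e)
      simp only [cob, q4]
      linear_combination this - z2_add_self (g (e, false)) - z2_add_self (g (e, true))
    rw [this, dot_cob, dotProduct, sum_eq_zero fun v _ => by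
      rw [← hs' v, ← dot_st_vtx hv, p3, zero_mul]] at p4
    exact zero_ne_one p4
  · have : φ e = 0 := by
      by_contra h
      obtain ⟨i, e', i', b1, b2⟩ := p2 e h
      refine b1 (z1 (e', i') ((hv _ _).2 b2 ▸ ?_))
      cases i
      exacts [a1, a2]
    dsimp only
    rw [q3, this, q4, q4, add_add_add_comm, z2_add_self, add_zero, zero_add]

end Pool.Agent.Lib.MP_234305_co.Sums
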