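import Pool.Agent.Lib.MP_234305_co.H25Stmts
import Pool.Agent.Lib.MP_234305_co.H60Final

/-!
The last step: from the inductive bound to the extended formulation, and the gadget bounds.
-/

namespace Pool.Agent.Lib.MP_234305_co.Sums

open Finset Matrix Slack

namespace Last

/-- The map of an embedded graph. -/
lemma exists_map (h3 : EulStmt) {n γ : ℕ} {G : SimpleGraph (Fin n)} [Nontrivial (Fin n)]
    (hG : G.Connected) (hg : EulerGenusLE G γ) :
    ∃ (E : Type) (_ : Fintype E) (_ : DecidableEq E) (τ : Flag E → Flag E)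
      (vtx : Dart E → Fin n), IsMap τ ∧ (∀ d d', vtx d = vtx d' ↔ Sec τ ∅ true d d') ∧
      Simp vtx ∧ Gen τ γ ∧ ∀ u v, G.Adj u v → ∃ d, vtx d = u ∧ vtx (fl d) = v := by
  classical
  obtain ⟨τ, t1, t2, t3, t4, t5⟩ := hg
  obtain ⟨δ, d1, d2⟩ := Final.exists_equiv G
  let Φ : Flag G.edgeSet ≃ G.Dart × Bool :=
    (Equiv.prodAssoc _ _ _).symm.trans (δ.prodCongr (Equiv.refl _))
  let τ' : Flag G.edgeSet → Flag G.edgeSet := fun x => Φ.symm (τ (Φ x))
  have p0 : ∀ x, Φ (τ' x) = τ (Φ x) := fun x => Φ.apply_symm_apply _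
  have p2 : ∀ a, pr true (Φ.symm a) = δ.symm a.1 := fun a => rfl
  have p3 : ∀ a, pr false (Φ.symm a) = ((δ.symm a.1).1, a.2) := fun a => rfl
  have p4 : ∀ D : G.Dart, δ.symm D.symm = ((δ.symm D).1, !(δ.symm D).2) := fun D => by
    rw [Equiv.symm_apply_eq, d1]; simp
  have hm : IsMap τ' := ⟨fun x => Φ.injective (by rw [p0, p0, t1]),
    fun x e => t2 (Φ x) (by rw [← p0, e])⟩
  let vtx : Dart G.edgeSet → Fin n := fun d => (δ d).fst
  have hv : ∀ d d', vtx d = vtx d' ↔ Sec τ' ∅ true d d' := by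
    refine fun d d' => ⟨fun h => ?_, fun h => ?_⟩
    · have key : ∀ a b, Relation.EqvGen (fun a b => b = τ a ∨ b = (a.1, !a.2)) a b →
          Sec τ' ∅ true (δ.symm a.1) (δ.symm b.1) := by
        intro a b h
        induction h with
        | rel a b hab =>
          rcases hab with rfl | rfl
          · exact .rel _ _ ⟨Φ.symm a, notMem_empty _, rfl, by simp [τ', p2]⟩
          · exact .refl _
        | refl a => exact .refl _
        | symm a b _ ih => exact ih.symm
        | trans a b c _ _ ih1 ih2 => exact ih1.trans ih2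
      simpa using key _ _ (t4 (δ d, false) (δ d', false) h)
    · induction h with
      | rel a b hab =>
        obtain ⟨x, -, rfl, rfl⟩ := hab
        have := t3 (Φ x)
        rw [← p0] at this
        exact this.symm
      | refl a => rfl
      | symm a b _ ih => exact ih.symm
      | trans a b c _ _ ih1 ih2 => exact ih1.trans ih2
  have hfl : ∀ d, vtx (fl d) = (δ d).snd := fun d => by
    simp only [vtx, fl, d1]
    rfl
  have hadj : ∀ u v, G.Adj u v → ∃ d, vtx d = u ∧ vtx (fl d) = v := by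
    intro u v h
    obtain ⟨d, hd⟩ := δ.surjective ⟨(u, v), h⟩
    exact ⟨d, by simp [vtx, hd], by rw [hfl, hd]⟩
  have hsurj : Function.Surjective vtx := by
    intro u
    obtain ⟨v, h⟩ := hG.preconnected.exists_adj_of_nontrivial u
    obtain ⟨d, h1, -⟩ := hadj u v h
    exact ⟨_, h1⟩
  have hlink : ∀ e e', Link (med τ') (fun _ => True) e e' := by
    have key : ∀ u v, G.Reachable u v → ∀ d d', vtx d = u → vtx d' = v →
        Link (med τ') (fun _ => True) d.1 d'.1 := by
      rintro u v ⟨w⟩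
      induction w with
      | nil => exact fun d d' h h' => Final.link_of_sec hm ((hv _ _).1 (h.trans h'.symm))
      | cons hab _ ih =>
        intro d d' h h'
        obtain ⟨e, h1, h2⟩ := hadj _ _ hab
        exact (Final.link_of_sec hm ((hv _ _).1 (h.trans h1.symm))).trans (ih (fl e) d' h2 h')
    exact fun e e' => key _ _ (hG _ _) (e, false) (e', false) rfl rfl
  let r := fun a b : G.Dart × Bool => b = τ a ∨ b = (a.1.symm, a.2)
  let fc : Dart G.edgeSet → Quot r := fun d => Quot.mk r (δ (d.1, false), d.2)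
  have f1 : ∀ x, fc (pr false x) = Quot.mk r (Φ x) := by
    rintro ⟨e, i, s⟩
    cases i
    · rfl
    · exact Quot.sound (Or.inr (Prod.ext (d1 e false) rfl))
  have hf : ∀ d d', fc d = fc d' ↔ Sec τ' ∅ false d d' := by
    refine fun d d' => ⟨fun h => ?_, fun h => ?_⟩
    · have key : ∀ a b, Relation.EqvGen r a b →
          Sec τ' ∅ false ((δ.symm a.1).1, a.2) ((δ.symm b.1).1, b.2) := by
        intro a b h
        induction h with
        | rel a b hab =>
          rcases hab with rfl | rfl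
          · exact .rel _ _ ⟨Φ.symm a, notMem_empty _, rfl, by simp [τ', p3]⟩
          · rw [p4]; exact .refl _
        | refl a => exact .refl _
        | symm a b _ ih => exact ih.symm
        | trans a b c _ _ ih1 ih2 => exact ih1.trans ih2
      simpa using key _ _ (Quot.eqvGen_exact h)
    · induction h with
      | rel a b hab =>
        obtain ⟨x, -, rfl, rfl⟩ := hab
        simp only [if_true, Bool.false_eq_true, if_false, f1, p0]
        exact Quot.sound (Or.inl rfl)
      | refl a => rfl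
      | symm a b _ ih => exact ih.symm
      | trans a b c _ _ ih1 ih2 => exact ih1.trans ih2
  have hfs : Function.Surjective fc := by
    intro q
    induction q using Quot.ind with | _ a => ?_
    exact ⟨_, (f1 (Φ.symm a)).trans (by simp)⟩
  have hc : Fintype.card G.edgeSet = G.edgeSet.ncard := by
    rw [← Nat.card_eq_fintype_card, Nat.card_coe_set_eq]
  refine ⟨G.edgeSet, inferInstance, inferInstance, τ', vtx, hm, hv, ⟨fun d => ?_, fun d d' a b => ?_⟩,
    (h3 _ τ' γ hm).2 hlink ?_, hadj⟩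
  · rw [hfl]
    exact (δ d).adj.ne
  · rw [hfl, hfl] at b
    exact δ.injective (Final.dart_ext a b)
  · rw [Final.nCl_eq τ' true vtx hsurj hv, Final.nCl_eq τ' false fc hfs hf, hc]
    simpa using t5

/-- The bound for every clique sum. -/
lemma jb (h1 : SumStmt) (h2 : ConeStmt) (h3 : EulStmt) (k γ : ℕ) : ∃ c : ℝ, 0 ≤ c ∧
    ∀ (n : ℕ) [Nonempty (Fin n)] (L : ℝ), 0 ≤ L → GH γ (n ^ 2) L →
      ∀ (U : Finset (Fin n)) (G : SimpleGraph (Fin n)), CliqueSum k γ U G →
        JB (k + 3 * γ + 4) (c * (1 + L)) U G := by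
  obtain ⟨c, hc, h⟩ := h2 (k + 3 * γ)
  refine ⟨c, hc, fun n _ L hL hG U G hS => ?_⟩
  obtain ⟨hs, hcone⟩ := h (Fin n) L γ hL (by omega) (by simpa using hG)
  induction hS with
  | sum _ _ a b ih1 ih2 => exact h1 _ _ _ _ _ _ _ ih1 ih2 a b
  | delete _ a ih => exact ih.mono a
  | @piece U G hp =>
    obtain ⟨hU, hp | ⟨m, P, f, p1, p2, p3, p4, p5⟩⟩ := hp
    · exact hs U G hU (by omega)
    rcases subsingleton_or_nontrivial (Fin m) with hm | hm
    · have : m ≤ 1 := by simpa using Fintype.card_le_one_iff_subsingleton.2 hm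
      exact hs U G hU (by omega)
    obtain ⟨E, _, _, τ, vtx, a1, a2, a3, a4, a5⟩ := exists_map h3 p1 p2
    have hsub : univ.map f ⊆ U := fun v hv => by
      obtain ⟨i, -, rfl⟩ := mem_map.1 hv
      exact p3 i
    have hcard := card_sdiff_add_card_eq_card hsub
    rw [card_map, card_univ, Fintype.card_fin] at hcard
    refine (hcone E τ (fun d => f (vtx d)) (U \ univ.map f) U γ a1
      (fun d d' => f.injective.eq_iff.trans (a2 d d'))
      ⟨fun d e => a3.1 d (f.injective e), fun d d' e e' => a3.2 d d' (f.injective e)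
        (f.injective e')⟩ a4 le_rfl sdiff_subset (by omega) fun d => ⟨p3 _, by simp⟩).mono
      fun a b hab => ⟨hab.ne, hU a b hab, hU b a hab.symm, ?_⟩
    by_cases ha : a ∈ univ.map f
    · by_cases hb : b ∈ univ.map f
      · obtain ⟨i, -, rfl⟩ := mem_map.1 ha
        obtain ⟨j, -, rfl⟩ := mem_map.1 hb
        obtain ⟨d, e1, e2⟩ := a5 i j (p5 i j hab)
        exact .inr (.inr ⟨d, congrArg f e1, congrArg f e2⟩)
      · exact .inr (.inl (mem_sdiff.2 ⟨hU b a hab.symm, hb⟩))
    · exact .inl (mem_sdiff.2 ⟨hU a b hab, ha⟩)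

variable {n : ℕ}

open Classical in
/-- The edges of a graph as sets with two members. -/
noncomputable def edges (T : SimpleGraph (Fin n)) : Finset (Finset (Fin n)) :=
  univ.filter fun β => ∃ u v, T.Adj u v ∧ β = {u, v}

lemma mem_edges {T : SimpleGraph (Fin n)} {β : Finset (Fin n)} :
    β ∈ edges T ↔ ∃ u v, T.Adj u v ∧ β = {u, v} := by
  simp [edges]

/-- A tree is a column. -/
lemma tree_col {G T : SimpleGraph (Fin n)} (hG : T ≤ G) (hT : T.IsTree) (r : Fin n) :
    HC univ G (edges T, fun _ => r) := by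
  refine ⟨fun β hβ => ⟨subset_univ _, ?_, fun _ _ _ _ => rfl⟩, ?_⟩
  · obtain ⟨u, v, h, rfl⟩ := mem_edges.1 hβ
    rw [coe_pair]
    exact SimpleGraph.isClique_pair.2 fun _ => hG h
  let dep : Fin n → ℕ := fun v => T.dist r v * n + v
  have lt : ∀ u v, T.dist r u < T.dist r v → dep u < dep v := fun u v h => by
    have := u.2
    have := Nat.mul_le_mul_right n (Nat.succ_le_of_lt h)
    simp only [dep, Nat.succ_mul] at this ⊢
    omega
  have nt : ∀ β ∈ edges T, ∀ v, Nt dep β v →
      ∃ u, T.Adj u v ∧ β = {u, v} ∧ T.dist r v = T.dist r u + 1 := by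
    rintro β hβ v ⟨hv, u, hu, huv⟩
    obtain ⟨a, b, h, rfl⟩ := mem_edges.1 hβ
    have key : ∀ a b, T.Adj a b → dep a < dep b → T.dist r b = T.dist r a + 1 := fun a b h e =>
      (hT.dist_eq_dist_add_one_of_adj r h).resolve_left fun e' => by
        have := lt b a (by omega)
        omega
    simp only [mem_insert, mem_singleton] at hv hu
    rcases hv with rfl | rfl <;> rcases hu with rfl | rfl
    · omega
    · exact ⟨u, h.symm, pair_comm _ _, key _ _ h.symm huv⟩
    · exact ⟨u, h, rfl, key _ _ h huv⟩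
    · omega
  have root : ∀ v, Root (edges T) dep v → v = r := by
    intro v hv
    by_contra hne
    obtain ⟨p, hp⟩ := hT.connected.exists_walk_length_eq_dist v r
    obtain ⟨u, h, q, rfl⟩ := SimpleGraph.Walk.exists_eq_cons_of_ne hne p
    have := SimpleGraph.dist_le q
    rw [SimpleGraph.Walk.length_cons, SimpleGraph.dist_comm] at hp
    rw [SimpleGraph.dist_comm] at this
    exact hv {v, u} (mem_edges.2 ⟨v, u, h, rfl⟩) ⟨by simp, u, by simp, lt u v (by omega)⟩
  refine ⟨dep, ⟨fun u v e => Fin.ext ?_, fun β hβ β' hβ' v a b => ?_⟩,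
    fun u _ v _ a b _ => (root u a).trans (root v b).symm⟩
  · have := congrArg (· % n) e
    simpa [dep, Nat.mod_eq_of_lt] using this
  · obtain ⟨u, a1, rfl, a2⟩ := nt β hβ v a
    obtain ⟨w, b1, rfl, b2⟩ := nt β' hβ' v b
    obtain ⟨p, hp⟩ := hT.connected.exists_walk_length_eq_dist r u
    obtain ⟨q, hq⟩ := hT.connected.exists_walk_length_eq_dist r w
    have c1 := (p.concat a1).isPath_of_length_eq_dist (by
      rw [SimpleGraph.Walk.length_concat]; omega)
    have c2 := (q.concat b1).isPath_of_length_eq_dist (by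
      rw [SimpleGraph.Walk.length_concat]; omega)
    have c3 := congrArg Subtype.val
      ((hT.isAcyclic.subsingleton_path r v).elim ⟨_, c1⟩ ⟨_, c2⟩)
    obtain ⟨rfl, -⟩ := SimpleGraph.Walk.concat_inj c3
    rfl

lemma cc_edges (T : SimpleGraph (Fin n)) (S : Finset (Fin n)) :
    cc S (edges T) = (S.card : ℝ) - ({e ∈ T.edgeSet | ∀ v ∈ e, v ∈ S}.ncard : ℝ) := by
  classical
  have h1 : ∀ β ∈ edges T, (((β ∩ S).card - 1 : ℕ) : ℝ) = if β ⊆ S then 1 else 0 := by
    intro β hβ
    obtain ⟨u, v, h, rfl⟩ := mem_edges.1 hβ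
    have := h.ne
    by_cases a : u ∈ S <;> by_cases b : v ∈ S <;> simp [a, b, insert_subset_iff, card_pair this]
  have h2 : (((edges T).filter fun β => β ⊆ S : Finset _) : Set (Finset (Fin n))) =
      Sym2.toFinset '' {e ∈ T.edgeSet | ∀ v ∈ e, v ∈ S} := by
    ext β
    simp only [coe_filter, mem_edges, Set.mem_ofPred_eq, Set.mem_image]
    constructor
    · rintro ⟨⟨u, v, h, rfl⟩, hS⟩
      refine ⟨s(u, v), ⟨h, fun w hw => hS ?_⟩, Sym2.toFinset_mk_eq⟩
      simpa using hw
    · rintro ⟨e, ⟨h, hS⟩, rfl⟩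
      refine ⟨?_, fun w hw => hS w (Sym2.mem_toFinset.1 hw)⟩
      induction e using Sym2.ind with
      | _ u v => exact ⟨u, v, h, Sym2.toFinset_mk_eq⟩
  rw [cc, sum_congr rfl h1, sum_boole, ← Set.ncard_coe_finset (filter _ _), h2,
    Set.ncard_image_of_injective _ fun e e' h => Sym2.ext fun x => by
      rw [← Sym2.mem_toFinset, h, Sym2.mem_toFinset]]

lemma ncard_le (G : SimpleGraph (Fin n)) : G.edgeSet.ncard ≤ npair G ∅ := by
  classical
  rw [npair, ← Set.ncard_coe_finset]
  refine le_trans (Set.ncard_le_ncard (fun e he => ?_))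
    (Set.ncard_image_le (f := fun p : Fin n × Fin n => s(p.1, p.2)))
  induction e using Sym2.ind with
  | _ u v => exact ⟨(u, v), by simpa using he, rfl⟩

end Last

open Last in
theorem finStmt (h1 : SumStmt) (h2 : ConeStmt) (h3 : EulStmt) (h4 : EfStmt) : FinStmt := by
  intro k γ
  obtain ⟨c, hc, h⟩ := jb h1 h2 h3 k γ
  refine ⟨2 * c, by positivity, fun n L hL hH G hG hS => ?_⟩
  have := hG.nonempty
  obtain ⟨-, a1, a2⟩ := (h n L hL hH univ G hS).2 ∅ (empty_subset _) (by simp)
  rw [if_neg univ_nonempty.ne_empty.symm] at a2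
  simp only [card_univ, Fintype.card_fin, card_empty, Nat.cast_zero, sub_zero] at a1 a2
  obtain ⟨d, s, A, b, π, e, hs⟩ := h4 n G hG _ (a2.comap (fun S => (S, false))
    (fun T => (edges T, fun _ => this.some)) (fun S hS => ⟨subset_univ _, fun _ => hS⟩)
    (fun T hT => tree_col hT.1 hT.2 _) fun S T _ _ => by
      simp only [ent, cc_edges, Bool.false_eq_true, if_false]
      ring)
  refine ⟨d, s, A, b, π, e, hs.trans ?_⟩
  have a3 : (G.edgeSet.ncard : ℝ) ≤ npair G ∅ := by exact_mod_cast ncard_le G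
  have a4 : (0 : ℝ) ≤ 2 ^ (k + 3 * γ + 4 + 1) * (((k + 3 * γ + 4 : ℕ) : ℝ) + 1) := by positivity
  linarith

theorem gh_zero (m : ℕ) : GH 0 m 0 := by
  intro E _ _ τ hτ hl h _ φ hφ hn
  obtain ⟨reps, hc, hr⟩ : ∃ reps : Finset E, reps.card ≤ 1 ∧
      ∀ e, ∃ r ∈ reps, Link (med τ) (fun _ => True) r e := by
    rcases isEmpty_or_nonempty E with hE | ⟨⟨e₀⟩⟩
    · exact ⟨∅, by simp, fun e => hE.elim e⟩
    · exact ⟨{e₀}, by simp, fun e => ⟨e₀, by simp, hl _ _⟩⟩
  have h1 := Euler.nCl_le (τ := τ) true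
  have h2 := Euler.nCl_le (τ := τ) false
  obtain ⟨Λ, hΛ⟩ := Euler.exists_lam_cyc hτ hc hr (γ := 0) (by omega) false
  exact absurd (hΛ φ (Euler.mem_Cyc.2 hφ) (Subsingleton.elim _ _)) hn

theorem gh_pos (hg : GadgetStmt) (h1 : RkEulerStmt) (h3 : CovRkStmt) (γ : ℕ) (ε : ℝ)
    (hε : 0 < ε) : ∃ K : ℝ, 0 ≤ K ∧ ∀ n : ℕ, GH γ (n ^ 2) (K * (n : ℝ) ^ ε) := by
  obtain ⟨K, hK, hG⟩ := hg (ε / 2) (by linarith) (2 * γ)
  refine ⟨K, hK.le, fun n E _ _ τ hτ hm hγ hE φ hφ hn => ?_⟩
  rcases isEmpty_or_nonempty E with h0 | ⟨⟨e₁⟩⟩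
  · exact absurd (by rw [Subsingleton.elim φ 0]; exact zero_mem _) hn
  have hR := (h1 E τ hτ 1 (2 * γ) {e₁} (by simp) (fun e => ⟨e₁, by simp, hm _ _⟩) (by omega)).2
  obtain ⟨a1, a2, a3⟩ := h3 E τ hτ γ hm hγ φ hφ
  refine (hG E (E × Z2) τ (cov τ φ) Prod.fst hτ a1 (fun x => rfl) (fun e => ?_) hm hR a3 a2).mono ?_
  · refine (card_le_card (t := univ.image fun b : Z2 => (e, b)) fun x hx => ?_).trans
      (card_image_le.trans (by simp))
    exact mem_image.2 ⟨x.2, mem_univ _, by rw [← (mem_filter.1 hx).2]⟩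
  · have b1 : (0 : ℝ) < Fintype.card E := by exact_mod_cast Fintype.card_pos_iff.2 ⟨e₁⟩
    have b2 : (Fintype.card E : ℝ) ≤ (n : ℝ) ^ 2 := by exact_mod_cast hE
    have b3 : (Fintype.card E : ℝ) ^ (ε / 2) ≤ (n : ℝ) ^ ε := by
      refine (Real.rpow_le_rpow b1.le b2 (by linarith)).trans (le_of_eq ?_)
      rw [← Real.rpow_natCast, ← Real.rpow_mul (Nat.cast_nonneg _)]
      congr 1
      push_cast
      ring
    rw [Real.rpow_add b1, Real.rpow_one, mul_assoc, mul_comm ((n : ℝ) ^ ε)]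
    gcongr

end Pool.Agent.Lib.MP_234305_co.Sums
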