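import Pool.Agent.Lib.MP_234305_co.H25Stmts

/-!
Submaps by first return, heredity of the genus, and the Euler characteristic.
-/

namespace Pool.Agent.Lib.MP_234305_co.Sums

open Finset Matrix Module

namespace SubAux

theorem ret {α : Type} [DecidableEq α] {τ σ : α → α} (h1 : ∀ x, τ (τ x) = x) (h2 : ∀ x, τ x ≠ x)
    (h3 : ∀ x, σ (σ x) = x) (h4 : ∀ x, σ x ≠ x) (S : Finset α) (hS : ∀ x ∈ S, σ x ∈ S) :
    ∃ t : α → α, (∀ x ∉ S, t x ∉ S ∧ t (t x) = x ∧ t x ≠ x) ∧
      (∀ (β : Type) (f : α → β), (∀ x, f (τ x) = f x) → (∀ x ∈ S, f (σ x) = f x) →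
        ∀ x ∉ S, f (t x) = f x) ∧
      ∀ (β : Type) (f : α → β), (∀ x ∉ S, f (t x) = f x) → (∀ x ∉ S, f (σ x) = f x) →
        ∃ F : α → β, (∀ x ∉ S, F x = f x) ∧ (∀ x, F (τ x) = F x) ∧ ∀ x, F (σ x) = F x := by
  induction S using Finset.strongInduction with
  | H S ih =>
  rcases S.eq_empty_or_nonempty with rfl | ⟨a, ha⟩
  · exact ⟨τ, fun x _ => ⟨by simp, h1 x, h2 x⟩, fun β f e _ x _ => e x, fun β f e e' =>
      ⟨f, fun _ _ => rfl, fun x => e x (by simp), fun x => e' x (by simp)⟩⟩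
  let P : α → Prop := fun y => y = a ∨ y = σ a
  have p1 : ∀ y, P y → P (σ y) := by
    rintro y (rfl | rfl)
    exacts [.inr rfl, .inl (h3 a)]
  have p2 : ∀ y, P (σ y) → P y := fun y h => h3 y ▸ p1 _ h
  have p3 : ∀ y z, P y → P z → z = y ∨ z = σ y := by
    rintro y z (rfl | rfl) (rfl | rfl)
    exacts [.inl rfl, .inr rfl, .inr (h3 _).symm, .inl rfl]
  have p4 : ∀ y, P y → y ∈ S := by
    rintro y (rfl | rfl)
    exacts [ha, hS a ha]
  have p5 : ∀ y, y ∉ S.filter (fun y => ¬ P y) ↔ y ∉ S ∨ P y := fun y => by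
    rw [mem_filter]; tauto
  obtain ⟨u, u1, u2, u3⟩ := ih (S.filter fun y => ¬ P y)
    (filter_ssubset.2 ⟨a, ha, fun h => h (.inl rfl)⟩) fun x hx =>
      mem_filter.2 ⟨hS x (mem_filter.1 hx).1, fun h => (mem_filter.1 hx).2 (p2 x h)⟩
  simp only [p5] at u1
  refine ⟨fun x => if P (u x) then u (σ (u x)) else u x, fun x hx => ?_, fun β f e e' x hx => ?_,
    fun β f e e' => ?_⟩
  · obtain ⟨a1, a2, a3⟩ := u1 x (.inl hx)
    have a4 : ¬ P x := fun h => hx (p4 x h)
    by_cases h : P (u x)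
    · obtain ⟨b1, b2, b3⟩ := u1 _ (.inr (p1 _ h))
      simp only [if_pos h, b2, if_pos (p1 _ h), h3, a2, true_and]
      refine ⟨fun c => ?_, fun c => h4 (u x) (by rw [← b2, c])⟩
      rcases p3 _ _ (p1 _ h) (b1.resolve_left fun c' => c' c) with c' | c'
      · exact b3 c'
      · rw [h3] at c'
        exact a4 (by rw [← a2, ← c', b2]; exact p1 _ h)
    · simp only [if_neg h, a2, if_neg a4, true_and]
      exact ⟨a1.resolve_right h, a3⟩
  · have k := u2 β f e fun x hx => e' x (mem_filter.1 hx).1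
    simp only [p5] at k
    dsimp only
    split_ifs with h
    · rw [k _ (.inr (p1 _ h)), e' _ (p4 _ h), k x (.inl hx)]
    · exact k x (.inl hx)
  · have k : ∀ y, P y → ¬ P (u y) → f (u y) = f (u a) := by
      rintro y (rfl | rfl) h
      · rfl
      · obtain ⟨b1, b2, -⟩ := u1 _ (.inr (.inr rfl : P (σ a)))
        have := e _ (b1.resolve_right h)
        simp only [b2, h3] at this
        rw [if_pos (.inr rfl : P (σ a))] at this
        exact this.symm
    obtain ⟨F, f1, f2, f3⟩ := u3 β (fun x => if P x then f (u a) else f x) (fun x hx => by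
      rw [p5] at hx
      obtain ⟨a1, a2, -⟩ := u1 x hx
      by_cases h : P x <;> by_cases h' : P (u x) <;> simp only [h, h', if_true, if_false]
      · exact k x h h'
      · rw [← k _ h' (by rwa [a2]), a2]
      · simpa only [if_neg h'] using e x (hx.resolve_right h)) fun x hx => by
      rw [p5] at hx
      by_cases h : P x
      · simp only [if_pos h, if_pos (p1 x h)]
      · have h' : ¬ P (σ x) := fun c => h (p2 x c)
        simp only [if_neg h, if_neg h']
        exact e' x (hx.resolve_right h)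
    refine ⟨F, fun x hx => ?_, f2, f3⟩
    rw [f1 x ((p5 x).2 (.inl hx)), if_neg fun h => hx (p4 x h)]

variable {E : Type} [Fintype E] [DecidableEq E] {τ : Flag E → Flag E}

omit [DecidableEq E] in
theorem drop {γ : ℕ} {φ c : Vec E} (h : Gen τ γ) (hφ : φ ∈ Euler.perp (Euler.Cut τ false))
    (hc : c ∈ Euler.perp (Euler.Cut τ true)) (h1 : c ⬝ᵥ φ = 1) :
    ∃ γ', γ = γ' + 1 ∧ ∃ Y : Fin γ' → Vec E, ∀ z ∈ Euler.perp (Euler.Cut τ true), z ⬝ᵥ φ = 0 →
      (∀ i, z ⬝ᵥ Y i = 0) → z ∈ Euler.Cut τ false := by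
  obtain ⟨Y, hY⟩ := h
  obtain ⟨i, hi⟩ : ∃ i, c ⬝ᵥ Y i = 1 := by
    by_contra hn
    have := Euler.mem_perp.1 hφ c (hY c hc fun i =>
      (z2_cases _).resolve_right fun e => hn ⟨i, e⟩)
    rw [h1] at this
    exact one_ne_zero this
  obtain _ | γ := γ
  · exact i.elim0
  refine ⟨γ, rfl, fun j => Y (i.succAbove j) + (c ⬝ᵥ Y (i.succAbove j)) • Y i,
    fun z hz h2 h3 => ?_⟩
  have h4 := hY (z + (z ⬝ᵥ Y i) • c) (add_mem hz (Submodule.smul_mem _ _ hc)) fun j => by
    rw [add_dotProduct, smul_dotProduct, smul_eq_mul]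
    rcases Fin.eq_self_or_eq_succAbove i j with rfl | ⟨j, rfl⟩
    · rw [hi, mul_one, z2_add_self]
    · have := h3 j
      rwa [dotProduct_add, dotProduct_smul, smul_eq_mul, mul_comm] at this
  have h5 := Euler.mem_perp.1 hφ _ h4
  rw [add_dotProduct, smul_dotProduct, smul_eq_mul, h1, h2, zero_add, mul_one] at h5
  rwa [h5, zero_smul, add_zero] at h4

omit [DecidableEq E] in
theorem cut_lt [Nonempty E] (s : Bool) :
    finrank Z2 (Euler.Cut τ s) + 1 ≤ finrank Z2 (Euler.Fs τ s) := by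
  have h1 := LinearMap.finrank_range_add_finrank_ker (Euler.cobD ∘ₗ (Euler.Fs τ s).subtype)
  have h2 : 1 ≤ finrank Z2 (LinearMap.ker (Euler.cobD ∘ₗ (Euler.Fs τ s).subtype)) := by
    rw [Submodule.one_le_finrank_iff, Submodule.ne_bot_iff]
    refine ⟨⟨fun _ => 1, fun _ => rfl⟩, funext fun e => z2_add_self 1, fun h => ?_⟩
    exact one_ne_zero (congrFun (congrArg Subtype.val h) (Classical.arbitrary E, false))
  unfold Euler.Cut
  omega

theorem fs_le (s : Bool) : finrank Z2 (Euler.Fs τ s) ≤ nCl τ s := by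
  classical
  have h : ∀ A : (univ.image (gcl τ ∅ s) : Finset _), ∃ d, gcl τ ∅ s d = A.1 := fun A => by
    obtain ⟨d, -, e⟩ := mem_image.1 A.2
    exact ⟨d, e⟩
  choose r hr using h
  have hL : Function.Injective (LinearMap.funLeft Z2 Z2 r ∘ₗ (Euler.Fs τ s).subtype) := by
    rw [injective_iff_map_eq_zero]
    intro f hf
    refine Subtype.ext (funext fun d => ?_)
    let A : (univ.image (gcl τ ∅ s) : Finset _) := ⟨gcl τ ∅ s d, mem_image_of_mem _ (mem_univ d)⟩
    exact (Euler.mem_Fs_iff.1 f.2 _ _ (Euler.gcl_eq_iff.1 (hr A))).symm.trans (congrFun hf A)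
  have := LinearMap.finrank_le_finrank_of_injective hL
  rwa [Module.finrank_fintype_fun_eq_card, Fintype.card_coe] at this

end SubAux

theorem eulStmt : EulStmt := by
  intro E _ _ τ γ hτ
  constructor
  · rintro hE ⟨Y, hY⟩
    let B : Vec E →ₗ[Z2] (Fin γ → Z2) :=
      { toFun := fun z i => z ⬝ᵥ Y i
        map_add' := fun a b => funext fun i => add_dotProduct _ _ _
        map_smul' := fun a b => funext fun i => smul_dotProduct _ _ _ }
    have h1 : finrank Z2 (Euler.perp (Euler.Cut τ true)) + finrank Z2 (Euler.Cut τ true) =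
        Fintype.card E := Euler.finrank_perp _
    have h2 := LinearMap.finrank_range_add_finrank_ker
      (B ∘ₗ (Euler.perp (Euler.Cut τ true)).subtype)
    have h3 := Submodule.finrank_le
      (LinearMap.range (B ∘ₗ (Euler.perp (Euler.Cut τ true)).subtype))
    rw [Module.finrank_fin_fun] at h3
    have h4 : finrank Z2 (LinearMap.ker (B ∘ₗ (Euler.perp (Euler.Cut τ true)).subtype)) ≤
        finrank Z2 (Euler.Cut τ false) := by
      rw [← Submodule.finrank_map_subtype_eq]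
      refine Submodule.finrank_mono ?_
      rintro _ ⟨z, hz, rfl⟩
      exact hY z.1 z.2 fun i => congrFun hz i
    have h9 : finrank Z2 (Euler.perp (Euler.Cut τ true)) ≤ γ + finrank Z2 (Euler.Cut τ false) :=
      h2.symm.trans_le (Nat.add_le_add h3 h4)
    have h5 := SubAux.cut_lt (τ := τ) true
    have h6 := SubAux.cut_lt (τ := τ) false
    have h7 := SubAux.fs_le (τ := τ) true
    have h8 := SubAux.fs_le (τ := τ) false
    omega
  · intro hl h
    obtain ⟨reps, hc, hr⟩ : ∃ reps : Finset E, reps.card ≤ 1 ∧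
        ∀ e, ∃ r ∈ reps, Link (med τ) (fun _ => True) r e := by
      rcases isEmpty_or_nonempty E with hE | ⟨⟨e₀⟩⟩
      · exact ⟨∅, by simp, fun e => hE.elim e⟩
      · exact ⟨{e₀}, by simp, fun e => ⟨e₀, by simp, hl _ _⟩⟩
    have h1 := Euler.nCl_le (τ := τ) true
    have h2 := Euler.nCl_le (τ := τ) false
    obtain ⟨Λ, hΛ⟩ := Euler.exists_lam_cyc hτ hc hr (γ := γ) (by omega) true
    exact ⟨fun i k => Λ (Pi.single k 1) i, fun c h3 h4 =>
      hΛ c h3 (funext fun i => by rw [Euler.lam_dot, h4]; rfl)⟩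

theorem subStmt : SubStmt := by
  intro E V _ _ τ vtx keep _ hτ hv
  obtain ⟨t, t1, t2, t3⟩ := SubAux.ret (σ := fun x : Flag E => (x.1, x.2.1, !x.2.2)) hτ.1 hτ.2
    (fun x => by simp) (fun ⟨e, i, s⟩ => by simp) (univ.filter fun x => ¬ keep x.1)
    fun x hx => by simpa using hx
  simp only [mem_filter, mem_univ, true_and, not_not] at t1 t2 t3
  let ι : Flag {e // keep e} → Flag E := fun x => (x.1.1, x.2)
  have hι : Function.Injective ι := fun x y h =>
    Prod.ext (Subtype.ext (congrArg Prod.fst h)) (congrArg (fun z : Flag E => z.2) h)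
  let τ' : Flag {e // keep e} → Flag {e // keep e} := fun x =>
    (⟨(t (ι x)).1, (t1 _ x.1.2).1⟩, (t (ι x)).2)
  have e1 : ∀ x, ι (τ' x) = t (ι x) := fun x => rfl
  have r1 : ∀ f ∈ Euler.Fs τ true, (fun d => f (d.1.1, d.2)) ∈ Euler.Fs τ' true := fun f hf x =>
    t2 _ (fun y => f (pr true y)) hf (fun _ _ => rfl) (ι x) x.1.2
  have r2 : ∀ f ∈ Euler.Fs τ false, (∀ e, ¬ keep e → f (e, false) = f (e, true)) →
      (fun d => f (d.1.1, d.2)) ∈ Euler.Fs τ' false := fun f hf h x =>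
    t2 _ (fun y => f (pr false y)) hf (by
      rintro ⟨e, i, _ | _⟩ he
      exacts [(h e he).symm, h e he]) (ι x) x.1.2
  let ex : Vec {e // keep e} → Vec E := fun z e => if h : keep e then z ⟨e, h⟩ else 0
  have d1 : ∀ z (y : Vec E), ex z ⬝ᵥ y = z ⬝ᵥ fun e => y e.1 := fun z y => by
    rw [dotProduct, ← Fintype.sum_subtype_add_sum_subtype keep,
      sum_eq_zero (s := (univ : Finset {e // ¬ keep e})) fun e _ => by simp [ex, e.2], add_zero]
    exact sum_congr rfl fun e _ => by simp [ex, e.2]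
  have d2 : ∀ z ∈ Euler.perp (Euler.Cut τ' true), ex z ∈ Euler.perp (Euler.Cut τ true) :=
    fun z hz => Euler.mem_perp.2 fun x hx => by
      obtain ⟨f, hf, rfl⟩ := Euler.mem_Cut.1 hx
      rw [dotProduct_comm, d1, dotProduct_comm]
      exact Euler.mem_perp.1 hz _ (Euler.mem_Cut.2 ⟨_, r1 f hf, rfl⟩)
  have d3 : ∀ z, ex z ∈ Euler.Cut τ false → z ∈ Euler.Cut τ' false := fun z hz => by
    obtain ⟨f, hf, e⟩ := Euler.mem_Cut.1 hz
    refine Euler.mem_Cut.2 ⟨_, r2 f hf fun a ha => z2_add_eq_zero.1 ?_, funext fun a => ?_⟩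
    · exact (congrFun e a).trans (dif_neg ha)
    · exact (congrFun e a.1).trans (dif_pos a.2)
  refine ⟨τ', ⟨fun x => hι ?_, fun x h => (t1 _ x.1.2).2.2 (congrArg ι h)⟩, fun d d' => ⟨fun h => ?_,
    Euler.sec_ind (fun d : Dart {e // keep e} => vtx (d.1.1, d.2)) fun x => ?_⟩, ?_, ?_⟩
  · rw [e1, e1, (t1 (ι x) x.1.2).2.1]
  · obtain ⟨F, f1, f2, f3⟩ := t3 _
      (fun x => ∃ h : keep x.1, Sec τ' ∅ true d (⟨x.1, h⟩, x.2.1)) (fun x hx => by
        have k := Euler.sec_flag (τ := τ') true (⟨x.1, hx⟩, x.2)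
        exact propext ⟨fun ⟨_, c⟩ => ⟨hx, Link.trans c (Link.symm k)⟩,
          fun ⟨_, c⟩ => ⟨(t1 x hx).1, Link.trans c k⟩⟩) fun _ _ => rfl
    have f4 : ∀ y : Flag E, F (y.1, y.2.1, false) = F y := by
      rintro ⟨e, i, _ | _⟩
      exacts [rfl, f3 (e, i, true)]
    have f5 := Euler.sec_ind (τ := τ) (s := true) (fun d : Dart E => F (d.1, d.2, false))
      (fun x => (f4 (τ x)).trans ((f2 x).trans (f4 x).symm)) ((hv _ _).1 h)
    dsimp only at f5
    rw [f1 _ d.1.2, f1 _ d'.1.2] at f5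
    obtain ⟨_, c⟩ := f5.mp ⟨d.1.2, Link.refl _⟩
    exact c
  · exact t2 _ (fun y => vtx (pr true y)) (fun y => ((hv _ _).2 (Euler.sec_flag true y)).symm)
      (fun _ _ => rfl) (ι x) x.1.2
  · rintro γ ⟨Y, hY⟩
    exact ⟨fun i e => Y i e.1, fun z hz h => d3 z (hY _ (d2 z hz) fun i => (d1 z _).trans (h i))⟩
  · intro γ φ c h hφ hc h1 h0
    obtain ⟨γ', e, Y, hY⟩ := SubAux.drop h hφ hc h1
    refine ⟨γ', e, fun i e => Y i e.1, fun z hz h => d3 z (hY _ (d2 z hz) ?_
      fun i => (d1 z _).trans (h i))⟩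
    rw [d1]
    exact sum_eq_zero fun a _ => mul_eq_zero_of_right _ (h0 a.1 a.2)

end Pool.Agent.Lib.MP_234305_co.Sums
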