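import Pool.Agent.Lib.MP_234305_co.H25Hyp

/-!
The bound passes to clique sums.
-/

namespace Pool.Agent.Lib.MP_234305_co.Sums

open Finset Slack

namespace Glu

variable {V : Type} [DecidableEq V] {U₁ U₂ : Finset V} {G₁ G₂ : SimpleGraph V}

theorem adj_left (s₂ : ∀ a b, G₂.Adj a b → a ∈ U₂)
    (c₁ : G₁.IsClique ((U₁ ∩ U₂ : Finset V) : Set V)) {a b : V} (ha : a ∈ U₁) (hb : b ∈ U₁)
    (h : (G₁ ⊔ G₂).Adj a b) : G₁.Adj a b :=
  h.elim id fun e => c₁ (mem_coe.2 (mem_inter.2 ⟨ha, s₂ _ _ e⟩))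
    (mem_coe.2 (mem_inter.2 ⟨hb, s₂ _ _ e.symm⟩)) e.ne

theorem sub_right (s₁ : ∀ a b, G₁.Adj a b → a ∈ U₁) (s₂ : ∀ a b, G₂.Adj a b → a ∈ U₂)
    {β : Finset V} (h1 : β ⊆ U₁ ∪ U₂) (h2 : (G₁ ⊔ G₂).IsClique (β : Set V)) (h3 : ¬ β ⊆ U₁) :
    β ⊆ U₂ := by
  obtain ⟨x, a1, a2⟩ := not_subset.1 h3
  intro y hy
  by_cases e : y = x
  · exact e ▸ (mem_union.1 (h1 a1)).resolve_left a2
  · exact (h2 hy a1 e).elim (fun b => absurd (s₁ _ _ b.symm) a2) (s₂ _ _)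

theorem sum_blocks (K S : Finset V) (l : V → V) :
    ∑ b ∈ (K.image l).image (fun y => K.filter (l · = y)), (((b ∩ S).card - 1 : ℕ) : ℝ) =
      ((S ∩ K).card : ℝ) - ((S ∩ K).image l).card := by
  rw [sum_image fun y hy y' _ e => by
    obtain ⟨v, a1, a2⟩ := mem_image.1 hy
    have : v ∈ K.filter (l · = y') := e ▸ mem_filter.2 ⟨a1, a2⟩
    rw [← a2, (mem_filter.1 this).2]]
  have h1 : ∀ y, K.filter (l · = y) ∩ S = (S ∩ K).filter (l · = y) := fun y => by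
    ext v
    simp only [mem_inter, mem_filter]
    tauto
  simp only [h1]
  rw [← sum_subset (image_subset_image inter_subset_right : (S ∩ K).image l ⊆ _) fun y _ hy => by
    rw [filter_eq_empty_iff.2 fun v a b => hy (mem_image.2 ⟨v, a, b⟩)]
    simp, card_eq_sum_card_image l (S ∩ K), Nat.cast_sum, card_eq_sum_ones (image _ _),
    Nat.cast_sum, ← sum_sub_distrib]
  refine sum_congr rfl fun y hy => Nat.cast_sub (card_pos.2 ?_)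
  obtain ⟨v, a1, a2⟩ := mem_image.1 hy
  exact ⟨v, mem_filter.2 ⟨a1, a2⟩⟩

/-- Splitting a column. -/
theorem split [Nonempty V] (s₁ : ∀ a b, G₁.Adj a b → a ∈ U₁) (s₂ : ∀ a b, G₂.Adj a b → a ∈ U₂)
    (c₁ : G₁.IsClique ((U₁ ∩ U₂ : Finset V) : Set V))
    (c₂ : G₂.IsClique ((U₁ ∩ U₂ : Finset V) : Set V)) {x : Finset (Finset V) × (V → V)}
    (hx : HC (U₁ ∪ U₂) (G₁ ⊔ G₂) x) : ∃ y : Finset (Finset V) × (Finset (Finset V) × (V → V)),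
      HC U₁ G₁ (y.1, x.2) ∧ HC U₂ G₂ y.2 ∧ ∀ S ⊆ U₁ ∪ U₂,
        cc S x.1 = cc (S ∩ U₁) y.1 + ent (U₁ ∩ U₂) (S ∩ U₂, true) y.2 := by
  classical
  obtain ⟨H, lab⟩ := x
  obtain ⟨h1, dep, h2, h3⟩ := hx
  dsimp only at h1 h2 h3 ⊢
  set K := U₁ ∩ U₂ with hK
  set H₁ := H.filter (· ⊆ U₁) with hH₁
  set H₂ := H.filter fun β => ¬ β ⊆ U₁ with hH₂
  have m1 : ∀ β ∈ H₁, β ∈ H ∧ β ⊆ U₁ := fun β a => mem_filter.1 a
  have m2 : ∀ β ∈ H₂, β ∈ H ∧ ¬ β ⊆ U₁ ∧ β ⊆ U₂ := fun β a =>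
    have b := mem_filter.1 a
    ⟨b.1, b.2, sub_right s₁ s₂ (h1 β b.1).1 (h1 β b.1).2.1 b.2⟩
  have o2 : Ord H₂ dep := h2.mono (filter_subset _ _)
  obtain ⟨l, l1, l2, l3, l4, l5⟩ := exists_lab o2
  set B := (K.image l).image fun y => K.filter (l · = y) with hB
  have m3 : ∀ b ∈ B, ∃ y, b = K.filter (l · = y) := fun b a => by
    obtain ⟨y, -, e⟩ := mem_image.1 a
    exact ⟨y, e.symm⟩
  have l6 : ∀ v, lab (l v) = lab v := fun v => l5 (lab · = lab v)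
    (fun β a u b w c d => ((h1 β (m2 β a).1).2.2 w c u b).trans d) v rfl
  have l7 : ∀ v ∈ U₂, l v ∈ U₂ := l5 (· ∈ U₂) fun β a _ _ w c _ => (m2 β a).2.2 c
  have l8 : ∀ v, ¬ Root H₂ dep v → v ∈ U₂ ∧ Root H₁ dep v := fun v a => by
    obtain ⟨β, b1, b2⟩ : ∃ β ∈ H₂, Nt dep β v := by simpa only [Root, not_forall, not_not, exists_prop] using a
    exact ⟨(m2 β b1).2.2 b2.1, fun β' d1 d2 =>
      (m2 β b1).2.1 (h2.2 _ (m1 _ d1).1 _ (m2 _ b1).1 v d2 b2 ▸ (m1 _ d1).2)⟩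
  have l9 : ∀ b ∈ B, ∀ v, Nt dep b v → Root H₁ dep v := fun b a v ⟨b1, u, b2, b3⟩ => by
    obtain ⟨y, rfl⟩ := m3 b a
    refine (l8 v fun r => ?_).2
    have := l3 u
    rw [(mem_filter.1 b2).2, ← (mem_filter.1 b1).2, l2 v r] at this
    omega
  have l10 : ∀ u ∈ K, ∀ v ∈ K, l u = l v → Root (H₁ ∪ B) dep v → dep v ≤ dep u :=
    fun u a v b c r => not_lt.1 fun e => r (K.filter (l · = l v))
      (mem_union_right _ (mem_image_of_mem _ (mem_image_of_mem _ b)))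
      ⟨mem_filter.2 ⟨b, rfl⟩, u, mem_filter.2 ⟨a, c⟩, e⟩
  have l11 : ∀ v ∈ U₁, Root (H₁ ∪ B) dep v → l v ∈ U₁ ∪ U₂ ∧ Root H dep (l v) := by
    intro v a r
    have e : Root H₁ dep (l v) → Root H dep (l v) := fun r1 β b => by
      by_cases c : β ⊆ U₁
      exacts [r1 β (mem_filter.2 ⟨b, c⟩), l1 v β (mem_filter.2 ⟨b, c⟩)]
    by_cases c : l v = v
    · exact ⟨c.symm ▸ mem_union_left _ a, e (c.symm ▸ fun β b => r β (mem_union_left _ b))⟩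
    have c1 := (l8 v fun r => c (l2 v r)).1
    refine ⟨mem_union_right _ (l7 v c1), e fun β b d => c (h2.1 (le_antisymm (l3 v) ?_))⟩
    exact l10 _ (mem_inter.2 ⟨(m1 β b).2 d.1, l7 v c1⟩) v (mem_inter.2 ⟨a, c1⟩) (l2 _ (l1 v)) r
  have l12 : ∀ u ∈ U₁, ∀ v ∈ U₁, Root (H₁ ∪ B) dep v → l u = l v → dep v ≤ dep u := by
    intro u a v b r e
    by_cases c : l v = v
    · exact c ▸ e ▸ l3 u
    have c1 := (l8 v fun r => c (l2 v r)).1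
    refine l10 u (mem_inter.2 ⟨a, ?_⟩) v (mem_inter.2 ⟨b, c1⟩) e r
    by_cases d : l u = u
    · exact d ▸ e ▸ l7 v c1
    · exact (l8 u fun r => d (l2 u r)).1
  refine ⟨(H₁ ∪ B, H₂, l), ⟨fun β a => ?_, dep, ⟨h2.1, fun β a β' b v c d => ?_⟩,
    fun u a v b c d e => ?_⟩, ⟨fun β a => ⟨(m2 β a).2.2, fun u b v c d => ?_, l4 β a⟩, dep, o2,
    fun u _ v _ c d e => ?_⟩, fun S hS => ?_⟩
  · rcases mem_union.1 a with b | b
    · exact ⟨(m1 β b).2, fun u c v d e => adj_left s₂ c₁ ((m1 β b).2 c) ((m1 β b).2 d)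
        ((h1 β (m1 β b).1).2.1 c d e), (h1 β (m1 β b).1).2.2⟩
    · obtain ⟨y, rfl⟩ := m3 β b
      refine ⟨(filter_subset _ _).trans inter_subset_left,
        c₁.subset (coe_subset.2 (filter_subset _ _)), fun u c v d => ?_⟩
      dsimp only
      rw [← l6 u, ← l6 v, (mem_filter.1 c).2, (mem_filter.1 d).2]
  · rcases mem_union.1 a with a | a <;> rcases mem_union.1 b with b | b
    · exact h2.2 _ (m1 _ a).1 _ (m1 _ b).1 v c d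
    · exact absurd c (l9 _ b v d _ a)
    · exact absurd d (l9 _ a v c _ b)
    · obtain ⟨y, rfl⟩ := m3 _ a
      obtain ⟨y', rfl⟩ := m3 _ b
      rw [← (mem_filter.1 c.1).2, ← (mem_filter.1 d.1).2]
  · have f := h3 _ (l11 u a c).1 _ (l11 v b d).1 (l11 u a c).2 (l11 v b d).2
      (by rw [l6, l6]; exact e)
    exact h2.1 (le_antisymm (l12 v b u a c f.symm) (l12 u a v b d f))
  · exact adj_left (U₂ := U₁) s₁ (inter_comm U₁ U₂ ▸ c₂) ((m2 β a).2.2 b) ((m2 β a).2.2 c)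
      (sup_comm G₁ G₂ ▸ (h1 β (m2 β a).1).2.1 b c d)
  · rw [← l2 u c, ← l2 v d]
    exact e
  have e1 := sum_union_inter (s₁ := H₁) (s₂ := B)
    (f := fun β => (((β ∩ (S ∩ U₁)).card - 1 : ℕ) : ℝ))
  rw [sum_eq_zero (s := H₁ ∩ B) fun β a => by
    rw [Nat.cast_eq_zero, Nat.sub_eq_zero_iff_le]
    refine (card_le_card inter_subset_left).trans (card_le_one.2 fun u b v c => ?_)
    have f : ∀ w ∈ β, w = top dep β := fun w d => by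
      by_contra e
      have := (nt_iff h2.1).2 ⟨d, e⟩
      exact l9 β (mem_inter.1 a).2 w this β (mem_inter.1 a).1 this
    rw [f u b, f v c], add_zero, hB, sum_blocks] at e1
  have e2 : ∑ β ∈ H₁, (((β ∩ (S ∩ U₁)).card - 1 : ℕ) : ℝ) =
      ∑ β ∈ H₁, (((β ∩ S).card - 1 : ℕ) : ℝ) := sum_congr rfl fun β a => by
    rw [inter_comm S, ← inter_assoc, inter_eq_left.2 (m1 β a).2]
  have e3 : ∑ β ∈ H₂, (((β ∩ (S ∩ U₂)).card - 1 : ℕ) : ℝ) =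
      ∑ β ∈ H₂, (((β ∩ S).card - 1 : ℕ) : ℝ) := sum_congr rfl fun β a => by
    rw [inter_comm S, ← inter_assoc, inter_eq_left.2 (m2 β a).2.2]
  have e4 := sum_filter_add_sum_filter_not H (· ⊆ U₁) fun β => (((β ∩ S).card - 1 : ℕ) : ℝ)
  have e5 : S ∩ U₁ ∩ K = S ∩ K := by
    rw [inter_assoc, inter_eq_right.2 inter_subset_left]
  have e6 : S ∩ U₂ ∩ K = S ∩ K := by
    rw [inter_assoc, inter_eq_right.2 inter_subset_right]
  have e7 : (S.card : ℝ) + (S ∩ K).card = (S ∩ U₁).card + (S ∩ U₂).card := by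
    have := card_union_add_card_inter (S ∩ U₁) (S ∩ U₂)
    rw [← inter_union_distrib_left, inter_eq_left.2 hS, ← inter_inter_distrib_left] at this
    exact_mod_cast this
  simp only [ent, cc, if_true, e6]
  rw [e5, e2] at e1
  rw [e1, e3]
  linarith

theorem half [Fintype V] [Nonempty V] {ω : ℕ} {L : ℝ} (h₁ : JB ω L U₁ G₁) (h₂ : JB ω L U₂ G₂)
    (c₁ : G₁.IsClique ((U₁ ∩ U₂ : Finset V) : Set V))
    (c₂ : G₂.IsClique ((U₁ ∩ U₂ : Finset V) : Set V)) (n1 : ¬ U₁ ⊆ U₂) (n2 : ¬ U₂ ⊆ U₁)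
    {K : Finset V} (k1 : K ⊆ U₁) (k2 : (G₁ ⊔ G₂).IsClique (K : Set V)) : K.card ≤ ω ∧
    (npair (G₁ ⊔ G₂) K : ℝ) ≤ L * (((U₁ ∪ U₂).card : ℝ) - K.card) ∧
    NR (Row (U₁ ∪ U₂)) (HC (U₁ ∪ U₂) (G₁ ⊔ G₂)) (ent K) (if K = U₁ ∪ U₂ then 2 ^ (ω + 1) else
      L * (((U₁ ∪ U₂).card : ℝ) - K.card) - 2 ^ (ω + 1) * ((ω : ℝ) + 1 - K.card)) := by
  classical
  obtain ⟨a1, a2, a3⟩ := h₁.2 K k1 fun u a v b c => adj_left h₂.1 c₁ (k1 a) (k1 b) (k2 a b c)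
  obtain ⟨b1, b2, b3⟩ := h₂.2 _ inter_subset_right c₂
  have e1 : ((U₁ ∪ U₂).card : ℝ) = U₁.card + U₂.card - (U₁ ∩ U₂).card := by
    rw [eq_sub_iff_add_eq]
    exact_mod_cast card_union_add_card_inter U₁ U₂
  rw [if_neg fun e => n2 (inter_eq_right.1 e)] at b3
  rw [if_neg fun e => n2 (subset_union_right.trans (e ▸ k1)), e1]
  refine ⟨a1, ?_, ?_⟩
  · have : npair (G₁ ⊔ G₂) K ≤ npair G₁ K + npair G₂ (U₁ ∩ U₂) := by
      refine le_trans (card_le_card fun p hp => ?_) (card_union_le _ _)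
      simp only [mem_union, mem_filter, mem_univ, true_and] at hp ⊢
      by_cases c : p.1 ∈ U₁ ∧ p.2 ∈ U₁
      · exact .inl ⟨adj_left h₂.1 c₁ c.1 c.2 hp.1, hp.2⟩
      · exact .inr ⟨hp.1.resolve_left fun d => c ⟨h₁.1 _ _ d, h₁.1 _ _ d.symm⟩,
          fun d => c ⟨(mem_inter.1 d.1).1, (mem_inter.1 d.2).1⟩⟩
    have : (npair (G₁ ⊔ G₂) K : ℝ) ≤ npair G₁ K + npair G₂ (U₁ ∩ U₂) := by exact_mod_cast this
    linarith
  refine nr_col (fun x (y : Finset (Finset V) × (Finset (Finset V) × (V → V))) =>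
    HC (U₁ ∪ U₂) (G₁ ⊔ G₂) x ∧ HC U₁ G₁ (y.1, x.2) ∧ HC U₂ G₂ y.2 ∧ ∀ S ⊆ U₁ ∪ U₂,
      cc S x.1 = cc (S ∩ U₁) y.1 + ent (U₁ ∩ U₂) (S ∩ U₂, true) y.2) ?_
    fun x hx => (split h₁.1 h₂.1 c₁ c₂ hx).imp fun _ h => ⟨hx, h⟩
  refine (((a3.comap (fun i => (i.1 ∩ U₁, if (i.1 ∩ U₁).Nonempty then i.2 else true))
    (fun x => (x.2.1, x.1.2)) (fun i _ => ⟨inter_subset_right, fun h => ?_⟩) (fun _ h => h.2.1)
    fun _ _ _ _ => rfl).add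
    (b3.comap (fun i => (i.1 ∩ U₂, if (i.1 ∩ U₁).Nonempty then true else i.2))
    (fun x => x.2.2) (fun i hi => ⟨inter_subset_right, fun h => ?_⟩) (fun _ h => h.2.2.1)
    fun _ _ _ _ => rfl)).congr ?_).mono ?_
  · by_contra c
    simp [c] at h
  · by_cases c : (i.1 ∩ U₁).Nonempty
    · simp [c] at h
    · obtain ⟨v, hv⟩ := hi.2 (by simpa [c] using h)
      exact ⟨v, mem_inter.2 ⟨hv, (mem_union.1 (hi.1 hv)).resolve_left
        fun d => c ⟨v, mem_inter.2 ⟨hv, d⟩⟩⟩⟩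
  · rintro ⟨S, b⟩ ⟨x, y⟩ hi hx
    have e2 := hx.2.2.2 S hi.1
    have e3 : S ∩ U₁ ∩ K = S ∩ K := by rw [inter_assoc, inter_eq_right.2 k1]
    simp only [ent, if_true] at e2 ⊢
    by_cases c : (S ∩ U₁).Nonempty
    · simp only [c, if_true, e3]
      linarith
    · have e4 := not_nonempty_iff_eq_empty.1 c
      have e5 : S ∩ U₂ ∩ (U₁ ∩ U₂) = ∅ := subset_empty.1 fun v hv =>
        e4 ▸ mem_inter.2 ⟨(mem_inter.1 (mem_inter.1 hv).1).1, (mem_inter.1 (mem_inter.1 hv).2).1⟩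
      rw [e4, empty_inter] at e3
      simp only [Finset.not_nonempty_empty, if_false, if_true, e5, ← e3, e4, empty_inter, image_empty, card_empty,
        Nat.cast_zero] at e2 ⊢
      linarith
  · have b4 : ((U₁ ∩ U₂).card : ℝ) ≤ ω := by exact_mod_cast b1
    have b5 : (0 : ℝ) < 2 ^ (ω + 1) := by positivity
    split_ifs with c
    · have : (U₁ ∩ U₂).card < U₁.card :=
        card_lt_card (Finset.ssubset_iff_subset_ne.2 ⟨inter_subset_left, fun e => n1 (inter_eq_left.1 e)⟩)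
      have : ((U₁ ∩ U₂).card : ℝ) + 1 ≤ U₁.card := by exact_mod_cast this
      rw [c]
      nlinarith
    · nlinarith

end Glu

open Glu in
theorem sumStmt : SumStmt := by
  intro V _ _ _ ω L U₁ U₂ G₁ G₂ h₁ h₂ c₁ c₂
  have c₃ : G₂.IsClique ((U₂ ∩ U₁ : Finset V) : Set V) := inter_comm U₁ U₂ ▸ c₂
  have c₄ : G₁.IsClique ((U₂ ∩ U₁ : Finset V) : Set V) := inter_comm U₁ U₂ ▸ c₁
  by_cases n2 : U₂ ⊆ U₁
  · rw [union_eq_left.2 n2]
    exact h₁.mono fun a b e => adj_left h₂.1 c₁ (e.elim (h₁.1 _ _) fun d => n2 (h₂.1 _ _ d))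
      (e.symm.elim (h₁.1 _ _) fun d => n2 (h₂.1 _ _ d)) e
  by_cases n1 : U₁ ⊆ U₂
  · rw [union_eq_right.2 n1]
    exact h₂.mono fun a b e => adj_left h₁.1 c₃ (e.elim (fun d => n1 (h₁.1 _ _ d)) (h₂.1 _ _))
      (e.symm.elim (fun d => n1 (h₁.1 _ _ d)) (h₂.1 _ _)) (sup_comm G₁ G₂ ▸ e)
  refine ⟨fun a b e => mem_union.2 (e.imp (h₁.1 _ _) (h₂.1 _ _)), fun K k1 k2 => ?_⟩
  by_cases c : K ⊆ U₁
  · exact half h₁ h₂ c₁ c₂ n1 n2 c k2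
  · have := half h₂ h₁ c₃ c₄ n2 n1 (sub_right h₁.1 h₂.1 k1 k2 c) (sup_comm G₁ G₂ ▸ k2)
    rwa [union_comm, sup_comm] at this

end Pool.Agent.Lib.MP_234305_co.Sums
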