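import Pool.Agent.Lib.MP_234305_co.H25Hyp

/-!
The bound for one piece.
-/

namespace Pool.Agent.Lib.MP_234305_co.Sums

open Finset Slack

namespace TopAux

theorem small (hB : BaseStmt) (ω : ℕ) {V : Type} [Fintype V] [DecidableEq V] [Nonempty V]
    (U : Finset V) (G : SimpleGraph V) (hG : ∀ a b, G.Adj a b → a ∈ U) (hU : U.card ≤ ω) :
    JB ω ((ω + 1) * (2 ^ ω * (2 + ω * 2 ^ ω) + 2 ^ (ω + 1))) U G := by
  have h1 : ((U.powerset.card : ℕ) : ℝ) ≤ 2 ^ ω := by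
    rw [card_powerset]
    exact_mod_cast Nat.pow_le_pow_right (by norm_num) hU
  have h2 : ((cliq U G).card : ℝ) ≤ 2 ^ ω := by
    refine le_trans ?_ h1
    exact_mod_cast card_le_card fun β hβ => mem_powerset.2 (mem_cliq.1 hβ).1
  refine hB V ω _ (2 ^ ω) U G hG (fun β hβ => (card_le_card (mem_cliq.1 hβ).1).trans hU)
    ((NR.of_row_label U.powerset id (fun S hS => mem_powerset.2 hS.1) (fun S x hS hx => ?_)
      fun S S' x _ _ _ e => ?_).mono h1) (by positivity) fun hne => ?_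
  · obtain ⟨dep, hd⟩ := hx.2
    exact sub_nonneg.2 (one_le_cc hd.1 hS.2)
  · rw [show S = S' from e]
  · have h3 : (1 : ℝ) ≤ U.card := by exact_mod_cast hne.card_pos
    have h4 : (0 : ℝ) ≤ 2 ^ ω := by positivity
    have h5 : (ω : ℝ) * (cliq U G).card ≤ ω * 2 ^ ω * U.card :=
      (mul_le_mul_of_nonneg_left h2 (Nat.cast_nonneg _)).trans
        (le_mul_of_one_le_right (by positivity) h3)
    have h6 := mul_le_mul_of_nonneg_left h5 h4
    have h7 := mul_le_mul_of_nonneg_left h3 h4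
    nlinarith

theorem arith {k a g u e q L : ℝ} {p r w : ℝ} (hk : 0 ≤ k) (ha : 0 ≤ a) (hak : a ≤ k)
    (hu : 1 ≤ u) (he0 : 0 ≤ e) (he : e ≤ 3 * (1 + k) * u) (hq0 : 0 ≤ q) (hp : 0 ≤ p)
    (hq : q ≤ p * (1 + 6 * e)) (hL : 0 ≤ L) (hgp : g ≤ p) (hr : 0 ≤ r) (hw : 0 ≤ w) :
    g * (400 + L) * e + a * (2 * (u + (a + 3) * q)) + r * (u + w * q) ≤
      (p * (1200 * (1 + k)) + 2 * k * (1 + (k + 3) * (p * (1 + 18 * (1 + k)))) +
        r * (1 + w * (p * (1 + 18 * (1 + k))))) * (1 + L) * u := by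
  set Q := p * (1 + 18 * (1 + k)) with hQ
  have hQ0 : 0 ≤ Q := by positivity
  have h1 : q ≤ Q * u := by
    refine hq.trans ?_
    rw [hQ, mul_assoc]
    exact mul_le_mul_of_nonneg_left (by nlinarith) hp
  have h2 : g * (400 + L) * e ≤ p * (1200 * (1 + k)) * (1 + L) * u :=
    calc g * (400 + L) * e ≤ p * (400 * (1 + L)) * (3 * (1 + k) * u) := by
          gcongr
          linarith
      _ = _ := by ring
  have h3 : a * (2 * (u + (a + 3) * q)) ≤ 2 * k * (1 + (k + 3) * Q) * u :=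
    calc a * (2 * (u + (a + 3) * q)) ≤ k * (2 * (u + (k + 3) * (Q * u))) := by gcongr
      _ = _ := by ring
  have h4 : r * (u + w * q) ≤ r * (1 + w * Q) * u :=
    calc r * (u + w * q) ≤ r * (u + w * (Q * u)) := by gcongr
      _ = _ := by ring
  have h5 : 0 ≤ (2 * k * (1 + (k + 3) * Q) + r * (1 + w * Q)) * L * u := by positivity
  nlinarith

end TopAux

theorem topStmt (hB : BaseStmt) (hA : ApexStmt) (hF : FacStmt) (hC : CountStmt) (hE : EulStmt) :
    TopStmt := by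
  intro k
  obtain ⟨L₁, h₁, hL₁⟩ : ∃ L₁ : ℝ, 0 ≤ L₁ ∧
    L₁ = 2 ^ (k + 4) * (2 + (k + 4 : ℕ) * 2 ^ (k + 4)) := ⟨_, by positivity, rfl⟩
  obtain ⟨B, h₂, hBd⟩ : ∃ B : ℝ, 0 ≤ B ∧ B = 2 ^ k * (1200 * (1 + k)) +
    2 * k * (1 + (k + 3) * (2 ^ k * (1 + 18 * (1 + k)))) +
      2 ^ (k + 4) * (1 + (k + 4 : ℕ) * (2 ^ k * (1 + 18 * (1 + k)))) := ⟨_, by positivity, rfl⟩
  have hw : (0 : ℝ) ≤ ((k + 4 : ℕ) : ℝ) + 1 := by positivity
  have hp : (0 : ℝ) ≤ 2 ^ (k + 4 + 1) := by positivity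
  refine ⟨(((k + 4 : ℕ) : ℝ) + 1) * (L₁ + B + 2 ^ (k + 4 + 1)), by positivity, ?_⟩
  intro V _ _ _ L hL A U
  refine ⟨fun G hG hU => (TopAux.small hB (k + 4) U G hG hU).monoL ?_, ?_⟩
  · rw [← hL₁, mul_assoc]
    refine mul_le_mul_of_nonneg_left ?_ hw
    nlinarith [mul_nonneg (add_nonneg (add_nonneg h₁ h₂) hp) hL]
  intro E X _ _ _ _ _ τ vtx ι γ m hf hg hγ hm hH hι hAU hAk h1 h2
  have hne : Nonempty E := by
    obtain ⟨d, -⟩ := hf.surj (Classical.arbitrary X)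
    exact ⟨d.1⟩
  have he := (hE E τ γ hf.map).1 hne hg
  obtain ⟨c1, -, c3, -⟩ := hC E X τ vtx γ hf he
  obtain ⟨a1, a2, a3⟩ := hA V X ι A U (cone (fun d => ι (vtx d)) A U) (cone vtx ∅ univ) 3 _ hι hAU
    h2 (fun a b ⟨b1, _, _, b4⟩ => ⟨fun e => b1 (congrArg ι e), mem_univ _, mem_univ _, .inr (.inr (by
      obtain ⟨d, e1, e2⟩ := (b4.resolve_left (h1 a).2).resolve_left (h1 b).2
      exact ⟨d, hι e1, hι e2⟩))⟩)
    (fun β hβ => by
      by_contra h
      have := (hf.tri β (mem_cliq.1 hβ).2 (by omega)).1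
      omega) (hF E X τ vtx γ m L hf he hm hH hL)
  refine (hB V (k + 4) (B * (1 + L)) _ U (cone (fun d => ι (vtx d)) A U) (fun a b h => h.2.1)
    (fun β hβ => (a1 β hβ).trans (by omega)) a3 (by positivity) fun hU => ?_).monoL ?_
  · have d1 : Fintype.card X ≤ U.card := by
      rw [← card_univ, ← card_image_of_injective univ hι]
      exact card_le_card fun v hv => by
        obtain ⟨a, -, rfl⟩ := mem_image.1 hv
        exact (h1 a).1
    have d2 : 1 ≤ U.card := hU.card_pos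
    have d3 : Fintype.card E ≤ 3 * (1 + k) * U.card := by nlinarith
    have d4 : (cliq U (cone (fun d => ι (vtx d)) A U)).card ≤ 2 ^ k * (1 + 6 * Fintype.card E) :=
      a2.trans (Nat.mul_le_mul (Nat.pow_le_pow_right (by norm_num) hAk) c3)
    have := TopAux.arith (k := k) (a := A.card) (g := 2 ^ γ) (u := U.card) (e := Fintype.card E)
      (q := (cliq U (cone (fun d => ι (vtx d)) A U)).card) (L := L) (p := 2 ^ k)
      (r := 2 ^ (k + 4)) (w := (k + 4 : ℕ)) (by positivity) (by positivity)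
      (by exact_mod_cast hAk) (by exact_mod_cast d2) (by positivity) (by exact_mod_cast d3)
      (by positivity) (by positivity) (by exact_mod_cast d4) hL
      (pow_le_pow_right₀ (by norm_num) hγ) (by positivity) (by positivity)
    rw [← hBd] at this
    rwa [Nat.cast_add A.card, Nat.cast_ofNat]
  · rw [mul_assoc]
    refine mul_le_mul_of_nonneg_left ?_ hw
    nlinarith [mul_nonneg h₁ hL, mul_nonneg hp hL]

end Pool.Agent.Lib.MP_234305_co.Sums
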