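import Pool.Agent.Lib.MP_234305_co.H65Ef
import Pool.Agent.Lib.MP_234305_co.H25A
import Pool.Agent.Lib.MP_234305_co.H25Apex
import Pool.Agent.Lib.MP_234305_co.H25B
import Pool.Agent.Lib.MP_234305_co.H25Cone
import Pool.Agent.Lib.MP_234305_co.H25Count
import Pool.Agent.Lib.MP_234305_co.H25Fac
import Pool.Agent.Lib.MP_234305_co.H25Fin
import Pool.Agent.Lib.MP_234305_co.H25Sub
import Pool.Agent.Lib.MP_234305_co.H25Sum
import Pool.Agent.Lib.MP_234305_co.H25Top

/-!
The assembly of the bound for clique sums.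
-/

namespace Pool.Agent.Lib.MP_234305_co.Sums

theorem fin_all : FinStmt :=
  finStmt sumStmt (coneStmt sumStmt subStmt (topStmt (baseStmt rootStmt) (apexStmt rootStmt)
    (facStmt aStmt bStmt countStmt parallel_cycle few_classes) countStmt eulStmt) parallel_cycle)
    eulStmt ef_of_nr

end Pool.Agent.Lib.MP_234305_co.Sums
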