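import Mathlib

/-!
Clique sums of graphs that embed in a fixed surface after deleting a bounded number of vertices.
-/

namespace Pool.Agent.Lib.MP_234305_co.Sums

/-- `G` has a cellular embedding in a closed surface, orientable or not, of Euler genus at most
`γ`. The embedding is given as a combinatorial map. A flag is a dart (an edge with one of its
ends) together with one of the two sides of the edge. The involution `τ` exchanges the two flags
of each corner; it has no fixed point and keeps the vertex. The flags at one vertex form one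
orbit under `τ` and the change of side. The faces are the orbits under `τ` and the change of
end. The Euler genus is `2 - |V| + |E| - |F|`. -/
def EulerGenusLE {n : ℕ} (G : SimpleGraph (Fin n)) (γ : ℕ) : Prop :=
  ∃ τ : G.Dart × Bool → G.Dart × Bool, (∀ x, τ (τ x) = x) ∧ (∀ x, τ x ≠ x) ∧
    (∀ x, (τ x).1.fst = x.1.fst) ∧
    (∀ x y : G.Dart × Bool, x.1.fst = y.1.fst →
      Relation.EqvGen (fun a b => b = τ a ∨ b = (a.1, !a.2)) x y) ∧
    G.edgeSet.ncard + 2 ≤
      n + Nat.card (Quot fun a b : G.Dart × Bool => b = τ a ∨ b = (a.1.symm, a.2)) + γ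

/-- `G` is a graph on the vertex set `U` that has at most `k + 1` vertices, or that becomes, after
deleting at most `k` vertices, a spanning subgraph of a connected graph of Euler genus at most
`γ`. -/
def Piece {n : ℕ} (k γ : ℕ) (U : Finset (Fin n)) (G : SimpleGraph (Fin n)) : Prop :=
  (∀ a b, G.Adj a b → a ∈ U) ∧ (U.card ≤ k + 1 ∨
    ∃ (m : ℕ) (P : SimpleGraph (Fin m)) (f : Fin m ↪ Fin n), P.Connected ∧ EulerGenusLE P γ ∧
      (∀ i, f i ∈ U) ∧ U.card ≤ m + k ∧ ∀ i j, G.Adj (f i) (f j) → P.Adj i j)

/-- The graphs (with their vertex sets) obtained from pieces by clique sums and by deleting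
edges. -/
inductive CliqueSum {n : ℕ} (k γ : ℕ) : Finset (Fin n) → SimpleGraph (Fin n) → Prop
  | piece {U : Finset (Fin n)} {G : SimpleGraph (Fin n)} : Piece k γ U G → CliqueSum k γ U G
  | sum {U₁ U₂ : Finset (Fin n)} {G₁ G₂ : SimpleGraph (Fin n)} : CliqueSum k γ U₁ G₁ →
      CliqueSum k γ U₂ G₂ → G₁.IsClique ((U₁ ∩ U₂ : Finset (Fin n)) : Set (Fin n)) →
      G₂.IsClique ((U₁ ∩ U₂ : Finset (Fin n)) : Set (Fin n)) → CliqueSum k γ (U₁ ∪ U₂) (G₁ ⊔ G₂)
  | delete {U : Finset (Fin n)} {G G' : SimpleGraph (Fin n)} : CliqueSum k γ U G → G' ≤ G →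
      CliqueSum k γ U G'

end Pool.Agent.Lib.MP_234305_co.Sums
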