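import Pool.Agent.Lib.MP_234305_co.H25Stmts

/-!
Basic facts on ordered hyperforests.
-/

namespace Pool.Agent.Lib.MP_234305_co.Sums

open Finset Slack

/-- Sums of row functions over families chosen by the column, with labels in a finite set. -/
theorem nr_fam {I J A B : Type*} {P : I → Prop} {Q : J → Prop} (𝒜 : Finset A) (H : J → Finset B)
    (l : J → B → A) (hl : ∀ j, Q j → ∀ β ∈ H j, l j β ∈ 𝒜) (α : I → A → ℝ)
    (hα : ∀ i a, 0 ≤ α i a) : NR P Q (fun i j => ∑ β ∈ H j, α i (l j β)) 𝒜.card := by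
  classical
  have := NR.sum_le (P := P) (Q := Q) (N := 1) 𝒜
    (F := fun a i j => α i a * (((H j).filter fun β => l j β = a).card : ℝ)) fun a _ =>
    NR.rank_one _ _ (fun i _ => hα i a) (fun _ _ => Nat.cast_nonneg _) fun _ _ _ _ => rfl
  refine (this.congr fun i j _ hj => ?_).mono (by simp)
  rw [← sum_fiberwise_of_maps_to (hl j hj)]
  refine sum_congr rfl fun a _ => ?_
  rw [sum_congr rfl (g := fun _ => α i a) fun β hβ => by rw [(mem_filter.1 hβ).2], sum_const,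
    nsmul_eq_mul, mul_comm]

variable {V : Type} [DecidableEq V] {H H' : Finset (Finset V)} {dep : V → ℕ} {β U : Finset V}
  {v : V} {lab : V → V}

omit [DecidableEq V] in
theorem Ord.mono (h : Ord H dep) (hs : H' ⊆ H) : Ord H' dep :=
  ⟨h.1, fun β a β' b => h.2 β (hs a) β' (hs b)⟩

omit [DecidableEq V] in
theorem top_spec [Nonempty V] (dep : V → ℕ) (h : β.Nonempty) :
    top dep β ∈ β ∧ ∀ u ∈ β, dep (top dep β) ≤ dep u :=
  Classical.epsilon_spec (p := fun w => w ∈ β ∧ ∀ u ∈ β, dep w ≤ dep u) (β.exists_min_image dep h)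

omit [DecidableEq V] in
theorem nt_iff [Nonempty V] (hi : Function.Injective dep) :
    Nt dep β v ↔ v ∈ β ∧ v ≠ top dep β := by
  refine and_congr_right fun hv => ?_
  obtain ⟨h1, h2⟩ := top_spec dep ⟨v, hv⟩
  refine ⟨?_, fun h => ⟨_, h1, lt_of_le_of_ne (h2 v hv) fun e => h (hi e).symm⟩⟩
  rintro ⟨u, a, b⟩ e
  rw [e] at b
  exact absurd (h2 u a) (not_le.2 b)

omit [DecidableEq V] in
theorem Root.eq_top [Nonempty V] (h : Ord H dep) (hr : Root H dep v) (hβ : β ∈ H) (hv : v ∈ β) :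
    v = top dep β := by
  by_contra e
  exact hr β hβ ((nt_iff h.1).2 ⟨hv, e⟩)

/-- Every vertex is a root or a later member of exactly one hyperedge. -/
theorem sum_split [Nonempty V] (h : Ord H dep) (S : Finset V) (g : V → ℝ) : ∑ v ∈ S, g v =
    ∑ v ∈ S, ind (Root H dep v) * g v + ∑ β ∈ H, ∑ v ∈ (β ∩ S).erase (top dep β), g v := by
  classical
  have h1 : ∀ β ∈ H, ∑ v ∈ (β ∩ S).erase (top dep β), g v =
      ∑ v ∈ S, if Nt dep β v then g v else 0 := fun β _ => by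
    rw [← sum_filter]
    refine sum_congr ?_ fun _ _ => rfl
    ext v
    simp only [mem_erase, mem_inter, mem_filter, nt_iff h.1]
    tauto
  rw [sum_congr rfl h1, sum_comm, ← sum_add_distrib]
  refine sum_congr rfl fun v _ => ?_
  by_cases a : Root H dep v
  · rw [ind_pos a, one_mul, sum_eq_zero fun β hβ => if_neg (a β hβ), add_zero]
  · obtain ⟨β, b1, b2⟩ : ∃ β ∈ H, Nt dep β v := by simpa [Root] using a
    rw [ind_neg a, zero_mul, zero_add, sum_eq_single_of_mem β b1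
      fun β' c1 c2 => if_neg fun c3 => c2 (h.2 _ c1 _ b1 v c3 b2), if_pos b2]

theorem card_erase_eq (T : Finset V) (w : V) : ((T.erase w).card : ℝ) =
    ((T.card - 1 : ℕ) : ℝ) + ind (w ∉ T ∧ T.Nonempty) := by
  by_cases a : w ∈ T
  · rw [card_erase_of_mem a, ind_neg fun h => h.1 a, add_zero]
  rw [erase_eq_of_notMem a]
  rcases T.eq_empty_or_nonempty with rfl | b
  · simp [ind]
  · rw [ind_pos ⟨a, b⟩, Nat.cast_sub b.card_pos]
    simp

/-- The number of components in terms of an order. -/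
theorem cc_eq [Nonempty V] (h : Ord H dep) (S : Finset V) : cc S H =
    ∑ v ∈ S, ind (Root H dep v) + ∑ β ∈ H, ind (top dep β ∉ S ∧ (β ∩ S).Nonempty) := by
  have h1 := sum_split h S fun _ => 1
  simp only [sum_const, nsmul_eq_mul, mul_one, card_erase_eq, sum_add_distrib] at h1
  have h2 : ∑ β ∈ H, ind (top dep β ∉ β ∩ S ∧ (β ∩ S).Nonempty) =
      ∑ β ∈ H, ind (top dep β ∉ S ∧ (β ∩ S).Nonempty) := sum_congr rfl fun β _ => by
    congr 1
    refine propext (and_congr_left fun a => ?_)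
    rw [mem_inter, and_iff_right (top_spec dep (a.mono inter_subset_left)).1]
  rw [cc, h1, h2]
  ring

/-- The same for a hypertree with root `y`. -/
theorem cc_tree [Nonempty V] {y : V} (h : Ord H dep) (hy : ∀ v, Root H dep v ↔ v = y)
    (S : Finset V) :
    cc S H = ind (y ∈ S) + ∑ β ∈ H, ind (top dep β ∉ S ∧ (β ∩ S).Nonempty) := by
  rw [cc_eq h]
  congr 1
  simp only [hy, ind, sum_boole]
  by_cases a : y ∈ S <;> simp [a, filter_eq']

theorem one_le_cc [Nonempty V] (h : Ord H dep) {S : Finset V} (hS : S.Nonempty) : 1 ≤ cc S H := by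
  obtain ⟨v, a1, a2⟩ := S.exists_min_image dep hS
  have b1 : 0 ≤ ∑ v ∈ S, ind (Root H dep v) := sum_nonneg fun _ _ => ind_nonneg _
  have b2 : 0 ≤ ∑ β ∈ H, ind (top dep β ∉ S ∧ (β ∩ S).Nonempty) :=
    sum_nonneg fun _ _ => ind_nonneg _
  rw [cc_eq h]
  by_cases a : Root H dep v
  · have := single_le_sum (f := fun v => ind (Root H dep v)) (fun _ _ => ind_nonneg _) a1
    rw [ind_pos a] at this
    linarith
  · obtain ⟨β, c1, c2, u, c3, c4⟩ : ∃ β ∈ H, Nt dep β v := by simpa [Root] using a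
    have := single_le_sum (f := fun β => ind (top dep β ∉ S ∧ (β ∩ S).Nonempty))
      (fun _ _ => ind_nonneg _) c1
    rw [ind_pos ⟨fun e => by
      have := (top_spec dep ⟨u, c3⟩).2 u c3
      have := a2 _ e
      omega, v, mem_inter.2 ⟨c2, a1⟩⟩] at this
    linarith

omit [DecidableEq V] in
/-- The root of the component of a vertex. -/
theorem exists_lab [Nonempty V] (h : Ord H dep) : ∃ lab : V → V, (∀ v, Root H dep (lab v)) ∧
    (∀ v, Root H dep v → lab v = v) ∧ (∀ v, dep (lab v) ≤ dep v) ∧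
    (∀ β ∈ H, ∀ u ∈ β, ∀ v ∈ β, lab u = lab v) ∧
    ∀ p : V → Prop, (∀ β ∈ H, ∀ u ∈ β, ∀ v ∈ β, p u → p v) → ∀ v, p v → p (lab v) := by
  classical
  obtain ⟨par, h1, h2⟩ : ∃ par : V → V, (∀ v, Root H dep v → par v = v) ∧
      ∀ β ∈ H, ∀ v, Nt dep β v → par v = top dep β := by
    refine ⟨fun v => if c : ∃ β ∈ H, Nt dep β v then top dep c.choose else v, fun v a => dif_neg ?_,
      fun β a v b => ?_⟩
    · rintro ⟨β, b, c⟩
      exact a β b c
    · have c : ∃ β ∈ H, Nt dep β v := ⟨β, a, b⟩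
      exact (dif_pos c).trans (by rw [h.2 _ c.choose_spec.1 _ a v c.choose_spec.2 b])
  have key : ∀ m v, dep v ≤ m → Root H dep (par^[m] v) ∧ dep (par^[m] v) ≤ dep v ∧
      (∀ j, par^[m + j] v = par^[m] v) ∧ ∀ p : V → Prop,
        (∀ β ∈ H, ∀ u ∈ β, ∀ v ∈ β, p u → p v) → p v → p (par^[m] v) := by
    intro m
    induction m with
    | zero =>
      intro v hv
      have a : Root H dep v := fun β _ ⟨_, u, _, b⟩ => by omega
      exact ⟨a, le_rfl, fun j => by rw [zero_add, Function.iterate_fixed (h1 v a)]; rfl,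
        fun _ _ h => h⟩
    | succ m ih =>
      intro v hv
      by_cases a : Root H dep v
      · simp only [Function.iterate_fixed (h1 v a)]
        exact ⟨a, le_rfl, fun _ => trivial, fun _ _ h => h⟩
      obtain ⟨β, c1, c2⟩ : ∃ β ∈ H, Nt dep β v := by simpa [Root] using a
      have c3 := h2 β c1 v c2
      obtain ⟨c4, u, c5, c6⟩ := c2
      have c7 := top_spec dep ⟨u, c5⟩
      have c8 := c7.2 u c5
      obtain ⟨b1, b2, b3, b4⟩ := ih (par v) (by rw [c3]; omega)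
      refine ⟨b1, b2.trans (by rw [c3]; omega), fun j => ?_, fun p d1 d2 =>
        b4 p d1 (c3 ▸ d1 β c1 v c4 _ c7.1 d2)⟩
      rw [add_right_comm]
      exact b3 j
  have h3 : ∀ β ∈ H, ∀ v ∈ β, par^[dep v] v = par^[dep (top dep β)] (top dep β) := by
    intro β a v b
    by_cases c : v = top dep β
    · rw [← c]
    have c2 := (nt_iff h.1).2 ⟨b, c⟩
    have c3 := h2 β a v c2
    obtain ⟨-, u, c5, c6⟩ := c2
    have c8 := (top_spec dep ⟨u, c5⟩).2 u c5
    obtain ⟨j, hj⟩ : ∃ j, dep v = dep (top dep β) + j + 1 := ⟨dep v - dep (top dep β) - 1, by omega⟩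
    rw [hj, Function.iterate_succ_apply, c3]
    exact (key _ _ le_rfl).2.2.1 j
  exact ⟨fun v => par^[dep v] v, fun v => (key _ v le_rfl).1,
    fun v a => Function.iterate_fixed (h1 v a) _, fun v => (key _ v le_rfl).2.1,
    fun β a u b v c => (h3 β a u b).trans (h3 β a v c).symm,
    fun p a v => (key _ v le_rfl).2.2.2 p a⟩

/-- Changing the root of one component. -/
theorem reroot (hU : ∀ β ∈ H, β ⊆ U) (hl : ∀ β ∈ H, ∀ u ∈ β, ∀ v ∈ β, lab u = lab v)
    (h : Cert U H lab dep) {y : V} (hy : y ∈ U) : ∃ dep', Cert U H lab dep' ∧ Root H dep' y ∧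
      ∀ v, lab v ≠ lab y → Root H dep v → Root H dep' v := by
  induction hm : dep y using Nat.strong_induction_on generalizing y with | _ m ih => ?_
  by_cases a : Root H dep y
  · exact ⟨dep, h, a, fun _ _ h => h⟩
  obtain ⟨β, c1, c2, p, c3, c4⟩ : ∃ β ∈ H, Nt dep β y := by simpa [Root] using a
  obtain ⟨d, ⟨⟨d1, d2⟩, d3⟩, d4, d5⟩ := ih _ (hm ▸ c4) (hU β c1 c3) rfl
  have e1 : lab p = lab y := hl β c1 p c3 y c2
  have e2 : p ≠ y := fun e => by rw [e] at c4; omega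
  have e3 : ∀ v ∈ β, v ≠ p → Nt d β v := fun v b1 b2 => ⟨b1, p, c3, lt_of_le_of_ne
    (not_lt.1 fun b3 => d4 β c1 ⟨c3, v, b1, b3⟩) fun b3 => b2 (d1 b3).symm⟩
  let d' : V → ℕ := fun v => if v = y then 0 else d v + 1
  have e4 : ∀ β' ∈ H, ∀ v, Nt d' β' v → v ≠ y ∧ (Nt d β' v ∨ (β' = β ∧ v = p)) := by
    rintro β' b1 v ⟨b2, u, b3, b4⟩
    have b5 : v ≠ y := fun e => by simp [d', e] at b4
    refine ⟨b5, ?_⟩
    by_cases b6 : u = y
    · subst b6
      by_cases b7 : β' = β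
      · subst b7
        exact (em (v = p)).elim (fun e => .inr ⟨rfl, e⟩) fun e => .inl (e3 v b2 e)
      · refine .inl ⟨b2, u, b3, lt_of_le_of_ne (not_lt.1 fun b8 => b7 ?_) fun b8 => b5 (d1 b8).symm⟩
        exact d2 _ b1 _ c1 u ⟨b3, v, b2, b8⟩ (e3 u c2 e2.symm)
    · exact .inl ⟨b2, u, b3, by simpa [d', b5, b6] using b4⟩
  have e5 : ∀ v, v ≠ y → Root H d' v → Root H d v ∧ v ≠ p := fun v b1 b2 =>
    ⟨fun β' b3 ⟨b4, u, b5, b6⟩ => b2 β' b3 ⟨b4, u, b5, by
      simp only [d', if_neg b1]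
      split_ifs <;> omega⟩, fun e => b2 β c1 ⟨e ▸ c3, y, c2, by simp [d', b1]⟩⟩
  refine ⟨d', ⟨⟨fun u v e => ?_, fun β₁ b1 β₂ b2 v b3 b4 => ?_⟩, fun u b1 v b2 b3 b4 b5 => ?_⟩,
    fun β' b1 b2 => (e4 β' b1 y b2).1 rfl, fun v b1 b2 β' b3 b4 => ?_⟩
  · simp only [d'] at e
    split_ifs at e with b1 b2
    · rw [b1, b2]
    · exact d1 (by omega)
  · rcases (e4 _ b1 v b3).2 with b5 | ⟨b5, b6⟩ <;> rcases (e4 _ b2 v b4).2 with b7 | ⟨b7, b8⟩
    · exact d2 _ b1 _ b2 v b5 b7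
    · exact absurd (b8 ▸ b5) (d4 _ b1)
    · exact absurd (b6 ▸ b7) (d4 _ b2)
    · rw [b5, b7]
  · by_cases b6 : u = y <;> by_cases b7 : v = y
    · rw [b6, b7]
    · exact absurd (d3 v b2 p (hU β c1 c3) (e5 v b7 b4).1 d4 (by rw [← b5, b6, e1])) (e5 v b7 b4).2
    · exact absurd (d3 u b1 p (hU β c1 c3) (e5 u b6 b3).1 d4 (by rw [b5, b7, e1])) (e5 u b6 b3).2
    · exact d3 u b1 v b2 (e5 u b6 b3).1 (e5 v b7 b4).1 b5
  · rcases (e4 _ b3 v b4).2 with b5 | ⟨-, b5⟩
    · exact d5 v (e1 ▸ b1) b2 β' b3 b5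
    · exact b1 (b5 ▸ e1)

/-- Prescribing roots with different labels. -/
theorem reroot_set (hU : ∀ β ∈ H, β ⊆ U) (hl : ∀ β ∈ H, ∀ u ∈ β, ∀ v ∈ β, lab u = lab v)
    (h : Cert U H lab dep) (Y : Finset V) (hY : Y ⊆ U) (hi : Set.InjOn lab Y) :
    ∃ dep', Cert U H lab dep' ∧ ∀ y ∈ Y, Root H dep' y := by
  induction Y using Finset.induction_on with
  | empty => exact ⟨dep, h, by simp⟩
  | insert y Y a ih =>
    obtain ⟨d, b1, b2⟩ := ih ((subset_insert _ _).trans hY) (hi.mono (by simp))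
    obtain ⟨d', c1, c2, c3⟩ := reroot hU hl b1 (hY (mem_insert_self _ _))
    refine ⟨d', c1, fun v hv => ?_⟩
    rcases mem_insert.1 hv with rfl | hv'
    · exact c2
    · exact c3 v (fun e => a (hi (by simp [hv']) (by simp) e ▸ hv')) (b2 v hv')

/-- The spanning tree of a hypertree: every hyperedge is replaced by the star centred at its
first member. -/
theorem exists_par {E X : Type} [Fintype E] [DecidableEq E] [Fintype X] [DecidableEq X]
    [Nonempty X] [Nonempty E] {vtx : Dart E → X} {H : Finset (Finset X)} {dep : X → ℕ} {y : X}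
    (hc : ∀ β ∈ H, (cone vtx ∅ univ).IsClique (β : Set X)) (h : Ord H dep)
    (hy : ∀ v, Root H dep v ↔ v = y) : ∃ (T : Finset E) (par : X → Dart E), RT vtx T y par ∧
      Col vtx T ∧ ∀ β ∈ H, ∀ v ∈ β, v ≠ top dep β →
        v ≠ y ∧ vtx (par v) = v ∧ vtx (fl (par v)) = top dep β := by
  have h1 : ∀ v, ∃ d : Dart E, ∀ β ∈ H, Nt dep β v → vtx d = v ∧ vtx (fl d) = top dep β := by
    intro v
    by_cases a : ∃ β ∈ H, Nt dep β v
    · obtain ⟨β, a1, a2⟩ := a
      obtain ⟨b1, b2⟩ := (nt_iff h.1).1 a2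
      obtain ⟨-, -, -, b3⟩ := hc β a1 b1 (top_spec dep ⟨v, b1⟩).1 b2
      obtain ⟨d, b4⟩ := (b3.resolve_left (notMem_empty _)).resolve_left (notMem_empty _)
      exact ⟨d, fun β' c1 c2 => h.2 _ a1 _ c1 v a2 c2 ▸ b4⟩
    · exact ⟨Classical.arbitrary _, fun β a1 a2 => absurd ⟨β, a1, a2⟩ a⟩
  choose par hp using h1
  have h2 : ∀ v, v ≠ y → Rt vtx (· ∈ (univ.erase y).image fun v => (par v).1) par dep v := by
    intro v hv
    obtain ⟨β, c1, c2⟩ : ∃ β ∈ H, Nt dep β v := by simpa [Root] using (hy v).not.2 hv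
    obtain ⟨b1, b2⟩ := hp v β c1 c2
    obtain ⟨-, u, c5, c6⟩ := c2
    exact ⟨b1, mem_image_of_mem _ (by simpa using hv),
      b2 ▸ ((top_spec dep ⟨u, c5⟩).2 u c5).trans_lt c6⟩
  have h3 : ((univ.erase y).image fun v => (par v).1).card + 1 = Fintype.card X := by
    rw [card_image_of_injOn fun u hu v hv =>
      (h2 u (ne_of_mem_erase hu)).inj (h2 v (ne_of_mem_erase hv)), card_erase_add_one (mem_univ y),
      card_univ]
  have h4 : ∀ v, Link (fun e i => vtx (e, i))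
      (fun e => e ∈ (univ.erase y).image fun v => (par v).1) v y := by
    intro v
    induction hm : dep v using Nat.strong_induction_on generalizing v with | _ m ih => ?_
    by_cases a : v = y
    · exact a ▸ Link.refl _
    obtain ⟨b1, b2, b3⟩ := h2 v a
    refine Link.trans ?_ (ih _ (hm ▸ b3) _ rfl)
    have := Link.edge' (n := fun e i => vtx (e, i)) b2 (par v).2 (!(par v).2)
    rwa [show vtx ((par v).1, (par v).2) = v from b1] at this
  refine ⟨_, par, ⟨h3, dep, h2⟩, ⟨h3, fun a b => (h4 a).trans (h4 b).symm⟩, fun β a v b c => ?_⟩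
  have := (nt_iff h.1).2 ⟨b, c⟩
  exact ⟨fun e => (hy v).2 e β a this, hp v β a this⟩

end Pool.Agent.Lib.MP_234305_co.Sums
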