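import Pool.Agent.Lib.MP_234305_co.H77Stmts

/-!
Euler characteristic, double covers, parallel cycles and dual classes: step 6.
-/

namespace Pool.Agent.Lib.MP_234305_co

open Finset Matrix Module

namespace Euler

section LinAlg
variable {K : Type} [Fintype K] [DecidableEq K]

/-- The dot product as a bilinear form. -/
def dotB (K : Type) [Fintype K] : LinearMap.BilinForm Z2 (K → Z2) := dotProductBilin Z2 Z2

omit [DecidableEq K] in
theorem dotB_apply (x y : K → Z2) : dotB K x y = x ⬝ᵥ y := rfl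

omit [DecidableEq K] in
theorem dotB_refl : (dotB K).IsRefl := fun x y h => by
  rw [dotB_apply] at h ⊢
  rw [dotProduct_comm, h]

theorem dotB_nondeg : (dotB K).Nondegenerate := by
  refine (LinearMap.IsRefl.nondegenerate_iff_separatingLeft dotB_refl).2 fun x hx => ?_
  funext k
  simpa [dotB_apply] using hx (Pi.single k 1)

/-- The orthogonal complement for the dot product. -/
def perp (U : Submodule Z2 (K → Z2)) : Submodule Z2 (K → Z2) := (dotB K).orthogonal U

omit [DecidableEq K] in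
theorem mem_perp {U : Submodule Z2 (K → Z2)} {y : K → Z2} :
    y ∈ perp U ↔ ∀ x ∈ U, x ⬝ᵥ y = 0 := Iff.rfl

theorem perp_perp (U : Submodule Z2 (K → Z2)) : perp (perp U) = U :=
  LinearMap.BilinForm.orthogonal_orthogonal dotB_nondeg dotB_refl U

theorem finrank_perp (U : Submodule Z2 (K → Z2)) :
    finrank Z2 (perp U) + finrank Z2 U = Fintype.card K := by
  have h1 := LinearMap.BilinForm.finrank_orthogonal (dotB_nondeg (K := K)) U
  have h2 := Submodule.finrank_le U
  rw [Module.finrank_fintype_fun_eq_card] at h1 h2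
  unfold perp
  omega

omit [DecidableEq K] in
theorem exists_lam (U W : Submodule Z2 (K → Z2)) (h : U ≤ W) (γ : ℕ)
    (hγ : finrank Z2 W ≤ finrank Z2 U + γ) :
    ∃ Λ : (K → Z2) →ₗ[Z2] (Fin γ → Z2), ∀ y ∈ W, Λ y = 0 → y ∈ U := by
  have h1 := Submodule.finrank_quotient_add_finrank (U.comap W.subtype)
  have h2 : finrank Z2 (U.comap W.subtype) = finrank Z2 U :=
    (Submodule.comapSubtypeEquivOfLe h).finrank_eq
  have h3 : finrank Z2 (W ⧸ U.comap W.subtype) ≤ finrank Z2 (Fin γ → Z2) := by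
    rw [Module.finrank_fin_fun]; omega
  obtain ⟨j, hj⟩ := finrank_le_iff_exists_linearMap.1 h3
  obtain ⟨Λ, hΛ⟩ := LinearMap.exists_extend (j ∘ₗ (U.comap W.subtype).mkQ)
  refine ⟨Λ, fun y hy h0 => ?_⟩
  have h4 : j ((U.comap W.subtype).mkQ ⟨y, hy⟩) = 0 := by
    have := congrArg (fun L => L ⟨y, hy⟩) hΛ
    simpa [h0] using this.symm
  have h5 : (U.comap W.subtype).mkQ ⟨y, hy⟩ = 0 := hj (by rw [h4, map_zero])
  simpa using h5

theorem lam_dot {γ : ℕ} (Λ : (K → Z2) →ₗ[Z2] (Fin γ → Z2)) (y : K → Z2) (i : Fin γ) :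
    Λ y i = y ⬝ᵥ fun k => Λ (Pi.single k 1) i := by
  conv_lhs => rw [← Finset.univ_sum_single y, map_sum]
  rw [Finset.sum_apply, dotProduct]
  refine sum_congr rfl fun k _ => ?_
  have : (Pi.single k (y k) : K → Z2) = y k • Pi.single k 1 := by
    funext j; by_cases h : j = k <;> simp [h]
  rw [this, map_smul]; rfl

omit [DecidableEq K] [Fintype K] in
theorem finrank_le_range {V R : Type} [AddCommGroup V] [Module Z2 V] [Module.Finite Z2 V]
    [Fintype R] (A : V →ₗ[Z2] (K → Z2)) (B : V →ₗ[Z2] (R → Z2))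
    (h : ∀ f, A f = 0 → B f = 0 → f = 0) :
    finrank Z2 V ≤ finrank Z2 (LinearMap.range A) + Fintype.card R := by
  have hinj : Function.Injective (LinearMap.prod A.rangeRestrict B) := by
    rw [injective_iff_map_eq_zero]
    intro f hf
    have h1 := congrArg Prod.fst hf
    have h2 := congrArg Prod.snd hf
    exact h f (by simpa using congrArg Subtype.val h1) (by simpa using h2)
  have := LinearMap.finrank_le_finrank_of_injective hinj
  rwa [Module.finrank_prod, Module.finrank_fintype_fun_eq_card] at this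

end LinAlg

section Maps
variable {E : Type} [Fintype E] [DecidableEq E] {τ : Flag E → Flag E}

theorem z2_add_self (a : Z2) : a + a = 0 := by revert a; decide

omit [DecidableEq E] in
theorem sum_flag {M : Type*} [AddCommMonoid M] (F : Flag E → M) :
    ∑ x, F x = ∑ e, (F (e, false, false) + F (e, false, true) + F (e, true, false) +
      F (e, true, true)) := by
  rw [Fintype.sum_prod_type]
  refine sum_congr rfl fun e _ => ?_
  rw [Fintype.sum_prod_type]
  simp only [Fintype.sum_bool]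
  abel

omit [DecidableEq E] in
theorem sum_dart {M : Type*} [AddCommMonoid M] (F : Dart E → M) :
    ∑ x, F x = ∑ e, (F (e, false) + F (e, true)) := by
  rw [Fintype.sum_prod_type]
  refine sum_congr rfl fun e _ => ?_
  simp only [Fintype.sum_bool]
  abel

omit [DecidableEq E] in
theorem sum_inv (hτ : IsMap τ) (w : Flag E → Z2) (hw : ∀ x, w (τ x) = w x) : ∑ x, w x = 0 :=
  Finset.sum_involution (fun x _ => τ x) (fun x _ => by rw [hw, z2_add_self])
    (fun x _ _ => hτ.2 x) (fun _ _ => mem_univ _) (fun x _ => hτ.1 x)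

omit [DecidableEq E] in
theorem sum_tau (hτ : IsMap τ) {M : Type*} [AddCommMonoid M] (F : Flag E → M) :
    ∑ x, F (τ x) = ∑ x, F x :=
  Function.Bijective.sum_comp (Function.Involutive.bijective hτ.1) F

/-- Functions on the darts of type `s` that are constant on the classes. -/
def Fs (τ : Flag E → Flag E) (s : Bool) : Submodule Z2 (Dart E → Z2) where
  carrier := {f | ∀ x, f (pr s (τ x)) = f (pr s x)}
  add_mem' := fun ha hb x => by simp only [Pi.add_apply, ha x, hb x]
  zero_mem' := fun _ => rfl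
  smul_mem' := fun c _ ha x => by simp only [Pi.smul_apply, ha x]

omit [Fintype E] [DecidableEq E] in
theorem mem_Fs {s : Bool} {f : Dart E → Z2} :
    f ∈ Fs τ s ↔ ∀ x, f (pr s (τ x)) = f (pr s x) := Iff.rfl

omit [Fintype E] [DecidableEq E] in
theorem sec_flag (s : Bool) (x : Flag E) : Sec τ ∅ s (pr s x) (pr s (τ x)) :=
  Relation.EqvGen.rel _ _ ⟨x, by simp, rfl, rfl⟩

omit [Fintype E] [DecidableEq E] in
theorem sec_ind {α : Sort*} {s : Bool} (f : Dart E → α)
    (hf : ∀ x, f (pr s (τ x)) = f (pr s x)) {d d' : Dart E} (h : Sec τ ∅ s d d') :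
    f d = f d' := by
  induction h with
  | rel a b h =>
    obtain ⟨x, -, rfl, rfl⟩ := h
    exact (hf x).symm
  | refl => rfl
  | symm _ _ _ ih => exact ih.symm
  | trans _ _ _ _ _ ih ih' => exact ih.trans ih'

omit [Fintype E] [DecidableEq E] in
theorem mem_Fs_iff {s : Bool} {f : Dart E → Z2} :
    f ∈ Fs τ s ↔ ∀ d d', Sec τ ∅ s d d' → f d = f d' :=
  ⟨fun hf _ _ h => sec_ind f hf h, fun h x => (h _ _ (sec_flag s x)).symm⟩

omit [DecidableEq E] in
theorem mem_gcl {s : Bool} {d d' : Dart E} : d' ∈ gcl τ ∅ s d ↔ Sec τ ∅ s d d' := by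
  simp [gcl]

omit [DecidableEq E] in
theorem gcl_eq_iff {s : Bool} {d d' : Dart E} :
    gcl τ ∅ s d = gcl τ ∅ s d' ↔ Sec τ ∅ s d d' := by
  constructor
  · intro h
    rw [← mem_gcl, h, mem_gcl]
    exact Relation.EqvGen.refl _
  · intro h
    ext a
    rw [mem_gcl, mem_gcl]
    exact ⟨fun h' => (h.symm _ _).trans _ _ _ h', fun h' => h.trans _ _ _ h'⟩

theorem nCl_le (s : Bool) : nCl τ s ≤ finrank Z2 (Fs τ s) := by
  classical
  let L : ((univ.image (gcl τ ∅ s) : Finset _) → Z2) →ₗ[Z2] Fs τ s :=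
    LinearMap.codRestrict (Fs τ s)
      (LinearMap.funLeft Z2 Z2 fun d => ⟨gcl τ ∅ s d, mem_image_of_mem _ (mem_univ d)⟩)
      fun h => mem_Fs_iff.2 fun d d' hd => by
        simp only [LinearMap.funLeft_apply, gcl_eq_iff.2 hd]
  have hL : Function.Injective L := by
    intro h h' e
    funext ⟨A, hA⟩
    obtain ⟨d, -, rfl⟩ := mem_image.1 hA
    exact congrFun (congrArg Subtype.val e) d
  have := LinearMap.finrank_le_finrank_of_injective hL
  rwa [Module.finrank_fintype_fun_eq_card, Fintype.card_coe] at this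

/-- The chain of a function on darts. -/
def cobD : (Dart E → Z2) →ₗ[Z2] Vec E where
  toFun f e := f (e, false) + f (e, true)
  map_add' f g := by funext e; simp only [Pi.add_apply]; abel
  map_smul' c f := by funext e; simp [mul_add]

omit [Fintype E] [DecidableEq E] in
theorem cobD_apply (f : Dart E → Z2) (e : E) : cobD f e = f (e, false) + f (e, true) := rfl

omit [DecidableEq E] in
theorem cobD_dot (f : Dart E → Z2) (c : Vec E) : cobD f ⬝ᵥ c = ∑ d, f d * c d.1 := by
  rw [sum_dart, dotProduct]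
  exact sum_congr rfl fun e _ => by rw [cobD_apply, add_mul]

omit [Fintype E] in
theorem st_eq (A : Finset (Dart E)) : st A = cobD fun d => if d ∈ A then 1 else 0 := by
  funext e
  simp only [st, Fintype.sum_bool, cobD_apply, add_comm]

/-- Cuts (`s = true`) and sums of faces (`s = false`). -/
def Cut (τ : Flag E → Flag E) (s : Bool) : Submodule Z2 (Vec E) :=
  LinearMap.range (cobD ∘ₗ (Fs τ s).subtype)

omit [Fintype E] [DecidableEq E] in
theorem mem_Cut {s : Bool} {c : Vec E} : c ∈ Cut τ s ↔ ∃ f ∈ Fs τ s, cobD f = c :=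
  ⟨fun ⟨f, h⟩ => ⟨f, f.2, h⟩, fun ⟨f, h1, h⟩ => ⟨⟨f, h1⟩, h⟩⟩

theorem sum_classes {s : Bool} (a : Dart E → Z2) (ha : ∀ d, ∑ d' ∈ gcl τ ∅ s d, a d' = 0)
    (f : Dart E → Z2) (hf : f ∈ Fs τ s) : ∑ d, f d * a d = 0 := by
  rw [← sum_fiberwise_of_maps_to (s := univ) (t := univ.image (gcl τ ∅ s)) (g := gcl τ ∅ s)
    (fun d hd => mem_image_of_mem _ hd)]
  refine sum_eq_zero fun A hA => ?_
  obtain ⟨d, -, rfl⟩ := mem_image.1 hA
  have h1 : univ.filter (fun d' => gcl τ ∅ s d' = gcl τ ∅ s d) = gcl τ ∅ s d := by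
    ext d'
    rw [mem_filter, mem_gcl, eq_comm, gcl_eq_iff]; simp
  rw [h1, sum_congr rfl (g := fun d' => f d * a d'), ← mul_sum, ha, mul_zero]
  intro d' hd'
  rw [mem_Fs_iff.1 hf d d' (mem_gcl.1 hd')]

theorem mem_Cyc {s : Bool} {c : Vec E} :
    c ∈ perp (Cut τ s) ↔ ∀ d, c ⬝ᵥ st (gcl τ ∅ s d) = 0 := by
  rw [mem_perp]
  constructor
  · intro h d
    rw [dotProduct_comm]
    refine h _ (mem_Cut.2 ⟨_, mem_Fs_iff.2 fun a b hab => ?_, (st_eq _).symm⟩)
    have : a ∈ gcl τ ∅ s d ↔ b ∈ gcl τ ∅ s d := by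
      rw [mem_gcl, mem_gcl]
      exact ⟨fun h' => h'.trans _ _ _ hab, fun h' => h'.trans _ _ _ (hab.symm _ _)⟩
    simp only [this]
  · intro h x hx
    obtain ⟨f, hf, rfl⟩ := mem_Cut.1 hx
    rw [cobD_dot]
    refine sum_classes (fun d => c d.1) (fun d => ?_) f hf
    have := h d
    rw [dotProduct_comm, st_eq, cobD_dot] at this
    simpa using this

omit [DecidableEq E] in
theorem cut_dot_cut (hτ : IsMap τ) {f g : Dart E → Z2} (hf : f ∈ Fs τ true)
    (hg : g ∈ Fs τ false) : cobD f ⬝ᵥ cobD g = 0 := by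
  have := sum_inv hτ (fun x => f (pr true x) * g (pr false x)) fun x => by rw [hf x, hg x]
  rw [sum_flag] at this
  rw [← this, dotProduct]
  refine sum_congr rfl fun e _ => ?_
  simp only [cobD_apply, pr, if_true, Bool.false_eq_true, if_false]
  ring

omit [DecidableEq E] in
theorem cut_le (hτ : IsMap τ) (s : Bool) : Cut τ (!s) ≤ perp (Cut τ s) := by
  intro c hc x hx
  obtain ⟨f, hf, rfl⟩ := mem_Cut.1 hx
  obtain ⟨g, hg, rfl⟩ := mem_Cut.1 hc
  rw [dotB_apply]
  cases s
  · rw [dotProduct_comm]; exact cut_dot_cut hτ hg hf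
  · exact cut_dot_cut hτ hf hg

omit [DecidableEq E] in
theorem link_ind {α : Sort*} (f : E → α) (hf : ∀ x, f (τ x).1 = f x.1) {a b : E}
    (h : Link (med τ) (fun _ => True) a b) : f a = f b := by
  induction h with
  | rel a b h =>
    obtain ⟨k, -, rfl, rfl⟩ := h
    exact (hf k.x).symm
  | refl => rfl
  | symm _ _ _ ih => exact ih.symm
  | trans _ _ _ _ _ ih ih' => exact ih.trans ih'

omit [DecidableEq E] in
theorem link_flag (hτ : IsMap τ) (x : Flag E) : Link (med τ) (fun _ => True) x.1 (τ x).1 := by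
  rcases lt_trichotomy (Fintype.equivFin (Flag E) x) (Fintype.equivFin (Flag E) (τ x)) with
    h | h | h
  · exact Relation.EqvGen.rel _ _ ⟨⟨x, h⟩, trivial, rfl, rfl⟩
  · exact (hτ.2 x ((Fintype.equivFin (Flag E)).injective h).symm).elim
  · refine Relation.EqvGen.symm _ _ (Relation.EqvGen.rel _ _
      ⟨⟨τ x, by rwa [hτ.1]⟩, trivial, rfl, ?_⟩)
    simp [med, hτ.1 x]

omit [DecidableEq E] in
theorem zero_of_reps {reps : Finset E} (hr : ∀ e, ∃ r ∈ reps, Link (med τ) (fun _ => True) r e)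
    (f : E → Z2) (hf : ∀ x, f (τ x).1 = f x.1) (h0 : ∀ r ∈ reps, f r = 0) (e : E) : f e = 0 := by
  obtain ⟨r, h1, h2⟩ := hr e
  rw [← link_ind f hf h2, h0 r h1]

omit [DecidableEq E] in
theorem dart_zero {reps : Finset E} (hr : ∀ e, ∃ r ∈ reps, Link (med τ) (fun _ => True) r e)
    {s : Bool} {f : Dart E → Z2} (hf : f ∈ Fs τ s) (h1 : ∀ e, f (e, true) = f (e, false))
    (h0 : ∀ r ∈ reps, f (r, false) = 0) : f = 0 := by
  have h2 : ∀ d, f d = f (d.1, false) := by
    rintro ⟨e, _ | _⟩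
    exacts [rfl, h1 e]
  funext d
  rw [h2]
  refine zero_of_reps hr (fun e => f (e, false)) (fun x => ?_) h0 d.1
  exact (h2 (pr s (τ x))).symm.trans ((hf x).trans (h2 (pr s x)))

omit [DecidableEq E] in
theorem finrank_Fs_le {reps : Finset E}
    (hr : ∀ e, ∃ r ∈ reps, Link (med τ) (fun _ => True) r e) (s : Bool) :
    finrank Z2 (Fs τ s) ≤ finrank Z2 (Cut τ s) + reps.card := by
  have := finrank_le_range (cobD ∘ₗ (Fs τ s).subtype)
    (LinearMap.funLeft Z2 Z2 (fun r : reps => ((r.1, false) : Dart E)) ∘ₗ (Fs τ s).subtype)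
    fun f h1 h2 => Subtype.ext <| dart_zero hr f.2 (fun e => ?_)
      fun r hr => congrFun h2 ⟨r, hr⟩
  · rwa [Fintype.card_coe] at this
  · have h3 : f.1 (e, false) + f.1 (e, true) = 0 := congrFun h1 e
    revert h3
    generalize f.1 (e, false) = a
    generalize f.1 (e, true) = b
    revert a b; decide

theorem exists_lam_cyc (hτ : IsMap τ) {c γ : ℕ} {reps : Finset E} (hc : reps.card ≤ c)
    (hr : ∀ e, ∃ r ∈ reps, Link (med τ) (fun _ => True) r e)
    (h : Fintype.card E + 2 * c ≤ finrank Z2 (Fs τ true) + finrank Z2 (Fs τ false) + γ)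
    (s : Bool) :
    ∃ Λ : Vec E →ₗ[Z2] (Fin γ → Z2), ∀ y ∈ perp (Cut τ s), Λ y = 0 → y ∈ Cut τ (!s) := by
  refine exists_lam _ _ (cut_le hτ s) γ ?_
  have h1 : finrank Z2 (perp (Cut τ s)) + finrank Z2 (Cut τ s) = Fintype.card E :=
    finrank_perp _
  have h2 := finrank_Fs_le hr true
  have h3 := finrank_Fs_le hr false
  cases s
  · change finrank Z2 (perp (Cut τ false)) ≤ finrank Z2 (Cut τ true) + γ
    omega
  · change finrank Z2 (perp (Cut τ true)) ≤ finrank Z2 (Cut τ false) + γ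
    omega

theorem rk_core (hτ : IsMap τ) {c γ : ℕ} {reps : Finset E} (hc : reps.card ≤ c)
    (hr : ∀ e, ∃ r ∈ reps, Link (med τ) (fun _ => True) r e)
    (h : Fintype.card E + 2 * c ≤ finrank Z2 (Fs τ true) + finrank Z2 (Fs τ false) + γ) :
    Rk (gcl τ ∅) γ := by
  obtain ⟨Λ, hΛ⟩ := exists_lam_cyc hτ hc hr h true
  refine ⟨fun i k => Λ (Pi.single k 1) i, fun c g h1 h2 h3 => ?_⟩
  have h4 : c ∈ Cut τ false := hΛ c (mem_Cyc.2 h1) (funext fun i => by rw [lam_dot, h3]; rfl)
  exact mem_perp.1 (mem_Cyc.2 h2) c h4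

omit [DecidableEq E] in
theorem sum_cor (hτ : IsMap τ) {M : Type*} [AddCommMonoid M] (F : Flag E → M) :
    ∑ k : Cor τ, (F k.x + F (τ k.x)) = ∑ x, F x := by
  let φ : Cor τ × Bool → Flag E := fun kb => if kb.2 then τ kb.1.x else kb.1.x
  have hφ : Function.Bijective φ := by
    constructor
    · rintro ⟨k, _ | _⟩ ⟨k', _ | _⟩ h
      · exact Prod.ext (Cor.ext h) rfl
      · have h1 : k.x = τ k'.x := h
        have h2 := k.lt
        have h3 := k'.lt
        rw [h1, hτ.1] at h2
        exact (lt_asymm h2 h3).elim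
      · have h1 : τ k.x = k'.x := h
        have h2 := k.lt
        have h3 := k'.lt
        rw [← h1, hτ.1] at h3
        exact (lt_asymm h2 h3).elim
      · exact Prod.ext (Cor.ext ((Function.Involutive.injective hτ.1) h)) rfl
    · intro x
      rcases lt_trichotomy (Fintype.equivFin (Flag E) x) (Fintype.equivFin (Flag E) (τ x)) with
        h | h | h
      · exact ⟨(⟨x, h⟩, false), rfl⟩
      · exact (hτ.2 x ((Fintype.equivFin (Flag E)).injective h).symm).elim
      · exact ⟨(⟨τ x, by rwa [hτ.1]⟩, true), hτ.1 x⟩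
  rw [← hφ.sum_comp F, Fintype.sum_prod_type]
  refine sum_congr rfl fun k _ => ?_
  simp [φ, add_comm]

omit [DecidableEq E] in
theorem card_cor (hτ : IsMap τ) : Fintype.card (Cor τ) = 2 * Fintype.card E := by
  have := sum_cor hτ (fun _ => (1 : ℕ))
  simp at this
  omega

/-- The coboundary as a linear map. -/
def cobL {K N : Type} (n : K → Bool → N) : (N → Z2) →ₗ[Z2] (K → Z2) where
  toFun f := cob n f
  map_add' f g := by funext k; simp only [cob, Pi.add_apply]; abel
  map_smul' c f := by funext k; simp [cob, mul_add]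

theorem cob_dot {K N : Type} [Fintype K] [Fintype N] (n : K → Bool → N) (f : N → Z2)
    (z : K → Z2) : cob n f ⬝ᵥ z = f ⬝ᵥ bd n z := by
  classical
  simp only [dotProduct, bd, cob, mul_sum]
  rw [sum_comm]
  refine sum_congr rfl fun k _ => ?_
  simp only [iz, mul_add, sum_add_distrib, mul_ite, mul_one, mul_zero, sum_ite_eq, mem_univ,
    if_true, add_mul]

/-- The cuts of the radial graph. -/
def radL (τ : Flag E → Flag E) : (Fs τ true × Fs τ false) →ₗ[Z2] (Cor τ → Z2) where
  toFun fg k := fg.1.1 (pr true k.x) + fg.2.1 (pr false k.x)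
  map_add' f g := by
    funext k
    simp only [Prod.fst_add, Prod.snd_add, Submodule.coe_add, Pi.add_apply]
    abel
  map_smul' c f := by funext k; simp [mul_add]

theorem radrk_core (hτ : IsMap τ) {c γ : ℕ} {reps : Finset E} (hc : reps.card ≤ c)
    (hr : ∀ e, ∃ r ∈ reps, Link (med τ) (fun _ => True) r e)
    (h : Fintype.card E + 2 * c ≤ finrank Z2 (Fs τ true) + finrank Z2 (Fs τ false) + γ) :
    RadRk τ γ := by
  classical
  have all_flags : ∀ P : Flag E → Prop, (∀ x, P x → P (τ x)) → (∀ k : Cor τ, P k.x) →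
      ∀ x, P x := by
    intro P h1 h2 x
    rcases lt_trichotomy (Fintype.equivFin (Flag E) x) (Fintype.equivFin (Flag E) (τ x)) with
      h | h | h
    · exact h2 ⟨x, h⟩
    · exact (hτ.2 x ((Fintype.equivFin (Flag E)).injective h).symm).elim
    · have := h1 _ (h2 ⟨τ x, by rwa [hτ.1]⟩)
      rwa [hτ.1] at this
  have key : ∀ a b : Z2, a + b = 0 → a = b := by decide
  have hle : LinearMap.range (radL τ) ≤ perp (LinearMap.range (cobL (med τ))) := by
    rintro _ ⟨⟨f, g⟩, rfl⟩ _ ⟨h, rfl⟩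
    have h1 := sum_cor hτ fun x => h x.1 * (f.1 (pr true x) + g.1 (pr false x))
    rw [sum_flag, sum_eq_zero (s := (univ : Finset E))] at h1
    · rw [dotB_apply, ← h1, dotProduct]
      refine sum_congr rfl fun k _ => ?_
      rw [f.2, g.2, ← add_mul]
      rfl
    · intro e _
      simp only [pr, if_true, Bool.false_eq_true, if_false]
      generalize f.1 (e, false) = a
      generalize f.1 (e, true) = b
      generalize g.1 (e, false) = a'
      generalize g.1 (e, true) = b'
      generalize h e = t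
      revert a b a' b' t; decide
  have h1 := finrank_perp (LinearMap.range (cobL (med τ)))
  have h2 := finrank_le_range (cobL (med τ)) (LinearMap.funLeft Z2 Z2 (fun r : reps => r.1))
    fun f h1 h2 => funext <| zero_of_reps hr f
      (all_flags (fun x => f (τ x).1 = f x.1) (fun x hx => by rw [hτ.1, hx])
        fun k => (key _ _ (congrFun h1 k)).symm) fun r hr => congrFun h2 ⟨r, hr⟩
  have h3 := finrank_le_range (radL τ)
    (LinearMap.funLeft Z2 Z2 (fun r : reps => ((r.1, false) : Dart E)) ∘ₗ (Fs τ true).subtype ∘ₗ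
      LinearMap.fst _ _ _) (by
    rintro ⟨f, g⟩ h1 h2
    have h4 : ∀ x, f.1 (pr true x) = g.1 (pr false x) :=
      all_flags _ (fun x hx => by rw [f.2, g.2, hx]) fun k => key _ _ (congrFun h1 k)
    have h5 : f.1 = 0 := dart_zero hr f.2
      (fun e => (h4 (e, true, false)).trans (h4 (e, false, false)).symm)
      fun r hr => congrFun h2 ⟨r, hr⟩
    refine Prod.ext (Subtype.ext h5) (Subtype.ext (funext fun d => ?_))
    have := h4 (d.1, false, d.2)
    rw [h5] at this
    exact this.symm)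
  rw [Module.finrank_fintype_fun_eq_card, Fintype.card_coe] at h2
  rw [Module.finrank_prod, Fintype.card_coe] at h3
  rw [card_cor hτ] at h1
  obtain ⟨Λ, hΛ⟩ := exists_lam _ _ hle γ (by omega)
  refine ⟨Λ, fun y hy h0 => ?_⟩
  obtain ⟨⟨f, g⟩, rfl⟩ := hΛ y (by
    rintro _ ⟨h, rfl⟩
    rw [dotB_apply]
    change cob (med τ) h ⬝ᵥ y = 0
    rw [cob_dot, funext hy]
    exact dotProduct_zero _) h0
  have hex : ∀ (s : Bool) (F : Fs τ s), ∃ H : Finset (Dart E) → Z2,
      ∀ d, H (gcl τ ∅ s d) = F.1 d := by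
    intro s F
    refine ⟨fun A => if hA : ∃ d, d ∈ A then F.1 hA.choose else 0, fun d => ?_⟩
    have hA : ∃ d', d' ∈ gcl τ ∅ s d := ⟨d, mem_gcl.2 (Relation.EqvGen.refl _)⟩
    dsimp only
    rw [dif_pos hA]
    exact (mem_Fs_iff.1 F.2 _ _ (mem_gcl.1 hA.choose_spec)).symm
  obtain ⟨H, hH⟩ := hex true f
  obtain ⟨H', hH'⟩ := hex false g
  refine ⟨fun p => if p.1 then H p.2 else H' p.2, funext fun k => ?_⟩
  simp only [cob, rad, if_true, Bool.false_eq_true, if_false, hH, hH', add_comm]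
  rfl

/-- The two flags of a dart of type `s`. -/
def fl (s : Bool) (d : Dart E) (b : Bool) : Flag E := (d.1, if s then (d.2, b) else (b, d.2))

omit [Fintype E] [DecidableEq E] in
theorem pr_fl (s : Bool) (d : Dart E) (b : Bool) : pr s (fl s d b) = d := by cases s <;> rfl

omit [DecidableEq E] in
theorem sum_fl (s : Bool) (F : Flag E → Z2) :
    ∑ d, (F (fl s d false) + F (fl s d true)) = ∑ x, F x := by
  rw [sum_dart, sum_flag]
  refine sum_congr rfl fun e _ => ?_
  cases s <;> simp only [fl, if_true, Bool.false_eq_true, if_false] <;> abel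

theorem lift (hτ : IsMap τ) (s : Bool) (a : Dart E → Z2) (ha : ∀ f ∈ Fs τ s, f ⬝ᵥ a = 0) :
    ∃ w : Flag E → Z2, (∀ x, w (τ x) = w x) ∧ ∀ d, a d = w (fl s d false) + w (fl s d true) := by
  let T : (Flag E → Z2) →ₗ[Z2] (Dart E → Z2) :=
    { toFun := fun z d => (z (fl s d false) + z (τ (fl s d false))) +
        (z (fl s d true) + z (τ (fl s d true)))
      map_add' := fun z z' => by funext d; simp only [Pi.add_apply]; abel
      map_smul' := fun c z => by funext d; simp [mul_add] }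
  have hT : ∀ z f, T z ⬝ᵥ f = z ⬝ᵥ fun x => f (pr s x) + f (pr s (τ x)) := by
    intro z f
    have h1 := sum_fl s fun x => (z x + z (τ x)) * f (pr s x)
    have h2 := sum_tau hτ fun x => z x * f (pr s (τ x))
    simp only [pr_fl, hτ.1] at h1 h2
    simp only [dotProduct, mul_add, sum_add_distrib, ← h2]
    rw [← sum_add_distrib, ← sum_congr rfl fun x _ => add_mul _ _ _, ← h1]
    exact sum_congr rfl fun d _ => add_mul _ _ _
  have hmem : a ∈ LinearMap.range T := by
    rw [← perp_perp (LinearMap.range T)]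
    refine mem_perp.2 fun f hf => ha f fun x => ?_
    have := mem_perp.1 hf _ ⟨Pi.single x 1, rfl⟩
    rw [hT, single_dotProduct, one_mul] at this
    revert this
    generalize f (pr s x) = u
    generalize f (pr s (τ x)) = v
    revert u v; decide
  obtain ⟨z, rfl⟩ := hmem
  exact ⟨fun x => z x + z (τ x), fun x => by dsimp only; rw [hτ.1, add_comm], fun d => rfl⟩

theorem lift_cyc (hτ : IsMap τ) (s : Bool) {c : Vec E} (hc : c ∈ perp (Cut τ s)) :
    ∃ w : Flag E → Z2, (∀ x, w (τ x) = w x) ∧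
      ∀ d, c d.1 = w (fl s d false) + w (fl s d true) :=
  lift hτ s (fun d => c d.1) fun f hf => by
    have := mem_perp.1 hc _ (mem_Cut.2 ⟨f, hf, rfl⟩)
    rwa [cobD_dot] at this

omit [DecidableEq E] in
theorem cyc_of_lift (hτ : IsMap τ) (s : Bool) {c : Vec E} (w : Flag E → Z2)
    (hw : ∀ x, w (τ x) = w x) (h : ∀ d, c d.1 = w (fl s d false) + w (fl s d true)) :
    c ∈ perp (Cut τ s) := by
  refine mem_perp.2 fun x hx => ?_
  obtain ⟨f, hf, rfl⟩ := mem_Cut.1 hx
  rw [cobD_dot, ← sum_inv hτ (fun x => f (pr s x) * w x) fun x => by rw [hf x, hw x], ← sum_fl s]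
  exact sum_congr rfl fun d _ => by simp only [pr_fl, h, mul_add]

omit [Fintype E] [DecidableEq E] in
theorem cov_isMap (hτ : IsMap τ) (φ : Vec E) : IsMap (cov τ φ) := by
  constructor
  · rintro ⟨⟨e, σ⟩, i, s⟩
    have h := hτ.1 (e, i, s)
    simp only [cov, Prod.mk.eta, h, Prod.mk.injEq, and_true, true_and]
    generalize (if i = true then φ e else 0) = u
    generalize (if (τ (e, i, s)).2.1 = true then φ (τ (e, i, s)).1 else 0) = v
    revert σ u v; decide
  · rintro ⟨⟨e, σ⟩, i, s⟩ h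
    refine hτ.2 (e, i, s) (Prod.ext ?_ ?_)
    · exact congrArg (fun x => x.1.1) h
    · exact congrArg (fun x => x.2) h

omit [DecidableEq E] in
theorem cov_link (hτ : IsMap τ) (φ : Vec E) (h : ∀ e e', Link (med τ) (fun _ => True) e e') :
    ∃ reps : Finset (E × Z2), reps.card ≤ 2 ∧
      ∀ e, ∃ r ∈ reps, Link (med (cov τ φ)) (fun _ => True) r e := by
  classical
  rcases isEmpty_or_nonempty E with hE | ⟨⟨e₀⟩⟩
  · exact ⟨∅, by simp, fun e => hE.elim e.1⟩
  refine ⟨{(e₀, 0), (e₀, 1)}, card_le_two, fun e => ?_⟩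
  let P : E → Prop := fun a => ∀ σ, ∃ r ∈ ({(e₀, 0), (e₀, 1)} : Finset (E × Z2)),
    Link (med (cov τ φ)) (fun _ => True) r (a, σ)
  have h1 : ∀ x, P (τ x).1 → P x.1 := by
    intro x hx σ
    obtain ⟨r, h2, h3⟩ := hx (cov τ φ ((x.1, σ), x.2)).1.2
    exact ⟨r, h2, h3.trans _ _ _ ((link_flag (cov_isMap hτ φ) ((x.1, σ), x.2)).symm _ _)⟩
  have h2 : P e₀ = P e.1 := link_ind P (fun x => propext ⟨h1 x, fun hx => h1 (τ x)
    (by rwa [hτ.1])⟩) (h e₀ e.1)
  refine (h2 ▸ fun σ => ⟨(e₀, σ), ?_, Relation.EqvGen.refl _⟩ : P e.1) e.2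
  have : ∀ σ : Z2, σ = 0 ∨ σ = 1 := by decide
  rcases this σ with rfl | rfl <;> simp

omit [DecidableEq E] in
theorem cov_finrank (φ : Vec E) (s : Bool) (g : Dart E → Z2)
    (hg : ∀ x, g (pr s x) + g (pr s (τ x)) =
      (if x.2.1 then φ x.1 else 0) + (if (τ x).2.1 then φ (τ x).1 else 0)) :
    2 * finrank Z2 (Fs τ s) ≤ finrank Z2 (Fs (cov τ φ) s) := by
  let L₀ : (Fs τ s × Fs τ s) →ₗ[Z2] (Dart (E × Z2) → Z2) :=
    { toFun := fun f d => f.1.1 (d.1.1, d.2) + (d.1.2 + g (d.1.1, d.2)) * f.2.1 (d.1.1, d.2)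
      map_add' := fun f f' => by
        funext d
        simp only [Prod.fst_add, Prod.snd_add, Submodule.coe_add, Pi.add_apply]
        ring
      map_smul' := fun c f => by
        funext d
        simp only [Prod.smul_fst, Prod.smul_snd, Submodule.coe_smul, Pi.smul_apply, smul_eq_mul,
          RingHom.id_apply]
        ring }
  let L : (Fs τ s × Fs τ s) →ₗ[Z2] Fs (cov τ φ) s := L₀.codRestrict _ fun f x => by
    have h1 := f.1.2 (x.1.1, x.2)
    have h2 := f.2.2 (x.1.1, x.2)
    have h3 := hg (x.1.1, x.2)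
    change f.1.1 (pr s (τ (x.1.1, x.2))) + (x.1.2 + (if x.2.1 then φ x.1.1 else 0) +
        (if (τ (x.1.1, x.2)).2.1 then φ (τ (x.1.1, x.2)).1 else 0) + g (pr s (τ (x.1.1, x.2)))) *
        f.2.1 (pr s (τ (x.1.1, x.2))) =
      f.1.1 (pr s (x.1.1, x.2)) + (x.1.2 + g (pr s (x.1.1, x.2))) * f.2.1 (pr s (x.1.1, x.2))
    rw [h1, h2, add_assoc x.1.2, ← h3, add_assoc x.1.2, add_assoc (g _), z2_add_self, add_zero]
  have hL : Function.Injective L := by
    rw [injective_iff_map_eq_zero]
    intro f hf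
    have h1 : ∀ d : Dart (E × Z2),
        f.1.1 (d.1.1, d.2) + (d.1.2 + g (d.1.1, d.2)) * f.2.1 (d.1.1, d.2) = 0 :=
      fun d => congrFun (congrArg Subtype.val hf) d
    have key : ∀ a b c : Z2, a + (0 + c) * b = 0 → a + (1 + c) * b = 0 → a = 0 ∧ b = 0 := by
      decide
    have h2 := fun d : Dart E => key _ _ _ (h1 ((d.1, 0), d.2)) (h1 ((d.1, 1), d.2))
    exact Prod.ext (Subtype.ext (funext fun d => (h2 d).1)) (Subtype.ext (funext fun d => (h2 d).2))
  have := LinearMap.finrank_le_finrank_of_injective hL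
  rw [Module.finrank_prod] at this
  omega

theorem cov_pot (hτ : IsMap τ) {φ : Vec E} (hφ : φ ∈ perp (Cut τ false)) :
    ∃ g : Dart E → Z2, ∀ x, g (pr false x) + g (pr false (τ x)) =
      (if x.2.1 then φ x.1 else 0) + (if (τ x).2.1 then φ (τ x).1 else 0) := by
  obtain ⟨w, h1, h2⟩ := lift_cyc hτ false hφ
  have h3 : ∀ x : Flag E, w (fl false (pr false x) false) = w x + if x.2.1 then φ x.1 else 0 := by
    rintro ⟨e, _ | _, s⟩
    · exact (add_zero _).symm
    · have : φ e = w (e, false, s) + w (e, true, s) := h2 (e, s)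
      change w (e, false, s) = w (e, true, s) + φ e
      rw [this, add_comm, add_assoc, z2_add_self, add_zero]
  refine ⟨fun d => w (fl false d false), fun x => ?_⟩
  dsimp only
  rw [h3, h3, h1, add_add_add_comm, z2_add_self, zero_add]

end Maps

end Euler

open Euler

theorem rk_of_euler : RkEulerStmt := by
  intro E _ _ τ hτ c γ reps hc hr h
  have h1 := nCl_le (τ := τ) true
  have h2 := nCl_le (τ := τ) false
  exact ⟨rk_core hτ hc hr (by omega), radrk_core hτ hc hr (by omega)⟩

theorem cov_sec : CovSecStmt := by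
  intro E _ _ τ _ φ d d'
  constructor
  · intro h
    refine ⟨?_, sec_ind (fun d : Dart (E × Z2) => d.1.2 + if d.2 then φ d.1.1 else 0)
      (fun x => ?_) h⟩
    · induction h with
      | rel a b h =>
        obtain ⟨x, -, rfl, rfl⟩ := h
        exact sec_flag true (x.1.1, x.2)
      | refl => exact Relation.EqvGen.refl _
      | symm _ _ _ ih => exact ih.symm _ _
      | trans _ _ _ _ _ ih ih' => exact ih.trans _ _ _ ih'
    · change x.1.2 + (if x.2.1 then φ x.1.1 else 0) +
        (if (τ (x.1.1, x.2)).2.1 then φ (τ (x.1.1, x.2)).1 else 0) +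
        (if (τ (x.1.1, x.2)).2.1 then φ (τ (x.1.1, x.2)).1 else 0) =
        x.1.2 + (if x.2.1 then φ x.1.1 else 0)
      rw [add_assoc, z2_add_self, add_zero]
  · rintro ⟨h1, h2⟩
    have key : ∀ a b : Dart E, Sec τ ∅ true a b → ∀ t : Z2,
        Sec (cov τ φ) ∅ true ((a.1, t + if a.2 then φ a.1 else 0), a.2)
          ((b.1, t + if b.2 then φ b.1 else 0), b.2) := by
      intro a b h t
      induction h with
      | rel a b h =>
        obtain ⟨x, -, rfl, rfl⟩ := h
        have := sec_flag (τ := cov τ φ) true ((x.1, t + if x.2.1 then φ x.1 else 0), x.2)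
        simp only [pr, cov, if_true, add_assoc t, z2_add_self, add_zero] at this
        exact this
      | refl => exact Relation.EqvGen.refl _
      | symm _ _ _ ih => exact ih.symm _ _
      | trans _ _ _ _ _ ih ih' => exact ih.trans _ _ _ ih'
    have h3 := key _ _ h1 (d.1.2 + if d.2 then φ d.1.1 else 0)
    dsimp only at h3
    rw [add_assoc, z2_add_self, add_zero, h2, add_assoc, z2_add_self, add_zero] at h3
    exact h3

theorem cov_rk : CovRkStmt := by
  intro E _ _ τ hτ γ hl h φ hφ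
  obtain ⟨reps, hc, hr⟩ := cov_link hτ φ hl
  obtain ⟨g, hg⟩ := cov_pot hτ (mem_Cyc.2 hφ)
  have h1 := nCl_le (τ := τ) true
  have h2 := nCl_le (τ := τ) false
  have h3 := cov_finrank (τ := τ) φ true (fun d => if d.2 then φ d.1 else 0) fun x => rfl
  have h4 := cov_finrank φ false g hg
  have h5 : Fintype.card (E × Z2) = 2 * Fintype.card E := by simp [mul_comm]
  exact ⟨cov_isMap hτ φ, rk_core (cov_isMap hτ φ) hc hr (by omega),
    radrk_core (cov_isMap hτ φ) hc hr (by omega)⟩

theorem parallel_cycle : ParallelStmt := by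
  classical
  intro E _ _ τ hτ z hz
  by_cases hcut : z ∈ Cut τ false
  · obtain ⟨f, hf, rfl⟩ := mem_Cut.1 hcut
    exact Or.inl ⟨f, mem_Fs_iff.1 hf, fun e => rfl⟩
  right
  rw [← perp_perp (Cut τ false), mem_perp] at hcut
  push Not at hcut
  obtain ⟨g, hg, hgz⟩ := hcut
  obtain ⟨w₀, h1, h2⟩ := lift_cyc hτ true (mem_Cyc.2 hz)
  obtain ⟨w', h1', h2'⟩ := lift_cyc hτ false hg
  let T : Dart E → Prop := fun d => ∃ e' i', z e' ≠ 0 ∧ Sec τ ∅ true d (e', i')
  let w : Flag E → Z2 := fun x => if T (pr true x) then w₀ x else 0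
  have hw : ∀ x, w (τ x) = w x := by
    intro x
    have : T (pr true (τ x)) ↔ T (pr true x) :=
      ⟨fun ⟨e', i', h, h'⟩ => ⟨e', i', h, (sec_flag true x).trans _ _ _ h'⟩,
        fun ⟨e', i', h, h'⟩ => ⟨e', i', h, ((sec_flag true x).symm _ _).trans _ _ _ h'⟩⟩
    simp only [w, this, h1]
  have hz' : ∀ e i, z e = w (e, i, false) + w (e, i, true) := by
    intro e i
    change z e = (if T (e, i) then w₀ (e, i, false) else 0) + if T (e, i) then w₀ (e, i, true) else 0
    split_ifs with h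
    · exact h2 (e, i)
    · rw [add_zero]
      by_contra h'
      exact h ⟨e, i, h', Relation.EqvGen.refl _⟩
  have hg' : ∀ e s, g e = w' (e, false, s) + w' (e, true, s) := fun e s => h2' (e, s)
  have key : ∀ a b c d : Z2, a + b = c + d → a + c = b + d := by decide
  refine ⟨fun e => w (e, false, false) + w (e, true, false), mem_Cyc.1 ?_, fun e he => ?_,
    fun e => w' (e, false, false) + w' (e, false, true), mem_Cyc.1 ?_, ?_⟩
  · refine cyc_of_lift hτ false w hw ?_
    rintro ⟨e, _ | _⟩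
    · rfl
    · exact key _ _ _ _ ((hz' e false).symm.trans (hz' e true))
  · by_contra hn
    push Not at hn
    have : ∀ i, ¬T (e, i) := fun i ⟨e', i', h, h'⟩ => hn i e' i' h h'
    exact he (by simp [w, pr, this])
  · refine cyc_of_lift hτ true w' h1' ?_
    rintro ⟨e, _ | _⟩
    · rfl
    · exact key _ _ _ _ ((hg' e false).symm.trans (hg' e true))
  · have h3 := sum_inv hτ (fun x => w x * w' x) fun x => by rw [hw, h1']
    have h4 : ∀ a b : Z2, b ≠ 0 → a + b = 0 → a = 1 := by decide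
    refine h4 _ _ hgz ?_
    rw [← h3, sum_flag, dotProduct, dotProduct, ← sum_add_distrib]
    refine sum_congr rfl fun e _ => ?_
    have h5 := (hz' e false).symm.trans (hz' e true)
    have h6 := (hg' e false).symm.trans (hg' e true)
    rw [hz' e false, hg' e false]
    revert h5 h6
    generalize w (e, false, false) = a
    generalize w (e, false, true) = b
    generalize w (e, true, false) = c
    generalize w (e, true, true) = d
    generalize w' (e, false, false) = a'
    generalize w' (e, false, true) = b'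
    generalize w' (e, true, false) = c'
    generalize w' (e, true, true) = d'
    revert a b c d a' b' c' d'; decide

theorem few_classes : FewStmt := by
  classical
  intro E _ _ τ hτ γ hl h
  obtain ⟨reps, hc, hr⟩ : ∃ reps : Finset E, reps.card ≤ 1 ∧
      ∀ e, ∃ r ∈ reps, Link (med τ) (fun _ => True) r e := by
    rcases isEmpty_or_nonempty E with hE | ⟨⟨e₀⟩⟩
    · exact ⟨∅, by simp, fun e => hE.elim e⟩
    · exact ⟨{e₀}, by simp, fun e => ⟨e₀, by simp, hl _ _⟩⟩
  have h1 := nCl_le (τ := τ) true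
  have h2 := nCl_le (τ := τ) false
  obtain ⟨Λ, hΛ⟩ := exists_lam_cyc hτ hc hr (γ := γ) (by omega) false
  let ρ : (Fin γ → Z2) → Vec E := fun t =>
    if ht : ∃ φ ∈ perp (Cut τ false), Λ φ = t then ht.choose else 0
  have hρ : ∀ t, ρ t ∈ perp (Cut τ false) := by
    intro t
    simp only [ρ]
    split_ifs with ht
    exacts [ht.choose_spec.1, zero_mem _]
  refine ⟨univ.image ρ, card_image_le.trans (by simp), fun φ hφ => ?_, fun φ hφ => ?_⟩
  · obtain ⟨t, -, rfl⟩ := mem_image.1 hφ
    exact mem_Cyc.1 (hρ t)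
  · have hφ' := mem_Cyc.2 hφ
    have ht : ∃ ψ ∈ perp (Cut τ false), Λ ψ = Λ φ := ⟨φ, hφ', rfl⟩
    have h3 : Λ (ρ (Λ φ)) = Λ φ := by
      simp only [ρ]
      rw [dif_pos ht]
      exact ht.choose_spec.2
    obtain ⟨f, hf, hf'⟩ := mem_Cut.1 (hΛ (ρ (Λ φ) - φ) (sub_mem (hρ _) hφ')
      (by rw [map_sub, h3, sub_self]))
    refine ⟨ρ (Λ φ), mem_image_of_mem _ (mem_univ _), f, mem_Fs_iff.1 hf, fun e => ?_⟩
    have h4 : f (e, false) + f (e, true) = ρ (Λ φ) e - φ e := congrFun hf' e
    rw [add_assoc, h4, add_sub_cancel]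

end Pool.Agent.Lib.MP_234305_co
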