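import Pool.Agent.Lib.MP_234305_co.H47Slack
import Pool.Agent.Lib.MP_234305_co.H73Euler
import Pool.Agent.Lib.MP_234305_co.H25Defs

/-!
Hyperforests of cliques, the joint slack matrix, and the statements of the steps.
-/

namespace Pool.Agent.Lib.MP_234305_co.Sums

open Finset Matrix Slack

section Hyp
variable {V : Type} [DecidableEq V]

/-- `v` is a member of `β` that is not the first one. -/
def Nt (dep : V → ℕ) (β : Finset V) (v : V) : Prop := v ∈ β ∧ ∃ u ∈ β, dep u < dep v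

/-- The order `dep` shows that `H` is a hyperforest. -/
def Ord (H : Finset (Finset V)) (dep : V → ℕ) : Prop :=
  Function.Injective dep ∧ ∀ β ∈ H, ∀ β' ∈ H, ∀ v, Nt dep β v → Nt dep β' v → β = β'

/-- The roots. -/
def Root (H : Finset (Finset V)) (dep : V → ℕ) (v : V) : Prop := ∀ β ∈ H, ¬ Nt dep β v

/-- The labels distinguish the roots. -/
def Cert (U : Finset V) (H : Finset (Finset V)) (lab : V → V) (dep : V → ℕ) : Prop :=
  Ord H dep ∧ ∀ u ∈ U, ∀ v ∈ U, Root H dep u → Root H dep v → lab u = lab v → u = v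

/-- The columns: a hyperforest of cliques together with labels of its components. -/
def HC (U : Finset V) (G : SimpleGraph V) (x : Finset (Finset V) × (V → V)) : Prop :=
  (∀ β ∈ x.1, β ⊆ U ∧ G.IsClique (β : Set V) ∧ ∀ u ∈ β, ∀ v ∈ β, x.2 u = x.2 v) ∧
    ∃ dep, Cert U x.1 x.2 dep

/-- The number of components of the trace of `H` on `S`. -/
def cc (S : Finset V) (H : Finset (Finset V)) : ℝ :=
  (S.card : ℝ) - ∑ β ∈ H, (((β ∩ S).card - 1 : ℕ) : ℝ)

/-- The first member of `β`. -/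
noncomputable def top [Nonempty V] (dep : V → ℕ) (β : Finset V) : V :=
  Classical.epsilon fun w => w ∈ β ∧ ∀ u ∈ β, dep w ≤ dep u

open Classical in
/-- The cliques inside `U`. -/
noncomputable def cliq (U : Finset V) (G : SimpleGraph V) : Finset (Finset V) :=
  U.powerset.filter fun β => G.IsClique (β : Set V)

/-- The rows of the joint matrix. -/
def Row (U : Finset V) (i : Finset V × Bool) : Prop := i.1 ⊆ U ∧ (i.2 = false → i.1.Nonempty)

/-- The entries of the joint matrix. -/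
def ent (K : Finset V) (i : Finset V × Bool) (x : Finset (Finset V) × (V → V)) : ℝ :=
  cc i.1 x.1 - if i.2 then (((i.1 ∩ K).image x.2).card : ℝ) else 1

open Classical in
/-- The number of darts that are not inside `K`. -/
noncomputable def npair [Fintype V] (G : SimpleGraph V) (K : Finset V) : ℕ :=
  (univ.filter fun p : V × V => G.Adj p.1 p.2 ∧ ¬ (p.1 ∈ K ∧ p.2 ∈ K)).card

/-- The inductive bound. -/
def JB [Fintype V] (ω : ℕ) (L : ℝ) (U : Finset V) (G : SimpleGraph V) : Prop :=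
  (∀ a b, G.Adj a b → a ∈ U) ∧ ∀ K, K ⊆ U → G.IsClique (K : Set V) → K.card ≤ ω ∧
    (npair G K : ℝ) ≤ L * ((U.card : ℝ) - K.card) ∧
    NR (Row U) (HC U G) (ent K) (if K = U then 2 ^ (ω + 1) else
      L * ((U.card : ℝ) - K.card) - 2 ^ (ω + 1) * ((ω : ℝ) + 1 - K.card))

/-- The slack matrix of the hyperforests has nonnegative rank at most `N`. -/
def MB (U : Finset V) (G : SimpleGraph V) (N : ℝ) : Prop :=
  NR (fun S : Finset V => S ⊆ U ∧ S.Nonempty) (HC U G) (fun S x => cc S x.1 - 1) N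

theorem mem_cliq {U β : Finset V} {G : SimpleGraph V} :
    β ∈ cliq U G ↔ β ⊆ U ∧ G.IsClique (β : Set V) := by
  simp [cliq]

theorem HC.mono {U : Finset V} {G G' : SimpleGraph V} (h : G ≤ G')
    {x : Finset (Finset V) × (V → V)} (hx : HC U G x) : HC U G' x :=
  ⟨fun β hβ => ⟨(hx.1 β hβ).1, (hx.1 β hβ).2.1.mono h, (hx.1 β hβ).2.2⟩, hx.2⟩

theorem JB.mono [Fintype V] {ω : ℕ} {L : ℝ} {U : Finset V} {G G' : SimpleGraph V}
    (h : JB ω L U G') (hG : G ≤ G') : JB ω L U G := by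
  classical
  refine ⟨fun a b e => h.1 a b (hG e), fun K h1 h2 => ?_⟩
  obtain ⟨a1, a2, a3⟩ := h.2 K h1 (h2.mono hG)
  refine ⟨a1, le_trans ?_ a2, a3.comap id id (fun _ h => h) (fun _ h => h.mono hG)
    fun _ _ _ _ => rfl⟩
  unfold npair
  exact_mod_cast card_le_card fun p hp => by
    simp only [mem_filter, mem_univ, true_and] at hp ⊢
    exact ⟨hG hp.1, hp.2⟩

theorem JB.monoL [Fintype V] {ω : ℕ} {L L' : ℝ} {U : Finset V} {G : SimpleGraph V}
    (h : JB ω L U G) (hL : L ≤ L') : JB ω L' U G := by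
  refine ⟨h.1, fun K h1 h2 => ?_⟩
  obtain ⟨a1, a2, a3⟩ := h.2 K h1 h2
  have a4 : (K.card : ℝ) ≤ U.card := by exact_mod_cast card_le_card h1
  have a5 := mul_le_mul_of_nonneg_right hL (sub_nonneg.2 a4)
  refine ⟨a1, a2.trans a5, a3.mono ?_⟩
  split_ifs <;> linarith

end Hyp

section Map
variable {E V : Type}

/-- Both ends of `e` lie in `S`. -/
def Ins (vtx : Dart E → V) (S : Finset V) (e : E) : Prop :=
  vtx (e, false) ∈ S ∧ vtx (e, true) ∈ S

/-- No loops and no parallel edges. -/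
def Simp (vtx : Dart E → V) : Prop :=
  (∀ d, vtx d ≠ vtx (fl d)) ∧ ∀ d d', vtx d = vtx d' → vtx (fl d) = vtx (fl d') → d = d'

/-- The graph on `U` in which `A` is joined to everything and the other edges are those of the
map. -/
def cone (vtx : Dart E → V) (A U : Finset V) : SimpleGraph V where
  Adj a b := a ≠ b ∧ a ∈ U ∧ b ∈ U ∧ (a ∈ A ∨ b ∈ A ∨ ∃ d, vtx d = a ∧ vtx (fl d) = b)
  symm := ⟨fun a b ⟨h1, h2, h3, h4⟩ => ⟨h1.symm, h3, h2, h4.elim (fun h => .inr (.inl h)) fun h =>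
    h.elim .inl fun ⟨d, e1, e2⟩ => .inr (.inr ⟨fl d, e2, by simpa [fl] using e1⟩)⟩⟩
  loopless := ⟨fun _ h => h.1 rfl⟩

variable [Fintype E] [DecidableEq E]

/-- Cycles modulo sums of faces have dimension at most `γ`. -/
def Gen (τ : Flag E → Flag E) (γ : ℕ) : Prop :=
  ∃ Y : Fin γ → Vec E, ∀ c ∈ Euler.perp (Euler.Cut τ true), (∀ i, c ⬝ᵥ Y i = 0) →
    c ∈ Euler.Cut τ false

/-- The crossing matrix of paths and dual cycles in the double cover. -/
def Gad (τ : Flag E → Flag E) (φ : Vec E) (N : ℝ) : Prop :=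
  NR (fun i : E × Vec (E × Z2) => ∀ d, (∀ d' ∈ gcl (cov τ φ) ∅ true d, d'.1.1 ≠ i.1) →
      i.2 ⬝ᵥ st (gcl (cov τ φ) ∅ true d) = 0)
    (fun D : Vec (E × Z2) => ∀ d, D ⬝ᵥ st (gcl (cov τ φ) ∅ false d) = 0)
    (fun i D => cnt i.2 D - val (i.2 ⬝ᵥ D)) N

/-- A connected simple map without pendant edges in which every clique with more than two
vertices is a triangle that bounds a face. -/
structure Fac [Fintype V] [DecidableEq V] (τ : Flag E → Flag E) (vtx : Dart E → V) : Prop where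
  map : IsMap τ
  hv : ∀ d d', vtx d = vtx d' ↔ Sec τ ∅ true d d'
  surj : Function.Surjective vtx
  conn : ∀ a b, Link (fun e i => vtx (e, i)) (fun _ => True) a b
  hm : ∀ e e', Link (med τ) (fun _ => True) e e'
  simp : Simp vtx
  pend : ∀ x, (τ x).1 ≠ x.1
  tri : ∀ β : Finset V, (cone vtx ∅ univ).IsClique (β : Set V) → 3 ≤ β.card → β.card = 3 ∧
    ∃ f ∈ Euler.Fs τ false, (∀ e, f (e, false) + f (e, true) = iz (Ins vtx β e)) ∧
      ∀ d, f d ≠ 0 → Ins vtx β d.1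

end Map

/-- The gadget bound for all maps of genus at most `γ` with at most `m` edges. -/
def GH (γ m : ℕ) (L : ℝ) : Prop :=
  ∀ (E : Type) [Fintype E] [DecidableEq E] (τ : Flag E → Flag E), IsMap τ →
    (∀ e e', Link (med τ) (fun _ => True) e e') →
    Fintype.card E + 2 ≤ nCl τ true + nCl τ false + γ → Fintype.card E ≤ m → ∀ φ : Vec E,
    (∀ d, φ ⬝ᵥ st (gcl τ ∅ false d) = 0) → φ ∉ Euler.Cut τ true → Gad τ φ (L * Fintype.card E)

/-- Sum: the bound passes to clique sums. -/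
def SumStmt : Prop := ∀ (V : Type) [Fintype V] [DecidableEq V] [Nonempty V] (ω : ℕ) (L : ℝ)
    (U₁ U₂ : Finset V) (G₁ G₂ : SimpleGraph V), JB ω L U₁ G₁ → JB ω L U₂ G₂ →
    G₁.IsClique ((U₁ ∩ U₂ : Finset V) : Set V) → G₂.IsClique ((U₁ ∩ U₂ : Finset V) : Set V) →
    JB ω L (U₁ ∪ U₂) (G₁ ⊔ G₂)

/-- Root: the rows that know a root in every component they are asked about. -/
def RootStmt : Prop := ∀ (V : Type) [Fintype V] [DecidableEq V] [Nonempty V] (ω : ℕ)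
    (U K : Finset V) (G : SimpleGraph V), K ⊆ U → (∀ β ∈ cliq U G, β.card ≤ ω) →
    NR (fun S : Finset V => S ⊆ U) (HC U G) (fun S x => ent K (S, true) x)
      (2 ^ K.card * ((U.card : ℝ) + ω * (cliq U G).card))

/-- Base: the bound for one piece. -/
def BaseStmt : Prop := ∀ (V : Type) [Fintype V] [DecidableEq V] [Nonempty V] (ω : ℕ) (L N : ℝ)
    (U : Finset V) (G : SimpleGraph V), (∀ a b, G.Adj a b → a ∈ U) →
    (∀ β ∈ cliq U G, β.card ≤ ω) → MB U G N → 0 ≤ L →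
    (U.Nonempty → N + 2 ^ ω * ((U.card : ℝ) + ω * (cliq U G).card) ≤ L * U.card) →
    JB ω ((ω + 1) * (L + 2 ^ (ω + 1))) U G

/-- Apex: removing the apices. -/
def ApexStmt : Prop := ∀ (V X : Type) [Fintype V] [DecidableEq V] [Nonempty V] [Fintype X]
    [DecidableEq X] [Nonempty X] (ι : X → V) (A U : Finset V) (G : SimpleGraph V)
    (P : SimpleGraph X) (ω : ℕ) (N : ℝ), Function.Injective ι → A ⊆ U →
    (∀ v ∈ U, v ∈ A ∨ ∃ a, ι a = v) → (∀ a b, G.Adj (ι a) (ι b) → P.Adj a b) →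
    (∀ β ∈ cliq univ P, β.card ≤ ω) → MB univ P N →
    (∀ β ∈ cliq U G, β.card ≤ A.card + ω) ∧
    (cliq U G).card ≤ 2 ^ A.card * (cliq univ P).card ∧
    MB U G (N + A.card * (2 * ((U.card : ℝ) + (A.card + ω : ℕ) * (cliq U G).card)))

/-- Sub: submaps, and their genus. -/
def SubStmt : Prop := ∀ (E V : Type) [Fintype E] [DecidableEq E] (τ : Flag E → Flag E)
    (vtx : Dart E → V) (keep : E → Prop) [DecidablePred keep], IsMap τ →
    (∀ d d', vtx d = vtx d' ↔ Sec τ ∅ true d d') →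
    ∃ τ' : Flag {e // keep e} → Flag {e // keep e}, IsMap τ' ∧
      (∀ d d' : Dart {e // keep e}, vtx (d.1.1, d.2) = vtx (d'.1.1, d'.2) ↔ Sec τ' ∅ true d d') ∧
      (∀ γ, Gen τ γ → Gen τ' γ) ∧
      ∀ γ (φ c : Vec E), Gen τ γ → φ ∈ Euler.perp (Euler.Cut τ false) →
        c ∈ Euler.perp (Euler.Cut τ true) → c ⬝ᵥ φ = 1 → (∀ e, keep e → φ e = 0) →
        ∃ γ', γ = γ' + 1 ∧ Gen τ' γ'

/-- Eul: the genus in terms of the Euler characteristic. -/
def EulStmt : Prop := ∀ (E : Type) [Fintype E] [DecidableEq E] (τ : Flag E → Flag E) (γ : ℕ),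
    IsMap τ → (Nonempty E → Gen τ γ → Fintype.card E + 2 ≤ nCl τ true + nCl τ false + γ) ∧
      ((∀ e e', Link (med τ) (fun _ => True) e e') →
        Fintype.card E + 2 ≤ nCl τ true + nCl τ false + γ → Gen τ γ)

/-- Count: the numbers of edges and of cliques in the facial case. -/
def CountStmt : Prop := ∀ (E X : Type) [Fintype E] [DecidableEq E] [Fintype X] [DecidableEq X]
    (τ : Flag E → Flag E) (vtx : Dart E → X) (γ : ℕ), Fac τ vtx →
    Fintype.card E + 2 ≤ nCl τ true + nCl τ false + γ →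
    Fintype.card E ≤ 3 * (Fintype.card X + γ) ∧ Fintype.card X ≤ 2 * Fintype.card E ∧
      (cliq univ (cone vtx ∅ univ)).card ≤ 1 + 6 * Fintype.card E ∧
      ∀ β : Finset X, (cone vtx ∅ univ).IsClique (β : Set X) → β.card = 3 → ∃ d, ∀ v,
        v ∈ β ↔ ∃ d' ∈ gcl τ ∅ false d, ∃ i, vtx (d'.1, i) = v

/-- The columns that are hypertrees. -/
def HT {E X : Type} [Fintype X] [DecidableEq X] (vtx : Dart E → X) (H : Finset (Finset X)) :
    Prop :=
  (∀ β ∈ H, (cone vtx ∅ univ).IsClique (β : Set X) ∧ 2 ≤ β.card) ∧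
    ∀ y, ∃ dep, Ord H dep ∧ ∀ v, Root H dep v ↔ v = y

/-- A: rows whose cycles are sums of faces. -/
def AStmt : Prop := ∀ (E X : Type) [Fintype E] [DecidableEq E] [Fintype X] [DecidableEq X]
    [Nonempty X] (τ : Flag E → Flag E) (vtx : Dart E → X) (d₀ : Dart E), Fac τ vtx →
    (∀ β : Finset X, (cone vtx ∅ univ).IsClique (β : Set X) → β.card = 3 → ∃ d, ∀ v,
        v ∈ β ↔ ∃ d' ∈ gcl τ ∅ false d, ∃ i, vtx (d'.1, i) = v) →
    NR (fun K => KC vtx (vtx d₀) K ∧ Kᶜ.Nonempty ∧ CaseA τ vtx K) (HT vtx)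
      (fun K H => cc Kᶜ H - 1) (1 + 3 * Fintype.card E)

/-- B: rows that avoid a dual cycle which is not a cut. -/
def BStmt : Prop := ∀ (E X : Type) [Fintype E] [DecidableEq E] [Fintype X] [DecidableEq X]
    [Nonempty X] (τ : Flag E → Flag E) (vtx : Dart E → X) (φ : Vec E) (r : X) (N : ℝ),
    Fac τ vtx → (∀ d, φ ⬝ᵥ st (gcl τ ∅ false d) = 0) →
    (∀ t : X → Z2, ∃ e, φ e ≠ t (vtx (e, false)) + t (vtx (e, true))) → Gad τ φ N →
    NR (fun K : Finset X => ∃ f : X → Z2, r ∈ K ∧ f r = 0 ∧ ∀ e, vtx (e, false) ∈ K →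
        vtx (e, true) ∈ K → φ e = f (vtx (e, false)) + f (vtx (e, true))) (HT vtx)
      (fun K H => cc Kᶜ H - 1) (40 * (cliq univ (cone vtx ∅ univ)).card + N)

/-- Fac: the slack matrix in the facial case. -/
def FacStmt : Prop := ∀ (E X : Type) [Fintype E] [DecidableEq E] [Fintype X] [DecidableEq X]
    [Nonempty X] (τ : Flag E → Flag E) (vtx : Dart E → X) (γ m : ℕ) (L : ℝ), Fac τ vtx →
    Fintype.card E + 2 ≤ nCl τ true + nCl τ false + γ → Fintype.card E ≤ m → GH γ m L → 0 ≤ L →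
    MB univ (cone vtx ∅ univ) (2 ^ γ * (400 + L) * Fintype.card E)

/-- Piece: the bound in the facial case, with apices. -/
def TopStmt : Prop := ∀ k : ℕ, ∃ c : ℝ, 0 ≤ c ∧ ∀ (V : Type) [Fintype V] [DecidableEq V]
    [Nonempty V] (L : ℝ), 0 ≤ L → ∀ (A U : Finset V),
    (∀ G : SimpleGraph V, (∀ a b, G.Adj a b → a ∈ U) → U.card ≤ k + 4 →
      JB (k + 4) (c * (1 + L)) U G) ∧
    ∀ (E X : Type) [Fintype E] [DecidableEq E] [Fintype X] [DecidableEq X] [Nonempty X]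
      (τ : Flag E → Flag E) (vtx : Dart E → X) (ι : X → V) (γ m : ℕ), Fac τ vtx → Gen τ γ →
      γ ≤ k → Fintype.card E ≤ m → GH γ m L → Function.Injective ι → A ⊆ U → A.card ≤ k →
      (∀ a, ι a ∈ U ∧ ι a ∉ A) → (∀ v ∈ U, v ∈ A ∨ ∃ a, ι a = v) →
      JB (k + 4) (c * (1 + L)) U (cone (fun d => ι (vtx d)) A U)

/-- Cone: the bound for a map with apices. -/
def ConeStmt : Prop := ∀ k : ℕ, ∃ c : ℝ, 0 ≤ c ∧ ∀ (V : Type) [Fintype V] [DecidableEq V]
    [Nonempty V] (L : ℝ) (γ₀ : ℕ), 0 ≤ L → γ₀ ≤ k → GH γ₀ (Fintype.card V ^ 2) L →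
    (∀ (U : Finset V) (G : SimpleGraph V), (∀ a b, G.Adj a b → a ∈ U) → U.card ≤ k + 4 →
      JB (k + 4) (c * (1 + L)) U G) ∧
    ∀ (E : Type) [Fintype E] [DecidableEq E] (τ : Flag E → Flag E) (vtx : Dart E → V)
      (A U : Finset V) (γ : ℕ), IsMap τ → (∀ d d', vtx d = vtx d' ↔ Sec τ ∅ true d d') →
      Simp vtx → Gen τ γ → γ ≤ γ₀ → A ⊆ U → A.card + 3 * γ ≤ k → (∀ d, vtx d ∈ U ∧ vtx d ∉ A) →
      JB (k + 4) (c * (1 + L)) U (cone vtx A U)

/-- Fin: the extended formulation. -/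
def FinStmt : Prop := ∀ k γ : ℕ, ∃ c : ℝ, 0 ≤ c ∧ ∀ (n : ℕ) (L : ℝ), 0 ≤ L → GH γ (n ^ 2) L →
    ∀ G : SimpleGraph (Fin n), G.Connected → CliqueSum k γ univ G →
    ∃ (d s : ℕ) (A : Fin s → Fin d → ℝ) (b : Fin s → ℝ)
      (π : (Fin d → ℝ) →ᵃ[ℝ] (Sym2 (Fin n) → ℝ)),
      π '' {y : Fin d → ℝ | ∀ i : Fin s, ∑ j : Fin d, A i j * y j ≤ b i} =
        convexHull ℝ {x : Sym2 (Fin n) → ℝ | ∃ T : SimpleGraph (Fin n),
          T ≤ G ∧ T.IsTree ∧ x = T.edgeSet.indicator (fun _ => (1 : ℝ))} ∧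
      (s : ℝ) ≤ c * (1 + L) * n

end Pool.Agent.Lib.MP_234305_co.Sums
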