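import Pool.Agent.Lib.MP_234305_co.H36Defs

/-! Rectangle cover from an extended formulation of the spanning tree polytope. -/

open Finset

namespace Pool.Agent.Lib.MP_234305_co.LB

namespace CoverAux

open SimpleGraph

theorem acyc_card {V : Type} [Finite V] [Nonempty V] (H : SimpleGraph V) (h : H.IsAcyclic) :
    H.edgeSet.ncard + 1 ≤ Nat.card V ∧ (H.Connected ↔ H.edgeSet.ncard + 1 = Nat.card V) := by
  obtain ⟨F, h1, -, hF⟩ := (connected_top (V := V)).exists_isTree_le_of_le_of_isAcyclic le_top h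
  have h2 := (isTree_iff_connected_and_card.1 hF).2
  rw [Nat.card_coe_set_eq] at h2
  have h3 : H.edgeSet ⊆ F.edgeSet := edgeSet_mono h1
  have h4 := Set.ncard_le_ncard h3 (Set.toFinite _)
  refine ⟨by omega, fun hc => ?_, fun he => ?_⟩
  · have := (isTree_iff_connected_and_card.1 ⟨hc, h⟩).2
    rwa [Nat.card_coe_set_eq] at this
  · have h5 : H.edgeSet = F.edgeSet := Set.eq_of_subset_of_ncard_le h3 (by omega) (Set.toFinite _)
    rw [edgeSet_injective h5]
    exact hF.connected

/-- Sum of the coordinates inside `S`. -/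
noncomputable def ell {n : ℕ} (S : Set (Fin n)) : (Sym2 (Fin n) → ℝ) →ₗ[ℝ] ℝ :=
  ∑ e ∈ (Set.toFinite {e : Sym2 (Fin n) | ∀ v ∈ e, v ∈ S}).toFinset, LinearMap.proj e

theorem ell_ind {n : ℕ} (S : Set (Fin n)) (T : SimpleGraph (Fin n)) :
    ell S (T.edgeSet.indicator fun _ => (1 : ℝ)) = (T.induce S).edgeSet.ncard := by
  classical
  have h1 : Sym2.map (Subtype.val : S → Fin n) '' (T.induce S).edgeSet =
      {e : Sym2 (Fin n) | ∀ v ∈ e, v ∈ S} ∩ T.edgeSet := by
    ext e
    constructor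
    · rintro ⟨e', he', rfl⟩
      induction e' using Sym2.ind with
      | h a b =>
        refine ⟨fun v hv => ?_, he'⟩
        rcases Sym2.mem_iff.1 hv with rfl | rfl
        · exact a.2
        · exact b.2
    · rintro ⟨h1, h2⟩
      induction e using Sym2.ind with
      | h a b => exact ⟨s(⟨a, h1 a (by simp)⟩, ⟨b, h1 b (by simp)⟩), h2, rfl⟩
  rw [← Set.ncard_image_of_injective _ (Sym2.map.injective (Subtype.val_injective (p := (· ∈ S)))),
    h1]
  simp only [ell, LinearMap.sum_apply, LinearMap.proj_apply, Set.indicator_apply]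
  rw [Finset.sum_boole, Set.ncard_eq_toFinset_card _ (Set.toFinite _)]
  congr 2
  ext e
  simp only [Finset.mem_filter, Set.Finite.mem_toFinset]
  exact Iff.rfl

theorem face {E : Type} [AddCommGroup E] [Module ℝ E] {k : ℕ} (a : Fin k → E →ₗ[ℝ] ℝ)
    (b : Fin k → ℝ) (F : E →ₗ[ℝ] ℝ) (M : ℝ) (hM : ∀ p, (∀ i, a i p ≤ b i) → F p ≤ M)
    (y z : E) (hy : ∀ i, a i y ≤ b i) (hz : ∀ i, a i z ≤ b i) (hz' : F z = M)
    (h : ∀ i, a i y = b i ∨ ∃ w, (∀ i, a i w ≤ b i) ∧ F w = M ∧ a i w < b i) : M ≤ F y := by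
  classical
  have key : ∀ I : Finset (Fin k), ∃ w, (∀ i, a i w ≤ b i) ∧ F w = M ∧ ∃ ε : ℝ, 0 < ε ∧
      ∀ i ∈ I, ε * (b i - a i y) ≤ b i - a i w := by
    intro I
    induction I using Finset.induction_on with
    | empty => exact ⟨z, hz, hz', 1, one_pos, by simp⟩
    | insert i I _ ih =>
      obtain ⟨w, hw, hw', ε, hε, hI⟩ := ih
      rcases h i with hi | ⟨u, hu, hu', hi⟩
      · refine ⟨w, hw, hw', ε, hε, fun j hj => ?_⟩
        rcases Finset.mem_insert.1 hj with rfl | hj
        · have := hw j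
          rw [hi]
          linarith
        · exact hI j hj
      · have hs : 0 < b i - a i y + 1 := by linarith [hy i]
        have hδ : 0 < (b i - a i u) / (b i - a i y + 1) := div_pos (by linarith) hs
        have hδ' : (b i - a i u) / (b i - a i y + 1) * (b i - a i y + 1) = b i - a i u :=
          div_mul_cancel₀ _ hs.ne'
        set δ := (b i - a i u) / (b i - a i y + 1)
        refine ⟨(1 / 2 : ℝ) • (w + u), fun j => ?_, ?_, min ε δ / 2,
          half_pos (lt_min hε hδ), fun j hj => ?_⟩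
        · rw [map_smul, map_add, smul_eq_mul]
          linarith [hw j, hu j]
        · rw [map_smul, map_add, smul_eq_mul, hw', hu']
          ring
        · rw [map_smul, map_add, smul_eq_mul]
          have h0 : 0 ≤ b j - a j y := by linarith [hy j]
          rcases Finset.mem_insert.1 hj with rfl | hj
          · have := mul_le_mul_of_nonneg_right (min_le_right ε δ) h0
            nlinarith [hw j]
          · have := mul_le_mul_of_nonneg_right (min_le_left ε δ) h0
            nlinarith [hu j, hI j hj]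
  obtain ⟨w, hw, hw', ε, hε, hI⟩ := key Finset.univ
  have h1 := hM (w + ε • (w - y)) fun i => by
    rw [map_add, map_smul, map_sub, smul_eq_mul]
    have h2 := hI i (Finset.mem_univ i)
    have h3 := mul_nonneg hε.le (sub_nonneg.2 (hw i))
    nlinarith
  rw [map_add, map_smul, map_sub, smul_eq_mul, hw'] at h1
  have h2 : ε * (M - F y) ≤ ε * 0 := by linarith
  have := le_of_mul_le_mul_left h2 hε
  linarith

end CoverAux

open CoverAux

theorem cover : CoverStmt := by
  classical
  intro n G d k A b π hπ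
  have hex : ∀ T : SimpleGraph (Fin n), ∃ y : Fin d → ℝ, T ≤ G → T.IsTree →
      (∀ i : Fin k, ∑ j : Fin d, A i j * y j ≤ b i) ∧
        π y = T.edgeSet.indicator (fun _ => (1 : ℝ)) := by
    intro T
    by_cases hT : T ≤ G ∧ T.IsTree
    · have : T.edgeSet.indicator (fun _ => (1 : ℝ)) ∈
          π '' {y : Fin d → ℝ | ∀ i : Fin k, ∑ j : Fin d, A i j * y j ≤ b i} := by
        rw [hπ]
        exact subset_convexHull ℝ _ ⟨T, hT.1, hT.2, rfl⟩
      obtain ⟨y, hy, hy'⟩ := this
      exact ⟨y, fun _ _ => ⟨hy, hy'⟩⟩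
    · exact ⟨0, fun h1 h2 => absurd ⟨h1, h2⟩ hT⟩
  choose y hy using hex
  refine ⟨fun i S => ∀ T₀ : SimpleGraph (Fin n), T₀ ≤ G → T₀.IsTree → (T₀.induce S).Connected →
      ∑ j : Fin d, A i j * y T₀ j = b i,
    fun i T => T ≤ G ∧ T.IsTree ∧ ∑ j : Fin d, A i j * y T j < b i,
    fun i S T hS hT hc => hT.2.2.ne (hS T hT.1 hT.2.1 hc), ?_⟩
  intro S T T₀ hT hT' hT₀ hT₀' hc hn
  by_contra hno
  have : Nonempty S := hc.nonempty
  let a : Fin k → (Fin d → ℝ) →ₗ[ℝ] ℝ := fun i => ∑ j : Fin d, A i j • LinearMap.proj j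
  have ha : ∀ i p, a i p = ∑ j : Fin d, A i j * p j := fun i p => by
    simp [a, LinearMap.sum_apply]
  let F : (Fin d → ℝ) →ₗ[ℝ] ℝ := (ell S).comp π.linear
  have hF : ∀ p, F p = ell S (π p) - ell S (π 0) := fun p => by
    have := π.linearMap_vsub p 0
    rw [vsub_eq_sub, vsub_eq_sub, sub_zero] at this
    simp only [F, LinearMap.comp_apply, this, map_sub]
  have htree : ∀ U : SimpleGraph (Fin n), U.IsTree →
      ell S (U.edgeSet.indicator fun _ => (1 : ℝ)) ≤ (Nat.card S : ℝ) - 1 ∧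
      ((U.induce S).Connected ↔
        ell S (U.edgeSet.indicator fun _ => (1 : ℝ)) = (Nat.card S : ℝ) - 1) := by
    intro U hU
    obtain ⟨h1, h2⟩ := acyc_card (U.induce S) (hU.isAcyclic.induce S)
    rw [ell_ind, h2, le_sub_iff_add_le, eq_sub_iff_add_eq]
    exact ⟨by exact_mod_cast h1, by norm_cast⟩
  have hzero : ∀ U : SimpleGraph (Fin n), U ≤ G → U.IsTree → (U.induce S).Connected →
      F (y U) = (Nat.card S : ℝ) - 1 - ell S (π 0) := fun U h1 h2 h3 => by
    rw [hF, (hy U h1 h2).2, (htree U h2).2.1 h3]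
  have hfin := face a b F ((Nat.card S : ℝ) - 1 - ell S (π 0)) (fun p hp => by
      have h1 : π p ∈ π '' {y : Fin d → ℝ | ∀ i : Fin k, ∑ j : Fin d, A i j * y j ≤ b i} :=
        ⟨p, fun i => by rw [← ha]; exact hp i, rfl⟩
      rw [hπ] at h1
      have h2 : π p ∈ {x | ell S x ≤ (Nat.card S : ℝ) - 1} := by
        refine convexHull_min ?_ (convex_halfSpace_le (ell S).isLinear _) h1
        rintro x ⟨U, -, hU, rfl⟩
        exact (htree U hU).1
      rw [hF]
      exact sub_le_sub_right h2 _)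
    (y T) (y T₀) (fun i => by rw [ha]; exact (hy T hT hT').1 i)
    (fun i => by rw [ha]; exact (hy T₀ hT₀ hT₀').1 i) (hzero T₀ hT₀ hT₀' hc) (fun i => by
      rcases ((hy T hT hT').1 i).eq_or_lt with h1 | h1
      · exact Or.inl (by rw [ha]; exact h1)
      · by_contra h2
        refine hno ⟨i, fun U hU hU' hUc => ?_, hT, hT', h1⟩
        by_contra h3
        refine h2 (Or.inr ⟨y U, fun j => by rw [ha]; exact (hy U hU hU').1 j,
          hzero U hU hU' hUc, ?_⟩)
        rw [ha]
        exact lt_of_le_of_ne ((hy U hU hU').1 i) h3)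
  rw [hF, (hy T hT hT').2] at hfin
  exact hn ((htree T hT').2.2 (le_antisymm (htree T hT').1 (by linarith)))

end Pool.Agent.Lib.MP_234305_co.LB
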