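import Pool.Agent.Lib.MP_234305_co.H36Defs

/-! Spanning trees of a clique minor lift to spanning trees of the host graph. -/

namespace Pool.Agent.Lib.MP_234305_co.LB

namespace LiftAux

variable {V : Type}

/-- Every property that passes along the edges inside `S` passes between all points of `S`. -/
def Cn (K : SimpleGraph V) (S : Set V) : Prop :=
  ∀ P : V → Prop, (∀ a b, a ∈ S → b ∈ S → K.Adj a b → P a → P b) →
    ∀ a ∈ S, ∀ b ∈ S, P a → P b

theorem reach_ind {K : SimpleGraph V} {P : V → Prop} (h : ∀ a b, K.Adj a b → P a → P b)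
    {a b : V} (r : K.Reachable a b) (ha : P a) : P b := by
  rw [SimpleGraph.reachable_iff_reflTransGen] at r
  induction r with
  | refl => exact ha
  | tail _ h2 ih => exact h _ _ h2 ih

theorem conn_iff (K : SimpleGraph V) (S : Set V) :
    (K.induce S).Connected ↔ S.Nonempty ∧ Cn K S := by
  constructor
  · intro h
    obtain ⟨x⟩ := h.nonempty
    refine ⟨⟨x.1, x.2⟩, fun P hP a ha b hb pa => ?_⟩
    exact reach_ind (K := K.induce S) (P := fun y => P y.1)
      (fun y z hyz py => hP y.1 z.1 y.2 z.2 hyz py) (h.preconnected ⟨a, ha⟩ ⟨b, hb⟩) pa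
  · rintro ⟨⟨x, hx⟩, h⟩
    rw [SimpleGraph.connected_iff_exists_forall_reachable]
    refine ⟨⟨x, hx⟩, fun y => ?_⟩
    have := h (fun b => ∃ hb : b ∈ S, (K.induce S).Reachable ⟨x, hx⟩ ⟨b, hb⟩)
      (fun a b ha hb hab pa => by
        obtain ⟨_, r⟩ := pa
        exact ⟨hb, r.trans (SimpleGraph.Adj.reachable (G := K.induce S) hab)⟩)
      x hx y.1 y.2 ⟨hx, SimpleGraph.Reachable.refl _⟩
    exact this.2

theorem cn_insert {K : SimpleGraph V} {S : Set V} {a b : V} (h : Cn K S) (ha : a ∈ S)
    (hab : K.Adj a b) : Cn K (insert b S) := by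
  intro P hP x hx y hy px
  have hS := h P fun u v hu hv => hP u v (Set.mem_insert_of_mem _ hu) (Set.mem_insert_of_mem _ hv)
  have pa : P a := by
    rcases hx with rfl | hx
    · exact hP _ _ (Set.mem_insert _ _) (Set.mem_insert_of_mem _ ha) hab.symm px
    · exact hS x hx a ha px
  rcases hy with rfl | hy
  · exact hP _ _ (Set.mem_insert_of_mem _ ha) (Set.mem_insert _ _) hab pa
  · exact hS a ha y hy pa

theorem extend {n t : ℕ} {G : SimpleGraph (Fin n)} (hG : G.Connected) (ht : 0 < t) (k : ℕ) :
    ∀ f : Fin n → Option (Fin t), (Finset.univ.filter fun v => f v = none).card ≤ k →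
      (∀ w, {v | f v = some w}.Nonempty ∧ Cn G {v | f v = some w}) →
      ∃ g : Fin n → Fin t, (∀ v w, f v = some w → g v = w) ∧ ∀ w, Cn G {v | g v = w} := by
  have base : ∀ f : Fin n → Option (Fin t), (∀ v, f v ≠ none) →
      (∀ w, {v | f v = some w}.Nonempty ∧ Cn G {v | f v = some w}) →
      ∃ g : Fin n → Fin t, (∀ v w, f v = some w → g v = w) ∧ ∀ w, Cn G {v | g v = w} := by
    intro f h1 h2
    choose g hg using fun v => Option.ne_none_iff_exists'.1 (h1 v)
    refine ⟨g, fun v w e => Option.some.inj ((hg v).symm.trans e), fun w => ?_⟩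
    have e : {v | g v = w} = {v | f v = some w} := by
      ext v
      simp [hg v]
    rw [e]
    exact (h2 w).2
  induction k with
  | zero =>
    intro f h1 h2
    refine base f (fun v e => ?_) h2
    have : 0 < (Finset.univ.filter fun v => f v = none).card :=
      Finset.card_pos.2 ⟨v, by simp [e]⟩
    omega
  | succ k ih =>
    intro f h1 h2
    by_cases hn : ∀ v, f v ≠ none
    · exact base f hn h2
    have hab : ∃ a b, G.Adj a b ∧ f a ≠ none ∧ f b = none := by
      by_contra hc
      apply hn
      intro v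
      obtain ⟨x, hx⟩ := (h2 ⟨0, ht⟩).1
      refine reach_ind (K := G) (P := fun y => f y ≠ none)
        (fun a b h3 h4 h5 => hc ⟨a, b, h3, h4, h5⟩) (hG.preconnected x v) ?_
      have hx' : f x = some ⟨0, ht⟩ := hx
      simp [hx']
    obtain ⟨a, b, h3, h4, h5⟩ := hab
    obtain ⟨w0, hw0⟩ := Option.ne_none_iff_exists'.1 h4
    have hcard : (Finset.univ.filter fun v => Function.update f b (some w0) v = none).card ≤ k := by
      have hsub : (Finset.univ.filter fun v => Function.update f b (some w0) v = none) ⊆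
          (Finset.univ.filter fun v => f v = none).erase b := by
        intro v hv
        rw [Finset.mem_filter] at hv
        have hvb : v ≠ b := by
          rintro rfl
          simp at hv
        rw [Function.update_of_ne hvb] at hv
        exact Finset.mem_erase.2 ⟨hvb, Finset.mem_filter.2 hv⟩
      have h6 := Finset.card_le_card hsub
      rw [Finset.card_erase_of_mem (by simp [h5])] at h6
      omega
    obtain ⟨g, g1, g2⟩ := ih (Function.update f b (some w0)) hcard (fun w => by
      by_cases hw : w = w0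
      · have e : {v | Function.update f b (some w0) v = some w} = insert b {v | f v = some w} := by
          ext v
          by_cases hv : v = b
          · simp [hv, hw]
          · simp [hv]
        rw [e]
        exact ⟨Set.insert_nonempty _ _, cn_insert (h2 w).2 (by rw [hw]; exact hw0) h3⟩
      · have e : {v | Function.update f b (some w0) v = some w} = {v | f v = some w} := by
          ext v
          by_cases hv : v = b
          · simp [hv, h5, Ne.symm hw]
          · simp [hv]
        rw [e]
        exact h2 w)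
    refine ⟨g, fun v w e => g1 v w ?_, g2⟩
    have hv : v ≠ b := by
      rintro rfl
      rw [h5] at e
      cases e
    rw [Function.update_of_ne hv, e]

/-- The edges of `G` whose ends have related images. -/
def sub {W : Type} (G : SimpleGraph V) (g : V → W) (T : SimpleGraph W) : SimpleGraph V where
  Adj u v := G.Adj u v ∧ (g u = g v ∨ T.Adj (g u) (g v))
  symm := ⟨fun _ _ h => ⟨h.1.symm, h.2.imp Eq.symm SimpleGraph.Adj.symm⟩⟩
  loopless := ⟨fun _ h => G.irrefl h.1⟩

end LiftAux

open LiftAux in
theorem lift : LiftStmt := by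
  intro n t G hG ht f h1 h2
  have h1' := fun w => (conn_iff G _).1 (h1 w)
  obtain ⟨g, g1, g2⟩ := extend hG ht _ f le_rfl h1'
  have hsurj : ∀ w, ∃ v, g v = w := fun w => by
    obtain ⟨v, hv⟩ := (h1' w).1
    exact ⟨v, g1 v w hv⟩
  obtain ⟨F, F1, F2, F3⟩ := (sub G g ⊥).exists_isAcyclic_reachable_eq_le
  have hF : ∀ u v, F.Adj u v → G.Adj u v ∧ g u = g v := fun u v h =>
    ⟨(F1 h).1, (F1 h).2.resolve_right (fun h' => h')⟩
  have hfib : ∀ (P : Fin n → Prop) (u v : Fin n), g u = g v →
      (∀ a b, g a = g u → g b = g u → F.Adj a b → P a → P b) → P u → P v := by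
    intro P u v e hP pu
    have r : (sub G g ⊥).Reachable u v :=
      g2 (g u) (fun x => (sub G g ⊥).Reachable u x) (fun a b ha hb hab ra => ra.trans
        (SimpleGraph.Adj.reachable (G := sub G g ⊥)
          ⟨hab, Or.inl ((show g a = g u from ha).trans (show g b = g u from hb).symm)⟩))
        u rfl v e.symm (SimpleGraph.Reachable.refl _)
    rw [← F3] at r
    exact (reach_ind (K := F) (P := fun x => g x = g u ∧ P x) (fun a b hab pa =>
      ⟨(hF a b hab).2.symm.trans pa.1,
        hP a b pa.1 ((hF a b hab).2.symm.trans pa.1) hab pa.2⟩) r ⟨rfl, pu⟩).2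
  refine ⟨g, fun T hT => ?_⟩
  have FH : F ≤ sub G g T := fun u v h => ⟨(hF u v h).1, Or.inl (hF u v h).2⟩
  have hH : (sub G g T).Connected := by
    obtain ⟨x⟩ := hG.nonempty
    rw [SimpleGraph.connected_iff_exists_forall_reachable]
    refine ⟨x, fun y => ?_⟩
    have hf : ∀ u v, g u = g v → (sub G g T).Reachable x u → (sub G g T).Reachable x v :=
      fun u v e => hfib (fun z => (sub G g T).Reachable x z) u v e
        fun a b _ _ hab ra => ra.trans (SimpleGraph.Adj.reachable (FH hab))
    obtain ⟨u, e, r⟩ := reach_ind (K := T)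
      (P := fun w => ∃ u, g u = w ∧ (sub G g T).Reachable x u) (fun w w' hw pw => by
        obtain ⟨u, e, r⟩ := pw
        obtain ⟨a, b, fa, fb, hab⟩ := h2 w w' hw.ne
        have ga := g1 a w fa
        have gb := g1 b w' fb
        refine ⟨b, gb, (hf u a (e.trans ga.symm) r).trans
          (SimpleGraph.Adj.reachable (G := sub G g T) ⟨hab, Or.inr ?_⟩)⟩
        rw [ga, gb]
        exact hw)
      (hT.connected.preconnected (g x) (g y)) ⟨x, rfl, SimpleGraph.Reachable.refl _⟩
    exact hf u y e r
  obtain ⟨T', T1, T2, T3⟩ := hH.exists_isTree_le_of_le_of_isAcyclic FH F2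
  have hreal : ∀ w w', T.Adj w w' → ∃ a b, g a = w ∧ g b = w' ∧ T'.Adj a b := by
    intro w w' hw
    by_contra hc
    have hb := SimpleGraph.isAcyclic_iff_forall_adj_isBridge.1 hT.isAcyclic hw
    rw [SimpleGraph.isBridge_iff] at hb
    apply hb
    obtain ⟨u, hu⟩ := hsurj w
    obtain ⟨v, hv⟩ := hsurj w'
    have := reach_ind (K := T') (P := fun z => (T.deleteEdges {s(w, w')}).Reachable w (g z))
      (fun a b hab ra => by
        rcases (T2 hab).2 with e | e
        · rw [← e]
          exact ra
        · refine ra.trans (SimpleGraph.Adj.reachable ?_)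
          rw [SimpleGraph.deleteEdges_adj]
          refine ⟨e, fun e' => hc ?_⟩
          rw [Set.mem_singleton_iff, Sym2.eq_iff] at e'
          rcases e' with e' | e'
          · exact ⟨a, b, e'.1, e'.2, hab⟩
          · exact ⟨b, a, e'.2, e'.1, hab.symm⟩)
      (T3.connected.preconnected u v) (by rw [hu])
    rwa [hv] at this
  refine ⟨T', fun u v h => (T2 h).1, T3, fun S => ?_⟩
  rw [conn_iff, conn_iff]
  constructor
  · rintro ⟨⟨x, hx⟩, h⟩
    refine ⟨⟨g x, hx⟩, fun P hP w hw w' hw' pw => ?_⟩
    obtain ⟨u, rfl⟩ := hsurj w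
    obtain ⟨v, rfl⟩ := hsurj w'
    refine h (fun z => P (g z)) (fun a b ha hb hab pa => ?_) u hw v hw' pw
    rcases (T2 hab).2 with e | e
    · rw [← e]
      exact pa
    · exact hP _ _ ha hb e pa
  · rintro ⟨⟨w0, hw0⟩, h⟩
    obtain ⟨x, rfl⟩ := hsurj w0
    refine ⟨⟨x, hw0⟩, fun P hP u hu v hv pu => ?_⟩
    have hf : ∀ a b, g a ∈ S → g a = g b → P a → P b := fun a b ha e =>
      hfib P a b e fun c d hc hd hcd => hP c d (by rw [Set.mem_preimage, hc]; exact ha)
        (by rw [Set.mem_preimage, hd]; exact ha) (T1 hcd)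
    obtain ⟨z, e, pz⟩ := h (fun w => ∃ z, g z = w ∧ P z) (fun w w' hw hw' hww pw => by
      obtain ⟨z, e, pz⟩ := pw
      obtain ⟨a, b, ga, gb, hab⟩ := hreal w w' hww
      refine ⟨b, gb, hP a b (by rw [Set.mem_preimage, ga]; exact hw)
        (by rw [Set.mem_preimage, gb]; exact hw') hab (hf z a (by rw [e]; exact hw)
          (e.trans ga.symm) pz)⟩) (g u) hu (g v) hv ⟨u, rfl, pu⟩
    exact hf z v (by rw [e]; exact hv) e pz

end Pool.Agent.Lib.MP_234305_co.LB
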