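import Pool.Agent.Lib.MP_234305_co.H36Defs

/-! The numerical estimate. -/

namespace Pool.Agent.Lib.MP_234305_co.LB

theorem num_a {R L : ℝ} (hR : 0 < R) (hL : 2 ≤ L) (hLR : L ≤ R ^ 2) (n : ℕ) (hn : (n : ℝ) = R ^ 3) :
    (1 - 1 / (2 * L)) ^ n ≤ Real.exp (-(R / 2)) := by
  have hL0 : 0 < L := by linarith
  have h0 : 0 ≤ 1 - 1 / (2 * L) := by
    rw [sub_nonneg, div_le_one (by linarith)]
    linarith
  have h1 : 1 - 1 / (2 * L) ≤ Real.exp (-(1 / (2 * L))) := by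
    have := Real.add_one_le_exp (-(1 / (2 * L)))
    linarith
  refine (pow_le_pow_left₀ h0 h1 n).trans ?_
  rw [← Real.exp_nat_mul, hn, Real.exp_le_exp, mul_neg, neg_le_neg_iff, mul_one_div,
    div_le_div_iff₀ (by norm_num) (by linarith)]
  nlinarith [mul_le_mul_of_nonneg_left hLR hR.le]

theorem num_b {R L : ℝ} (hR : 2 ≤ R) (hL : 2 ≤ L) (hLR : L ≤ R ^ 2) (m : ℕ)
    (hm : R ^ 8 ≤ m) : (1 + 1 / L) ^ m / (2 : ℝ) ^ (2 * (m : ℝ) / L) ≤ Real.exp (-(R / 2)) := by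
  have hL0 : 0 < L := by linarith
  have hR0 : 0 < R := by linarith
  have h1 : 1 + 1 / L ≤ Real.exp (1 / L) := by
    have := Real.add_one_le_exp (1 / L)
    linarith
  have h2 : (1 + 1 / L) ^ m ≤ Real.exp (m / L) := by
    refine (pow_le_pow_left₀ (by positivity) h1 m).trans ?_
    rw [← Real.exp_nat_mul, mul_one_div]
  have h3 : 2 * R ≤ m / L := by
    rw [le_div_iff₀ hL0]
    have h5 : (2 : ℝ) ≤ R ^ 5 := by
      calc (2 : ℝ) ≤ 2 ^ 5 := by norm_num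
        _ ≤ R ^ 5 := pow_le_pow_left₀ (by norm_num) hR 5
    calc 2 * R * L ≤ R ^ 5 * R * R ^ 2 := by gcongr
      _ = R ^ 8 := by ring
      _ ≤ m := hm
  rw [div_le_iff₀ (by positivity), Real.rpow_def_of_pos (by norm_num), ← Real.exp_add]
  refine h2.trans (Real.exp_le_exp.2 ?_)
  have h4 := Real.log_two_gt_d9
  rw [mul_div_assoc]
  nlinarith

theorem num : NumStmt := by
  refine ⟨2 ^ 26 * (2 ^ 30 * (Nat.factorial 30 : ℝ)), by positivity, ?_⟩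
  intro Λ m z hΛ h1 h2 h3
  obtain ⟨R, hR⟩ : ∃ R : ℝ, R = 2 ^ Λ := ⟨_, rfl⟩
  have hR2 : 2 ≤ R := by
    rw [hR]
    exact le_self_pow₀ (by norm_num) (by omega)
  have hR0 : 0 < R := by linarith
  have h1' : R ^ 8 ≤ m := by
    rw [hR]
    exact_mod_cast h1
  have h2' : (m : ℝ) ≤ 256 * R ^ 8 := by
    have : (m : ℝ) ≤ (2 ^ (Λ + 1)) ^ 8 := by exact_mod_cast h2.le
    rw [pow_succ (2 : ℝ) Λ, ← hR] at this
    linarith [mul_pow R 2 8]
  have hm1 : 1 ≤ m := le_trans (Nat.one_le_pow _ _ (by positivity)) h1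
  have h3' : (z : ℝ) + 1 ≤ 1024 * R ^ 8 := by
    have : z + 1 ≤ 4 * m := by omega
    have : (z : ℝ) + 1 ≤ 4 * m := by exact_mod_cast this
    linarith
  refine ⟨Real.exp (-(R / 2)), (Real.exp_pos _).le, fun L hL hLR => ?_, ?_⟩
  · have hL' : (2 : ℝ) ≤ L := by exact_mod_cast hL
    have hLR' : (L : ℝ) ≤ R ^ 2 := by
      rw [hR]
      exact_mod_cast hLR
    exact ⟨num_a hR0 hL' hLR' _ (by rw [hR]; push_cast; rfl), num_b hR2 hL' hLR' m h1'⟩
  · rw [← hR]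
    have h4 := Real.pow_div_factorial_le_exp (R / 2) (by positivity) 30
    have h5 : R ^ 30 * Real.exp (-(R / 2)) ≤ 2 ^ 30 * (Nat.factorial 30 : ℝ) := by
      rw [Real.exp_neg, ← div_eq_mul_inv, div_le_iff₀ (Real.exp_pos _)]
      rw [div_le_iff₀ (by positivity), div_pow, div_le_iff₀ (by positivity)] at h4
      linarith
    calc (m : ℝ) ^ 2 * (z + 1) * R ^ 6 * Real.exp (-(R / 2))
        ≤ (256 * R ^ 8) ^ 2 * (1024 * R ^ 8) * R ^ 6 * Real.exp (-(R / 2)) := by gcongr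
      _ = 2 ^ 26 * (R ^ 30 * Real.exp (-(R / 2))) := by ring
      _ ≤ _ := by gcongr

end Pool.Agent.Lib.MP_234305_co.LB
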