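import Pool.Agent.Lib.MP_234305_co.H36Defs

/-! The subdivided double stars and their four kinds of entries. -/

namespace Pool.Agent.Lib.MP_234305_co.LB

namespace StarAux

open SimpleGraph

variable {X : Type}

theorem conn_of_rank (G : SimpleGraph X) (r : X) (h : X → ℕ)
    (hp : ∀ x, x ≠ r → ∃ y, G.Adj x y ∧ h y < h x) : G.Connected := by
  have key : ∀ n x, h x < n → G.Reachable x r := by
    intro n
    induction n with
    | zero => intro x hx; omega
    | succ n ih =>
      intro x hx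
      by_cases hxr : x = r
      · rw [hxr]
      · obtain ⟨y, h1, h2⟩ := hp x hxr
        exact h1.reachable.trans (ih y (by omega))
  haveI : Nonempty X := ⟨r⟩
  exact ⟨fun x y => (key _ x (Nat.lt_succ_self _)).trans (key _ y (Nat.lt_succ_self _)).symm⟩

theorem conn_induce (G : SimpleGraph X) (S : Set X) (r : X) (hr : r ∈ S) (h : X → ℕ)
    (hp : ∀ x ∈ S, x ≠ r → ∃ y ∈ S, G.Adj x y ∧ h y < h x) : (G.induce S).Connected := by
  refine conn_of_rank _ ⟨r, hr⟩ (fun x => h x.1) fun x hx => ?_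
  obtain ⟨y, hy, h1, h2⟩ := hp x.1 x.2 fun h3 => hx (Subtype.ext h3)
  exact ⟨⟨y, hy⟩, h1, h2⟩

theorem conn_star (G : SimpleGraph X) (S : Set X) (r : X) (hr : r ∈ S)
    (hp : ∀ x ∈ S, x ≠ r → G.Adj x r) : (G.induce S).Connected := by
  classical
  refine conn_induce G S r hr (fun x => if x = r then 0 else 1) fun x hx hxr => ?_
  exact ⟨r, hr, hp x hx hxr, by simp [hxr]⟩

theorem not_conn (G : SimpleGraph X) (S : Set X) (a c : X) (ha : a ∈ S) (hc : c ∈ S)
    (hac : a ≠ c) (h : ∀ y ∈ S, ¬ G.Adj a y) : ¬ (G.induce S).Connected := by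
  intro hS
  obtain ⟨p⟩ := hS.preconnected ⟨a, ha⟩ ⟨c, hc⟩
  cases p with
  | nil => exact hac rfl
  | cons h1 _ => exact h _ (Subtype.property _) h1

/-- The graph of a parent map. -/
def par (r : X) (p : X → X) : SimpleGraph X := fromRel fun x y => x ≠ r ∧ p x = y

theorem par_iff {r : X} {p : X → X} {x y : X} :
    (par r p).Adj x y ↔ x ≠ y ∧ ((x ≠ r ∧ p x = y) ∨ (y ≠ r ∧ p y = x)) := Iff.rfl

theorem par_adj {r : X} {p : X → X} {h : X → ℕ} (hp : ∀ x, x ≠ r → h (p x) < h x) {x : X}
    (hx : x ≠ r) : (par r p).Adj x (p x) := by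
  refine par_iff.2 ⟨fun h1 => ?_, Or.inl ⟨hx, rfl⟩⟩
  have := hp x hx
  rw [← h1] at this
  exact lt_irrefl _ this

theorem par_tree [Finite X] (r : X) (p : X → X) (h : X → ℕ)
    (hp : ∀ x, x ≠ r → h (p x) < h x) : (par r p).IsTree := by
  have hc : (par r p).Connected :=
    conn_of_rank _ r h fun x hx => ⟨p x, par_adj hp hx, hp x hx⟩
  refine isTree_iff_connected_and_card.2 ⟨hc, le_antisymm ?_ hc.card_vert_le_card_edgeSet_add_one⟩
  have hsub : (par r p).edgeSet ⊆ (fun x => s(x, p x)) '' (Set.univ \ {r}) := by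
    intro d hd
    induction d using Sym2.ind with
    | _ x y =>
      obtain ⟨_, h1 | h1⟩ := par_iff.1 ((mem_edgeSet _).1 hd)
      · exact ⟨x, ⟨trivial, h1.1⟩, by simp [h1.2]⟩
      · exact ⟨y, ⟨trivial, h1.1⟩, by simp [h1.2]⟩
  have h1 : (par r p).edgeSet.ncard ≤ (Set.univ \ {r} : Set X).ncard :=
    (Set.ncard_le_ncard hsub (Set.toFinite _)).trans (Set.ncard_image_le (Set.toFinite _))
  have h2 := Set.ncard_diff_singleton_add_one (Set.mem_univ r) (Set.toFinite _)
  rw [Set.ncard_univ] at h2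
  rw [Nat.card_coe_set_eq]
  omega

open Classical in
/-- The parent map: root `r`, children `a` and `c`, the set `N` below `a`, the rest below `c`. -/
noncomputable def pm (r a c : X) (N : Set X) (x : X) : X :=
  if x = a ∨ x = c then r else if x ∈ N then a else c

open Classical in
noncomputable def rk (r a c : X) (x : X) : ℕ := if x = r then 0 else if x = a ∨ x = c then 1 else 2

theorem rk_pm (r a c : X) (N : Set X) (x : X) (hx : x ≠ r) :
    rk r a c (pm r a c N x) < rk r a c x := by
  by_cases h : x = a ∨ x = c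
  · have h1 : pm r a c N x = r := by simp [pm, h]
    rw [h1]
    simp [rk, hx, h]
  · have h1 : rk r a c x = 2 := by simp only [rk, hx, h, if_false]
    have h2 : pm r a c N x = a ∨ pm r a c N x = c := by
      unfold pm
      split_ifs <;> simp
    rw [h1]
    unfold rk
    split_ifs <;> omega

theorem adj_top {r a c : X} {N : Set X} {x : X} (hx : x ≠ r) (h : x = a ∨ x = c) :
    (par r (pm r a c N)).Adj x r := by
  have := par_adj (rk_pm r a c N) hx
  rwa [show pm r a c N x = r by simp [pm, h]] at this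

theorem adj_in {r a c : X} {N : Set X} {x : X} (hx : x ≠ r) (h : x ≠ a) (h' : x ≠ c) (hN : x ∈ N) :
    (par r (pm r a c N)).Adj x a := by
  have := par_adj (rk_pm r a c N) hx
  rwa [show pm r a c N x = a by simp [pm, h, h', hN]] at this

theorem adj_out {r a c : X} {N : Set X} {x : X} (hx : x ≠ r) (h : x ≠ a) (h' : x ≠ c)
    (hN : x ∉ N) : (par r (pm r a c N)).Adj x c := by
  have := par_adj (rk_pm r a c N) hx
  rwa [show pm r a c N x = c by simp [pm, h, h', hN]] at this

theorem nbr_a {r a c : X} {N : Set X} {y : X} (hac : a ≠ c) (har : a ≠ r)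
    (h : (par r (pm r a c N)).Adj a y) : y = r ∨ y ∈ N := by
  obtain ⟨_, h1 | h1⟩ := par_iff.1 h
  · left
    rw [← h1.2]
    simp [pm]
  · right
    have h2 := h1.2
    unfold pm at h2
    split_ifs at h2 with h3 h4
    · exact absurd h2.symm har
    · exact h4
    · exact absurd h2.symm hac

theorem pm_mem (r a c : X) (N : Set X) (x : X) :
    pm r a c N x = r ∨ pm r a c N x = a ∨ pm r a c N x = c := by
  unfold pm
  split_ifs <;> simp

end StarAux

open StarAux

theorem star : StarStmt := by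
  intro t Z U W e
  refine ⟨fun z w u N => par (e (Sum.inr (Sum.inr w))) (pm (e (Sum.inr (Sum.inr w))) (e (Sum.inl z))
    (e (Sum.inr (Sum.inl u))) ((fun x => e (Sum.inr x)) '' (N : Set (U ⊕ W)))), ?_⟩
  intro z w u N hu hw
  have hmem : ∀ (B : Finset (U ⊕ W)) (x : U ⊕ W),
      e (Sum.inr x) ∈ (fun x => e (Sum.inr x)) '' (B : Set (U ⊕ W)) ↔ x ∈ B := by
    intro B x
    simp
  refine ⟨par_tree _ _ _ (rk_pm _ _ _ _), ?_⟩
  rintro z' A S rfl
  refine ⟨?_, ?_, ?_, ?_⟩
  · rintro rfl hA
    refine conn_star _ _ (e (Sum.inl z')) (Set.mem_insert _ _) ?_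
    rintro x (rfl | ⟨y, hy, rfl⟩) hx
    · exact absurd rfl hx
    · have hyN : y ∈ N := hA hy
      refine adj_in ?_ hx ?_ ((hmem N y).2 hyN)
      · intro h
        have : y = Sum.inr w := by simpa using h
        exact hw (this ▸ hyN)
      · intro h
        have : y = Sum.inl u := by simpa using h
        exact hu (this ▸ hyN)
  · rintro rfl huA hwA
    refine conn_induce _ _ (e (Sum.inr (Sum.inr w))) (Or.inr ((hmem A _).2 hwA))
      (rk (e (Sum.inr (Sum.inr w))) (e (Sum.inl z')) (e (Sum.inr (Sum.inl u)))) fun x _ hx => ?_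
    refine ⟨_, ?_, par_adj (rk_pm _ _ _ _) hx, rk_pm _ _ _ _ x hx⟩
    rcases pm_mem (e (Sum.inr (Sum.inr w))) (e (Sum.inl z')) (e (Sum.inr (Sum.inl u)))
      ((fun x => e (Sum.inr x)) '' (N : Set (U ⊕ W))) x with h | h | h <;> rw [h]
    · exact Or.inr ((hmem A _).2 hwA)
    · exact Set.mem_insert _ _
    · exact Or.inr ((hmem A _).2 huA)
  · intro hz huA hd
    refine conn_star _ _ (e (Sum.inr (Sum.inl u))) (Or.inr ((hmem A _).2 huA)) ?_
    rintro x (rfl | ⟨y, hy, rfl⟩) hx
    · exact adj_out (by simp) (by simpa using hz) hx (by simp)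
    · by_cases hyw : y = Sum.inr w
      · subst hyw
        exact (adj_top (by simp) (Or.inr rfl)).symm
      · refine adj_out (by simpa using hyw) (by simp) hx fun h => ?_
        exact Finset.disjoint_left.1 hd hy ((hmem N y).1 h)
  · rintro rfl huA hwA hd
    refine not_conn _ _ (e (Sum.inl z')) (e (Sum.inr (Sum.inl u))) (Set.mem_insert _ _)
      (Or.inr ((hmem A _).2 huA)) (by simp) ?_
    rintro y (rfl | ⟨x, hx, rfl⟩) h
    · exact h.ne rfl
    · rcases nbr_a (by simp) (by simp) h with h1 | h1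
      · have : x = Sum.inr w := by simpa using h1
        exact hwA (this ▸ hx)
      · exact Finset.disjoint_left.1 hd hx ((hmem N x).1 h1)

end Pool.Agent.Lib.MP_234305_co.LB
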