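import Pool.Agent.Lib.MP_234305_co.H36Sum
import Pool.Agent.Lib.MP_234305_co.H36Num
import Pool.Agent.Lib.MP_234305_co.H36Cover
import Pool.Agent.Lib.MP_234305_co.H36Lift
import Pool.Agent.Lib.MP_234305_co.H36Star

/-! The covering number of the double star matrix and the lower bound. -/

open Finset Sum Classical

namespace Pool.Agent.Lib.MP_234305_co.LB

theorem mass {Z U W α : Type} [Fintype Z] [Fintype U] [Fintype W] [Fintype α] {s : ℕ}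
    (C : Fin s → Ctx Z U W) (hα : 2 ≤ Fintype.card α)
    (hC : ∀ z w u N A, inl u ∈ A → inr w ∉ A → inr w ∉ N → Disjoint A N →
      ∃ k, (C k).SS z A ∧ (C k).TT z w u N) :
    (Fintype.card Z : ℝ) * Fintype.card W * Fintype.card U / 8 ≤ ∑ k, (C k).wt α := by
  have : Nonempty α := Fintype.card_pos_iff.1 (by omega)
  have hL : (2 : ℝ) ≤ Fintype.card α := by exact_mod_cast hα
  let φ : α → U ⊕ W → Bool → α → ℝ := fun i x b a =>
    ind (b = false) * Sum.elim (fun _ => ind (a = i)) (fun _ => 1 - ind (a = i)) x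
  have h1 : ∀ i w u, 1 / (8 * (Fintype.card α : ℝ)) ≤ E fun n : U ⊕ W → Bool =>
      E fun c : U ⊕ W → α => ∏ x ∈ {inl u, inr w}, φ i x (n x) (c x) := fun i w u => by
    rw [indep2, prod_pair (by simp)]
    simp only [φ, Sum.elim_inl, Sum.elim_inr, E_mul, E_mul', sub_eq_add_neg, E_add, E_const,
      ← neg_one_mul (ind _), E_ind_eq, Fintype.card_bool]
    rw [div_le_iff₀ (by positivity)]
    have : 1 / (Fintype.card α : ℝ) ≤ 1 / 2 := by gcongr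
    have h0 : 1 / (Fintype.card α : ℝ) * Fintype.card α = 1 := by field_simp
    push_cast
    nlinarith
  calc _ = ∑ _i : α, ∑ _z : Z, ∑ _w : W, ∑ _u : U, 1 / (8 * (Fintype.card α : ℝ)) := by
        simp only [sum_const, card_univ, nsmul_eq_mul]; field_simp
    _ ≤ ∑ i : α, ∑ _z : Z, ∑ w : W, ∑ u : U, E fun n : U ⊕ W → Bool =>
        E fun c : U ⊕ W → α => ∏ x ∈ {inl u, inr w}, φ i x (n x) (c x) := by
        gcongr; exact h1 _ _ _
    _ ≤ _ := by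
        simp only [Ctx.wt, ← E_sum]
        refine E_mono fun n => E_mono fun c => ?_
        rw [sum_comm (s := (univ : Finset (Fin s)))]
        refine sum_le_sum fun i _ => ?_
        simp only [Ctx.S]
        rw [sum_comm (s := (univ : Finset (Fin s)))]
        refine sum_le_sum fun z _ => ?_
        rw [sum_comm (s := (univ : Finset (Fin s)))]
        refine sum_le_sum fun w _ => ?_
        rw [sum_comm (s := (univ : Finset (Fin s)))]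
        refine sum_le_sum fun u _ => ?_
        rw [prod_pair (by simp)]
        by_cases h : (n (inl u) = false ∧ c (inl u) = i) ∧ n (inr w) = false ∧ c (inr w) ≠ i
        · obtain ⟨k, h2, h3⟩ := hC z w u (NN n) (cell n c (· = i)) (mem_cell.2 h.1)
            (fun h2 => h.2.2 (mem_cell.1 h2).2) (by simp [mem_NN, h.2.1]) (cell_disj _ _ _)
          refine le_trans ?_ (single_le_sum (fun _ _ => ind_nonneg _) (mem_univ k))
          rw [ind_pos ⟨h2, h3, mem_cell.2 h.1⟩]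
          simp [φ, ind, h.1.1, h.1.2, h.2.1, h.2.2]
        · refine le_trans (le_of_eq ?_) (sum_nonneg fun _ _ => ind_nonneg _)
          simp only [φ, Sum.elim_inl, Sum.elim_inr]
          by_cases h2 : c (inr w) = i
          · rw [ind_pos h2]; ring
          · rw [← ind_and, ind_neg h2, sub_zero, mul_one, ← ind_and]
            exact ind_neg fun h3 => h ⟨h3.1, h3.2, h2⟩

theorem core : ∃ c₀ : ℝ, 0 < c₀ ∧ ∀ (Λ m z s : ℕ), 1 ≤ Λ → (2 ^ Λ) ^ 8 ≤ m →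
    m < (2 ^ (Λ + 1)) ^ 8 → 0 < z → z ≤ 3 * m → ∀ C : Fin s → Ctx (Fin z) (Fin m) (Fin m),
    (∀ k, (C k).d = (2 ^ Λ) ^ 3) →
    (∀ z w u N A, inl u ∈ A → inr w ∉ A → inr w ∉ N → Disjoint A N →
      ∃ k, (C k).SS z A ∧ (C k).TT z w u N) → (Λ : ℝ) * z * m ≤ c₀ * s := by
  obtain ⟨c, hc, hn⟩ := num
  refine ⟨8 * (89 + 4 * c), by positivity, fun Λ m z s hΛ h1 h2 hz h3 C hd hC => ?_⟩
  obtain ⟨ε, hε, h4, h5⟩ := hn Λ m z hΛ h1 h2 h3
  have : Nonempty (Fin z) := ⟨⟨0, hz⟩⟩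
  have hR : (Λ : ℝ) ≤ 2 ^ Λ := by exact_mod_cast Λ.lt_two_pow_self.le
  have h1' : ((2 : ℝ) ^ Λ) ^ 8 ≤ m := by exact_mod_cast h1
  have hR1 : (1 : ℝ) ≤ 2 ^ Λ := one_le_pow₀ one_le_two
  have hm : (1 : ℝ) ≤ m := (one_le_pow₀ hR1).trans h1'
  have hl : ∀ l : Fin Λ, 2 ≤ 2 ^ Λ * 2 ^ (l : ℕ) ∧ 2 ^ Λ * 2 ^ (l : ℕ) ≤ (2 ^ Λ) ^ 2 := fun l =>
    ⟨by rw [← pow_add]; exact Nat.le_self_pow (by omega) 2,
      by rw [sq]; gcongr; exacts [one_le_two, l.2.le]⟩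
  have key : ∀ k, ∑ l : Fin Λ, (C k).wt (Fin (2 ^ Λ) × Fin (2 ^ (l : ℕ))) ≤ (89 + 4 * c) * m := by
    intro k
    have a1 := fun l : Fin Λ => h4 _ (hl l).1 (hl l).2
    push_cast at a1
    have a2 := (C k).total (R := 2 ^ Λ) (Λ := Λ) (by positivity) hε fun l => by
      rw [hd k]; push_cast; exact (a1 l).1
    push_cast at a2
    refine (sum_le_sum fun (l : Fin Λ) _ => (C k).scale (α := Fin (2 ^ Λ) × Fin (2 ^ (l : ℕ)))
      (m := m) (L := 2 ^ Λ * 2 ^ (l : ℕ)) (by simp) (by simp)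
      (by simp) (by rw [hd k]; exact (a1 l).1) (a1 l).2).trans ?_
    rw [sum_add_distrib, ← mul_sum, hd k, Fintype.card_fin]
    have a3 : ∑ l : Fin Λ, ((((2 ^ Λ) ^ 3 : ℕ) : ℝ) * (2 ^ Λ * 2 ^ (l : ℕ)) ^ 2 +
        m ^ 2 * (2 ^ Λ * 2 ^ (l : ℕ)) * (2 + z * m) * ε) ≤
        Λ * ((2 ^ Λ) ^ 7 + m ^ 2 * (2 ^ Λ) ^ 2 * (2 + z * m) * ε) := by
      refine (sum_le_card_nsmul _ _ _ fun l _ => ?_).trans (by simp; rfl)
      have : (2 : ℝ) ^ Λ * 2 ^ (l : ℕ) ≤ (2 ^ Λ) ^ 2 := by exact_mod_cast (hl l).2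
      push_cast
      calc _ ≤ ((2 : ℝ) ^ Λ) ^ 3 * ((2 ^ Λ) ^ 2) ^ 2 + m ^ 2 * (2 ^ Λ) ^ 2 * (2 + z * m) * ε := by
            gcongr
        _ = _ := by ring
    generalize (2 : ℝ) ^ Λ = R at *
    have hz0 : (0 : ℝ) ≤ z := Nat.cast_nonneg _
    have b1 : (Λ : ℝ) * R ^ 7 ≤ m := le_trans (by rw [pow_succ' R 7]; gcongr) h1'
    have b2 : (Λ : ℝ) * (m ^ 2 * R ^ 2 * (2 + z * m) * ε) ≤ 2 * c * m :=
      calc _ ≤ R ^ 4 * (m ^ 2 * R ^ 2 * (2 * m * (z + 1)) * ε) := by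
            gcongr
            · exact hR.trans (le_self_pow₀ hR1 (by norm_num))
            · nlinarith
        _ = 2 * (m ^ 2 * (z + 1) * R ^ 6 * ε) * m := by ring
        _ ≤ _ := by gcongr
    have b3 : ((Λ : ℝ) * (R * R)) ^ 2 * ε ≤ c :=
      calc _ ≤ (R * (R * R)) ^ 2 * ε := by gcongr
        _ = 1 ^ 2 * 1 * R ^ 6 * ε := by ring
        _ ≤ m ^ 2 * (z + 1) * R ^ 6 * ε := by gcongr; linarith
        _ ≤ c := h5
    have b4 : 8 * (Λ : ℝ) / R ≤ 8 := by rw [div_le_iff₀ (by linarith)]; linarith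
    nlinarith [mul_le_mul_of_nonneg_left (a2.trans (add_le_add (add_le_add le_rfl b4) b3))
      (by linarith : (0 : ℝ) ≤ 2 * m)]
  have h6 : ∑ _l : Fin Λ, (z : ℝ) * m * m / 8 ≤
      ∑ l : Fin Λ, ∑ k, (C k).wt (Fin (2 ^ Λ) × Fin (2 ^ (l : ℕ))) := sum_le_sum fun l _ => by
    simpa using mass (α := Fin (2 ^ Λ) × Fin (2 ^ (l : ℕ))) C (by simpa using (hl l).1) hC
  rw [sum_comm] at h6
  have h7 := h6.trans (sum_le_sum fun k _ => key k)
  simp only [sum_const, card_univ, Fintype.card_fin, nsmul_eq_mul] at h7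
  refine le_of_mul_le_mul_right (a := (m : ℝ)) ?_ (by linarith)
  linarith

theorem lower : ∃ c : ℝ, 0 < c ∧ ∀ (n t : ℕ) (G : SimpleGraph (Fin n)), 768 ≤ t → G.Connected →
    ∀ f : Fin n → Option (Fin t),
    (∀ w : Fin t, (G.induce {v : Fin n | f v = some w}).Connected) →
    (∀ w w' : Fin t, w ≠ w' → ∃ u v : Fin n, f u = some w ∧ f v = some w' ∧ G.Adj u v) →
    ∀ (d k : ℕ) (A : Fin k → Fin d → ℝ) (b : Fin k → ℝ) (π : (Fin d → ℝ) →ᵃ[ℝ] (Sym2 (Fin n) → ℝ)),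
      π '' {y : Fin d → ℝ | ∀ i : Fin k, ∑ j : Fin d, A i j * y j ≤ b i} =
        convexHull ℝ {x : Sym2 (Fin n) → ℝ | ∃ T : SimpleGraph (Fin n),
          T ≤ G ∧ T.IsTree ∧ x = T.edgeSet.indicator (fun _ => (1 : ℝ))} →
      c * (t : ℝ) ^ 2 * Real.log t ≤ k := by
  obtain ⟨c₀, hc, hcore⟩ := core
  refine ⟨1 / (384 * c₀), by positivity, fun n t G ht hG f f1 f2 d k A b π hπ => ?_⟩
  obtain ⟨SS, TT, s1, s2⟩ := cover n G d k A b π hπ
  obtain ⟨g, hg⟩ := lift n t G hG (by omega) f f1 f2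
  choose! lf l1 l2 l3 using hg
  obtain ⟨m, hm⟩ : ∃ m, m = t / 3 := ⟨_, rfl⟩
  obtain ⟨z, hz⟩ : ∃ z, z = t - 2 * m := ⟨_, rfl⟩
  let e : Fin z ⊕ (Fin m ⊕ Fin m) ≃ Fin t := Fintype.equivFinOfCardEq (by simp; omega)
  obtain ⟨T, hT⟩ := star t _ _ _ e
  let row : Fin z → Finset (Fin m ⊕ Fin m) → Set (Fin t) := fun z' A =>
    insert (e (inl z')) ((fun x => e (inr x)) '' (A : Set (Fin m ⊕ Fin m)))
  obtain ⟨Λ, hΛ⟩ : ∃ Λ, Λ = Nat.log 256 m := ⟨_, rfl⟩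
  have hΛ1 : 1 ≤ Λ := hΛ ▸ Nat.le_log_of_pow_le (by norm_num) (by omega)
  have e8 : ∀ j : ℕ, (2 ^ j) ^ 8 = 256 ^ j := fun j => by
    rw [← pow_mul, mul_comm, pow_mul]; norm_num
  have h1 : 256 ^ Λ ≤ m := hΛ ▸ Nat.pow_log_le_self _ (by omega)
  have h2 : m < 256 ^ (Λ + 1) := hΛ ▸ Nat.lt_pow_succ_log_self (by norm_num) _
  let C : Fin k → Ctx (Fin z) (Fin m) (Fin m) := fun i =>
    { SS := fun z' A => SS i (g ⁻¹' row z' A)
      TT := fun z w u N => inl u ∉ N ∧ inr w ∉ N ∧ TT i (lf (T z w u N))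
      d := (2 ^ Λ) ^ 3
      hd := by positivity
      hu := fun h => h.1
      hw := fun h => h.2.1
      zb := fun h h' h3 => s1 i _ _ h h'.2.2 ((l3 _ (hT _ _ _ _ h'.1 h'.2.1).1 _).2
        (((hT _ _ _ _ h'.1 h'.2.1).2 _ _ _ rfl).1 rfl h3))
      zc := fun h h' h3 h4 => s1 i _ _ h h'.2.2 ((l3 _ (hT _ _ _ _ h'.1 h'.2.1).1 _).2
        (((hT _ _ _ _ h'.1 h'.2.1).2 _ _ _ rfl).2.1 rfl h3 h4))
      zd := fun h h' h3 h4 => by_contra fun h5 =>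
        s1 i _ _ h h'.2.2 ((l3 _ (hT _ _ _ _ h'.1 h'.2.1).1 _).2
          (((hT _ _ _ _ h'.1 h'.2.1).2 _ _ _ rfl).2.2.1 h5 h3 h4)) }
  have key := hcore Λ m z k hΛ1 (e8 Λ ▸ h1) (e8 (Λ + 1) ▸ h2) (by omega) (by omega) C
    (fun _ => rfl) fun y w u N B hu hw hw' hd => by
      have : Nontrivial (Fin z) := Fin.nontrivial_iff_two_le.2 (by omega)
      obtain ⟨y', hy⟩ := exists_ne y
      have hu' : inl u ∉ N := disjoint_left.1 hd hu
      obtain ⟨t1, t2⟩ := hT y w u N hu' hw'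
      obtain ⟨t3, t4⟩ := hT y' w u ∅ (by simp) (by simp)
      obtain ⟨i, h3, h4⟩ := s2 (g ⁻¹' row y B) _ _ (l1 _ t1) (l2 _ t1) (l1 _ t3) (l2 _ t3)
        ((l3 _ t3 _).2 ((t4 y B _ rfl).2.2.1 hy.symm hu (by simp)))
        fun h => (t2 y B _ rfl).2.2.2 rfl hu hw hd ((l3 _ t1 _).1 h)
      exact ⟨i, h3, hu', hw', h4⟩
  have r1 : (t : ℝ) ≤ 4 * m := by exact_mod_cast (by omega : t ≤ 4 * m)
  have r2 : (t : ℝ) ≤ 4 * z := by exact_mod_cast (by omega : t ≤ 4 * z)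
  have r0 : (0 : ℝ) < t := by exact_mod_cast (by omega : 0 < t)
  have r3 : Real.log t ≤ 24 * Λ := by
    have h3 : t ≤ 2 ^ (24 * Λ) :=
      calc t ≤ 256 * 256 ^ (Λ + 1) := by omega
        _ = 2 ^ (8 * Λ + 16) := by rw [pow_add 2, pow_mul]; ring
        _ ≤ _ := Nat.pow_le_pow_right two_pos (by omega)
    have h4 : Real.log t ≤ Real.log (2 ^ (24 * Λ)) := Real.log_le_log r0 (by exact_mod_cast h3)
    rw [Real.log_pow] at h4
    push_cast at h4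
    nlinarith [Real.log_two_lt_d9, (Nat.cast_nonneg Λ : (0 : ℝ) ≤ Λ)]
  rw [mul_assoc, one_div, inv_mul_le_iff₀ (by positivity)]
  calc (t : ℝ) ^ 2 * Real.log t ≤ (4 * z * (4 * m)) * (24 * Λ) := by
        rw [sq]; gcongr
    _ = 384 * (Λ * z * m) := by ring
    _ ≤ _ := by linarith

end Pool.Agent.Lib.MP_234305_co.LB
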