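import Mathlib

/-! Statements of the modules of the lower bound for spanning tree polytopes. -/

open Finset

namespace Pool.Agent.Lib.MP_234305_co.LB

/-- An extended formulation with `k` inequalities gives `k` rectangles that cover exactly the
pairs (vertex set, tree) in which the tree induces a disconnected graph. -/
def CoverStmt : Prop :=
  ∀ (n : ℕ) (G : SimpleGraph (Fin n)) (d k : ℕ) (A : Fin k → Fin d → ℝ) (b : Fin k → ℝ)
    (π : (Fin d → ℝ) →ᵃ[ℝ] (Sym2 (Fin n) → ℝ)),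
    π '' {y : Fin d → ℝ | ∀ i : Fin k, ∑ j : Fin d, A i j * y j ≤ b i} =
      convexHull ℝ {x : Sym2 (Fin n) → ℝ | ∃ T : SimpleGraph (Fin n),
        T ≤ G ∧ T.IsTree ∧ x = T.edgeSet.indicator (fun _ => (1 : ℝ))} →
    ∃ (SS : Fin k → Set (Fin n) → Prop) (TT : Fin k → SimpleGraph (Fin n) → Prop),
      (∀ i S T, SS i S → TT i T → ¬ (T.induce S).Connected) ∧
      ∀ (S : Set (Fin n)) (T T₀ : SimpleGraph (Fin n)), T ≤ G → T.IsTree → T₀ ≤ G → T₀.IsTree →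
        (T₀.induce S).Connected → ¬ (T.induce S).Connected → ∃ i, SS i S ∧ TT i T

/-- Spanning trees of a clique minor lift to spanning trees of the connected host graph. -/
def LiftStmt : Prop :=
  ∀ (n t : ℕ) (G : SimpleGraph (Fin n)), G.Connected → 0 < t → ∀ f : Fin n → Option (Fin t),
    (∀ w : Fin t, (G.induce {v : Fin n | f v = some w}).Connected) →
    (∀ w w' : Fin t, w ≠ w' → ∃ u v : Fin n, f u = some w ∧ f v = some w' ∧ G.Adj u v) →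
    ∃ g : Fin n → Fin t, ∀ T : SimpleGraph (Fin t), T.IsTree →
      ∃ T' : SimpleGraph (Fin n), T' ≤ G ∧ T'.IsTree ∧
        ∀ S : Set (Fin t), (T'.induce (g ⁻¹' S)).Connected ↔ (T.induce S).Connected

/-- The subdivided double stars on `Z ⊕ (U ⊕ W)` and their four kinds of entries. -/
def StarStmt : Prop :=
  ∀ (t : ℕ) (Z U W : Type) (e : Z ⊕ (U ⊕ W) ≃ Fin t),
    ∃ T : Z → W → U → Finset (U ⊕ W) → SimpleGraph (Fin t), ∀ z w u N,
      Sum.inl u ∉ N → Sum.inr w ∉ N → (T z w u N).IsTree ∧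
      ∀ (z' : Z) (A : Finset (U ⊕ W)) (S : Set (Fin t)),
        S = insert (e (Sum.inl z')) ((fun x => e (Sum.inr x)) '' (A : Set (U ⊕ W))) →
        (z' = z → A ⊆ N → ((T z w u N).induce S).Connected) ∧
        (z' = z → Sum.inl u ∈ A → Sum.inr w ∈ A → ((T z w u N).induce S).Connected) ∧
        (z' ≠ z → Sum.inl u ∈ A → Disjoint A N → ((T z w u N).induce S).Connected) ∧
        (z' = z → Sum.inl u ∈ A → Sum.inr w ∉ A → Disjoint A N →
          ¬ ((T z w u N).induce S).Connected)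

/-- The numerical estimate at the end. -/
def NumStmt : Prop :=
  ∃ C : ℝ, 0 < C ∧ ∀ (Λ m z : ℕ), 1 ≤ Λ → (2 ^ Λ) ^ 8 ≤ m → m < (2 ^ (Λ + 1)) ^ 8 → z ≤ 3 * m →
    ∃ ε : ℝ, 0 ≤ ε ∧
      (∀ L : ℕ, 2 ≤ L → L ≤ (2 ^ Λ) ^ 2 → (1 - 1 / (2 * (L : ℝ))) ^ ((2 ^ Λ) ^ 3) ≤ ε ∧
        (1 + 1 / (L : ℝ)) ^ m / (2 : ℝ) ^ (2 * (m : ℝ) / L) ≤ ε) ∧
      (m : ℝ) ^ 2 * (z + 1) * ((2 : ℝ) ^ Λ) ^ 6 * ε ≤ C

end Pool.Agent.Lib.MP_234305_co.LB
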