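import Pool.Agent.Lib.MP_234305_co.H36Prob

/-! Zero-free rectangles of the double star matrix and the flip lemma. -/

open Finset Sum Classical

namespace Pool.Agent.Lib.MP_234305_co.LB

/-- A rectangle of the double star matrix without zero entries, and a degree threshold. -/
structure Ctx (Z U W : Type) where
  SS : Z → Finset (U ⊕ W) → Prop
  TT : Z → W → U → Finset (U ⊕ W) → Prop
  d : ℕ
  hd : 0 < d
  hu : ∀ {z w u N}, TT z w u N → inl u ∉ N
  hw : ∀ {z w u N}, TT z w u N → inr w ∉ N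
  zb : ∀ {z w u N A}, SS z A → TT z w u N → ¬ A ⊆ N
  zc : ∀ {z w u N A}, SS z A → TT z w u N → inl u ∈ A → inr w ∉ A
  zd : ∀ {z z' w u N A}, SS z' A → TT z w u N → inl u ∈ A → Disjoint A N → z' = z

section
variable {M γ : Type} [Fintype M]

/-- The near side. -/
noncomputable def NN (n : M → Bool) : Finset M := univ.filter fun x => n x = true

/-- The elements of the far side whose colour satisfies `q`. -/
noncomputable def cell (n : M → Bool) (c : M → γ) (q : γ → Prop) : Finset M :=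
  univ.filter fun x => n x = false ∧ q (c x)

theorem mem_NN {n : M → Bool} {x : M} : x ∈ NN n ↔ n x = true := by simp [NN]

theorem mem_cell {n : M → Bool} {c : M → γ} {q : γ → Prop} {x : M} :
    x ∈ cell n c q ↔ n x = false ∧ q (c x) := by simp [cell]

theorem cell_disj (n : M → Bool) (c : M → γ) (q : γ → Prop) : Disjoint (cell n c q) (NN n) :=
  disjoint_left.2 fun x h1 h2 => by
    rw [mem_NN, (mem_cell.1 h1).1] at h2; exact absurd h2 (by simp)

end

theorem sum_ind_le {ι : Type*} [Fintype ι] {p : ι → Prop} {r : Prop} (h : ∀ a b, p a → p b → a = b)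
    (hr : ∀ a, p a → r) : ∑ a, ind (p a) ≤ ind r := by
  by_cases h1 : ∃ a, p a
  · obtain ⟨a, ha⟩ := h1
    rw [sum_eq_single a (fun b _ hb => ind_neg fun h2 => hb (h _ _ h2 ha)) (by simp), ind_pos ha,
      ind_pos (hr a ha)]
  · rw [sum_eq_zero fun a _ => ind_neg fun h2 => h1 ⟨a, h2⟩]; exact ind_nonneg _

theorem E_sq {Ω : Type*} [Fintype Ω] [Nonempty Ω] (f : Ω → ℝ) : E f ^ 2 ≤ E fun x => f x ^ 2 := by
  have h1 : 0 ≤ E fun x => (f x - E f) ^ 2 := E_nonneg fun x => sq_nonneg _
  have h2 : ∀ x, (f x - E f) ^ 2 = f x ^ 2 + ((-2 * E f) * f x + E f ^ 2) := fun x => by ring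
  rw [E_congr h2, E_add, E_add, E_mul, E_const] at h1
  linarith

theorem E_eval {ι γ : Type*} [Fintype ι] [DecidableEq ι] [Fintype γ] [Nonempty γ] (x : ι)
    (h : γ → ℝ) : E (fun c : ι → γ => h (c x)) = E h := by
  simpa using indep' {x} fun _ => h

theorem E_ind_bool (b : Bool) : E (fun a : Bool => ind (a = b)) = 1 / 2 := by
  rw [E_ind_eq]; simp

theorem sq_le_pow (j : ℕ) : (j : ℝ) ^ 2 * (1 / 2) ^ j ≤ 2 := by
  have h : ∀ k : ℕ, k ^ 2 ≤ 2 * 2 ^ k := by
    intro k
    induction k with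
    | zero => norm_num
    | succ k ih =>
      have := k.lt_two_pow_self
      rw [pow_succ 2 k]; nlinarith
  have h2 : (j : ℝ) ^ 2 ≤ 2 * 2 ^ j := by exact_mod_cast h j
  rw [one_div, inv_pow, ← div_eq_mul_inv, div_le_iff₀ (by positivity)]
  exact h2

variable {Z U W : Type} [Fintype Z] [Fintype U] [Fintype W] [Nonempty Z] (C : Ctx Z U W)

namespace Ctx

/-- The centres that occur with label `z` and near side `N`. -/
noncomputable def V (z : Z) (N : Finset (U ⊕ W)) : Finset U := univ.filter fun u => ∃ w, C.TT z w u N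

/-- The centres that occur with label `z` and gap vertex `w`. -/
noncomputable def D (z : Z) (w : W) : Finset U := univ.filter fun u => ∃ N, C.TT z w u N

/-- The gap vertices of large degree. -/
noncomputable def X (z : Z) : Finset (U ⊕ W) :=
  univ.filter fun x => ∃ w, x = inr w ∧ C.d ≤ (C.D z w).card

/-- Some label has many centres. -/
def Big (N : Finset (U ⊕ W)) : Prop := ∃ z, C.d ≤ (C.V z N).card

/-- A label with many centres. -/
noncomputable def zs (N : Finset (U ⊕ W)) : Z := epsilon fun z => C.d ≤ (C.V z N).card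

/-- The trimmed set is a row with the chosen label. -/
def mark (N A : Finset (U ⊕ W)) : Prop := C.Big N ∧ C.SS (C.zs N) (A \ C.X (C.zs N))

/-- The set contains a centre of the chosen label. -/
def good (N A : Finset (U ⊕ W)) : Prop := C.Big N → ∃ u ∈ C.V (C.zs N) N, inl u ∈ A

omit [Fintype Z] in
theorem zs_spec {N : Finset (U ⊕ W)} (h : C.Big N) : C.d ≤ (C.V (C.zs N) N).card := epsilon_spec h

omit [Fintype Z] [Nonempty Z] in
theorem mem_V {z : Z} {N : Finset (U ⊕ W)} {u : U} : u ∈ C.V z N ↔ ∃ w, C.TT z w u N := by simp [V]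

omit [Fintype Z] [Nonempty Z] in
theorem inl_not_mem_X (z : Z) (u : U) : inl u ∉ C.X z := by simp [X]

omit [Fintype Z] in
theorem col_of_big {N : Finset (U ⊕ W)} (h : C.Big N) : ∃ w u, C.TT (C.zs N) w u N := by
  obtain ⟨u, hu⟩ := card_pos.1 (C.hd.trans_le (C.zs_spec h))
  obtain ⟨w, hw⟩ := C.mem_V.1 hu
  exact ⟨w, u, hw⟩

variable {γ κ I : Type} [Fintype γ] [Fintype κ] (q : I → γ → Prop) (col : I → κ)

/-- The number of coarse colours with a marked cell. -/
noncomputable def K (n : U ⊕ W → Bool) (c : U ⊕ W → γ) : ℝ :=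
  ∑ j, ind (∃ i, col i = j ∧ C.mark (NN n) (cell n c (q i)))

/-- All cells are good. -/
def Good (n : U ⊕ W → Bool) (c : U ⊕ W → γ) : Prop := ∀ i, C.good (NN n) (cell n c (q i))

omit [Fintype γ] in
theorem flip_core (pr : γ → κ) (hq : ∀ i a, q i a → pr a = col i) (e : U ⊕ W → Bool)
    (c : U ⊕ W → γ) :
    (E fun σ : κ → Bool => (∑ j, ind (σ j = false) * ind (∃ i, col i = j ∧
      C.mark (NN fun x => xor (e x) (σ (pr (c x))))
        (cell (fun x => xor (e x) (σ (pr (c x)))) c (q i)))) ^ 2 *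
      ind (C.Good q (fun x => xor (e x) (σ (pr (c x)))) c)) ≤ 2 := by
  let J : Z → κ → Prop := fun z j => ∃ i, col i = j ∧ C.SS z (cell e c (q i) \ C.X z)
  let Ja : Finset κ := univ.filter fun j => ∃ z, J z j
  let Dj : Z → Prop := fun z => ∀ z' j, J z j → J z' j → z' = z
  have h0 : ∀ z, 0 ≤ ∑ j, ind (J z j) := fun z => sum_nonneg fun _ _ => ind_nonneg _
  have h1 : ∀ z, ∑ j, ind (J z j) ≤ Ja.card := fun z => by
    rw [card_filter_eq]; exact sum_le_sum fun j _ => ind_mono fun h => ⟨z, h⟩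
  have h2 : ∑ z, ind (Dj z) * ∑ j, ind (J z j) ≤ Ja.card := by
    simp only [mul_sum, ← ind_and]
    rw [sum_comm, card_filter_eq]
    exact sum_le_sum fun j _ =>
      sum_ind_le (fun a b ha hb => hb.1 a j hb.2 ha.2) fun a ha => ⟨a, ha.2⟩
  refine (E_mono (g := fun σ => ∑ z, (ind (Dj z) * (∑ j, ind (J z j)) ^ 2) *
    ind (∀ j ∈ Ja, σ j = decide (¬ J z j))) fun σ => ?_).trans ?_
  · set n : U ⊕ W → Bool := fun x => xor (e x) (σ (pr (c x))) with hn
    have c0 : ∀ i, σ (col i) = false → cell n c (q i) = cell e c (q i) := fun i hi => by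
      ext x
      simp only [mem_cell, hn]
      exact and_congr_left fun h => by rw [hq _ _ h, hi, Bool.xor_false]
    have c1 : ∀ i, σ (col i) = true → cell e c (q i) ⊆ NN n := fun i hi x hx => by
      obtain ⟨h1, h2⟩ := mem_cell.1 hx
      simp only [mem_NN, hn, h1, hq _ _ h2, hi, Bool.false_xor]
    have hnn : ∀ z ∈ (univ : Finset Z), 0 ≤ (ind (Dj z) * (∑ j, ind (J z j)) ^ 2) *
        ind (∀ j ∈ Ja, σ j = decide (¬ J z j)) := fun z _ =>
      mul_nonneg (mul_nonneg (ind_nonneg _) (sq_nonneg _)) (ind_nonneg _)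
    by_cases hG : C.Good q n c
    swap
    · rw [ind_neg hG, mul_zero]; exact sum_nonneg hnn
    by_cases hB : C.Big (NN n)
    swap
    · rw [sum_eq_zero fun j _ => mul_eq_zero_of_right _ (ind_neg fun ⟨i, _, h⟩ => hB h.1)]
      simpa using sum_nonneg hnn
    obtain ⟨w, u, hT⟩ := C.col_of_big hB
    have a0 : ∀ j, J (C.zs (NN n)) j → σ j = false := by
      rintro _ ⟨i, rfl, h⟩
      by_contra h3
      exact C.zb h hT (sdiff_subset.trans (c1 i (by simpa using h3)))
    have a1 : ∀ z j, J z j → σ j = false → z = C.zs (NN n) := by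
      rintro z _ ⟨i, rfl, h⟩ h3
      obtain ⟨u', h4, h5⟩ := hG i hB
      obtain ⟨w', h6⟩ := C.mem_V.1 h4
      rw [← c0 i h3] at h
      exact C.zd h h6 (mem_sdiff.2 ⟨h5, C.inl_not_mem_X _ _⟩)
        ((cell_disj _ _ _).mono_left sdiff_subset)
    refine le_trans ?_ (single_le_sum hnn (mem_univ (C.zs (NN n))))
    rw [ind_pos hG, ind_pos (p := Dj _) fun z' j h3 h4 => a1 z' j h4 (a0 j h3), ind_pos, mul_one,
      mul_one, one_mul]
    · refine pow_le_pow_left₀ (sum_nonneg fun _ _ => mul_nonneg (ind_nonneg _) (ind_nonneg _))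
        (sum_le_sum fun j _ => ?_) 2
      rw [← ind_and]
      refine ind_mono ?_
      rintro ⟨h3, i, rfl, h4⟩
      exact ⟨i, rfl, by rw [← c0 i h3]; exact h4.2⟩
    · intro j hj
      obtain ⟨z, hz⟩ := (mem_filter.1 hj).2
      by_cases h3 : J (C.zs (NN n)) j
      · simp [h3, a0 j h3]
      · simp only [h3, not_false_eq_true, decide_true]
        by_contra h4
        exact h3 (a1 z j hz (by simpa using h4) ▸ hz)
  · rw [E_sum]
    simp only [E_mul, ind_forall]
    have h3 : ∀ z, (E fun σ : κ → Bool => ∏ j ∈ Ja, ind (σ j = decide (¬ J z j))) =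
        (1 / 2) ^ Ja.card := fun z => by
      rw [indep' Ja fun j a => ind (a = decide (¬ J z j))]
      simp only [E_ind_bool, prod_const]
    simp only [h3, ← sum_mul]
    refine le_trans (mul_le_mul_of_nonneg_right ?_ (by positivity)) (sq_le_pow Ja.card)
    calc _ ≤ ∑ z, Ja.card * (ind (Dj z) * ∑ j, ind (J z j)) := sum_le_sum fun z _ => by
          have := mul_nonneg (ind_nonneg (Dj z)) (h0 z)
          nlinarith [h1 z]
      _ ≤ _ := by rw [← mul_sum, sq]; gcongr

theorem flip [Nonempty γ] (pr : γ → κ) (hq : ∀ i a, q i a → pr a = col i) :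
    (E fun n => E fun c => C.K q col n c ^ 2 * ind (C.Good q n c)) ≤ 8 := by
  let G : (U ⊕ W → Bool) → (U ⊕ W → γ) → (κ → Bool) → ℝ := fun n c σ =>
    (∑ j, ind (σ j = false) * ind (∃ i, col i = j ∧ C.mark (NN n) (cell n c (q i)))) ^ 2 *
      ind (C.Good q n c)
  have h1 : ∀ n c, C.K q col n c ^ 2 * ind (C.Good q n c) ≤ 4 * E (G n c) := fun n c => by
    have := E_sq fun σ : κ → Bool =>
      ∑ j, ind (σ j = false) * ind (∃ i, col i = j ∧ C.mark (NN n) (cell n c (q i)))
    rw [E_sum] at this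
    simp only [E_mul', E_eval _ fun a : Bool => ind (a = false), E_ind_bool, ← mul_sum] at this
    simp only [G, E_mul', K]
    nlinarith [mul_le_mul_of_nonneg_right this (ind_nonneg (C.Good q n c))]
  refine (E_mono fun n => E_mono (h1 n)).trans ?_
  simp only [E_mul]
  have h2 : (E fun n => E fun c => E (G n c)) ≤ 2 := by
    rw [E_comm]
    refine E_le fun c => ?_
    rw [E_comm]
    have h3 : ∀ σ : κ → Bool, E (fun n => G n c σ) =
        E fun e : U ⊕ W → Bool => G (fun x => xor (e x) (σ (pr (c x)))) c σ := fun σ =>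
      (E_equiv (Function.Involutive.toPerm
        (fun (e : U ⊕ W → Bool) x => xor (e x) (σ (pr (c x)))) fun e => by ext x; simp)
        fun n => G n c σ).symm
    rw [E_congr h3, E_comm]
    exact E_le fun e => C.flip_core q col pr hq e c
  linarith

end Ctx

end Pool.Agent.Lib.MP_234305_co.LB
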