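import Mathlib

/-! Uniform averages on finite types. -/

open Finset

namespace Pool.Agent.Lib.MP_234305_co.LB

/-- The uniform average. -/
noncomputable def E {Ω : Type*} [Fintype Ω] (f : Ω → ℝ) : ℝ := (∑ x, f x) / Fintype.card Ω

open Classical in
/-- The indicator of a proposition. -/
noncomputable def ind (p : Prop) : ℝ := if p then 1 else 0

theorem ind_pos {p : Prop} (h : p) : ind p = 1 := by simp [ind, h]

theorem ind_neg {p : Prop} (h : ¬p) : ind p = 0 := by simp [ind, h]

theorem ind_nonneg (p : Prop) : 0 ≤ ind p := by unfold ind; split_ifs <;> norm_num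

theorem ind_le_one (p : Prop) : ind p ≤ 1 := by unfold ind; split_ifs <;> norm_num

theorem ind_congr {p q : Prop} (h : p ↔ q) : ind p = ind q := by rw [propext h]

theorem ind_mono {p q : Prop} (h : p → q) : ind p ≤ ind q := by
  by_cases hp : p
  · rw [ind_pos hp, ind_pos (h hp)]
  · rw [ind_neg hp]; exact ind_nonneg _

theorem ind_and (p q : Prop) : ind (p ∧ q) = ind p * ind q := by
  by_cases hp : p <;> by_cases hq : q <;> simp [ind, hp, hq]

theorem ind_forall {ι : Type*} (Y : Finset ι) (p : ι → Prop) :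
    ind (∀ x ∈ Y, p x) = ∏ x ∈ Y, ind (p x) := by
  by_cases h : ∀ x ∈ Y, p x
  · rw [ind_pos h, prod_eq_one fun x hx => ind_pos (h x hx)]
  · rw [ind_neg h]
    push Not at h
    obtain ⟨x, hx, h⟩ := h
    exact (prod_eq_zero hx (ind_neg h)).symm

theorem ind_exists_le {ι : Type*} [Fintype ι] (p : ι → Prop) : ind (∃ x, p x) ≤ ∑ x, ind (p x) := by
  by_cases h : ∃ x, p x
  · obtain ⟨x, hx⟩ := h
    calc _ ≤ ind (p x) := (ind_le_one _).trans (ind_pos hx).ge
      _ ≤ _ := single_le_sum (fun y _ => ind_nonneg (p y)) (mem_univ x)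
  · rw [ind_neg h]; exact sum_nonneg fun _ _ => ind_nonneg _

theorem card_filter_eq {ι : Type*} (Y : Finset ι) (p : ι → Prop) [DecidablePred p] :
    ((Y.filter p).card : ℝ) = ∑ x ∈ Y, ind (p x) := by
  rw [card_filter]; push_cast
  exact sum_congr rfl fun x _ => by by_cases h : p x <;> simp [ind, h]

section
variable {Ω Ω' : Type*} [Fintype Ω] [Fintype Ω'] {f g : Ω → ℝ}

theorem E_mono (h : ∀ x, f x ≤ g x) : E f ≤ E g :=
  div_le_div_of_nonneg_right (sum_le_sum fun x _ => h x) (Nat.cast_nonneg _)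

theorem E_nonneg (h : ∀ x, 0 ≤ f x) : 0 ≤ E f :=
  div_nonneg (sum_nonneg fun x _ => h x) (Nat.cast_nonneg _)

theorem E_congr (h : ∀ x, f x = g x) : E f = E g := by rw [funext h]

theorem E_add (f g : Ω → ℝ) : E (fun x => f x + g x) = E f + E g := by
  simp only [E, sum_add_distrib, add_div]

theorem E_sum {ι : Type*} (s : Finset ι) (f : ι → Ω → ℝ) :
    E (fun x => ∑ i ∈ s, f i x) = ∑ i ∈ s, E (f i) := by
  simp only [E]; rw [sum_comm, sum_div]

theorem E_mul (c : ℝ) (f : Ω → ℝ) : E (fun x => c * f x) = c * E f := by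
  simp only [E, ← mul_sum, mul_div_assoc]

theorem E_mul' (c : ℝ) (f : Ω → ℝ) : E (fun x => f x * c) = E f * c := by
  simp only [mul_comm _ c, E_mul]

theorem E_const [Nonempty Ω] (c : ℝ) : E (fun _ : Ω => c) = c := by
  have : (Fintype.card Ω : ℝ) ≠ 0 := by exact_mod_cast Fintype.card_ne_zero
  simp only [E, sum_const, card_univ, nsmul_eq_mul]
  field_simp

theorem E_le [Nonempty Ω] {c : ℝ} (h : ∀ x, f x ≤ c) : E f ≤ c := (E_mono h).trans (E_const c).le

theorem E_equiv (e : Ω' ≃ Ω) (f : Ω → ℝ) : E (fun x => f (e x)) = E f := by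
  simp only [E, e.sum_comp f, Fintype.card_congr e]

theorem E_prod (f : Ω × Ω' → ℝ) : E f = E fun a => E fun b => f (a, b) := by
  simp only [E, Fintype.sum_prod_type, Fintype.card_prod, ← sum_div, div_div, Nat.cast_mul,
    mul_comm]

theorem E_comm (f : Ω → Ω' → ℝ) : (E fun a => E fun b => f a b) = E fun b => E fun a => f a b := by
  simp only [E, ← sum_div, div_div]
  rw [sum_comm, mul_comm]

theorem E_ind_eq (a : Ω) : E (fun x => ind (x = a)) = 1 / Fintype.card Ω := by
  classical
  have : ∀ x, ind (x = a) = if x = a then (1 : ℝ) else 0 := fun x => by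
    by_cases h : x = a <;> simp [ind, h]
  simp only [E, this, sum_ite_eq', mem_univ, if_true]

theorem E_bool (f : Bool → ℝ) : E f = (f true + f false) / 2 := by simp [E]

end

variable {ι γ α : Type*} [Fintype ι] [DecidableEq ι] [Fintype γ] [Fintype α]

theorem resample [Nonempty γ] (x : ι) (h : (ι → γ) → ℝ) :
    E h = E fun c => E fun a => h (Function.update c x a) := by
  let e : (ι → γ) × γ ≃ (ι → γ) × γ := Function.Involutive.toPerm
    (fun p => (Function.update p.1 x p.2, p.1 x)) (fun p => by simp)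
  have h1 := E_equiv e fun p => h p.1
  rw [E_prod, E_prod] at h1
  simp only [E_const] at h1
  exact h1.symm

theorem indep [Nonempty γ] (Y : Finset ι) (φ : ι → γ → ℝ) (F : (ι → γ) → ℝ)
    (hF : ∀ x ∈ Y, ∀ c a, F (Function.update c x a) = F c) :
    E (fun c => (∏ x ∈ Y, φ x (c x)) * F c) = (∏ x ∈ Y, E (φ x)) * E F := by
  induction Y using Finset.induction_on with
  | empty => simp
  | insert x Y hx ih =>
    rw [resample x, prod_insert hx, mul_assoc, ← ih fun y hy => hF y (mem_insert_of_mem hy),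
      ← E_mul]
    refine E_congr fun c => ?_
    rw [← E_mul']
    refine E_congr fun a => ?_
    rw [prod_insert hx, Function.update_self, hF x (mem_insert_self _ _), mul_assoc]
    congr 2
    exact prod_congr rfl fun y hy => by rw [Function.update_of_ne (by rintro rfl; exact hx hy)]

theorem indep' [Nonempty γ] (Y : Finset ι) (φ : ι → γ → ℝ) :
    E (fun c : ι → γ => ∏ x ∈ Y, φ x (c x)) = ∏ x ∈ Y, E (φ x) := by
  have := indep Y φ (fun _ => 1) fun _ _ _ _ => rfl
  simpa only [mul_one, E_const] using this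

theorem indep2 [Nonempty γ] [Nonempty α] (Y : Finset ι) (φ : ι → γ → α → ℝ) :
    (E fun n : ι → γ => E fun c : ι → α => ∏ x ∈ Y, φ x (n x) (c x)) =
      ∏ x ∈ Y, E fun b => E (φ x b) := by
  simp only [indep' Y fun x => φ x _]
  exact indep' Y fun x b => E (φ x b)

theorem push [Nonempty γ] [Nonempty α] (φ : γ → α) (hφ : ∀ h : α → ℝ, E (fun a => h (φ a)) = E h)
    (F : (ι → α) → ℝ) : E (fun c : ι → γ => F (fun x => φ (c x))) = E F := by
  have key : ∀ (c' : ι → α), E (fun c : ι → γ => ind ((fun x => φ (c x)) = c')) =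
      E (fun c : ι → α => ind (c = c')) := fun c' => by
    have h1 : ∀ c : ι → α, ind (c = c') = ∏ x, ind (c x = c' x) := fun c => by
      rw [← ind_forall]; exact ind_congr (by simp [funext_iff])
    simp only [h1]
    rw [indep' univ fun x a => ind (φ a = c' x), indep' univ fun x a => ind (a = c' x)]
    exact prod_congr rfl fun x _ => hφ fun a => ind (a = c' x)
  have h2 : ∀ c : ι → α, F c = ∑ c', F c' * ind (c = c') := fun c => by
    rw [sum_eq_single c (fun b _ hb => by rw [ind_neg (Ne.symm hb), mul_zero]) (by simp),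
      ind_pos rfl, mul_one]
  rw [E_congr fun c => h2 _, E_congr h2, E_sum, E_sum]
  exact sum_congr rfl fun c' _ => by rw [E_mul, E_mul, key]

end Pool.Agent.Lib.MP_234305_co.LB
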