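import Pool.Agent.Lib.MP_234305_co.H36Flip

/-! The estimate at one scale. -/

open Finset Sum Classical

namespace Pool.Agent.Lib.MP_234305_co.LB

theorem mul_pow_le {L : ℝ} (hL : 1 ≤ L) (g : ℕ) : g * (1 - 1 / L) ^ g ≤ L := by
  have h0 : 0 < L := by linarith
  have h1 : 0 ≤ 1 - 1 / L := by rw [sub_nonneg, div_le_one h0]; exact hL
  have h2 : (1 - 1 / L) ^ g ≤ Real.exp (-(g / L)) := by
    rw [show -(g / L) = g * -(1 / L) by ring, Real.exp_nat_mul]
    exact pow_le_pow_left₀ h1 (by linarith [Real.add_one_le_exp (-(1 / L))]) g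
  have h3 := Real.add_one_le_exp (g / L)
  have h4 : Real.exp (-(g / L)) * Real.exp (g / L) = 1 := by rw [← Real.exp_add]; simp
  have h5 : (g : ℝ) = L * (g / L) := by field_simp
  have h6 := Real.exp_pos (-(g / L))
  calc _ ≤ g * Real.exp (-(g / L)) := by gcongr
    _ = L * (g / L * Real.exp (-(g / L))) := by field_simp
    _ ≤ L * 1 := by gcongr; nlinarith
    _ = L := mul_one _

theorem avoid {M α : Type} [Fintype M] [DecidableEq M] [Fintype α] (n : M → Bool) (i : α) (Y : Finset M)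
    (hY : ∀ x ∈ Y, n x = false) (F : (M → α) → ℝ)
    (hF : ∀ x ∈ Y, ∀ c a, F (Function.update c x a) = F c) :
    E (fun c => ind (Disjoint (cell n c (· = i)) Y) * F c) =
      (1 - 1 / (Fintype.card α : ℝ)) ^ Y.card * E F := by
  have : Nonempty α := ⟨i⟩
  have h1 : ∀ c : M → α, ind (Disjoint (cell n c (· = i)) Y) = ∏ x ∈ Y, (1 - ind (c x = i)) := by
    intro c
    rw [ind_congr (q := ∀ x ∈ Y, ¬ c x = i), ind_forall]
    · exact prod_congr rfl fun x _ => by by_cases h : c x = i <;> simp [ind, h]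
    · rw [disjoint_right]
      exact forall₂_congr fun x hx => by simp [mem_cell, hY x hx]
  have h2 : E (fun a : α => 1 - ind (a = i)) = 1 - 1 / (Fintype.card α : ℝ) := by
    have := E_add (fun a : α => 1 - ind (a = i)) fun a => ind (a = i)
    simp only [sub_add_cancel, E_const, E_ind_eq] at this
    linarith
  simp only [h1]
  rw [indep Y (fun _ a => 1 - ind (a = i)) F hF, h2, prod_const]

theorem sum_inr_le {U W : Type} [Fintype U] [Fintype W] (Y : Finset (U ⊕ W)) :
    ∑ w, ind (inr w ∈ Y) ≤ Y.card := by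
  have h : (Y.card : ℝ) = ∑ x, ind (x ∈ Y) := by rw [← card_filter_eq]; simp
  rw [h, Fintype.sum_sum_type]
  exact le_add_of_nonneg_left (sum_nonneg fun _ _ => ind_nonneg _)

variable {Z U W : Type} [Fintype Z] [Fintype U] [Fintype W] [Nonempty Z] (C : Ctx Z U W)

namespace Ctx

/-- The number of positive entries of the rectangle with given near side and row set. -/
noncomputable def S (N A : Finset (U ⊕ W)) : ℝ :=
  ∑ z, ∑ w, ∑ u, ind (C.SS z A ∧ C.TT z w u N ∧ inl u ∈ A)

/-- The gap vertices seen from the centres in `A`. -/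
noncomputable def Γ (N A : Finset (U ⊕ W)) : Finset (U ⊕ W) :=
  univ.filter fun x => ∃ w, x = inr w ∧ ∃ z u, C.TT z w u N ∧ inl u ∈ A

/-- The set misses all centres of a gap vertex of large degree. -/
def miss (A : Finset (U ⊕ W)) : Prop :=
  ∃ p : Z × W, C.d ≤ (C.D p.1 p.2).card ∧ ∀ u ∈ C.D p.1 p.2, inl u ∉ A

/-- The gap vertices of large degree on the far side. -/
noncomputable def Y (N : Finset (U ⊕ W)) : Finset (U ⊕ W) := C.X (C.zs N) \ N

theorem point {N A : Finset (U ⊕ W)} (hA : Disjoint A N) {m : ℕ} (hU : Fintype.card U = m)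
    (hW : Fintype.card W = m) {k : ℝ} (hk : 0 ≤ k) :
    C.S N A ≤ C.d * (ind (Disjoint A (C.Γ N A)) * (C.Γ N A).card) +
      m ^ 2 * (ind (¬ C.good N A) + ind (C.miss A) + ind (k < ∑ u, ind (inl u ∈ A))) +
      k * (C.Y N).card * (ind (Disjoint A (C.Y N)) * ind (C.mark N A)) := by
  have i0 := ind_nonneg
  have p1 : 0 ≤ C.d * (ind (Disjoint A (C.Γ N A)) * (C.Γ N A).card) := by
    have := i0 (Disjoint A (C.Γ N A)); positivity
  have p3 : 0 ≤ k * (C.Y N).card * (ind (Disjoint A (C.Y N)) * ind (C.mark N A)) := by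
    have := i0 (Disjoint A (C.Y N)); have := i0 (C.mark N A); positivity
  have q1 := i0 (¬ C.good N A)
  have q2 := i0 (C.miss A)
  have q3 := i0 (k < ∑ u, ind (inl u ∈ A))
  by_cases h0 : ∃ z w u, C.SS z A ∧ C.TT z w u N ∧ inl u ∈ A
  swap
  · rw [S, sum_eq_zero fun z _ => sum_eq_zero fun w _ => sum_eq_zero fun u _ =>
      ind_neg fun h => h0 ⟨z, w, u, h⟩]
    positivity
  obtain ⟨z, w₀, u₀, hS, hT, hu₀⟩ := h0
  have e1 : C.S N A = ∑ w, ∑ u, ind (C.TT z w u N ∧ inl u ∈ A) := by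
    rw [S, sum_eq_single z (fun z' _ hz => sum_eq_zero fun w _ => sum_eq_zero fun u _ =>
      ind_neg fun h => hz (C.zd h.1 hT hu₀ hA)) (by simp)]
    simp only [hS, true_and]
  have e2 : C.S N A ≤ m ^ 2 := by
    rw [e1]
    calc _ ≤ ∑ _w : W, ∑ _u : U, (1 : ℝ) := sum_le_sum fun _ _ => sum_le_sum fun _ _ => ind_le_one _
      _ = _ := by simp [hU, hW, sq]
  have m2 : (0 : ℝ) ≤ m ^ 2 := by positivity
  by_cases h1 : ¬ C.good N A
  · rw [ind_pos h1]; nlinarith
  by_cases h2 : C.miss A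
  · rw [ind_pos h2]; nlinarith
  by_cases h3 : k < ∑ u, ind (inl u ∈ A)
  · rw [ind_pos h3]; nlinarith
  rw [ind_neg h1, ind_neg h2, ind_neg h3, ind_pos (p := Disjoint A (C.Γ N A)), e1]
  · simp only [add_zero, mul_zero, one_mul]
    calc _ ≤ ∑ w, (C.d * ind (inr w ∈ C.Γ N A) + k * ind (inr w ∈ C.Y N) *
          (ind (Disjoint A (C.Y N)) * ind (C.mark N A))) := sum_le_sum fun w _ => ?_
      _ ≤ _ := by
        rw [sum_add_distrib, ← mul_sum, ← sum_mul, ← mul_sum]
        have := mul_nonneg (i0 (Disjoint A (C.Y N))) (i0 (C.mark N A))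
        gcongr <;> exact sum_inr_le _
    have r1 : 0 ≤ C.d * ind (inr w ∈ C.Γ N A) := mul_nonneg (Nat.cast_nonneg _) (i0 _)
    have r2 : 0 ≤ k * ind (inr w ∈ C.Y N) * (ind (Disjoint A (C.Y N)) * ind (C.mark N A)) :=
      mul_nonneg (mul_nonneg hk (i0 _)) (mul_nonneg (i0 _) (i0 _))
    by_cases h4 : C.d ≤ (univ.filter fun u => C.TT z w u N).card
    · have hV : C.d ≤ (C.V z N).card :=
        h4.trans (card_le_card fun u hu => C.mem_V.2 ⟨w, (mem_filter.1 hu).2⟩)
      have hD : C.d ≤ (C.D z w).card :=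
        h4.trans (card_le_card fun u hu => mem_filter.2 ⟨mem_univ _, N, (mem_filter.1 hu).2⟩)
      obtain ⟨u₁, h5⟩ := card_pos.1 (C.hd.trans_le h4)
      obtain ⟨u', h6, h7⟩ := not_not.1 h1 ⟨z, hV⟩
      obtain ⟨w', h8⟩ := C.mem_V.1 h6
      have hz : z = C.zs N := C.zd hS h8 h7 hA
      have hX : Disjoint A (C.X z) := disjoint_left.2 fun x hx hx' => by
        obtain ⟨w₁, rfl, h9⟩ := (mem_filter.1 hx').2
        refine h2 ⟨(z, w₁), h9, fun u hu hu' => ?_⟩
        obtain ⟨N', h10⟩ := (mem_filter.1 hu).2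
        exact C.zc hS h10 hu' hx
      rw [ind_pos (p := inr w ∈ C.Y N), ind_pos (p := Disjoint A (C.Y N)),
        ind_pos (p := C.mark N A)]
      · have : ∑ u, ind (C.TT z w u N ∧ inl u ∈ A) ≤ ∑ u, ind (inl u ∈ A) :=
          sum_le_sum fun u _ => ind_mono And.right
        linarith [not_lt.1 h3]
      · exact ⟨⟨z, hV⟩, by rw [← hz, sdiff_eq_self_of_disjoint hX]; exact hS⟩
      · rw [Y, ← hz]; exact hX.mono_right sdiff_subset
      · rw [Y, ← hz]
        exact mem_sdiff.2 ⟨mem_filter.2 ⟨mem_univ _, w, rfl, hD⟩, C.hw (mem_filter.1 h5).2⟩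
    · by_cases h5 : inr w ∈ C.Γ N A
      · have h6 : ∑ u, ind (C.TT z w u N ∧ inl u ∈ A) ≤ C.d := by
          refine le_trans ?_ (Nat.cast_le.2 (not_le.1 h4).le)
          rw [card_filter_eq]
          exact sum_le_sum fun u _ => ind_mono And.left
        rw [ind_pos h5]; linarith
      · rw [sum_eq_zero fun u _ => ind_neg fun h =>
          h5 (mem_filter.2 ⟨mem_univ _, w, rfl, z, u, h⟩)]
        linarith
  · refine disjoint_left.2 fun x hx hx' => ?_
    obtain ⟨w, rfl, z', u, h4, h5⟩ := (mem_filter.1 hx').2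
    exact C.zc (C.zd hS h4 h5 hA ▸ hS) h4 h5 hx

variable {α : Type} [Fintype α]

omit [Nonempty Z] in
theorem low (n : U ⊕ W → Bool) (i : α) :
    (E fun c => ind (Disjoint (cell n c (· = i)) (C.Γ (NN n) (cell n c (· = i)))) *
      (C.Γ (NN n) (cell n c (· = i))).card) ≤ Fintype.card α := by
  have : Nonempty α := ⟨i⟩
  have hL : (1 : ℝ) ≤ Fintype.card α := by exact_mod_cast Fintype.card_pos
  let G : (U ⊕ W → α) → Finset (U ⊕ W) := fun c => C.Γ (NN n) (cell n c (· = i))
  have h1 : ∀ (c : U ⊕ W → α) (F : Finset (U ⊕ W) → ℝ), F (G c) = ∑ Y, F Y * ind (G c = Y) :=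
    fun c F => by
      rw [sum_eq_single (G c) (fun b _ hb => by rw [ind_neg (Ne.symm hb), mul_zero]) (by simp),
        ind_pos rfl, mul_one]
  rw [E_congr fun c => h1 c fun Y => ind (Disjoint (cell n c (· = i)) Y) * Y.card, E_sum,
    ← E_const (Ω := U ⊕ W → α) (Fintype.card α : ℝ),
    E_congr fun c => h1 c fun _ => (Fintype.card α : ℝ), E_sum]
  refine sum_le_sum fun Y _ => ?_
  by_cases h2 : ∃ c, G c = Y
  swap
  · exact E_mono fun c => by rw [ind_neg fun h => h2 ⟨c, h⟩, mul_zero, mul_zero]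
  obtain ⟨c₀, rfl⟩ := h2
  simp only [mul_assoc]
  rw [avoid n i (G c₀), E_mul, E_mul, ← mul_assoc, mul_comm _ ((G c₀).card : ℝ)]
  · exact mul_le_mul_of_nonneg_right (mul_pow_le hL _) (E_nonneg fun _ => ind_nonneg _)
  · intro x hx
    obtain ⟨w, rfl, z, u, h, -⟩ := (mem_filter.1 hx).2
    simpa [mem_NN] using C.hw h
  · intro x hx c a
    obtain ⟨w, rfl, -⟩ := (mem_filter.1 hx).2
    simp [G, Γ, mem_cell]

theorem base {L : ℝ} (hL : 1 ≤ L) : 0 ≤ 1 - 1 / L ∧ 1 - 1 / L ≤ 1 - 1 / (2 * L) ∧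
    1 - 1 / (2 * L) ≤ 1 := by
  have h0 : 0 < L := by linarith
  refine ⟨by rw [sub_nonneg, div_le_one h0]; exact hL, ?_, sub_le_self _ (by positivity)⟩
  gcongr; linarith

omit [Fintype Z] in
theorem bad_le (n : U ⊕ W → Bool) (i : α) :
    (E fun c => ind (¬ C.good (NN n) (cell n c (· = i)))) ≤
      (1 - 1 / (2 * (Fintype.card α : ℝ))) ^ C.d := by
  have : Nonempty α := ⟨i⟩
  obtain ⟨b1, b2, b3⟩ := base (L := Fintype.card α) (by exact_mod_cast Fintype.card_pos)
  by_cases hB : C.Big (NN n)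
  swap
  · exact E_le fun c => by rw [ind_neg fun h => h fun h' => absurd h' hB]; exact pow_nonneg (b1.trans b2) _
  have h1 := avoid n i ((C.V (C.zs (NN n)) (NN n)).map Function.Embedding.inl) (fun x hx => by
    obtain ⟨u, hu, rfl⟩ := mem_map.1 hx
    obtain ⟨w, h⟩ := C.mem_V.1 hu
    simpa [mem_NN] using C.hu h) (fun _ => 1) fun _ _ _ _ => rfl
  simp only [mul_one, E_const, card_map] at h1
  refine (E_mono fun c => ind_mono fun h => ?_).trans (h1.le.trans ?_)
  · refine disjoint_right.2 fun x hx hx' => h fun _ => ?_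
    obtain ⟨u, hu, rfl⟩ := mem_map.1 hx
    exact ⟨u, hu, hx'⟩
  · exact (pow_le_pow_left₀ b1 b2 _).trans (pow_le_pow_of_le_one (b1.trans b2) b3 (C.zs_spec hB))

omit [Nonempty Z] in
theorem miss_le (i : α) : (E fun n => E fun c => ind (C.miss (cell n c (· = i)))) ≤
    Fintype.card Z * Fintype.card W * (1 - 1 / (2 * (Fintype.card α : ℝ))) ^ C.d := by
  have : Nonempty α := ⟨i⟩
  obtain ⟨b1, b2, b3⟩ := base (L := Fintype.card α) (by exact_mod_cast Fintype.card_pos)
  refine (E_mono fun n => E_mono fun c => ind_exists_le _).trans ?_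
  simp only [E_sum]
  refine (sum_le_card_nsmul _ _ ((1 - 1 / (2 * (Fintype.card α : ℝ))) ^ C.d) fun p _ => ?_).trans
    (by simp)
  by_cases h : C.d ≤ (C.D p.1 p.2).card
  swap
  · exact E_le fun n => E_le fun c => by
      rw [ind_neg fun h' => h h'.1]; exact pow_nonneg (b1.trans b2) _
  have h1 := indep2 ((C.D p.1 p.2).map (Function.Embedding.inl : U ↪ U ⊕ W))
    fun _ (b : Bool) (a : α) => 1 - ind (b = false) * ind (a = i)
  have h2 : (E fun b : Bool => E fun a : α => 1 - ind (b = false) * ind (a = i)) =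
      1 - 1 / (2 * (Fintype.card α : ℝ)) := by
    have h3 : ∀ b : Bool, (E fun a : α => 1 - ind (b = false) * ind (a = i)) =
        1 - ind (b = false) * (1 / Fintype.card α) := fun b => by
      simp only [sub_eq_add_neg, ← neg_mul, E_add, E_const, E_mul, E_ind_eq]
    rw [E_congr h3, E_bool, ind_neg (by simp), ind_pos rfl]
    ring
  rw [h2, prod_const, card_map] at h1
  refine le_trans (le_of_eq ?_) (h1.le.trans (pow_le_pow_of_le_one (b1.trans b2) b3 h))
  refine E_congr fun n => E_congr fun c => ?_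
  rw [prod_map, ind_congr (and_iff_right h), ind_forall]
  refine prod_congr rfl fun u _ => ?_
  rw [← ind_and, mem_cell]
  by_cases h3 : n (inl u) = false ∧ c (inl u) = i <;> simp [ind, h3]

theorem large_le (n : U ⊕ W → Bool) (i : α) (k : ℝ) :
    (E fun c => ind (k < ∑ u : U, ind (inl u ∈ cell n c (· = i)))) ≤
      (1 + 1 / (Fintype.card α : ℝ)) ^ Fintype.card U / 2 ^ k := by
  have : Nonempty α := ⟨i⟩
  have h1 := indep' ((univ : Finset U).map (Function.Embedding.inl : U ↪ U ⊕ W))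
    fun _ (a : α) => 1 + ind (a = i)
  rw [E_add, E_const, E_ind_eq, prod_const, card_map, card_univ] at h1
  rw [← h1, div_eq_mul_inv, ← E_mul']
  refine E_mono fun c => ?_
  have h2 : (2 : ℝ) ^ (∑ u : U, ind (inl u ∈ cell n c (· = i))) ≤
      ∏ x ∈ univ.map (Function.Embedding.inl : U ↪ U ⊕ W), (1 + ind (c x = i)) := by
    rw [Real.rpow_sum_of_pos two_pos, prod_map]
    refine prod_le_prod (fun _ _ => by positivity) fun u _ => ?_
    by_cases h : inl u ∈ cell n c (· = i)
    · rw [ind_pos h, ind_pos (p := c (Function.Embedding.inl u) = i) (mem_cell.1 h).2]; norm_num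
    · rw [ind_neg h, Real.rpow_zero]; linarith [ind_nonneg (c (Function.Embedding.inl u) = i)]
  rw [← div_eq_mul_inv, le_div_iff₀ (by positivity)]
  refine le_trans ?_ h2
  by_cases h : k < ∑ u : U, ind (inl u ∈ cell n c (· = i))
  · rw [ind_pos h, one_mul]; exact Real.rpow_le_rpow_of_exponent_le one_le_two h.le
  · rw [ind_neg h, zero_mul]; positivity

omit [Fintype Z] in
theorem main_eq (n : U ⊕ W → Bool) (i : α) :
    (E fun c => ind (Disjoint (cell n c (· = i)) (C.Y (NN n))) *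
      ind (C.mark (NN n) (cell n c (· = i)))) = (1 - 1 / (Fintype.card α : ℝ)) ^ (C.Y (NN n)).card *
        E fun c => ind (C.mark (NN n) (cell n c (· = i))) := by
  refine avoid n i (C.Y (NN n)) (fun x hx => ?_) _ fun x hx c a => ?_
  · simpa [mem_NN] using (mem_sdiff.1 hx).2
  have : cell n (Function.update c x a) (· = i) \ C.X (C.zs (NN n)) =
      cell n c (· = i) \ C.X (C.zs (NN n)) := by
    ext y
    simp only [mem_sdiff, mem_cell]
    refine and_congr_left fun h => ?_
    rw [Function.update_of_ne (by rintro rfl; exact h (mem_sdiff.1 hx).1)]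
  simp only [mark, this]

/-- The weight of the rectangle at the scale given by the colour set `α`. -/
noncomputable def wt (α : Type) [Fintype α] : ℝ :=
  E fun n => E fun c : U ⊕ W → α => ∑ i, C.S (NN n) (cell n c (· = i))

/-- The profile of a near side with `g` gap vertices at scale `L`. -/
noncomputable def prof (L : ℝ) (g : ℕ) : ℝ := g / L * (1 - 1 / L) ^ g

theorem scale [Nonempty α] {m : ℕ} (hU : Fintype.card U = m) (hW : Fintype.card W = m) {L ε : ℝ}
    (hL : (Fintype.card α : ℝ) = L) (h1 : (1 - 1 / (2 * L)) ^ C.d ≤ ε)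
    (h2 : (1 + 1 / L) ^ m / (2 : ℝ) ^ (2 * (m : ℝ) / L) ≤ ε) :
    C.wt α ≤ C.d * L ^ 2 + m ^ 2 * L * (2 + Fintype.card Z * m) * ε +
      2 * m * E fun n => E fun c : U ⊕ W → α =>
        prof L (C.Y (NN n)).card * ∑ i, ind (C.mark (NN n) (cell n c (· = i))) := by
  have hL0 : 0 < L := by rw [← hL]; exact_mod_cast Fintype.card_pos
  simp only [wt, mul_sum, E_sum]
  have key : ∀ i : α, (E fun n => E fun c => C.S (NN n) (cell n c (· = i))) ≤
      C.d * L + m ^ 2 * (2 + Fintype.card Z * m) * ε + 2 * m * E fun n => E fun c : U ⊕ W → α =>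
        prof L (C.Y (NN n)).card * ind (C.mark (NN n) (cell n c (· = i))) := fun i => by
    refine (E_mono fun n => E_mono fun c =>
      C.point (cell_disj n c _) hU hW (k := 2 * m / L) (by positivity)).trans ?_
    simp only [E_add, E_mul, C.main_eq, hL]
    have a1 := E_le fun n => (C.low n i).trans hL.le
    have a2 := E_le fun n => C.bad_le n i
    have a3 := C.miss_le i
    have a4 := E_le fun n => large_le (U := U) (W := W) n i (2 * m / L)
    rw [hL, hW] at a3
    rw [hL] at a2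
    rw [hL, hU] at a4
    have a5 := a3.trans (mul_le_mul_of_nonneg_left h1 (by positivity))
    refine add_le_add (add_le_add (by gcongr) ?_) (le_of_eq ?_)
    · rw [mul_assoc]; gcongr; linarith
    · rw [← E_mul]; exact E_congr fun n => by rw [prof]; ring
  refine (sum_le_sum fun i _ => key i).trans (le_of_eq ?_)
  simp only [sum_add_distrib, sum_const, card_univ, nsmul_eq_mul, hL]
  ring

end Ctx

end Pool.Agent.Lib.MP_234305_co.LB
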