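import Pool.Agent.Lib.MP_234305_co.H36Scale

/-! Summing the estimates over all scales. -/

open Finset Sum Classical

namespace Pool.Agent.Lib.MP_234305_co.LB

theorem sum_ind_le_coll {β : Type} [Fintype β] (p : β → Prop) :
    ∑ s, ind (p s) ≤ ind (∃ s, p s) + ∑ s, ∑ s', ind (s ≠ s' ∧ p s ∧ p s') := by
  by_cases h : ∃ s, p s
  swap
  · rw [sum_eq_zero fun s _ => ind_neg fun h' => h ⟨s, h'⟩]
    exact add_nonneg (ind_nonneg _) (sum_nonneg fun _ _ => sum_nonneg fun _ _ => ind_nonneg _)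
  obtain ⟨t, ht⟩ := h
  have h1 : ∑ s, ind (s = t) ≤ ind (∃ s, p s) :=
    sum_ind_le (fun a b ha hb => ha.trans hb.symm) fun _ _ => ⟨t, ht⟩
  refine le_trans ?_ (add_le_add h1 (sum_le_sum fun s _ =>
    single_le_sum (f := fun s' => ind (s ≠ s' ∧ p s ∧ p s')) (fun _ _ => ind_nonneg _) (mem_univ t)))
  rw [← sum_add_distrib]
  refine sum_le_sum fun s _ => ?_
  by_cases h2 : s = t
  · linarith [ind_le_one (p s), ind_pos h2, ind_nonneg (s ≠ t ∧ p s ∧ p t)]
  · linarith [ind_mono (p := p s) (q := s ≠ t ∧ p s ∧ p t) fun h => ⟨h2, h, ht⟩, ind_neg h2]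

namespace Ctx

theorem prof_nonneg {L : ℝ} (hL : 1 ≤ L) (g : ℕ) : 0 ≤ prof L g :=
  mul_nonneg (by positivity) (pow_nonneg (base hL).1 _)

theorem prof_le_one {L : ℝ} (hL : 1 ≤ L) (g : ℕ) : prof L g ≤ 1 := by
  rw [prof, div_mul_eq_mul_div, div_le_one (by linarith)]; exact mul_pow_le hL g

theorem prof_le {L : ℝ} (hL : 1 ≤ L) (g : ℕ) :
    prof L g ≤ 4 * (1 / (1 + 2 * g / (L * 2)) - 1 / (1 + 2 * g / L)) := by
  have h0 : 0 < L := by linarith
  have h2 : (1 - 1 / L) ^ g ≤ Real.exp (-(g / L)) := by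
    rw [show -(g / L) = g * -(1 / L) by ring, Real.exp_nat_mul]
    exact pow_le_pow_left₀ (base hL).1 (by linarith [Real.add_one_le_exp (-(1 / L))]) g
  rw [prof, show 2 * (g : ℝ) / (L * 2) = g / L by field_simp, mul_div_assoc]
  have ht : 0 ≤ (g : ℝ) / L := by positivity
  generalize (g : ℝ) / L = t at h2 ht ⊢
  have h3 := Real.quadratic_le_exp_of_nonneg ht
  have h4 : Real.exp (-t) ≤ 4 / ((1 + t) * (1 + 2 * t)) := by
    rw [Real.exp_neg, inv_eq_one_div, div_le_div_iff₀ (Real.exp_pos _) (by positivity)]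
    nlinarith
  calc _ ≤ t * (4 / ((1 + t) * (1 + 2 * t))) := mul_le_mul_of_nonneg_left (h2.trans h4) ht
    _ = _ := by field_simp; ring

theorem prof_sum {R : ℝ} (hR : 1 ≤ R) (Λ g : ℕ) : ∑ l : Fin Λ, prof (R * 2 ^ (l : ℕ)) g ≤ 4 := by
  have h1 : ∀ l : ℕ, 1 ≤ R * 2 ^ l := fun l => one_le_mul_of_one_le_of_one_le hR (one_le_pow₀ one_le_two)
  rw [Fin.sum_univ_eq_sum_range (fun l => prof (R * 2 ^ l) g)]
  refine (sum_le_sum fun l _ => prof_le (h1 l) g).trans ?_
  simp only [mul_assoc R, ← pow_succ]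
  rw [← mul_sum, sum_range_sub fun l => 1 / (1 + 2 * (g : ℝ) / (R * 2 ^ l))]
  have h2 : ∀ l : ℕ, 0 ≤ 2 * (g : ℝ) / (R * 2 ^ l) := fun l => by have := h1 l; positivity
  have h3 : 1 / (1 + 2 * (g : ℝ) / (R * 2 ^ Λ)) ≤ 1 := by
    rw [div_le_one (by linarith [h2 Λ])]; linarith [h2 Λ]
  have h4 : 0 ≤ 1 / (1 + 2 * (g : ℝ) / (R * 2 ^ 0)) := by have := h2 0; positivity
  linarith

variable {Z U W : Type} [Fintype Z] [Fintype U] [Fintype W] [Nonempty Z] (C : Ctx Z U W)
variable {κ β : Type} [Fintype κ] [Fintype β]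

/-- The number of ordered pairs of marked cells with the same coarse colour. -/
noncomputable def coll (n : U ⊕ W → Bool) (c : U ⊕ W → κ × β) : ℝ :=
  (∑ j, ∑ s, ∑ s', ind (s ≠ s' ∧ C.mark (NN n) (cell n c (· = (j, s))) ∧
    C.mark (NN n) (cell n c (· = (j, s'))))) * ind (C.Good (fun i a => a = i) n c)

theorem coll_le [Nonempty κ] [Nonempty β] :
    (E fun n => E fun c : U ⊕ W → κ × β => C.coll n c) ≤ 8 / Fintype.card κ := by
  let P : κ × β → κ × β → ℝ := fun i i' => E fun n => E fun c : U ⊕ W → κ × β =>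
    ind (C.mark (NN n) (cell n c (· = i))) * ind (C.mark (NN n) (cell n c (· = i'))) *
      ind (C.Good (fun i a => a = i) n c)
  have p0 : ∀ i i', 0 ≤ P i i' := fun i i' => E_nonneg fun _ => E_nonneg fun _ =>
    mul_nonneg (mul_nonneg (ind_nonneg _) (ind_nonneg _)) (ind_nonneg _)
  have p1 : ∀ (π : Equiv.Perm (κ × β)) i i', P (π i) (π i') = P i i' := fun π i i' => by
    refine E_congr fun n => ?_
    rw [← E_equiv (Equiv.piCongrRight fun _ : U ⊕ W => π)]
    refine E_congr fun c => ?_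
    have h1 : ∀ j, cell n (Equiv.piCongrRight (fun _ : U ⊕ W => π) c) (· = π j) =
        cell n c (· = j) := fun j => by ext x; simp [mem_cell]
    rw [h1, h1]
    congr 1
    refine ind_congr (π.surjective.forall.trans (forall_congr' fun j => ?_))
    rw [← h1 j]
  have p2 : ∑ i, ∑ i', P i i' ≤ 8 := by
    refine le_trans (le_of_eq ?_) (C.flip (fun i a : κ × β => a = i) id id fun i a h => h)
    simp only [P, ← E_sum]
    refine E_congr fun n => E_congr fun c => ?_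
    simp only [K, id, exists_eq_left]
    rw [sq, sum_mul_sum]
    simp only [sum_mul]
  have p3 : (E fun n => E fun c : U ⊕ W → κ × β => C.coll n c) =
      ∑ j, ∑ s, ∑ s', ind (s ≠ s') * P (j, s) (j, s') := by
    simp only [P, ← E_mul, ← E_sum]
    refine E_congr fun n => E_congr fun c => ?_
    simp only [coll, sum_mul, ind_and, mul_assoc]
  have p4 : ∀ j j' s s', ind (s ≠ s') * P (j, s) (j, s') ≤ P (j, s) (j', s') := fun j j' s s' => by
    by_cases h : s = s'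
    · rw [ind_neg (not_not.2 h), zero_mul]; exact p0 _ _
    · rw [ind_pos h, one_mul, ← p1 (Equiv.swap (j, s') (j', s')), Equiv.swap_apply_left,
        Equiv.swap_apply_of_ne_of_ne (by simp [h]) (by simp [h])]
  rw [p3, le_div_iff₀ (by exact_mod_cast Fintype.card_pos)]
  refine le_trans ?_ p2
  simp only [Fintype.sum_prod_type, sum_mul]
  refine sum_le_sum fun j _ => sum_le_sum fun s _ => ?_
  rw [sum_comm]
  refine sum_le_sum fun s' _ => ?_
  have := sum_le_sum fun j' (_ : j' ∈ univ) => p4 j j' s s'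
  rwa [sum_const, card_univ, nsmul_eq_mul, mul_comm] at this

theorem E_fst_eval {Λ : ℕ} {B : Fin Λ → Type} [∀ l, Fintype (B l)] [∀ l, Nonempty (B l)] (l : Fin Λ)
    (h : κ × B l → ℝ) : E (fun a : κ × (∀ l, B l) => h (a.1, a.2 l)) = E h := by
  rw [E_prod, E_prod h]
  refine E_congr fun j => ?_
  rw [← E_equiv (Equiv.piSplitAt l B).symm, E_prod]
  refine E_congr fun s => ?_
  simp only [Equiv.piSplitAt_symm_apply, dif_pos, E_const]

theorem total {R Λ : ℕ} (hR : 0 < R) {ε : ℝ} (hε : 0 ≤ ε)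
    (h1 : ∀ l : Fin Λ, (1 - 1 / (2 * ((R : ℝ) * 2 ^ (l : ℕ)))) ^ C.d ≤ ε) :
    ∑ l : Fin Λ, (E fun n => E fun c : U ⊕ W → Fin R × Fin (2 ^ (l : ℕ)) =>
      prof (R * 2 ^ (l : ℕ)) (C.Y (NN n)).card * ∑ i, ind (C.mark (NN n) (cell n c (· = i)))) ≤
      36 + 8 * Λ / R + (Λ * (R * 2 ^ Λ)) ^ 2 * ε := by
  have : Nonempty (Fin R) := ⟨⟨0, hR⟩⟩
  have hR1 : (1 : ℝ) ≤ R := by exact_mod_cast hR
  let γ := Fin R × ∀ l : Fin Λ, Fin (2 ^ (l : ℕ))
  let I := Σ l : Fin Λ, Fin R × Fin (2 ^ (l : ℕ))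
  let q : I → γ → Prop := fun i a => (a.1, a.2 i.1) = i.2
  let col : I → Fin R := fun i => i.2.1
  let B : (U ⊕ W → Bool) → (U ⊕ W → γ) → ℝ := fun n c =>
    ∑ i, ind (¬ C.good (NN n) (cell n c (q i)))
  have hL : ∀ l : Fin Λ, (1 : ℝ) ≤ R * 2 ^ (l : ℕ) := fun l =>
    one_le_mul_of_one_le_of_one_le hR1 (one_le_pow₀ one_le_two)
  have hL' : ∀ l : Fin Λ, (R : ℝ) * 2 ^ (l : ℕ) ≤ R * 2 ^ Λ := fun l => by
    gcongr
    · exact one_le_two
    · exact l.2.le
  have hp : ∀ (l : Fin Λ) (F : (U ⊕ W → Fin R × Fin (2 ^ (l : ℕ))) → ℝ),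
      E F = E fun c : U ⊕ W → γ => F fun x => ((c x).1, (c x).2 l) := fun l F =>
    (push (fun a : γ => (a.1, a.2 l)) (E_fst_eval (B := fun l : Fin Λ => Fin (2 ^ (l : ℕ))) l) F).symm
  have hB : (E fun n => E (B n)) ≤ Λ * (R * 2 ^ Λ) * ε := by
    simp only [B, E_sum]
    rw [Fintype.sum_sigma]
    refine (sum_le_card_nsmul _ _ (R * 2 ^ Λ * ε) fun l _ => ?_).trans (by simp [mul_assoc])
    refine (sum_le_card_nsmul _ _ ε fun i _ => E_le fun n => ?_).trans ?_
    · have := C.bad_le n i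
      rw [hp] at this
      exact this.trans (by simpa using h1 l)
    · simpa using mul_le_mul_of_nonneg_right (hL' l) hε
  have hB0 : ∀ n c, 0 ≤ B n c := fun n c => sum_nonneg fun _ _ => ind_nonneg _
  have hK0 : ∀ n c, 0 ≤ C.K q col n c := fun n c => sum_nonneg fun _ _ => ind_nonneg _
  have pt : ∀ (l : Fin Λ) n (c : U ⊕ W → γ), prof (R * 2 ^ (l : ℕ)) (C.Y (NN n)).card *
      ∑ i, ind (C.mark (NN n) (cell n (fun x => ((c x).1, (c x).2 l)) (· = i))) ≤
      prof (R * 2 ^ (l : ℕ)) (C.Y (NN n)).card * (C.K q col n c * ind (C.Good q n c)) +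
        C.coll n (fun x => ((c x).1, (c x).2 l)) + R * 2 ^ Λ * B n c := fun l n c => by
    have f0 := prof_nonneg (hL l) (C.Y (NN n)).card
    have f1 := prof_le_one (hL l) (C.Y (NN n)).card
    have f2 : 0 ≤ ∑ j, ∑ s, ∑ s', ind (s ≠ s' ∧
        C.mark (NN n) (cell n (fun x => ((c x).1, (c x).2 l)) (· = (j, s))) ∧
        C.mark (NN n) (cell n (fun x => ((c x).1, (c x).2 l)) (· = (j, s')))) :=
      sum_nonneg fun _ _ => sum_nonneg fun _ _ => sum_nonneg fun _ _ => ind_nonneg _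
    have f3 := mul_nonneg (zero_le_one.trans ((hL l).trans (hL' l))) (hB0 n c)
    by_cases hG : C.Good q n c
    · have hG' : C.Good (fun i a => a = i) n fun x => ((c x).1, (c x).2 l) := fun i => hG ⟨l, i⟩
      rw [coll, ind_pos hG, ind_pos hG', mul_one, mul_one]
      have f4 : ∑ i, ind (C.mark (NN n) (cell n (fun x => ((c x).1, (c x).2 l)) (· = i))) ≤
          C.K q col n c + ∑ j, ∑ s, ∑ s', ind (s ≠ s' ∧
          C.mark (NN n) (cell n (fun x => ((c x).1, (c x).2 l)) (· = (j, s))) ∧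
          C.mark (NN n) (cell n (fun x => ((c x).1, (c x).2 l)) (· = (j, s')))) := by
        rw [Fintype.sum_prod_type]
        refine (sum_le_sum fun j _ => sum_ind_le_coll _).trans ?_
        rw [sum_add_distrib]
        exact add_le_add (sum_le_sum fun j _ => ind_mono fun ⟨s, h⟩ => ⟨⟨l, j, s⟩, rfl, h⟩) le_rfl
      nlinarith [mul_le_mul_of_nonneg_left f4 f0]
    · obtain ⟨i, hi⟩ := not_forall.1 hG
      have f4 : 1 ≤ B n c := (ind_pos hi).ge.trans (single_le_sum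
        (f := fun i => ind (¬ C.good (NN n) (cell n c (q i)))) (fun _ _ => ind_nonneg _) (mem_univ i))
      have f5 : ∑ i, ind (C.mark (NN n) (cell n (fun x => ((c x).1, (c x).2 l)) (· = i))) ≤
          R * 2 ^ (l : ℕ) := (sum_le_card_nsmul _ _ 1 fun _ _ => ind_le_one _).trans (by simp)
      have f6 : 0 ≤ C.coll n (fun x => ((c x).1, (c x).2 l)) := mul_nonneg f2 (ind_nonneg _)
      rw [ind_neg hG, mul_zero, mul_zero, zero_add]
      nlinarith [mul_le_mul f1 f5 (sum_nonneg fun _ _ => ind_nonneg _) zero_le_one, hL l, hL' l]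
  refine (sum_le_sum fun l _ => E_mono fun n => (hp l _).le.trans (E_mono (pt l n))).trans ?_
  simp only [E_add, sum_add_distrib]
  refine add_le_add (add_le_add ?_ ?_) ?_
  · simp only [← E_sum, ← sum_mul]
    have h2 := C.flip q col Prod.fst fun i a h => congrArg Prod.fst h
    refine (E_mono fun n => E_mono fun c => (?_ : _ ≤ 4 * (1 + C.K q col n c ^ 2 *
      ind (C.Good q n c)))).trans ?_
    · refine mul_le_mul (prof_sum hR1 _ _) ?_ (mul_nonneg (hK0 n c) (ind_nonneg _)) (by norm_num)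
      have := ind_nonneg (C.Good q n c)
      have := ind_le_one (C.Good q n c)
      nlinarith [mul_nonneg ‹0 ≤ ind _› (sq_nonneg (C.K q col n c - 1)),
        mul_nonneg ‹0 ≤ ind _› (sq_nonneg (C.K q col n c))]
    · simp only [E_mul, E_add, E_const]; linarith
  · refine (sum_le_card_nsmul _ _ ((8 : ℝ) / R) fun l _ => ?_).trans (by simp [mul_div_assoc]; ring_nf; rfl)
    have := C.coll_le (κ := Fin R) (β := Fin (2 ^ (l : ℕ)))
    simp only [hp l] at this
    simpa using this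
  · simp only [E_mul]
    refine (sum_le_card_nsmul _ _ (R * 2 ^ Λ * (Λ * (R * 2 ^ Λ) * ε)) fun l _ => by gcongr).trans
      (le_of_eq ?_)
    simp; ring

end Ctx

end Pool.Agent.Lib.MP_234305_co.LB
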