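import Pool.Agent.Lib.MP_234305_co.H77Stmts2

/-!
Step 7c: the remainder of the potential and the merging of groups.
-/

namespace Pool.Agent.Lib.MP_234305_co

open Finset Matrix

namespace Rem

theorem val_nonneg (z : Z2) : 0 ≤ val z := Nat.cast_nonneg _

theorem val_zero : val 0 = 0 := by simp [val]

theorem val_add_le (a b : Z2) : val (a + b) ≤ val a + val b := by
  have : (a + b).val ≤ a.val + b.val := ZMod.val_add_le a b
  unfold val
  exact_mod_cast this

theorem val_mul (a b : Z2) : val (a * b) = val a * val b := by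
  have : (a * b).val = a.val * b.val := by revert a b; decide
  unfold val
  exact_mod_cast this

theorem val_msum_le {α : Type*} (s : Multiset α) (f : α → Z2) :
    val (s.map f).sum ≤ (s.map fun a => val (f a)).sum := by
  induction s using Multiset.induction_on with
  | empty => simp [val_zero]
  | cons a s ih =>
    simp only [Multiset.map_cons, Multiset.sum_cons]
    exact (val_add_le _ _).trans (by linarith)

theorem val_sum_le {α : Type*} (s : Finset α) (f : α → Z2) :
    val (∑ a ∈ s, f a) ≤ ∑ a ∈ s, val (f a) := val_msum_le s.1 f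

theorem val_natCast (n : ℕ) : (n : ℝ) = 2 * ((n / 2 : ℕ) : ℝ) + val (n : Z2) := by
  have h : n = 2 * (n / 2) + (n : Z2).val := by
    rw [ZMod.val_natCast]; omega
  unfold val
  exact_mod_cast h

theorem msum_count {T M : Type*} [Fintype T] [DecidableEq T] [AddCommMonoid M] (s : Multiset T)
    (f : T → M) : (s.map f).sum = ∑ a, s.count a • f a := by
  induction s using Multiset.induction_on with
  | empty => simp
  | cons b s ih =>
    simp only [Multiset.map_cons, Multiset.sum_cons, ih, Multiset.count_cons, add_smul,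
      sum_add_distrib, ite_smul, one_smul, zero_smul, sum_ite_eq', mem_univ, if_true]
    exact add_comm _ _

variable {E : Type} [Fintype E]

theorem dot_msum (c : Vec E) (Q : Multiset (Vec E)) :
    c ⬝ᵥ Q.sum = (Q.map fun g => c ⬝ᵥ g).sum := by
  induction Q using Multiset.induction_on with
  | empty => simp
  | cons g Q ih => simp [ih]

theorem msum_dot (P : Multiset (Vec E)) (g : Vec E) :
    P.sum ⬝ᵥ g = (P.map fun c => c ⬝ᵥ g).sum := by
  induction P using Multiset.induction_on with
  | empty => simp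
  | cons c P ih => simp [ih]

/-- If the pairing depends on the left vector only through a finite label, the remainder has
bounded nonnegative rank. -/
theorem rem_of_label {A B : Vec E → Prop} {T : Type} [Fintype T] (lab : Vec E → T)
    (h : ∀ c c' g, A c → A c' → B g → lab c = lab c' → c ⬝ᵥ g = c' ⬝ᵥ g) :
    NR (fun P : Multiset (Vec E) => ∀ c ∈ P, A c) (fun Q : Multiset (Vec E) => ∀ g ∈ Q, B g)
      (fun P Q => Psi P Q - val (P.sum ⬝ᵥ Q.sum))
      (Fintype.card T + 2 ^ Fintype.card T) := by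
  classical
  have hrep : ∀ a : T, ∃ r : Vec E, ∀ c g, A c → B g → lab c = a → c ⬝ᵥ g = r ⬝ᵥ g := by
    intro a
    by_cases ha : ∃ c, A c ∧ lab c = a
    · obtain ⟨r, h1, h2⟩ := ha
      exact ⟨r, fun c g hc hg e => h c r g hc h1 hg (e.trans h2.symm)⟩
    · exact ⟨0, fun c g hc _ e => (ha ⟨c, hc, e⟩).elim⟩
  choose r hr using hrep
  let G : T → Multiset (Vec E) → ℝ := fun a Q => (Q.map fun g => val (r a ⬝ᵥ g)).sum
  let H : T → Multiset (Vec E) → Z2 := fun a Q => (Q.map fun g => r a ⬝ᵥ g).sum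
  let n : Multiset (Vec E) → T → ℕ := fun P a => (P.map lab).count a
  have hG : ∀ a Q, 0 ≤ G a Q := fun a Q => Multiset.sum_nonneg fun x hx => by
    obtain ⟨g, -, rfl⟩ := Multiset.mem_map.1 hx
    exact val_nonneg _
  have hHG : ∀ a Q, val (H a Q) ≤ G a Q := fun a Q => val_msum_le Q _
  have h1 : NR (fun P : Multiset (Vec E) => ∀ c ∈ P, A c)
      (fun Q : Multiset (Vec E) => ∀ g ∈ Q, B g)
      (fun P Q => ∑ a, (2 * ((n P a / 2 : ℕ) : ℝ)) * G a Q) ((univ : Finset T).card * 1) :=
    NR.sum_le univ fun a _ => NR.rank_one (fun P => 2 * ((n P a / 2 : ℕ) : ℝ)) (G a)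
      (fun P _ => by positivity) (fun Q _ => hG a Q) fun _ _ _ _ => rfl
  have h2 : NR (fun P : Multiset (Vec E) => ∀ c ∈ P, A c)
      (fun Q : Multiset (Vec E) => ∀ g ∈ Q, B g)
      (fun P Q => ∑ a, val (n P a : Z2) * G a Q - val (∑ a, (n P a : Z2) * H a Q))
      ((univ : Finset (T → Z2)).card) := by
    refine NR.of_row_label univ (fun P a => (n P a : Z2)) (fun _ _ => mem_univ _)
      (fun P Q _ _ => ?_) fun P P' Q _ _ _ e => ?_
    · refine sub_nonneg.2 ((val_sum_le _ _).trans (sum_le_sum fun a _ => ?_))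
      rw [val_mul]
      exact mul_le_mul_of_nonneg_left (hHG a Q) (val_nonneg _)
    · have e' : ∀ a, (n P a : Z2) = (n P' a : Z2) := fun a => congrFun e a
      simp only [e']
  refine ((h1.add h2).congr fun P Q hP hQ => ?_).mono ?_
  · have e1 : Psi P Q = ∑ a, (n P a : ℝ) * G a Q := by
      have : Psi P Q = ((P.map lab).map fun a => G a Q).sum := by
        rw [Multiset.map_map]
        refine congrArg Multiset.sum (Multiset.map_congr rfl fun c hc => ?_)
        refine congrArg Multiset.sum (Multiset.map_congr rfl fun g hg => ?_)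
        rw [hr (lab c) c g (hP c hc) (hQ g hg) rfl]
      rw [this, msum_count]
      simp only [nsmul_eq_mul, n]
    have e2 : P.sum ⬝ᵥ Q.sum = ∑ a, (n P a : Z2) * H a Q := by
      have : P.sum ⬝ᵥ Q.sum = ((P.map lab).map fun a => H a Q).sum := by
        rw [Multiset.map_map, msum_dot]
        refine congrArg Multiset.sum (Multiset.map_congr rfl fun c hc => ?_)
        rw [dot_msum]
        refine congrArg Multiset.sum (Multiset.map_congr rfl fun g hg => ?_)
        rw [hr (lab c) c g (hP c hc) (hQ g hg) rfl]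
      rw [this, msum_count]
      simp only [nsmul_eq_mul, n]
    rw [e1, e2, ← add_sub_assoc, ← sum_add_distrib]
    congr 1
    refine sum_congr rfl fun a _ => ?_
    rw [← add_mul, ← val_natCast]
  · simp [ZMod.card]

variable [DecidableEq E]

omit [Fintype E] in
theorem two_ends {cl : Dart E → Finset (Dart E)} {φ : Dart E → Z2} {d : Dart E}
    (h : ∃ a b, ∀ d', φ d' = iz (cl d' = cl a) + iz (cl d' = cl b)) (hd : φ d = 1) :
    ∃ b, ∀ d', φ d' = iz (cl d' = cl d) + iz (cl d' = cl b) := by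
  obtain ⟨a, b, h⟩ := h
  by_cases ha : cl d = cl a
  · exact ⟨b, fun d' => by rw [h, ha]⟩
  · by_cases hb : cl d = cl b
    · exact ⟨a, fun d' => by rw [h, hb, add_comm]⟩
    · rw [h, iz_neg ha, iz_neg hb, add_zero] at hd
      exact (zero_ne_one hd).elim

theorem exists_two {α : Type*} (p : α → Prop) [DecidablePred p] {P : Multiset α}
    (h : 1 < P.countP p) : ∃ a b P₀, P = a ::ₘ b ::ₘ P₀ ∧ p a ∧ p b := by
  classical
  obtain ⟨a, ha, pa⟩ := Multiset.countP_pos.1 (zero_lt_one.trans h)
  obtain ⟨P₁, rfl⟩ := Multiset.exists_cons_of_mem ha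
  rw [Multiset.countP_cons_of_pos _ pa] at h
  obtain ⟨b, hb, pb⟩ := Multiset.countP_pos.1 (show 0 < P₁.countP p by omega)
  obtain ⟨P₀, rfl⟩ := Multiset.exists_cons_of_mem hb
  exact ⟨a, b, P₀, rfl, pa, pb⟩

end Rem

open Rem

theorem remainder : RemStmt := by
  intro γ m
  refine ⟨((2 ^ m * (2 ^ γ * 2 ^ 2 ^ m) : ℕ) : ℝ) + 2 ^ (2 ^ m * (2 ^ γ * 2 ^ 2 ^ m)),
    by positivity, fun E _ _ cl O hR hO => ?_⟩
  obtain ⟨Y, hY⟩ := hR
  let adm : Bool → Vec E → Prop := fun s c => ∀ d, (∀ o ∈ O, cl s d ≠ cl s o) →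
    c ⬝ᵥ st (cl s d) = 0
  have closed : ∀ s c c', adm s c → adm s c' →
      (∀ o : O, c ⬝ᵥ st (cl s o) = c' ⬝ᵥ st (cl s o)) → ∀ d, (c + c') ⬝ᵥ st (cl s d) = 0 := by
    intro s c c' hc hc' h d
    rw [add_dotProduct]
    by_cases hd : ∀ o ∈ O, cl s d ≠ cl s o
    · rw [hc d hd, hc' d hd, add_zero]
    · push Not at hd
      obtain ⟨o, ho, e⟩ := hd
      rw [e, h ⟨o, ho⟩, z2_add_self]
  have hrep : ∀ w : O → Z2, ∃ r : Vec E, ∀ g, adm false g →
      (fun o : O => g ⬝ᵥ st (cl false o)) = w → ∀ d, (g + r) ⬝ᵥ st (cl false d) = 0 := by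
    intro w
    by_cases hw : ∃ r, adm false r ∧ (fun o : O => r ⬝ᵥ st (cl false o)) = w
    · obtain ⟨r, h1, h2⟩ := hw
      exact ⟨r, fun g hg e => closed false g r hg h1 fun o => congrFun (e.trans h2.symm) o⟩
    · exact ⟨0, fun g hg e => (hw ⟨g, hg, e⟩).elim⟩
  choose r hr using hrep
  refine (rem_of_label (A := adm true) (B := adm false)
    (T := (O → Z2) × (Fin γ → Z2) × ((O → Z2) → Z2))
    (fun c => (fun o => c ⬝ᵥ st (cl true o), fun i => c ⬝ᵥ Y i, fun w => c ⬝ᵥ r w))
    fun c c' g hc hc' hg e => ?_).mono ?_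
  · simp only [Prod.mk.injEq] at e
    obtain ⟨e1, e2, e3⟩ := e
    have h1 := hY (c + c') (g + r _) (closed true c c' hc hc' fun o => congrFun e1 o)
      (hr _ g hg rfl) fun i => by rw [add_dotProduct, congrFun e2 i, z2_add_self]
    rw [dotProduct_add, add_dotProduct, add_dotProduct, congrFun e3 _, z2_add_self,
      add_zero] at h1
    exact z2_add_eq_zero.1 h1
  · have hc : Fintype.card ((O → Z2) × (Fin γ → Z2) × ((O → Z2) → Z2)) ≤
        2 ^ m * (2 ^ γ * 2 ^ 2 ^ m) := by
      simp only [Fintype.card_prod, Fintype.card_fun, ZMod.card, Fintype.card_coe,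
        Fintype.card_fin]
      gcongr <;> norm_num
    gcongr
    norm_num

theorem merge_valid : MergeStmt := by
  intro E _ _ cl P
  induction hn : P.card using Nat.strong_induction_on generalizing P with
  | _ n ih =>
    intro hP
    by_cases hv : ∀ d, P.countP (fun c => c ⬝ᵥ st (cl d) = 1) ≤ 1
    · exact ⟨P, ⟨hP, hv⟩, Sub.refl P, fun g => le_rfl⟩
    · push Not at hv
      obtain ⟨d, hd⟩ := hv
      obtain ⟨a, b, P₀, rfl, ha, hb⟩ := exists_two _ hd
      obtain ⟨x, hx⟩ := two_ends (φ := fun d' => a ⬝ᵥ st (cl d')) (hP a (by simp)) ha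
      obtain ⟨y, hy⟩ := two_ends (φ := fun d' => b ⬝ᵥ st (cl d')) (hP b (by simp)) hb
      obtain ⟨P', h1, h2, h3⟩ := ih ((a + b) ::ₘ P₀).card (by rw [← hn]; simp) _ rfl
        fun c hc => by
          rcases Multiset.mem_cons.1 hc with rfl | hc
          · refine ⟨x, y, fun d' => ?_⟩
            rw [add_dotProduct, hx d', hy d', add_add_add_comm, z2_add_self, zero_add]
          · exact hP c (by simp [hc])
      refine ⟨P', h1, h2.trans ⟨by simp [add_assoc], fun e he c hc => ?_⟩,
        fun g => (h3 g).trans ?_⟩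
      · rcases Multiset.mem_cons.1 hc with rfl | hc
        · rw [Pi.add_apply, he a (by simp), he b (by simp), add_zero]
        · exact he c (by simp [hc])
      · simp only [Multiset.map_cons, Multiset.sum_cons, add_dotProduct]
        linarith [val_add_le (a ⬝ᵥ g) (b ⬝ᵥ g)]

end Pool.Agent.Lib.MP_234305_co
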