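import Pool.Agent.Lib.MP_234305_co.H77Stmts2

/-!
Step 7b: the duality lemma, and seams have no leaves and a small cycle space.
-/

namespace Pool.Agent.Lib.MP_234305_co

open Finset Matrix

/-- If cycles of `q` modulo cuts of `n` have dimension at most `γ`, then so have cycles of `n`
modulo cuts of `q`. -/
theorem duality {K Q N : Type*} [Fintype K] [Fintype Q] [Fintype N] (q : K → Bool → Q)
    (n : K → Bool → N) {γ : ℕ} (Λ : (K → Z2) →ₗ[Z2] (Fin γ → Z2))
    (h : ∀ y, (∀ e, bd q y e = 0) → Λ y = 0 → ∃ f, y = cob n f) :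
    ∃ Y : Fin γ → K → Z2, ∀ z, (∀ p, bd n z p = 0) → (∀ i, z ⬝ᵥ Y i = 0) →
      ∃ f, z = cob q f := by
  classical
  let Z : Submodule Z2 (K → Z2) := LinearMap.ker (bdL q)
  let Λ' : Z →ₗ[Z2] (Fin γ → Z2) := Λ.comp Z.subtype
  obtain ⟨g₀, hg₀⟩ := Λ'.rangeRestrict.exists_rightInverse_of_surjective
    (LinearMap.range_rangeRestrict Λ')
  obtain ⟨g, hg⟩ := LinearMap.exists_extend g₀
  have key : ∀ y : Z, Λ' (g (Λ' y)) = Λ' y := fun y => by
    have h1 : g (Λ' y) = g₀ (Λ'.rangeRestrict y) := LinearMap.congr_fun hg (Λ'.rangeRestrict y)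
    rw [h1]
    exact congrArg Subtype.val (LinearMap.congr_fun hg₀ (Λ'.rangeRestrict y))
  refine ⟨fun i => (g (Pi.single i 1) : K → Z2), fun z hz hY => ?_⟩
  have hg0 : ∀ w, z ⬝ᵥ (g w : K → Z2) = 0 := fun w => by
    have h1 : w = ∑ i, w i • (Pi.single i 1 : Fin γ → Z2) := by
      conv_lhs => rw [← univ_sum_single w]
      exact sum_congr rfl fun i _ => by rw [← Pi.single_smul, smul_eq_mul, mul_one]
    rw [h1, map_sum, Submodule.coe_sum, dotProduct_sum]
    refine sum_eq_zero fun i _ => ?_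
    rw [map_smul, Submodule.coe_smul, dotProduct_smul, hY i, smul_zero]
  obtain ⟨f, hf⟩ := exists_cob_of_perp q (fun _ => True) z fun y _ hy => by
    let y' : Z := ⟨y, funext hy⟩
    obtain ⟨f, hf⟩ := h (y' - g (Λ' y') : Z) (fun e => congrFun (y' - g (Λ' y')).2 e)
      (show Λ' (y' - g (Λ' y')) = 0 by rw [map_sub, key, sub_self])
    have h2 : z ⬝ᵥ ((y' - g (Λ' y') : Z) : K → Z2) = 0 := by
      rw [hf, dot_cob, show bd n z = 0 from funext hz, zero_dotProduct]
    rw [Submodule.coe_sub, dotProduct_sub, hg0, sub_zero] at h2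
    rw [dotProduct_comm]
    exact h2
  exact ⟨f, funext fun k => hf k trivial⟩

namespace Seam

variable {E : Type} [Fintype E] [DecidableEq E] {τ : Flag E → Flag E}

/-- The other flag with the same dart of type `s`. -/
def flp (s : Bool) (x : Flag E) : Flag E :=
  (x.1, if s then (x.2.1, !x.2.2) else (!x.2.1, x.2.2))

omit [Fintype E] [DecidableEq E] in
theorem flp_flp (s : Bool) (x : Flag E) : flp s (flp s x) = x := by
  cases s <;> simp [flp]

omit [Fintype E] [DecidableEq E] in
theorem flp_ne (s : Bool) (x : Flag E) : flp s x ≠ x := by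
  obtain ⟨e, i, j⟩ := x
  cases s <;> simp [flp]

omit [Fintype E] [DecidableEq E] in
theorem pr_flp (s : Bool) (x : Flag E) : pr s (flp s x) = pr s x := by
  cases s <;> simp [flp, pr]

omit [DecidableEq E] in
theorem mem_seam {L : Type} {lb : E → L} {x : Flag E} :
    x ∈ seam τ lb ↔ lb x.1 ≠ lb (τ x).1 := by simp [seam]

omit [DecidableEq E] in
/-- Every flag or its partner is the chosen flag of a corner. -/
theorem exists_cor (hτ : IsMap τ) (x : Flag E) : ∃ k : Cor τ, k.x = x ∨ k.x = τ x := by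
  rcases lt_trichotomy (Fintype.equivFin (Flag E) x) (Fintype.equivFin (Flag E) (τ x)) with
    h | h | h
  · exact ⟨⟨x, h⟩, Or.inl rfl⟩
  · exact (hτ.2 x ((Fintype.equivFin (Flag E)).injective h).symm).elim
  · exact ⟨⟨τ x, by rwa [hτ.1]⟩, Or.inr rfl⟩

theorem noLeaf (hτ : IsMap τ) {L : Type} (lb : E → L) : NoLeaf τ (seam τ lb) := by
  classical
  intro x hx
  have hx' := mem_seam.1 hx
  refine ⟨mem_seam.2 (by rw [hτ.1]; exact hx'.symm), fun s => ?_⟩
  by_contra hno
  push Not at hno
  let S : Finset (Flag E) := univ.filter fun y => gcl τ ∅ s (pr s y) = gcl τ ∅ s (pr s x)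
  have hS : ∀ y, y ∈ S ↔ gcl τ ∅ s (pr s y) = gcl τ ∅ s (pr s x) := fun y => by simp [S]
  let f : Flag E → Z2 := fun y => iz (lb y.1 = lb x.1)
  have h1 : ∑ y ∈ S, f y = 0 := sum_invol S (flp s) f
    (fun a ha => by rw [hS, pr_flp]; exact (hS a).1 ha) (fun a _ => flp_flp s a)
    (fun a _ => flp_ne s a) fun a _ => rfl
  have hxS : x ∈ S := (hS x).2 rfl
  have hτS : τ x ∈ S.erase x :=
    mem_erase.2 ⟨hτ.2 x, (hS _).2 (gcl_step (notMem_empty x))⟩
  have h2 : ∑ y ∈ (S.erase x).erase (τ x), f y = 0 := by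
    refine sum_invol _ τ f (fun a ha => ?_) (fun a _ => hτ.1 a) (fun a _ => hτ.2 a)
      fun a ha => ?_
    · simp only [mem_erase] at ha ⊢
      refine ⟨fun h => ha.2.1 ?_, fun h => ha.1 ?_, ?_⟩
      · rw [← hτ.1 a, h, hτ.1]
      · rw [← h, hτ.1]
      · rw [hS, gcl_step (notMem_empty a)]
        exact (hS a).1 ha.2.2
    · simp only [mem_erase] at ha
      have : a ∉ seam τ lb := fun h => hno a h ha.2.1 ha.1 ((hS a).1 ha.2.2)
      rw [mem_seam, not_not] at this
      simp only [f, this]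
  rw [← add_sum_erase S f hxS, ← add_sum_erase _ f hτS, h2] at h1
  simp only [f, iz_true, iz_neg hx'.symm, add_zero] at h1
  exact one_ne_zero h1

end Seam

open Seam

theorem seam_rank : SeamStmt := by
  intro E _ _ τ L lb hτ
  refine ⟨noLeaf hτ lb, fun γ reps hR hreps => ?_⟩
  obtain ⟨Λ, hΛ⟩ := hR
  obtain ⟨Y, hY⟩ := duality (med τ) (rad τ) Λ hΛ
  let W := radCyc τ (seam τ lb)
  let Φ : W →ₗ[Z2] (Fin γ → Z2) :=
    { toFun := fun z i => (z : Cor τ → Z2) ⬝ᵥ Y i
      map_add' := fun a b => funext fun i => by simp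
      map_smul' := fun c a => funext fun i => by simp }
  let U : Submodule Z2 (E → Z2) :=
    { carrier := {f | ∀ x : Flag E, lb x.1 = lb (τ x).1 → f x.1 = f (τ x).1}
      add_mem' := fun {a b} ha hb x hx => by simp [ha x hx, hb x hx]
      zero_mem' := fun _ _ => rfl
      smul_mem' := fun c a ha x hx => by simp [ha x hx] }
  have h1 : Module.finrank Z2 (LinearMap.range Φ) ≤ γ :=
    (Submodule.finrank_le _).trans (by simp)
  have h2 : Module.finrank Z2 U ≤ reps.card := by
    let ρ : U →ₗ[Z2] (reps → Z2) :=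
      { toFun := fun f r => (f : E → Z2) r
        map_add' := fun a b => rfl
        map_smul' := fun c a => rfl }
    have hρ : Function.Injective ρ := by
      refine (injective_iff_map_eq_zero ρ).2 fun f hf => Subtype.ext (funext fun e => ?_)
      obtain ⟨r, hr, hl⟩ := hreps e
      have := Link.const (f : E → Z2) (fun x hx => f.2 x hx) hl
      rw [← this]
      exact congrFun hf ⟨r, hr⟩
    simpa using LinearMap.finrank_le_finrank_of_injective hρ
  have h3 : (LinearMap.ker Φ).map W.subtype ≤ U.map (cobL (med τ)) := by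
    rintro _ ⟨z, hz, rfl⟩
    obtain ⟨f, hf⟩ := hY z z.2.2 fun i => congrFun hz i
    have hk : ∀ k : Cor τ, lb k.x.1 = lb (τ k.x).1 → f k.x.1 = f (τ k.x).1 := fun k hk => by
      have := z.2.1 k fun h => mem_seam.1 h hk
      rw [hf] at this
      exact z2_add_eq_zero.1 this
    refine ⟨f, fun x hx => ?_, hf.symm⟩
    obtain ⟨k, rfl | h⟩ := exists_cor hτ x
    · exact hk k hx
    · have := hk k (by rw [h, hτ.1]; exact hx.symm)
      rw [h, hτ.1] at this
      exact this.symm
  have h4 : Module.finrank Z2 (LinearMap.ker Φ) ≤ reps.card := by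
    rw [← Submodule.finrank_map_subtype_eq W]
    exact ((Submodule.finrank_mono h3).trans (Submodule.finrank_map_le _ _)).trans h2
  have := LinearMap.finrank_range_add_finrank_ker Φ
  change Module.finrank Z2 W ≤ _
  omega

end Pool.Agent.Lib.MP_234305_co
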