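import Pool.Agent.Lib.MP_234305_co.H47Tree

/-!
Rows whose cycles are sums of faces.
-/

namespace Pool.Agent.Lib.MP_234305_co.Slack

open Finset Matrix

variable {E V : Type} [Fintype E] [DecidableEq E] [Fintype V] [DecidableEq V]
  {τ : Flag E → Flag E} {vtx : Dart E → V}

/-- `K` contains `r` and is connected. -/
def KC (vtx : Dart E → V) (r : V) (K : Finset V) : Prop :=
  r ∈ K ∧ ∀ v ∈ K,
    Link (fun e i => vtx (e, i)) (fun e => vtx (e, false) ∈ K ∧ vtx (e, true) ∈ K) r v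

/-- All cycles avoiding `K` are sums of faces. -/
def CaseA (τ : Flag E → Flag E) (vtx : Dart E → V) (K : Finset V) : Prop :=
  ∀ z : Vec E, (∀ d, vtx d ∈ K → z d.1 = 0) → (∀ d, z ⬝ᵥ st (gcl τ ∅ true d) = 0) →
    ∃ f : Dart E → Z2, (∀ d d', Sec τ ∅ false d d' → f d = f d') ∧
      ∀ e, z e = f (e, false) + f (e, true)

omit [Fintype V] [DecidableEq V] in
theorem dot_st_vtx (hv : ∀ d d', vtx d = vtx d' ↔ Sec τ ∅ true d d') (z : Vec E) (d : Dart E) :
    z ⬝ᵥ st (gcl τ ∅ true d) = bd (fun e i => vtx (e, i)) z (vtx d) := by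
  refine sum_congr rfl fun e _ => ?_
  simp only [st_eq, mem_gcl, ← hv, eq_comm]

omit [Fintype V] [DecidableEq V] in
theorem face_cycle (hτ : IsMap τ) {f : Dart E → Z2} (hf : ∀ d d', Sec τ ∅ false d d' → f d = f d')
    (d : Dart E) : (fun e => f (e, false) + f (e, true)) ⬝ᵥ st (gcl τ ∅ true d) = 0 := by
  have h1 : (fun e => f (e, false) + f (e, true)) = st (univ.filter fun d => f d = 1) := by
    funext e
    have : ∀ a : Z2, iz (a = 1) = a := fun a => by
      rcases z2_cases a with rfl | rfl <;> simp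
    simp only [st_eq, mem_filter, mem_univ, true_and, this]
  rw [h1, dotProduct_comm]
  simpa using st_dot_st (B := ∅) hτ (by simp) (fun x hx => mem_gcl_step hx d) fun x hx => by
    simp only [mem_filter, mem_univ, true_and, hf _ _ (Sec.step hx)]

omit [Fintype E] [DecidableEq E] in
theorem flag_step {f : Dart E → Z2} (hf : ∀ d d', Sec τ ∅ false d d' → f d = f d') (x : Flag E)
    (h1 : f (x.1, false) = f (x.1, true)) (h2 : f ((τ x).1, false) = f ((τ x).1, true)) :
    f (x.1, false) = f ((τ x).1, false) := by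
  have h := hf _ _ (Sec.step (notMem_empty x))
  simp only [pr, Bool.false_eq_true, if_false] at h
  rcases h3 : x.2.2 <;> rcases h4 : (τ x).2.2 <;> simp_all

omit [Fintype E] [DecidableEq E] [Fintype V] [DecidableEq V] in
theorem face_const (hv : ∀ d d', vtx d = vtx d' ↔ Sec τ ∅ true d d') {K : Finset V} {d₀ : Dart E}
    (hK : KC vtx (vtx d₀) K) {f : Dart E → Z2} (hf : ∀ d d', Sec τ ∅ false d d' → f d = f d')
    (h : ∀ d, vtx d ∈ K → f (d.1, false) = f (d.1, true)) :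
    ∀ d, vtx d ∈ K → f (d.1, false) = f (d₀.1, false) := by
  have h1 : ∀ d d', vtx d = vtx d' → vtx d ∈ K → f (d.1, false) = f (d'.1, false) := by
    intro d d' hd
    refine (Link.induct (r := fun d d' => vtx d = vtx d' ∧
      (vtx d ∈ K → f (d.1, false) = f (d'.1, false))) ⟨fun _ => ⟨rfl, fun _ => rfl⟩,
      fun a => ⟨a.1.symm, fun b => (a.2 (a.1 ▸ b)).symm⟩,
      fun a b => ⟨a.1.trans b.1, fun c => (a.2 c).trans (b.2 (a.1 ▸ c))⟩⟩ (fun x hx => ?_)
      ((hv d d').1 hd)).2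
    have h2 := (hv _ _).2 (Sec.step (τ := τ) (s := true) hx)
    exact ⟨h2, fun h3 => flag_step hf x (h _ h3) (h (pr true (τ x)) (h2 ▸ h3))⟩
  intro d hd
  refine (Link.iff (p := fun v => ∀ d, vtx d = v → f (d.1, false) = f (d₀.1, false))
    (fun e he => ⟨fun a d b => ?_, fun a d b => ?_⟩) (hK.2 _ hd)).1
    (fun d b => h1 d d₀ b (b ▸ hK.1)) d rfl
  · exact (h1 d (e, true) b (b ▸ he.2)).trans (a (e, false) rfl)
  · exact (h1 d (e, false) b (b ▸ he.1)).trans (a (e, true) rfl)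

theorem dual_conn (hτ : IsMap τ) (hv : ∀ d d', vtx d = vtx d' ↔ Sec τ ∅ true d d')
    (hs : Function.Surjective vtx) (hm : ∀ e e', Link (med τ) (fun _ => True) e e')
    {T : Finset E} (hT : Col vtx T) (d₀ d : Dart E) :
    Link (fun e s => gcl τ ∅ false (e, s)) (· ∉ T) (gcl τ ∅ false d₀) (gcl τ ∅ false d) := by
  have : Nonempty E := ⟨d.1⟩
  obtain ⟨par, hp⟩ := hT.rt (vtx d)
  let f : Dart E → Z2 := fun d =>
    iz (Link (fun e s => gcl τ ∅ false (e, s)) (· ∉ T) (gcl τ ∅ false d₀) (gcl τ ∅ false d))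
  have hf : ∀ d d', Sec τ ∅ false d d' → f d = f d' := fun d d' h => by
    simp only [f, gcl_eq_iff.2 h]
  have h1 := hp.cyc_zero (z := fun e => f (e, false) + f (e, true)) (fun e he => by
    have := Link.edge (n := fun e s => gcl τ ∅ false (e, s)) (S := (· ∉ T)) he
    rw [z2_add_eq_zero]
    exact iz_congr ⟨fun h => h.trans this, fun h => h.trans this.symm⟩)
    fun v => by
      obtain ⟨d, rfl⟩ := hs v
      rw [← dot_st_vtx hv, face_cycle hτ hf]
  simp only [z2_add_eq_zero] at h1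
  have h2 := Link.const (fun e => f (e, false)) (fun k _ => flag_step hf k.x (h1 _) (h1 _))
    (hm d₀.1 d.1)
  have h3 : ∀ d : Dart E, f (d.1, false) = f d := by
    rintro ⟨e, _ | _⟩
    exacts [rfl, h1 e]
  simp only [h3] at h2
  by_contra h4
  simp only [f, iz_pos (Link.refl _), iz_neg h4] at h2
  exact one_ne_zero h2

/-- The faces that avoid `K`. -/
noncomputable def inner (τ : Flag E → Flag E) (vtx : Dart E → V) (K : Finset V) :
    Finset (Finset (Dart E)) :=
  (univ.image (gcl τ ∅ false)).filter fun F => ∀ d ∈ F, vtx (d.1, false) ∉ K ∧ vtx (d.1, true) ∉ K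

theorem euler_le (hv : ∀ d d', vtx d = vtx d' ↔ Sec τ ∅ true d d') (hs : Function.Surjective vtx)
    {K : Finset V} {d₀ : Dart E} (hK : KC vtx (vtx d₀) K) (hne : Kᶜ.Nonempty)
    (hA : CaseA τ vtx K) :
    (univ.filter fun e => vtx (e, false) ∈ Kᶜ ∧ vtx (e, true) ∈ Kᶜ).card + 1 ≤
      (inner τ vtx K).card + Kᶜ.card := by
  classical
  obtain ⟨s₀, hs₀⟩ := hne
  set E₀ := univ.filter fun e => vtx (e, false) ∈ Kᶜ ∧ vtx (e, true) ∈ Kᶜ with hE
  let X : (E₀ → Z2) →ₗ[Z2] Vec E := Function.ExtendByZero.linearMap Z2 Subtype.val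
  let Y : (inner τ vtx K → Z2) →ₗ[Z2] (Finset (Dart E) → Z2) :=
    Function.ExtendByZero.linearMap Z2 Subtype.val
  let D : (E₀ → Z2) →ₗ[Z2] (Kᶜ.erase s₀ → Z2) :=
    LinearMap.funLeft Z2 Z2 Subtype.val ∘ₗ bdL (fun e i => vtx (e, i)) ∘ₗ X
  let C : (inner τ vtx K → Z2) →ₗ[Z2] (E₀ → Z2) :=
    LinearMap.funLeft Z2 Z2 Subtype.val ∘ₗ cobL (fun e s => gcl τ ∅ false (e, s)) ∘ₗ Y
  have hY : ∀ h F, Y h F = Function.extend Subtype.val h 0 F := fun _ _ => rfl
  have h1 := D.finrank_range_add_finrank_ker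
  have h2 := (LinearMap.range D).finrank_le
  have h3 := C.finrank_range_le
  have h4 : LinearMap.ker D ≤ LinearMap.range C := by
    intro z hz
    have a1 : ∀ d, vtx d ∈ K → X z d.1 = 0 := fun d hd =>
      Function.extend_apply' _ _ _ (by
        rintro ⟨e, he⟩
        have := (both' (fun d => vtx d ∈ Kᶜ) d).1 (he ▸ (mem_filter.1 e.2).2)
        exact mem_compl.1 this.1 hd)
    have a2 : ∀ v, v ≠ s₀ → bd (fun e i => vtx (e, i)) (X z) v = 0 := fun v hv' => by
      by_cases h : v ∈ K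
      · refine sum_eq_zero fun e _ => ?_
        by_cases b1 : vtx (e, false) = v
        · rw [a1 (e, false) (b1 ▸ h), zero_mul]
        by_cases b2 : vtx (e, true) = v
        · rw [a1 (e, true) (b2 ▸ h), zero_mul]
        simp [b1, b2]
      · exact congrFun (LinearMap.mem_ker.1 hz) ⟨v, mem_erase.2 ⟨hv', mem_compl.2 h⟩⟩
    have a3 : bd (fun e i => vtx (e, i)) (X z) s₀ = 0 := by
      have := dot_cob (fun e i => vtx (e, i)) (X z) (fun _ => 1)
      rw [dotProduct, dotProduct, sum_eq_single s₀ (fun v _ h => by rw [a2 v h, zero_mul])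
        (by simp), mul_one] at this
      rw [← this]
      exact sum_eq_zero fun e _ => by simp [cob, z2_add_self]
    obtain ⟨f, b1, b2⟩ := hA (X z) a1 fun d => by
      rw [dot_st_vtx hv]
      by_cases h : vtx d = s₀
      exacts [h ▸ a3, a2 _ h]
    have b3 : ∀ d, vtx d ∈ K → f (d.1, false) = f (d.1, true) := fun d hd =>
      z2_add_eq_zero.1 ((b2 _).symm.trans (a1 d hd))
    have b4 := face_const hv hK b1 b3
    have b5 : Function.FactorsThrough f (gcl τ ∅ false) := fun d d' h => b1 _ _ (gcl_eq_iff.1 h)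
    have b6 : ∀ d, Y (fun F => Function.extend (gcl τ ∅ false) f 0 F + f (d₀.1, false))
        (gcl τ ∅ false d) = f d + f (d₀.1, false) := fun d => by
      rw [hY]
      by_cases h : gcl τ ∅ false d ∈ inner τ vtx K
      · refine (Subtype.val_injective.extend_apply _ _ (⟨_, h⟩ : inner τ vtx K)).trans ?_
        rw [b5.extend_apply]
      · rw [Function.extend_apply' _ _ _ (by rintro ⟨F, hF⟩; exact h (hF ▸ F.2)), Pi.zero_apply]
        simp only [inner, mem_filter, mem_image_of_mem _ (mem_univ d), true_and, not_forall,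
          not_and_or, not_not] at h
        obtain ⟨⟨e, i⟩, c1, c2⟩ := h
        have c3 : f (e, false) = f (d₀.1, false) ∧ f (e, false) = f (e, true) :=
          c2.elim (fun c => ⟨b4 (e, false) c, b3 (e, false) c⟩)
            fun c => ⟨b4 (e, true) c, b3 (e, true) c⟩
        rw [b1 _ _ (mem_gcl.1 c1), eq_comm]
        refine z2_add_eq_zero.2 ?_
        cases i
        exacts [c3.1, c3.2 ▸ c3.1]
    refine ⟨fun F => Function.extend (gcl τ ∅ false) f 0 F + f (d₀.1, false), funext fun e => ?_⟩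
    change Y _ _ + Y _ _ = _
    rw [b6, b6, add_add_add_comm, z2_add_self, add_zero, ← b2]
    exact Subtype.val_injective.extend_apply _ _ e
  have h5 := Submodule.finrank_mono h4
  simp only [Module.finrank_fintype_fun_eq_card, Fintype.card_coe] at h1 h2 h3
  have h6 := card_erase_add_one hs₀
  omega

theorem caseA_nr (hτ : IsMap τ) (hv : ∀ d d', vtx d = vtx d' ↔ Sec τ ∅ true d d')
    (hs : Function.Surjective vtx) (hm : ∀ e e', Link (med τ) (fun _ => True) e e')
    (d₀ : Dart E) :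
    NR (fun K => KC vtx (vtx d₀) K ∧ Kᶜ.Nonempty ∧ CaseA τ vtx K) (Col vtx)
      (fun K T => slack vtx Kᶜ T) (1 + Fintype.card E * 1 + 2 * Fintype.card E) := by
  classical
  have : Nonempty E := ⟨d₀.1⟩
  let S := (univ.image (gcl τ ∅ false)).erase (gcl τ ∅ false (d₀.1, false))
  refine nr_col (fun T (p : Finset (Dart E) → Dart E) => ∃ dep,
    ∀ F ∈ S, Rt (gcl τ ∅ false) (· ∉ T) p dep F) ?_ fun T hT => ?_
  swap
  · obtain ⟨p, dep, h⟩ := exists_rt (gcl τ ∅ false) (· ∉ T) (gcl τ ∅ false (d₀.1, false))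
    refine ⟨p, dep, fun F hF => ?_⟩
    obtain ⟨d, -, rfl⟩ := mem_image.1 (mem_of_mem_erase hF)
    exact h _ (dual_conn hτ hv hs hm hT _ d) (ne_of_mem_erase hF)
  refine (((NR.rank_one (fun K => ((inner τ vtx K).card + Kᶜ.card : ℝ) -
    ((univ.filter fun e => vtx (e, false) ∈ Kᶜ ∧ vtx (e, true) ∈ Kᶜ).card + 1)) (fun _ => 1)
    (fun K hK => ?_) (fun _ _ => zero_le_one) fun _ _ _ _ => rfl).add
    (NR.sum_le univ fun e _ => NR.rank_one
      (fun K => ind (vtx (e, false) ∈ Kᶜ ∧ vtx (e, true) ∈ Kᶜ))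
      (fun x => ind (e ∉ x.1 ∧ e ∉ S.image fun F => (x.2 F).1)) (fun _ _ => ind_nonneg _)
      (fun _ _ => ind_nonneg _) fun _ _ _ _ => rfl)).add
    (nr_par (gcl τ ∅ false) (fun _ => S) (fun x => x.2)
      (fun x ⟨dep, h⟩ F hF => (h F hF).1)
      (fun K d => (vtx (d.1, false) ∈ Kᶜ ∧ vtx (d.1, true) ∈ Kᶜ) ∧ gcl τ ∅ false d ∉ inner τ vtx K)
      fun _ _ => True)).congr ?_
  · rw [sub_nonneg]
    exact_mod_cast euler_le hv hs hK.1 hK.2.1 hK.2.2
  rintro K ⟨T, p⟩ ⟨hK, -⟩ ⟨dep, h⟩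
  dsimp only at h ⊢
  have h1 : ∑ e, ind (vtx (e, false) ∈ Kᶜ ∧ vtx (e, true) ∈ Kᶜ) =
      ∑ e ∈ T, ind (vtx (e, false) ∈ Kᶜ ∧ vtx (e, true) ∈ Kᶜ) +
      ∑ e, ind (vtx (e, false) ∈ Kᶜ ∧ vtx (e, true) ∈ Kᶜ) *
        ind (e ∉ T ∧ e ∉ S.image fun F => (p F).1) +
      ∑ e ∈ S.image fun F => (p F).1, ind (vtx (e, false) ∈ Kᶜ ∧ vtx (e, true) ∈ Kᶜ) := by
    rw [← sum_ite_mem_eq T, ← sum_ite_mem_eq (S.image _), ← sum_add_distrib, ← sum_add_distrib]
    refine sum_congr rfl fun e _ => ?_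
    by_cases a1 : e ∈ S.image fun F => (p F).1
    · have a2 : e ∉ T := by
        obtain ⟨F, hF, rfl⟩ := mem_image.1 a1
        exact (h F hF).2.1
      simp only [a1, a2, if_true, if_false, not_true, and_false, ind_neg not_false]
      ring
    · by_cases a2 : e ∈ T <;> simp only [a1, a2, if_true, if_false, not_true, false_and,
        ind_neg not_false, not_false_iff, and_self, ind_pos trivial] <;> ring
  have h2 : ((inner τ vtx K).card : ℝ) = ∑ F ∈ S, ind (F ∈ inner τ vtx K) := by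
    rw [← card_eq_ind]
    congr 2
    ext F
    refine ⟨fun a => mem_filter.2 ⟨mem_erase.2 ⟨?_, (mem_filter.1 a).1⟩, a⟩,
      fun a => (mem_filter.1 a).2⟩
    rintro rfl
    exact ((both' (fun d => vtx d ∉ K) d₀).1 ((mem_filter.1 a).2 (d₀.1, false) (self_mem_gcl _))).1 hK.1
  have h3 : ∑ F ∈ S, ind (vtx ((p F).1, false) ∈ Kᶜ ∧ vtx ((p F).1, true) ∈ Kᶜ) =
      ∑ F ∈ S, ind (F ∈ inner τ vtx K) +
      ∑ F ∈ S, ind ((vtx ((p F).1, false) ∈ Kᶜ ∧ vtx ((p F).1, true) ∈ Kᶜ) ∧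
        gcl τ ∅ false (p F) ∉ inner τ vtx K) * ind True := by
    rw [← sum_add_distrib]
    refine sum_congr rfl fun F hF => ?_
    rw [(h F hF).1, ind_pos trivial, mul_one]
    by_cases a : F ∈ inner τ vtx K
    · have := (mem_filter.1 a).2 (p F) ((h F hF).1.subset (self_mem_gcl _))
      simp [ind, a, this]
    · simp [ind, a]
  rw [sum_image fun F hF G hG e => (h F hF).inj (h G hG) e, h3, ← h2] at h1
  rw [slack, card_eq_ind, card_eq_ind, h1]
  ring

end Pool.Agent.Lib.MP_234305_co.Slack
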