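import Pool.Agent.Lib.MP_234305_co.H47A

/-!
Rows that avoid a dual cycle which is not a cut.
-/

namespace Pool.Agent.Lib.MP_234305_co.Slack

open Finset Matrix

variable {E V : Type} [Fintype E] [DecidableEq E] [Fintype V] [DecidableEq V]
  {τ : Flag E → Flag E} {vtx : Dart E → V}

/-- Data attached to a column. -/
structure CD (E V : Type) where
  /-- parents for the fixed root -/
  par : V → Dart E
  /-- potential -/
  t : V → Z2
  /-- the special edge -/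
  e₀ : E
  /-- parents for the special root -/
  par' : V → Dart E
  /-- the path -/
  A : Finset V

/-- The properties of the data. -/
def CQ (vtx : Dart E → V) (φ : Vec E) (r : V) (T : Finset E) (c : CD E V) : Prop :=
  RT vtx T r c.par ∧ c.t r = 0 ∧ (∀ e ∈ T, φ e = c.t (vtx (e, false)) + c.t (vtx (e, true))) ∧
    φ c.e₀ ≠ c.t (vtx (c.e₀, false)) + c.t (vtx (c.e₀, true)) ∧
    RT vtx T (vtx (c.e₀, false)) c.par' ∧ c.A ⊆ univ.erase (vtx (c.e₀, false)) ∧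
    (∀ g : V → ℝ, ∑ u ∈ c.A, (g u - g (vtx (fl (c.par' u)))) =
      g (vtx (c.e₀, true)) - g (vtx (c.e₀, false))) ∧
    ∀ g : V → Z2, ∑ u ∈ c.A, (g u + g (vtx (fl (c.par' u)))) =
      g (vtx (c.e₀, true)) + g (vtx (c.e₀, false))

/-- The vertex of a dart of the cover. -/
def lab (vtx : Dart E → V) (φ : Vec E) (d : Dart (E × Z2)) : V × Z2 :=
  (vtx (d.1.1, d.2), d.1.2 + if d.2 then φ d.1.1 else 0)

/-- The lifted path. -/
noncomputable def Mt (vtx : Dart E → V) (c : CD E V) : Vec (E × Z2) := fun e =>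
  iz (e ∈ c.A.image fun u => ((c.par' u).1, c.t (vtx ((c.par' u).1, false))))

theorem sum_bit (p : Prop) (x : Z2) (g : Z2 → Prop) :
    ∑ b, ind (p ∧ x = b) * ind (g b) = ind (p ∧ g x) := by
  rw [sum_eq_single x (fun b _ hb => by rw [ind_neg fun h => hb h.2.symm, zero_mul]) (by simp)]
  by_cases a : p <;> by_cases b : g x <;> simp [ind, a, b]

theorem val_iz (p q : Prop) : val (iz p + iz q) = 2 * ind (¬p ∧ q) + (ind p - ind q) := by
  have h : ZMod.val (1 : ZMod 2) = 1 := rfl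
  by_cases a : p <;> by_cases b : q <;> simp [val, ind, a, b, z2_add_self, h]
  norm_num

omit [Fintype E] in
theorem CQ.sum {φ : Vec E} {r : V} {T : Finset E} {c : CD E V} (h : CQ vtx φ r T c) [Fintype E]
    {α : Type} [AddCommMonoid α] (F : Z2 → α) (hF : F 0 = 0) (p : V × Z2 → Prop)
    {D : Vec (E × Z2)} (hD : ∀ e, D e = iz (p (lab vtx φ (e, false))) + iz (p (lab vtx φ (e, true)))) :
    ∑ e, F (Mt vtx c e * D e) = ∑ u ∈ c.A, F (iz (p (u, c.t u)) +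
      iz (p (vtx (fl (c.par' u)), c.t (vtx (fl (c.par' u)))))) := by
  obtain ⟨-, -, h1, -, h2, h3, -⟩ := h
  rw [← sum_subset (subset_univ (c.A.image fun u =>
    ((c.par' u).1, c.t (vtx ((c.par' u).1, false))))) fun e _ he => by
      rw [Mt, iz_neg he, zero_mul, hF],
    sum_image (g := fun u => ((c.par' u).1, c.t (vtx ((c.par' u).1, false))))
      fun u hu v hv e => h2.inj (h3 hu) (h3 hv) (congrArg Prod.fst e :)]
  refine sum_congr rfl fun u hu => ?_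
  have h4 := both (fun d => iz (p (vtx d, c.t (vtx d)))) (c.par' u)
  rw [h2.vt u (h3 hu)] at h4
  rw [Mt, iz_pos (mem_image_of_mem _ hu), one_mul, hD, ← h4]
  simp only [lab, Bool.false_eq_true, if_false, if_true, add_zero, h1 _ (h2.mem u (h3 hu)),
    ← add_assoc, z2_add_self, zero_add]

theorem caseB_nr {φ : Vec E} (hφ : ∀ t : V → Z2, ∃ e, φ e ≠ t (vtx (e, false)) + t (vtx (e, true)))
    (hτ : IsMap (cov τ φ))
    (hc : ∀ d d', Sec (cov τ φ) ∅ true d d' ↔ lab vtx φ d = lab vtx φ d') (r : V) {N : ℝ}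
    (hG : NR (fun i : E × Vec (E × Z2) => ∀ d, (∀ d' ∈ gcl (cov τ φ) ∅ true d, d'.1.1 ≠ i.1) →
          i.2 ⬝ᵥ st (gcl (cov τ φ) ∅ true d) = 0)
        (fun D : Vec (E × Z2) => ∀ d, D ⬝ᵥ st (gcl (cov τ φ) ∅ false d) = 0)
        (fun i D => cnt i.2 D - val (i.2 ⬝ᵥ D)) N) :
    NR (fun K : Finset V => ∃ f : V → Z2, r ∈ K ∧ f r = 0 ∧ ∀ e, vtx (e, false) ∈ K →
        vtx (e, true) ∈ K → φ e = f (vtx (e, false)) + f (vtx (e, true))) (Col vtx)
      (fun K T => slack vtx Kᶜ T) (8 * Fintype.card E + N) := by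
  classical
  obtain ⟨e₁, -⟩ := hφ 0
  have : Nonempty E := ⟨e₁⟩
  have : Nonempty (CD E V) := ⟨⟨fun _ => (e₁, true), 0, e₁, fun _ => (e₁, true), ∅⟩⟩
  refine nr_row (fun K (f : V → Z2) => r ∈ K ∧ f r = 0 ∧ ∀ e, vtx (e, false) ∈ K →
    vtx (e, true) ∈ K → φ e = f (vtx (e, false)) + f (vtx (e, true))) ?_ fun _ h => h
  refine nr_col (CQ vtx φ r) ?_ fun T hT => ?_
  swap
  · obtain ⟨par, h1⟩ := hT.rt r
    obtain ⟨t, h2, h3⟩ := h1.exists_cob φ
    obtain ⟨e₀, h4⟩ := hφ t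
    obtain ⟨par', h5⟩ := hT.rt (vtx (e₀, false))
    obtain ⟨A, h6, h7⟩ := h5.exists_anc (vtx (e₀, true))
    exact ⟨⟨par, t, e₀, par', A⟩, h1, h2, h3, h4, h5, h6, h7⟩
  let D : Finset V × (V → Z2) → Vec (E × Z2) := fun x =>
    st (univ.filter fun d => (lab vtx φ d).1 ∈ x.1 ∧ x.2 (lab vtx φ d).1 = (lab vtx φ d).2)
  let P : Finset V × (V → Z2) → Prop := fun x => r ∈ x.1 ∧ x.2 r = 0 ∧ ∀ e, vtx (e, false) ∈ x.1 →
    vtx (e, true) ∈ x.1 → φ e = x.2 (vtx (e, false)) + x.2 (vtx (e, true))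
  let Q : Finset E × CD E V → Prop := fun x => CQ vtx φ r x.1 x.2
  have n1 := NR.sum_le univ fun (b : Z2) _ => nr_par (P := P) (Q := Q) vtx (fun _ => univ.erase r)
    (fun x => x.2.par) (fun x h => h.1.vt)
    (fun x d => (vtx d ∉ x.1 ∧ vtx (fl d) ∈ x.1) ∧ x.2 (vtx (fl d)) = b)
    fun x d => b ≠ x.2.t (vtx (fl d))
  have n2 := NR.sum_le univ fun (b : Z2) _ => nr_par (P := P) (Q := Q) vtx
    (fun x => univ.erase (vtx (x.2.e₀, false)) \ x.2.A) (fun x => x.2.par')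
    (fun x h v hv => h.2.2.2.2.1.vt v (mem_sdiff.1 hv).1)
    (fun x d => (vtx d ∉ x.1 ∧ vtx (fl d) ∈ x.1) ∧ x.2 (vtx (fl d)) = b)
    fun x d => b = x.2.t (vtx (fl d))
  refine (((n1.add n2).add ((hG.swap.comap (P' := P) (Q' := Q) D (fun x => (x.2.e₀, Mt vtx x.2))
    ?_ ?_ fun _ _ _ _ => rfl).smul (c := 1 / 2) (by norm_num))).congr ?_).mono
    (le_of_eq (by simp; ring))
  · intro x _ d
    simpa using st_dot_st (B := ∅) hτ (by simp) (fun y hy => by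
      simp only [mem_filter, mem_univ, true_and, (hc _ _).1 (Sec.step hy)])
      fun y hy => mem_gcl_step hy d
  · rintro ⟨T, c⟩ h d hd
    have h1 := h.sum id rfl (fun p => lab vtx φ d = p) (D := st (gcl (cov τ φ) ∅ true d))
      fun e => by simp only [st_eq, mem_gcl, hc]
    have h2 : ∀ i, ¬ lab vtx φ d = (vtx (c.e₀, i), c.t (vtx (c.e₀, i))) := fun i e =>
      hd ((c.e₀, c.t (vtx (c.e₀, i)) + if i then φ c.e₀ else 0), i) (mem_gcl.2 ((hc _ _).2 (by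
        rw [e, lab, add_assoc, z2_add_self, add_zero]))) rfl
    refine h1.trans ((h.2.2.2.2.2.2.2 fun u => iz (lab vtx φ d = (u, c.t u))).trans ?_)
    rw [iz_neg (h2 _), iz_neg (h2 _), add_zero]
  rintro ⟨K, f⟩ ⟨T, c⟩ ⟨k1, k2, k3⟩ h
  change CQ vtx φ r T c at h
  dsimp only at k1 k2 k3 ⊢
  have hD : ∀ e, D (K, f) e = iz ((fun p : V × Z2 => p.1 ∈ K ∧ f p.1 = p.2) (lab vtx φ (e, false))) +
      iz ((fun p : V × Z2 => p.1 ∈ K ∧ f p.1 = p.2) (lab vtx φ (e, true))) := fun e => by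
    simp only [D, st_eq, mem_filter, mem_univ, true_and]
  have h1 := h.sum val (by simp [val]) (fun p : V × Z2 => p.1 ∈ K ∧ f p.1 = p.2) hD
  have h2 := h.sum id rfl (fun p : V × Z2 => p.1 ∈ K ∧ f p.1 = p.2) hD
  obtain ⟨a1, a2, a3, a4, a5, a6, a7, a8⟩ := h
  dsimp only [id] at h1 h2
  rw [a8 fun u => iz (u ∈ K ∧ f u = c.t u)] at h2
  simp only [val_iz] at h1
  rw [sum_add_distrib, a7 fun u => ind (u ∈ K ∧ f u = c.t u), ← mul_sum] at h1
  have e1 : ∀ d : Dart E, d.1 ∈ T →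
      (vtx d ∈ (K.filter fun v => f v = c.t v)ᶜ ∧ vtx (fl d) ∉ (K.filter fun v => f v = c.t v)ᶜ ↔
        (vtx d ∉ K ∧ vtx (fl d) ∈ K) ∧ f (vtx (fl d)) = c.t (vtx (fl d))) := fun d hd => by
    simp only [mem_compl, mem_filter, not_not]
    refine ⟨fun ⟨b1, b2⟩ => ⟨⟨fun b3 => b1 ⟨b3, ?_⟩, b2.1⟩, b2.2⟩,
      fun ⟨b1, b2⟩ => ⟨fun b3 => b1.1 b3.1, b1.2, b2⟩⟩
    obtain ⟨b4, b5⟩ := (both' (fun d => vtx d ∈ K) d).2 ⟨b3, b2.1⟩
    have b6 := (k3 _ b4 b5).symm.trans (a3 _ hd)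
    rw [both (fun d => f (vtx d)), both (fun d => c.t (vtx d)), b2.2] at b6
    exact add_right_cancel b6
  have e2 := a1.slack Kᶜ
  have e3 := a1.slack (K.filter fun v => f v = c.t v)ᶜ
  have e4 := a5.slack (K.filter fun v => f v = c.t v)ᶜ
  have e5 : ∑ v ∈ univ.erase r, ind (v ∈ Kᶜ ∧ vtx (fl (c.par v)) ∉ Kᶜ) =
      ∑ v ∈ univ.erase r, ind (v ∈ (K.filter fun v => f v = c.t v)ᶜ ∧
        vtx (fl (c.par v)) ∉ (K.filter fun v => f v = c.t v)ᶜ) +
      ∑ v ∈ univ.erase r, ind ((vtx (c.par v) ∉ K ∧ vtx (fl (c.par v)) ∈ K) ∧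
        f (vtx (fl (c.par v))) ≠ c.t (vtx (fl (c.par v)))) := by
    rw [← sum_add_distrib]
    refine sum_congr rfl fun v hv => ?_
    have := e1 _ (a1.mem v hv)
    rw [a1.vt v hv] at this ⊢
    rw [this]
    by_cases b1 : v ∈ K <;> by_cases b2 : vtx (fl (c.par v)) ∈ K <;>
      by_cases b3 : f (vtx (fl (c.par v))) = c.t (vtx (fl (c.par v))) <;> simp [ind, b1, b2, b3]
  have e6 : ∑ v ∈ univ.erase (vtx (c.e₀, false)) \ c.A, ind (v ∈ (K.filter fun v => f v = c.t v)ᶜ ∧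
        vtx (fl (c.par' v)) ∉ (K.filter fun v => f v = c.t v)ᶜ) =
      ∑ v ∈ univ.erase (vtx (c.e₀, false)) \ c.A,
        ind ((vtx (c.par' v) ∉ K ∧ vtx (fl (c.par' v)) ∈ K) ∧
        f (vtx (fl (c.par' v))) = c.t (vtx (fl (c.par' v)))) := sum_congr rfl fun v hv => by
    rw [← e1 _ (a5.mem v (mem_sdiff.1 hv).1), a5.vt v (mem_sdiff.1 hv).1]
  rw [← sum_sdiff a6, e6] at e4
  rw [ind_pos (by simpa using k1), e5] at e2
  rw [ind_pos (by simp [k1, k2, a2])] at e3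
  rw [sum_comm, sum_congr rfl fun v _ => sum_bit _ _ _, sum_comm (s := univ),
    sum_congr rfl fun v _ => sum_bit _ _ _, cnt, h1, dotProduct, h2, val_iz]
  simp only [mem_compl, mem_filter, not_not] at e2 e3 e4
  have e7 : ind (¬(vtx (c.e₀, true) ∈ K ∧ f (vtx (c.e₀, true)) = c.t (vtx (c.e₀, true))) ∧
      vtx (c.e₀, false) ∈ K ∧ f (vtx (c.e₀, false)) = c.t (vtx (c.e₀, false))) =
      ind (vtx (c.e₀, false) ∈ K ∧ f (vtx (c.e₀, false)) = c.t (vtx (c.e₀, false))) := by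
    rw [and_iff_right_of_imp fun b1 b2 => a4 (by rw [k3 _ b1.1 b2.1, b1.2, b2.2])]
  linarith

end Pool.Agent.Lib.MP_234305_co.Slack
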