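import Pool.Agent.Lib.MP_234305_co.H47B

/-!
The slack matrix of a map.
-/

namespace Pool.Agent.Lib.MP_234305_co

open Finset Matrix

namespace Slack

variable {E V : Type} [Fintype E] [DecidableEq E] [Fintype V] [DecidableEq V]
  {τ : Flag E → Flag E} {vtx : Dart E → V}

open Classical in
/-- The component of `r` outside `S`. -/
noncomputable def comp (vtx : Dart E → V) (r : V) (S : Finset V) : Finset V :=
  univ.filter (Link (fun e i => vtx (e, i)) (fun e => vtx (e, false) ∉ S ∧ vtx (e, true) ∉ S) r)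

omit [Fintype E] [DecidableEq E] [DecidableEq V] in
theorem mem_comp {r v : V} {S : Finset V} : v ∈ comp vtx r S ↔
    Link (fun e i => vtx (e, i)) (fun e => vtx (e, false) ∉ S ∧ vtx (e, true) ∉ S) r v := by
  simp [comp]

omit [Fintype E] [DecidableEq E] [DecidableEq V] in
theorem comp_not {r v : V} {S : Finset V} (hr : r ∉ S) (hv : v ∈ comp vtx r S) : v ∉ S :=
  (Link.iff (p := (· ∉ S)) (fun _ he => iff_of_true he.1 he.2) (mem_comp.1 hv)).1 hr

omit [Fintype E] [DecidableEq E] [DecidableEq V] in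
theorem comp_step {r : V} {S : Finset V} {d : Dart E} (h1 : vtx d ∉ S) (h2 : vtx (fl d) ∉ S) :
    vtx d ∈ comp vtx r S ↔ vtx (fl d) ∈ comp vtx r S := by
  have := fun b b' => Link.edge' (n := fun e i => vtx (e, i))
    (S := fun e => vtx (e, false) ∉ S ∧ vtx (e, true) ∉ S)
    ((both' (fun d => vtx d ∉ S) d).2 ⟨h1, h2⟩) b b'
  simp only [mem_comp]
  exact ⟨fun h => h.trans (this d.2 (!d.2)), fun h => h.trans (this (!d.2) d.2)⟩

omit [Fintype E] [DecidableEq E] [DecidableEq V] in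
theorem comp_kc {r : V} {S : Finset V} (hr : r ∉ S) : KC vtx r (comp vtx r S) := by
  refine ⟨mem_comp.2 (Link.refl _), fun v hv => (Link.iff (p := Link (fun e i => vtx (e, i))
    (fun e => vtx (e, false) ∈ comp vtx r S ∧ vtx (e, true) ∈ comp vtx r S) r) (fun e he => ?_)
    (mem_comp.1 hv)).1 (Link.refl _)⟩
  have h1 : ∀ v, Link (fun e i => vtx (e, i))
      (fun e => vtx (e, false) ∈ comp vtx r S ∧ vtx (e, true) ∈ comp vtx r S) r v →
      v ∈ comp vtx r S := fun v h =>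
    mem_comp.2 (h.mono fun e he => ⟨comp_not hr he.1, comp_not hr he.2⟩)
  have h2 := comp_step (r := r) (d := (e, false)) he.1 he.2
  have h3 := fun h => Link.edge (n := fun e i => vtx (e, i))
    (S := fun e => vtx (e, false) ∈ comp vtx r S ∧ vtx (e, true) ∈ comp vtx r S) (k := e) h
  exact ⟨fun h => h.trans (h3 ⟨h1 _ h, h2.1 (h1 _ h)⟩),
    fun h => h.trans (h3 ⟨h2.2 (h1 _ h), h1 _ h⟩).symm⟩

theorem reduce [Nonempty E] (r : V) {N : ℝ}
    (h : NR (fun K => KC vtx r K ∧ Kᶜ.Nonempty) (Col vtx) (fun K T => slack vtx Kᶜ T) N) :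
    NR (fun S : Finset V => S.Nonempty) (Col vtx) (slack vtx)
      (2 * Fintype.card E + (N + 2 * Fintype.card E)) := by
  refine nr_or (P₁ := fun S => r ∈ S) (P₂ := fun S => S.Nonempty ∧ r ∉ S) ?_ ?_
    fun S hS => (em (r ∈ S)).imp_right fun h => ⟨hS, h⟩
  · refine nr_col (fun T par => RT vtx T r par) ?_ fun T hT => hT.rt r
    refine (nr_par vtx (fun _ => univ.erase r) (fun x => x.2) (fun x h => h.vt)
      (fun S d => vtx d ∈ S ∧ vtx (fl d) ∉ S) fun _ _ => True).congr fun S x hS hx => ?_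
    rw [hx.slack, ind_neg (not_not.2 hS), sub_zero]
    exact sum_congr rfl fun v hv => by rw [hx.vt v hv, ind_pos trivial, mul_one]
  refine nr_col (fun T par => Col vtx T ∧ RT vtx T r par) ?_ fun T hT =>
    (hT.rt r).imp fun _ h => ⟨hT, h⟩
  refine ((h.comap (comp vtx r) Prod.fst (fun S hS => ⟨comp_kc hS.2, ?_⟩) (fun x hx => hx.1)
    fun _ _ _ _ => rfl).add (nr_par vtx (fun _ => univ.erase r) (fun x => x.2) (fun x h => h.2.vt)
      (fun S d => vtx d ∈ S ∧ vtx (fl d) ∉ S ∧ vtx (fl d) ∉ comp vtx r S) fun _ _ => True)).congr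
    fun S x hS hx => ?_
  · obtain ⟨v, hv⟩ := hS.1
    exact ⟨v, mem_compl.2 fun h => comp_not hS.2 h hv⟩
  rw [hx.2.slack, hx.2.slack, ind_pos hS.2, ind_pos (by simpa using (comp_kc hS.2).1),
    sub_add_eq_add_sub, ← sum_add_distrib]
  congr 1
  refine sum_congr rfl fun v hv => ?_
  have h1 := comp_step (vtx := vtx) (r := r) (S := S) (d := x.2 v)
  have h2 := comp_not (vtx := vtx) (v := v) hS.2
  have h3 := comp_not (vtx := vtx) (v := vtx (fl (x.2 v))) hS.2
  rw [hx.2.vt v hv] at h1 ⊢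
  by_cases a : v ∈ S <;> by_cases b : vtx (fl (x.2 v)) ∈ S <;> by_cases c : v ∈ comp vtx r S <;>
    by_cases d : vtx (fl (x.2 v)) ∈ comp vtx r S <;> simp_all [ind]

end Slack

open Slack in
theorem slack_nr (hg : GadgetStmt) (h1 : RkEulerStmt) (h2 : CovSecStmt) (h3 : CovRkStmt)
    (h4 : ParallelStmt) (h5 : FewStmt) : SlackStmt := by
  intro ε hε γ
  obtain ⟨K, hK, hG⟩ := hg ε hε (2 * γ)
  refine ⟨8 + 2 ^ γ * (8 + K), by positivity, ?_⟩
  intro E V _ _ _ _ τ vtx hτ hE hv hs hm hγ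
  classical
  obtain ⟨e₁⟩ := id hE
  obtain ⟨Φ, f1, f2, f3⟩ := h5 E τ hτ γ hm hγ
  have hR := (h1 E τ hτ 1 (2 * γ) {e₁} (by simp) (fun e => ⟨e₁, by simp, hm _ _⟩) (by omega)).2
  have hB := nr_cover (P := fun A => KC vtx (vtx (e₁, false)) A ∧ ¬ CaseA τ vtx A)
    (Φ.filter fun φ => ∀ t : V → Z2, ∃ e, φ e ≠ t (vtx (e, false)) + t (vtx (e, true))) _ ?_
    fun φ hφ => by
      obtain ⟨a1, a2, a3⟩ := h3 E τ hτ γ hm hγ φ (f2 φ (mem_filter.1 hφ).1)
      refine caseB_nr (mem_filter.1 hφ).2 a1 (fun d d' => ?_) (vtx (e₁, false))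
        (hG E (E × Z2) τ (cov τ φ) Prod.fst hτ a1 (fun x => rfl) (fun e => ?_) hm hR a3 a2)
      · rw [h2 E τ hτ, lab, lab, Prod.mk.injEq, hv]
      · refine (card_le_card (t := univ.image fun b : Z2 => (e, b)) fun x hx => ?_).trans
          (card_image_le.trans (by simp))
        exact mem_image.2 ⟨x.2, mem_univ _, by rw [← (mem_filter.1 hx).2]⟩
  · refine (reduce (vtx (e₁, false)) (nr_or (caseA_nr hτ hv hs hm (e₁, false)) hB fun A hA =>
      (em (CaseA τ vtx A)).imp (fun h => ⟨hA.1, hA.2, h⟩) fun h => ⟨hA.1, h⟩)).mono ?_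
    have a1 : (1 : ℝ) ≤ Fintype.card E := by exact_mod_cast Fintype.card_pos
    have a2 : (Fintype.card E : ℝ) ≤ (Fintype.card E : ℝ) ^ (1 + ε) :=
      Real.self_le_rpow_of_one_le a1 (by linarith)
    have a3 : ((Φ.filter fun φ => ∀ t : V → Z2,
        ∃ e, φ e ≠ t (vtx (e, false)) + t (vtx (e, true))).card : ℝ) ≤ 2 ^ γ := by
      exact_mod_cast (card_filter_le _ _).trans f1
    have a4 := mul_le_mul a3 (by linarith : 8 * (Fintype.card E : ℝ) +
      K * (Fintype.card E : ℝ) ^ (1 + ε) ≤ (8 + K) * (Fintype.card E : ℝ) ^ (1 + ε))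
      (by positivity) (by positivity)
    linarith
  rintro A ⟨hA, hn⟩
  simp only [CaseA, not_forall] at hn
  obtain ⟨z, z1, z2, z3⟩ := hn
  obtain ⟨φ, p1, p2, c, p3, p4⟩ := (h4 E τ hτ z z2).resolve_left z3
  obtain ⟨φ₀, q1, g, q2, q3⟩ := f3 φ p1
  choose s hs' using hs
  have q4 : ∀ d, g (s (vtx d)) = g d := fun d => q2 _ _ ((hv _ _).1 (hs' _))
  refine ⟨φ₀, mem_filter.2 ⟨q1, fun t => ?_⟩, fun v => g (s v) + g (e₁, false), hA.1,
    by simp only [q4, z2_add_self], fun e a1 a2 => ?_⟩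
  · by_contra h
    push Not at h
    have : φ = cob (fun e i => vtx (e, i)) fun v => t v + g (s v) := funext fun e => by
      have := (q3 e).symm.trans (h e)
      simp only [cob, q4]
      linear_combination this - z2_add_self (g (e, false)) - z2_add_self (g (e, true))
    rw [this, dot_cob, dotProduct, sum_eq_zero fun v _ => by
      rw [← hs' v, ← dot_st_vtx hv, p3, zero_mul]] at p4
    exact zero_ne_one p4
  · have : φ e = 0 := by
      by_contra h
      obtain ⟨i, e', i', b1, b2⟩ := p2 e h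
      refine b1 (z1 (e', i') ((hv _ _).2 b2 ▸ ?_))
      cases i
      exacts [a1, a2]
    dsimp only
    rw [q3, this, q4, q4, add_add_add_comm, z2_add_self, add_zero, zero_add]

end Pool.Agent.Lib.MP_234305_co
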