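import Pool.Agent.Lib.MP_234305_co.H77Basic

/-!
Rooted trees and sums over darts.
-/

namespace Pool.Agent.Lib.MP_234305_co.Slack

open Finset Matrix

open Classical in
/-- Real indicator. -/
noncomputable def ind (p : Prop) : ℝ := if p then 1 else 0

theorem ind_nonneg (p : Prop) : 0 ≤ ind p := by unfold ind; split_ifs <;> simp

theorem ind_pos {p : Prop} (h : p) : ind p = 1 := by simp [ind, h]

theorem ind_neg {p : Prop} (h : ¬p) : ind p = 0 := by simp [ind, h]

theorem card_eq_ind {α : Type*} (S : Finset α) (p : α → Prop) [DecidablePred p] :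
    ((S.filter p).card : ℝ) = ∑ a ∈ S, ind (p a) := by
  rw [card_filter, Nat.cast_sum]
  refine sum_congr rfl fun a _ => ?_
  by_cases h : p a <;> simp [ind, h]

section NR
variable {I J : Type*} {P : I → Prop} {Q : J → Prop} {M : I → J → ℝ} {N N' : ℝ}

theorem nr_cover {A : Type*} (S : Finset A) (R : A → I → Prop) (hc : ∀ i, P i → ∃ a ∈ S, R a i)
    (h : ∀ a ∈ S, NR (R a) Q M N) : NR P Q M (S.card * N) := by
  classical
  let φ : I → Option A := fun i => if hi : P i then some (hc i hi).choose else none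
  have key : ∀ a ∈ S, NR P Q (fun i j => if φ i = some a ∧ True then M i j else 0) N := by
    intro a ha
    refine (NR.extend (P' := fun i => φ i = some a) (Q' := fun _ => True)
      ((h a ha).comap id id ?_ (fun _ h => h.1) fun _ _ _ _ => rfl)).congr fun i j _ _ => by congr
    rintro i ⟨hi, e⟩
    simp only [φ, dif_pos hi, Option.some.injEq] at e
    exact e ▸ (hc i hi).choose_spec.2
  refine (NR.sum_le S key).congr fun i j hi _ => ?_
  rw [sum_eq_single (hc i hi).choose] <;>
    simp +contextual [φ, dif_pos hi, eq_comm, (hc i hi).choose_spec.1]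

theorem nr_or {P₁ P₂ : I → Prop} (h1 : NR P₁ Q M N) (h2 : NR P₂ Q M N')
    (hc : ∀ i, P i → P₁ i ∨ P₂ i) : NR P Q M (N + N') := by
  classical
  have a1 := NR.extend (P := P) (Q := Q) (P' := P₁) (Q' := fun _ => True)
    (h1.comap id id (fun _ h => h.2) (fun _ h => h.1) fun _ _ _ _ => rfl)
  have a2 := NR.extend (P := P) (Q := Q) (P' := fun i => ¬ P₁ i) (Q' := fun _ => True)
    (h2.comap id id (fun i h => (hc i h.1).resolve_left h.2) (fun _ h => h.1) fun _ _ _ _ => rfl)
  refine (a1.add a2).congr fun i j _ _ => ?_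
  by_cases h : P₁ i <;> simp [h]

theorem nr_col {C : Type*} [Nonempty C] (Q' : J → C → Prop)
    (h : NR P (fun x : J × C => Q' x.1 x.2) (fun i x => M i x.1) N) (hc : ∀ j, Q j → ∃ c, Q' j c) :
    NR P Q M N := by
  choose! c hc using hc
  exact h.comap id (fun j => (j, c j)) (fun _ h => h) hc fun _ _ _ _ => rfl

theorem nr_row {C : Type*} [Nonempty C] (P' : I → C → Prop)
    (h : NR (fun x : I × C => P' x.1 x.2) Q (fun x j => M x.1 j) N) (hc : ∀ i, P i → ∃ c, P' i c) :
    NR P Q M N :=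
  (nr_col (M := fun j i => M i j) P' h.swap hc).swap

variable {E : Type} [Fintype E] [DecidableEq E]

theorem nr_par {L : Type} [DecidableEq L] (n : Dart E → L) (S : J → Finset L)
    (par : J → L → Dart E) (hp : ∀ j, Q j → ∀ v ∈ S j, n (par j v) = v)
    (α : I → Dart E → Prop) (β : J → Dart E → Prop) :
    NR P Q (fun i j => ∑ v ∈ S j, ind (α i (par j v)) * ind (β j (par j v)))
      (2 * Fintype.card E) := by
  have := NR.sum_le (P := P) (Q := Q) (N := 1) (univ : Finset (Dart E))
    (F := fun d i j => ind (α i d) * (ind (d ∈ (S j).image (par j)) * ind (β j d))) fun d _ =>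
    NR.rank_one _ _ (fun _ _ => ind_nonneg _)
      (fun _ _ => mul_nonneg (ind_nonneg _) (ind_nonneg _)) fun _ _ _ _ => rfl
  refine (this.congr fun i j _ hj => ?_).mono (by simp [mul_comm])
  rw [← sum_image (s := S j) (g := par j) (f := fun d => ind (α i d) * ind (β j d))
    fun u hu v hv e => by rw [← hp j hj u hu, e, hp j hj v hv],
    ← sum_subset (subset_univ ((S j).image (par j))) fun d _ hd => by rw [ind_neg hd]; simp]
  exact sum_congr rfl fun d hd => by rw [ind_pos hd, one_mul]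

end NR

variable {E : Type}

/-- The opposite dart. -/
def fl (d : Dart E) : Dart E := (d.1, !d.2)

theorem both {α : Type*} [AddCommMonoid α] (g : Dart E → α) (d : Dart E) :
    g (d.1, false) + g (d.1, true) = g d + g (fl d) := by
  rcases d with ⟨e, _ | _⟩
  · rfl
  · exact add_comm _ _

theorem both' (g : Dart E → Prop) (d : Dart E) :
    g (d.1, false) ∧ g (d.1, true) ↔ g d ∧ g (fl d) := by
  rcases d with ⟨e, _ | _⟩
  · rfl
  · exact and_comm

section
variable {L : Type} (n : Dart E → L) (A : E → Prop)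

/-- `par v` is the dart from `v` to its parent. -/
def Rt (par : L → Dart E) (dep : L → ℕ) (v : L) : Prop :=
  n (par v) = v ∧ A (par v).1 ∧ dep (n (fl (par v))) < dep v

/-- Distance at most `m` from `y`. -/
def Dist (y : L) : ℕ → L → Prop
  | 0, v => v = y
  | m + 1, v => v = y ∨ ∃ d, n d = v ∧ A d.1 ∧ Dist y m (n (fl d))

theorem exists_rt [Nonempty E] (y : L) : ∃ (par : L → Dart E) (dep : L → ℕ),
    ∀ v, Link (fun e i => n (e, i)) A y v → v ≠ y → Rt n A par dep v := by
  have h1 : ∀ v, Link (fun e i => n (e, i)) A y v → ∃ m, Dist n A y m v := fun v hv =>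
    (Link.iff (p := fun v => ∃ m, Dist n A y m v) (fun e he =>
      ⟨fun ⟨m, h⟩ => ⟨m + 1, .inr ⟨(e, true), rfl, he, h⟩⟩,
        fun ⟨m, h⟩ => ⟨m + 1, .inr ⟨(e, false), rfl, he, h⟩⟩⟩) hv).1 ⟨0, rfl⟩
  have h2 : ∀ v, Link (fun e i => n (e, i)) A y v → v ≠ y → ∃ d, n d = v ∧ A d.1 ∧
      sInf {m | Dist n A y m (n (fl d))} < sInf {m | Dist n A y m v} := by
    intro v hv hy
    have h3 := Nat.sInf_mem (s := {m | Dist n A y m v}) (h1 v hv)
    generalize sInf {m | Dist n A y m v} = m at h3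
    rcases m with _ | m
    · exact absurd h3 hy
    · obtain ⟨d, a1, a2, a3⟩ := h3.resolve_left hy
      exact ⟨d, a1, a2, Nat.lt_succ_of_le (Nat.sInf_le a3)⟩
  choose! par hpar using h2
  exact ⟨par, fun v => sInf {m | Dist n A y m v}, hpar⟩

variable {n A}

theorem Rt.inj {par : L → Dart E} {dep : L → ℕ} {u v : L} (hu : Rt n A par dep u)
    (hv : Rt n A par dep v) (h : (par u).1 = (par v).1) : u = v := by
  by_cases h1 : par u = par v
  · rw [← hu.1, h1, hv.1]
  have h2 : fl (par u) = par v ∧ fl (par v) = par u := by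
    generalize par u = a at *
    generalize par v = b at *
    rcases a with ⟨a, _ | _⟩ <;> rcases b with ⟨b, _ | _⟩ <;> simp_all [fl]
  have h3 := hu.2.2
  have h4 := hv.2.2
  rw [h2.1, hv.1] at h3
  rw [h2.2, hu.1] at h4
  omega

end

variable {V : Type} [Fintype E] [DecidableEq E] [Fintype V] [DecidableEq V] (vtx : Dart E → V)

/-- Spanning trees. -/
def Col (T : Finset E) : Prop :=
  T.card + 1 = Fintype.card V ∧ ∀ a b, Link (fun e i => vtx (e, i)) (fun e => e ∈ T) a b

/-- The slack. -/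
def slack (S : Finset V) (T : Finset E) : ℝ :=
  (S.card : ℝ) - 1 - ((T.filter fun e => vtx (e, false) ∈ S ∧ vtx (e, true) ∈ S).card : ℝ)

/-- The tree `T` rooted at `y`. -/
def RT (T : Finset E) (y : V) (par : V → Dart E) : Prop :=
  T.card + 1 = Fintype.card V ∧ ∃ dep : V → ℕ, ∀ v, v ≠ y → Rt vtx (· ∈ T) par dep v

variable {vtx} {T : Finset E} {y : V} {par : V → Dart E}

omit [Fintype E] [DecidableEq E] [DecidableEq V] in
theorem Col.rt [Nonempty E] (h : Col vtx T) (y : V) : ∃ par, RT vtx T y par := by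
  obtain ⟨par, dep, h1⟩ := exists_rt vtx (· ∈ T) y
  exact ⟨par, h.1, dep, fun v hv => h1 v (h.2 y v) hv⟩

omit [Fintype E] [DecidableEq E] in
theorem RT.vt (h : RT vtx T y par) : ∀ v ∈ univ.erase y, vtx (par v) = v := by
  obtain ⟨-, dep, h⟩ := h
  exact fun v hv => (h v (ne_of_mem_erase hv)).1

omit [Fintype E] [DecidableEq E] in
theorem RT.mem (h : RT vtx T y par) : ∀ v ∈ univ.erase y, (par v).1 ∈ T := by
  obtain ⟨-, dep, h⟩ := h
  exact fun v hv => (h v (ne_of_mem_erase hv)).2.1

omit [Fintype E] [DecidableEq E] in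
theorem RT.inj (h : RT vtx T y par) :
    Set.InjOn (fun v => (par v).1) (univ.erase y : Finset V) := by
  obtain ⟨-, dep, h⟩ := h
  exact fun u hu v hv => (h u (ne_of_mem_erase hu)).inj (h v (ne_of_mem_erase hv))

omit [Fintype E] in
theorem RT.image (h : RT vtx T y par) : (univ.erase y).image (fun v => (par v).1) = T := by
  refine eq_of_subset_of_card_le (image_subset_iff.2 h.mem) ?_
  rw [card_image_of_injOn h.inj, card_erase_of_mem (mem_univ y), card_univ, ← h.1]
  simp

omit [Fintype E] in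
theorem RT.sum {α : Type*} [AddCommMonoid α] (h : RT vtx T y par) (f : E → α) :
    ∑ e ∈ T, f e = ∑ v ∈ univ.erase y, f (par v).1 := by
  rw [← h.image, sum_image h.inj]

omit [Fintype E] in
theorem RT.slack (h : RT vtx T y par) (W : Finset V) : slack vtx W T =
    ∑ v ∈ univ.erase y, ind (v ∈ W ∧ vtx (fl (par v)) ∉ W) - ind (y ∉ W) := by
  have h1 : (W.card : ℝ) = ind (y ∈ W) + ∑ v ∈ univ.erase y, ind (v ∈ W) := by
    rw [add_sum_erase _ (fun v => ind (v ∈ W)) (mem_univ y), ← card_eq_ind]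
    simp
  have h2 : ∑ v ∈ univ.erase y, ind (v ∈ W) =
      ∑ v ∈ univ.erase y, ind (v ∈ W ∧ vtx (fl (par v)) ∉ W) +
      ∑ v ∈ univ.erase y, ind (vtx ((par v).1, false) ∈ W ∧ vtx ((par v).1, true) ∈ W) := by
    rw [← sum_add_distrib]
    refine sum_congr rfl fun v hv => ?_
    rw [both' (fun d => vtx d ∈ W), h.vt v hv]
    by_cases a : v ∈ W <;> by_cases b : vtx (fl (par v)) ∈ W <;> simp [ind, a, b]
  rw [Slack.slack, card_eq_ind, h.sum, h1, h2]
  by_cases a : y ∈ W <;> simp [ind, a]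
  ring

omit [Fintype E] [DecidableEq E] in
theorem RT.exists_rec {α : Type} (h : RT vtx T y par) (a : α) (s : V → α → α) :
    ∃ t : V → α, t y = a ∧ ∀ v, v ≠ y → t v = s v (t (vtx (fl (par v)))) := by
  obtain ⟨-, dep, h⟩ := h
  have key : ∀ m, ∃ t : V → α, t y = a ∧
      ∀ v, v ≠ y → dep v < m → t v = s v (t (vtx (fl (par v)))) := by
    intro m
    induction m with
    | zero => exact ⟨fun _ => a, rfl, by simp⟩
    | succ m ih =>
      obtain ⟨t, h1, h2⟩ := ih
      refine ⟨fun v => if v ≠ y ∧ dep v = m then s v (t (vtx (fl (par v)))) else t v,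
        by simpa using h1, fun v hv hm => ?_⟩
      have h3 := (h v hv).2.2
      dsimp only
      rw [if_neg (c := _ ∧ dep (vtx (fl (par v))) = m) (fun h4 => by omega)]
      split_ifs with h4
      · rfl
      · exact h2 v hv (by have := not_and.1 h4 hv; omega)
  obtain ⟨t, h1, h2⟩ := key (univ.sup dep + 1)
  exact ⟨t, h1, fun v hv => h2 v hv (Nat.lt_succ_of_le (le_sup (mem_univ v)))⟩

omit [Fintype E] in
theorem RT.exists_cob (h : RT vtx T y par) (ω : Vec E) :
    ∃ t : V → Z2, t y = 0 ∧ ∀ e ∈ T, ω e = t (vtx (e, false)) + t (vtx (e, true)) := by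
  obtain ⟨t, h1, h2⟩ := h.exists_rec (0 : Z2) fun v a => ω (par v).1 + a
  refine ⟨t, h1, fun e he => ?_⟩
  rw [← h.image] at he
  obtain ⟨v, hv, rfl⟩ := mem_image.1 he
  rw [both (fun d => t (vtx d)), h.vt v hv, h2 v (ne_of_mem_erase hv), add_assoc, z2_add_self,
    add_zero]

theorem RT.cyc_zero (h : RT vtx T y par) {z : Vec E} (h1 : ∀ e ∉ T, z e = 0)
    (h2 : ∀ v, bd (fun e i => vtx (e, i)) z v = 0) (e : E) : z e = 0 := by
  obtain ⟨t, -, h3⟩ := h.exists_cob (Pi.single e 1)
  have h4 : z ⬝ᵥ Pi.single e 1 = z ⬝ᵥ cob (fun e i => vtx (e, i)) t := by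
    refine sum_congr rfl fun a _ => ?_
    by_cases ha : a ∈ T
    · rw [h3 a ha]; rfl
    · simp [h1 a ha]
  rw [dot_cob, dotProduct_single, mul_one] at h4
  rw [h4]
  exact sum_eq_zero fun v _ => by rw [h2, zero_mul]

omit [Fintype E] [DecidableEq E] in
/-- The ancestors of a vertex. -/
theorem RT.exists_anc (h : RT vtx T y par) (v : V) : ∃ A ⊆ univ.erase y,
    (∀ g : V → ℝ, ∑ u ∈ A, (g u - g (vtx (fl (par u)))) = g v - g y) ∧
    ∀ g : V → Z2, ∑ u ∈ A, (g u + g (vtx (fl (par u)))) = g v + g y := by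
  obtain ⟨-, dep, h⟩ := h
  have key : ∀ m v, dep v < m → ∃ A ⊆ univ.erase y, (∀ u ∈ A, dep u ≤ dep v) ∧
      (∀ g : V → ℝ, ∑ u ∈ A, (g u - g (vtx (fl (par u)))) = g v - g y) ∧
      ∀ g : V → Z2, ∑ u ∈ A, (g u + g (vtx (fl (par u)))) = g v + g y := by
    intro m
    induction m with
    | zero => simp
    | succ m ih =>
      intro v hm
      rcases eq_or_ne v y with rfl | hv
      · exact ⟨∅, by simp, by simp, by simp, by simp [z2_add_self]⟩
      have h3 := (h v hv).2.2
      obtain ⟨A, a1, a2, a3, a4⟩ := ih (vtx (fl (par v))) (by omega)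
      have a5 : v ∉ A := fun h4 => by have := a2 v h4; omega
      refine ⟨insert v A, insert_subset (by simpa using hv) a1, fun u hu => ?_, fun g => ?_,
        fun g => ?_⟩
      · rcases mem_insert.1 hu with rfl | hu
        · rfl
        · have := a2 u hu; omega
      · rw [sum_insert a5, a3]; ring
      · rw [sum_insert a5, a4, add_assoc, ← add_assoc (g (vtx _)), z2_add_self, zero_add]
  obtain ⟨A, a1, -, a2⟩ := key _ v (Nat.lt_succ_self _)
  exact ⟨A, a1, a2⟩

end Pool.Agent.Lib.MP_234305_co.Slack
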