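import Mathlib

/-!
Numerical inequalities for the recursion over cells.
-/

namespace Pool.Agent.Lib.MP_234305_co.Gad

open Finset

theorem sum_rpow_le {L : Type} (S : Finset L) (x : L → ℝ) {m t : ℝ} (ht : 0 ≤ t)
    (h : ∀ j ∈ S, 0 ≤ x j ∧ x j ≤ m) : ∑ j ∈ S, x j ^ (1 + t) ≤ m ^ t * ∑ j ∈ S, x j := by
  rw [mul_sum]
  refine sum_le_sum fun j hj => ?_
  rw [Real.rpow_one_add' (h j hj).1 (by linarith), mul_comm]
  exact mul_le_mul_of_nonneg_right (Real.rpow_le_rpow (h j hj).1 (h j hj).2 ht) (h j hj).1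

theorem sqrt_rpow {a : ℝ} (ha : 0 ≤ a) (δ : ℝ) : √a ^ (2 + 2 * δ) = a ^ (1 + δ) := by
  rw [Real.sqrt_eq_rpow, ← Real.rpow_mul ha]
  congr 1
  ring

theorem contract {δ : ℝ} (hδ : 0 < δ) {k : ℕ} (hk : 0 < k) : ∃ A η : ℝ, 1 ≤ A ∧ 0 < η ∧ η < 1 ∧
    ∀ {L : Type} (S : Finset L) (a b w c : L → ℝ) (a₀ b₀ : ℝ),
      (∀ j ∈ S, 0 ≤ a j ∧ 0 ≤ b j ∧ 0 ≤ w j ∧ 0 ≤ c j ∧ b j ≤ w j + c j) →
      ∑ j ∈ S, a j = a₀ → ∑ j ∈ S, w j = b₀ → ∑ j ∈ S, c j ≤ k * √a₀ →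
      ((b₀ ≤ 64 * k * √a₀ ∧ ∀ j ∈ S, 16 * a j ≤ 15 * a₀) ∨
        (64 * k * √a₀ ≤ b₀ ∧ ∀ j ∈ S, 16 * w j ≤ 15 * b₀)) →
      ∑ j ∈ S, (A * a j ^ (1 + δ) + b j ^ (2 + 2 * δ)) ≤
        (1 - η) * (A * a₀ ^ (1 + δ) + b₀ ^ (2 + 2 * δ)) := by
  have hθ : (15 / 16 : ℝ) ^ δ < 1 := Real.rpow_lt_one (by norm_num) (by norm_num) hδ
  have hθ0 : 0 < (15 / 16 : ℝ) ^ δ := by positivity
  set θ := (15 / 16 : ℝ) ^ δ with hθe
  have hk1 : (1 : ℝ) ≤ k := by exact_mod_cast hk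
  have hZ : 0 < (65 * (k : ℝ)) ^ (2 + 2 * δ) := by positivity
  set Z := (65 * (k : ℝ)) ^ (2 + 2 * δ) with hZe
  have h1θ : 0 < 1 - θ := by linarith
  set A := 1 + 2 * Z / (1 - θ) with hA
  have hA1 : 1 ≤ A := le_add_of_nonneg_right (by positivity)
  have hAZ : Z ≤ A * ((1 - θ) / 2) := by
    have : A * ((1 - θ) / 2) = (1 - θ) / 2 + Z := by rw [hA]; field_simp
    linarith
  refine ⟨A, min ((1 - θ) / 2) (1 / (32 * (A + 1))), hA1, by positivity,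
    (min_le_left _ _).trans_lt (by linarith), fun S a b w c a₀ b₀ h ha hw hc hor => ?_⟩
  set η := min ((1 - θ) / 2) (1 / (32 * (A + 1))) with hη
  have η1 : η ≤ (1 - θ) / 2 := min_le_left _ _
  have η2 : η * (A + 1) ≤ 1 / 32 := by
    have : η ≤ 1 / (32 * (A + 1)) := min_le_right _ _
    rw [le_div_iff₀ (by positivity)] at this
    linarith
  have η0 : 0 < η := by positivity
  have a0 : 0 ≤ a₀ := ha ▸ sum_nonneg fun j hj => (h j hj).1
  have b0 : 0 ≤ b₀ := hw ▸ sum_nonneg fun j hj => (h j hj).2.2.1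
  have s0 := Real.sqrt_nonneg a₀
  have hb : ∑ j ∈ S, b j ≤ b₀ + k * √a₀ := by
    have := sum_le_sum fun j hj => (h j hj).2.2.2.2
    rw [sum_add_distrib, hw] at this
    linarith
  have e2 : 2 + 2 * δ = 1 + (1 + 2 * δ) := by ring
  have X0 : 0 ≤ a₀ ^ (1 + δ) := by positivity
  have Y0 : 0 ≤ b₀ ^ (2 + 2 * δ) := by positivity
  have eX : a₀ ^ δ * a₀ = a₀ ^ (1 + δ) := by
    rw [Real.rpow_one_add' a0 (by linarith), mul_comm]
  rw [sum_add_distrib, ← mul_sum]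
  rcases hor with ⟨h1, h2⟩ | ⟨h1, h2⟩
  · have h3 := sum_rpow_le S a (m := 15 / 16 * a₀) hδ.le fun j hj =>
      ⟨(h j hj).1, by linarith [h2 j hj]⟩
    rw [ha, Real.mul_rpow (by norm_num) a0, mul_assoc, eX] at h3
    have h4 : ∑ j ∈ S, b j ≤ 65 * k * √a₀ := by linarith
    have h5 := sum_rpow_le S b (m := 65 * k * √a₀) (t := 1 + 2 * δ) (by linarith) fun j hj =>
      ⟨(h j hj).2.1, (single_le_sum (fun j hj => (h j hj).2.1) hj).trans h4⟩
    have h6 : (65 * k * √a₀) ^ (1 + 2 * δ) * (65 * k * √a₀) = Z * a₀ ^ (1 + δ) := by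
      rw [mul_comm, ← Real.rpow_one_add' (by positivity) (by linarith), ← e2,
        Real.mul_rpow (by positivity) s0, sqrt_rpow a0]
    have h7 := h5.trans (mul_le_mul_of_nonneg_left h4 (by positivity))
    rw [h6, ← e2] at h7
    have h8 := mul_le_mul_of_nonneg_left h3 (zero_le_one.trans hA1)
    have h9 := mul_le_mul_of_nonneg_right hAZ X0
    have h10 := mul_le_mul_of_nonneg_right η1 (mul_nonneg (zero_le_one.trans hA1) X0)
    have h11 := mul_nonneg (show 0 ≤ 1 - η by linarith) Y0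
    nlinarith
  · have h3 := sum_rpow_le S a (m := a₀) hδ.le fun j hj =>
      ⟨(h j hj).1, ha ▸ single_le_sum (fun j hj => (h j hj).1) hj⟩
    rw [ha, eX] at h3
    have h4 : ∑ j ∈ S, b j ≤ 65 / 64 * b₀ := by linarith
    have h5 := sum_rpow_le S b (m := 61 / 64 * b₀) (t := 1 + 2 * δ) (by linarith) fun j hj =>
      ⟨(h j hj).2.1, by
        have := (single_le_sum (fun j hj => (h j hj).2.2.2.1) hj).trans hc
        linarith [(h j hj).2.2.2.2, h2 j hj]⟩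
    have h6 : (61 / 64 : ℝ) ^ (1 + 2 * δ) ≤ 61 / 64 := by
      simpa using Real.rpow_le_rpow_of_exponent_ge (x := 61 / 64) (y := 1 + 2 * δ) (z := 1)
        (by norm_num) (by norm_num) (by linarith)
    have h7 := h5.trans (mul_le_mul_of_nonneg_left h4 (by positivity))
    have eY : b₀ ^ (1 + 2 * δ) * b₀ = b₀ ^ (2 + 2 * δ) := by
      rw [mul_comm, ← Real.rpow_one_add' b0 (by linarith), ← e2]
    rw [← e2, Real.mul_rpow (by norm_num) b0] at h7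
    have h8 : (61 / 64 : ℝ) ^ (1 + 2 * δ) * b₀ ^ (1 + 2 * δ) * (65 / 64 * b₀) ≤
        61 / 64 * (65 / 64 * b₀ ^ (2 + 2 * δ)) := by
      rw [← eY]
      have := mul_le_mul_of_nonneg_right h6
        (show 0 ≤ 65 / 64 * (b₀ ^ (1 + 2 * δ) * b₀) by positivity)
      linarith
    have h9 : a₀ ^ (1 + δ) ≤ b₀ ^ (2 + 2 * δ) := by
      rw [← sqrt_rpow a0]
      exact Real.rpow_le_rpow s0 (by nlinarith) (by linarith)
    have h10 := mul_le_mul_of_nonneg_left h3 (zero_le_one.trans hA1)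
    have h11 := mul_le_mul_of_nonneg_left h9 (mul_nonneg η0.le (zero_le_one.trans hA1))
    have h12 := mul_le_mul_of_nonneg_right η2 Y0
    nlinarith

theorem glue_le {δ A a b x : ℝ} (hδ : 0 < δ) (k : ℕ) (hA : 1 ≤ A) (ha : 1 ≤ a) (hb : 0 ≤ b)
    (hx : 0 ≤ x) (h : x ≤ 4 * b + 2 * (k * √a)) :
    (x + 1) ^ (2 + 2 * δ) ≤ (2 * k + 5) ^ (2 + 2 * δ) * (A * a ^ (1 + δ) + b ^ (2 + 2 * δ)) := by
  have s1 : 1 ≤ √a := Real.one_le_sqrt.2 ha
  have k0 : (0 : ℝ) ≤ k := Nat.cast_nonneg k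
  have h1 : x + 1 ≤ (2 * k + 5) * max b √a := by
    have h2 := le_max_left b √a
    have h3 := le_max_right b √a
    nlinarith
  refine (Real.rpow_le_rpow (by linarith) h1 (by linarith)).trans ?_
  rw [Real.mul_rpow (by positivity) (by positivity)]
  refine mul_le_mul_of_nonneg_left ?_ (by positivity)
  have X0 : 0 ≤ a ^ (1 + δ) := by positivity
  have Y0 : 0 ≤ b ^ (2 + 2 * δ) := by positivity
  rcases max_choice b √a with e | e <;> rw [e]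
  · nlinarith
  · rw [sqrt_rpow (by linarith)]
    nlinarith

theorem poly_le {σ : ℝ} (hσ : 1 < σ) : ∃ C : ℝ, 0 < C ∧ ∀ m : ℕ, ((m : ℝ) + 1) ^ 5 ≤ C * σ ^ m := by
  obtain ⟨C, hC⟩ := (tendsto_pow_const_div_const_pow_of_one_lt 5 hσ).bddAbove_range
  have h : ∀ m : ℕ, ((m : ℝ) + 1) ^ 5 ≤ C * σ * σ ^ m := fun m => by
    have := hC ⟨m + 1, rfl⟩
    simp only [Nat.cast_add, Nat.cast_one] at this
    rw [div_le_iff₀ (by positivity), pow_succ' σ] at this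
    linarith
  exact ⟨C * σ, by have := h 0; norm_num at this; linarith, h⟩

end Pool.Agent.Lib.MP_234305_co.Gad
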