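import Pool.Agent.Lib.MP_234305_co.H5GadA
import Pool.Agent.Lib.MP_234305_co.H5GadB

/-!
The recursion over cells: the crossing matrix of paths and dual cycles.
-/

namespace Pool.Agent.Lib.MP_234305_co

open Finset Matrix

namespace Gad

variable {E : Type} [Fintype E] [DecidableEq E]

/-- The boundary flags of a set of edges. -/
def bF (τ : Flag E → Flag E) (R : Finset E) : Finset (Flag E) :=
  univ.filter fun x => x.1 ∈ R ∧ (τ x).1 ∉ R

/-- Connected sets of edges whose complement has few components. -/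
def Cell (τ : Flag E → Flag E) (R : Finset E) (ν : ℕ) : Prop :=
  R.Nonempty ∧ (∀ e ∈ R, ∀ e' ∈ R, MLink τ (fun x => x.1 ∈ R ∧ (τ x).1 ∈ R) e e') ∧
    ∃ reps : Finset E, reps.card ≤ ν ∧
      ∀ e ∉ R, ∃ r ∈ reps, MLink τ (fun x => x.1 ∉ R ∧ (τ x).1 ∉ R) r e

/-- The size of a cell. -/
noncomputable def Phi (τ : Flag E → Flag E) (A δ : ℝ) (R : Finset E) : ℝ :=
  A * (R.card : ℝ) ^ (1 + δ) + ((bF τ R).card : ℝ) ^ (2 + 2 * δ)

theorem one_le_phi {τ : Flag E → Flag E} {A δ : ℝ} (hA : 1 ≤ A) (hδ : 0 < δ) {R : Finset E}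
    (h : R.Nonempty) : 1 ≤ Phi τ A δ R := by
  have h1 : (1 : ℝ) ≤ R.card := by exact_mod_cast h.card_pos
  have h2 := Real.one_le_rpow h1 (show 0 ≤ 1 + δ by linarith)
  have h3 : 0 ≤ ((bF τ R).card : ℝ) ^ (2 + 2 * δ) := by positivity
  unfold Phi
  nlinarith

omit [Fintype E] [DecidableEq E] in
theorem link_lift {E' : Type} {τ : Flag E → Flag E} {τ' : Flag E' → Flag E'} {p : E' → E}
    (hτ : IsMap τ) (hτ' : IsMap τ') (hp : ∀ x, (p (τ' x).1, (τ' x).2) = τ (p x.1, x.2))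
    {S : Flag E → Prop} {r e : E} (h : MLink τ S r e) {e' : E'} (he : p e' = e) :
    ∃ r', p r' = r ∧ MLink τ' (fun x => S (p x.1, x.2)) r' e' := by
  refine (Link.induct (r := fun a b =>
    (∀ b', p b' = b → ∃ a', p a' = a ∧ MLink τ' (fun x => S (p x.1, x.2)) a' b') ∧
      ∀ a', p a' = a → ∃ b', p b' = b ∧ MLink τ' (fun x => S (p x.1, x.2)) b' a')
    ⟨fun _ => ⟨fun b h => ⟨b, h, Link.refl _⟩, fun b h => ⟨b, h, Link.refl _⟩⟩, fun h => h.symm,
      fun h h' => ⟨fun c hc => ?_, fun a ha => ?_⟩⟩ (fun x hx => ⟨fun b hb => ?_, fun a ha => ?_⟩)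
    h).1 e' he
  · obtain ⟨b, h1, h2⟩ := h'.1 c hc
    obtain ⟨a, h3, h4⟩ := h.1 b h1
    exact ⟨a, h3, h4.trans h2⟩
  · obtain ⟨b, h1, h2⟩ := h.2 a ha
    obtain ⟨c, h3, h4⟩ := h'.2 b h1
    exact ⟨c, h3, h4.trans h2⟩
  · have h1 : (p (τ' (b, (τ x).2)).1, (τ' (b, (τ x).2)).2) = x := by
      have h0 : ((p b, (τ x).2) : Flag E) = τ x := Prod.ext hb rfl
      exact (hp _).trans ((congrArg τ h0).trans (hτ.1 x))
    refine ⟨(τ' (b, (τ x).2)).1, congrArg Prod.fst h1, ?_⟩
    have h2 := Link.edge (n := fun x b => (if b then τ' x else x).1)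
      (S := fun x : Flag E' => S (p x.1, x.2)) (k := τ' (b, (τ x).2)) (by rw [h1]; exact hx)
    simp only [hτ'.1, if_true, Bool.false_eq_true, if_false] at h2
    exact h2
  · have h1 : ((p a, x.2) : Flag E) = x := Prod.ext ha rfl
    refine ⟨(τ' (a, x.2)).1, (congrArg Prod.fst (hp (a, x.2))).trans (by rw [h1]; rfl), ?_⟩
    exact (Link.edge (n := fun x b => (if b then τ' x else x).1)
      (S := fun x : Flag E' => S (p x.1, x.2)) (k := (a, x.2)) (by rw [h1]; exact hx)).symm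

/-- One step of the decomposition of a cell. -/
theorem split {τ : Flag E → Flag E} (hτ : IsMap τ) {k : ℕ} (hk : 0 < k) {A δ η : ℝ}
    (hs : ∀ (R : Finset E) (wt : E → ℝ),
      (∀ e ∈ R, ∀ e' ∈ R, MLink τ (fun x => x.1 ∈ R ∧ (τ x).1 ∈ R) e e') →
      (∀ e, 0 ≤ wt e) → (∀ e ∈ R, 4 * wt e ≤ ∑ e' ∈ R, wt e') →
      ∃ lab : E → E, (R.image lab).card ≤ k ∧
        (∀ e ∈ R, ∀ e' ∈ R, lab e = lab e' → MLink τ (fun x =>
          (x.1 ∈ R ∧ lab x.1 = lab e) ∧ (τ x).1 ∈ R ∧ lab (τ x).1 = lab e) e e') ∧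
        ((univ.filter fun x : Flag E => x.1 ∈ R ∧ (τ x).1 ∈ R ∧ lab x.1 ≠ lab (τ x).1).card : ℝ) ≤
          k * √(R.card) ∧
        ∀ a, 16 * ∑ e ∈ R.filter (fun e => lab e = a), wt e ≤ 15 * ∑ e ∈ R, wt e)
    (hc : ∀ (S : Finset (Option E)) (a b w c : Option E → ℝ) (a₀ b₀ : ℝ),
      (∀ j ∈ S, 0 ≤ a j ∧ 0 ≤ b j ∧ 0 ≤ w j ∧ 0 ≤ c j ∧ b j ≤ w j + c j) →
      ∑ j ∈ S, a j = a₀ → ∑ j ∈ S, w j = b₀ → ∑ j ∈ S, c j ≤ k * √a₀ →
      ((b₀ ≤ 64 * k * √a₀ ∧ ∀ j ∈ S, 16 * a j ≤ 15 * a₀) ∨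
        (64 * k * √a₀ ≤ b₀ ∧ ∀ j ∈ S, 16 * w j ≤ 15 * b₀)) →
      ∑ j ∈ S, (A * a j ^ (1 + δ) + b j ^ (2 + 2 * δ)) ≤
        (1 - η) * (A * a₀ ^ (1 + δ) + b₀ ^ (2 + 2 * δ)))
    {R : Finset E} {ν : ℕ} (hR : Cell τ R ν) (h4 : 4 ≤ R.card) :
    ∃ lb : E → Option E, (∀ e, e ∉ R ↔ lb e = none) ∧ (R.image lb).card ≤ k ∧
      (∀ j ∈ R.image lb, Cell τ (univ.filter fun e => lb e = j) (ν + k) ∧
        (univ.filter fun e => lb e = j).card < R.card) ∧
      ∑ j ∈ R.image lb, Phi τ A δ (univ.filter fun e => lb e = j) ≤ (1 - η) * Phi τ A δ R ∧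
      ((seam τ lb).card : ℝ) ≤ 2 * (bF τ R).card + k * √(R.card) ∧
      ∃ reps : Finset E, reps.card ≤ ν + k ∧
        ∀ e, ∃ r ∈ reps, MLink τ (fun x => lb x.1 = lb (τ x).1) r e := by
  obtain ⟨hne, hcon, reps, hr1, hr2⟩ := hR
  haveI : Nonempty E := ⟨hne.choose⟩
  have a4 : (4 : ℝ) ≤ R.card := by exact_mod_cast h4
  have s1 : 1 ≤ √(R.card : ℝ) := Real.one_le_sqrt.2 (by linarith)
  have k1 : (1 : ℝ) ≤ k := by exact_mod_cast hk
  let wb : E → ℝ := fun e => ((bF τ R).filter fun x => x.1 = e).card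
  have wb1 : ∑ e ∈ R, wb e = (bF τ R).card := by
    rw [card_eq_sum_card_fiberwise (f := Prod.fst) (t := R) fun x hx => (mem_filter.1 hx).2.1]
    push_cast
    rfl
  have wb2 : ∀ e, wb e ≤ 4 := fun e => by
    have : ((bF τ R).filter fun x => x.1 = e).card ≤ (univ : Finset (Bool × Bool)).card :=
      card_le_card_of_injOn Prod.snd (fun _ _ => mem_univ _) fun x hx y hy h =>
        Prod.ext ((mem_filter.1 hx).2.trans (mem_filter.1 hy).2.symm) h
    simp only [card_univ, Fintype.card_prod, Fintype.card_bool] at this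
    show (((bF τ R).filter fun x => x.1 = e).card : ℝ) ≤ 4
    exact_mod_cast this
  obtain ⟨wt, w0, w1, w2, w3⟩ : ∃ wt : E → ℝ, (∀ e, 0 ≤ wt e) ∧
      (∀ e ∈ R, 4 * wt e ≤ ∑ e' ∈ R, wt e') ∧ 0 < ∑ e ∈ R, wt e ∧
      ((((bF τ R).card : ℝ) ≤ 64 * k * √(R.card : ℝ) ∧ wt = fun _ => 1) ∨
        (64 * k * √(R.card : ℝ) ≤ (bF τ R).card ∧ wt = wb)) := by
    rcases le_total ((bF τ R).card : ℝ) (64 * k * √(R.card : ℝ)) with h | h
    · exact ⟨fun _ => 1, fun _ => zero_le_one, fun _ _ => by simpa using a4, by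
        simpa using hne, Or.inl ⟨h, rfl⟩⟩
    · have : (64 : ℝ) ≤ (bF τ R).card := by nlinarith
      exact ⟨wb, fun _ => Nat.cast_nonneg _, fun e _ => by rw [wb1]; linarith [wb2 e],
        by rw [wb1]; linarith, Or.inr ⟨h, rfl⟩⟩
  obtain ⟨lab, l1, l2, l3, l4⟩ := hs R wt hcon w0 w1
  let lb : E → Option E := fun e => if e ∈ R then some (lab e) else none
  have lb1 : ∀ e ∈ R, lb e = some (lab e) := fun e he => if_pos he
  have lb0 : ∀ e, e ∉ R ↔ lb e = none := fun e =>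
    ⟨fun h => if_neg h, fun h h' => by simp [lb1 e h'] at h⟩
  have lb2 : ∀ e a, lb e = some a ↔ e ∈ R ∧ lab e = a := fun e a => by
    by_cases h : e ∈ R <;> simp [lb, h]
  have lb3 : ∀ a, (univ.filter fun e => lb e = some a) = R.filter fun e => lab e = a := fun a => by
    ext e
    simp [lb2]
  have lbS : ∀ j ∈ R.image lb, ∃ e ∈ R, j = some (lab e) := fun j hj => by
    obtain ⟨e, he, rfl⟩ := mem_image.1 hj
    exact ⟨e, he, lb1 e he⟩
  have con : ∀ e ∈ R, ∀ e' ∈ R, lab e = lab e' →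
      MLink τ (fun x => lb x.1 = lb e ∧ lb (τ x).1 = lb e) e e' := fun e he e' he' h =>
    (l2 e he e' he' h).mono fun x hx => by
      rw [lb1 e he, lb2, lb2]
      exact hx
  have rp : ∀ e, ∃ r ∈ reps ∪ (R.image lab).image (Function.invFunOn lab R),
      MLink τ (fun x => lb x.1 = lb e ∧ lb (τ x).1 = lb e) r e := fun e => by
    by_cases he : e ∈ R
    · have h1 : ∃ a ∈ (R : Set E), lab a = lab e := ⟨e, he, rfl⟩
      exact ⟨_, mem_union_right _ (mem_image_of_mem _ (mem_image_of_mem _ he)),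
        (con e he _ (Function.invFunOn_mem h1) (Function.invFunOn_eq h1).symm).symm⟩
    · obtain ⟨r, h1, h2⟩ := hr2 e he
      exact ⟨r, mem_union_left _ h1, h2.mono fun x hx => by
        rw [(lb0 e).1 he, ← lb0, ← lb0]
        exact hx⟩
  have rc : (reps ∪ (R.image lab).image (Function.invFunOn lab R)).card ≤ ν + k :=
    (card_union_le _ _).trans (add_le_add hr1 (card_image_le.trans l1))
  set T := univ.filter fun x : Flag E => x.1 ∈ R ∧ (τ x).1 ∈ R ∧ lab x.1 ≠ lab (τ x).1 with hT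
  refine ⟨lb, lb0, ?_, fun j hj => ?_, ?_, ?_, _, rc, fun e => ?_⟩
  · rw [image_congr (g := some ∘ lab) fun e he => lb1 e he, ← image_image]
    exact card_image_le.trans l1
  · obtain ⟨e₀, h0, rfl⟩ := lbS j hj
    refine ⟨⟨⟨e₀, by simp [lb1 e₀ h0]⟩, fun e he e' he' => ?_, _, rc, fun e he => ?_⟩, ?_⟩
    · have h1 := (mem_filter.1 he).2
      have h2 := (lb2 _ _).1 (mem_filter.1 he').2
      refine (con e ((lb2 _ _).1 h1).1 e' h2.1 (((lb2 _ _).1 h1).2.trans h2.2.symm)).mono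
        fun x hx => ?_
      simpa only [mem_filter, mem_univ, true_and, ← h1] using hx
    · obtain ⟨r, h1, h2⟩ := rp e
      refine ⟨r, h1, h2.mono fun x hx => ?_⟩
      simp only [mem_filter, mem_univ, true_and] at he ⊢
      rw [hx.1, hx.2]
      exact ⟨he, he⟩
    · rw [lb3]
      refine card_lt_card (filter_ssubset.2 ?_)
      by_contra hcon
      push Not at hcon
      have := l4 (lab e₀)
      rw [filter_true_of_mem hcon] at this
      linarith
  · refine hc _ _ _ (fun j => ((bF τ R).filter fun x => lb x.1 = j).card)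
      (fun j => (T.filter fun x => lb x.1 = j).card) _ _ (fun j hj => ⟨Nat.cast_nonneg _,
        Nat.cast_nonneg _, Nat.cast_nonneg _, Nat.cast_nonneg _, ?_⟩) ?_ ?_ ?_
      (w3.imp (And.imp_right fun h j hj => ?_) (And.imp_right fun h j hj => ?_))
    · obtain ⟨e₀, h0, rfl⟩ := lbS j hj
      norm_cast
      refine le_trans (card_le_card fun x hx => ?_) (card_union_le _ _)
      simp only [bF, hT, mem_filter, mem_univ, true_and, mem_union, lb2] at hx ⊢
      by_cases h : (τ x).1 ∈ R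
      · exact Or.inr ⟨⟨hx.1.1, h, fun e => hx.2 ⟨h, e ▸ hx.1.2⟩⟩, hx.1⟩
      · exact Or.inl ⟨⟨hx.1.1, h⟩, hx.1⟩
    · rw [card_eq_sum_card_image lb R]
      push_cast
      refine sum_congr rfl fun j hj => ?_
      obtain ⟨e₀, h0, rfl⟩ := lbS j hj
      congr 2
      ext e
      simp [lb2]
    · rw [card_eq_sum_card_fiberwise (f := fun x => lb x.1) (s := bF τ R) (t := R.image lb)
        fun x hx => mem_image_of_mem _ (mem_filter.1 hx).2.1]
      push_cast
      rfl
    · refine le_of_eq_of_le ?_ l3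
      rw [card_eq_sum_card_fiberwise (f := fun x => lb x.1) (s := T) (t := R.image lb)
        fun x hx => mem_image_of_mem _ (mem_filter.1 hx).2.1]
      push_cast
      rfl
    · obtain ⟨e₀, h0, rfl⟩ := lbS j hj
      simpa [lb3, h] using l4 (lab e₀)
    · obtain ⟨e₀, h0, rfl⟩ := lbS j hj
      have h1 := l4 (lab e₀)
      rw [h, wb1] at h1
      refine le_trans (mul_le_mul_of_nonneg_left ?_ (by norm_num)) h1
      rw [card_eq_sum_card_fiberwise (f := Prod.fst) (t := R.filter fun e => lab e = lab e₀)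
        fun x hx => mem_filter.2 ((lb2 _ _).1 (mem_filter.1 hx).2)]
      push_cast
      exact sum_le_sum fun e _ => Nat.cast_le.2 (card_le_card (filter_subset_filter _
        (filter_subset _ _)))
  · have h1 : seam τ lb ⊆ bF τ R ∪ (bF τ R).image τ ∪ T := fun x hx => by
      have h2 := mem_seam.1 hx
      simp only [bF, hT, mem_filter, mem_univ, true_and, mem_union, mem_image]
      by_cases a : x.1 ∈ R <;> by_cases b : (τ x).1 ∈ R
      · exact Or.inr ⟨a, b, fun e => h2 (by rw [lb1 _ a, lb1 _ b, e])⟩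
      · exact Or.inl (Or.inl ⟨a, b⟩)
      · exact Or.inl (Or.inr ⟨τ x, ⟨b, by rwa [hτ.1]⟩, hτ.1 x⟩)
      · exact absurd (((lb0 _).1 a).trans ((lb0 _).1 b).symm) h2
    have h2 := (card_le_card h1).trans ((card_union_le _ _).trans (add_le_add_left
      ((card_union_le _ _).trans (add_le_add_right card_image_le _)) _))
    have h3 : ((seam τ lb).card : ℝ) ≤ (bF τ R).card + (bF τ R).card + T.card := by
      exact_mod_cast h2
    linarith
  · obtain ⟨r, h1, h2⟩ := rp e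
    exact ⟨r, h1, h2.mono fun x hx => hx.1.trans hx.2.symm⟩

theorem ar_base {c L L' X : ℝ} (hc : 0 ≤ c) (h : c ≤ L) (hX : 1 ≤ L' * X) : c ≤ L * L' * X := by
  rw [mul_assoc]
  exact h.trans (le_mul_of_one_le_right (hc.trans h) hX)

theorem ar_fact {G L η s X T : ℝ} (h1 : G ≤ L * (η / 2)) (hX : 1 ≤ s * X)
    (h2 : T ≤ L * (1 - η / 2) * (s * X)) : T + G * s * X ≤ L * s * X := by
  have := mul_le_mul_of_nonneg_right h1 (zero_le_one.trans hX)
  linarith

theorem ar_top {G L L' η s X T T' n k : ℝ} (hG : 0 < G) (hL : 64 ≤ L) (η0 : 0 < η)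
    (h1 : k * (L + G) ≤ L' * (η / 2)) (hX : 1 ≤ s * X) (hn : 0 ≤ n) (hk : n ≤ k)
    (h2 : T ≤ L * (1 - η / 2) * (s * X)) (h3 : T' ≤ L' * (1 - η / 2) * (s * X)) :
    n * (T + G * s * X) + T' ≤ L' * s * X := by
  have X0 := zero_le_one.trans hX
  have h4 : 0 ≤ L * (η / 2) * (s * X) := by
    have : 0 ≤ L := by linarith
    positivity
  have h5 : T + G * s * X ≤ (L + G) * (s * X) := by linarith
  have h6 := (mul_le_mul_of_nonneg_left h5 hn).trans
    (mul_le_mul_of_nonneg_right hk (mul_nonneg (by linarith) X0))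
  have h7 := mul_le_mul_of_nonneg_right h1 X0
  linarith

theorem ar_nat {γ k m n : ℕ} (h : n ≤ 2 * (k * m + k)) : γ + n + 1 ≤ (γ + 2 * k + 1) * (m + 1) := by
  nlinarith [Nat.zero_le (γ * m), Nat.zero_le m, Nat.zero_le k]

end Gad

open Gad in
theorem gadget (h1 : SplitStmt) (h2 : SeamStmt) (h3 : RemStmt) (h4 : MergeStmt) (h5 : GlueStmt) :
    GadgetStmt := by
  intro ε hε γ
  obtain ⟨k, hk, hs⟩ := h1 γ
  obtain ⟨K₃, hK₃, hrem⟩ := h3 γ 12
  obtain ⟨K₅, hK₅, hgl⟩ := h5 (2 * ε) (by linarith)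
  obtain ⟨A, η, hA, η0, η1, hc⟩ := contract hε hk
  set σ := (1 - η / 2) / (1 - η) with hσ
  have σ1 : 1 < σ := by rw [hσ, one_lt_div (by linarith)]; linarith
  have σ2 : σ * (1 - η) = 1 - η / 2 := div_mul_cancel₀ _ (by linarith)
  obtain ⟨C, hC, hpoly⟩ := poly_le σ1
  set G := K₅ * 4 ^ γ * (((γ : ℝ) + 2 * k + 1) ^ 5 * C) * (2 * k + 5) ^ (2 + 2 * ε) with hG
  have G0 : 0 < G := by positivity
  set L := 64 + 2 * G / η with hL
  have L0 : 64 ≤ L := le_add_of_nonneg_right (by positivity)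
  have L1 : G ≤ L * (η / 2) := by
    have : L * (η / 2) = 32 * η + G := by rw [hL]; field_simp; ring
    linarith
  set L' := K₃ + 2 * (k * (L + G)) / η with hL'
  have L2 : K₃ ≤ L' := le_add_of_nonneg_right (by positivity)
  have L3 : k * (L + G) ≤ L' * (η / 2) := by
    have : L' * (η / 2) = K₃ * (η / 2) + k * (L + G) := by rw [hL']; field_simp
    have : 0 < K₃ * (η / 2) := by positivity
    linarith
  refine ⟨L' * A, by positivity, fun E E' _ _ _ _ τ τ' p hτ hτ' hp hf hcon r1 r2 r3 => ?_⟩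
  have pre : ∀ T : Finset E, (univ.filter fun e => p e ∈ T).card ≤ 2 * T.card := fun T =>
    card_le_mul_card_image_of_maps_to (f := p) (fun e he => (mem_filter.1 he).2) 2 fun e _ =>
      (card_le_card (filter_subset_filter _ (filter_subset _ _))).trans (hf e)
  have main : ∀ (n : ℕ) (R : Finset E) (m : ℕ), R.card = n → Cell τ R (k * m) →
      Fact τ' (fun e => p e ∈ R) (L * σ ^ m * Phi τ A ε R) ∧
        Top τ' p R (L' * σ ^ m * Phi τ A ε R) := by
    intro n
    induction n using Nat.strong_induction_on with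
    | _ n ih =>
    intro R m hn hR
    have Φ1 := one_le_phi (τ := τ) hA hε hR.1
    have σm : 1 ≤ σ ^ m := one_le_pow₀ σ1.le
    have X1 : 1 ≤ σ ^ m * Phi τ A ε R := one_le_mul_of_one_le_of_one_le σm Φ1
    rcases lt_or_ge R.card 4 with h4' | h4'
    · have hU : (univ.filter fun e => p e ∈ R).card ≤ 6 := (pre R).trans (by omega)
      exact ⟨(fact_base h4 _ hU).mono (ar_base (by norm_num) L0 X1),
        (top_base (hrem E' (gcl τ' ∅)) r3 hU).mono (ar_base hK₃.le L2 X1)⟩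
    obtain ⟨lb, a1, a2, a3, a4, a5, reps, a6, a7⟩ :=
      split hτ hk (fun R wt => hs E τ R wt hτ r1) hc hR h4'
    have hS : ∀ e, e ∈ R ↔ lb e ∈ R.image lb := fun e => ⟨mem_image_of_mem _, fun h => by
      obtain ⟨e₀, h0, h1⟩ := mem_image.1 h
      by_contra he
      exact (a1 e₀).2 (h1.trans ((a1 e).1 he)) h0⟩
    have hch : ∀ j e, p e ∈ (univ.filter fun e => lb e = j) ↔ lb (p e) = j := fun j e => by simp
    have IH := fun j hj => ih _ (hn ▸ (a3 j hj).2) _ (m + 1) rfl (a3 j hj).1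
    have glue : ∀ U : E' → Prop, (∀ e e', lb (p e) = lb (p e') → U e = U e') →
        Step (gcl τ' (seam τ' fun e => lb (p e))) (gcl τ' (seam τ' U)) (gok τ' (seam τ' U))
          (G * σ ^ m * Phi τ A ε R) := fun U hU => by
      have b1 := (h2 E' τ' _ (fun e => lb (p e)) hτ').2 γ (univ.filter fun e => p e ∈ reps) r2
        fun e => by
          obtain ⟨r, c1, c2⟩ := a7 (p e)
          obtain ⟨r', c3, c4⟩ := link_lift hτ hτ' hp c2 rfl
          exact ⟨r', by simpa [c3] using c1, c4.mono fun x hx => by rwa [← hp x] at hx⟩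
      refine (hgl E' τ' _ _ γ _ hτ' r3 (seam_sub hU) (h2 E' τ' _ _ hτ').1 (h2 E' τ' _ _ hτ').1
        b1).mono ?_
      have b2 : (seam τ' fun e => lb (p e)).card ≤ 2 * (seam τ lb).card :=
        card_le_mul_card_image_of_maps_to (f := fun x => (p x.1, x.2))
          (fun x hx => mem_seam.2 (by rw [← hp x]; exact mem_seam.1 hx)) 2 fun y _ =>
          le_trans (card_le_card_of_injOn (t := univ.filter fun e' => p e' = y.1) Prod.fst
            (fun x hx => mem_filter.2 ⟨mem_univ _, congrArg Prod.fst (mem_filter.1 hx).2⟩)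
            fun x hx x' hx' h => Prod.ext h ((congrArg Prod.snd (mem_filter.1 hx).2).trans
              (congrArg Prod.snd (mem_filter.1 hx').2).symm)) (hf y.1)
      have b3 : ((seam τ' fun e => lb (p e)).card : ℝ) ≤ 2 * (seam τ lb).card := by
        exact_mod_cast b2
      have b4 := glue_le (b := (bF τ R).card) (x := (seam τ' fun e => lb (p e)).card) hε k hA
        (show (1 : ℝ) ≤ R.card by exact_mod_cast hR.1.card_pos) (Nat.cast_nonneg _)
        (Nat.cast_nonneg _) (by linarith)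
      have b5 : ((γ + (univ.filter fun e => p e ∈ reps).card : ℕ) : ℝ) + 1 ≤
          ((γ : ℝ) + 2 * k + 1) * (m + 1) := by
        exact_mod_cast ar_nat (γ := γ) ((pre reps).trans (Nat.mul_le_mul_left 2 a6))
      have b6 := (pow_le_pow_left₀ (by positivity) b5 5).trans_eq (mul_pow _ _ _)
      have b7 := b6.trans (mul_le_mul_of_nonneg_left (hpoly m) (by positivity))
      calc _ ≤ K₅ * 4 ^ γ * (((γ : ℝ) + 2 * k + 1) ^ 5 * (C * σ ^ m)) *
            ((2 * k + 5) ^ (2 + 2 * ε) * Phi τ A ε R) := by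
            refine mul_le_mul (mul_le_mul_of_nonneg_left b7 (by positivity)) b4 (by positivity)
              (by positivity)
        _ = _ := by rw [hG]; ring
    have hF : ∀ j ∈ R.image lb, Fact τ' (fun e => lb (p e) = j)
        (L * σ ^ (m + 1) * Phi τ A ε (univ.filter fun e => lb e = j)) := fun j hj => by
      simpa only [hch] using (IH j hj).1
    have sm : ∀ c : ℝ, 0 ≤ c → ∑ j ∈ R.image lb, c * σ ^ (m + 1) *
        Phi τ A ε (univ.filter fun e => lb e = j) ≤ c * (1 - η / 2) * (σ ^ m * Phi τ A ε R) :=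
      fun c hc => by
        rw [← mul_sum]
        refine (mul_le_mul_of_nonneg_left a4 (by positivity)).trans_eq ?_
        rw [← σ2]
        ring
    have s1 := sm L (by linarith)
    have s2 := sm L' (by linarith)
    constructor
    · exact (fact_step hτ' _ (fun e => hS (p e)) hF
        (glue _ fun e e' h => propext (by rw [hS, hS, h]))).mono (ar_fact L1 X1 s1)
    · refine (top_step hτ' (R.image lb) (j₀ := none) (fun j => univ.filter fun e => lb e = j) lb
        (fun e => hS (p e)) (fun e => a1 (p e)) (fun h => ?_) (fun j _ => hch j)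
        (fun e he => ⟨mem_image_of_mem _ he, by simp⟩) hF
        (fun j _ => glue _ fun e e' h => by rw [h]) fun j hj => (IH j hj).2).mono ?_
      · obtain ⟨e, h1, h2⟩ := mem_image.1 h
        exact (a1 e).2 h2 h1
      · rw [sum_add_distrib, sum_const, nsmul_eq_mul]
        exact ar_top G0 L0 η0 L3 X1 (Nat.cast_nonneg _) (Nat.cast_le.2 a2) s1 s2
  rcases isEmpty_or_nonempty E with hE | hE
  · exact NR.zero (fun i => hE.elim i.1) (by positivity)
  have hr : ∀ M : Vec E', res (fun e => p e ∈ (univ : Finset E)) M = M := fun M =>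
    funext fun e => res_pos (U := fun e => p e ∈ (univ : Finset E)) (mem_univ _) M
  have hg : ∀ s (M : Vec E'), Gr τ' s (fun e => ¬ p e ∈ (univ : Finset E)) M 0 := fun s M =>
    ⟨⟨by simp, by simp⟩, by simp [Supp], funext fun e => by simp [res]⟩
  have hT := (main _ univ 0 rfl ⟨univ_nonempty, fun e _ e' _ => (hcon e e').map id fun x _ =>
    Link.edge (n := fun x b => (if b then τ x else x).1) (k := x.x) ⟨mem_univ _, mem_univ _⟩,
    ∅, by simp, by simp⟩).2
  refine NR.mono (NR.comap hT (fun i => (i.1, i.2, 0)) (fun D => (D, 0))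
    (fun i h => ⟨mem_univ _, h, hg _ _⟩) (fun D h => ⟨fun d _ => h d, hg _ _⟩)
    fun i D _ _ => by simp only [hr, psi_zero_left, add_zero]) (le_of_eq ?_)
  have : (2 + 2 * ε) ≠ 0 := by linarith
  simp [Phi, bF, Real.zero_rpow this, mul_assoc]

end Pool.Agent.Lib.MP_234305_co
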