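import Pool.Agent.Lib.MP_234305_co.H77Stmts2

/-!
Groupings inside and outside a set of edges: the combinatorial steps of the recursion.
-/

namespace Pool.Agent.Lib.MP_234305_co.Gad

open Finset Matrix

variable {E : Type} [Fintype E] [DecidableEq E] {τ : Flag E → Flag E}

theorem mem_seam {L : Type} {lb : E → L} {x : Flag E} :
    x ∈ seam τ lb ↔ lb x.1 ≠ lb (τ x).1 := by simp [seam]

theorem seam_not (U : E → Prop) : seam τ (fun e => ¬ U e) = seam τ U := by
  ext x
  simp only [mem_seam, ne_eq, eq_iff_iff, not_iff_not]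

theorem seam_sub {L L' : Type} {lb : E → L} {lb' : E → L'}
    (h : ∀ e e', lb e = lb e' → lb' e = lb' e') : seam τ lb' ⊆ seam τ lb :=
  fun _ hx => mem_seam.2 fun h' => mem_seam.1 hx (h _ _ h')

omit [Fintype E] [DecidableEq E] in
theorem sec_of_pred {B B' : Finset (Flag E)} {s : Bool} {q : Dart E → Prop}
    (h : ∀ x ∉ B, (q (pr s x) ↔ q (pr s (τ x))) ∧ (q (pr s x) → x ∉ B')) {d d' : Dart E}
    (hd : Sec τ B s d d') (hq : q d) : Sec τ B' s d d' :=
  (Link.induct (r := fun a b => (q a ↔ q b) ∧ (q a → Sec τ B' s a b))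
    ⟨fun _ => ⟨Iff.rfl, fun _ => Link.refl _⟩, fun h => ⟨h.1.symm, fun h' => (h.2 (h.1.2 h')).symm⟩,
      fun h h' => ⟨h.1.trans h'.1, fun h'' => (h.2 h'').trans (h'.2 (h.1.1 h''))⟩⟩
    (fun x hx => ⟨(h x hx).1, fun h' => Sec.step ((h x hx).2 h')⟩) hd).2 hq

theorem lab_of_mem {L : Type} {lb : E → L} {s : Bool} {d d' : Dart E}
    (h : d' ∈ gcl τ (seam τ lb) s d) : lb d'.1 = lb d.1 :=
  ((mem_gcl.1 h).const (fun d => lb d.1) fun _ hx => not_not.1 fun h' => hx (mem_seam.2 h')).symm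

theorem gcl_seam_lab {L : Type} {lb : E → L} {s : Bool} {d : Dart E} {j : L} (h : lb d.1 = j) :
    gcl τ (seam τ lb) s d = gcl τ (seam τ fun e => lb e = j) s d := by
  refine Subset.antisymm (gcl_mono (seam_sub fun e e' h => by rw [h]) d) fun d' hd' => ?_
  refine mem_gcl.2 (sec_of_pred (q := fun d => lb d.1 = j) (fun x hx => ?_) (mem_gcl.1 hd') h)
  have h1 : (lb x.1 = j) = (lb (τ x).1 = j) := not_not.1 fun h' => hx (mem_seam.2 h')
  exact ⟨h1.to_iff, fun h2 h3 => mem_seam.1 h3 (h2.trans (h1 ▸ h2 : lb (τ x).1 = j).symm)⟩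

theorem gcl_seam_eq {U : E → Prop} {s : Bool} {d : Dart E}
    (h : ∀ d' ∈ gcl τ ∅ s d, (U d'.1 ↔ U d.1)) : gcl τ (seam τ U) s d = gcl τ ∅ s d := by
  refine Subset.antisymm (gcl_mono (empty_subset _) d) fun d' hd' => ?_
  refine mem_gcl.2 (sec_of_pred (q := fun d' => d' ∈ gcl τ ∅ s d) (fun x hx => ?_) (mem_gcl.1 hd')
    (self_mem_gcl d))
  exact ⟨mem_gcl_step hx d, fun h2 h3 => mem_seam.1 h3
    (propext ((h _ h2).trans (h _ ((mem_gcl_step hx d).1 h2)).symm))⟩

theorem gok_of (hτ : IsMap τ) {U : E → Prop} {s : Bool} {M : Vec E}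
    (h : ∀ d, (∀ d' ∈ gcl τ ∅ s d, (U d'.1 ↔ U d.1)) → M ⬝ᵥ st (gcl τ ∅ s d) = 0) :
    gok τ (seam τ U) s M := by
  intro d hd
  have h1 : ∀ x ∈ seam τ U, pr s x ∉ gcl τ (seam τ U) s d := fun x hx h' =>
    hd (mem_image.2 ⟨x, hx, (isCl_gcl _ _ _).2 _ _ h'⟩)
  have h2 : gcl τ (seam τ U) s d = gcl τ ∅ s d := by
    refine Subset.antisymm (gcl_mono (empty_subset _) d) fun d' hd' => ?_
    refine ((mem_gcl.1 hd').iff (p := fun d' => d' ∈ gcl τ (seam τ U) s d) fun x _ => ?_).1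
      (self_mem_gcl d)
    by_cases hx : x ∈ seam τ U
    · refine iff_of_false (h1 x hx) (h1 _ (mem_seam.2 ?_))
      rw [hτ.1]
      exact (mem_seam.1 hx).symm
    · exact mem_gcl_step hx d
  rw [h2]
  exact h d fun d' hd' => (lab_of_mem (h2 ▸ hd')).to_iff

open Classical in
/-- Restriction of a chain. -/
noncomputable def res (U : E → Prop) (M : Vec E) : Vec E := fun e => if U e then M e else 0

omit [Fintype E] [DecidableEq E] in
theorem res_pos {U : E → Prop} {e : E} (h : U e) (M : Vec E) : res U M e = M e := if_pos h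

omit [Fintype E] [DecidableEq E] in
theorem res_neg {U : E → Prop} {e : E} (h : ¬ U e) (M : Vec E) : res U M e = 0 := if_neg h

theorem dot_st_congr {c c' : Vec E} {A : Finset (Dart E)} (h : ∀ d ∈ A, c d.1 = c' d.1) :
    c ⬝ᵥ st A = c' ⬝ᵥ st A := by
  rw [dot_st, dot_st]
  exact sum_congr rfl h

theorem dot_st_zero {c : Vec E} {A : Finset (Dart E)} (h : ∀ d ∈ A, c d.1 = 0) :
    c ⬝ᵥ st A = 0 := by
  rw [dot_st]
  exact sum_eq_zero h

/-- All groups vanish outside `U`. -/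
def Supp (U : E → Prop) (P : Multiset (Vec E)) : Prop := ∀ c ∈ P, ∀ e, ¬ U e → c e = 0

/-- `P` is a valid grouping of the part of `M` in `U`. -/
def Gr (τ : Flag E → Flag E) (s : Bool) (U : E → Prop) (M : Vec E) (P : Multiset (Vec E)) : Prop :=
  Valid (gcl τ (seam τ U) s) P ∧ Supp U P ∧ P.sum = res U M

/-- `M` is even at all classes inside `U`. -/
def Ok (τ : Flag E → Flag E) (s : Bool) (U : E → Prop) (M : Vec E) : Prop :=
  ∀ d, (∀ d' ∈ gcl τ ∅ s d, U d'.1) → M ⬝ᵥ st (gcl τ ∅ s d) = 0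

theorem Ok.mono {s : Bool} {U U' : E → Prop} {M : Vec E} (h : Ok τ s U M) (h' : ∀ e, U' e → U e) :
    Ok τ s U' M := fun d hd => h d fun d' hd' => h' _ (hd d' hd')

theorem Ok.gok (hτ : IsMap τ) {s : Bool} {U : E → Prop} {M : Vec E} (h : Ok τ s U M) :
    gok τ (seam τ U) s (res U M) := by
  refine gok_of hτ fun d hd => ?_
  by_cases h1 : U d.1
  · rw [dot_st_congr fun d' hd' => res_pos ((hd d' hd').2 h1) M]
    exact h d fun d' hd' => (hd d' hd').2 h1
  · exact dot_st_zero fun d' hd' => res_neg (fun h2 => h1 ((hd d' hd').1 h2)) M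

omit [DecidableEq E] in
theorem psi_zero_left (Q : Multiset (Vec E)) : Psi 0 Q = 0 := by simp [Psi]

omit [DecidableEq E] in
theorem psi_add_left (P P' Q : Multiset (Vec E)) : Psi (P + P') Q = Psi P Q + Psi P' Q := by
  simp [Psi]

omit [DecidableEq E] in
theorem psi_comm (P Q : Multiset (Vec E)) : Psi P Q = Psi Q P := by
  unfold Psi
  rw [Multiset.sum_map_sum_map]
  simp only [dotProduct_comm]

omit [DecidableEq E] in
theorem psi_add_right (P Q Q' : Multiset (Vec E)) : Psi P (Q + Q') = Psi P Q + Psi P Q' := by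
  rw [psi_comm, psi_add_left, psi_comm Q, psi_comm Q']

omit [DecidableEq E] in
theorem psi_sum_left {L : Type} (S : Finset L) (P : L → Multiset (Vec E)) (Q : Multiset (Vec E)) :
    Psi (∑ j ∈ S, P j) Q = ∑ j ∈ S, Psi (P j) Q := by
  classical
  induction S using Finset.induction_on with
  | empty => simp [psi_zero_left]
  | insert a S ha ih => rw [sum_insert ha, sum_insert ha, psi_add_left, ih]

omit [DecidableEq E] in
theorem psi_disj {U U' : E → Prop} {P Q : Multiset (Vec E)} (hP : Supp U P) (hQ : Supp U' Q)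
    (h : ∀ e, U e → ¬ U' e) : Psi P Q = 0 := by
  refine Multiset.sum_eq_zero fun x hx => ?_
  obtain ⟨c, hc, rfl⟩ := Multiset.mem_map.1 hx
  refine Multiset.sum_eq_zero fun y hy => ?_
  obtain ⟨g, hg, rfl⟩ := Multiset.mem_map.1 hy
  have : c ⬝ᵥ g = 0 := sum_eq_zero fun e _ => by
    by_cases h1 : U e
    · rw [hQ g hg e (h e h1), mul_zero]
    · rw [hP c hc e h1, zero_mul]
  simp [this, val]

omit [DecidableEq E] in
theorem psi_sum {L : Type} {lb : E → L} (S : Finset L) {P Q : L → Multiset (Vec E)}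
    (hP : ∀ j ∈ S, Supp (fun e => lb e = j) (P j)) (hQ : ∀ j ∈ S, Supp (fun e => lb e = j) (Q j)) :
    Psi (∑ j ∈ S, P j) (∑ j ∈ S, Q j) = ∑ j ∈ S, Psi (P j) (Q j) := by
  rw [psi_sum_left]
  refine sum_congr rfl fun j hj => ?_
  rw [psi_comm, psi_sum_left, sum_eq_single_of_mem j hj fun i hi hij =>
    psi_disj (hQ i hi) (hP j hj) fun e h1 h2 => hij (h1.symm.trans h2), psi_comm]

theorem valid_sum {L : Type} {lb : E → L} {s : Bool} (S : Finset L) {P : L → Multiset (Vec E)}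
    (hV : ∀ j ∈ S, Valid (gcl τ (seam τ fun e => lb e = j) s) (P j))
    (hP : ∀ j ∈ S, Supp (fun e => lb e = j) (P j)) :
    Valid (gcl τ (seam τ lb) s) (∑ j ∈ S, P j) := by
  have out : ∀ j ∈ S, ∀ c ∈ P j, ∀ d : Dart E, lb d.1 ≠ j → c ⬝ᵥ st (gcl τ (seam τ lb) s d) = 0 :=
    fun j hj c hc d hd => dot_st_zero fun d' hd' => hP j hj c hc _ fun h =>
      hd ((lab_of_mem hd').symm.trans h)
  have out' : ∀ j ∈ S, ∀ c ∈ P j, ∀ d : Dart E, lb d.1 ≠ j →
      c ⬝ᵥ st (gcl τ (seam τ fun e => lb e = j) s d) = 0 :=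
    fun j hj c hc d hd => dot_st_zero fun d' hd' => hP j hj c hc _ fun h =>
      hd ((lab_of_mem (lb := fun e => lb e = j) hd').to_iff.1 h)
  refine ⟨fun c hc => ?_, fun d => ?_⟩
  · obtain ⟨j, hj, hc⟩ := Multiset.mem_sum.1 hc
    obtain ⟨a, b, h⟩ := (hV j hj).1 c hc
    by_cases hab : lb a.1 = j ∧ lb b.1 = j
    · refine ⟨a, b, fun d => ?_⟩
      by_cases hd : lb d.1 = j
      · rw [gcl_seam_lab hd, gcl_seam_lab hab.1, gcl_seam_lab hab.2]
        exact h d
      · have : ∀ a : Dart E, lb a.1 = j → gcl τ (seam τ lb) s d ≠ gcl τ (seam τ lb) s a :=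
          fun a ha e => hd ((lab_of_mem (e ▸ self_mem_gcl d)).trans ha)
        rw [out j hj c hc d hd, iz_neg (this a hab.1), iz_neg (this b hab.2), add_zero]
    · have e : gcl τ (seam τ fun e => lb e = j) s a = gcl τ (seam τ fun e => lb e = j) s b := by
        by_contra hne
        rcases not_and_or.1 hab with h1 | h1
        · have := h a
          rw [out' j hj c hc a h1, iz_pos rfl, iz_neg hne] at this
          exact absurd this (by decide)
        · have := h b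
          rw [out' j hj c hc b h1, iz_pos rfl, iz_neg (Ne.symm hne)] at this
          exact absurd this (by decide)
      refine ⟨a, a, fun d => ?_⟩
      rw [z2_add_self]
      by_cases hd : lb d.1 = j
      · rw [gcl_seam_lab hd, h d, e, z2_add_self]
      · exact out j hj c hc d hd
  · rw [← Multiset.coe_countPAddMonoidHom, map_sum, Multiset.coe_countPAddMonoidHom]
    have z : ∀ j ∈ S, j ≠ lb d.1 →
        (P j).countP (fun c => c ⬝ᵥ st (gcl τ (seam τ lb) s d) = 1) = 0 := fun j hj hne =>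
      Multiset.countP_eq_zero.2 fun c hc => by
        rw [out j hj c hc d hne.symm]
        decide
    by_cases hd : lb d.1 ∈ S
    · rw [sum_eq_single_of_mem _ hd z, gcl_seam_lab rfl]
      exact (hV _ hd).2 d
    · rw [sum_eq_zero fun j hj => z j hj fun h => hd (h ▸ hj)]
      exact zero_le_one

omit [Fintype E] [DecidableEq E] in
theorem res_sum {L : Type} {lb : E → L} (S : Finset L) {U : E → Prop} (hU : ∀ e, U e ↔ lb e ∈ S)
    (M : Vec E) : ∑ j ∈ S, res (fun e => lb e = j) M = res U M := by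
  funext e
  rw [Finset.sum_apply]
  by_cases h : U e
  · rw [sum_eq_single_of_mem _ ((hU e).1 h) fun j _ hj => by simp [res, hj.symm]]
    simp [res, h]
  · rw [res_neg h]
    exact sum_eq_zero fun j hj =>
      res_neg (U := fun e => lb e = j) (fun h' => h ((hU e).2 (h' ▸ hj))) M

omit [DecidableEq E] in
theorem cnt_sum {L : Type} {lb : E → L} (S : Finset L) {U : E → Prop} (hU : ∀ e, U e ↔ lb e ∈ S)
    (M D : Vec E) : cnt (res U M) (res U D) =
      ∑ j ∈ S, cnt (res (fun e => lb e = j) M) (res (fun e => lb e = j) D) := by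
  unfold cnt
  rw [sum_comm]
  refine sum_congr rfl fun e _ => ?_
  by_cases h : U e
  · rw [sum_eq_single_of_mem _ ((hU e).1 h) fun j _ hj => by simp [res, hj.symm, val]]
    simp [res, h]
  · rw [res_neg h, sum_eq_zero fun j hj => by
      rw [res_neg (U := fun e => lb e = j) (fun h' => h ((hU e).2 (h' ▸ hj))) M]; simp [val]]
    simp [val]

/-- Groupings of the parts, glued. -/
theorem gr_glue {L : Type} {lb : E → L} {s : Bool} (S : Finset L) {U : E → Prop}
    (hU : ∀ e, U e ↔ lb e ∈ S) {M : Vec E} {P : L → Multiset (Vec E)}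
    (h : ∀ j ∈ S, Gr τ s (fun e => lb e = j) M (P j)) :
    Valid (gcl τ (seam τ lb) s) (∑ j ∈ S, P j) ∧ Supp U (∑ j ∈ S, P j) ∧
      (∑ j ∈ S, P j).sum = res U M := by
  refine ⟨valid_sum S (fun j hj => (h j hj).1) fun j hj => (h j hj).2.1, fun c hc e he => ?_, ?_⟩
  · obtain ⟨j, hj, hc⟩ := Multiset.mem_sum.1 hc
    exact (h j hj).2.1 c hc e fun h' => he ((hU e).2 (h' ▸ hj))
  · rw [Multiset.sum_sum, ← res_sum S hU]
    exact sum_congr rfl fun j hj => (h j hj).2.2

/-- The groupings inside `U` can be reached at cost `N`. -/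
def Fact (τ : Flag E → Flag E) (U : E → Prop) (N : ℝ) : Prop :=
  ∃ F : Bool → Vec E → Multiset (Vec E), (∀ s M, Ok τ s U M → Gr τ s U M (F s M)) ∧
    NR (Ok τ true U) (Ok τ false U)
      (fun M D => cnt (res U M) (res U D) - Psi (F true M) (F false D)) N

theorem Fact.mono {U : E → Prop} {N N' : ℝ} (h : Fact τ U N) (h' : N ≤ N') : Fact τ U N' :=
  let ⟨F, h1, h2⟩ := h; ⟨F, h1, h2.mono h'⟩

theorem fact_step (hτ : IsMap τ) {L : Type} {lb : E → L} (S : Finset L) {U : E → Prop}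
    (hU : ∀ e, U e ↔ lb e ∈ S) {N : L → ℝ} {N₀ : ℝ}
    (hF : ∀ j ∈ S, Fact τ (fun e => lb e = j) (N j))
    (hG : Step (gcl τ (seam τ lb)) (gcl τ (seam τ U)) (gok τ (seam τ U)) N₀) :
    Fact τ U (∑ j ∈ S, N j + N₀) := by
  choose! F h1 h2 using hF
  obtain ⟨G, h3, h4⟩ := hG
  have ok : ∀ {s M}, Ok τ s U M → ∀ j ∈ S, Ok τ s (fun e => lb e = j) M := fun h j hj =>
    h.mono fun e he => (hU e).2 (he ▸ hj)
  have key : ∀ {s M}, Ok τ s U M → _ := fun {s M} h =>
    gr_glue S hU fun j hj => h1 j hj s M (ok h j hj)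
  have key2 : ∀ {s M}, Ok τ s U M → Valid (gcl τ (seam τ lb) s) (∑ j ∈ S, F j s M) ∧
      gok τ (seam τ U) s (∑ j ∈ S, F j s M).sum := fun h =>
    ⟨(key h).1, by rw [(key h).2.2]; exact h.gok hτ⟩
  refine ⟨fun s M => G s (∑ j ∈ S, F j s M), fun s M h => ?_, ?_⟩
  · obtain ⟨a, b⟩ := h3 s _ (key2 h).1 (key2 h).2
    exact ⟨a, fun c hc e he => b.2 e (fun c' hc' => (key h).2.1 c' hc' e he) c hc,
      b.1.trans (key h).2.2⟩
  · refine ((NR.sum S fun j hj => (h2 j hj).comap id id (fun M h => ok h j hj)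
      (fun D h => ok h j hj) fun _ _ _ _ => rfl).add (h4.comap (fun M => ∑ j ∈ S, F j true M)
        (fun D => ∑ j ∈ S, F j false D) (fun M h => key2 h) (fun D h => key2 h)
        fun _ _ _ _ => rfl)).congr fun M D hM hD => ?_
    simp only [id] at hM hD ⊢
    rw [psi_sum S (fun j hj => (h1 j hj _ _ (ok hM j hj)).2.1)
      (fun j hj => (h1 j hj _ _ (ok hD j hj)).2.1), cnt_sum S hU, sum_sub_distrib]
    ring

/-- The remaining potential, for rows whose special edge lies in `R`. -/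
def Top (τ : Flag E → Flag E) {E₀ : Type} (p : E → E₀) (R : Finset E₀) (N : ℝ) : Prop :=
  NR (fun i : E₀ × Vec E × Multiset (Vec E) => i.1 ∈ R ∧ Ok τ true (fun e => p e ≠ i.1) i.2.1 ∧
      Gr τ true (fun e => ¬ p e ∈ R) i.2.1 i.2.2)
    (fun j : Vec E × Multiset (Vec E) => Ok τ false (fun _ => True) j.1 ∧
      Gr τ false (fun e => ¬ p e ∈ R) j.1 j.2)
    (fun i j => cnt (res (fun e => p e ∈ R) i.2.1) (res (fun e => p e ∈ R) j.1) + Psi i.2.2 j.2 -
      val (i.2.1 ⬝ᵥ j.1)) N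

theorem top_step (hτ : IsMap τ) {E₀ : Type} {p : E → E₀} {R : Finset E₀} {L : Type} [Fintype L]
    {lb : E → L} (S : Finset L) {j₀ : L} (ch : L → Finset E₀) (φ : E₀ → L)
    (hS : ∀ e, p e ∈ R ↔ lb e ∈ S) (h₀ : ∀ e, ¬ p e ∈ R ↔ lb e = j₀) (hj : j₀ ∉ S)
    (hch : ∀ j ∈ S, ∀ e, p e ∈ ch j ↔ lb e = j) (hφ : ∀ e ∈ R, φ e ∈ S ∧ e ∈ ch (φ e))
    {N N' : L → ℝ} {N₀ : ℝ} (hF : ∀ j ∈ S, Fact τ (fun e => lb e = j) (N j))
    (hG : ∀ j ∈ S, Step (gcl τ (seam τ lb)) (gcl τ (seam τ fun e => lb e = j))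
      (gok τ (seam τ fun e => lb e = j)) N₀)
    (hT : ∀ j ∈ S, Top τ p (ch j) (N' j)) :
    Top τ p R (∑ i ∈ S, (∑ j ∈ S, N j + N₀ + N' i)) := by
  classical
  choose! F h1 h2 using hF
  have e₀ : (fun e => ¬ p e ∈ R) = fun e => lb e = j₀ := funext fun e => propext (h₀ e)
  refine (NR.blocks (fun i => φ i.1) (fun _ => ())
    (n := fun i _ => if i ∈ S then ∑ j ∈ S, N j + N₀ + N' i else 0) fun i _ => ?_).mono
    (by simp [sum_ite_mem])
  split_ifs with hi
  swap
  · exact NR.zero (fun x _ hx _ => absurd (hx.2 ▸ (hφ _ hx.1.1).1) hi) le_rfl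
  obtain ⟨G, h3, h4⟩ := hG i hi
  have e₁ : (fun e => p e ∈ ch i) = fun e => lb e = i := funext fun e => propext (hch i hi e)
  have e₂ : (fun e => ¬ p e ∈ ch i) = fun e => ¬ lb e = i :=
    funext fun e => propext (not_congr (hch i hi e))
  have hj' : j₀ ∉ S.erase i := fun h => hj (mem_of_mem_erase h)
  have hU : ∀ e, ¬ lb e = i ↔ lb e ∈ insert j₀ (S.erase i) := fun e => by
    rw [mem_insert, mem_erase, ← h₀, ← hS]
    refine ⟨fun h => (em _).symm.imp_right fun h' => ⟨h, h'⟩, fun h (h' : lb e = i) => ?_⟩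
    exact h.elim (fun h => h ((hS e).2 (h' ▸ hi))) fun h => h.1 h'
  let W : Bool → Vec E × Multiset (Vec E) → L → Multiset (Vec E) :=
    fun s x j => if j = j₀ then x.2 else F j s x.1
  have W1 : ∀ s x, ∀ j ∈ S.erase i, W s x j = F j s x.1 := fun s x j h =>
    if_neg fun h' : j = j₀ => hj' (h' ▸ h)
  have ok : ∀ {s M}, Ok τ s (fun e => ¬ lb e = i) M → ∀ j ∈ S.erase i,
      Ok τ s (fun e => lb e = j) M := fun h j hj =>
    h.mono fun e he h' => (mem_erase.1 hj).1 (he.symm.trans h')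
  have gr : ∀ {s} {x : Vec E × Multiset (Vec E)}, Ok τ s (fun e => ¬ lb e = i) x.1 →
      Gr τ s (fun e => ¬ p e ∈ R) x.1 x.2 → ∀ j ∈ insert j₀ (S.erase i),
      Gr τ s (fun e => lb e = j) x.1 (W s x j) := fun {s x} h h' j hj => by
    rcases mem_insert.1 hj with rfl | hj
    · rw [e₀] at h'
      simpa only [W, if_true] using h'
    · rw [W1 s x j hj]
      exact h1 j (mem_of_mem_erase hj) s _ (ok h j hj)
  have key2 : ∀ {s} {x : Vec E × Multiset (Vec E)}, Ok τ s (fun e => ¬ lb e = i) x.1 →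
      Gr τ s (fun e => ¬ p e ∈ R) x.1 x.2 →
      Valid (gcl τ (seam τ lb) s) (∑ j ∈ insert j₀ (S.erase i), W s x j) ∧
      gok τ (seam τ fun e => lb e = i) s (∑ j ∈ insert j₀ (S.erase i), W s x j).sum :=
    fun h h' => ⟨(gr_glue _ hU (gr h h')).1, by
      rw [(gr_glue _ hU (gr h h')).2.2, ← seam_not]; exact h.gok hτ⟩
  have key3 : ∀ {s} {x : Vec E × Multiset (Vec E)}, Ok τ s (fun e => ¬ lb e = i) x.1 →
      Gr τ s (fun e => ¬ p e ∈ R) x.1 x.2 → Gr τ s (fun e => ¬ p e ∈ ch i) x.1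
        (G s (∑ j ∈ insert j₀ (S.erase i), W s x j)) := fun {s x} h h' => by
    obtain ⟨a, b⟩ := h3 s _ (key2 h h').1 (key2 h h').2
    rw [e₂]
    exact ⟨by rwa [seam_not], fun c hc e he => b.2 e
      (fun c' hc' => (gr_glue _ hU (gr h h')).2.1 c' hc' e he) c hc,
      b.1.trans (gr_glue _ hU (gr h h')).2.2⟩
  have okr : ∀ {x : E₀ × Vec E × Multiset (Vec E)}, x.1 ∈ R → φ x.1 = i →
      Ok τ true (fun e => p e ≠ x.1) x.2.1 → Ok τ true (fun e => ¬ lb e = i) x.2.1 :=
    fun {x} a b c => c.mono fun e he h' => he ((hch i hi e).1 (h' ▸ b ▸ (hφ _ a).2))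
  have okc : ∀ {M}, Ok τ false (fun _ => True) M → Ok τ false (fun e => ¬ lb e = i) M :=
    fun c => c.mono fun _ _ => trivial
  refine NR.mono (NR.congr (NR.add (NR.add (NR.sum (S.erase i) fun j hj =>
    NR.comap (h2 j (mem_of_mem_erase hj)) (fun x => x.2.1) (fun y => y.1)
      (fun x h => ok (okr h.1.1 h.2 h.1.2.1) j hj) (fun y h => ok (okc h.1.1) j hj)
      fun _ _ _ _ => rfl) (NR.comap h4 (fun x => ∑ j ∈ insert j₀ (S.erase i), W true x.2 j)
      (fun y => ∑ j ∈ insert j₀ (S.erase i), W false y j)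
      (fun x h => key2 (okr h.1.1 h.2 h.1.2.1) h.1.2.2) (fun y h => key2 (okc h.1.1) h.1.2)
      fun _ _ _ _ => rfl)) (NR.comap (hT i hi)
        (fun x => (x.1, x.2.1, G true (∑ j ∈ insert j₀ (S.erase i), W true x.2 j)))
        (fun y => (y.1, G false (∑ j ∈ insert j₀ (S.erase i), W false y j)))
        (fun x h => ⟨h.2 ▸ (hφ _ h.1.1).2, h.1.2.1, key3 (okr h.1.1 h.2 h.1.2.1) h.1.2.2⟩)
        (fun y h => ⟨h.1.1, key3 (okc h.1.1) h.1.2⟩) fun _ _ _ _ => rfl))
      fun x y hx hy => ?_) ?_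
  · rw [psi_sum _ (fun j hj => (gr (okr hx.1.1 hx.2 hx.1.2.1) hx.1.2.2 j hj).2.1)
      (fun j hj => (gr (okc hy.1.1) hy.1.2 j hj).2.1), cnt_sum S hS, sum_insert hj',
      sum_congr rfl fun j hj => congrArg₂ Psi (W1 true x.2 j hj) (W1 false y j hj),
      ← add_sum_erase S _ hi, sum_sub_distrib, e₁]
    simp only [W, if_true]
    ring
  · have := sum_le_sum_of_subset_of_nonneg (f := N) (erase_subset i S)
      fun j hj _ => (h2 j hj).nonneg
    linarith

/-- The grouping by single edges. -/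
noncomputable def sing (M : Vec E) : Multiset (Vec E) := univ.val.map fun e => Pi.single e (M e)

theorem sing_sum (M : Vec E) : (sing M).sum = M := univ_sum_single M

theorem supp_sing (U : E → Prop) (M : Vec E) : Supp U (sing (res U M)) := fun c hc e he => by
  obtain ⟨e', -, rfl⟩ := Multiset.mem_map.1 hc
  by_cases h : e = e'
  · rw [h, Pi.single_eq_same, res_neg (h ▸ he)]
  · exact Pi.single_eq_of_ne h _

theorem psi_sing (M D : Vec E) : Psi (sing M) (sing D) = cnt M D := by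
  unfold Psi sing cnt
  simp only [Multiset.map_map, Function.comp_def]
  refine sum_congr rfl fun e _ => ?_
  refine (sum_eq_single_of_mem e (mem_univ e) fun e' _ h => ?_).trans ?_
  · rw [single_dotProduct, Pi.single_eq_of_ne h.symm]
    simp [val]
  · rw [single_dotProduct, Pi.single_eq_same]

theorem sing_ends {cl : Dart E → Finset (Dart E)} (hcl : IsCl cl) (M : Vec E) :
    ∀ c ∈ sing M, ∃ a b, ∀ d, c ⬝ᵥ st (cl d) = iz (cl d = cl a) + iz (cl d = cl b) := by
  intro c hc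
  obtain ⟨e, -, rfl⟩ := Multiset.mem_map.1 hc
  have h : ∀ a d, a ∈ cl d ↔ cl d = cl a := fun a d =>
    ⟨fun h => (hcl.2 _ _ h).symm, fun h => h ▸ hcl.1 a⟩
  rcases z2_cases (M e) with h1 | h1
  · exact ⟨(e, false), (e, false), fun d => by rw [h1, single_dotProduct, zero_mul, z2_add_self]⟩
  · exact ⟨(e, false), (e, true), fun d => by
      rw [h1, single_dotProduct, one_mul, st_eq, iz_congr (h _ _), iz_congr (h _ _)]⟩

theorem fact_base (h4 : MergeStmt) (U : E → Prop) [DecidablePred U]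
    (hU : (univ.filter U).card ≤ 6) : Fact τ U 64 := by
  choose F h1 h2 h3 using fun s M => h4 E (gcl τ (seam τ U) s) (sing M) (sing_ends (isCl_gcl _ _ _) M)
  refine ⟨fun s M => F s (res U M), fun s M _ => ⟨h1 _ _, fun c hc e he => (h2 _ _).2 e
    (fun c' hc' => supp_sing U M c' hc' e he) c hc, (h2 _ _).1.trans (sing_sum _)⟩, ?_⟩
  refine (NR.of_row_label (univ.filter U).powerset (fun M => (univ.filter U).filter (M · = 1))
    (fun M _ => mem_powerset.2 (filter_subset _ _)) (fun M D _ _ => ?_)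
    fun M M' D _ _ _ h => ?_).mono ?_
  · have le : ∀ s M Q, Psi (F s M) Q ≤ Psi (sing M) Q := fun s M Q => by
      rw [psi_comm, psi_comm (sing M)]
      refine Multiset.sum_map_le_sum_map _ _ fun g _ => ?_
      simpa only [dotProduct_comm g] using h3 s M g
    rw [← psi_sing, sub_nonneg]
    refine (le _ _ _).trans ?_
    rw [psi_comm, psi_comm (sing _)]
    exact le _ _ _
  · have : res U M = res U M' := funext fun e => by
      by_cases he : U e
      · have h5 := Finset.ext_iff.1 h e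
        simp only [mem_filter, mem_univ, he, true_and] at h5
        rw [res_pos he, res_pos he]
        revert h5
        generalize M e = a
        generalize M' e = b
        revert a b
        decide
      · rw [res_neg he, res_neg he]
    simp only [this]
  · rw [card_powerset]
    exact_mod_cast (Nat.pow_le_pow_right two_pos hU).trans (by norm_num)

theorem valid_even {cl : Dart E → Finset (Dart E)} {P : Multiset (Vec E)} (h : Valid cl P)
    {d : Dart E} (h0 : P.sum ⬝ᵥ st (cl d) = 0) : ∀ c ∈ P, c ⬝ᵥ st (cl d) = 0 := by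
  intro c hc
  refine (z2_cases _).resolve_right fun h1 => ?_
  obtain ⟨P', rfl⟩ := Multiset.exists_cons_of_mem hc
  have h2 := h.2 d
  rw [Multiset.countP_cons_of_pos (p := fun c => c ⬝ᵥ st (cl d) = 1) _ h1] at h2
  have h3 := Multiset.countP_eq_zero.1 (Nat.le_zero.1 (Nat.le_of_succ_le_succ h2))
  have h4 : P'.sum ⬝ᵥ st (cl d) = 0 :=
    Multiset.sum_induction (fun c => c ⬝ᵥ st (cl d) = 0) P'
      (fun a b ha hb => by rw [add_dotProduct, ha, hb, add_zero]) (zero_dotProduct _)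
      fun c hc => (z2_cases _).resolve_right (h3 c hc)
  rw [Multiset.sum_cons, add_dotProduct, h1, h4] at h0
  exact absurd h0 (by decide)

theorem top_base {γ : ℕ} {K : ℝ} (hK : ∀ O : Finset (Dart E), Rk (gcl τ ∅) γ → O.card ≤ 12 →
      NR (fun P : Multiset (Vec E) => ∀ c ∈ P, ∀ d, (∀ o ∈ O, gcl τ ∅ true d ≠ gcl τ ∅ true o) →
          c ⬝ᵥ st (gcl τ ∅ true d) = 0)
        (fun Q : Multiset (Vec E) => ∀ g ∈ Q, ∀ d, (∀ o ∈ O, gcl τ ∅ false d ≠ gcl τ ∅ false o) →
          g ⬝ᵥ st (gcl τ ∅ false d) = 0)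
        (fun P Q => Psi P Q - val (P.sum ⬝ᵥ Q.sum)) K) (hR : Rk (gcl τ ∅) γ)
    {E₀ : Type} [DecidableEq E₀] {p : E → E₀} {R : Finset E₀}
    (hU : (univ.filter fun e => p e ∈ R).card ≤ 6) : Top τ p R K := by
  have key : ∀ {s M P}, Ok τ s (fun e => ¬ p e ∈ R) M → Gr τ s (fun e => ¬ p e ∈ R) M P →
      ∀ c ∈ P + sing (res (fun e => p e ∈ R) M), ∀ d,
      (∀ o ∈ (univ.filter fun e => p e ∈ R) ×ˢ univ, gcl τ ∅ s d ≠ gcl τ ∅ s o) →
      c ⬝ᵥ st (gcl τ ∅ s d) = 0 := fun {s M P} h1 h2 c hc d hd => by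
    have h3 : ∀ d' ∈ gcl τ ∅ s d, ¬ p d'.1 ∈ R := fun d' hd' h =>
      hd d' (by simpa using h) ((isCl_gcl _ _ _).2 _ _ hd').symm
    rcases Multiset.mem_add.1 hc with hc | hc
    · have h4 := gcl_seam_eq (U := fun e => ¬ p e ∈ R) fun d' hd' =>
        iff_of_true (h3 d' hd') (h3 d (self_mem_gcl d))
      rw [← h4]
      refine valid_even h2.1 ?_ c hc
      rw [h4, h2.2.2, dot_st_congr fun d' hd' => res_pos (U := fun e => ¬ p e ∈ R) (h3 d' hd') M]
      exact h1 d h3
    · exact dot_st_zero fun d' hd' => supp_sing _ M c hc _ (h3 d' hd')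
  have sm : ∀ {s M P}, Gr τ s (fun e => ¬ p e ∈ R) M P →
      (P + sing (res (fun e => p e ∈ R) M)).sum = M := fun {s M P} h => by
    rw [Multiset.sum_add, h.2.2, sing_sum]
    funext e
    by_cases he : p e ∈ R <;> simp [res, he]
  refine (hK ((univ.filter fun e => p e ∈ R) ×ˢ univ) hR (by
    rw [card_product, card_univ, Fintype.card_bool]; omega)).comap
    (fun x => x.2.2 + sing (res (fun e => p e ∈ R) x.2.1))
    (fun y => y.2 + sing (res (fun e => p e ∈ R) y.1))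
    (fun x h => key (h.2.1.mono fun e he h' => he (h' ▸ h.1)) h.2.2)
    (fun y h => key (h.1.mono fun _ _ => trivial) h.2) fun x y hx hy => ?_
  rw [sm hx.2.2, sm hy.2, psi_add_left, psi_add_right, psi_add_right, psi_sing,
    psi_disj hx.2.2.2.1 (supp_sing _ _) fun _ h => h,
    psi_disj (supp_sing _ _) hy.2.2.1 fun _ h => not_not.2 h]
  ring

end Pool.Agent.Lib.MP_234305_co.Gad
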