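import Pool.Agent.Lib.MP_234305_co.H77Stmts

/-!
The spanning tree polytope and the extended formulation given by a factorisation of its slack
matrix.
-/

namespace Pool.Agent.Lib.MP_234305_co

open Finset

namespace Ef

section Greedy
variable {V : Type} [Fintype V] [DecidableEq V]

/-- The pairs inside `S`. -/
def ins (S : Finset V) : Finset (Sym2 V) := univ.filter fun e : Sym2 V => ∀ v ∈ e, v ∈ S

/-- The weight of the pairs inside `S`. -/
noncomputable def xE (x : Sym2 V → ℝ) (S : Finset V) : ℝ := ∑ e ∈ ins S, x e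

/-- The weight of the pairs with equal labels. -/
noncomputable def xin (x : Sym2 V → ℝ) (l : V → V) : ℝ :=
  ∑ e ∈ univ.filter (fun e : Sym2 V => (e.map l).IsDiag), x e

theorem xin_le (x : Sym2 V → ℝ) (hS : ∀ S : Finset V, S.Nonempty → xE x S ≤ (S.card : ℝ) - 1)
    (l : V → V) : xin x l ≤ (Fintype.card V : ℝ) - (univ.image l).card := by
  have h1 : xin x l = ∑ a ∈ univ.image l, xE x (univ.filter fun v => l v = a) := by
    unfold xin xE ins
    simp only [sum_filter]
    rw [sum_comm]
    refine sum_congr rfl fun e _ => ?_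
    induction e using Sym2.ind with
    | _ u v =>
      by_cases h : l u = l v
      · rw [if_pos (by simp [h]), sum_eq_single (l v)]
        · rw [if_pos (by simp [h])]
        · intro b _ hb
          rw [if_neg]
          intro hh
          exact hb (by simpa using (hh v (by simp)) : l v = b).symm
        · intro hh
          exact absurd (mem_image_of_mem l (mem_univ v)) hh
      · rw [if_neg (by simpa using h)]
        refine (sum_eq_zero fun b _ => ?_).symm
        rw [if_neg]
        intro hh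
        have h1 : l u = b := by simpa using hh u (by simp)
        have h2 : l v = b := by simpa using hh v (by simp)
        exact h (h1.trans h2.symm)
  have h2 : (Fintype.card V : ℝ) =
      ∑ a ∈ univ.image l, ((univ.filter fun v => l v = a).card : ℝ) := by
    rw [← Nat.cast_sum, ← card_eq_sum_card_image l univ, card_univ]
  rw [h1, h2, card_eq_sum_ones (univ.image l), Nat.cast_sum, ← sum_sub_distrib]
  refine sum_le_sum fun a ha => ?_
  obtain ⟨v, -, rfl⟩ := mem_image.1 ha
  simpa using hS (univ.filter fun w => l w = l v) ⟨v, by simp⟩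

theorem greedy (G : SimpleGraph V) (hG : G.Connected) (x c : Sym2 V → ℝ)
    (h0 : ∀ e, e ∉ G.edgeSet → x e = 0) (hx : ∀ e, 0 ≤ x e)
    (hsum : ∑ e, x e = (Fintype.card V : ℝ) - 1)
    (hS : ∀ S : Finset V, S.Nonempty → xE x S ≤ (S.card : ℝ) - 1) (m : ℕ) :
    ∀ (l : V → V) (F : Finset (Sym2 V)) (t : ℝ), (univ.image l).card = m + 1 →
      (∀ e ∈ F, e ∈ G.edgeSet) → (∀ e ∈ F, (e.map l).IsDiag) →
      F.card + (m + 1) = Fintype.card V →
      (∀ u v, l u = l v → (SimpleGraph.fromEdgeSet (F : Set (Sym2 V))).Reachable u v) →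
      (∀ e ∈ G.edgeSet, ¬ (e.map l).IsDiag → c e ≤ t) →
      ∃ T : Finset (Sym2 V), (∀ e ∈ T, e ∈ G.edgeSet) ∧ T.card + 1 = Fintype.card V ∧
        (∀ u v, (SimpleGraph.fromEdgeSet (T : Set (Sym2 V))).Reachable u v) ∧
        ∑ e ∈ univ.filter (fun e : Sym2 V => ¬ (e.map l).IsDiag), c e * x e -
          t * (F.card - xin x l) ≤ ∑ e ∈ T, c e - ∑ e ∈ F, c e := by
  induction m with
  | zero =>
    intro l F t hl hF _ hc hr _
    have hall : ∀ u v, l u = l v := fun u v =>
      card_le_one.1 hl.le _ (mem_image_of_mem l (mem_univ u)) _ (mem_image_of_mem l (mem_univ v))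
    have hd : ∀ e : Sym2 V, (e.map l).IsDiag := fun e => by
      induction e using Sym2.ind with
      | _ u v => simpa using hall u v
    refine ⟨F, hF, hc, fun u v => hr u v (hall u v), ?_⟩
    have h1 : xin x l = F.card := by
      unfold xin
      rw [filter_true_of_mem fun e _ => hd e, hsum, ← hc]
      push_cast
      ring
    rw [filter_false_of_mem fun e _ => not_not.2 (hd e), h1]
    simp
  | succ m ih =>
    intro l F t hl hF hFd hc hr ht
    classical
    have hne : (univ.filter fun e : Sym2 V => e ∈ G.edgeSet ∧ ¬ (e.map l).IsDiag).Nonempty := by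
      by_contra hcon
      rw [not_nonempty_iff_eq_empty, filter_eq_empty_iff] at hcon
      have hadj : ∀ u v, G.Adj u v → l u = l v := fun u v huv => by
        by_contra hh
        exact hcon (mem_univ s(u, v)) ⟨huv, by simpa using hh⟩
      have hall : ∀ u v, l u = l v := fun u v => by
        obtain ⟨p⟩ := hG.preconnected u v
        induction p with
        | nil => rfl
        | cons h _ ih => exact (hadj _ _ h).trans ih
      have : (univ.image l).card ≤ 1 := card_le_one.2 fun a ha b hb => by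
        obtain ⟨u, -, rfl⟩ := mem_image.1 ha
        obtain ⟨v, -, rfl⟩ := mem_image.1 hb
        exact hall u v
      omega
    obtain ⟨e0, he0, hmax⟩ := exists_max_image _ c hne
    obtain ⟨-, he0G, he0d⟩ := mem_filter.1 he0
    induction e0 using Sym2.ind with
    | _ a b =>
    have hab : l a ≠ l b := by simpa using he0d
    set l' : V → V := fun v => if l v = l b then l a else l v with hl'
    have hmono : ∀ e : Sym2 V, (e.map l).IsDiag → (e.map l').IsDiag := fun e => by
      induction e using Sym2.ind with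
      | _ u v =>
        intro h
        have h' : l u = l v := by simpa using h
        simp [hl', h']
    have himg : univ.image l' = (univ.image l).erase (l b) := by
      ext y
      simp only [mem_image, mem_univ, true_and, mem_erase, hl']
      constructor
      · rintro ⟨v, rfl⟩
        by_cases h : l v = l b
        · rw [if_pos h]; exact ⟨hab, a, rfl⟩
        · rw [if_neg h]; exact ⟨h, v, rfl⟩
      · rintro ⟨hy, v, rfl⟩
        exact ⟨v, if_neg hy⟩
    have hnot : s(a, b) ∉ F := fun h => he0d (hFd _ h)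
    have hle : SimpleGraph.fromEdgeSet (F : Set (Sym2 V)) ≤
        SimpleGraph.fromEdgeSet ((insert s(a, b) F : Finset (Sym2 V)) : Set (Sym2 V)) :=
      SimpleGraph.fromEdgeSet_mono (by simp)
    have hadj : (SimpleGraph.fromEdgeSet
        ((insert s(a, b) F : Finset (Sym2 V)) : Set (Sym2 V))).Adj a b := by
      rw [SimpleGraph.fromEdgeSet_adj]
      exact ⟨by simp, fun h => hab (by rw [h])⟩
    obtain ⟨T, hT1, hT2, hT3, hT4⟩ := ih l' (insert s(a, b) F) (c s(a, b))
      (by rw [himg, card_erase_of_mem (mem_image_of_mem l (mem_univ b)), hl]; rfl)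
      (fun e he => by
        rcases mem_insert.1 he with rfl | he
        exacts [he0G, hF e he])
      (fun e he => by
        rcases mem_insert.1 he with rfl | he
        · simp [hl', hab]
        · exact hmono e (hFd e he))
      (by rw [card_insert_of_notMem hnot]; omega)
      (fun u v huv => by
        simp only [hl'] at huv
        by_cases hu : l u = l b <;> by_cases hv : l v = l b
        · exact (hr u v (hu.trans hv.symm)).mono hle
        · rw [if_pos hu, if_neg hv] at huv
          exact (((hr u b hu).mono hle).trans hadj.symm.reachable).trans ((hr a v huv).mono hle)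
        · rw [if_neg hu, if_pos hv] at huv
          exact (((hr u a huv).mono hle).trans hadj.reachable).trans ((hr b v hv.symm).mono hle)
        · rw [if_neg hu, if_neg hv] at huv
          exact (hr u v huv).mono hle)
      (fun e he hd => hmax e (mem_filter.2 ⟨mem_univ _, he, fun h => hd (hmono e h)⟩))
    refine ⟨T, hT1, hT2, hT3, ?_⟩
    rw [sum_insert hnot, card_insert_of_notMem hnot] at hT4
    have hδ : 0 ≤ (F.card : ℝ) - xin x l := by
      have := xin_le x hS l
      rw [hl, ← hc] at this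
      push_cast at this
      linarith
    have htt : c s(a, b) ≤ t := ht _ he0G he0d
    have hkey : ∑ e ∈ univ.filter (fun e : Sym2 V => ¬ (e.map l).IsDiag), c e * x e ≤
        ∑ e ∈ univ.filter (fun e : Sym2 V => ¬ (e.map l').IsDiag), c e * x e +
          c s(a, b) * (xin x l' - xin x l) := by
      unfold xin
      simp only [sum_filter]
      rw [← sum_sub_distrib, mul_sum, ← sum_add_distrib]
      refine sum_le_sum fun e _ => ?_
      by_cases h1 : (e.map l).IsDiag
      · simp [h1, hmono e h1]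
      · by_cases h2 : (e.map l').IsDiag
        · simp only [h1, h2, not_false_eq_true, not_true_eq_false, if_true, if_false, zero_add,
            sub_zero]
          by_cases he : e ∈ G.edgeSet
          · exact mul_le_mul_of_nonneg_right (hmax e (mem_filter.2 ⟨mem_univ _, he, h1⟩)) (hx e)
          · simp [h0 e he]
        · simp [h1, h2]
    push_cast at hT4
    nlinarith [mul_le_mul_of_nonneg_right htt hδ]

theorem exists_tree (G : SimpleGraph V) (hG : G.Connected) (x c : Sym2 V → ℝ)
    (h0 : ∀ e, e ∉ G.edgeSet → x e = 0) (hx : ∀ e, 0 ≤ x e)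
    (hsum : ∑ e, x e = (Fintype.card V : ℝ) - 1)
    (hS : ∀ S : Finset V, S.Nonempty → xE x S ≤ (S.card : ℝ) - 1) :
    ∃ T : SimpleGraph V, T ≤ G ∧ T.IsTree ∧
      ∑ e, c e * x e ≤ ∑ e, c e * T.edgeSet.indicator (fun _ => (1 : ℝ)) e := by
  classical
  have := hG.nonempty
  obtain ⟨m, hm⟩ : ∃ m, Fintype.card V = m + 1 :=
    ⟨Fintype.card V - 1, by have := Fintype.card_pos (α := V); omega⟩
  obtain ⟨T, hT1, hT2, hT3, hT4⟩ := greedy G hG x c h0 hx hsum hS m id ∅ (∑ e, |c e|)
    (by simpa using hm) (by simp) (by simp) (by simpa using hm.symm)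
    (fun u v h => by
      have : u = v := h
      rw [this])
    (fun e _ _ => (le_abs_self _).trans
      (single_le_sum (f := fun e => |c e|) (fun _ _ => abs_nonneg _) (mem_univ e)))
  have hE : (SimpleGraph.fromEdgeSet (T : Set (Sym2 V))).edgeSet = T := by
    rw [SimpleGraph.edgeSet_fromEdgeSet]
    ext e
    simp only [Set.mem_sdiff, mem_coe, Sym2.mem_diagSet, and_iff_left_iff_imp]
    exact fun he => G.not_isDiag_of_mem_edgeSet (hT1 e he)
  have hd : ∀ e : Sym2 V, (e.map id).IsDiag → x e = 0 := fun e he =>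
    h0 e fun h => G.not_isDiag_of_mem_edgeSet h (by simpa using he)
  refine ⟨SimpleGraph.fromEdgeSet T, ?_, ?_, ?_⟩
  · rw [← SimpleGraph.edgeSet_subset_edgeSet, hE]
    exact fun e he => hT1 e he
  · rw [SimpleGraph.isTree_iff_connected_and_card, hE]
    exact ⟨⟨hT3⟩, by simpa using hT2⟩
  · have h1 : xin x id = 0 := sum_eq_zero fun e he => hd e (mem_filter.1 he).2
    have h2 : ∑ e ∈ univ.filter (fun e : Sym2 V => ¬ (e.map id).IsDiag), c e * x e =
        ∑ e, c e * x e := by
      refine sum_filter_of_ne fun e _ hne he => hne ?_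
      rw [hd e he, mul_zero]
    have h3 : ∑ e, c e * (T : Set (Sym2 V)).indicator (fun _ => (1 : ℝ)) e = ∑ e ∈ T, c e := by
      simp [Set.indicator_apply]
    rw [h1, h2] at hT4
    rw [hE, h3]
    simpa using hT4

theorem edmonds (G : SimpleGraph V) (hG : G.Connected) (x : Sym2 V → ℝ)
    (h0 : ∀ e, e ∉ G.edgeSet → x e = 0) (hx : ∀ e, 0 ≤ x e)
    (hsum : ∑ e, x e = (Fintype.card V : ℝ) - 1)
    (hS : ∀ S : Finset V, S.Nonempty → xE x S ≤ (S.card : ℝ) - 1) :
    x ∈ convexHull ℝ {x : Sym2 V → ℝ | ∃ T : SimpleGraph V,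
      T ≤ G ∧ T.IsTree ∧ x = T.edgeSet.indicator (fun _ => (1 : ℝ))} := by
  by_contra hcon
  have hfin : {x : Sym2 V → ℝ | ∃ T : SimpleGraph V,
      T ≤ G ∧ T.IsTree ∧ x = T.edgeSet.indicator (fun _ => (1 : ℝ))}.Finite :=
    (Set.finite_range fun T : SimpleGraph V => T.edgeSet.indicator (fun _ => (1 : ℝ))).subset
      (by rintro _ ⟨T, -, -, rfl⟩; exact ⟨T, rfl⟩)
  obtain ⟨f, u, h1, h2⟩ := geometric_hahn_banach_closed_point (convex_convexHull ℝ _)
    (hfin.isClosed_convexHull ℝ) hcon
  have hf : ∀ y : Sym2 V → ℝ, f y = ∑ e, f (Pi.single e 1) * y e := fun y => by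
    conv_lhs => rw [← univ_sum_single y, map_sum]
    refine sum_congr rfl fun e _ => ?_
    rw [mul_comm, ← smul_eq_mul, ← map_smul, ← Pi.single_smul, smul_eq_mul, mul_one]
  obtain ⟨T, hT1, hT2, hT3⟩ := exists_tree G hG x (fun e => f (Pi.single e 1)) h0 hx hsum hS
  have h3 := h1 _ (subset_convexHull ℝ _ ⟨T, hT1, hT2, rfl⟩)
  rw [hf] at h2 h3
  linarith

end Greedy

theorem param {W X J κ : Type} [AddCommGroup W] [Module ℝ W] [FiniteDimensional ℝ W]
    [AddCommGroup X] [Module ℝ X] [Fintype κ] (ψ : J → W →ₗ[ℝ] ℝ) (β : J → ℝ)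
    (φ : κ → W →ₗ[ℝ] ℝ) (ρ : W →ₗ[ℝ] X) (p : W) (hp : ∀ j, ψ j p = β j) :
    ∃ (d : ℕ) (A : Fin (Fintype.card κ) → Fin d → ℝ) (b : Fin (Fintype.card κ) → ℝ)
      (π : (Fin d → ℝ) →ᵃ[ℝ] X),
      π '' {y : Fin d → ℝ | ∀ i, ∑ j : Fin d, A i j * y j ≤ b i} =
        ρ '' {w | (∀ j, ψ j w = β j) ∧ ∀ i, 0 ≤ φ i w} := by
  let D : Submodule ℝ W := ⨅ j, LinearMap.ker (ψ j)
  let B := Module.finBasis ℝ D
  let L : (Fin (Module.finrank ℝ D) → ℝ) →ₗ[ℝ] W := D.subtype ∘ₗ B.equivFun.symm.toLinearMap
  let σ := (Fintype.equivFin κ).symm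
  have hL : ∀ (f : W →ₗ[ℝ] ℝ) y, f (L y) = ∑ j, f (B j) * y j := fun f y => by
    simp only [L, LinearMap.comp_apply, LinearEquiv.coe_coe, Module.Basis.equivFun_symm_apply,
      map_sum, map_smul, Submodule.subtype_apply, smul_eq_mul]
    exact sum_congr rfl fun j _ => mul_comm _ _
  have hA : ∀ y : Fin (Module.finrank ℝ D) → ℝ,
      (∀ i, ∑ j, (-φ (σ i) (B j)) * y j ≤ φ (σ i) p) ↔ ∀ i, 0 ≤ φ i (L y + p) := fun y => by
    rw [σ.forall_congr_right (q := fun i => ∑ j, (-φ i (B j)) * y j ≤ φ i p)]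
    refine forall_congr' fun i => ?_
    rw [map_add, hL]
    simp only [neg_mul, sum_neg_distrib]
    constructor <;> intro h <;> linarith
  refine ⟨_, fun i j => -φ (σ i) (B j), fun i => φ (σ i) p,
    (ρ ∘ₗ L).toAffineMap + AffineMap.const ℝ _ (ρ p), ?_⟩
  ext z
  simp only [Set.mem_image, Set.mem_ofPred_eq, hA]
  constructor
  · rintro ⟨y, hy, rfl⟩
    refine ⟨L y + p, ⟨fun j => ?_, hy⟩, by simp⟩
    have : L y ∈ D := (B.equivFun.symm y).2
    have h2 : ψ j (L y) = 0 := (Submodule.mem_iInf _).1 this j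
    rw [map_add, h2, hp, zero_add]
  · rintro ⟨w, ⟨hw1, hw2⟩, rfl⟩
    have hD : w - p ∈ D := (Submodule.mem_iInf _).2 fun j => by
      rw [LinearMap.mem_ker, map_sub, hw1, hp, sub_self]
    have hw : L (B.equivFun ⟨w - p, hD⟩) + p = w := by
      simp only [L, LinearMap.comp_apply, LinearEquiv.coe_coe, LinearEquiv.symm_apply_apply,
        Submodule.subtype_apply, sub_add_cancel]
    refine ⟨B.equivFun ⟨w - p, hD⟩, by rw [hw]; exact hw2, ?_⟩
    conv_rhs => rw [← hw]
    simp

end Ef

open Ef in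
theorem ef_of_nr : EfStmt := by
  classical
  rintro n G hG N ⟨ι, _, u, v, hN, hu, hv, hM⟩
  let W := (Sym2 (Fin n) → ℝ) × (ι → ℝ)
  let px : Sym2 (Fin n) → W →ₗ[ℝ] ℝ := fun e => LinearMap.proj e ∘ₗ LinearMap.fst ℝ _ _
  let pl : ι → W →ₗ[ℝ] ℝ := fun k => LinearMap.proj k ∘ₗ LinearMap.snd ℝ _ _
  let ψ : {e : Sym2 (Fin n) // e ∉ G.edgeSet} ⊕ Option {S : Finset (Fin n) // S.Nonempty} →
      W →ₗ[ℝ] ℝ := Sum.elim (fun e => px e.1) fun o => o.elim (∑ e, px e) fun S =>
        ∑ e ∈ ins S.1, px e + ∑ k, u k S.1 • pl k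
  let β : {e : Sym2 (Fin n) // e ∉ G.edgeSet} ⊕ Option {S : Finset (Fin n) // S.Nonempty} → ℝ :=
    Sum.elim (fun _ => 0) fun o => o.elim ((n : ℝ) - 1) fun S => (S.1.card : ℝ) - 1
  let φ : ι ⊕ G.edgeSet → W →ₗ[ℝ] ℝ := Sum.elim pl fun e => px e.1
  have hψ : ∀ w : W, (∀ j, ψ j w = β j) ↔ (∀ e, e ∉ G.edgeSet → w.1 e = 0) ∧
      ∑ e, w.1 e = (n : ℝ) - 1 ∧
      ∀ S : Finset (Fin n), S.Nonempty → xE w.1 S + ∑ k, u k S * w.2 k = (S.card : ℝ) - 1 := by
    intro w
    simp only [Sum.forall, Option.forall, Subtype.forall, ψ, β, Sum.elim_inl, Sum.elim_inr,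
      Option.elim_none, Option.elim_some, LinearMap.add_apply, LinearMap.sum_apply,
      LinearMap.smul_apply, smul_eq_mul, xE]
    rfl
  have hφ : ∀ w : W, (∀ i, 0 ≤ φ i w) ↔ (∀ k, 0 ≤ w.2 k) ∧ ∀ e ∈ G.edgeSet, 0 ≤ w.1 e := by
    intro w
    simp only [Sum.forall, Subtype.forall, φ, Sum.elim_inl, Sum.elim_inr]
    rfl
  have htree : ∀ T : SimpleGraph (Fin n), T ≤ G → T.IsTree →
      (∀ j, ψ j (T.edgeSet.indicator (fun _ => (1 : ℝ)), fun k => v k T) = β j) ∧
        ∀ i, 0 ≤ φ i (T.edgeSet.indicator (fun _ => (1 : ℝ)), fun k => v k T) := by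
    intro T hT1 hT2
    rw [hψ, hφ]
    refine ⟨⟨fun e he => ?_, ?_, fun S hS => ?_⟩, fun k => hv k T, fun e _ => ?_⟩
    · exact Set.indicator_of_notMem (s := T.edgeSet)
        (fun h => he (SimpleGraph.edgeSet_mono hT1 h)) (fun _ => (1 : ℝ))
    · have h1 := (SimpleGraph.isTree_iff_connected_and_card.1 hT2).2
      rw [Nat.card_fin, Nat.card_coe_set_eq] at h1
      have h2 : T.edgeSet.ncard = (univ.filter fun e => e ∈ T.edgeSet).card := by
        rw [← Set.ncard_coe_finset]
        congr 1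
        ext e
        simp
      have h3 : ((univ.filter fun e => e ∈ T.edgeSet).card : ℝ) + 1 = n := by
        rw [← h2]
        exact_mod_cast h1
      simp only [Set.indicator_apply, sum_boole]
      linarith
    · have h1 := hM S T hS ⟨hT1, hT2⟩
      have h2 : ({e ∈ T.edgeSet | ∀ a ∈ e, a ∈ S}.ncard : ℝ) =
          xE (T.edgeSet.indicator (fun _ => (1 : ℝ))) S := by
        unfold xE ins
        simp only [Set.indicator_apply, sum_boole, filter_filter]
        rw [← Set.ncard_coe_finset]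
        congr 2
        ext e
        simp [and_comm]
      simp only at h1 ⊢
      linarith
    · exact Set.indicator_nonneg (fun _ _ => zero_le_one) e
  obtain ⟨T0, hT0, hT0'⟩ := hG.exists_isTree_le
  obtain ⟨d, A, b, π, hπ⟩ := param ψ β φ (LinearMap.fst ℝ _ _) _ (htree T0 hT0 hT0').1
  refine ⟨d, _, A, b, π, ?_, ?_⟩
  · rw [hπ]
    apply Set.Subset.antisymm
    · rintro _ ⟨w, ⟨hw1, hw2⟩, rfl⟩
      obtain ⟨h1, h2, h3⟩ := (hψ w).1 hw1
      obtain ⟨h4, h5⟩ := (hφ w).1 hw2
      refine edmonds G hG w.1 h1 (fun e => ?_) (by simpa using h2) fun S hS => ?_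
      · by_cases he : e ∈ G.edgeSet
        · exact h5 e he
        · exact (h1 e he).ge
      · have := sum_nonneg fun k (_ : k ∈ univ) => mul_nonneg (hu k S) (h4 k)
        linarith [h3 S hS]
    · refine convexHull_min ?_ (Convex.linear_image ?_ _)
      · rintro _ ⟨T, hT1, hT2, rfl⟩
        exact ⟨_, htree T hT1 hT2, rfl⟩
      · rintro w1 ⟨h1, h2⟩ w2 ⟨h3, h4⟩ s t hs ht hst
        refine ⟨fun j => ?_, fun i => ?_⟩
        · rw [map_add, map_smul, map_smul, h1, h3, ← add_smul, hst, one_smul]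
        · rw [map_add, map_smul, map_smul]
          exact add_nonneg (smul_nonneg hs (h2 i)) (smul_nonneg ht (h4 i))
  · rw [Fintype.card_sum, ← Nat.card_eq_fintype_card (α := G.edgeSet), Nat.card_coe_set_eq]
    push_cast
    linarith

end Pool.Agent.Lib.MP_234305_co
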