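import Pool.Agent.Lib.MP_234305_co.H77Stmts

/-!
Small shared lemmas on graphs over the field with two elements, sectors and steps.
-/

namespace Pool.Agent.Lib.MP_234305_co

open Finset Matrix

theorem z2_add_self (a : Z2) : a + a = 0 := CharTwo.add_self_eq_zero a

theorem z2_cases (a : Z2) : a = 0 ∨ a = 1 := by revert a; decide

theorem z2_add_eq_zero {a b : Z2} : a + b = 0 ↔ a = b := by revert a b; decide

@[simp] theorem iz_true : iz True = 1 := by simp [iz]

@[simp] theorem iz_false : iz False = 0 := by simp [iz]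

theorem iz_pos {p : Prop} (h : p) : iz p = 1 := by simp [iz, h]

theorem iz_neg {p : Prop} (h : ¬p) : iz p = 0 := by simp [iz, h]

theorem iz_congr {p q : Prop} (h : p ↔ q) : iz p = iz q := by rw [propext h]

theorem iz_eq_ite (p : Prop) [Decidable p] : iz p = if p then 1 else 0 := by
  by_cases h : p <;> simp [iz, h]

/-- A sum over a set with an involution without fixed points vanishes. -/
theorem sum_invol {α : Type*} (S : Finset α) (g : α → α) (f : α → Z2) (h1 : ∀ a ∈ S, g a ∈ S)
    (h2 : ∀ a ∈ S, g (g a) = a) (h3 : ∀ a ∈ S, g a ≠ a) (h4 : ∀ a ∈ S, f (g a) = f a) :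
    ∑ a ∈ S, f a = 0 :=
  Finset.sum_involution (fun a _ => g a) (fun a ha => by rw [h4 a ha, z2_add_self])
    (fun a ha _ => h3 a ha) (fun a ha => h1 a ha) fun a ha => h2 a ha

section Graph
variable {K N : Type*} {n : K → Bool → N} {S S' : K → Prop}

theorem Link.refl (a : N) : Link n S a a := Relation.EqvGen.refl a

theorem Link.symm {a b : N} (h : Link n S a b) : Link n S b a := Relation.EqvGen.symm _ _ h

theorem Link.trans {a b c : N} (h : Link n S a b) (h' : Link n S b c) : Link n S a c :=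
  Relation.EqvGen.trans _ _ _ h h'

theorem Link.edge {k : K} (h : S k) : Link n S (n k false) (n k true) :=
  Relation.EqvGen.rel _ _ ⟨k, h, rfl, rfl⟩

theorem Link.edge' {k : K} (h : S k) (b b' : Bool) : Link n S (n k b) (n k b') := by
  cases b <;> cases b'
  exacts [Link.refl _, Link.edge h, (Link.edge h).symm, Link.refl _]

/-- A relation that is an equivalence and holds along edges holds for linked nodes. -/
theorem Link.induct {r : N → N → Prop} (hr : Equivalence r)
    (h : ∀ k, S k → r (n k false) (n k true)) {a b : N} (hab : Link n S a b) : r a b := by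
  induction hab with
  | rel a b h' => obtain ⟨k, hk, rfl, rfl⟩ := h'; exact h k hk
  | refl a => exact hr.refl a
  | symm a b _ ih => exact hr.symm ih
  | trans a b c _ _ ih ih' => exact hr.trans ih ih'

theorem Link.const {α : Type*} (f : N → α) (h : ∀ k, S k → f (n k false) = f (n k true))
    {a b : N} (hab : Link n S a b) : f a = f b :=
  Link.induct (r := fun a b => f a = f b) ⟨fun _ => rfl, Eq.symm, Eq.trans⟩ h hab

theorem Link.iff {p : N → Prop} (h : ∀ k, S k → (p (n k false) ↔ p (n k true)))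
    {a b : N} (hab : Link n S a b) : p a ↔ p b :=
  Link.induct (r := fun a b => p a ↔ p b) ⟨fun _ => Iff.rfl, Iff.symm, Iff.trans⟩ h hab

theorem Link.equiv : Equivalence (Link n S) := ⟨Link.refl, Link.symm, Link.trans⟩

theorem Link.mono (h : ∀ k, S k → S' k) {a b : N} (hab : Link n S a b) : Link n S' a b :=
  Link.induct Link.equiv (fun k hk => Link.edge (h k hk)) hab

/-- Transport of links along a map of nodes. -/
theorem Link.map {K' N' : Type*} {n' : K' → Bool → N'} {T : K' → Prop} (φ : N → N')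
    (h : ∀ k, S k → Link n' T (φ (n k false)) (φ (n k true))) {a b : N} (hab : Link n S a b) :
    Link n' T (φ a) (φ b) :=
  Link.induct (r := fun a b => Link n' T (φ a) (φ b))
    ⟨fun _ => Link.refl _, Link.symm, Link.trans⟩ h hab

variable [Fintype K]

theorem bd_add (n : K → Bool → N) (z z' : K → Z2) (p : N) :
    bd n (z + z') p = bd n z p + bd n z' p := by
  simp [bd, add_mul, sum_add_distrib]

theorem bd_smul (n : K → Bool → N) (c : Z2) (z : K → Z2) (p : N) :
    bd n (c • z) p = c * bd n z p := by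
  simp [bd, mul_sum, mul_assoc]

theorem bd_zero (n : K → Bool → N) (p : N) : bd n 0 p = 0 := by simp [bd]

/-- The boundary as a linear map. -/
noncomputable def bdL (n : K → Bool → N) : (K → Z2) →ₗ[Z2] (N → Z2) where
  toFun z := bd n z
  map_add' z z' := funext (bd_add n z z')
  map_smul' c z := funext (bd_smul n c z)

omit [Fintype K] in
/-- The coboundary as a linear map. -/
def cobL (n : K → Bool → N) : (N → Z2) →ₗ[Z2] (K → Z2) where
  toFun f := cob n f
  map_add' f g := funext fun k => by simp [cob]; ring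
  map_smul' c f := funext fun k => by simp [cob]; ring

theorem dot_cob [Fintype N] (n : K → Bool → N) (z : K → Z2) (f : N → Z2) :
    z ⬝ᵥ cob n f = bd n z ⬝ᵥ f := by
  classical
  simp only [dotProduct, bd, cob, sum_mul]
  rw [sum_comm]
  refine sum_congr rfl fun k _ => ?_
  simp only [iz_eq_ite, mul_add, add_mul, sum_add_distrib, mul_assoc, ← mul_sum, ite_mul, one_mul,
    zero_mul, sum_ite_eq, mem_univ, if_true]

end Graph

/-- A vector orthogonal to the orthogonal complement of a subspace lies in the subspace. -/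
theorem mem_of_perp {K : Type*} [Fintype K] (U : Submodule Z2 (K → Z2)) (x : K → Z2)
    (h : ∀ z, (∀ y ∈ U, z ⬝ᵥ y = 0) → z ⬝ᵥ x = 0) : x ∈ U := by
  classical
  by_contra hx
  obtain ⟨φ, h1, h2⟩ := Submodule.exists_le_ker_of_notMem hx
  have key : ∀ y, φ y = (fun k => φ (Pi.single k 1)) ⬝ᵥ y := fun y => by
    conv_lhs => rw [← univ_sum_single y]
    rw [map_sum, dotProduct]
    refine sum_congr rfl fun k _ => ?_
    rw [mul_comm, ← smul_eq_mul, ← map_smul, ← Pi.single_smul, smul_eq_mul, mul_one]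
  exact h1 (by rw [key]; exact h _ fun y hy => by rw [← key]; exact h2 hy)

section Graph2
variable {K N : Type*} [Fintype K] [Fintype N] (n : K → Bool → N) (S : K → Prop)

/-- A cochain orthogonal to all cycles inside `S` is a coboundary on `S`. -/
theorem exists_cob_of_perp (ω : K → Z2)
    (h : ∀ z, (∀ k, ¬S k → z k = 0) → (∀ p, bd n z p = 0) → z ⬝ᵥ ω = 0) :
    ∃ f, ∀ k, S k → ω k = cob n f k := by
  classical
  let U : Submodule Z2 (K → Z2) :=
    { carrier := {y | ∃ f, ∀ k, S k → y k = cob n f k}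
      add_mem' := by
        rintro a b ⟨f, hf⟩ ⟨g, hg⟩
        exact ⟨f + g, fun k hk => by simp [hf k hk, hg k hk, cob]; ring⟩
      zero_mem' := ⟨0, fun k _ => by simp [cob]⟩
      smul_mem' := by
        rintro c a ⟨f, hf⟩
        exact ⟨c • f, fun k hk => by simp [hf k hk, cob]; ring⟩ }
  refine mem_of_perp U ω fun z hz => h z (fun k hk => ?_) fun p => ?_
  · have := hz (Pi.single k 1) ⟨0, fun k' hk' => by
      rw [Pi.single_eq_of_ne (by rintro rfl; exact hk hk')]; simp [cob]⟩
    simpa using this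
  · have := hz (cob n (Pi.single p 1)) ⟨_, fun _ _ => rfl⟩
    rwa [dot_cob, dotProduct_single, mul_one] at this

/-- Existence of joins: a function that is even on every component is a boundary. -/
theorem exists_bd_eq (t : N → Z2)
    (h : ∀ f : N → Z2, (∀ k, S k → f (n k false) = f (n k true)) → t ⬝ᵥ f = 0) :
    ∃ z, (∀ k, ¬S k → z k = 0) ∧ ∀ p, bd n z p = t p := by
  classical
  let U : Submodule Z2 (N → Z2) :=
    { carrier := {y | ∃ z, (∀ k, ¬S k → z k = 0) ∧ ∀ p, bd n z p = y p}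
      add_mem' := by
        rintro a b ⟨f, hf, hf'⟩ ⟨g, hg, hg'⟩
        exact ⟨f + g, fun k hk => by simp [hf k hk, hg k hk], fun p => by
          simp [bd_add, hf', hg']⟩
      zero_mem' := ⟨0, fun k _ => rfl, bd_zero n⟩
      smul_mem' := by
        rintro c a ⟨f, hf, hf'⟩
        exact ⟨c • f, fun k hk => by simp [hf k hk], fun p => by simp [bd_smul, hf']⟩ }
  refine mem_of_perp U t fun f hf => ?_
  rw [dotProduct_comm]
  refine h f fun k hk => ?_
  have := hf (bd n (Pi.single k 1)) ⟨Pi.single k 1, fun k' hk' => Pi.single_eq_of_ne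
    (by rintro rfl; exact hk' hk) _, fun _ => rfl⟩
  rw [dotProduct_comm, ← dot_cob, single_dotProduct, one_mul] at this
  exact z2_add_eq_zero.1 this

end Graph2

variable {E : Type} [Fintype E] [DecidableEq E]

section Sectors
variable {τ : Flag E → Flag E} {B B' : Finset (Flag E)} {s : Bool}

theorem mem_gcl {d d' : Dart E} : d' ∈ gcl τ B s d ↔ Sec τ B s d d' := by simp [gcl]

theorem gcl_eq_iff {d d' : Dart E} : gcl τ B s d = gcl τ B s d' ↔ Sec τ B s d d' := by
  refine ⟨fun h => mem_gcl.1 (h ▸ mem_gcl.2 (Link.refl _)), fun h => ?_⟩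
  ext x
  simp only [mem_gcl]
  exact ⟨fun h' => h.symm.trans h', fun h' => h.trans h'⟩

theorem self_mem_gcl (d : Dart E) : d ∈ gcl τ B s d := mem_gcl.2 (Link.refl _)

theorem isCl_gcl (τ : Flag E → Flag E) (B : Finset (Flag E)) (s : Bool) : IsCl (gcl τ B s) :=
  ⟨self_mem_gcl, fun _ _ h => (gcl_eq_iff.2 (mem_gcl.1 h)).symm⟩

omit [Fintype E] [DecidableEq E] in
theorem Sec.step {x : Flag E} (hx : x ∉ B) : Sec τ B s (pr s x) (pr s (τ x)) :=
  Link.edge (n := fun x b => pr s (if b then τ x else x)) (S := fun x => x ∉ B) hx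

omit [Fintype E] [DecidableEq E] in
theorem Sec.mono (h : B' ⊆ B) {d d' : Dart E} (hd : Sec τ B s d d') : Sec τ B' s d d' :=
  Link.mono (fun _ hk hk' => hk (h hk')) hd

omit [Fintype E] [DecidableEq E] in
theorem Sec.const {α : Type*} (f : Dart E → α) (h : ∀ x ∉ B, f (pr s x) = f (pr s (τ x)))
    {d d' : Dart E} (hd : Sec τ B s d d') : f d = f d' :=
  Link.const f (fun x hx => h x hx) hd

omit [Fintype E] [DecidableEq E] in
theorem Sec.iff {p : Dart E → Prop} (h : ∀ x ∉ B, (p (pr s x) ↔ p (pr s (τ x))))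
    {d d' : Dart E} (hd : Sec τ B s d d') : p d ↔ p d' :=
  Link.iff (fun x hx => h x hx) hd

theorem gcl_step {x : Flag E} (hx : x ∉ B) : gcl τ B s (pr s (τ x)) = gcl τ B s (pr s x) :=
  (gcl_eq_iff.2 (Sec.step hx)).symm

theorem mem_gcl_step {x : Flag E} (hx : x ∉ B) (d : Dart E) :
    pr s x ∈ gcl τ B s d ↔ pr s (τ x) ∈ gcl τ B s d := by
  simp only [mem_gcl]
  exact ⟨fun h => h.trans (Sec.step hx), fun h => h.trans (Sec.step hx).symm⟩

theorem gcl_mono (h : B' ⊆ B) (d : Dart E) : gcl τ B s d ⊆ gcl τ B' s d :=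
  fun _ hd => mem_gcl.2 ((mem_gcl.1 hd).mono h)

omit [Fintype E] in
theorem st_eq (A : Finset (Dart E)) (e : E) :
    st A e = iz ((e, false) ∈ A) + iz ((e, true) ∈ A) := by
  simp only [st, iz_eq_ite, Fintype.sum_bool, add_comm]

theorem dot_st (c : Vec E) (A : Finset (Dart E)) : c ⬝ᵥ st A = ∑ d ∈ A, c d.1 := by
  simp only [dotProduct, st, mul_sum, mul_ite, mul_one, mul_zero]
  rw [← Fintype.sum_prod_type (f := fun d : E × Bool => if d ∈ A then c d.1 else 0),
    ← sum_filter, filter_mem_eq_inter, univ_inter]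

omit [Fintype E] in
theorem st_union {A A' : Finset (Dart E)} (h : Disjoint A A') : st (A ∪ A') = st A + st A' := by
  funext e
  simp only [st, Pi.add_apply, ← sum_add_distrib, mem_union]
  refine sum_congr rfl fun i _ => ?_
  by_cases h1 : (e, i) ∈ A <;> by_cases h2 : (e, i) ∈ A' <;> simp [h1, h2]
  exact (disjoint_left.1 h h1 h2).elim

/-- The product of a star of vertex type with a star of face type counts unglued flags. -/
theorem st_dot_st (hτ : IsMap τ) (hB : ∀ x ∈ B, τ x ∈ B) {A A' : Finset (Dart E)}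
    (hA : ∀ x ∉ B, (pr true x ∈ A ↔ pr true (τ x) ∈ A))
    (hA' : ∀ x ∉ B, (pr false x ∈ A' ↔ pr false (τ x) ∈ A')) :
    st A ⬝ᵥ st A' = ((B.filter fun x => pr true x ∈ A ∧ pr false x ∈ A').card : Z2) := by
  have h1 : st A ⬝ᵥ st A' =
      ∑ x : Flag E, if pr true x ∈ A ∧ pr false x ∈ A' then (1 : Z2) else 0 := by
    simp only [dotProduct, st, Fintype.sum_prod_type, sum_mul_sum, pr, if_true]
    refine sum_congr rfl fun e _ => sum_congr rfl fun i _ => sum_congr rfl fun j _ => ?_
    by_cases h1 : (e, i) ∈ A <;> by_cases h2 : (e, j) ∈ A' <;> simp [h1, h2]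
  rw [h1, ← sum_add_sum_compl B, sum_invol Bᶜ τ, add_zero, card_filter]
  · push_cast; rfl
  · intro a ha
    rw [mem_compl] at ha ⊢
    exact fun h => ha (hτ.1 a ▸ hB _ h)
  · exact fun a _ => hτ.1 a
  · exact fun a _ => hτ.2 a
  · intro a ha
    rw [mem_compl] at ha
    simp only [← hA a ha, ← hA' a ha]

theorem st_dot_st_gcl (hτ : IsMap τ) (hB : ∀ x ∈ B, τ x ∈ B) (d d' : Dart E) :
    st (gcl τ B true d) ⬝ᵥ st (gcl τ B false d') =
      ((B.filter fun x => pr true x ∈ gcl τ B true d ∧ pr false x ∈ gcl τ B false d').card : Z2) :=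
  st_dot_st hτ hB (fun _ hx => mem_gcl_step hx d) fun _ hx => mem_gcl_step hx d'

theorem st_dot_st_empty (hτ : IsMap τ) (d d' : Dart E) :
    st (gcl τ ∅ true d) ⬝ᵥ st (gcl τ ∅ false d') = 0 := by
  simpa using st_dot_st_gcl (B := ∅) hτ (by simp) d d'

end Sectors

/-- A chain that is even at all classes inside a union of classes is even at the union. -/
theorem dot_st_of_union {cl : Dart E → Finset (Dart E)} (hcl : IsCl cl) {A : Finset (Dart E)}
    (hA : ∀ d ∈ A, cl d ⊆ A) {c : Vec E} (hc : ∀ d ∈ A, c ⬝ᵥ st (cl d) = 0) : c ⬝ᵥ st A = 0 := by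
  rw [dot_st, ← sum_fiberwise_of_maps_to (g := cl) (t := A.image cl)
    fun d hd => mem_image_of_mem _ hd]
  refine sum_eq_zero fun X hX => ?_
  obtain ⟨d, hd, rfl⟩ := mem_image.1 hX
  rw [← hc d hd, dot_st]
  refine sum_congr ?_ fun _ _ => rfl
  ext d'
  simp only [mem_filter]
  exact ⟨fun h => h.2 ▸ hcl.1 d', fun h => ⟨hA d hd h, hcl.2 _ _ h⟩⟩

theorem Rk.refine {cl cl' : Bool → Dart E → Finset (Dart E)} {γ : ℕ} (h : Rk cl γ)
    (h1 : ∀ s, IsCl (cl' s)) (h2 : ∀ s d, ∀ d' ∈ cl s d, cl' s d' ⊆ cl s d) : Rk cl' γ := by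
  obtain ⟨Y, hY⟩ := h
  exact ⟨Y, fun c g hc hg => hY c g
    (fun d => dot_st_of_union (h1 _) (h2 _ d) fun d' _ => hc d')
    fun d => dot_st_of_union (h1 _) (h2 _ d) fun d' _ => hg d'⟩

omit [Fintype E] [DecidableEq E] in
theorem Sub.refl (P : Multiset (Vec E)) : Sub P P := ⟨rfl, fun _ h => h⟩

omit [Fintype E] [DecidableEq E] in
theorem Sub.trans {P P' P'' : Multiset (Vec E)} (h : Sub P'' P') (h' : Sub P' P) : Sub P'' P :=
  ⟨h.1.trans h'.1, fun e he => h.2 e (h'.2 e he)⟩

section Steps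
variable {cl cl' cl'' : Bool → Dart E → Finset (Dart E)} {ok ok' : Bool → Vec E → Prop}
  {N N' : ℝ}

theorem Step.refl (cl : Bool → Dart E → Finset (Dart E)) (ok : Bool → Vec E → Prop) :
    Step cl cl ok 0 :=
  ⟨fun _ P => P, fun _ P h _ => ⟨h, Sub.refl P⟩, NR.zero (fun _ _ _ _ => sub_self _) le_rfl⟩

theorem Step.mono (h : Step cl cl' ok N) (hN : N ≤ N') : Step cl cl' ok N' := by
  obtain ⟨F, h1, h2⟩ := h
  exact ⟨F, h1, h2.mono hN⟩

theorem Step.mono_ok (h : Step cl cl' ok N) (hok : ∀ s M, ok' s M → ok s M) :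
    Step cl cl' ok' N := by
  obtain ⟨F, h1, h2⟩ := h
  exact ⟨F, fun s P hP h => h1 s P hP (hok _ _ h), h2.comap id id
    (fun _ h => ⟨h.1, hok _ _ h.2⟩) (fun _ h => ⟨h.1, hok _ _ h.2⟩) fun _ _ _ _ => rfl⟩

theorem Step.trans (h : Step cl cl' ok N) (h' : Step cl' cl'' ok N') :
    Step cl cl'' ok (N + N') := by
  obtain ⟨F, h1, h2⟩ := h
  obtain ⟨G, h3, h4⟩ := h'
  have key : ∀ s P, Valid (cl s) P → ok s P.sum → Valid (cl' s) (F s P) ∧ ok s (F s P).sum :=
    fun s P hP h => ⟨(h1 s P hP h).1, by rw [(h1 s P hP h).2.1]; exact h⟩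
  refine ⟨fun s P => G s (F s P), fun s P hP h => ?_, ?_⟩
  · obtain ⟨a, b⟩ := key s P hP h
    exact ⟨(h3 s _ a b).1, (h3 s _ a b).2.trans (h1 s P hP h).2⟩
  · refine (h2.add (h4.comap (M' := fun P Q => Psi (F true P) (F false Q) -
      Psi (G true (F true P)) (G false (F false Q))) (F true) (F false)
      (fun P hP => key _ P hP.1 hP.2) (fun P hP => key _ P hP.1 hP.2)
      fun _ _ _ _ => rfl)).congr fun P Q _ _ => by ring

end Steps

end Pool.Agent.Lib.MP_234305_co
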