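import Mathlib

/-!
Nonnegative factorisations, combinatorial maps, gluing states and groupings of chains.
-/

namespace Pool.Agent.Lib.MP_234305_co

open Finset Matrix

/-- The matrix `M`, restricted to rows in `P` and columns in `Q`, is a sum of at most `N`
nonnegative rank one matrices. -/
def NR {I J : Type*} (P : I → Prop) (Q : J → Prop) (M : I → J → ℝ) (N : ℝ) : Prop :=
  ∃ (ι : Type) (_ : Fintype ι) (u : ι → I → ℝ) (v : ι → J → ℝ), (Fintype.card ι : ℝ) ≤ N ∧
    (∀ k i, 0 ≤ u k i) ∧ (∀ k j, 0 ≤ v k j) ∧ ∀ i j, P i → Q j → M i j = ∑ k, u k i * v k j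

section NR
variable {I J I' J' : Type*} {P : I → Prop} {Q : J → Prop} {M M' : I → J → ℝ} {N N' : ℝ}

theorem NR.nonneg (h : NR P Q M N) : 0 ≤ N := by
  obtain ⟨ι, _, u, v, h, -⟩ := h
  exact (Nat.cast_nonneg _).trans h

theorem NR.entry_nonneg (h : NR P Q M N) {i : I} {j : J} (hi : P i) (hj : Q j) : 0 ≤ M i j := by
  obtain ⟨ι, _, u, v, -, h1, h2, h⟩ := h
  rw [h i j hi hj]
  exact sum_nonneg fun k _ => mul_nonneg (h1 k i) (h2 k j)

theorem NR.mono (h : NR P Q M N) (hN : N ≤ N') : NR P Q M N' := by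
  obtain ⟨ι, _, u, v, h, h'⟩ := h
  exact ⟨ι, _, u, v, h.trans hN, h'⟩

theorem NR.comap (h : NR P Q M N) {P' : I' → Prop} {Q' : J' → Prop} {M' : I' → J' → ℝ}
    (φ : I' → I) (ψ : J' → J) (hφ : ∀ i, P' i → P (φ i)) (hψ : ∀ j, Q' j → Q (ψ j))
    (hM : ∀ i j, P' i → Q' j → M' i j = M (φ i) (ψ j)) : NR P' Q' M' N := by
  obtain ⟨ι, _, u, v, h0, h1, h2, h⟩ := h
  exact ⟨ι, _, fun k i => u k (φ i), fun k j => v k (ψ j), h0, fun k i => h1 k _,
    fun k j => h2 k _, fun i j hi hj => by rw [hM i j hi hj, h _ _ (hφ i hi) (hψ j hj)]⟩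

theorem NR.congr (h : NR P Q M N) (hM : ∀ i j, P i → Q j → M' i j = M i j) : NR P Q M' N :=
  h.comap id id (fun _ h => h) (fun _ h => h) hM

theorem NR.swap (h : NR P Q M N) : NR Q P (fun j i => M i j) N := by
  obtain ⟨ι, _, u, v, h0, h1, h2, h⟩ := h
  exact ⟨ι, _, v, u, h0, h2, h1, fun j i hj hi => by
    dsimp only; rw [h i j hi hj]; exact sum_congr rfl fun k _ => mul_comm _ _⟩

theorem NR.zero (hM : ∀ i j, P i → Q j → M i j = 0) (hN : 0 ≤ N) : NR P Q M N :=
  ⟨Empty, inferInstance, fun k => k.elim, fun k => k.elim, by simpa using hN, fun k => k.elim,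
    fun k => k.elim, fun i j hi hj => by simp [hM i j hi hj]⟩

theorem NR.add (h : NR P Q M N) (h' : NR P Q M' N') :
    NR P Q (fun i j => M i j + M' i j) (N + N') := by
  obtain ⟨ι, _, u, v, h0, h1, h2, h⟩ := h
  obtain ⟨ι', _, u', v', h0', h1', h2', h'⟩ := h'
  refine ⟨ι ⊕ ι', inferInstance, Sum.elim u u', Sum.elim v v', ?_, ?_, ?_, fun i j hi hj => ?_⟩
  · rw [Fintype.card_sum]; push_cast; linarith
  · rintro (k | k) i
    exacts [h1 k i, h1' k i]
  · rintro (k | k) i
    exacts [h2 k i, h2' k i]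
  · simp [Fintype.sum_sum_type, h i j hi hj, h' i j hi hj]

theorem NR.sum {κ : Type*} (S : Finset κ) {F : κ → I → J → ℝ} {n : κ → ℝ}
    (h : ∀ k ∈ S, NR P Q (F k) (n k)) :
    NR P Q (fun i j => ∑ k ∈ S, F k i j) (∑ k ∈ S, n k) := by
  classical
  induction S using Finset.induction_on with
  | empty => exact NR.zero (by simp) (by simp)
  | insert a S ha ih =>
    simp only [sum_insert ha]
    exact (h a (mem_insert_self _ _)).add (ih fun k hk => h k (mem_insert_of_mem hk))

theorem NR.sum_le {κ : Type*} (S : Finset κ) {F : κ → I → J → ℝ}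
    (h : ∀ k ∈ S, NR P Q (F k) N) : NR P Q (fun i j => ∑ k ∈ S, F k i j) (S.card * N) := by
  simpa using NR.sum S h

/-- Scaling rows and columns. -/
theorem NR.scale (h : NR P Q M N) (a : I → ℝ) (b : J → ℝ) (ha : ∀ i, P i → 0 ≤ a i)
    (hb : ∀ j, Q j → 0 ≤ b j) : NR P Q (fun i j => a i * b j * M i j) N := by
  obtain ⟨ι, _, u, v, h0, h1, h2, h⟩ := h
  refine ⟨ι, _, fun k i => max (a i) 0 * u k i, fun k j => max (b j) 0 * v k j, h0,
    fun k i => mul_nonneg (le_max_right _ _) (h1 k i),
    fun k j => mul_nonneg (le_max_right _ _) (h2 k j), fun i j hi hj => ?_⟩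
  dsimp only
  rw [h i j hi hj, mul_sum, max_eq_left (ha i hi), max_eq_left (hb j hj)]
  exact sum_congr rfl fun k _ => by ring

theorem NR.smul (h : NR P Q M N) {c : ℝ} (hc : 0 ≤ c) : NR P Q (fun i j => c * M i j) N := by
  simpa using h.scale (fun _ => c) (fun _ => 1) (fun _ _ => hc) (fun _ _ => zero_le_one)

open Classical in
/-- Extending a factorisation of a block by zero. -/
theorem NR.extend {P' : I → Prop} {Q' : J → Prop}
    (h : NR (fun i => P i ∧ P' i) (fun j => Q j ∧ Q' j) M N) :
    NR P Q (fun i j => if P' i ∧ Q' j then M i j else 0) N := by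
  obtain ⟨ι, _, u, v, h0, h1, h2, h⟩ := h
  refine ⟨ι, _, fun k i => if P' i then u k i else 0, fun k j => if Q' j then v k j else 0, h0,
    fun k i => by dsimp only; split_ifs; exacts [h1 k i, le_rfl],
    fun k j => by dsimp only; split_ifs; exacts [h2 k j, le_rfl], fun i j hi hj => ?_⟩
  by_cases a : P' i <;> by_cases b : Q' j <;> simp [a, b, h i j, hi, hj]

/-- Splitting rows and columns into blocks according to labels. -/
theorem NR.blocks {A B : Type*} [Fintype A] [Fintype B] (φ : I → A) (ψ : J → B) {n : A → B → ℝ}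
    (h : ∀ a b, NR (fun i => P i ∧ φ i = a) (fun j => Q j ∧ ψ j = b) M (n a b)) :
    NR P Q M (∑ a, ∑ b, n a b) := by
  classical
  refine (NR.sum univ fun a _ => NR.sum univ fun b _ => (h a b).extend).congr fun i j _ _ => ?_
  rw [sum_eq_single (φ i), sum_eq_single (ψ j)] <;> simp +contextual [eq_comm]

theorem NR.blocks_le {A B : Type*} [Fintype A] [Fintype B] (φ : I → A) (ψ : J → B)
    (h : ∀ a b, NR (fun i => P i ∧ φ i = a) (fun j => Q j ∧ ψ j = b) M N) :
    NR P Q M (Fintype.card A * Fintype.card B * N) := by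
  simpa [mul_assoc] using NR.blocks φ ψ h

theorem NR.rank_one (a : I → ℝ) (b : J → ℝ) (ha : ∀ i, P i → 0 ≤ a i) (hb : ∀ j, Q j → 0 ≤ b j)
    (hM : ∀ i j, P i → Q j → M i j = a i * b j) : NR P Q M 1 :=
  ⟨Unit, inferInstance, fun _ i => max (a i) 0, fun _ j => max (b j) 0, by simp,
    fun _ _ => le_max_right _ _, fun _ _ => le_max_right _ _, fun i j hi hj => by
      simp [hM i j hi hj, ha i hi, hb j hj]⟩

/-- A nonnegative matrix whose rows are determined by a label in a finite set. -/
theorem NR.of_row_label {A : Type*} (S : Finset A) (φ : I → A) (hφ : ∀ i, P i → φ i ∈ S)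
    (h0 : ∀ i j, P i → Q j → 0 ≤ M i j)
    (h : ∀ i i' j, P i → P i' → Q j → φ i = φ i' → M i j = M i' j) : NR P Q M S.card := by
  classical
  have key : ∀ a ∈ S, NR P Q (fun i j => if φ i = a ∧ True then M i j else 0) 1 := by
    intro a _
    refine NR.extend (P' := fun i => φ i = a) (Q' := fun _ => True) ?_ |>.congr
      fun i j _ _ => by congr
    by_cases hex : ∃ i, P i ∧ φ i = a
    · obtain ⟨i0, h1, h2⟩ := hex
      exact NR.rank_one (fun _ => 1) (M i0) (fun _ _ => zero_le_one) (fun j hj => h0 _ _ h1 hj.1)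
        fun i j hi hj => by rw [one_mul]; exact h _ _ _ hi.1 h1 hj.1 (hi.2.trans h2.symm)
    · exact NR.zero (fun i j hi _ => (hex ⟨i, hi⟩).elim) zero_le_one
  refine ((NR.sum_le S key).congr fun i j hi _ => ?_).mono (by simp)
  rw [sum_eq_single (φ i)] <;> simp +contextual [eq_comm, hφ i hi]

theorem NR.of_col_label {A : Type*} (S : Finset A) (φ : J → A) (hφ : ∀ j, Q j → φ j ∈ S)
    (h0 : ∀ i j, P i → Q j → 0 ≤ M i j)
    (h : ∀ i j j', P i → Q j → Q j' → φ j = φ j' → M i j = M i j') : NR P Q M S.card :=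
  (NR.of_row_label (P := Q) (Q := P) (M := fun j i => M i j) S φ hφ (fun j i hj hi => h0 i j hi hj)
    fun j j' i hj hj' hi e => h i j j' hi hj hj' e).swap

/-- Summing the rows over multisets. -/
theorem NR.msum_row (h : NR P Q M N) {P' : I' → Prop} (A : I' → Multiset I)
    (hA : ∀ i', P' i' → ∀ i ∈ A i', P i) :
    NR P' Q (fun i' j => ((A i').map fun i => M i j).sum) N := by
  obtain ⟨ι, _, u, v, h0, h1, h2, h⟩ := h
  refine ⟨ι, _, fun k i' => ((A i').map (u k)).sum, v, h0,
    fun k i' => Multiset.sum_nonneg fun x hx => ?_, h2, fun i' j hi hj => ?_⟩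
  · obtain ⟨i, -, rfl⟩ := Multiset.mem_map.1 hx
    exact h1 k i
  · dsimp only
    rw [Multiset.map_congr rfl fun i hi' => h i j (hA i' hi i hi') hj, Multiset.sum_map_sum]
    exact sum_congr rfl fun k _ => Multiset.sum_map_mul_right

theorem NR.msum (h : NR P Q M N) {P' : I' → Prop} {Q' : J' → Prop} (A : I' → Multiset I)
    (B : J' → Multiset J) (hA : ∀ i', P' i' → ∀ i ∈ A i', P i)
    (hB : ∀ j', Q' j' → ∀ j ∈ B j', Q j) :
    NR P' Q' (fun i' j' => ((A i').map fun i => ((B j').map fun j => M i j).sum).sum) N :=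
  (h.swap.msum_row B hB).swap.msum_row A hA

/-- Entries that depend on a bit vector which is the sum of a part known to the row, given a
label of the column, and a part known to the column, given a label of the row. -/
theorem NR.mixed {A B W : Type*} [Fintype A] [Fintype B] [Fintype W] [Add W] (φ : I → A)
    (ψ : J → B) (wr : I → B → W) (wc : J → A → W) (F : W → I → J → ℝ)
    (h : ∀ a b w, NR (fun i => P i ∧ φ i = a) (fun j => Q j ∧ ψ j = b) (F w) N)
    (hM : ∀ i j, P i → Q j → M i j = F (wr i (ψ j) + wc j (φ i)) i j) :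
    NR P Q M (Fintype.card A * Fintype.card B * (Fintype.card W * Fintype.card W * N)) := by
  refine NR.blocks_le φ ψ fun a b => ?_
  refine NR.blocks_le (fun i => wr i b) (fun j => wc j a) fun w w' => ?_
  refine (h a b (w + w')).comap id id (fun i hi => hi.1) (fun j hj => hj.1) ?_
  rintro i j ⟨⟨h1, rfl⟩, rfl⟩ ⟨⟨h2, rfl⟩, rfl⟩
  exact hM i j h1 h2

end NR

/-! Graphs given by the two ends of each edge, over the field with two elements. -/

/-- The field with two elements. -/
abbrev Z2 := ZMod 2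

open Classical in
/-- Indicator with values in the field with two elements. -/
noncomputable def iz (p : Prop) : Z2 := if p then 1 else 0

/-- Boundary of a chain. -/
noncomputable def bd {K N : Type*} [Fintype K] (n : K → Bool → N) (z : K → Z2) (p : N) : Z2 :=
  ∑ k, z k * (iz (n k false = p) + iz (n k true = p))

/-- Coboundary of a function on the nodes. -/
def cob {K N : Type*} (n : K → Bool → N) (f : N → Z2) (k : K) : Z2 :=
  f (n k false) + f (n k true)

/-- Two nodes are connected through edges with property `S`. -/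
def Link {K N : Type*} (n : K → Bool → N) (S : K → Prop) : N → N → Prop :=
  Relation.EqvGen fun a b => ∃ k, S k ∧ n k false = a ∧ n k true = b

/-- A Boolean function of three bits that ignores one bit or accepts exactly a pair of
complementary inputs. -/
def Good (f : (Fin 3 → Bool) → Bool) : Prop :=
  (∃ i, ∀ d, f (Function.update d i (!d i)) = f d) ∨
    ∃ c : Fin 3 → Bool, ∀ d, f d = true ↔ (d = c ∨ d = fun i => !c i)

/-! Abstract states: partitions of darts and groupings of chains. -/

/-- Chains. -/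
abbrev Vec (E : Type) := E → Z2
/-- Darts: an edge with one of its ends, or an edge with one of its sides. -/
abbrev Dart (E : Type) := E × Bool
/-- Flags: an edge with an end and a side. -/
abbrev Flag (E : Type) := E × Bool × Bool

variable {E : Type} [Fintype E] [DecidableEq E]

/-- The star of a set of darts. -/
def st (A : Finset (Dart E)) : Vec E := fun e => ∑ i : Bool, if (e, i) ∈ A then 1 else 0

/-- `cl d` is the class of `d` in a partition of the darts. -/
def IsCl (cl : Dart E → Finset (Dart E)) : Prop :=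
  (∀ d, d ∈ cl d) ∧ ∀ d d', d' ∈ cl d → cl d' = cl d

/-- The real number `0` or `1`. -/
def val (z : Z2) : ℝ := z.val

/-- The number of common edges. -/
def cnt (M D : Vec E) : ℝ := ∑ e, val (M e * D e)

/-- The parity potential. -/
def Psi (P Q : Multiset (Vec E)) : ℝ :=
  (P.map fun c => (Q.map fun g => val (c ⬝ᵥ g)).sum).sum

/-- Every group has two ends, and no class is an end of two groups. -/
def Valid (cl : Dart E → Finset (Dart E)) (P : Multiset (Vec E)) : Prop :=
  (∀ c ∈ P, ∃ a b, ∀ d, c ⬝ᵥ st (cl d) = iz (cl d = cl a) + iz (cl d = cl b)) ∧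
    ∀ d, P.countP (fun c => c ⬝ᵥ st (cl d) = 1) ≤ 1

/-- The grouping `P'` has the same sum as `P` and uses no new edge. -/
def Sub (P' P : Multiset (Vec E)) : Prop :=
  P'.sum = P.sum ∧ ∀ e, (∀ c ∈ P, c e = 0) → ∀ c ∈ P', c e = 0

/-- The two players can pass from groupings for `cl` to groupings for `cl'` and the decrease of
the potential has a nonnegative factorisation of size `N`. -/
def Step (cl cl' : Bool → Dart E → Finset (Dart E)) (ok : Bool → Vec E → Prop) (N : ℝ) : Prop :=
  ∃ F : Bool → Multiset (Vec E) → Multiset (Vec E),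
    (∀ s P, Valid (cl s) P → ok s P.sum → Valid (cl' s) (F s P) ∧ Sub (F s P) P) ∧
    NR (fun P => Valid (cl true) P ∧ ok true P.sum) (fun Q => Valid (cl false) Q ∧ ok false Q.sum)
      (fun P Q => Psi P Q - Psi (F true P) (F false Q)) N

/-- The chain along a unit up to the class `x`. -/
def pth {ι : Type} [DecidableEq ι] (op : Bool → Finset (Finset (Dart E)))
    (u : Bool → Finset (Dart E) → ι) (pos : Bool → Finset (Dart E) → ℕ) (s : Bool)
    (x : Finset (Dart E)) : Vec E :=
  ∑ A ∈ (op (!s)).filter (fun A => u (!s) A = u s x ∧ pos (!s) A < pos s x), st A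

/-- The open classes are arranged in linearly ordered units. -/
def IsUnits {ι : Type} [DecidableEq ι] (cl : Bool → Dart E → Finset (Dart E))
    (op : Bool → Finset (Finset (Dart E))) (u : Bool → Finset (Dart E) → ι)
    (pos : Bool → Finset (Dart E) → ℕ) : Prop :=
  ∀ s, ∀ x ∈ op s, ∀ x' ∈ op s, u s x = u s x' → ∀ d,
    (pth op u pos s x + pth op u pos s x') ⬝ᵥ st (cl s d) = iz (cl s d = x) + iz (cl s d = x')

/-- The pairing of primal and dual cycles has rank at most `γ`. -/
def Rk (cl : Bool → Dart E → Finset (Dart E)) (γ : ℕ) : Prop :=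
  ∃ Y : Fin γ → Vec E, ∀ c g : Vec E, (∀ d, c ⬝ᵥ st (cl true d) = 0) →
    (∀ d, g ⬝ᵥ st (cl false d) = 0) → (∀ i, c ⬝ᵥ Y i = 0) → c ⬝ᵥ g = 0

/-! Maps. The vertices are the classes of type `true`, the faces those of type `false`. -/

/-- The dart of type `s` of a flag. -/
def pr (s : Bool) (x : Flag E) : Dart E := (x.1, if s then x.2.1 else x.2.2)

/-- A map is an involution of the flags without fixed points. -/
def IsMap (τ : Flag E → Flag E) : Prop := (∀ x, τ (τ x) = x) ∧ ∀ x, τ x ≠ x

/-- Connection of darts of type `s` when the flags in `B` are not glued. -/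
def Sec (τ : Flag E → Flag E) (B : Finset (Flag E)) (s : Bool) : Dart E → Dart E → Prop :=
  Link (fun x b => pr s (if b then τ x else x)) (fun x => x ∉ B)

open Classical in
/-- The sectors when the flags in `B` are not glued. -/
noncomputable def gcl (τ : Flag E → Flag E) (B : Finset (Flag E)) (s : Bool) (d : Dart E) :
    Finset (Dart E) := univ.filter (Sec τ B s d)

/-- The open sectors. -/
noncomputable def gop (τ : Flag E → Flag E) (B : Finset (Flag E)) (s : Bool) :
    Finset (Finset (Dart E)) := B.image fun x => gcl τ B s (pr s x)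

/-- The chain is even at every closed sector. -/
def gok (τ : Flag E → Flag E) (B : Finset (Flag E)) (s : Bool) (M : Vec E) : Prop :=
  ∀ d, gcl τ B s d ∉ gop τ B s → M ⬝ᵥ st (gcl τ B s d) = 0

/-- One flag from each corner. -/
@[ext] structure Cor (τ : Flag E → Flag E) where
  /-- the chosen flag -/
  x : Flag E
  lt : Fintype.equivFin (Flag E) x < Fintype.equivFin (Flag E) (τ x)

noncomputable instance (τ : Flag E → Flag E) : Fintype (Cor τ) :=
  Fintype.ofInjective Cor.x fun _ _ h => Cor.ext h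

instance (τ : Flag E → Flag E) : DecidableEq (Cor τ) := fun a b =>
  decidable_of_iff (a.x = b.x) Cor.ext_iff.symm

/-- The two edges of a corner: the medial graph. -/
def med (τ : Flag E → Flag E) (k : Cor τ) (b : Bool) : E := (if b then τ k.x else k.x).1

/-- The vertex and the face of a corner: the radial graph. -/
noncomputable def rad (τ : Flag E → Flag E) (k : Cor τ) (s : Bool) : Bool × Finset (Dart E) :=
  (s, gcl τ ∅ s (pr s k.x))

/-- The cycles of the radial graph that use only corners in `B`. -/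
def radCyc (τ : Flag E → Flag E) (B : Finset (Flag E)) : Submodule Z2 (Cor τ → Z2) where
  carrier := {z | (∀ k, k.x ∉ B → z k = 0) ∧ ∀ p, bd (rad τ) z p = 0}
  add_mem' := by
    rintro a b ⟨h1, h2⟩ ⟨h3, h4⟩
    refine ⟨fun k hk => by simp [h1 k hk, h3 k hk], fun p => ?_⟩
    have := congrArg₂ (· + ·) (h2 p) (h4 p)
    simpa [bd, add_mul, sum_add_distrib] using this
  zero_mem' := ⟨fun _ _ => rfl, fun p => by simp [bd]⟩
  smul_mem' := by
    rintro c a ⟨h1, h2⟩
    refine ⟨fun k hk => by simp [h1 k hk], fun p => ?_⟩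
    have := congrArg (c * ·) (h2 p)
    simpa [bd, mul_sum, mul_assoc] using this

/-- Cycles of the medial graph modulo cuts of the radial graph have dimension at most `γ`. -/
def RadRk (τ : Flag E → Flag E) (γ : ℕ) : Prop :=
  ∃ Λ : (Cor τ → Z2) →ₗ[Z2] (Fin γ → Z2), ∀ y, (∀ e, bd (med τ) y e = 0) → Λ y = 0 →
    ∃ h, y = cob (rad τ) h

/-- The set of unglued flags is a union of corners and has no pendant corner. -/
def NoLeaf (τ : Flag E → Flag E) (B : Finset (Flag E)) : Prop :=
  ∀ x ∈ B, τ x ∈ B ∧ ∀ s, ∃ y ∈ B, y ≠ x ∧ y ≠ τ x ∧ gcl τ ∅ s (pr s y) = gcl τ ∅ s (pr s x)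

end Pool.Agent.Lib.MP_234305_co
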