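import Pool.Agent.Lib.MP_234305_co.H77RunD

/-!
The run lemma.
-/

namespace Pool.Agent.Lib.MP_234305_co

open Finset Matrix

namespace Run

variable {E : Type} [Fintype E] [DecidableEq E] {ι : Type} [DecidableEq ι]

/-- The interaction of two tagged groups. -/
noncomputable def inter (up um : ι) (α β : Rec E ι) : ℝ :=
  (if β.ev = true ∧ Alive up um (β.s - 1) α ∧ α.v ⬝ᵥ β.v1 = 1 ∧ α.v ⬝ᵥ β.v2 = 1 then 1 else 0) +
    if α.ev = true ∧ Alive up um α.s β ∧ α.v1 ⬝ᵥ β.v = 1 ∧ α.v2 ⬝ᵥ β.v = 1 then 1 else 0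

/-- Labels. -/
abbrev Lab (ι : Type) := ι × ι × Z2 × Z2 × Bool × Bool × Bool

/-- The label of a tagged group. -/
def lab (up um : ι) (α : Rec E ι) : Lab ι :=
  (α.z1.1, α.z2.1, α.h, α.h1, α.ev, decide (die up um α.s α.z1 α.z2),
    decide (die up um α.s α.z2 α.z1))

/-- The positions of a tagged group. -/
def trip (α : Rec E ι) : Fin 3 → ℕ := ![α.z1.2, α.z2.2, α.s]

/-- Parities of the ends of the group. -/
def piL (up um : ι) (a : Lab ι) (i : ι) : Z2 :=
  (if a.1 = i then 1 else 0) + (if a.2.1 = i then 1 else 0) + a.2.2.1 * inU up um i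

/-- Parities of the ends of the first part. -/
def piL1 (up um : ι) (a : Lab ι) (i : ι) : Z2 :=
  (if a.1 = i then 1 else 0) + (if up = i then 1 else 0) + a.2.2.2.1 * inU up um i

/-- The function of the comparisons that belongs to two labels. -/
def PhiL (a b : Lab ι) : Z2 × Z2 × Z2 → (Fin 3 → Fin 3 → Bool) → Bool :=
  Phi a.2.2.2.2.1 b.2.2.2.2.1 a.2.2.2.2.2.1 a.2.2.2.2.2.2 b.2.2.2.2.2.1 b.2.2.2.2.2.2
    (decide (a.1 = b.1)) (decide (a.1 = b.2.1)) (decide (a.2.1 = b.1)) (decide (a.2.1 = b.2.1))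

/-- Indicator of equality. -/
def ez (a b : ι) : Z2 := if a = b then 1 else 0

/-- The bits known to the row. -/
def wr (up um : ι) (fB : Vec E → (ι → Z2) → Z2) (α : Rec E ι) (b : Lab ι) : Z2 × Z2 × Z2 :=
  (fB α.v (piL up um b) + α.h * (inU up um b.1 + inU up um b.2.1),
    fB α.v1 (piL up um b) + α.h1 * (inU up um b.1 + inU up um b.2.1) +
      (ez up b.1 + ez up b.2.1),
    fB α.v (piL1 up um b) + α.h * (inU up um b.1 + inU up um up))

/-- The bits known to the column. -/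
def wc {Λ : Type} (up um : ι) (fA : Vec E → (ι → Z2) → Λ → Z2) (β : Rec E ι)
    (a : Lab ι × Λ × Λ) : Z2 × Z2 × Z2 :=
  (fA β.v (piL up um a.1) a.2.1, fA β.v (piL1 up um a.1) a.2.2, fA β.v1 (piL up um a.1) a.2.1)

theorem Pr_unit (up um : ι) (w : ℕ) (m : ℕ → Z2) (i : ι) :
    Pr up um w m (fun z => if z.1 = i then 1 else 0) = (∑ j ∈ range w, m j) * inU up um i := by
  rw [sum_mul]; rfl

theorem kap_eq (z y : ι × ℕ) : kap z y = bz (decide (z.1 = y.1) && decide (z.2 < y.2)) := by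
  simp [kap, bz]

omit [DecidableEq E] in
theorem inter_eq {Λ : Type} {aA aB : Vec E → Prop} {TA TB : Vec E → (ι × ℕ → Z2) → Z2}
    {oA oB : ℕ → Prop} {up um : ι} {w l : ℕ} {fB : Vec E → (ι → Z2) → Z2}
    {fA : Vec E → (ι → Z2) → Λ → Z2} {lam : Vec E → Λ} (hne : up ≠ um) (hl : 1 ≤ l)
    (ho : ∀ t, oA t → ¬oB t) (hA : ∀ v v', aA v → aA v' → aA (v + v'))
    (hB : ∀ v v', aB v → aB v' → aB (v + v'))
    (hp : ∀ c g, aA c → aB g → c ⬝ᵥ g = TA c (fun z => TB g (kap z)) +
      fB c (fun i => TB g fun z => if z.1 = i then 1 else 0) +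
      fA g (fun i => TA c fun z => if z.1 = i then 1 else 0) (lam c))
    {α β : Rec E ι} (hα : WF aA TA oA up um w l α) (hβ : WF aB TB oB up um w l β) :
    inter up um α β = if PhiL (lab up um α) (lab up um β)
      (wr up um fB α (lab up um β) + wc up um fA β (lab up um α, lam α.v, lam α.v1))
      (fun i j => decide (trip α i < trip β j)) then 1 else 0 := by
  set W := wr up um fB α (lab up um β) + wc up um fA β (lab up um α, lam α.v, lam α.v1) with hW
  obtain ⟨m, m1, m2, m3⟩ := hα.tv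
  obtain ⟨n, n1, n2, n3⟩ := hβ.tv
  have aα : aA α.v := hA _ _ hα.a1 hα.a2
  have aβ : aB β.v := hB _ _ hβ.a1 hβ.a2
  have pα : (fun i => TA α.v fun z => if z.1 = i then 1 else 0) = piL up um (lab up um α) :=
    funext fun i => by rw [m3, Pr_unit, m2]; rfl
  have pβ : (fun i => TB β.v fun z => if z.1 = i then 1 else 0) = piL up um (lab up um β) :=
    funext fun i => by rw [n3, Pr_unit, n2]; rfl
  have r1 : β.ev = true → Alive up um (β.s - 1) α →
      α.v ⬝ᵥ β.v1 = kap α.z1 β.z1 + kap α.z2 β.z1 + W.2.2 ∧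
      α.v ⬝ᵥ β.v2 = kap α.z1 β.z2 + kap α.z2 β.z2 + W.1 + W.2.2 := by
    rintro e ⟨a0, a1, a2⟩
    obtain ⟨t1, -, k, k1, k2, k3⟩ := hβ.e1 e
    have tl := hβ.sl
    have f : α.z1 = α.z2 ∨ ((α.z1.1 = up ∨ α.z1.1 = um → β.s ≤ α.z1.2) ∧
        (α.z2.1 = up ∨ α.z2.1 = um → β.s ≤ α.z2.2)) := by
      refine or_iff_not_imp_left.2 fun ne => ⟨fun x => ?_, fun x => ?_⟩
      · obtain ⟨q, q'⟩ := hα.q1 x
        rcases q.eq_or_lt with e | e
        · have := (q' e.symm).resolve_left ne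
          omega
        · have := a1 ⟨x, ne, e⟩
          omega
      · obtain ⟨q, q'⟩ := hα.q2 x
        rcases q.eq_or_lt with e | e
        · have := (q' e.symm).resolve_left ne
          omega
        · have := a2 ⟨x, Ne.symm ne, e⟩
          omega
    have g1 : β.z1.1 = up ∨ β.z1.1 = um → ∀ j, β.z1.2 ≤ j → m j = 0 := fun x j hj =>
      m1 j (by have := (hβ.q1 x).1; omega)
    have g2 : β.z2.1 = up ∨ β.z2.1 = um → ∀ j, β.z2.2 ≤ j → m j = 0 := fun x j hj =>
      m1 j (by have := (hβ.q2 x).1; omega)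
    have J0 := eval_J hne m3 n3 (f.imp_right fun x =>
      ⟨fun y j hj => n1 j (by have := x.1 y; omega), fun y j hj => n1 j (by have := x.2 y; omega)⟩)
      (Or.inr ⟨g1, g2⟩)
    have J1 := eval_J hne m3 k3 (f.imp_right fun x =>
      ⟨fun y j hj => k1 j (by have := x.1 y; omega), fun y j hj => k1 j (by have := x.2 y; omega)⟩)
      (Or.inr ⟨g1, fun _ j hj => m1 j (by simp only at hj; omega)⟩)
    have z : kap α.z1 (up, β.s) + kap α.z2 (up, β.s) = 0 := by
      rcases f with f | ⟨f1, f2⟩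
      · rw [f, z2_add_self]
      · have y1 : kap α.z1 (up, β.s) = 0 := if_neg fun x => by
          have := f1 (Or.inl x.1); have := x.2; simp only at this; omega
        have y2 : kap α.z2 (up, β.s) = 0 := if_neg fun x => by
          have := f2 (Or.inl x.1); have := x.2; simp only at this; omega
        rw [y1, y2, add_zero]
    have pβ1 : (fun i => TB β.v1 fun z => if z.1 = i then 1 else 0) =
        piL1 up um (lab up um β) := funext fun i => by rw [k3, Pr_unit, k2]; rfl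
    have u0 := hp _ _ aα aβ
    have u1 := hp _ _ aα hβ.a1
    rw [J0, pα, pβ, m2] at u0
    rw [J1, pα, pβ1, m2] at u1
    have v1 : α.v ⬝ᵥ β.v1 = kap α.z1 β.z1 + kap α.z2 β.z1 + W.2.2 := by
      rw [u1, hW]
      simp only [wr, wc, lab, Prod.snd_add]
      linear_combination z
    refine ⟨v1, ?_⟩
    have v0 : α.v ⬝ᵥ β.v1 + α.v ⬝ᵥ β.v2 =
        kap α.z1 β.z1 + kap α.z1 β.z2 + kap α.z2 β.z1 + kap α.z2 β.z2 + W.1 := by
      rw [← dotProduct_add, ← Rec.v, u0, hW]
      simp only [wr, wc, lab, Prod.fst_add]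
      ring
    linear_combination v0 - v1 - z2_add_self W.2.2
  have r2 : α.ev = true → Alive up um α.s β →
      α.v1 ⬝ᵥ β.v = kap α.z1 β.z1 + kap α.z1 β.z2 + W.2.1 ∧
      α.v2 ⬝ᵥ β.v = kap α.z2 β.z1 + kap α.z2 β.z2 + W.1 + W.2.1 := by
    rintro e ⟨a0, a1, a2⟩
    obtain ⟨t1, t2, k, k1, k2, k3⟩ := hα.e1 e
    have tl := hα.sl
    have nl : β.s ≠ l := fun x => by
      have : β.ev = true := by
        by_contra y
        have := hβ.e0 (by simpa using y)
        omega
      exact ho _ t2 ((show β.s = α.s by omega) ▸ (hβ.e1 this).2.1)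
    have f : β.z1 = β.z2 ∨ ((β.z1.1 = up ∨ β.z1.1 = um → α.s < β.z1.2) ∧
        (β.z2.1 = up ∨ β.z2.1 = um → α.s < β.z2.2)) := by
      refine or_iff_not_imp_left.2 fun ne => ⟨fun x => ?_, fun x => ?_⟩
      · obtain ⟨q, q'⟩ := hβ.q1 x
        rcases q.eq_or_lt with e | e
        · exact (nl ((q' e.symm).resolve_left ne)).elim
        · exact a1 ⟨x, ne, e⟩
      · obtain ⟨q, q'⟩ := hβ.q2 x
        rcases q.eq_or_lt with e | e
        · exact (nl ((q' e.symm).resolve_left ne)).elim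
        · exact a2 ⟨x, Ne.symm ne, e⟩
    have g1 : α.z1.1 = up ∨ α.z1.1 = um → ∀ j, α.z1.2 < j → n j = 0 := fun x j hj =>
      n1 j (by have := (hα.q1 x).1; omega)
    have g2 : α.z2.1 = up ∨ α.z2.1 = um → ∀ j, α.z2.2 < j → n j = 0 := fun x j hj =>
      n1 j (by have := (hα.q2 x).1; omega)
    have J0 := eval_J hne m3 n3 (Or.inr ⟨g1, g2⟩) (f.imp_right fun x =>
      ⟨fun y j hj => m1 j (by have := x.1 y; omega), fun y j hj => m1 j (by have := x.2 y; omega)⟩)
    have J1 := eval_J hne k3 n3 (Or.inr ⟨g1, fun _ j hj => n1 j (by simp only at hj; omega)⟩)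
      (f.imp_right fun x => ⟨fun y j hj => k1 j (by have := x.1 y; omega),
        fun y j hj => k1 j (by have := x.2 y; omega)⟩)
    have z : kap (up, α.s) β.z1 + kap (up, α.s) β.z2 = ez up β.z1.1 + ez up β.z2.1 := by
      rcases f with f | ⟨f1, f2⟩
      · rw [f, z2_add_self, z2_add_self]
      · congr 1
        · exact if_congr ⟨fun x => x.1, fun x => ⟨x, f1 (Or.inl x.symm)⟩⟩ rfl rfl
        · exact if_congr ⟨fun x => x.1, fun x => ⟨x, f2 (Or.inl x.symm)⟩⟩ rfl rfl
    have pα1 : (fun i => TA α.v1 fun z => if z.1 = i then 1 else 0) =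
        piL1 up um (lab up um α) := funext fun i => by rw [k3, Pr_unit, k2]; rfl
    have u0 := hp _ _ aα aβ
    have u1 := hp _ _ hα.a1 aβ
    rw [J0, pα, pβ, m2] at u0
    rw [J1, pα1, pβ, k2] at u1
    have v1 : α.v1 ⬝ᵥ β.v = kap α.z1 β.z1 + kap α.z1 β.z2 + W.2.1 := by
      rw [u1, hW]
      simp only [wr, wc, lab, Prod.snd_add, Prod.fst_add]
      linear_combination z
    refine ⟨v1, ?_⟩
    have v0 : α.v1 ⬝ᵥ β.v + α.v2 ⬝ᵥ β.v =
        kap α.z1 β.z1 + kap α.z1 β.z2 + kap α.z2 β.z1 + kap α.z2 β.z2 + W.1 := by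
      rw [← add_dotProduct, ← Rec.v, u0, hW]
      simp only [wr, wc, lab, Prod.fst_add]
      ring
    linear_combination v0 - v1 - z2_add_self W.2.1
  have c1 : (β.ev = true ∧ (α.ev = false ∨ α.s < β.s) ∧
      (¬die up um α.s α.z1 α.z2 ∨ β.s ≤ α.z1.2) ∧ (¬die up um α.s α.z2 α.z1 ∨ β.s ≤ α.z2.2)) ↔
      β.ev = true ∧ Alive up um (β.s - 1) α := by
    refine and_congr_right fun e => ?_
    have := (hβ.e1 e).1
    refine and_congr ⟨fun x => ?_, fun x => Or.inr (by omega)⟩ (and_congr ?_ ?_)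
    · rcases x with x | x
      · have := hα.e0 x
        omega
      · omega
    · rw [imp_iff_not_or]; exact or_congr_right (by omega)
    · rw [imp_iff_not_or]; exact or_congr_right (by omega)
  have c2 : (α.ev = true ∧ (β.ev = false ∨ β.s ≤ α.s) ∧
      (¬die up um β.s β.z1 β.z2 ∨ α.s < β.z1.2) ∧ (¬die up um β.s β.z2 β.z1 ∨ α.s < β.z2.2)) ↔
      α.ev = true ∧ Alive up um α.s β := by
    refine and_congr_right fun e => ?_
    refine and_congr ⟨fun x => ?_, fun x => Or.inr x⟩ (and_congr ?_ ?_)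
    · rcases x with x | x
      · have := hβ.e0 x
        omega
      · omega
    · rw [imp_iff_not_or]
    · rw [imp_iff_not_or]
  have key : PhiL (lab up um α) (lab up um β) W (fun i j => decide (trip α i < trip β j)) = true ↔
      (β.ev = true ∧ Alive up um (β.s - 1) α ∧ α.v ⬝ᵥ β.v1 = 1 ∧ α.v ⬝ᵥ β.v2 = 1) ∨
      (α.ev = true ∧ Alive up um α.s β ∧ α.v1 ⬝ᵥ β.v = 1 ∧ α.v2 ⬝ᵥ β.v = 1) := by
    have : PhiL (lab up um α) (lab up um β) W (fun i j => decide (trip α i < trip β j)) = true ↔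
        ((β.ev = true ∧ (α.ev = false ∨ α.s < β.s) ∧
          (¬die up um α.s α.z1 α.z2 ∨ β.s ≤ α.z1.2) ∧
          (¬die up um α.s α.z2 α.z1 ∨ β.s ≤ α.z2.2)) ∧
          kap α.z1 β.z1 + kap α.z2 β.z1 + W.2.2 = 1 ∧
          kap α.z1 β.z2 + kap α.z2 β.z2 + W.1 + W.2.2 = 1) ∨
        ((α.ev = true ∧ (β.ev = false ∨ β.s ≤ α.s) ∧
          (¬die up um β.s β.z1 β.z2 ∨ α.s < β.z1.2) ∧
          (¬die up um β.s β.z2 β.z1 ∨ α.s < β.z2.2)) ∧
          kap α.z1 β.z1 + kap α.z1 β.z2 + W.2.1 = 1 ∧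
          kap α.z2 β.z1 + kap α.z2 β.z2 + W.1 + W.2.1 = 1) := by
      simp [PhiL, Phi, lab, trip, kap_eq, and_assoc]
      exact Iff.rfl
    rw [this, c1, c2]
    refine or_congr ?_ ?_
    · rw [and_assoc]
      exact and_congr_right fun a => and_congr_right fun b => by rw [(r1 a b).1, (r1 a b).2]
    · rw [and_assoc]
      exact and_congr_right fun a => and_congr_right fun b => by rw [(r2 a b).1, (r2 a b).2]
  rw [inter, if_congr key rfl rfl]
  by_cases x : β.ev = true ∧ Alive up um (β.s - 1) α ∧ α.v ⬝ᵥ β.v1 = 1 ∧ α.v ⬝ᵥ β.v2 = 1 <;>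
    by_cases y : α.ev = true ∧ Alive up um α.s β ∧ α.v1 ⬝ᵥ β.v = 1 ∧ α.v2 ⬝ᵥ β.v = 1
  · have := x.2.1.1
    have := y.2.1.1
    have := (hβ.e1 x.1).1
    omega
  · rw [if_pos x, if_neg y, if_pos (Or.inl x), add_zero]
  · rw [if_neg x, if_pos y, if_pos (Or.inr y), zero_add]
  · rw [if_neg x, if_neg y, if_neg (not_or.2 ⟨x, y⟩), add_zero]

theorem val_dec (a b : Z2) : val a + val b - val (a + b) = 2 * if a = 1 ∧ b = 1 then 1 else 0 := by
  rcases z2_cases a with rfl | rfl <;> rcases z2_cases b with rfl | rfl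
  · simp [val]
  · simp [val]
  · simp [val]
  · rw [z2_add_self]
    simp [val, ZMod.val_one]
    norm_num

theorem msum_filter {α : Type*} (p : α → Prop) [DecidablePred p] (X : Multiset α) (f : α → ℝ) :
    ((X.filter p).map f).sum = (X.map fun a => if p a then f a else 0).sum := by
  induction X using Multiset.induction_on with
  | empty => simp
  | cons a X ih => by_cases h : p a <;> simp [h, ih]

theorem sum_time {l s : ℕ} {p : Prop} [Decidable p] (h : p → 1 ≤ s ∧ s ≤ l) (f : ℕ → ℝ) :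
    ∑ j ∈ range l, (if p ∧ s = j + 1 then f j else 0) = if p then f (s - 1) else 0 := by
  by_cases hp : p
  · obtain ⟨h1, h2⟩ := h hp
    rw [if_pos hp, sum_eq_single (s - 1), if_pos ⟨hp, by omega⟩]
    · exact fun b _ hb => if_neg fun e => hb (by omega)
    · exact fun h => (h (mem_range.2 (by omega))).elim
  · simp [hp]

theorem decrement {cA cA' cB cB' : Dart E → Finset (Dart E)} {aA aB : Vec E → Prop}
    {TA TB : Vec E → (ι × ℕ → Z2) → Z2} {oA oB : ℕ → Prop} {ap am : ℕ → Finset (Dart E)}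
    {up um : ι} {w l : ℕ} {P Q : Multiset (Vec E)} {HA HB : Multiset (Rec E ι)}
    (hA : Hist cA cA' aA TA oA ap am up um w l P l HA)
    (hB : Hist cB cB' aB TB oB ap am up um w l Q l HB) :
    Psi P Q - Psi (Al up um HA l) (Al up um HB l) =
      2 * (HA.map fun α => (HB.map fun β => inter up um α β).sum).sum := by
  have step : ∀ j ∈ range l, Psi (Al up um HA j) (Al up um HB j) -
      Psi (Al up um HA (j + 1)) (Al up um HB (j + 1)) =
      (HA.map fun α => (HB.map fun β =>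
        (if β.ev = true ∧ β.s = j + 1 then
          (2 * if Alive up um j α ∧ α.v ⬝ᵥ β.v1 = 1 ∧ α.v ⬝ᵥ β.v2 = 1 then 1 else 0) else 0) +
        if α.ev = true ∧ α.s = j + 1 then
          (2 * if Alive up um (j + 1) β ∧ α.v1 ⬝ᵥ β.v = 1 ∧ α.v2 ⬝ᵥ β.v = 1 then 1 else 0)
          else (0 : ℝ)).sum).sum := by
    intro j hj
    have hj' : j + 1 ∈ Icc 1 l := mem_Icc.2 ⟨by omega, mem_range.1 hj⟩
    have e1 := hB.dec _ hj' (fun g => ((Al up um HA j).map fun c => val (c ⬝ᵥ g)).sum)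
      (by simp [val])
    have e2 := hA.dec _ hj' (fun c => ((Al up um HB (j + 1)).map fun g => val (c ⬝ᵥ g)).sum)
      (by simp [val])
    rw [Nat.add_sub_cancel] at e1 e2
    rw [← Multiset.sum_map_sum_map (Al up um HA j), ← Multiset.sum_map_sum_map (Al up um HA j)]
      at e1
    simp only [Multiset.sum_map_add]
    rw [Multiset.sum_map_sum_map HA HB]
    have f1 : ∀ β : Rec E ι, ((Al up um HA j).map fun c => val (c ⬝ᵥ β.v1)).sum +
        ((Al up um HA j).map fun c => val (c ⬝ᵥ β.v2)).sum -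
        ((Al up um HA j).map fun c => val (c ⬝ᵥ β.v)).sum = (HA.map fun α =>
          2 * if Alive up um j α ∧ α.v ⬝ᵥ β.v1 = 1 ∧ α.v ⬝ᵥ β.v2 = 1 then (1 : ℝ) else 0).sum := by
      intro β
      rw [← Multiset.sum_map_add, ← Multiset.sum_map_sub, Al, Multiset.map_map, msum_filter]
      refine congrArg _ (Multiset.map_congr rfl fun α _ => ?_)
      simp only [Function.comp, Rec.v, dotProduct_add (α.v1 + α.v2), val_dec]
      by_cases h : Alive up um j α <;> simp [h]
    have f2 : ∀ α : Rec E ι, ((Al up um HB (j + 1)).map fun g => val (α.v1 ⬝ᵥ g)).sum +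
        ((Al up um HB (j + 1)).map fun g => val (α.v2 ⬝ᵥ g)).sum -
        ((Al up um HB (j + 1)).map fun g => val (α.v ⬝ᵥ g)).sum = (HB.map fun β =>
          2 * if Alive up um (j + 1) β ∧ α.v1 ⬝ᵥ β.v = 1 ∧ α.v2 ⬝ᵥ β.v = 1 then (1 : ℝ)
            else 0).sum := by
      intro α
      rw [← Multiset.sum_map_add, ← Multiset.sum_map_sub, Al, Multiset.map_map, msum_filter]
      refine congrArg _ (Multiset.map_congr rfl fun β _ => ?_)
      simp only [Function.comp, Rec.v, add_dotProduct _ _ (β.v1 + β.v2), val_dec]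
      by_cases h : Alive up um (j + 1) β <;> simp [h]
    simp only [f1, msum_filter] at e1
    simp only [f2, msum_filter] at e2
    have g : ∀ (p : Prop) [Decidable p] (X : Multiset (Rec E ι)) (f : Rec E ι → ℝ),
        (X.map fun a => if p then f a else 0).sum = if p then (X.map f).sum else 0 := by
      intro p _ X f
      split_ifs <;> simp
    simp only [g]
    rw [← e1, ← e2]
    simp only [Psi]
    ring
  rw [← hA.init, ← hB.init, ← sum_range_sub' (fun j => Psi (Al up um HA j) (Al up um HB j)),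
    sum_congr rfl step, ← Multiset.sum_map_sum, ← Multiset.sum_map_mul_left]
  refine congrArg _ (Multiset.map_congr rfl fun α hα => ?_)
  rw [← Multiset.sum_map_sum, ← Multiset.sum_map_mul_left]
  refine congrArg _ (Multiset.map_congr rfl fun β hβ => ?_)
  have wα := (hA.wf α hα).1
  have wβ := (hB.wf β hβ).1
  rw [sum_add_distrib, sum_time (fun e => ⟨(wβ.e1 e).1, wβ.sl⟩),
    sum_time (fun e => ⟨(wα.e1 e).1, wα.sl⟩), inter, mul_add]
  congr 1
  · by_cases h : β.ev = true <;> simp [h]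
  · by_cases h : α.ev = true
    · simp [h, Nat.sub_add_cancel (wα.e1 h).1]
    · simp [h]

end Run

open Run in
theorem run_lemma (h : OrderStmt) : RunStmt := by
  intro ε hε
  obtain ⟨K, hK, hN⟩ := nr_phi h ε hε
  refine ⟨2 ^ 16 * K, by positivity, ?_⟩
  intro E _ _ cl cl' op ι _ _ u pos γ w l ty ap am up um ok hcl hop hU hR hw hne h1 h2 h3 h4
  rcases Nat.eq_zero_or_pos l with rfl | hl
  · obtain rfl : cl' = cl := funext fun s => funext fun d => (h3 s d).2 (by simp)
    exact (Step.refl _ _).mono (by positivity)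
  have hlw : l < w := by
    obtain ⟨⟨a, -, b⟩, -⟩ := h1 l (mem_Icc.2 ⟨hl, le_rfl⟩)
    exact b ▸ hw _ _ a
  have key : ∀ s P, Valid (cl s) P → ok s P.sum → ∃ H, Hist (cl s) (cl' s) (Adm (cl s) (op s))
      (Tf (op s) (u s) (pos s)) (fun t => ty t = s) ap am up um w l P l H ∧
      Valid (cl' s) (Al up um H l) := fun s P hP ho =>
    exists_hist (hcl s) (hop s) (hw s) hlw hne (fun t a b => by subst b; exact h1 t a) (h2 s)
      (h3 s) hP (h4 s _ ho).1 (h4 s _ ho).2
  choose! H hH using key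
  obtain ⟨fB, fA, lam, hp⟩ := pairing hop hU hR
  refine ⟨fun s P => Al up um (H s P) l,
    fun s P a b => ⟨(hH s P a b).2, (hH s P a b).1.inv.sub⟩, ?_⟩
  have N1 := NR.mixed
    (P := WF (Adm (cl true) (op true)) (Tf (op true) (u true) (pos true)) (fun t => ty t = true)
      up um w l)
    (Q := WF (Adm (cl false) (op false)) (Tf (op false) (u false) (pos false))
      (fun t => ty t = false) up um w l)
    (M := inter up um) (N := K * (w : ℝ) ^ (2 + ε))
    (fun α => (lab up um α, lam α.v, lam α.v1)) (lab up um) (wr up um fB) (wc up um fA)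
    (fun W α β => if PhiL (lab up um α) (lab up um β) W
      (fun i j => decide (trip α i < trip β j)) then 1 else 0) (fun a b W => ?_)
    fun α β hα hβ => inter_eq hne hl (by simp) (fun _ _ => Adm.add) (fun _ _ => Adm.add) hp hα hβ
  · refine (((N1.msum (H true) (H false) (fun P hP α hα => ((hH _ P hP.1 hP.2).1.wf α hα).1)
      fun P hP α hα => ((hH _ P hP.1 hP.2).1.wf α hα).1).smul zero_le_two).congr
      fun P Q hP hQ => decrement (hH _ P hP.1 hP.2).1 (hH _ Q hQ.1 hQ.2).1).mono (le_of_eq ?_)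
    simp only [Fintype.card_prod, Fintype.card_pi, ZMod.card, Fintype.card_bool, prod_const,
      card_univ, Fintype.card_fin]
    push_cast
    rw [show (4 : ℝ) = 2 * 2 by norm_num, mul_pow]
    ring
  · have tr : ∀ {adm T own} {α : Rec E ι}, WF adm T own up um w l α → (∀ i, trip α i < w) ∧
        ((lab up um α).2.2.2.2.2.1 = true → trip α 2 < trip α 0) ∧
        ((lab up um α).2.2.2.2.2.2 = true → trip α 2 < trip α 1) := fun {_ _ _ α} hα => by
      refine ⟨fun i => ?_, fun x => (of_decide_eq_true x).2.2, fun x => (of_decide_eq_true x).2.2⟩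
      fin_cases i
      exacts [hα.p1, hα.p2, hα.sl.trans_lt hlw]
    refine (hN w a.1.2.2.2.2.1 b.2.2.2.2.1 a.1.2.2.2.2.2.1 a.1.2.2.2.2.2.2 b.2.2.2.2.2.1
      b.2.2.2.2.2.2 (decide (a.1.1 = b.1)) (decide (a.1.1 = b.2.1)) (decide (a.1.2.1 = b.1))
      (decide (a.1.2.1 = b.2.1)) W).comap trip trip ?_ ?_ ?_
    · rintro α ⟨hα, rfl⟩
      exact tr hα
    · rintro β ⟨hβ, rfl⟩
      exact tr hβ
    · rintro α β ⟨-, rfl⟩ ⟨-, rfl⟩
      rfl

end Pool.Agent.Lib.MP_234305_co
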