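import Pool.Agent.Lib.MP_234305_co.H77Basic

/-!
The pairing formula for chains whose ends lie in linearly ordered units.
-/

namespace Pool.Agent.Lib.MP_234305_co.Run

open Finset Matrix

variable {E : Type} [Fintype E] [DecidableEq E] {ι : Type} [DecidableEq ι]

/-- The chain is even at all classes that are not open. -/
def Adm (cl : Dart E → Finset (Dart E)) (op : Finset (Finset (Dart E))) (v : Vec E) : Prop :=
  ∀ d, cl d ∉ op → v ⬝ᵥ st (cl d) = 0

/-- The boundary of a chain, tested against a function of unit and position. -/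
def Tf (op : Finset (Finset (Dart E))) (u : Finset (Dart E) → ι) (pos : Finset (Dart E) → ℕ)
    (v : Vec E) (ψ : ι × ℕ → Z2) : Z2 :=
  ∑ x ∈ op, (v ⬝ᵥ st x) * ψ (u x, pos x)

/-- Same unit and smaller position. -/
def kap (z y : ι × ℕ) : Z2 := if z.1 = y.1 ∧ z.2 < y.2 then 1 else 0

/-- Indicator of the two special units. -/
def inU (up um i : ι) : Z2 := (if up = i then 1 else 0) + if um = i then 1 else 0

/-- A sum of pairs of opposite positions in the two special units. -/
def Pr (up um : ι) (w : ℕ) (m : ℕ → Z2) (ψ : ι × ℕ → Z2) : Z2 :=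
  ∑ j ∈ range w, m j * (ψ (up, j) + ψ (um, j))

omit [DecidableEq E] in
theorem Adm.add {cl : Dart E → Finset (Dart E)} {op : Finset (Finset (Dart E))} {v v' : Vec E}
    [DecidableEq E] (h : Adm cl op v) (h' : Adm cl op v') : Adm cl op (v + v') :=
  fun d hd => by rw [add_dotProduct, h d hd, h' d hd, add_zero]

theorem Adm.zero (cl : Dart E → Finset (Dart E)) (op : Finset (Finset (Dart E))) : Adm cl op 0 :=
  fun _ _ => zero_dotProduct _

omit [DecidableEq ι] in
theorem Tf_add (op : Finset (Finset (Dart E))) (u : Finset (Dart E) → ι)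
    (pos : Finset (Dart E) → ℕ) (v v' : Vec E) (ψ : ι × ℕ → Z2) :
    Tf op u pos (v + v') ψ = Tf op u pos v ψ + Tf op u pos v' ψ := by
  simp [Tf, add_mul, sum_add_distrib]

omit [DecidableEq ι] in
theorem Tf_zero (op : Finset (Finset (Dart E))) (u : Finset (Dart E) → ι)
    (pos : Finset (Dart E) → ℕ) (ψ : ι × ℕ → Z2) : Tf op u pos 0 ψ = 0 := by
  simp [Tf]

omit [DecidableEq ι] in
theorem Pr_add (up um : ι) (w : ℕ) (m m' : ℕ → Z2) (ψ : ι × ℕ → Z2) :
    Pr up um w (m + m') ψ = Pr up um w m ψ + Pr up um w m' ψ := by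
  simp [Pr, add_mul, sum_add_distrib]

omit [DecidableEq ι] in
theorem Pr_zero (up um : ι) (w : ℕ) (ψ : ι × ℕ → Z2) : Pr up um w 0 ψ = 0 := by simp [Pr]

omit [DecidableEq ι] in
theorem Pr_single (up um : ι) {w s : ℕ} (hs : s < w) (ψ : ι × ℕ → Z2) :
    Pr up um w (Pi.single s 1) ψ = ψ (up, s) + ψ (um, s) := by
  rw [Pr, sum_eq_single s]
  · simp
  · intro b _ hb
    rw [Pi.single_eq_of_ne hb, zero_mul]
  · intro h
    exact (h (mem_range.2 hs)).elim

theorem Pr_kap_right (up um : ι) (w : ℕ) (n : ℕ → Z2) (x : ι × ℕ)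
    (h : (x.1 = up ∨ x.1 = um) → ∀ j, x.2 < j → n j = 0) : Pr up um w n (kap x) = 0 := by
  refine sum_eq_zero fun j _ => ?_
  by_cases h1 : x.2 < j
  · by_cases h2 : x.1 = up ∨ x.1 = um
    · rw [h h2 j h1, zero_mul]
    · push Not at h2
      simp [kap, h2.1, h2.2]
  · simp [kap, h1]

theorem Pr_kap_left (up um : ι) (w : ℕ) (m : ℕ → Z2) (y : ι × ℕ)
    (h : (y.1 = up ∨ y.1 = um) → ∀ j, y.2 ≤ j → m j = 0) :
    Pr up um w m (fun z => kap z y) = (∑ j ∈ range w, m j) * inU up um y.1 := by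
  rw [sum_mul]
  refine sum_congr rfl fun j _ => ?_
  by_cases h1 : j < y.2
  · simp [kap, inU, h1]
  · by_cases h2 : y.1 = up ∨ y.1 = um
    · rw [h h2 j (not_lt.1 h1), zero_mul, zero_mul]
    · push Not at h2
      simp [kap, inU, h1, h2.1.symm, h2.2.symm]

theorem Pr_kap_both {up um : ι} (h : up ≠ um) (w : ℕ) (n : ℕ → Z2) (j : ℕ) :
    Pr up um w n (kap (up, j)) + Pr up um w n (kap (um, j)) = 0 := by
  rw [z2_add_eq_zero]
  refine sum_congr rfl fun k _ => ?_
  simp [kap, h, h.symm]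

/-- Evaluation of the comparison term. -/
theorem eval_J {up um : ι} (hne : up ≠ um) {w : ℕ} {TA TB : (ι × ℕ → Z2) → Z2}
    {x1 x2 y1 y2 : ι × ℕ} {m n : ℕ → Z2}
    (hA : ∀ ψ, TA ψ = ψ x1 + ψ x2 + Pr up um w m ψ)
    (hB : ∀ ψ, TB ψ = ψ y1 + ψ y2 + Pr up um w n ψ)
    (h1 : x1 = x2 ∨ (((x1.1 = up ∨ x1.1 = um) → ∀ j, x1.2 < j → n j = 0) ∧
      ((x2.1 = up ∨ x2.1 = um) → ∀ j, x2.2 < j → n j = 0)))
    (h2 : y1 = y2 ∨ (((y1.1 = up ∨ y1.1 = um) → ∀ j, y1.2 ≤ j → m j = 0) ∧
      ((y2.1 = up ∨ y2.1 = um) → ∀ j, y2.2 ≤ j → m j = 0))) :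
    TA (fun z => TB (kap z)) = kap x1 y1 + kap x1 y2 + kap x2 y1 + kap x2 y2 +
      (∑ j ∈ range w, m j) * (inU up um y1.1 + inU up um y2.1) := by
  have e1 : Pr up um w n (kap x1) + Pr up um w n (kap x2) = 0 := by
    rcases h1 with rfl | ⟨a, b⟩
    · exact z2_add_self _
    · rw [Pr_kap_right _ _ _ _ _ a, Pr_kap_right _ _ _ _ _ b, add_zero]
  have e2 : Pr up um w m (fun z => kap z y1) + Pr up um w m (fun z => kap z y2) =
      (∑ j ∈ range w, m j) * (inU up um y1.1 + inU up um y2.1) := by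
    rcases h2 with rfl | ⟨a, b⟩
    · rw [z2_add_self, z2_add_self, mul_zero]
    · rw [Pr_kap_left _ _ _ _ _ a, Pr_kap_left _ _ _ _ _ b, mul_add]
  have e3 : Pr up um w m (fun z => TB (kap z)) =
      Pr up um w m (fun z => kap z y1) + Pr up um w m (fun z => kap z y2) := by
    simp only [Pr, ← sum_add_distrib]
    refine sum_congr rfl fun j _ => ?_
    rw [hB, hB]
    linear_combination m j * Pr_kap_both hne w n j
  rw [hA, e3, e2, hB, hB]
  linear_combination e1

section Pairing
variable [Fintype ι] {cl : Bool → Dart E → Finset (Dart E)}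
  {op : Bool → Finset (Finset (Dart E))} {u : Bool → Finset (Dart E) → ι}
  {pos : Bool → Finset (Dart E) → ℕ}

/-- The parities of the ends in the units. -/
def piU (op : Finset (Finset (Dart E))) (u : Finset (Dart E) → ι) (pos : Finset (Dart E) → ℕ)
    (v : Vec E) (i : ι) : Z2 := Tf op u pos v fun z => if z.1 = i then 1 else 0

/-- Moving all ends to the beginning of their units. -/
def bar (op : Bool → Finset (Finset (Dart E))) (u : Bool → Finset (Dart E) → ι)
    (pos : Bool → Finset (Dart E) → ℕ) (s : Bool) (v : Vec E) : Vec E :=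
  v + ∑ x ∈ op s, (v ⬝ᵥ st x) • pth op u pos s x

theorem bar_closed (hU : IsUnits cl op u pos) {s : Bool} {v v' : Vec E}
    (h : Adm (cl s) (op s) v) (h' : Adm (cl s) (op s) v')
    (hp : piU (op s) (u s) (pos s) v = piU (op s) (u s) (pos s) v') (d : Dart E) :
    (bar op u pos s v + bar op u pos s v') ⬝ᵥ st (cl s d) = 0 := by
  classical
  have e : bar op u pos s v + bar op u pos s v' = bar op u pos s (v + v') := by
    simp only [bar, add_dotProduct, add_smul, sum_add_distrib]; abel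
  have hy := h.add h'
  have hp' : ∀ i, piU (op s) (u s) (pos s) (v + v') i = 0 := fun i => by
    have := congrFun hp i
    simp only [piU] at this ⊢
    rw [Tf_add, this, z2_add_self]
  rw [e]
  generalize v + v' = y at hy hp'
  let x0 : ι → Finset (Dart E) := fun i => if h : ∃ x ∈ op s, u s x = i then h.choose else ∅
  have hx0 : ∀ x ∈ op s, x0 (u s x) ∈ op s ∧ u s (x0 (u s x)) = u s x := fun x hx => by
    have h : ∃ x' ∈ op s, u s x' = u s x := ⟨x, hx, rfl⟩
    simp only [x0, dif_pos h]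
    exact h.choose_spec
  let β : ι → Z2 := fun i => pth op u pos s (x0 i) ⬝ᵥ st (cl s d) + iz (cl s d = x0 i)
  have key : ∀ x ∈ op s, pth op u pos s x ⬝ᵥ st (cl s d) = β (u s x) + iz (cl s d = x) := by
    intro x hx
    have := hU s x hx _ (hx0 x hx).1 (hx0 x hx).2.symm d
    rw [add_dotProduct] at this
    simp only [β]
    linear_combination this - z2_add_self (pth op u pos s (x0 (u s x)) ⬝ᵥ st (cl s d))
  have e1 : ∑ x ∈ op s, (y ⬝ᵥ st x) * β (u s x) = 0 := by
    have : ∑ i, β i * piU (op s) (u s) (pos s) y i = 0 := sum_eq_zero fun i _ => by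
      rw [hp', mul_zero]
    rw [← this]
    simp only [piU, Tf, mul_sum]
    rw [sum_comm]
    refine sum_congr rfl fun x _ => ?_
    simp [mul_comm]
  have e2 : ∑ x ∈ op s, (y ⬝ᵥ st x) * iz (cl s d = x) = y ⬝ᵥ st (cl s d) := by
    simp only [iz_eq_ite, mul_ite, mul_one, mul_zero, sum_ite_eq]
    split_ifs with h
    exacts [rfl, (hy d h).symm]
  rw [bar, add_dotProduct, sum_dotProduct]
  simp only [smul_dotProduct, smul_eq_mul]
  rw [sum_congr rfl fun x hx => by rw [key x hx, mul_add], sum_add_distrib, e1, e2, zero_add,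
    z2_add_self]

omit [Fintype ι] in
theorem closed_dot_pth (hop : ∀ s, ∀ x ∈ op s, ∃ d, cl s d = x) {s : Bool} {c : Vec E}
    (hc : ∀ d, c ⬝ᵥ st (cl (!s) d) = 0) (x : Finset (Dart E)) : c ⬝ᵥ pth op u pos s x = 0 := by
  rw [pth, dotProduct_sum]
  refine sum_eq_zero fun A hA => ?_
  obtain ⟨d, rfl⟩ := hop _ A (mem_filter.1 hA).1
  exact hc d

theorem pairing {γ : ℕ} (hop : ∀ s, ∀ x ∈ op s, ∃ d, cl s d = x) (hU : IsUnits cl op u pos)
    (hR : Rk cl γ) : ∃ (fB : Vec E → (ι → Z2) → Z2)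
      (fA : Vec E → (ι → Z2) → (Fin γ → Z2) → Z2) (lam : Vec E → Fin γ → Z2),
      ∀ c g, Adm (cl true) (op true) c → Adm (cl false) (op false) g →
        c ⬝ᵥ g = Tf (op true) (u true) (pos true) c
            (fun z => Tf (op false) (u false) (pos false) g (kap z)) +
          fB c (piU (op false) (u false) (pos false) g) +
          fA g (piU (op true) (u true) (pos true) c) (lam c) := by
  classical
  obtain ⟨Y, hY⟩ := hR
  let r : Bool → (ι → Z2) → Vec E := fun s π =>
    if h : ∃ v, Adm (cl s) (op s) v ∧ piU (op s) (u s) (pos s) v = π then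
      bar op u pos s h.choose else 0
  let hat : Bool → Vec E → Vec E := fun s v => bar op u pos s v + r s (piU (op s) (u s) (pos s) v)
  have hhat : ∀ s v, Adm (cl s) (op s) v → ∀ d, hat s v ⬝ᵥ st (cl s d) = 0 := fun s v hv d => by
    have h : ∃ v', Adm (cl s) (op s) v' ∧
        piU (op s) (u s) (pos s) v' = piU (op s) (u s) (pos s) v := ⟨v, hv, rfl⟩
    simp only [hat, r, dif_pos h]
    exact bar_closed hU hv h.choose_spec.1 h.choose_spec.2.symm d
  let ρ : (Fin γ → Z2) → Vec E := fun l =>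
    if h : ∃ c : Vec E, (∀ d, c ⬝ᵥ st (cl true d) = 0) ∧ (fun i => c ⬝ᵥ Y i) = l then h.choose
    else 0
  refine ⟨fun c π => c ⬝ᵥ r false π, fun g π l => (ρ l + r true π) ⬝ᵥ hat false g,
    fun c i => hat true c ⬝ᵥ Y i, fun c g hc hg => ?_⟩
  have e1 : hat true c ⬝ᵥ hat false g = ρ (fun i => hat true c ⬝ᵥ Y i) ⬝ᵥ hat false g := by
    have h : ∃ c' : Vec E, (∀ d, c' ⬝ᵥ st (cl true d) = 0) ∧
        (fun i => c' ⬝ᵥ Y i) = fun i => hat true c ⬝ᵥ Y i := ⟨_, hhat _ _ hc, rfl⟩
    simp only [ρ, dif_pos h]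
    rw [← z2_add_eq_zero, ← add_dotProduct]
    refine hY _ _ (fun d => ?_) (hhat _ _ hg) fun i => ?_
    · rw [add_dotProduct, hhat _ _ hc, h.choose_spec.1, add_zero]
    · rw [add_dotProduct, congrFun h.choose_spec.2 i, z2_add_self]
  have e2 : hat true c ⬝ᵥ hat false g = c ⬝ᵥ hat false g +
      r true (piU (op true) (u true) (pos true) c) ⬝ᵥ hat false g := by
    conv_lhs => rw [show hat true c = bar op u pos true c + _ from rfl, bar]
    rw [add_dotProduct, add_dotProduct, sum_dotProduct, sum_eq_zero, add_zero]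
    intro x _
    rw [smul_dotProduct, dotProduct_comm (pth op u pos true x),
      closed_dot_pth hop (s := true) (c := hat false g) (hhat false _ hg), smul_zero]
  have e3 : c ⬝ᵥ hat false g = c ⬝ᵥ g + Tf (op true) (u true) (pos true) c
      (fun z => Tf (op false) (u false) (pos false) g (kap z)) +
      c ⬝ᵥ r false (piU (op false) (u false) (pos false) g) := by
    conv_lhs => rw [show hat false g = bar op u pos false g + _ from rfl, bar]
    rw [dotProduct_add, dotProduct_add, dotProduct_sum]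
    congr 2
    simp only [Tf, mul_sum, dotProduct_smul, smul_eq_mul, pth, dotProduct_sum, sum_filter,
      Bool.not_false]
    rw [sum_comm]
    refine sum_congr rfl fun x _ => sum_congr rfl fun y _ => ?_
    simp only [kap]
    split_ifs <;> simp [mul_comm]
  dsimp only
  rw [add_dotProduct, ← e1, e2, e3]
  linear_combination
    -z2_add_self (Tf (op true) (u true) (pos true) c
      (fun z => Tf (op false) (u false) (pos false) g (kap z))) -
    z2_add_self (c ⬝ᵥ r false (piU (op false) (u false) (pos false) g)) -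
    z2_add_self (r true (piU (op true) (u true) (pos true) c) ⬝ᵥ hat false g)

end Pairing

end Pool.Agent.Lib.MP_234305_co.Run
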