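import Pool.Agent.Lib.MP_234305_co.H77RunA

/-!
The history of the groups of one player during a run.
-/

namespace Pool.Agent.Lib.MP_234305_co.Run

open Finset Matrix

/-- A group with its tags: the two parts, the unit and position of the two ends, the time of
birth, whether it was born by a merge, and two parities. -/
structure Rec (E ι : Type) where
  /-- first part -/
  v1 : Vec E
  /-- second part -/
  v2 : Vec E
  /-- first end -/
  z1 : ι × ℕ
  /-- second end -/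
  z2 : ι × ℕ
  /-- time of birth -/
  s : ℕ
  /-- born by a merge -/
  ev : Bool
  /-- parity of the closed pairs -/
  h : Z2
  /-- parity of the closed pairs of the first part -/
  h1 : Z2

variable {E : Type} [Fintype E] [DecidableEq E] {ι : Type} [DecidableEq ι]

/-- The group. -/
def Rec.v (α : Rec E ι) : Vec E := α.v1 + α.v2

/-- The end `z` will be merged later. -/
def die (up um : ι) (s : ℕ) (z z' : ι × ℕ) : Prop := (z.1 = up ∨ z.1 = um) ∧ z ≠ z' ∧ s < z.2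

instance (up um : ι) (s : ℕ) (z z' : ι × ℕ) : Decidable (die up um s z z') := by
  unfold die; infer_instance

/-- The group exists at time `t`. -/
def Alive (up um : ι) (t : ℕ) (α : Rec E ι) : Prop :=
  α.s ≤ t ∧ (die up um α.s α.z1 α.z2 → t < α.z1.2) ∧ (die up um α.s α.z2 α.z1 → t < α.z2.2)

instance (up um : ι) (t : ℕ) (α : Rec E ι) : Decidable (Alive up um t α) := by
  unfold Alive; infer_instance

/-- The tags describe the boundary of the group. -/
structure WF (adm : Vec E → Prop) (T : Vec E → (ι × ℕ → Z2) → Z2) (own : ℕ → Prop) (up um : ι)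
    (w l : ℕ) (α : Rec E ι) : Prop where
  a1 : adm α.v1
  a2 : adm α.v2
  p1 : α.z1.2 < w
  p2 : α.z2.2 < w
  sl : α.s ≤ l
  q1 : α.z1.1 = up ∨ α.z1.1 = um → α.s ≤ α.z1.2 ∧ (α.z1.2 = α.s → α.z1 = α.z2 ∨ α.s = l)
  q2 : α.z2.1 = up ∨ α.z2.1 = um → α.s ≤ α.z2.2 ∧ (α.z2.2 = α.s → α.z1 = α.z2 ∨ α.s = l)
  tv : ∃ m : ℕ → Z2, (∀ j, α.s < j → m j = 0) ∧ ∑ j ∈ range w, m j = α.h ∧
    ∀ ψ, T α.v ψ = ψ α.z1 + ψ α.z2 + Pr up um w m ψ
  e0 : α.ev = false → α.s = 0
  e1 : α.ev = true → 1 ≤ α.s ∧ own α.s ∧ ∃ m : ℕ → Z2, (∀ j, α.s ≤ j → m j = 0) ∧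
    ∑ j ∈ range w, m j = α.h1 ∧ ∀ ψ, T α.v1 ψ = ψ α.z1 + ψ (up, α.s) + Pr up um w m ψ

/-- Indicator of a point. -/
def dl (y z : ι × ℕ) : Z2 := if z = y then 1 else 0

theorem Pr_dl (up um : ι) (w : ℕ) (m : ℕ → Z2) (y : ι × ℕ) (h : m y.2 = 0) :
    Pr up um w m (dl y) = 0 := by
  refine sum_eq_zero fun j _ => ?_
  by_cases hj : j = y.2
  · rw [hj, h, zero_mul]
  · have : ∀ i, (i, j) ≠ y := fun i e => hj (by rw [← e])
    simp [dl, this]

section
variable {adm : Vec E → Prop} {T : Vec E → (ι × ℕ → Z2) → Z2} {own : ℕ → Prop} {up um : ι}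
  {w l t : ℕ} {α : Rec E ι}

omit [Fintype E] [DecidableEq E] in
theorem WF.odd_iff (h : WF adm T own up um w l α) (ht : α.s ≤ t) (i : ι) :
    T α.v (dl (i, t + 1)) = 1 ↔ α.z1 ≠ α.z2 ∧ (α.z1 = (i, t + 1) ∨ α.z2 = (i, t + 1)) := by
  obtain ⟨m, h1, -, h2⟩ := h.tv
  rw [h2, Pr_dl _ _ _ _ _ (h1 _ (Nat.lt_succ_of_le ht)), add_zero]
  by_cases a : α.z1 = (i, t + 1) <;> by_cases b : α.z2 = (i, t + 1) <;> simp [dl, a, b]
  exact fun e => b e.symm

omit [Fintype E] [DecidableEq E] in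
theorem WF.dies_iff (h : WF adm T own up um w l α) (ha : Alive up um t α) :
    ¬Alive up um (t + 1) α ↔ T α.v (dl (up, t + 1)) = 1 ∨ T α.v (dl (um, t + 1)) = 1 := by
  obtain ⟨a0, a1, a2⟩ := ha
  rw [h.odd_iff a0, h.odd_iff a0]
  constructor
  · intro hn
    by_cases c1 : die up um α.s α.z1 α.z2 ∧ ¬t + 1 < α.z1.2
    · have e : α.z1.2 = t + 1 := by have := a1 c1.1; omega
      rcases c1.1.1 with b | b
      · exact Or.inl ⟨c1.1.2.1, Or.inl (Prod.ext b e)⟩
      · exact Or.inr ⟨c1.1.2.1, Or.inl (Prod.ext b e)⟩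
    · by_cases c2 : die up um α.s α.z2 α.z1 ∧ ¬t + 1 < α.z2.2
      · have e : α.z2.2 = t + 1 := by have := a2 c2.1; omega
        rcases c2.1.1 with b | b
        · exact Or.inl ⟨c2.1.2.1.symm, Or.inr (Prod.ext b e)⟩
        · exact Or.inr ⟨c2.1.2.1.symm, Or.inr (Prod.ext b e)⟩
      · exact (hn ⟨by omega, by tauto, by tauto⟩).elim
  · rintro (⟨b, c | c⟩ | ⟨b, c | c⟩) ⟨-, d1, d2⟩
    · have := d1 ⟨by simp [c], b, by simp [c]; omega⟩
      simp [c] at this
    · have := d2 ⟨by simp [c], b.symm, by simp [c]; omega⟩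
      simp [c] at this
    · have := d1 ⟨by simp [c], b, by simp [c]; omega⟩
      simp [c] at this
    · have := d2 ⟨by simp [c], b.symm, by simp [c]; omega⟩
      simp [c] at this

omit [Fintype E] [DecidableEq E] in
theorem WF.other (h : WF adm T own up um w l α) (ha : Alive up um t α) (hl : t < l) {i : ι}
    (ho : T α.v (dl (i, t + 1)) = 1) : ∃ (z : ι × ℕ) (m : ℕ → Z2), z.2 < w ∧ z ≠ (i, t + 1) ∧
      (z.1 = up ∨ z.1 = um → t + 1 ≤ z.2) ∧ (∀ j, t + 1 ≤ j → m j = 0) ∧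
      ∀ ψ, T α.v ψ = ψ z + ψ (i, t + 1) + Pr up um w m ψ := by
  obtain ⟨a0, a1, a2⟩ := ha
  obtain ⟨b, c⟩ := (h.odd_iff a0 i).1 ho
  obtain ⟨m, h1, -, h2⟩ := h.tv
  rcases c with c | c
  · refine ⟨α.z2, m, h.p2, fun e => b (c.trans e.symm), fun hz => ?_,
      fun j hj => h1 j (by omega), fun ψ => by rw [h2, c, add_comm (ψ _)]⟩
    obtain ⟨q, q'⟩ := h.q2 hz
    rcases q.eq_or_lt with e | e
    · rcases q' e.symm with e' | e'
      · exact (b e').elim
      · omega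
    · exact a2 ⟨hz, b.symm, e⟩
  · refine ⟨α.z1, m, h.p1, fun e => b (e.trans c.symm), fun hz => ?_,
      fun j hj => h1 j (by omega), fun ψ => by rw [h2, c]⟩
    obtain ⟨q, q'⟩ := h.q1 hz
    rcases q.eq_or_lt with e | e
    · rcases q' e.symm with e' | e'
      · exact (b e').elim
      · omega
    · exact a1 ⟨hz, b, e⟩

omit [Fintype E] [DecidableEq E] [DecidableEq ι] in
theorem exists_rec (hT : ∀ v v' ψ, T (v + v') ψ = T v ψ + T v' ψ) {v1 v2 : Vec E}
    {z1 z2 : ι × ℕ} {m1 m2 : ℕ → Z2} {s : ℕ} (hw : l < w) (hs : 1 ≤ s) (hl : s ≤ l) (ho : own s)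
    (a1 : adm v1) (a2 : adm v2) (p1 : z1.2 < w) (p2 : z2.2 < w)
    (q1 : z1.1 = up ∨ z1.1 = um → s ≤ z1.2 ∧ (z1.2 = s → z1 = z2 ∨ s = l))
    (q2 : z2.1 = up ∨ z2.1 = um → s ≤ z2.2 ∧ (z2.2 = s → z1 = z2 ∨ s = l))
    (n1 : ∀ j, s ≤ j → m1 j = 0) (n2 : ∀ j, s ≤ j → m2 j = 0)
    (t1 : ∀ ψ, T v1 ψ = ψ z1 + ψ (up, s) + Pr up um w m1 ψ)
    (t2 : ∀ ψ, T v2 ψ = ψ z2 + ψ (um, s) + Pr up um w m2 ψ) :
    ∃ α : Rec E ι, WF adm T own up um w l α ∧ α.v1 = v1 ∧ α.v2 = v2 ∧ α.s = s ∧ α.ev = true := by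
  refine ⟨⟨v1, v2, z1, z2, s, true, ∑ j ∈ range w, (m1 + m2 + Pi.single s 1 : ℕ → Z2) j,
    ∑ j ∈ range w, m1 j⟩, ⟨a1, a2, p1, p2, hl, q1, q2, ⟨m1 + m2 + Pi.single s 1, fun j hj => ?_,
      rfl, fun ψ => ?_⟩, by simp, fun _ => ⟨hs, ho, m1, n1, rfl, t1⟩⟩, rfl, rfl, rfl, rfl⟩
  · have hj' : s < j := hj
    simp [n1 j hj'.le, n2 j hj'.le, Pi.single_eq_of_ne hj'.ne']
  · rw [Pr_add, Pr_add, Pr_single _ _ (by omega)]
    simp only [Rec.v]
    rw [hT, t1, t2]
    ring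

end

/-- A chain with two ends. -/
def Two (cl : Dart E → Finset (Dart E)) (c : Vec E) : Prop :=
  ∃ a b, ∀ d, c ⬝ᵥ st (cl d) = iz (cl d = cl a) + iz (cl d = cl b)

theorem Two.odd {cl : Dart E → Finset (Dart E)} {c : Vec E} (h : Two cl c) {d₀ : Dart E}
    (ho : c ⬝ᵥ st (cl d₀) = 1) :
    ∃ a, ∀ d, c ⬝ᵥ st (cl d) = iz (cl d = cl a) + iz (cl d = cl d₀) := by
  obtain ⟨a, b, h⟩ := h
  by_cases h1 : cl d₀ = cl a
  · exact ⟨b, fun d => by rw [h, h1, add_comm]⟩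
  · by_cases h2 : cl d₀ = cl b
    · exact ⟨a, fun d => by rw [h, h2]⟩
    · rw [h, iz_neg h1, iz_neg h2] at ho
      simp at ho

theorem Two.add {cl : Dart E → Finset (Dart E)} {c c' : Vec E} (h : Two cl c) (h' : Two cl c')
    {d₀ : Dart E} (ho : c ⬝ᵥ st (cl d₀) = 1) (ho' : c' ⬝ᵥ st (cl d₀) = 1) : Two cl (c + c') := by
  obtain ⟨a, h⟩ := h.odd ho
  obtain ⟨b, h'⟩ := h'.odd ho'
  refine ⟨a, b, fun d => ?_⟩
  rw [add_dotProduct, h, h']
  linear_combination z2_add_self (iz (cl d = cl d₀))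

omit [DecidableEq E] in
theorem sum_dot_eq_zero {X : Multiset (Vec E)} {y : Vec E} (h : ∀ c ∈ X, c ⬝ᵥ y = 0) :
    X.sum ⬝ᵥ y = 0 :=
  Multiset.sum_induction (fun c => c ⬝ᵥ y = 0) X
    (fun a b ha hb => by rw [add_dotProduct, ha, hb, add_zero]) (zero_dotProduct _) h

omit [DecidableEq E] in
theorem count_merge (X D : Multiset (Vec E)) (y : Vec E) :
    (D.sum ::ₘ X).countP (fun c => c ⬝ᵥ y = 1) ≤ (X + D).countP fun c => c ⬝ᵥ y = 1 := by
  rw [Multiset.countP_cons, Multiset.countP_add, Nat.add_le_add_iff_left]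
  split_ifs with h
  · rw [Nat.one_le_iff_ne_zero, Ne, Multiset.countP_eq_zero]
    intro h'
    rw [sum_dot_eq_zero fun c hc => (z2_cases _).resolve_right (h' c hc)] at h
    exact zero_ne_one h
  · exact Nat.zero_le _

omit [Fintype E] [DecidableEq E] in
theorem sub_merge (X D : Multiset (Vec E)) : Sub (D.sum ::ₘ X) (X + D) := by
  refine ⟨by simp [add_comm], fun e he c hc => ?_⟩
  rcases Multiset.mem_cons.1 hc with rfl | hc
  · exact Multiset.sum_induction (fun c : Vec E => c e = 0) D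
      (fun a b ha hb => by simp [ha, hb]) rfl fun c hc => he c (Multiset.mem_add.2 (Or.inr hc))
  · exact he c (Multiset.mem_add.2 (Or.inl hc))

/-- The invariant of the groups at time `t`. -/
structure Inv (cl cl' : Dart E → Finset (Dart E)) (own : ℕ → Prop) (ap am : ℕ → Finset (Dart E))
    (P : Multiset (Vec E)) (t : ℕ) (X : Multiset (Vec E)) : Prop where
  two : ∀ c ∈ X, Two cl' c
  cnt : ∀ d, X.countP (fun c => c ⬝ᵥ st (cl d) = 1) ≤ 1
  cnt' : ∀ j ∈ Icc 1 t, own j → X.countP (fun c => c ⬝ᵥ (st (ap j) + st (am j)) = 1) ≤ 1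
  sub : Sub X P

/-- The groups at time `t`. -/
def Al (up um : ι) (H : Multiset (Rec E ι)) (t : ℕ) : Multiset (Vec E) :=
  (H.filter (Alive up um t)).map Rec.v

/-- A history up to time `t`. -/
structure Hist (cl cl' : Dart E → Finset (Dart E)) (adm : Vec E → Prop)
    (T : Vec E → (ι × ℕ → Z2) → Z2) (own : ℕ → Prop) (ap am : ℕ → Finset (Dart E)) (up um : ι)
    (w l : ℕ) (P : Multiset (Vec E)) (t : ℕ) (H : Multiset (Rec E ι)) : Prop where
  wf : ∀ α ∈ H, WF adm T own up um w l α ∧ α.s ≤ t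
  init : Al up um H 0 = P
  inv : Inv cl cl' own ap am P t (Al up um H t)
  dec : ∀ j ∈ Icc 1 t, ∀ φ : Vec E → ℝ, φ 0 = 0 →
    ((Al up um H (j - 1)).map φ).sum - ((Al up um H j).map φ).sum =
      ((H.filter fun α => α.ev = true ∧ α.s = j).map fun α => φ α.v1 + φ α.v2 - φ α.v).sum

section
variable {cl cl' : Dart E → Finset (Dart E)} {adm : Vec E → Prop}
  {T : Vec E → (ι × ℕ → Z2) → Z2} {own : ℕ → Prop} {ap am : ℕ → Finset (Dart E)} {up um : ι}
  {w l t : ℕ} {P : Multiset (Vec E)} {H : Multiset (Rec E ι)}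

omit [Fintype E] [DecidableEq E] [DecidableEq ι] in
theorem Alive.pred {α : Rec E ι} (h : Alive up um (t + 1) α) (hs : α.s ≤ t) : Alive up um t α :=
  ⟨hs, fun a => by have := h.2.1 a; omega, fun a => by have := h.2.2 a; omega⟩

theorem Hist.split (h : Hist cl cl' adm T own ap am up um w l P t H) :
    Al up um H t = Al up um H (t + 1) +
      (H.filter fun α => Alive up um t α ∧ ¬Alive up um (t + 1) α).map Rec.v := by
  rw [Al, Al, ← Multiset.map_add, ← Multiset.filter_add_not (Alive up um (t + 1))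
    (H.filter (Alive up um t)), Multiset.filter_filter, Multiset.filter_filter]
  congr 2
  · exact Multiset.filter_congr fun α hα => ⟨fun a => a.1, fun a => ⟨a, a.pred (h.wf α hα).2⟩⟩
  · exact Multiset.filter_congr fun α _ => and_comm

theorem Hist.no_event (h : Hist cl cl' adm T own ap am up um w l P t H) :
    (H.filter fun α => α.ev = true ∧ α.s = t + 1) = 0 :=
  Multiset.filter_eq_nil.2 fun α hα e => by have := (h.wf α hα).2; omega

theorem Hist.even (h : Hist cl cl' adm T own ap am up um w l P t H)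
    (hy : own (t + 1) → ∀ v, T v (dl (up, t + 1)) + T v (dl (um, t + 1)) =
      v ⬝ᵥ (st (ap (t + 1)) + st (am (t + 1)))) (ho : own (t + 1)) :
    ∀ c ∈ Al up um H (t + 1), c ⬝ᵥ (st (ap (t + 1)) + st (am (t + 1))) = 0 := by
  intro c hc
  obtain ⟨α, hα, rfl⟩ := Multiset.mem_map.1 hc
  obtain ⟨h1, h2⟩ := Multiset.mem_filter.1 hα
  have := mt ((h.wf α h1).1.dies_iff (h2.pred (h.wf α h1).2)).2 (not_not.2 h2)
  rw [not_or] at this
  rw [← hy ho, (z2_cases _).resolve_right this.1, (z2_cases _).resolve_right this.2, add_zero]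

theorem Hist.keep (h : Hist cl cl' adm T own ap am up um w l P t H)
    (hy : own (t + 1) → ∀ v, T v (dl (up, t + 1)) + T v (dl (um, t + 1)) =
      v ⬝ᵥ (st (ap (t + 1)) + st (am (t + 1))))
    (hD : (H.filter fun α => Alive up um t α ∧ ¬Alive up um (t + 1) α) = 0) :
    Hist cl cl' adm T own ap am up um w l P (t + 1) H := by
  have e : Al up um H t = Al up um H (t + 1) := by rw [h.split, hD]; simp
  refine ⟨fun α hα => ⟨(h.wf α hα).1, (h.wf α hα).2.trans (Nat.le_succ _)⟩, h.init,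
    ⟨e ▸ h.inv.two, e ▸ h.inv.cnt, fun j hj ho => ?_, e ▸ h.inv.sub⟩, fun j hj φ hφ => ?_⟩
  · rw [mem_Icc] at hj
    rcases hj.2.eq_or_lt with rfl | hlt
    · rw [Multiset.countP_eq_zero.2 fun c hc e => by
        rw [h.even hy ho c hc] at e; exact zero_ne_one e]
      exact Nat.zero_le _
    · exact e ▸ h.inv.cnt' j (mem_Icc.2 ⟨hj.1, by omega⟩) ho
  · rw [mem_Icc] at hj
    rcases hj.2.eq_or_lt with rfl | hlt
    · rw [h.no_event, Nat.add_sub_cancel, e]; simp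
    · exact h.dec j (mem_Icc.2 ⟨hj.1, by omega⟩) φ hφ

theorem Hist.merge (h : Hist cl cl' adm T own ap am up um w l P t H)
    (hy : own (t + 1) → ∀ v, T v (dl (up, t + 1)) + T v (dl (um, t + 1)) =
      v ⬝ᵥ (st (ap (t + 1)) + st (am (t + 1)))) {α : Rec E ι}
    (hα : WF adm T own up um w l α) (hs : α.s = t + 1) (he : α.ev = true) (h2 : Two cl' α.v)
    {D : Multiset (Vec E)}
    (hD : (H.filter fun α => Alive up um t α ∧ ¬Alive up um (t + 1) α).map Rec.v = D)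
    (hD1 : D.sum = α.v) (hD2 : ∀ φ : Vec E → ℝ, φ 0 = 0 → (D.map φ).sum = φ α.v1 + φ α.v2) :
    Hist cl cl' adm T own ap am up um w l P (t + 1) (α ::ₘ H) := by
  have e : Al up um H t = Al up um H (t + 1) + D := by rw [h.split, hD]
  have e1 : ∀ j ≤ t, Al up um (α ::ₘ H) j = Al up um H j := fun j hj => by
    rw [Al, Multiset.filter_cons_of_neg _ fun a => by have := a.1; omega, Al]
  have e2 : Al up um (α ::ₘ H) (t + 1) = D.sum ::ₘ Al up um H (t + 1) := by
    rw [Al, Multiset.filter_cons_of_pos _ ⟨hs.le, fun a => hs ▸ a.2.2, fun a => hs ▸ a.2.2⟩,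
      Multiset.map_cons, hD1, Al]
  refine ⟨fun β hβ => ?_, by rw [e1 0 (Nat.zero_le _), h.init], ?_, fun j hj φ hφ => ?_⟩
  · rcases Multiset.mem_cons.1 hβ with rfl | hβ
    · exact ⟨hα, hs.le⟩
    · exact ⟨(h.wf β hβ).1, (h.wf β hβ).2.trans (Nat.le_succ _)⟩
  · rw [e2]
    refine ⟨fun c hc => ?_, fun d => (count_merge _ _ _).trans (e ▸ h.inv.cnt d),
      fun j hj ho => ?_, (sub_merge _ _).trans (e ▸ h.inv.sub)⟩
    · rcases Multiset.mem_cons.1 hc with rfl | hc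
      · exact hD1 ▸ h2
      · exact h.inv.two c (e ▸ Multiset.mem_add.2 (Or.inl hc))
    · rw [mem_Icc] at hj
      rcases hj.2.eq_or_lt with rfl | hlt
      · rw [Multiset.countP_cons, Multiset.countP_eq_zero.2 fun c hc e => by
          rw [h.even hy ho c hc] at e; exact zero_ne_one e]
        split_ifs <;> simp
      · exact (count_merge _ _ _).trans (e ▸ h.inv.cnt' j (mem_Icc.2 ⟨hj.1, by omega⟩) ho)
  · rw [mem_Icc] at hj
    rcases hj.2.eq_or_lt with rfl | hlt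
    · rw [Multiset.filter_cons_of_pos _ ⟨he, hs⟩, h.no_event, Nat.add_sub_cancel, e1 t le_rfl, e2,
        e, hD1]
      simp [hD2 φ hφ]
      ring
    · rw [Multiset.filter_cons_of_neg _ fun a => by have := a.2; omega, e1 j (by omega),
        e1 (j - 1) (by omega)]
      exact h.dec j (mem_Icc.2 ⟨hj.1, by omega⟩) φ hφ

end

end Pool.Agent.Lib.MP_234305_co.Run
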