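import Pool.Agent.Lib.MP_234305_co.H77RunB

/-!
Existence of the history of one player.
-/

namespace Pool.Agent.Lib.MP_234305_co.Run

open Finset Matrix

variable {E : Type} [Fintype E] [DecidableEq E] {ι : Type} [DecidableEq ι]
  {cl cl' : Dart E → Finset (Dart E)} {adm : Vec E → Prop}
  {T : Vec E → (ι × ℕ → Z2) → Z2} {own : ℕ → Prop} {ap am : ℕ → Finset (Dart E)} {up um : ι}
  {w l t : ℕ} {P : Multiset (Vec E)} {H : Multiset (Rec E ι)}

theorem card_le_one_cases {α : Type*} {X : Multiset α} (h : X.card ≤ 1) :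
    X = 0 ∨ ∃ a, X = {a} := by
  rcases Nat.le_one_iff_eq_zero_or_eq_one.1 h with h | h
  · exact Or.inl (Multiset.card_eq_zero.1 h)
  · exact Or.inr (Multiset.card_eq_one.1 h)

theorem dl_self (z : ι × ℕ) : dl z z = 1 := by simp [dl]

theorem dl_ne {y z : ι × ℕ} (h : z ≠ y) : dl y z = 0 := by simp [dl, h]

theorem Hist.step (h : Hist cl cl' adm T own ap am up um w l P t H) (hl : t < l) (hw : l < w)
    (hne : up ≠ um) (hT : ∀ v v' ψ, T (v + v') ψ = T v ψ + T v' ψ) (hT0 : ∀ ψ, T 0 ψ = 0)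
    (ha0 : adm 0) (ha : ∀ v v', adm v → adm v' → adm (v + v'))
    (hown : own (t + 1) → ∃ dp dm, cl dp = ap (t + 1) ∧ cl dm = am (t + 1) ∧
      st (cl' dp) = st (ap (t + 1)) + st (am (t + 1)) ∧
      ∀ v, T v (dl (up, t + 1)) = v ⬝ᵥ st (ap (t + 1)) ∧
        T v (dl (um, t + 1)) = v ⬝ᵥ st (am (t + 1)))
    (hnot : ¬own (t + 1) → ∀ v, T v (dl (up, t + 1)) = 0 ∧ T v (dl (um, t + 1)) = 0)
    (hcl : own (t + 1) → t + 1 < l → P.sum ⬝ᵥ (st (ap (t + 1)) + st (am (t + 1))) = 0) :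
    ∃ H', Hist cl cl' adm T own ap am up um w l P (t + 1) H' := by
  have hy : own (t + 1) → ∀ v, T v (dl (up, t + 1)) + T v (dl (um, t + 1)) =
      v ⬝ᵥ (st (ap (t + 1)) + st (am (t + 1))) := fun ho v => by
    obtain ⟨dp, dm, -, -, -, h⟩ := hown ho
    rw [(h v).1, (h v).2, dotProduct_add]
  by_cases ho : own (t + 1)
  swap
  · refine ⟨H, h.keep hy (Multiset.filter_eq_nil.2 fun α hα e => ?_)⟩
    have := ((h.wf α hα).1.dies_iff e.1).1 e.2
    rw [(hnot ho _).1, (hnot ho _).2] at this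
    simp at this
  obtain ⟨dp, dm, e1, e2, e3, e4⟩ := hown ho
  obtain ⟨L, hL⟩ : ∃ L, L = H.filter (Alive up um t) := ⟨_, rfl⟩
  have hmem : ∀ α ∈ L, WF adm T own up um w l α ∧ Alive up um t α ∧ Two cl' α.v ∧ adm α.v :=
    fun α hα => by
      rw [hL] at hα
      obtain ⟨a, b⟩ := Multiset.mem_filter.1 hα
      exact ⟨(h.wf α a).1, b, h.inv.two _ (Multiset.mem_map_of_mem _ hα),
        ha _ _ (h.wf α a).1.a1 (h.wf α a).1.a2⟩
  have c1 : (L.filter fun α => T α.v (dl (up, t + 1)) = 1).card ≤ 1 := by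
    have := h.inv.cnt dp
    rw [Al, ← hL, Multiset.countP_map, e1] at this
    simpa only [(e4 _).1] using this
  have c2 : (L.filter fun α => T α.v (dl (um, t + 1)) = 1).card ≤ 1 := by
    have := h.inv.cnt dm
    rw [Al, ← hL, Multiset.countP_map, e2] at this
    simpa only [(e4 _).2] using this
  have hD : (H.filter fun α => Alive up um t α ∧ ¬Alive up um (t + 1) α) =
      (L.filter fun α => T α.v (dl (up, t + 1)) = 1) +
      L.filter fun α => T α.v (dl (um, t + 1)) = 1 ∧ ¬T α.v (dl (up, t + 1)) = 1 := by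
    have : (H.filter fun α => Alive up um t α ∧ ¬Alive up um (t + 1) α) = L.filter
        fun α => T α.v (dl (up, t + 1)) = 1 ∨ T α.v (dl (um, t + 1)) = 1 := by
      rw [hL, Multiset.filter_filter]
      exact Multiset.filter_congr fun α hα =>
        ⟨fun a => ⟨((h.wf α hα).1.dies_iff a.1).1 a.2, a.1⟩,
          fun a => ⟨a.2, ((h.wf α hα).1.dies_iff a.2).2 a.1⟩⟩
    rw [this, ← Multiset.filter_add_not (fun α => T α.v (dl (up, t + 1)) = 1) (L.filter _),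
      Multiset.filter_filter, Multiset.filter_filter]
    congr 1
    · exact Multiset.filter_congr fun α _ => ⟨fun a => a.1, fun a => ⟨a, Or.inl a⟩⟩
    · exact Multiset.filter_congr fun α _ =>
        ⟨fun a => ⟨a.2.resolve_left a.1, a.1⟩, fun a => ⟨a.2, Or.inr a.1⟩⟩
  have c3 : (L.filter fun α =>
      T α.v (dl (um, t + 1)) = 1 ∧ ¬T α.v (dl (up, t + 1)) = 1).card ≤ 1 :=
    (Multiset.card_le_card (Multiset.monotone_filter_right L fun _ h => h.1)).trans c2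
  have hlast : ∀ α : Rec E ι,
      (H.filter fun α => Alive up um t α ∧ ¬Alive up um (t + 1) α) = {α} →
      T α.v (dl (up, t + 1)) + T α.v (dl (um, t + 1)) = 1 → t + 1 = l := by
    intro α h1 h2
    by_contra hc
    have := hcl ho (by omega)
    rw [← h.inv.sub.1, h.split, h1, Multiset.sum_add, add_dotProduct,
      sum_dot_eq_zero (h.even hy ho), zero_add, Multiset.map_singleton, Multiset.sum_singleton,
      ← hy ho, h2] at this
    exact one_ne_zero this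
  have z1 : ∀ ψ : ι × ℕ → Z2, ∀ z, T 0 ψ = ψ z + ψ z + Pr up um w 0 ψ := fun ψ z => by
    rw [hT0, z2_add_self, Pr_zero, add_zero]
  have hw' : t + 1 < w := by omega
  rcases card_le_one_cases c1 with f1 | ⟨α, f1⟩ <;> rcases card_le_one_cases c3 with f2 | ⟨β, f2⟩
  · exact ⟨H, h.keep hy (by rw [hD, f1, f2, add_zero])⟩
  · obtain ⟨m1, m2, m3⟩ := Multiset.mem_filter.1 (f2 ▸ Multiset.mem_singleton_self β)
    obtain ⟨w1, w2, w3, w4⟩ := hmem β m1
    rw [f1, f2, zero_add] at hD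
    have hl' := hlast β hD (by rw [m2, (z2_cases _).resolve_right m3, zero_add])
    obtain ⟨z, m, o1, o2, o3, o4, o5⟩ := w1.other w2 hl m2
    obtain ⟨γ, g1, g2, g3, g4, g5⟩ := exists_rec (own := own) hT hw (Nat.succ_pos t) hl ho ha0 w4
      (z1 := (up, t + 1)) hw' o1 (fun _ => ⟨le_rfl, fun _ => Or.inr hl'⟩)
      (fun a => ⟨o3 a, fun _ => Or.inr hl'⟩) (fun _ _ => rfl) o4 (fun ψ => z1 ψ _) o5
    have g6 : γ.v = β.v := by rw [Rec.v, g2, g3, zero_add]
    exact ⟨_, h.merge hy g1 g4 g5 (g6 ▸ w3) (D := {β.v}) (by rw [hD]; rfl) (by simp [g6])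
      fun φ hφ => by simp [g2, g3, hφ]⟩
  · obtain ⟨m1, m2⟩ := Multiset.mem_filter.1 (f1 ▸ Multiset.mem_singleton_self α)
    obtain ⟨w1, w2, w3, w4⟩ := hmem α m1
    rw [f1, f2, add_zero] at hD
    obtain ⟨z, m, o1, o2, o3, o4, o5⟩ := w1.other w2 hl m2
    have hq : z = (um, t + 1) ∨ t + 1 = l := by
      by_contra hc
      rw [not_or] at hc
      refine hc.2 (hlast α hD ?_)
      rw [m2, o5, dl_ne hc.1, dl_ne (by simp [hne]), Pr_dl _ _ _ _ _ (o4 _ le_rfl)]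
      simp
    obtain ⟨γ, g1, g2, g3, g4, g5⟩ := exists_rec (own := own) hT hw (Nat.succ_pos t) hl ho w4 ha0
      (z2 := (um, t + 1)) o1 hw' (fun a => ⟨o3 a, fun _ => hq⟩)
      (fun _ => ⟨le_rfl, fun _ => hq⟩) o4 (fun _ _ => rfl) o5 (fun ψ => z1 ψ _)
    have g6 : γ.v = α.v := by rw [Rec.v, g2, g3, add_zero]
    exact ⟨_, h.merge hy g1 g4 g5 (g6 ▸ w3) (D := {α.v}) (by rw [hD]; rfl) (by simp [g6])
      fun φ hφ => by simp [g2, g3, hφ]⟩
  · obtain ⟨m1, m2⟩ := Multiset.mem_filter.1 (f1 ▸ Multiset.mem_singleton_self α)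
    obtain ⟨w1, w2, w3, w4⟩ := hmem α m1
    obtain ⟨n1, n2, n3⟩ := Multiset.mem_filter.1 (f2 ▸ Multiset.mem_singleton_self β)
    obtain ⟨x1, x2, x3, x4⟩ := hmem β n1
    rw [f1, f2] at hD
    have m3 : ¬T α.v (dl (um, t + 1)) = 1 := by
      intro m3
      have := (Multiset.filter_add_not (fun α => T α.v (dl (up, t + 1)) = 1)
        (L.filter fun α => T α.v (dl (um, t + 1)) = 1))
      rw [← this, Multiset.card_add, Multiset.filter_filter, Multiset.filter_filter] at c2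
      have i1 : 0 < (L.filter fun α => T α.v (dl (up, t + 1)) = 1 ∧
          T α.v (dl (um, t + 1)) = 1).card :=
        Multiset.card_pos_iff_exists_mem.2 ⟨α, Multiset.mem_filter.2 ⟨m1, m2, m3⟩⟩
      have i2 : 0 < (L.filter fun α => ¬T α.v (dl (up, t + 1)) = 1 ∧
          T α.v (dl (um, t + 1)) = 1).card :=
        Multiset.card_pos_iff_exists_mem.2 ⟨β, Multiset.mem_filter.2 ⟨n1, n3, n2⟩⟩
      omega
    obtain ⟨z, m, o1, o2, o3, o4, o5⟩ := w1.other w2 hl m2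
    obtain ⟨z', m', r1, r2, r3, r4, r5⟩ := x1.other x2 hl n2
    have k1 : z.1 = up ∨ z.1 = um → z.2 ≠ t + 1 := by
      rintro (a | a) b
      · exact o2 (Prod.ext a b)
      · refine m3 ?_
        rw [o5, show z = (um, t + 1) from Prod.ext a b, dl_self, dl_ne (by simp [hne]),
          Pr_dl _ _ _ _ _ (o4 _ le_rfl)]
        simp
    have k2 : z'.1 = up ∨ z'.1 = um → z'.2 ≠ t + 1 := by
      rintro (a | a) b
      · refine n3 ?_
        rw [r5, show z' = (up, t + 1) from Prod.ext a b, dl_self, dl_ne (by simp [hne.symm]),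
          Pr_dl _ _ _ _ _ (r4 _ le_rfl)]
        simp
      · exact r2 (Prod.ext a b)
    obtain ⟨γ, g1, g2, g3, g4, g5⟩ := exists_rec (own := own) hT hw (Nat.succ_pos t) hl ho w4 x4
      o1 r1 (fun a => ⟨o3 a, fun b => (k1 a b).elim⟩) (fun a => ⟨r3 a, fun b => (k2 a b).elim⟩)
      o4 r4 o5 r5
    have g6 : γ.v = α.v + β.v := by rw [Rec.v, g2, g3]
    refine ⟨_, h.merge hy g1 g4 g5 (g6 ▸ w3.add x3 (d₀ := dp) ?_ ?_) (D := {α.v} + {β.v})
      (by rw [hD]; rfl) (by simp [g6]) fun φ _ => by simp [g2, g3]⟩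
    · rw [e3, ← hy ho, m2, (z2_cases _).resolve_right m3, add_zero]
    · rw [e3, ← hy ho, n2, (z2_cases _).resolve_right n3, zero_add]

theorem Hist.start (ha0 : adm 0) (h1 : ∀ c ∈ P, Two cl' c)
    (h2 : ∀ d, P.countP (fun c => c ⬝ᵥ st (cl d) = 1) ≤ 1)
    (h3 : ∀ c ∈ P, adm c ∧ ∃ z1 z2 : ι × ℕ, z1.2 < w ∧ z2.2 < w ∧
      (z1.2 = 0 → z1.1 = up ∨ z1.1 = um → z1 = z2) ∧ (z2.2 = 0 → z2.1 = up ∨ z2.1 = um → z1 = z2) ∧
      ∀ ψ, T c ψ = ψ z1 + ψ z2) :
    ∃ H, Hist cl cl' adm T own ap am up um w l P 0 H := by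
  have key : ∀ c ∈ P, ∃ α : Rec E ι, WF adm T own up um w l α ∧ α.s = 0 ∧ α.v = c := by
    intro c hc
    obtain ⟨a, z1, z2, b1, b2, b3, b4, b5⟩ := h3 c hc
    refine ⟨⟨0, c, z1, z2, 0, false, 0, 0⟩, ⟨ha0, a, b1, b2, Nat.zero_le _,
      fun x => ⟨Nat.zero_le _, fun y => Or.inl (b3 y x)⟩,
      fun x => ⟨Nat.zero_le _, fun y => Or.inl (b4 y x)⟩, ⟨0, fun _ _ => rfl, by simp,
        fun ψ => ?_⟩, fun _ => rfl, by simp⟩, rfl, zero_add _⟩
    simp [Rec.v, b5, Pr_zero]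
  have : Nonempty (Rec E ι) := ⟨⟨0, 0, (up, 0), (up, 0), 0, false, 0, 0⟩⟩
  choose! f hf using key
  have e : Al up um (P.map f) 0 = P := by
    rw [Al, Multiset.filter_eq_self.2, Multiset.map_map]
    · exact (Multiset.map_congr rfl fun c hc => (hf c hc).2.2).trans (Multiset.map_id' P)
    intro α hα
    obtain ⟨c, hc, rfl⟩ := Multiset.mem_map.1 hα
    have := (hf c hc).2.1
    exact ⟨this.le, fun a => this ▸ a.2.2, fun a => this ▸ a.2.2⟩
  refine ⟨P.map f, fun α hα => ?_, e, ⟨e.symm ▸ h1, e.symm ▸ h2, by simp, e.symm ▸ Sub.refl P⟩,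
    by simp⟩
  obtain ⟨c, hc, rfl⟩ := Multiset.mem_map.1 hα
  exact ⟨(hf c hc).1, (hf c hc).2.1.le⟩

omit [DecidableEq E] in
theorem even_of_count {X : Multiset (Vec E)} {y : Vec E}
    (h1 : X.countP (fun c => c ⬝ᵥ y = 1) ≤ 1) (h2 : X.sum ⬝ᵥ y = 0) : ∀ c ∈ X, c ⬝ᵥ y = 0 := by
  intro c hc
  obtain ⟨X, rfl⟩ := Multiset.exists_cons_of_mem hc
  refine (z2_cases _).resolve_right fun h => ?_
  rw [Multiset.countP_cons_of_pos (p := fun c => c ⬝ᵥ y = 1) _ h] at h1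
  have h3 := Multiset.countP_eq_zero.1 (Nat.le_zero.1 (Nat.le_of_succ_le_succ h1))
  rw [Multiset.sum_cons, add_dotProduct, h,
    sum_dot_eq_zero fun c hc => (z2_cases _).resolve_right (h3 c hc)] at h2
  simp at h2

theorem dot_st_classes (hcl : IsCl cl) {A : Finset (Dart E)} (hA : ∀ d ∈ A, cl d ⊆ A)
    (c : Vec E) : c ⬝ᵥ st A = ∑ X ∈ A.image cl, c ⬝ᵥ st X := by
  rw [dot_st, ← sum_fiberwise_of_maps_to (g := cl) (t := A.image cl)
    fun d hd => mem_image_of_mem _ hd]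
  refine sum_congr rfl fun X hX => ?_
  obtain ⟨d, hd, rfl⟩ := mem_image.1 hX
  rw [dot_st]
  refine sum_congr ?_ fun _ _ => rfl
  ext d'
  simp only [mem_filter]
  exact ⟨fun h => h.2 ▸ hcl.1 d', fun h => ⟨hA d hd h, hcl.2 _ _ h⟩⟩

theorem Two.coarsen (hcl : IsCl cl) (hcl' : IsCl cl') (h : ∀ d, ∀ d' ∈ cl' d, cl d' ⊆ cl' d)
    {c : Vec E} (hc : Two cl c) : Two cl' c := by
  obtain ⟨a, b, hc⟩ := hc
  have key : ∀ d a, ∑ X ∈ (cl' d).image cl, iz (X = cl a) = iz (cl' d = cl' a) := by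
    intro d a
    simp only [iz_eq_ite, sum_ite_eq', mem_image]
    refine if_congr ⟨?_, fun e => ⟨a, e ▸ hcl'.1 a, rfl⟩⟩ rfl rfl
    rintro ⟨x, hx, e⟩
    exact (hcl'.2 _ _ (h d x hx (e ▸ hcl.1 a))).symm
  refine ⟨a, b, fun d => ?_⟩
  rw [dot_st_classes hcl (h d), ← key, ← key, ← sum_add_distrib]
  refine sum_congr rfl fun X hX => ?_
  obtain ⟨x, -, rfl⟩ := mem_image.1 hX
  exact hc x

theorem exists_hist {op : Finset (Finset (Dart E))} {u : Finset (Dart E) → ι}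
    {pos : Finset (Dart E) → ℕ} (hcl : IsCl cl) (hop : ∀ x ∈ op, ∃ d, cl d = x)
    (hw : ∀ x ∈ op, pos x < w) (hl : l < w) (hne : up ≠ um)
    (h1 : ∀ t ∈ Icc 1 l, own t → (ap t ∈ op ∧ u (ap t) = up ∧ pos (ap t) = t) ∧
      am t ∈ op ∧ u (am t) = um ∧ pos (am t) = t)
    (h2 : ∀ x ∈ op, (u x = up → ∃ t ∈ Icc 1 l, own t ∧ x = ap t) ∧
      (u x = um → ∃ t ∈ Icc 1 l, own t ∧ x = am t))
    (h3 : ∀ d, (∀ t ∈ Icc 1 l, own t → cl d = ap t ∨ cl d = am t → cl' d = ap t ∪ am t) ∧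
      ((∀ t ∈ Icc 1 l, own t → cl d ≠ ap t ∧ cl d ≠ am t) → cl' d = cl d))
    (hP : Valid cl P) (h4 : ∀ d, cl d ∉ op → P.sum ⬝ᵥ st (cl d) = 0)
    (h5 : ∀ t ∈ Ico 1 l, own t → P.sum ⬝ᵥ st (ap t) + P.sum ⬝ᵥ st (am t) = 0) :
    ∃ H, Hist cl cl' (Adm cl op) (Tf op u pos) own ap am up um w l P l H ∧
      Valid cl' (Al up um H l) := by
  have hcases : ∀ d, (∃ t ∈ Icc 1 l, own t ∧ (cl d = ap t ∨ cl d = am t) ∧
      cl' d = ap t ∪ am t) ∨
      ((∀ t ∈ Icc 1 l, own t → cl d ≠ ap t ∧ cl d ≠ am t) ∧ cl' d = cl d) := by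
    intro d
    by_cases h : ∃ t ∈ Icc 1 l, own t ∧ (cl d = ap t ∨ cl d = am t)
    · obtain ⟨t, a, b, c⟩ := h
      exact Or.inl ⟨t, a, b, c, (h3 d).1 t a b c⟩
    · have : ∀ t ∈ Icc 1 l, own t → cl d ≠ ap t ∧ cl d ≠ am t := fun t a b =>
        ⟨fun e => h ⟨t, a, b, Or.inl e⟩, fun e => h ⟨t, a, b, Or.inr e⟩⟩
      exact Or.inr ⟨this, (h3 d).2 this⟩
  have hmem : ∀ x ∈ op, ∀ d ∈ x, cl d = x := fun x hx d hd => by
    obtain ⟨d', rfl⟩ := hop x hx
    exact hcl.2 _ _ hd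
  have hst : ∀ t ∈ Icc 1 l, own t → st (ap t ∪ am t) = st (ap t) + st (am t) := fun t a b => by
    obtain ⟨⟨a1, a2, -⟩, b1, b2, -⟩ := h1 t a b
    refine st_union (disjoint_left.2 fun d x y => hne ?_)
    rw [← a2, ← b2, ← hmem _ a1 d x, hmem _ b1 d y]
  have hsub : ∀ d, ∀ d' ∈ cl' d, (cl d' ⊆ cl' d ∧ cl' d' = cl' d) := by
    intro d d' hd
    rcases hcases d with ⟨t, a, b, -, e⟩ | ⟨a, e⟩
    · obtain ⟨⟨a1, -⟩, b1, -⟩ := h1 t a b
      rw [e] at hd ⊢
      rcases mem_union.1 hd with h | h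
      · exact ⟨hmem _ a1 _ h ▸ subset_union_left, (h3 d').1 t a b (Or.inl (hmem _ a1 _ h))⟩
      · exact ⟨hmem _ b1 _ h ▸ subset_union_right, (h3 d').1 t a b (Or.inr (hmem _ b1 _ h))⟩
    · rw [e] at hd ⊢
      have := hcl.2 _ _ hd
      exact ⟨this.le, ((h3 d').2 (this ▸ a)).trans this⟩
  have hcl' : IsCl cl' := by
    refine ⟨fun d => ?_, fun d d' h => (hsub d d' h).2⟩
    rcases hcases d with ⟨t, -, -, c | c, e⟩ | ⟨-, e⟩ <;> rw [e]
    exacts [mem_union_left _ (c ▸ hcl.1 d), mem_union_right _ (c ▸ hcl.1 d), hcl.1 d]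
  have hT : ∀ (i : ι) (A : ℕ → Finset (Dart E)),
      (∀ t ∈ Icc 1 l, own t → A t ∈ op ∧ u (A t) = i ∧ pos (A t) = t) →
      (∀ x ∈ op, u x = i → ∃ t ∈ Icc 1 l, own t ∧ x = A t) → ∀ t v,
      (t ∈ Icc 1 l → own t → Tf op u pos v (dl (i, t)) = v ⬝ᵥ st (A t)) ∧
      (¬own t → Tf op u pos v (dl (i, t)) = 0) := by
    intro i A a b t v
    have key : ∀ x ∈ op, (u x, pos x) = (i, t) → own t ∧ x = A t := fun x hx e => by
      obtain ⟨e1, e2⟩ := Prod.ext_iff.1 e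
      obtain ⟨t', c, d, rfl⟩ := b x hx e1
      obtain rfl : t' = t := (a t' c d).2.2.symm.trans e2
      exact ⟨d, rfl⟩
    refine ⟨fun c d => ?_, fun d => sum_eq_zero fun x hx => ?_⟩
    · rw [Tf, sum_eq_single (A t), (a t c d).2.1, (a t c d).2.2, dl_self, mul_one]
      · intro x hx e
        rw [dl_ne fun e' => e (key x hx e').2, mul_zero]
      · exact fun h => (h (a t c d).1).elim
    · rw [dl_ne fun e' => d (key x hx e').1, mul_zero]
  have hTp := hT up ap (fun t a b => (h1 t a b).1) fun x hx => (h2 x hx).1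
  have hTm := hT um am (fun t a b => (h1 t a b).2) fun x hx => (h2 x hx).2
  have main : ∀ t ≤ l, ∃ H, Hist cl cl' (Adm cl op) (Tf op u pos) own ap am up um w l P t H := by
    intro t
    induction t with
    | zero =>
      refine fun _ => Hist.start (Adm.zero _ _) (fun c hc => Two.coarsen hcl hcl'
        (fun d d' h => (hsub d d' h).1) (hP.1 c hc)) hP.2 fun c hc => ?_
      have ha : Adm cl op c := fun d hd => even_of_count (hP.2 d) (h4 d hd) c hc
      refine ⟨ha, ?_⟩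
      obtain ⟨a, b, h⟩ := hP.1 c hc
      by_cases e : cl a = cl b
      · refine ⟨(up, 0), (up, 0), by simp; omega, by simp; omega, fun _ _ => rfl, fun _ _ => rfl,
          fun ψ => ?_⟩
        rw [z2_add_self]
        refine sum_eq_zero fun x hx => ?_
        obtain ⟨d, rfl⟩ := hop x hx
        rw [h, e, z2_add_self, zero_mul]
      · have oa : cl a ∈ op := by
          by_contra o
          have := ha a o
          rw [h, iz_pos rfl, iz_neg e] at this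
          simp at this
        have ob : cl b ∈ op := by
          by_contra o
          have := ha b o
          rw [h, iz_pos rfl, iz_neg (Ne.symm e)] at this
          simp at this
        have k : ∀ x ∈ op, pos x = 0 → ¬(u x = up ∨ u x = um) := by
          rintro x hx e (f | f)
          · obtain ⟨t, a, b, rfl⟩ := (h2 x hx).1 f
            have := (h1 t a b).1.2.2
            have := (mem_Icc.1 a).1
            omega
          · obtain ⟨t, a, b, rfl⟩ := (h2 x hx).2 f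
            have := (h1 t a b).2.2.2
            have := (mem_Icc.1 a).1
            omega
        refine ⟨(u (cl a), pos (cl a)), (u (cl b), pos (cl b)), hw _ oa, hw _ ob,
          fun x y => (k _ oa x y).elim, fun x y => (k _ ob x y).elim, fun ψ => ?_⟩
        have : ∀ x ∈ op, c ⬝ᵥ st x * ψ (u x, pos x) = (if x = cl a then ψ (u x, pos x) else 0) +
            if x = cl b then ψ (u x, pos x) else 0 := fun x hx => by
          obtain ⟨d, rfl⟩ := hop x hx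
          simp [h, iz_eq_ite, add_mul]
        rw [Tf, sum_congr rfl this, sum_add_distrib, sum_ite_eq', sum_ite_eq', if_pos oa,
          if_pos ob]
    | succ t ih =>
      intro ht
      obtain ⟨H, hH⟩ := ih (by omega)
      have hm : t + 1 ∈ Icc 1 l := mem_Icc.2 ⟨by omega, ht⟩
      refine hH.step ht hl hne (Tf_add _ _ _) (Tf_zero _ _ _) (Adm.zero _ _)
        (fun _ _ => Adm.add) (fun ho => ?_) (fun ho v => ⟨(hTp _ v).2 ho, (hTm _ v).2 ho⟩)
        fun ho h => ?_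
      · obtain ⟨dp, e1⟩ := hop _ (h1 _ hm ho).1.1
        obtain ⟨dm, e2⟩ := hop _ (h1 _ hm ho).2.1
        exact ⟨dp, dm, e1, e2, by rw [(h3 dp).1 _ hm ho (Or.inl e1), hst _ hm ho],
          fun v => ⟨(hTp _ v).1 hm ho, (hTm _ v).1 hm ho⟩⟩
      · rw [dotProduct_add]
        exact h5 _ (mem_Ico.2 ⟨by omega, h⟩) ho
  obtain ⟨H, hH⟩ := main l le_rfl
  refine ⟨H, hH, hH.inv.two, fun d => ?_⟩
  rcases hcases d with ⟨t, a, b, -, e⟩ | ⟨-, e⟩
  · rw [e, hst t a b]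
    exact hH.inv.cnt' t a b
  · rw [e]
    exact hH.inv.cnt d

end Pool.Agent.Lib.MP_234305_co.Run
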