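import Pool.Agent.Lib.MP_234305_co.H77RunC

/-!
The interaction of two tagged groups is decided by comparisons of positions.
-/

namespace Pool.Agent.Lib.MP_234305_co.Run

open Finset Matrix

/-- A bit as an element of the field with two elements. -/
def bz (b : Bool) : Z2 := if b then 1 else 0

/-- The interaction as a function of labels, three bits and the comparisons. -/
def Phi (EA EB a1 a2 b1 b2 e11 e12 e21 e22 : Bool) (W : Z2 × Z2 × Z2)
    (c : Fin 3 → Fin 3 → Bool) : Bool :=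
  (EB && (!EA || c 2 2) && (!a1 || !c 0 2) && (!a2 || !c 1 2) &&
    decide (bz (e11 && c 0 0) + bz (e21 && c 1 0) + W.2.2 = 1) &&
    decide (bz (e12 && c 0 1) + bz (e22 && c 1 1) + W.1 + W.2.2 = 1)) ||
  (EA && (!EB || !c 2 2) && (!b1 || c 2 0) && (!b2 || c 2 1) &&
    decide (bz (e11 && c 0 0) + bz (e12 && c 0 1) + W.2.1 = 1) &&
    decide (bz (e21 && c 1 0) + bz (e22 && c 1 1) + W.1 + W.2.1 = 1))

/-- The condition `Good` for a function of three separate bits. -/
def Good3 (g : Bool → Bool → Bool → Bool) : Prop :=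
  (∀ x y z, g (!x) y z = g x y z) ∨ (∀ x y z, g x (!y) z = g x y z) ∨
    (∀ x y z, g x y (!z) = g x y z) ∨
    ∃ a b c, ∀ x y z, g x y z = ((x == a && y == b && z == c) ||
      (x == !a && y == !b && z == !c))

instance (g : Bool → Bool → Bool → Bool) : Decidable (Good3 g) := by
  unfold Good3; infer_instance

theorem good_of_eq {f : (Fin 3 → Bool) → Bool} {g : Bool → Bool → Bool → Bool} (hg : Good3 g)
    (h : ∀ d, f d = g (d 0) (d 1) (d 2)) : Good f := by
  rcases hg with hg | hg | hg | ⟨a, b, c, hg⟩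
  · exact Or.inl ⟨0, fun d => by simp [h, hg]⟩
  · exact Or.inl ⟨1, fun d => by simp [h, hg]⟩
  · exact Or.inl ⟨2, fun d => by simp [h, hg]⟩
  · refine Or.inr ⟨![a, b, c], fun d => ?_⟩
    simp [h, hg, funext_iff, Fin.forall_fin_succ, and_assoc]

theorem good_main : ∀ (e e' : Bool) (k k' w w1 w2 : Z2), Good3 fun x y z =>
    (z && decide (bz (e && x) + k + w2 = 1) && decide (k' + bz (e' && y) + w + w2 = 1)) ||
    (!z && decide (bz (e && x) + k' + w1 = 1) && decide (k + bz (e' && y) + w + w1 = 1)) := by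
  decide

theorem good_main' : ∀ (e e' : Bool) (k k' w w1 w2 : Z2), Good3 fun x y z =>
    (z && decide (k + bz (e' && y) + w2 = 1) && decide (bz (e && x) + k' + w + w2 = 1)) ||
    (!z && decide (k + bz (e && x) + w1 = 1) && decide (bz (e' && y) + k' + w + w1 = 1)) := by
  decide

theorem perm3 (π : Equiv.Perm (Fin 3)) : π = 1 ∨ π = Equiv.swap 0 1 ∨ π 2 ≠ 2 := by
  revert π; decide

theorem phi_good (EA EB a1 a2 b1 b2 e11 e12 e21 e22 : Bool) (W : Z2 × Z2 × Z2)
    (π : Equiv.Perm (Fin 3)) (ρ : Fin 3 → ℕ)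
    (hA : ∀ i j : Fin 3, i = 2 ∧ (j = 0 ∧ a1 = true ∨ j = 1 ∧ a2 = true) → ρ i < ρ j)
    (hB : ∀ i j, π i = 2 ∧ (π j = 0 ∧ b1 = true ∨ π j = 1 ∧ b2 = true) → ρ i < ρ j) :
    Good fun d => Phi EA EB a1 a2 b1 b2 e11 e12 e21 e22 W
      fun i j => if j = π i then d i else decide (ρ i < ρ (π.symm j)) := by
  have ign2 : ∀ (d : Fin 3 → Bool) (i j : Fin 3), i ≠ 2 →
      (if j = π i then Function.update d 2 (!d 2) i else decide (ρ i < ρ (π.symm j))) =
        if j = π i then d i else decide (ρ i < ρ (π.symm j)) := fun d i j hi => by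
    rw [Function.update_of_ne hi]
  have ignc : ∀ (d : Fin 3 → Bool) (i j : Fin 3), j ≠ 2 →
      (if j = π i then Function.update d (π.symm 2) (!d (π.symm 2)) i
        else decide (ρ i < ρ (π.symm j))) =
        if j = π i then d i else decide (ρ i < ρ (π.symm j)) := fun d i j hj => by
    split_ifs with h
    · rw [Function.update_of_ne]
      rintro rfl
      exact hj (by simpa using h)
    · rfl
  cases EA
  · refine Or.inl ⟨2, fun d => ?_⟩
    simp only [Phi, ign2 d 0 _ (by decide), ign2 d 1 _ (by decide), Bool.not_false, Bool.true_or,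
      Bool.false_and]
  cases EB
  · refine Or.inl ⟨π.symm 2, fun d => ?_⟩
    simp only [Phi, ignc d _ 0 (by decide), ignc d _ 1 (by decide), Bool.not_false, Bool.true_or,
      Bool.false_and]
  have a1' : (!a1 || !decide (ρ 0 < ρ 2)) = true := by
    cases a1
    · rfl
    · simpa using (hA 2 0 (by simp)).le
  have a2' : (!a2 || !decide (ρ 1 < ρ 2)) = true := by
    cases a2
    · rfl
    · simpa using (hA 2 1 (by simp)).le
  rcases perm3 π with rfl | rfl | h
  · have b1' : (!b1 || decide (ρ 2 < ρ 0)) = true := by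
      cases b1
      · rfl
      · simpa using hB 2 0 (by simp)
    have b2' : (!b2 || decide (ρ 2 < ρ 1)) = true := by
      cases b2
      · rfl
      · simpa using hB 2 1 (by simp)
    refine good_of_eq (good_main e11 e22 (bz (e21 && decide (ρ 1 < ρ 0)))
      (bz (e12 && decide (ρ 0 < ρ 1))) W.1 W.2.1 W.2.2) fun d => ?_
    simp [Phi, a1', a2', b1', b2', ← Equiv.Perm.inv_def]
  · have s0 : Equiv.swap (0 : Fin 3) 1 2 = 2 := by decide
    have b1' : (!b1 || decide (ρ 2 < ρ 1)) = true := by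
      cases b1
      · rfl
      · simpa using hB 2 1 (by simp [s0])
    have b2' : (!b2 || decide (ρ 2 < ρ 0)) = true := by
      cases b2
      · rfl
      · simpa using hB 2 0 (by simp [s0])
    refine good_of_eq (good_main' e12 e21 (bz (e11 && decide (ρ 0 < ρ 1)))
      (bz (e22 && decide (ρ 1 < ρ 0))) W.1 W.2.1 W.2.2) fun d => ?_
    simp [Phi, a1', a2', b1', b2', s0]
  · by_cases h' : ρ 2 < ρ (π.symm 2)
    · refine Or.inl ⟨2, fun d => ?_⟩
      simp only [Phi, ign2 d 0 _ (by decide), ign2 d 1 _ (by decide), if_neg h.symm, h',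
        decide_true, Bool.not_true, Bool.or_false, Bool.and_false, Bool.false_and]
    · refine Or.inl ⟨π.symm 2, fun d => ?_⟩
      simp only [Phi, ignc d _ 0 (by decide), ignc d _ 1 (by decide), if_neg h.symm, h',
        decide_false, Bool.not_true, Bool.or_false, Bool.and_false, Bool.false_and]

theorem nr_phi (ho : OrderStmt) (ε : ℝ) (hε : 0 < ε) : ∃ K : ℝ, 0 < K ∧
    ∀ (w : ℕ) (EA EB a1 a2 b1 b2 e11 e12 e21 e22 : Bool) (W : Z2 × Z2 × Z2),
      NR (fun α : Fin 3 → ℕ => (∀ i, α i < w) ∧ (a1 = true → α 2 < α 0) ∧ (a2 = true → α 2 < α 1))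
        (fun β : Fin 3 → ℕ => (∀ i, β i < w) ∧ (b1 = true → β 2 < β 0) ∧ (b2 = true → β 2 < β 1))
        (fun α β => if Phi EA EB a1 a2 b1 b2 e11 e12 e21 e22 W (fun i j => decide (α i < β j))
          then 1 else 0) (K * (w : ℝ) ^ (2 + ε)) := by
  obtain ⟨K, hK, h⟩ := ho ε hε
  refine ⟨K, hK, fun w EA EB a1 a2 b1 b2 e11 e12 e21 e22 W => ?_⟩
  refine (h w (Phi EA EB a1 a2 b1 b2 e11 e12 e21 e22 W)
    (fun i j => i = 2 ∧ (j = 0 ∧ a1 = true ∨ j = 1 ∧ a2 = true))
    (fun i j => i = 2 ∧ (j = 0 ∧ b1 = true ∨ j = 1 ∧ b2 = true))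
    fun π ρ _ hA hB => phi_good _ _ _ _ _ _ _ _ _ _ _ π ρ hA hB).comap id id ?_ ?_
    fun _ _ _ _ => rfl
  · rintro α ⟨h1, h2, h3⟩
    refine ⟨h1, ?_⟩
    rintro i j ⟨rfl, ⟨rfl, h⟩ | ⟨rfl, h⟩⟩
    exacts [h2 h, h3 h]
  · rintro α ⟨h1, h2, h3⟩
    refine ⟨h1, ?_⟩
    rintro i j ⟨rfl, ⟨rfl, h⟩ | ⟨rfl, h⟩⟩
    exacts [h2 h, h3 h]

end Pool.Agent.Lib.MP_234305_co.Run
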