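import Pool.Agent.Lib.MP_234305_co.H77Defs

/-!
The statements of the main steps, as propositions, so that the steps can be proved separately.
-/

namespace Pool.Agent.Lib.MP_234305_co

open Finset Matrix

/-- Step 1: matrices that compare two triples of positions. -/
def OrderStmt : Prop := ∀ ε : ℝ, 0 < ε → ∃ K : ℝ, 0 < K ∧
    ∀ (w : ℕ) (Φ : (Fin 3 → Fin 3 → Bool) → Bool) (rA rB : Fin 3 → Fin 3 → Prop),
      (∀ (π : Equiv.Perm (Fin 3)) (ρ : Fin 3 → ℕ), Function.Injective ρ →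
        (∀ i j, rA i j → ρ i < ρ j) → (∀ i j, rB (π i) (π j) → ρ i < ρ j) →
        Good fun d => Φ fun i j => if j = π i then d i else decide (ρ i < ρ (π.symm j))) →
      NR (fun α : Fin 3 → ℕ => (∀ i, α i < w) ∧ ∀ i j, rA i j → α i < α j)
        (fun β : Fin 3 → ℕ => (∀ i, β i < w) ∧ ∀ i j, rB i j → β i < β j)
        (fun α β => if Φ (fun i j => decide (α i < β j)) then 1 else 0)
        (K * (w : ℝ) ^ (2 + ε))

/-- Step 2: separators with few pieces. -/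
def SepStmt : Prop := ∃ c : ℝ, 0 < c ∧ ∀ (Q K N : Type) [Fintype Q] [Fintype K] [Fintype N]
    [DecidableEq Q] [DecidableEq K] [DecidableEq N] (q : K → Bool → Q) (n : K → Bool → N)
    (Inc : Q → N → Prop) (γ : ℕ) (Y : Fin γ → K → Z2) (wt : Q → ℝ),
    (∀ k b b', Inc (q k b) (n k b')) →
    (∀ e p p', Inc e p → Inc e p' → ∃ p'', (p = p'' ∨ ∃ k b, n k b = p ∧ n k (!b) = p'') ∧
      (p'' = p' ∨ ∃ k b, n k b = p'' ∧ n k (!b) = p')) →
    (∀ e, ∃ p, Inc e p) → (∀ p, ∃ e, Inc e p) →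
    (∀ e e' p, Inc e p → Inc e' p → Link q (fun k => ∃ b, n k b = p) e e') →
    (∀ e, (univ.filter fun kb : K × Bool => q kb.1 kb.2 = e).card ≤ 4) →
    (∀ f p, bd n (cob q f) p = 0) →
    (∀ z, (∀ p, bd n z p = 0) → (∀ i, z ⬝ᵥ Y i = 0) → ∃ f, z = cob q f) →
    (∀ e e', Link q (fun _ => True) e e') →
    (∀ e, 0 ≤ wt e) → (∀ e, 4 * wt e ≤ ∑ e', wt e') →
    ∃ (lab : Q → Q), (∀ e e', lab e = lab e' ↔
        Link q (fun k => lab (q k false) = lab (q k true)) e e') ∧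
      ((univ.image lab).card : ℝ) ≤ c * (γ + 1) ∧
      ((univ.filter fun k => lab (q k false) ≠ lab (q k true)).card : ℝ) ≤
        c * (γ + 1) * √(Fintype.card Q) ∧
      ∀ a, 16 * ∑ e ∈ univ.filter (fun e => lab e = a), wt e ≤ 15 * ∑ e, wt e

/-- Step 3: from a factorisation of the slack matrix to an extended formulation. -/
def EfStmt : Prop := ∀ (n : ℕ) (G : SimpleGraph (Fin n)), G.Connected → ∀ N : ℝ,
    NR (fun S : Finset (Fin n) => S.Nonempty)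
      (fun T : SimpleGraph (Fin n) => T ≤ G ∧ T.IsTree)
      (fun S T => (S.card : ℝ) - 1 - ({e ∈ T.edgeSet | ∀ v ∈ e, v ∈ S}.ncard : ℝ)) N →
    ∃ (d k : ℕ) (A : Fin k → Fin d → ℝ) (b : Fin k → ℝ)
      (π : (Fin d → ℝ) →ᵃ[ℝ] (Sym2 (Fin n) → ℝ)),
      π '' {y : Fin d → ℝ | ∀ i : Fin k, ∑ j : Fin d, A i j * y j ≤ b i} =
        convexHull ℝ {x : Sym2 (Fin n) → ℝ | ∃ T : SimpleGraph (Fin n),
          T ≤ G ∧ T.IsTree ∧ x = T.edgeSet.indicator (fun _ => (1 : ℝ))} ∧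
      (k : ℝ) ≤ N + G.edgeSet.ncard

/-- Step 4: gluing two units along each other. -/
def RunStmt : Prop := ∀ ε : ℝ, 0 < ε → ∃ K : ℝ, 0 < K ∧
    ∀ (E : Type) [Fintype E] [DecidableEq E] (cl cl' : Bool → Dart E → Finset (Dart E))
      (op : Bool → Finset (Finset (Dart E))) (ι : Type) [Fintype ι] [DecidableEq ι]
      (u : Bool → Finset (Dart E) → ι) (pos : Bool → Finset (Dart E) → ℕ) (γ w l : ℕ)
      (ty : ℕ → Bool) (ap am : ℕ → Finset (Dart E)) (up um : ι) (ok : Bool → Vec E → Prop),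
      (∀ s, IsCl (cl s)) → (∀ s, ∀ x ∈ op s, ∃ d, cl s d = x) → IsUnits cl op u pos → Rk cl γ →
      (∀ s, ∀ x ∈ op s, pos s x < w) → up ≠ um →
      (∀ t ∈ Icc 1 l, (ap t ∈ op (ty t) ∧ u (ty t) (ap t) = up ∧ pos (ty t) (ap t) = t) ∧
        am t ∈ op (ty t) ∧ u (ty t) (am t) = um ∧ pos (ty t) (am t) = t) →
      (∀ s, ∀ x ∈ op s, (u s x = up → ∃ t ∈ Icc 1 l, ty t = s ∧ x = ap t) ∧
        (u s x = um → ∃ t ∈ Icc 1 l, ty t = s ∧ x = am t)) →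
      (∀ s d, (∀ t ∈ Icc 1 l, ty t = s → cl s d = ap t ∨ cl s d = am t →
          cl' s d = ap t ∪ am t) ∧
        ((∀ t ∈ Icc 1 l, ty t = s → cl s d ≠ ap t ∧ cl s d ≠ am t) → cl' s d = cl s d)) →
      (∀ s M, ok s M → (∀ d, cl s d ∉ op s → M ⬝ᵥ st (cl s d) = 0) ∧
        ∀ t ∈ Ico 1 l, ty t = s → M ⬝ᵥ st (ap t) + M ⬝ᵥ st (am t) = 0) →
      Step cl cl' ok (K * 4 ^ γ * (Fintype.card ι : ℝ) ^ 4 * (w : ℝ) ^ (2 + ε))

/-- Step 5: gluing along a seam with small cycle space. -/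
def GlueStmt : Prop := ∀ ε : ℝ, 0 < ε → ∃ K : ℝ, 0 < K ∧
    ∀ (E : Type) [Fintype E] [DecidableEq E] (τ : Flag E → Flag E) (B₀ B₁ : Finset (Flag E))
      (γ μ : ℕ), IsMap τ → Rk (gcl τ ∅) γ → B₁ ⊆ B₀ → NoLeaf τ B₀ → NoLeaf τ B₁ →
      Module.finrank Z2 (radCyc τ B₀) ≤ μ →
      Step (gcl τ B₀) (gcl τ B₁) (gok τ B₁)
        (K * 4 ^ γ * ((μ : ℝ) + 1) ^ 5 * ((B₀.card : ℝ) + 1) ^ (2 + ε))

section
variable {E : Type} [Fintype E] [DecidableEq E]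

/-- The number of vertices (`s = true`) or faces (`s = false`). -/
noncomputable def nCl (τ : Flag E → Flag E) (s : Bool) : ℕ := (univ.image (gcl τ ∅ s)).card

/-- The double cover defined by `φ`. -/
def cov (τ : Flag E → Flag E) (φ : Vec E) (x : Flag (E × Z2)) : Flag (E × Z2) :=
  (((τ (x.1.1, x.2)).1, x.1.2 + (if x.2.1 then φ x.1.1 else 0) +
    (if (τ (x.1.1, x.2)).2.1 then φ (τ (x.1.1, x.2)).1 else 0)), (τ (x.1.1, x.2)).2)

end

/-- Step 6a: the Euler characteristic bounds the ranks. -/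
def RkEulerStmt : Prop := ∀ (E : Type) [Fintype E] [DecidableEq E] (τ : Flag E → Flag E),
    IsMap τ → ∀ (c γ : ℕ) (reps : Finset E), reps.card ≤ c →
    (∀ e, ∃ r ∈ reps, Link (med τ) (fun _ => True) r e) →
    Fintype.card E + 2 * c ≤ nCl τ true + nCl τ false + γ → Rk (gcl τ ∅) γ ∧ RadRk τ γ

/-- Step 6b: the vertices of the double cover. -/
def CovSecStmt : Prop := ∀ (E : Type) [Fintype E] [DecidableEq E] (τ : Flag E → Flag E),
    IsMap τ → ∀ (φ : Vec E) (d d' : Dart (E × Z2)),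
    (Sec (cov τ φ) ∅ true d d' ↔ Sec τ ∅ true (d.1.1, d.2) (d'.1.1, d'.2) ∧
      d.1.2 + (if d.2 then φ d.1.1 else 0) = d'.1.2 + (if d'.2 then φ d'.1.1 else 0))

/-- Step 6c: the ranks of the double cover. -/
def CovRkStmt : Prop := ∀ (E : Type) [Fintype E] [DecidableEq E] (τ : Flag E → Flag E),
    IsMap τ → ∀ γ : ℕ, (∀ e e', Link (med τ) (fun _ => True) e e') →
    Fintype.card E + 2 ≤ nCl τ true + nCl τ false + γ → ∀ φ : Vec E,
    (∀ d, φ ⬝ᵥ st (gcl τ ∅ false d) = 0) →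
    IsMap (cov τ φ) ∧ Rk (gcl (cov τ φ) ∅) (2 * γ) ∧ RadRk (cov τ φ) (2 * γ)

/-- Step 6d: a primal cycle `z` that is not a sum of faces has a parallel dual cycle that uses
only edges at vertices of `z` and is not a cut. -/
def ParallelStmt : Prop := ∀ (E : Type) [Fintype E] [DecidableEq E] (τ : Flag E → Flag E),
    IsMap τ → ∀ z : Vec E, (∀ d, z ⬝ᵥ st (gcl τ ∅ true d) = 0) →
    (∃ f : Dart E → Z2, (∀ d d', Sec τ ∅ false d d' → f d = f d') ∧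
        ∀ e, z e = f (e, false) + f (e, true)) ∨
      ∃ φ : Vec E, (∀ d, φ ⬝ᵥ st (gcl τ ∅ false d) = 0) ∧
        (∀ e, φ e ≠ 0 → ∃ i e' i', z e' ≠ 0 ∧ Sec τ ∅ true (e, i) (e', i')) ∧
        ∃ c : Vec E, (∀ d, c ⬝ᵥ st (gcl τ ∅ true d) = 0) ∧ c ⬝ᵥ φ = 1

/-- Step 6e: few dual cycles represent all dual cycles modulo cuts. -/
def FewStmt : Prop := ∀ (E : Type) [Fintype E] [DecidableEq E] (τ : Flag E → Flag E),
    IsMap τ → ∀ γ : ℕ, (∀ e e', Link (med τ) (fun _ => True) e e') →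
    Fintype.card E + 2 ≤ nCl τ true + nCl τ false + γ →
    ∃ Φ : Finset (Vec E), Φ.card ≤ 2 ^ γ ∧ (∀ φ ∈ Φ, ∀ d, φ ⬝ᵥ st (gcl τ ∅ false d) = 0) ∧
      ∀ φ : Vec E, (∀ d, φ ⬝ᵥ st (gcl τ ∅ false d) = 0) → ∃ φ₀ ∈ Φ, ∃ f : Dart E → Z2,
        (∀ d d', Sec τ ∅ true d d' → f d = f d') ∧
          ∀ e, φ₀ e = φ e + f (e, false) + f (e, true)

/-- Step 7: the crossing matrix of paths and dual cycles. -/
def GadgetStmt : Prop := ∀ ε : ℝ, 0 < ε → ∀ γ : ℕ, ∃ K : ℝ, 0 < K ∧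
    ∀ (E E' : Type) [Fintype E] [DecidableEq E] [Fintype E'] [DecidableEq E']
      (τ : Flag E → Flag E) (τ' : Flag E' → Flag E') (p : E' → E), IsMap τ → IsMap τ' →
      (∀ x, (p (τ' x).1, (τ' x).2) = τ (p x.1, x.2)) →
      (∀ e, (univ.filter fun e' => p e' = e).card ≤ 2) →
      (∀ e e', Link (med τ) (fun _ => True) e e') → RadRk τ γ → RadRk τ' γ →
      Rk (gcl τ' ∅) γ →
      NR (fun i : E × Vec E' => ∀ d, (∀ d' ∈ gcl τ' ∅ true d, p d'.1 ≠ i.1) →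
          i.2 ⬝ᵥ st (gcl τ' ∅ true d) = 0)
        (fun D : Vec E' => ∀ d, D ⬝ᵥ st (gcl τ' ∅ false d) = 0)
        (fun i D => cnt i.2 D - val (i.2 ⬝ᵥ D)) (K * (Fintype.card E : ℝ) ^ (1 + ε))

/-- Step 8: the slack matrix of a map. -/
def SlackStmt : Prop := ∀ ε : ℝ, 0 < ε → ∀ γ : ℕ, ∃ K : ℝ, 0 < K ∧
    ∀ (E V : Type) [Fintype E] [DecidableEq E] [Fintype V] [DecidableEq V]
      (τ : Flag E → Flag E) (vtx : Dart E → V), IsMap τ → Nonempty E →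
      (∀ d d', vtx d = vtx d' ↔ Sec τ ∅ true d d') → Function.Surjective vtx →
      (∀ e e', Link (med τ) (fun _ => True) e e') →
      Fintype.card E + 2 ≤ nCl τ true + nCl τ false + γ →
      NR (fun S : Finset V => S.Nonempty)
        (fun T : Finset E => T.card + 1 = Fintype.card V ∧
          ∀ a b, Link (fun e i => vtx (e, i)) (fun e => e ∈ T) a b)
        (fun S T => (S.card : ℝ) - 1 -
          ((T.filter fun e => vtx (e, false) ∈ S ∧ vtx (e, true) ∈ S).card : ℝ))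
        (K * (Fintype.card E : ℝ) ^ (1 + ε))

/-- Step 9: the theorem, with the embedding given as a combinatorial map on the flags
(dart, side). -/
def FinalStmt : Prop := ∀ (γ : ℕ) (ε : ℝ), 0 < ε → ∃ C : ℝ, ∀ (n : ℕ) (G : SimpleGraph (Fin n)),
    G.Connected →
    (∃ τ : G.Dart × Bool → G.Dart × Bool, (∀ x, τ (τ x) = x) ∧ (∀ x, τ x ≠ x) ∧
      (∀ x, (τ x).1.fst = x.1.fst) ∧
      (∀ x y : G.Dart × Bool, x.1.fst = y.1.fst →
        Relation.EqvGen (fun a b => b = τ a ∨ b = (a.1, !a.2)) x y) ∧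
      G.edgeSet.ncard + 2 ≤
        n + Nat.card (Quot fun a b : G.Dart × Bool => b = τ a ∨ b = (a.1.symm, a.2)) + γ) →
    ∃ (d k : ℕ) (A : Fin k → Fin d → ℝ) (b : Fin k → ℝ)
      (π : (Fin d → ℝ) →ᵃ[ℝ] (Sym2 (Fin n) → ℝ)),
      π '' {y : Fin d → ℝ | ∀ i : Fin k, ∑ j : Fin d, A i j * y j ≤ b i} =
        convexHull ℝ {x : Sym2 (Fin n) → ℝ | ∃ T : SimpleGraph (Fin n),
          T ≤ G ∧ T.IsTree ∧ x = T.edgeSet.indicator (fun _ => (1 : ℝ))} ∧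
      (k : ℝ) ≤ C * (n : ℝ) ^ (1 + ε)

end Pool.Agent.Lib.MP_234305_co
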