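import Pool.Agent.Lib.MP_234305_co.H77Basic

/-!
The statements of the parts of step 7.
-/

namespace Pool.Agent.Lib.MP_234305_co

open Finset Matrix

section
variable {E : Type} [Fintype E] [DecidableEq E]

open Classical in
/-- The flags at which a labelling of the edges changes. -/
noncomputable def seam {L : Type} (τ : Flag E → Flag E) (lb : E → L) : Finset (Flag E) :=
  univ.filter fun x => lb x.1 ≠ lb (τ x).1

/-- Two edges are connected in the medial graph through flags with property `S`. -/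
def MLink (τ : Flag E → Flag E) (S : Flag E → Prop) : E → E → Prop :=
  Link (fun x b => (if b then τ x else x).1) S

end

/-- Step 7a: a connected set of edges splits into few connected parts along a short seam. -/
def SplitStmt : Prop := ∀ γ : ℕ, ∃ k : ℕ, 0 < k ∧
    ∀ (E : Type) [Fintype E] [DecidableEq E] (τ : Flag E → Flag E) (R : Finset E) (wt : E → ℝ),
      IsMap τ → RadRk τ γ →
      (∀ e ∈ R, ∀ e' ∈ R, MLink τ (fun x => x.1 ∈ R ∧ (τ x).1 ∈ R) e e') →
      (∀ e, 0 ≤ wt e) → (∀ e ∈ R, 4 * wt e ≤ ∑ e' ∈ R, wt e') →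
      ∃ lab : E → E, (R.image lab).card ≤ k ∧
        (∀ e ∈ R, ∀ e' ∈ R, lab e = lab e' → MLink τ (fun x =>
          (x.1 ∈ R ∧ lab x.1 = lab e) ∧ (τ x).1 ∈ R ∧ lab (τ x).1 = lab e) e e') ∧
        ((univ.filter fun x : Flag E => x.1 ∈ R ∧ (τ x).1 ∈ R ∧ lab x.1 ≠ lab (τ x).1).card : ℝ) ≤
          k * √(R.card) ∧
        ∀ a, 16 * ∑ e ∈ R.filter (fun e => lab e = a), wt e ≤ 15 * ∑ e ∈ R, wt e

/-- Step 7b: seams have no leaves and a small cycle space. -/
def SeamStmt : Prop := ∀ (E : Type) [Fintype E] [DecidableEq E] (τ : Flag E → Flag E)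
    (L : Type) (lb : E → L), IsMap τ → NoLeaf τ (seam τ lb) ∧
      ∀ (γ : ℕ) (reps : Finset E), RadRk τ γ →
        (∀ e, ∃ r ∈ reps, MLink τ (fun x => lb x.1 = lb (τ x).1) r e) →
        Module.finrank Z2 (radCyc τ (seam τ lb)) ≤ γ + reps.card

/-- Step 7c: when all groups are even away from few classes, the remaining potential has bounded
nonnegative rank. -/
def RemStmt : Prop := ∀ γ m : ℕ, ∃ K : ℝ, 0 < K ∧
    ∀ (E : Type) [Fintype E] [DecidableEq E] (cl : Bool → Dart E → Finset (Dart E))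
      (O : Finset (Dart E)), Rk cl γ → O.card ≤ m →
      NR (fun P : Multiset (Vec E) => ∀ c ∈ P, ∀ d, (∀ o ∈ O, cl true d ≠ cl true o) →
          c ⬝ᵥ st (cl true d) = 0)
        (fun Q : Multiset (Vec E) => ∀ g ∈ Q, ∀ d, (∀ o ∈ O, cl false d ≠ cl false o) →
          g ⬝ᵥ st (cl false d) = 0)
        (fun P Q => Psi P Q - val (P.sum ⬝ᵥ Q.sum)) K

/-- Step 7c: groups with two ends can be merged to a valid grouping. -/
def MergeStmt : Prop := ∀ (E : Type) [Fintype E] [DecidableEq E]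
    (cl : Dart E → Finset (Dart E)) (P : Multiset (Vec E)),
    (∀ c ∈ P, ∃ a b, ∀ d, c ⬝ᵥ st (cl d) = iz (cl d = cl a) + iz (cl d = cl b)) →
    ∃ P', Valid cl P' ∧ Sub P' P ∧
      ∀ g : Vec E, (P'.map fun c => val (c ⬝ᵥ g)).sum ≤ (P.map fun c => val (c ⬝ᵥ g)).sum

end Pool.Agent.Lib.MP_234305_co
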