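import Pool.Agent.Lib.MP_234305_co.H77Stmts2

/-!
Step 7a: splitting a connected set of edges of a map along a short seam.
-/

namespace Pool.Agent.Lib.MP_234305_co

open Finset Matrix

namespace Split

/-- Duality between the cycle spaces of two graphs with the same edges. -/
theorem duality {K Q N : Type} [Fintype K] [Fintype Q] [Fintype N] (q : K → Bool → Q)
    (n : K → Bool → N) {γ : ℕ} (Λ : (K → Z2) →ₗ[Z2] (Fin γ → Z2))
    (h : ∀ y, (∀ e, bd q y e = 0) → Λ y = 0 → ∃ f, y = cob n f) :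
    ∃ Y : Fin γ → K → Z2, ∀ z, (∀ p, bd n z p = 0) → (∀ i, z ⬝ᵥ Y i = 0) → ∃ f, z = cob q f := by
  classical
  let Z := LinearMap.ker (bdL q)
  let L := Λ.comp Z.subtype
  obtain ⟨g₁, h₁⟩ := L.rangeRestrict.exists_rightInverse_of_surjective L.range_rangeRestrict
  obtain ⟨g₂, h₂⟩ := (LinearMap.range L).subtype.exists_leftInverse_of_injective
    (Submodule.ker_subtype _)
  let σ := Z.subtype.comp (g₁.comp g₂)
  refine ⟨fun i => σ (Pi.single i 1), fun z hz hY => ?_⟩
  have hσ : ∀ w, z ⬝ᵥ σ w = 0 := by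
    intro w
    rw [← univ_sum_single w, map_sum, dotProduct_sum]
    refine sum_eq_zero fun i _ => ?_
    have : Pi.single i (w i) = w i • (Pi.single i 1 : Fin γ → Z2) := by
      rw [← Pi.single_smul, smul_eq_mul, mul_one]
    rw [this, map_smul, dotProduct_smul, hY, smul_zero]
  obtain ⟨f, hf⟩ := exists_cob_of_perp q (fun _ => True) z fun y _ hy => by
    have hy' : y ∈ Z := funext hy
    have e1 : Λ (σ (Λ y)) = Λ y := by
      have a := LinearMap.congr_fun h₂ (L.rangeRestrict ⟨y, hy'⟩)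
      have b := LinearMap.congr_fun h₁ (L.rangeRestrict ⟨y, hy'⟩)
      change g₂ (Λ y) = L.rangeRestrict ⟨y, hy'⟩ at a
      change Λ (g₁ (g₂ (Λ y))) = _
      rw [a]
      exact congrArg Subtype.val b
    obtain ⟨g, hg⟩ := h (y - σ (Λ y)) (congrFun (Z.sub_mem hy' (g₁ (g₂ (Λ y))).2))
      (by rw [map_sub, e1, sub_self])
    have e2 : z ⬝ᵥ (y - σ (Λ y)) = 0 := by
      rw [hg, dot_cob, show bd n z = 0 from funext hz, zero_dotProduct]
    rw [dotProduct_sub, hσ, sub_zero] at e2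
    rw [dotProduct_comm, e2]
  exact ⟨f, funext fun k => hf k trivial⟩

variable {E : Type} [Fintype E] [DecidableEq E] (τ : Flag E → Flag E) (R : Finset E)

/-- A flag of an edge in `R` as a flag of the map. -/
def emb (x : Flag R) : Flag E := (x.1.1, x.2)

/-- The corners with both edges in `R`. -/
abbrev Kor := {k : Cor τ // k.x.1 ∈ R ∧ (τ k.x).1 ∈ R}

/-- The two flags of a corner. -/
def fl (k : Kor τ R) : Bool → Flag R
  | false => (⟨k.1.x.1, k.2.1⟩, k.1.x.2)
  | true => (⟨(τ k.1.x).1, k.2.2⟩, (τ k.1.x).2)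

/-- The relation that generates the nodes. -/
def rel (a b : Bool × Dart R) : Prop :=
  (∃ x y s, τ (emb R x) = emb R y ∧ a = (s, pr s x) ∧ b = (s, pr s y)) ∨
    ∃ x, (τ (emb R x)).1 ∉ R ∧ a = (true, pr true x) ∧ b = (false, pr false x)

/-- The node of type `s` at a flag. -/
def nd (s : Bool) (x : Flag R) : Quot (rel τ R) := Quot.mk _ (s, pr s x)

variable {τ R}

omit [Fintype E] [DecidableEq E] in
theorem emb_inj {x y : Flag R} (h : emb R x = emb R y) : x = y :=
  Prod.ext (Subtype.ext (Prod.ext_iff.1 h).1) (Prod.ext_iff.1 h).2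

omit [DecidableEq E] in
theorem emb_fl (k : Kor τ R) (b : Bool) : emb R (fl τ R k b) = if b then τ k.1.x else k.1.x := by
  cases b <;> rfl

omit [DecidableEq E] in
theorem tau_fl (hτ : IsMap τ) (k : Kor τ R) (b : Bool) :
    τ (emb R (fl τ R k b)) = emb R (fl τ R k (!b)) := by
  cases b
  · rfl
  · exact hτ.1 _

omit [DecidableEq E] in
theorem exists_cor (hτ : IsMap τ) (x : Flag E) : ∃ k : Cor τ, k.x = x ∨ τ k.x = x := by
  rcases lt_trichotomy (Fintype.equivFin (Flag E) x) (Fintype.equivFin (Flag E) (τ x)) with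
    h | h | h
  · exact ⟨⟨x, h⟩, Or.inl rfl⟩
  · exact (hτ.2 x ((Fintype.equivFin _).injective h).symm).elim
  · exact ⟨⟨τ x, by rwa [hτ.1]⟩, Or.inr (hτ.1 x)⟩

omit [DecidableEq E] in
theorem exists_fl (hτ : IsMap τ) {x : Flag R} (hx : (τ (emb R x)).1 ∈ R) :
    ∃ k b, fl τ R k b = x := by
  obtain ⟨k, h | h⟩ := exists_cor hτ (emb R x)
  · exact ⟨⟨k, by rw [h]; exact ⟨x.1.2, hx⟩⟩, false, emb_inj h⟩
  · have h' : k.x = τ (emb R x) := by rw [← h, hτ.1]
    exact ⟨⟨k, by rw [h, h']; exact ⟨hx, x.1.2⟩⟩, true, emb_inj h⟩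

omit [DecidableEq E] in
theorem fl_inj (hτ : IsMap τ) : Function.Injective fun kb : Kor τ R × Bool => fl τ R kb.1 kb.2 := by
  rintro ⟨k, b⟩ ⟨k', b'⟩ h
  have h1 := congrArg (emb R) h
  have h2 := congrArg τ h1
  simp only [tau_fl hτ] at h2
  simp only [emb_fl] at h1 h2
  have l1 := k.1.lt
  have l2 := k'.1.lt
  cases b <;> cases b' <;> simp only [Bool.not_false, Bool.not_true, if_true,
    Bool.false_eq_true, if_false] at h1 h2
  · rw [Subtype.ext (Cor.ext h1)]
  · rw [h1, hτ.1] at l1; exact (lt_asymm l1 l2).elim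
  · rw [h2, hτ.1] at l1; exact (lt_asymm l1 l2).elim
  · rw [Subtype.ext (Cor.ext h2)]

omit [DecidableEq E] in
theorem nd_fl (k : Kor τ R) (s b : Bool) : nd τ R s (fl τ R k false) = nd τ R s (fl τ R k b) := by
  cases b
  · rfl
  · exact Quot.sound (Or.inl ⟨_, _, s, rfl, rfl, rfl⟩)

omit [Fintype E] [DecidableEq E] in
theorem nd_bdry {x : Flag R} (hx : (τ (emb R x)).1 ∉ R) : nd τ R true x = nd τ R false x :=
  Quot.sound (Or.inr ⟨x, hx, rfl, rfl⟩)

omit [DecidableEq E] in
theorem adj (hτ : IsMap τ) (e : R) (s i j : Bool) :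
    Quot.mk (rel τ R) (s, e, i) = Quot.mk _ (!s, e, j) ∨ ∃ (k : Kor τ R) (b : Bool),
      nd τ R b (fl τ R k false) = Quot.mk _ (s, e, i) ∧
        nd τ R (!b) (fl τ R k false) = Quot.mk _ (!s, e, j) := by
  obtain ⟨x, h1, h2⟩ : ∃ x : Flag R, nd τ R s x = Quot.mk _ (s, e, i) ∧
      nd τ R (!s) x = Quot.mk _ (!s, e, j) := by
    cases s
    · exact ⟨(e, j, i), rfl, rfl⟩
    · exact ⟨(e, i, j), rfl, rfl⟩
  rw [← h1, ← h2]
  by_cases hx : (τ (emb R x)).1 ∈ R
  · obtain ⟨k, b, rfl⟩ := exists_fl hτ hx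
    exact Or.inr ⟨k, s, nd_fl k _ b, nd_fl k _ b⟩
  · cases s
    · exact Or.inl (nd_bdry hx).symm
    · exact Or.inl (nd_bdry hx)

omit [DecidableEq E] in
theorem link_of_eqv (hτ : IsMap τ) {a a' : Bool × Dart R} (h : Relation.EqvGen (rel τ R) a a') :
    Link (fun k b => (fl τ R k b).1)
      (fun k => ∃ b, nd τ R b (fl τ R k false) = Quot.mk _ a) a.2.1 a'.2.1 := by
  induction h with
  | rel a a' h =>
    rcases h with ⟨x, y, s, h, rfl, rfl⟩ | ⟨x, -, rfl, rfl⟩
    · obtain ⟨k, b, rfl⟩ := exists_fl hτ (x := x) (by rw [h]; exact y.1.2)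
      rw [tau_fl hτ] at h
      obtain rfl := emb_inj h
      exact Link.edge' (n := fun k b => (fl τ R k b).1) ⟨s, nd_fl k s b⟩ b (!b)
    · exact Link.refl _
  | refl a => exact Link.refl _
  | symm a a' h ih => rw [← Quot.eqvGen_sound h]; exact ih.symm
  | trans a a' a'' h _ ih ih' => rw [← Quot.eqvGen_sound h] at ih'; exact ih.trans ih'

theorem bd_cob (hτ : IsMap τ) (f : R → Z2) (p : Quot (rel τ R)) :
    bd (fun k b => nd τ R b (fl τ R k false)) (cob (fun k b => (fl τ R k b).1) f) p = 0 := by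
  let F : Flag R → Z2 := fun x => f x.1 * (iz (nd τ R false x = p) + iz (nd τ R true x = p))
  have h1 := Fintype.sum_of_injective _ (fl_inj (R := R) hτ) (fun kb => F (fl τ R kb.1 kb.2)) F
    (fun x hx => by
      have : (τ (emb R x)).1 ∉ R := fun h => by
        obtain ⟨k, b, e⟩ := exists_fl hτ h
        exact hx ⟨(k, b), e⟩
      simp only [F, nd_bdry this, z2_add_self, mul_zero]) fun _ => rfl
  have h2 : ∑ x, F x = 0 := by
    rw [Fintype.sum_prod_type]
    refine sum_eq_zero fun e _ => ?_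
    simp only [Fintype.sum_prod_type, Fintype.sum_bool, F, nd, pr, if_true, Bool.false_eq_true,
      if_false]
    generalize iz _ = a
    generalize iz _ = b
    generalize iz _ = c
    generalize iz _ = d
    generalize f e = u
    revert a b c d u
    decide
  rw [← h2, ← h1, Fintype.sum_prod_type, bd]
  refine sum_congr rfl fun k _ => ?_
  simp only [Fintype.sum_bool, F, cob, ← nd_fl k _ true]
  ring

variable (τ R) in
/-- Extension by zero. -/
def ext0 : (Kor τ R → Z2) →ₗ[Z2] (Cor τ → Z2) where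
  toFun y k := if h : k.x.1 ∈ R ∧ (τ k.x).1 ∈ R then y ⟨k, h⟩ else 0
  map_add' y y' := funext fun k => by
    simp only [Pi.add_apply]; split_ifs <;> simp
  map_smul' c y := funext fun k => by
    simp only [Pi.smul_apply, RingHom.id_apply]; split_ifs <;> simp

theorem ext0_val (y : Kor τ R → Z2) (k : Kor τ R) : ext0 τ R y k.1 = y k := dif_pos k.2

theorem ext0_not (y : Kor τ R → Z2) {k : Cor τ} (h : ¬(k.x.1 ∈ R ∧ (τ k.x).1 ∈ R)) :
    ext0 τ R y k = 0 := dif_neg h

theorem bd_ext0 {y : Kor τ R → Z2} (hy : ∀ e, bd (fun k b => (fl τ R k b).1) y e = 0) (e : E) :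
    bd (med τ) (ext0 τ R y) e = 0 := by
  have h1 : bd (med τ) (ext0 τ R y) e = ∑ k : Kor τ R,
      y k * (iz ((fl τ R k false).1.1 = e) + iz ((fl τ R k true).1.1 = e)) :=
    (Fintype.sum_of_injective Subtype.val Subtype.val_injective _ _
      (fun k hk => by rw [ext0_not y fun h => hk ⟨⟨k, h⟩, rfl⟩, zero_mul])
      fun k => by rw [ext0_val]; rfl).symm
  rw [h1]
  by_cases he : e ∈ R
  · rw [← hy ⟨e, he⟩, bd]
    simp only [Subtype.ext_iff]
  · refine sum_eq_zero fun k _ => ?_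
    have hb : ∀ b, ¬(fl τ R k b).1.1 = e := fun b h => he (h ▸ (fl τ R k b).1.2)
    rw [iz_neg (hb _), iz_neg (hb _), add_zero, mul_zero]

theorem descend (hτ : IsMap τ) {y : Kor τ R → Z2} {h : Bool × Finset (Dart E) → Z2}
    (hy : ext0 τ R y = cob (rad τ) h) :
    ∃ f, y = cob (fun k b => nd τ R b (fl τ R k false)) f := by
  have hp : ∀ s (x : Flag R), ((pr s x).1.1, (pr s x).2) = pr s (emb R x) := fun _ _ => rfl
  refine ⟨Quot.lift (fun a => h (a.1, gcl τ ∅ a.1 (a.2.1.1, a.2.2))) ?_, funext fun k => ?_⟩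
  · rintro a b (⟨x, x', s, e, rfl, rfl⟩ | ⟨x, hx, rfl, rfl⟩)
    · simp only [hp]
      rw [← e, gcl_step (notMem_empty _)]
    · simp only [hp]
      obtain ⟨k, e⟩ := exists_cor hτ (emb R x)
      have h0 : ext0 τ R y k = 0 := ext0_not y fun hk => by
        rcases e with e | e
        · exact hx (e ▸ hk.2)
        · rw [← e, hτ.1] at hx; exact hx hk.1
      rw [hy, cob, z2_add_eq_zero, rad, rad] at h0
      rcases e with e | e
      · rw [← e, h0]
      · rw [← e, gcl_step (notMem_empty _), gcl_step (notMem_empty _), h0]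
  · exact (ext0_val y k).symm.trans (congrFun hy k.1)

end Split

open Split in
theorem split_cell (h : SepStmt) : SplitStmt := by
  classical
  obtain ⟨c, hc, hsep⟩ := h
  intro γ
  refine ⟨⌈2 * c * (γ + 1)⌉₊ + 1, Nat.succ_pos _, ?_⟩
  intro E _ _ τ R wt hτ hrad hconn hw0 hw
  have hk : 2 * (c * (γ + 1)) ≤ ((⌈2 * c * (γ + 1)⌉₊ + 1 : ℕ) : ℝ) := by
    push_cast
    linarith [Nat.le_ceil (2 * c * (γ + 1))]
  have hc0 : 0 ≤ c * (γ + 1) := by positivity
  obtain ⟨Λ, hΛ⟩ := hrad
  let _ : Fintype (Quot (rel τ R)) := Fintype.ofFinite _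
  obtain ⟨Y, hY⟩ := duality (fun k b => (fl τ R k b).1) (fun k b => nd τ R b (fl τ R k false))
    (Λ.comp (ext0 τ R)) fun y hy h0 => by
      obtain ⟨f, hf⟩ := hΛ _ (bd_ext0 hy) h0
      exact descend hτ hf
  have hsum : ∑ e : R, wt e = ∑ e ∈ R, wt e := sum_coe_sort R wt
  have hint : ∀ x : Flag E, x.1 ∈ R → (τ x).1 ∈ R → ∃ k b, emb R (fl τ R k b) = x := by
    intro x h1 h2
    obtain ⟨k, b, e⟩ := exists_fl hτ (x := (⟨x.1, h1⟩, x.2)) h2
    exact ⟨k, b, congrArg (emb R) e⟩
  refine Exists.elim (hsep R (Kor τ R) (Quot (rel τ R)) (fun k b => (fl τ R k b).1)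
    (fun k b => nd τ R b (fl τ R k false)) (fun e p => ∃ s i, p = Quot.mk _ (s, e, i)) γ Y
    (fun e => wt e) (fun k b b' => ⟨b', _, nd_fl k b' b⟩) ?_
    (fun e => ⟨_, true, false, rfl⟩) (by rintro ⟨s, e, i⟩; exact ⟨e, s, i, rfl⟩) ?_ ?_
    (bd_cob hτ) hY ?_ (fun e => hw0 e) fun e => hsum ▸ hw e e.2) fun lab ⟨l1, l2, l3, l4⟩ => ?_
  rotate_right
  · let lab' : E → E := fun e => if h : e ∈ R then (lab ⟨e, h⟩).1 else e
    have hl : ∀ e : R, lab' e = lab e := fun e => dif_pos e.2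
    refine ⟨lab', ?_, ?_, ?_, fun a => ?_⟩
    · have : R.image lab' ⊆ (univ.image lab).image Subtype.val := by
        intro a ha
        obtain ⟨e, he, rfl⟩ := mem_image.1 ha
        exact mem_image.2 ⟨_, mem_image_of_mem _ (mem_univ ⟨e, he⟩), (hl ⟨e, he⟩).symm⟩
      have h2 : ((R.image lab').card : ℝ) ≤ (univ.image lab).card := by
        exact_mod_cast (card_le_card this).trans card_image_le
      exact_mod_cast h2.trans (l2.trans (le_trans (by linarith) hk))
    · intro e he e' he' hee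
      have h1 : lab ⟨e, he⟩ = lab ⟨e', he'⟩ :=
        Subtype.ext ((hl ⟨e, he⟩).symm.trans (hee.trans (hl ⟨e', he'⟩)))
      refine (Link.induct (r := fun a b : R => lab a = lab b ∧ (lab a = lab ⟨e, he⟩ →
        MLink τ (fun x => (x.1 ∈ R ∧ lab' x.1 = lab' e) ∧ (τ x).1 ∈ R ∧ lab' (τ x).1 = lab' e)
          a b)) ⟨fun _ => ⟨rfl, fun _ => Link.refl _⟩,
            fun h => ⟨h.1.symm, fun h' => (h.2 (h.1.trans h')).symm⟩,
            fun h h' => ⟨h.1.trans h'.1, fun h'' => (h.2 h'').trans (h'.2 (h.1.symm.trans h''))⟩⟩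
        (fun k hk => ⟨hk, fun h' => ?_⟩) ((l1 _ _).1 h1)).2 rfl
      refine Link.edge (n := fun x b => (if b then τ x else x).1) (k := k.1.x)
        ⟨⟨k.2.1, ?_⟩, k.2.2, ?_⟩
      · exact (hl (fl τ R k false).1).trans ((congrArg Subtype.val h').trans (hl ⟨e, he⟩).symm)
      · exact (hl (fl τ R k true).1).trans
          ((congrArg Subtype.val (hk.symm.trans h')).trans (hl ⟨e, he⟩).symm)
    · have : (univ.filter fun x : Flag E => x.1 ∈ R ∧ (τ x).1 ∈ R ∧ lab' x.1 ≠ lab' (τ x).1) ⊆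
          ((univ.filter fun k => lab (fl τ R k false).1 ≠ lab (fl τ R k true).1) ×ˢ univ).image
            fun kb : Kor τ R × Bool => emb R (fl τ R kb.1 kb.2) := by
        intro x hx
        obtain ⟨h1, h2, h3⟩ := (mem_filter.1 hx).2
        obtain ⟨k, b, rfl⟩ := hint x h1 h2
        refine mem_image.2 ⟨(k, b), mem_product.2 ⟨mem_filter.2 ⟨mem_univ _, fun h4 => h3 ?_⟩,
          mem_univ _⟩, rfl⟩
        rw [tau_fl hτ]
        refine (hl (fl τ R k b).1).trans (Eq.trans ?_ (hl (fl τ R k (!b)).1).symm)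
        cases b
        · exact congrArg Subtype.val h4
        · exact congrArg Subtype.val h4.symm
      have h2 := (card_le_card this).trans card_image_le
      rw [card_product, card_univ, Fintype.card_bool] at h2
      rw [Fintype.card_coe] at l3
      have h3 : (0 : ℝ) ≤ √(R.card) := Real.sqrt_nonneg _
      calc _ ≤ (((univ.filter fun k =>
            lab (fl τ R k false).1 ≠ lab (fl τ R k true).1).card * 2 : ℕ) : ℝ) := by
            exact_mod_cast h2
        _ ≤ 2 * (c * (γ + 1)) * √(R.card) := by push_cast; linarith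
        _ ≤ _ := mul_le_mul_of_nonneg_right hk h3
    · by_cases ha : a ∈ R
      · have := l4 ⟨a, ha⟩
        rw [hsum, sum_filter] at this
        rw [sum_filter, ← sum_coe_sort R]
        simpa only [hl, Subtype.ext_iff] using this
      · have hb : ∀ e ∈ R, ¬lab' e = a := fun e he h => ha (by
          rw [← h, hl ⟨e, he⟩]; exact (lab ⟨e, he⟩).2)
        rw [filter_eq_empty_iff.2 hb, sum_empty]
        have := sum_nonneg fun e (_ : e ∈ R) => hw0 e
        linarith
  · rintro e _ _ ⟨s, i, rfl⟩ ⟨s', i', rfl⟩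
    by_cases hs : s' = !s
    · subst hs
      exact ⟨_, adj hτ e s i i', Or.inl rfl⟩
    · have hs' : s' = !!s := by revert s s'; decide
      subst hs'
      exact ⟨_, adj hτ e s i false, adj hτ e (!s) false i'⟩
  · rintro e e' _ ⟨s, i, rfl⟩ ⟨s', i', h⟩
    exact link_of_eqv hτ (Quot.eqvGen_exact h)
  · intro e
    refine (card_le_card_of_injOn (t := (univ : Finset (Bool × Bool)))
      (fun kb => (fl τ R kb.1 kb.2).2) (fun _ _ => mem_univ _) fun a ha b hb hab => ?_).trans
      (by simp)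
    exact fl_inj hτ (Prod.ext ((mem_filter.1 ha).2.trans (mem_filter.1 hb).2.symm) hab)
  · intro e e'
    let φ : E → R := fun a => if h : a ∈ R then ⟨a, h⟩ else e
    have hφ : ∀ a : R, φ a = a := fun a => dif_pos a.2
    have := Link.map (n' := fun k b => (fl τ R k b).1) (T := fun _ => True) φ
      (fun x hx => ?_) (hconn e e.2 e' e'.2)
    · rwa [hφ, hφ] at this
    · obtain ⟨k, b, rfl⟩ := hint x hx.1 hx.2
      simp only [if_true, Bool.false_eq_true, if_false, tau_fl hτ]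
      have := Link.edge' (n := fun k b => (fl τ R k b).1) (S := fun _ => True) (k := k) trivial
        b (!b)
      rwa [← hφ (fl τ R k b).1, ← hφ (fl τ R k (!b)).1] at this

end Pool.Agent.Lib.MP_234305_co
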