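import Pool.Agent.Lib.MP_234305_co.H77Stmts

/-!
The nonnegative rank of matrices that compare two triples of positions.
-/

namespace Pool.Agent.Lib.MP_234305_co

open Finset

namespace Ord

/-- Splitting into blocks with labels in finite sets. -/
theorem blocks_fin {I J A B : Type*} {P : I → Prop} {Q : J → Prop} {M : I → J → ℝ}
    (S : Finset A) (T : Finset B) (φ : I → A) (ψ : J → B) (hφ : ∀ i, P i → φ i ∈ S)
    (hψ : ∀ j, Q j → ψ j ∈ T) {n : A × B → ℝ}
    (h : ∀ p ∈ S ×ˢ T, NR (fun i => P i ∧ φ i = p.1) (fun j => Q j ∧ ψ j = p.2) M (n p)) :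
    NR P Q M (∑ p ∈ S ×ˢ T, n p) := by
  classical
  refine (NR.sum (S ×ˢ T) fun p hp => (h p hp).extend).congr fun i j hi hj => ?_
  rw [sum_eq_single (φ i, ψ j)]
  · simp
  · rintro ⟨a, b⟩ _ hne
    rw [if_neg]
    rintro ⟨rfl, rfl⟩
    exact hne rfl
  · intro hn
    exact absurd (mem_product.2 ⟨hφ i hi, hψ j hj⟩) hn

theorem lt_iff_of_div_ne {g h L : ℕ} (hne : g / L ≠ h / L) : g < h ↔ g / L < h / L := by
  constructor
  · intro hlt
    exact lt_of_le_of_ne (Nat.div_le_div_right hlt.le) hne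
  · exact Nat.lt_of_div_lt_div

theorem lt_iff_of_div_eq {g h L : ℕ} (he : g / L = h / L) : g < h ↔ g % L < h % L := by
  have h1 := Nat.div_add_mod g L
  have h2 := Nat.div_add_mod h L
  rw [he] at h1
  omega

theorem eq_of_div_mod {g h L : ℕ} (h1 : g / L = h / L) (h2 : g % L = h % L) : g = h := by
  rw [← Nat.div_add_mod g L, ← Nat.div_add_mod h L, h1, h2]

/-- Entries that depend on two coordinates of the row only. -/
theorem cheap_row {J : Type*} {P : (Fin 3 → ℕ) → Prop} {Q : J → Prop}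
    {M : (Fin 3 → ℕ) → J → ℝ} {L : ℕ} (hL : 0 < L) (a : Fin 3 → ℕ) (i0 : Fin 3)
    (hP : ∀ α, P α → ∀ i, α i / L = a i) (h0 : ∀ α β, P α → Q β → 0 ≤ M α β)
    (hdep : ∀ α α' β, P α → P α' → Q β → (∀ i, i ≠ i0 → α i = α' i) → M α β = M α' β) :
    NR P Q M ((L : ℝ) ^ 2) := by
  have key := NR.of_row_label (P := P) (Q := Q) (M := M) (range L ×ˢ range L)
    (fun α => (α (i0 + 1) % L, α (i0 + 2) % L))
    (fun α _ => mem_product.2 ⟨mem_range.2 (Nat.mod_lt _ hL), mem_range.2 (Nat.mod_lt _ hL)⟩)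
    h0 (fun α α' β hα hα' hβ he => hdep α α' β hα hα' hβ fun i hi => by
      have h3 : ∀ i0 i : Fin 3, i ≠ i0 → i = i0 + 1 ∨ i = i0 + 2 := by decide
      rw [Prod.mk.injEq] at he
      rcases h3 i0 i hi with rfl | rfl
      · exact eq_of_div_mod ((hP α hα _).trans (hP α' hα' _).symm) he.1
      · exact eq_of_div_mod ((hP α hα _).trans (hP α' hα' _).symm) he.2)
  refine key.mono (le_of_eq ?_)
  rw [card_product, card_range]
  push_cast
  ring

/-- The comparison pattern of two triples. -/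
def cmp (g h : Fin 3 → ℕ) : Fin 3 → Bool := fun i => decide (g i < h i)

/-- The indicator of a pair of complementary patterns. -/
def ind (c o : Fin 3 → Bool) : ℝ := if o = c ∨ o = fun i => !c i then 1 else 0

/-- The indicator that two bits do not agree with `c` in the same way. -/
def xr (c o : Fin 3 → Bool) (i : Fin 3) : ℝ :=
  if (o (i + 1) = c (i + 1) ↔ o (i + 2) = c (i + 2)) then 0 else 1

theorem ind_nonneg (c o : Fin 3 → Bool) : 0 ≤ ind c o := by
  unfold ind; split_ifs <;> norm_num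

theorem xr_nonneg (c o : Fin 3 → Bool) (i : Fin 3) : 0 ≤ xr c o i := by
  unfold xr; split_ifs <;> norm_num

theorem xr_congr (c : Fin 3 → Bool) {o o' : Fin 3 → Bool} (i : Fin 3)
    (h1 : o (i + 1) = o' (i + 1)) (h2 : o (i + 2) = o' (i + 2)) : xr c o i = xr c o' i :=
  if_congr (by rw [h1, h2]) rfl rfl

theorem one_sub_ind (c o : Fin 3 → Bool) : 1 - ind c o = ∑ i, 1 / 2 * xr c o i := by
  have h : ∀ c o : Fin 3 → Bool, (o = c ∨ o = fun i => !c i) ↔
      ((o 1 = c 1 ↔ o 2 = c 2) ∧ (o 2 = c 2 ↔ o 0 = c 0)) := by decide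
  have h1 : ((0 : Fin 3) + 1 = 1) ∧ ((0 : Fin 3) + 2 = 2) ∧ ((1 : Fin 3) + 1 = 2) ∧
      ((1 : Fin 3) + 2 = 0) ∧ ((2 : Fin 3) + 1 = 0) ∧ ((2 : Fin 3) + 2 = 1) := by decide
  rw [Fin.sum_univ_three]
  simp only [ind, xr, h, h1.1, h1.2.1, h1.2.2.1, h1.2.2.2.1, h1.2.2.2.2.1, h1.2.2.2.2.2]
  by_cases a0 : o 0 = c 0 <;> by_cases a1 : o 1 = c 1 <;> by_cases a2 : o 2 = c 2 <;>
    simp only [a0, a1, a2] <;> norm_num

/-- The line through a vector of leading digits in the direction given by `c`. -/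
def line (c : Fin 3 → Bool) (G : Fin 3 → ℕ) : ℤ × ℤ :=
  ((if c 0 then (G 0 : ℤ) else -G 0) - (if c 1 then (G 1 : ℤ) else -G 1),
    (if c 0 then (G 0 : ℤ) else -G 0) - (if c 2 then (G 2 : ℤ) else -G 2))

theorem line_mem (c : Fin 3 → Bool) {G : Fin 3 → ℕ} {B : ℕ} (hG : ∀ i, G i < B) :
    line c G ∈ Icc (-(2 * B : ℤ)) (2 * B) ×ˢ Icc (-(2 * B : ℤ)) (2 * B) := by
  have h0 := hG 0
  have h1 := hG 1
  have h2 := hG 2
  simp only [line, mem_product, mem_Icc]
  split_ifs <;> omega

theorem line_eq {c : Fin 3 → Bool} {G H : Fin 3 → ℕ} (hl : line c G = line c H) (hne : G ≠ H) :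
    (∀ i, G i ≠ H i) ∧ (cmp G H = c ∨ cmp G H = fun i => !c i) := by
  have hne' : ¬ (G 0 = H 0 ∧ G 1 = H 1 ∧ G 2 = H 2) := by
    rintro ⟨a, b, d⟩
    apply hne
    funext i
    fin_cases i
    exacts [a, b, d]
  simp only [line, Prod.mk.injEq] at hl
  obtain ⟨l1, l2⟩ := hl
  simp only [funext_iff, Fin.forall_fin_succ, cmp, IsEmpty.forall_iff, and_true,
    Fin.succ_zero_eq_one, Fin.succ_one_eq_two]
  rcases h0 : c 0 <;> rcases h1 : c 1 <;> rcases h2 : c 2 <;>
    simp only [h0, h1, h2, if_true, Bool.false_eq_true, if_false] at l1 l2 <;>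
    simp only [decide_eq_false_iff_not, decide_eq_true_eq, Bool.not_true, Bool.not_false] <;>
    omega

theorem cmp_of_ne {g h : Fin 3 → ℕ} {L : ℕ} (hne : ∀ i, g i / L ≠ h i / L) :
    cmp g h = cmp (fun i => g i / L) (fun i => h i / L) := by
  funext i
  simp only [cmp, lt_iff_of_div_ne (hne i)]

theorem cmp_of_eq {g h : Fin 3 → ℕ} {L : ℕ} (he : ∀ i, g i / L = h i / L) :
    cmp g h = cmp (fun i => g i % L) (fun i => h i % L) := by
  funext i
  simp only [cmp, lt_iff_of_div_eq (he i)]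

/-- The part of the matrix that is not inherited from the lower digits. -/
theorem rest_block (c : Fin 3 → Bool) {L : ℕ} (hL : 0 < L) (G H : Fin 3 → ℕ) :
    NR (fun g : Fin 3 → ℕ => ∀ i, g i / L = G i) (fun h : Fin 3 → ℕ => ∀ i, h i / L = H i)
      (fun g h => ind c (cmp g h) - if line c G = line c H then
        ind c (cmp (fun i => g i % L) fun i => h i % L) else 0) (3 * (L : ℝ) ^ 2) := by
  by_cases hGH : G = H
  · subst hGH
    refine NR.zero (fun g h hg hh => ?_) (by positivity)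
    rw [if_pos rfl, cmp_of_eq (L := L) fun i => (hg i).trans (hh i).symm, sub_self]
  by_cases hl : line c G = line c H
  · obtain ⟨h1, h2⟩ := line_eq hl hGH
    have key : ∀ i ∈ (univ : Finset (Fin 3)), NR (fun g : Fin 3 → ℕ => ∀ i, g i / L = G i)
        (fun h : Fin 3 → ℕ => ∀ i, h i / L = H i)
        (fun g h => 1 / 2 * xr c (cmp (fun i => g i % L) fun i => h i % L) i) ((L : ℝ) ^ 2) := by
      intro i _
      refine cheap_row hL G i (fun _ h => h)
        (fun g h _ _ => mul_nonneg (by norm_num) (xr_nonneg _ _ _)) fun g g' h _ _ _ he => ?_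
      have h3 : ∀ i : Fin 3, i + 1 ≠ i ∧ i + 2 ≠ i := by decide
      rw [xr_congr c i (o' := cmp (fun i => g' i % L) fun i => h i % L)
        (by simp only [cmp, he _ (h3 i).1]) (by simp only [cmp, he _ (h3 i).2])]
    refine ((NR.sum_le univ key).congr fun g h hg hh => ?_).mono (by simp)
    rw [if_pos hl, ← one_sub_ind, cmp_of_ne (L := L) fun i => by rw [hg i, hh i]; exact h1 i]
    have e1 : (fun i => g i / L) = G := funext hg
    have e2 : (fun i => h i / L) = H := funext hh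
    rw [e1, e2, ind, if_pos h2]
  · obtain ⟨i0, hi0⟩ : ∃ i, G i ≠ H i := by
      by_contra hc
      push Not at hc
      exact hGH (funext hc)
    refine (cheap_row hL G i0 (fun _ h => h) (fun g h _ _ => ?_)
      fun g g' h hg hg' hh he => ?_).mono (by nlinarith [sq_nonneg (L : ℝ)])
    · rw [if_neg hl, sub_zero]; exact ind_nonneg _ _
    · rw [if_neg hl, if_neg hl]
      congr 2
      funext i
      by_cases hi : i = i0
      · subst hi
        simp only [cmp, lt_iff_of_div_ne (g := g i) (h := h i) (L := L)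
          (by rw [hg, hh]; exact hi0), lt_iff_of_div_ne (g := g' i) (h := h i) (L := L)
          (by rw [hg', hh]; exact hi0), hg i, hg' i]
      · simp only [cmp, he i hi]

/-- The matrix of a pair of complementary patterns. -/
theorem pair_lemma (c : Fin 3 → Bool) {B : ℕ} (hB : 0 < B) (j : ℕ) :
    NR (fun g : Fin 3 → ℕ => ∀ i, g i < B ^ j) (fun h : Fin 3 → ℕ => ∀ i, h i < B ^ j)
      (fun g h => ind c (cmp g h)) (28 ^ j * (B : ℝ) ^ (2 * j + 4)) := by
  have hB1 : (1 : ℝ) ≤ B := by exact_mod_cast hB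
  induction j with
  | zero =>
    refine (NR.rank_one (fun _ => 1) (fun h => ind c (cmp 0 h)) (fun _ _ => zero_le_one)
      (fun _ _ => ind_nonneg _ _) fun g h hg _ => ?_).mono ?_
    · have : g = 0 := funext fun i => by simpa using hg i
      rw [this, one_mul]
    · simpa using one_le_pow₀ hB1
  | succ j ih =>
    set L := B ^ j with hLdef
    have hL : 0 < L := by positivity
    have hdiv : ∀ g : Fin 3 → ℕ, (∀ i, g i < B ^ (j + 1)) → ∀ i, g i / L < B := fun g hg i =>
      Nat.div_lt_of_lt_mul (by rw [hLdef, ← pow_succ]; exact hg i)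
    set S : Finset (ℤ × ℤ) := Icc (-(2 * B : ℤ)) (2 * B) ×ˢ Icc (-(2 * B : ℤ)) (2 * B) with hS
    have h1 : ∀ l ∈ S, NR (fun g : Fin 3 → ℕ => ∀ i, g i < B ^ (j + 1))
        (fun h : Fin 3 → ℕ => ∀ i, h i < B ^ (j + 1))
        (fun g h => if line c (fun i => g i / L) = l ∧ line c (fun i => h i / L) = l then
          ind c (cmp (fun i => g i % L) fun i => h i % L) else 0)
        (28 ^ j * (B : ℝ) ^ (2 * j + 4)) := by
      intro l _
      refine (NR.extend (P' := fun g : Fin 3 → ℕ => line c (fun i => g i / L) = l)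
        (Q' := fun h : Fin 3 → ℕ => line c (fun i => h i / L) = l)
        (M := fun g h => ind c (cmp (fun i => g i % L) fun i => h i % L)) ?_).congr
        fun g h _ _ => by split_ifs <;> rfl
      exact ih.comap (fun g i => g i % L) (fun h i => h i % L)
        (fun g _ i => Nat.mod_lt _ hL) (fun g _ i => Nat.mod_lt _ hL) fun _ _ _ _ => rfl
    set T : Finset (Fin 3 → ℕ) := Fintype.piFinset fun _ => range B with hT
    have h2 := blocks_fin (P := fun g : Fin 3 → ℕ => ∀ i, g i < B ^ (j + 1))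
      (Q := fun h : Fin 3 → ℕ => ∀ i, h i < B ^ (j + 1))
      (M := fun g h => ind c (cmp g h) -
        if line c (fun i => g i / L) = line c (fun i => h i / L) then
          ind c (cmp (fun i => g i % L) fun i => h i % L) else 0)
      T T (fun g i => g i / L) (fun h i => h i / L)
      (fun g hg => Fintype.mem_piFinset.2 fun i => mem_range.2 (hdiv g hg i))
      (fun g hg => Fintype.mem_piFinset.2 fun i => mem_range.2 (hdiv g hg i))
      (n := fun _ => 3 * (L : ℝ) ^ 2) (fun p _ =>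
        (rest_block c hL p.1 p.2).comap id id (fun g hg i => congrFun hg.2 i)
          (fun g hg i => congrFun hg.2 i) fun g h hg hh => by
            simp only [id, hg.2, hh.2])
    refine (((NR.sum_le S h1).add h2).congr fun g h hg hh => ?_).mono ?_
    · by_cases hl : line c (fun i => g i / L) = line c (fun i => h i / L)
      · rw [if_pos hl, sum_eq_single (line c fun i => g i / L)]
        · rw [if_pos ⟨rfl, hl.symm⟩]; ring
        · intro l _ hne
          rw [if_neg fun h => hne h.1.symm]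
        · intro hn
          exact absurd (line_mem c (hdiv g hg)) hn
      · rw [if_neg hl, sum_eq_zero fun l _ => if_neg fun h => hl (h.1.trans h.2.symm)]
        ring
    · have c1 : (S.card : ℝ) ≤ 25 * (B : ℝ) ^ 2 := by
        have : (S.card : ℝ) = (4 * B + 1) ^ 2 := by
          rw [hS, card_product, Int.card_Icc]
          have : (2 * (B : ℤ) + 1 - -(2 * B)).toNat = 4 * B + 1 := by omega
          rw [this]; push_cast; ring
        rw [this]; nlinarith
      have c2 : ((T ×ˢ T).card : ℝ) = (B : ℝ) ^ 6 := by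
        rw [card_product, hT, Fintype.card_piFinset]
        simp only [card_range, prod_const, card_univ, Fintype.card_fin]
        push_cast; ring
      rw [sum_const, nsmul_eq_mul, c2, hLdef]
      push_cast
      have c3 : (1 : ℝ) ≤ 28 ^ j := one_le_pow₀ (by norm_num)
      have c4 : (0 : ℝ) ≤ (B : ℝ) ^ (2 * j + 6) := by positivity
      calc (S.card : ℝ) * (28 ^ j * (B : ℝ) ^ (2 * j + 4)) + (B : ℝ) ^ 6 * (3 * ((B : ℝ) ^ j) ^ 2)
          ≤ 25 * (B : ℝ) ^ 2 * (28 ^ j * (B : ℝ) ^ (2 * j + 4)) +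
            (B : ℝ) ^ 6 * (3 * ((B : ℝ) ^ j) ^ 2) := by gcongr
        _ = (25 * 28 ^ j + 3) * (B : ℝ) ^ (2 * j + 6) := by ring
        _ ≤ (28 * 28 ^ j) * (B : ℝ) ^ (2 * j + 6) := by gcongr; linarith
        _ = 28 ^ (j + 1) * (B : ℝ) ^ (2 * (j + 1) + 4) := by ring

/-- The six labels take at most two values. -/
def Two (a b : Fin 3 → ℕ) : Prop :=
  ∃ x y, (∀ i, a i = x ∨ a i = y) ∧ ∀ k, b k = x ∨ b k = y

theorem cases_of_not_two {a b : Fin 3 → ℕ} (h : ¬ Two a b) :
    (∃ i, ∀ k, a i ≠ b k) ∨ (∃ k, ∀ i, a i ≠ b k) ∨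
      (Function.Injective a ∧ ∃ π : Equiv.Perm (Fin 3), ∀ i, b (π i) = a i) := by
  by_cases h1 : ∃ i, ∀ k, a i ≠ b k
  · exact Or.inl h1
  by_cases h2 : ∃ k, ∀ i, a i ≠ b k
  · exact Or.inr (Or.inl h2)
  push Not at h1 h2
  have hinj : Function.Injective a := by
    intro i i' he
    by_contra hne
    have h3 : ∀ i i' : Fin 3, i ≠ i' → ∃ m : Fin 3, ∀ t, t = i ∨ t = i' ∨ t = m := by decide
    obtain ⟨m, hm⟩ := h3 i i' hne
    have ha : ∀ t, a t = a i ∨ a t = a m := fun t => by
      rcases hm t with rfl | rfl | rfl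
      exacts [Or.inl rfl, Or.inl he.symm, Or.inr rfl]
    refine h ⟨a i, a m, ha, fun k => ?_⟩
    obtain ⟨t, ht⟩ := h2 k
    rw [← ht]
    exact ha t
  choose p hp using h1
  have hp' : Function.Injective p := fun i i' he => hinj (by rw [hp i, hp i', he])
  exact Or.inr (Or.inr ⟨hinj, Equiv.ofBijective p hp'.bijective_of_finite,
    fun i => (hp i).symm⟩)

section Main

variable {Φ : (Fin 3 → Fin 3 → Bool) → Bool} {rA rB : Fin 3 → Fin 3 → Prop}

/-- The entry of the comparison matrix. -/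
def ent (Φ : (Fin 3 → Fin 3 → Bool) → Bool) (α β : Fin 3 → ℕ) : ℝ :=
  if Φ (fun i j => decide (α i < β j)) then 1 else 0

theorem ent_nonneg (α β : Fin 3 → ℕ) : 0 ≤ ent Φ α β := by
  unfold ent; split_ifs <;> norm_num

theorem ent_congr {α β α' β' : Fin 3 → ℕ} (h : ∀ i k, α i < β k ↔ α' i < β' k) :
    ent Φ α β = ent Φ α' β' := by
  have : (fun i j => decide (α i < β j)) = fun i j => decide (α' i < β' j) := by
    funext i k
    exact decide_eq_decide.2 (h i k)
  unfold ent
  rw [this]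

/-- The hypothesis on the Boolean function. -/
def Hyp (Φ : (Fin 3 → Fin 3 → Bool) → Bool) (rA rB : Fin 3 → Fin 3 → Prop) : Prop :=
  ∀ (π : Equiv.Perm (Fin 3)) (ρ : Fin 3 → ℕ), Function.Injective ρ →
    (∀ i j, rA i j → ρ i < ρ j) → (∀ i j, rB (π i) (π j) → ρ i < ρ j) →
    Good fun d => Φ fun i j => if j = π i then d i else decide (ρ i < ρ (π.symm j))

/-- The rows or columns of a block. -/
def Blk (r : Fin 3 → Fin 3 → Prop) (L : ℕ) (a α : Fin 3 → ℕ) : Prop :=
  (∀ i j, r i j → α i < α j) ∧ ∀ i, α i / L = a i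

theorem three (H : Hyp Φ rA rB) {B : ℕ} (hB : 0 < B) (j : ℕ) {a b : Fin 3 → ℕ}
    (h : ¬ Two a b) :
    NR (Blk rA (B ^ j) a) (Blk rB (B ^ j) b) (ent Φ) (28 ^ j * (B : ℝ) ^ (2 * j + 4)) := by
  have hB1 : (1 : ℝ) ≤ B := by exact_mod_cast hB
  set L := B ^ j with hLdef
  have hL : 0 < L := by positivity
  have hle : (L : ℝ) ^ 2 ≤ 28 ^ j * (B : ℝ) ^ (2 * j + 4) := by
    rw [hLdef]
    push_cast
    calc ((B : ℝ) ^ j) ^ 2 = 1 * (B : ℝ) ^ (2 * j) := by ring
      _ ≤ _ := by
        gcongr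
        · exact one_le_pow₀ (by norm_num)
        · omega
  rcases cases_of_not_two h with ⟨i0, h1⟩ | ⟨k0, h1⟩ | ⟨hinj, π, hπ⟩
  · refine (cheap_row hL a i0 (fun _ h => h.2) (fun _ _ _ _ => ent_nonneg _ _)
      fun α α' β hα hα' hβ he => ent_congr fun i k => ?_).mono hle
    by_cases hi : i = i0
    · subst hi
      rw [lt_iff_of_div_ne (L := L) (by rw [hα.2, hβ.2]; exact h1 k),
        lt_iff_of_div_ne (g := α' i) (L := L) (by rw [hα'.2, hβ.2]; exact h1 k), hα.2, hα'.2]
    · rw [he i hi]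
  · refine (cheap_row (M := fun β α => ent Φ α β) hL b k0 (fun _ h => h.2)
      (fun _ _ _ _ => ent_nonneg _ _)
      fun β β' α hβ hβ' hα he => ent_congr fun i k => ?_).swap.mono hle
    by_cases hk : k = k0
    · subst hk
      rw [lt_iff_of_div_ne (L := L) (by rw [hα.2, hβ.2]; exact h1 i),
        lt_iff_of_div_ne (h := β' k) (L := L) (by rw [hα.2, hβ'.2]; exact h1 i), hβ.2, hβ'.2]
    · rw [he k hk]
  by_cases hrow : ∃ α, Blk rA L a α
  swap
  · exact NR.zero (fun α _ hα _ => (hrow ⟨α, hα⟩).elim) (by positivity)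
  by_cases hcol : ∃ β, Blk rB L b β
  swap
  · exact NR.zero (fun _ β _ hβ => (hcol ⟨β, hβ⟩).elim) (by positivity)
  obtain ⟨α0, hα0⟩ := hrow
  obtain ⟨β0, hβ0⟩ := hcol
  have hgood := H π a hinj (fun i i' hr => by
      have h1 := hα0.1 i i' hr
      have h2 : a i ≤ a i' := by rw [← hα0.2, ← hα0.2]; exact Nat.div_le_div_right h1.le
      refine lt_of_le_of_ne h2 fun he => ?_
      rw [hinj he] at h1
      exact lt_irrefl _ h1) (fun i i' hr => by
      have h1 := hβ0.1 _ _ hr
      have h2 : a i ≤ a i' := by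
        rw [← hπ, ← hπ, ← hβ0.2, ← hβ0.2]; exact Nat.div_le_div_right h1.le
      refine lt_of_le_of_ne h2 fun he => ?_
      rw [hinj he] at h1
      exact lt_irrefl _ h1)
  set f : (Fin 3 → Bool) → Bool :=
    fun d => Φ fun i j => if j = π i then d i else decide (a i < a (π.symm j)) with hf
  have hent : ∀ α β, Blk rA L a α → Blk rB L b β → ent Φ α β =
      if f (cmp (fun i => α i % L) fun i => β (π i) % L) then 1 else 0 := by
    intro α β hα hβ
    have : (fun i j => decide (α i < β j)) = fun i j => if j = π i then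
        cmp (fun i => α i % L) (fun i => β (π i) % L) i else decide (a i < a (π.symm j)) := by
      funext i k
      by_cases hk : k = π i
      · rw [if_pos hk, hk]
        exact decide_eq_decide.2 (lt_iff_of_div_eq (by rw [hα.2, hβ.2, hπ]))
      · rw [if_neg hk]
        have hb : b k = a (π.symm k) := by rw [← hπ, Equiv.apply_symm_apply]
        refine decide_eq_decide.2 ?_
        rw [lt_iff_of_div_ne (L := L), hα.2, hβ.2, hb]
        rw [hα.2, hβ.2, hb]
        intro he
        exact hk (by rw [hinj he, Equiv.apply_symm_apply])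
    rw [ent, this]
  rcases hgood with ⟨i0, hi0⟩ | ⟨c, hc⟩
  · refine (cheap_row hL a i0 (fun _ h => h.2) (fun _ _ _ _ => ent_nonneg _ _)
      fun α α' β hα hα' hβ he => ?_).mono hle
    rw [hent α β hα hβ, hent α' β hα' hβ]
    set d := cmp (fun i => α i % L) fun i => β (π i) % L with hd
    set d' := cmp (fun i => α' i % L) fun i => β (π i) % L with hd'
    have hdd : ∀ i, i ≠ i0 → d' i = d i := fun i hi => by simp only [hd, hd', cmp, he i hi]
    have : f d' = f d := by
      by_cases h0 : d' i0 = d i0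
      · rw [show d' = d from funext fun i => by
          by_cases hi : i = i0
          exacts [hi ▸ h0, hdd i hi]]
      · rw [← hi0 d]
        congr 1
        funext i
        by_cases hi : i = i0
        · subst hi
          rw [Function.update_self]
          exact Bool.eq_not.2 h0
        · rw [Function.update_of_ne hi, hdd i hi]
    rw [this]
  · refine (pair_lemma c hB j).comap (fun α i => α i % L) (fun β i => β (π i) % L)
      (fun _ _ i => Nat.mod_lt _ hL) (fun _ _ i => Nat.mod_lt _ hL) fun α β hα hβ => ?_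
    rw [hent α β hα hβ]
    exact if_congr (hc _) rfl rfl

theorem card_two {U : Finset ℕ} {S T : Finset (Fin 3 → ℕ)} (hS : ∀ a ∈ S, ∀ i, a i ∈ U)
    (hT : ∀ b ∈ T, ∀ i, b i ∈ U) [DecidablePred fun p : (Fin 3 → ℕ) × (Fin 3 → ℕ) => Two p.1 p.2] :
    ((S ×ˢ T).filter fun p => Two p.1 p.2).card ≤ 64 * U.card ^ 2 := by
  have hsub : ((S ×ˢ T).filter fun p => Two p.1 p.2) ⊆
      ((U ×ˢ U) ×ˢ (univ : Finset ((Fin 3 → Bool) × (Fin 3 → Bool)))).image fun q =>
        (fun i => if q.2.1 i then q.1.1 else q.1.2, fun i => if q.2.2 i then q.1.1 else q.1.2) := by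
    rintro ⟨a, b⟩ hp
    obtain ⟨hp1, x, y, hx, hy⟩ := mem_filter.1 hp
    obtain ⟨ha, hb⟩ := mem_product.1 hp1
    dsimp only at ha hb hx hy
    refine mem_image.2 ⟨((if x ∈ U then x else a 0, if y ∈ U then y else a 0),
      (fun i => decide (a i = x), fun i => decide (b i = x))),
      mem_product.2 ⟨mem_product.2 ⟨?_, ?_⟩, mem_univ _⟩, ?_⟩
    · dsimp only; split_ifs with h; exacts [h, hS a ha 0]
    · dsimp only; split_ifs with h; exacts [h, hS a ha 0]
    · have key : ∀ z ∈ U, (z = x ∨ z = y) → (if decide (z = x) = true then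
          (if x ∈ U then x else a 0) else if y ∈ U then y else a 0) = z := by
        intro z hz hxy
        by_cases h : z = x
        · rw [if_pos (decide_eq_true h), if_pos (h ▸ hz), h]
        · have h' := hxy.resolve_left h
          rw [if_neg (by simpa using h), if_pos (h' ▸ hz), h']
      exact Prod.ext (funext fun i => key _ (hS a ha i) (hx i))
        (funext fun i => key _ (hT b hb i) (hy i))
  refine (card_le_card hsub).trans (card_image_le.trans (le_of_eq ?_))
  rw [card_product, card_product, card_univ, Fintype.card_prod, Fintype.card_fun,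
    Fintype.card_bool, Fintype.card_fin]
  ring

theorem two (H : Hyp Φ rA rB) {B : ℕ} (hB : 0 < B) (j : ℕ) : ∀ a b : Fin 3 → ℕ, Two a b →
    NR (Blk rA (B ^ j) a) (Blk rB (B ^ j) b) (ent Φ) (257 ^ j * (B : ℝ) ^ (2 * j + 8)) := by
  classical
  have hB1 : (1 : ℝ) ≤ B := by exact_mod_cast hB
  induction j with
  | zero =>
    intro a b _
    refine (NR.rank_one (fun _ => 1) (fun β => ent Φ a β) (fun _ _ => zero_le_one)
      (fun _ _ => ent_nonneg _ _) fun α β hα _ => ?_).mono ?_
    · have : α = a := funext fun i => by simpa using hα.2 i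
      rw [this, one_mul]
    · simpa using one_le_pow₀ hB1
  | succ j ih =>
    rintro a b ⟨x, y, hx, hy⟩
    set L := B ^ j with hLdef
    have hL : 0 < L := by positivity
    have hmem : ∀ g t : ℕ, g / B ^ (j + 1) = t → g / L ∈ Ico (t * B) (t * B + B) := by
      intro g t hg
      rw [pow_succ, ← Nat.div_div_eq_div_mul, ← hLdef] at hg
      have h1 := Nat.div_add_mod (g / L) B
      have h2 := Nat.mod_lt (g / L) hB
      rw [hg, mul_comm] at h1
      rw [mem_Ico]
      omega
    set S : Finset (Fin 3 → ℕ) := Fintype.piFinset fun i => Ico (a i * B) (a i * B + B) with hS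
    set T : Finset (Fin 3 → ℕ) := Fintype.piFinset fun i => Ico (b i * B) (b i * B + B) with hT
    set U : Finset ℕ := Ico (x * B) (x * B + B) ∪ Ico (y * B) (y * B + B) with hU
    have h1 := blocks_fin (P := Blk rA (B ^ (j + 1)) a) (Q := Blk rB (B ^ (j + 1)) b)
      (M := ent Φ) S T (fun g i => g i / L) (fun h i => h i / L)
      (fun g hg => Fintype.mem_piFinset.2 fun i => hmem _ _ (hg.2 i))
      (fun g hg => Fintype.mem_piFinset.2 fun i => hmem _ _ (hg.2 i))
      (n := fun p => if Two p.1 p.2 then 257 ^ j * (B : ℝ) ^ (2 * j + 8)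
        else 28 ^ j * (B : ℝ) ^ (2 * j + 4)) (fun p _ => by
          have : NR (Blk rA L p.1) (Blk rB L p.2) (ent Φ) (if Two p.1 p.2 then
              257 ^ j * (B : ℝ) ^ (2 * j + 8) else 28 ^ j * (B : ℝ) ^ (2 * j + 4)) := by
            split_ifs with h
            exacts [ih _ _ h, three H hB j h]
          exact this.comap id id (fun g hg => ⟨hg.1.1, congrFun hg.2⟩)
            (fun g hg => ⟨hg.1.1, congrFun hg.2⟩) fun _ _ _ _ => rfl)
    refine h1.mono ?_
    have hin : ∀ t z : ℕ, (t = x ∨ t = y) → z ∈ Ico (t * B) (t * B + B) → z ∈ U := by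
      rintro t z (rfl | rfl) hz
      exacts [mem_union_left _ hz, mem_union_right _ hz]
    have c1 := card_two (U := U) (S := S) (T := T)
      (fun g hg i => hin _ _ (hx i) (Fintype.mem_piFinset.1 hg i))
      (fun g hg i => hin _ _ (hy i) (Fintype.mem_piFinset.1 hg i))
    have c2 : U.card ≤ 2 * B := by
      refine (card_union_le _ _).trans ?_
      rw [Nat.card_Ico, Nat.card_Ico]
      omega
    have c3 : (((S ×ˢ T).filter fun p => Two p.1 p.2).card : ℝ) ≤ 256 * (B : ℝ) ^ 2 := by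
      have : ((S ×ˢ T).filter fun p => Two p.1 p.2).card ≤ 256 * B ^ 2 :=
        c1.trans (by nlinarith [Nat.pow_le_pow_left c2 2])
      exact_mod_cast this
    have c4 : (((S ×ˢ T).filter fun p => ¬ Two p.1 p.2).card : ℝ) ≤ (B : ℝ) ^ 6 := by
      have : ((S ×ˢ T).filter fun p => ¬ Two p.1 p.2).card ≤ B ^ 6 := by
        refine (card_filter_le _ _).trans (le_of_eq ?_)
        rw [card_product, hS, hT, Fintype.card_piFinset, Fintype.card_piFinset]
        simp only [Nat.card_Ico, add_tsub_cancel_left, prod_const, card_univ, Fintype.card_fin]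
        ring
      exact_mod_cast this
    rw [sum_ite, sum_const, sum_const, nsmul_eq_mul, nsmul_eq_mul]
    have c5 : (28 : ℝ) ^ j ≤ 257 ^ j := by gcongr; norm_num
    calc _ ≤ 256 * (B : ℝ) ^ 2 * (257 ^ j * (B : ℝ) ^ (2 * j + 8)) +
          (B : ℝ) ^ 6 * (257 ^ j * (B : ℝ) ^ (2 * j + 4)) := by gcongr
      _ = 257 ^ (j + 1) * (B : ℝ) ^ (2 * (j + 1) + 8) := by ring

end Main

theorem exists_base {ε : ℝ} (hε : 0 < ε) : ∃ d : ℕ, ∀ w : ℕ, 1 ≤ w → ∃ B : ℕ, 0 < B ∧
    w ≤ B ^ d ∧ (B : ℝ) ^ (2 * d + 8) ≤ 2 ^ (2 * d + 8) * (w : ℝ) ^ (2 + ε) := by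
  obtain ⟨d, hd⟩ := exists_nat_gt (8 / ε)
  have hd0 : (0 : ℝ) < d := lt_trans (by positivity) hd
  have hd1 : d ≠ 0 := by rintro rfl; simp at hd0
  refine ⟨d, fun w hw => ?_⟩
  have hw1 : (1 : ℝ) ≤ w := by exact_mod_cast hw
  set r : ℝ := (w : ℝ) ^ ((d : ℝ)⁻¹) with hr
  have hr1 : 1 ≤ r := Real.one_le_rpow hw1 (by positivity)
  have hrd : r ^ d = w := Real.rpow_inv_natCast_pow (by positivity) hd1
  refine ⟨⌈r⌉₊, Nat.ceil_pos.2 (by linarith), ?_, ?_⟩
  · have : (w : ℝ) ≤ (⌈r⌉₊ : ℝ) ^ d := by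
      rw [← hrd]
      exact pow_le_pow_left₀ (by linarith) (Nat.le_ceil r) d
    exact_mod_cast this
  · have h1 : (⌈r⌉₊ : ℝ) ≤ 2 * r := by
      have := Nat.ceil_lt_add_one (show 0 ≤ r by linarith)
      linarith
    have h2 : r ^ (2 * d + 8) ≤ (w : ℝ) ^ (2 + ε) := by
      rw [hr, ← Real.rpow_natCast, ← Real.rpow_mul (by positivity)]
      refine Real.rpow_le_rpow_of_exponent_le hw1 ?_
      have h3 : 8 / (d : ℝ) ≤ ε := by
        rw [div_le_iff₀ hd0]
        rw [div_lt_iff₀ hε] at hd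
        linarith
      have h4 : (d : ℝ)⁻¹ * ((2 * d + 8 : ℕ) : ℝ) = 2 + 8 / d := by
        push_cast
        field_simp
      linarith
    calc (⌈r⌉₊ : ℝ) ^ (2 * d + 8) ≤ (2 * r) ^ (2 * d + 8) := by gcongr
      _ = 2 ^ (2 * d + 8) * r ^ (2 * d + 8) := mul_pow _ _ _
      _ ≤ _ := by gcongr

end Ord

theorem order_lemma : OrderStmt := by
  intro ε hε
  obtain ⟨d, hd⟩ := Ord.exists_base hε
  refine ⟨257 ^ d * 2 ^ (2 * d + 8), by positivity, fun w Φ rA rB H => ?_⟩
  rcases Nat.eq_zero_or_pos w with rfl | hw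
  · exact NR.zero (fun α _ hα _ => absurd (hα.1 0) (Nat.not_lt_zero _)) (by positivity)
  obtain ⟨B, hB, h1, h2⟩ := hd w hw
  refine ((Ord.two (Φ := Φ) (rA := rA) (rB := rB) H hB d 0 0
    ⟨0, 0, fun _ => Or.inl rfl, fun _ => Or.inl rfl⟩).comap id id
    (fun α hα => ⟨hα.2, fun i => Nat.div_eq_of_lt ((hα.1 i).trans_le h1)⟩)
    (fun α hα => ⟨hα.2, fun i => Nat.div_eq_of_lt ((hα.1 i).trans_le h1)⟩)
    fun _ _ _ _ => rfl).mono ?_
  rw [mul_assoc]
  gcongr

end Pool.Agent.Lib.MP_234305_co
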