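import Pool.Agent.Lib.MP_234305_co.H85Par

/-!
Gluing along a seam with small cycle space.
-/

set_option linter.unusedSectionVars false

namespace Pool.Agent.Lib.MP_234305_co

namespace Glue

open Finset Matrix Function

/-- The conclusion of the gluing lemma for two units. -/
def Run (ε K : ℝ) : Prop :=
    ∀ (E : Type) [Fintype E] [DecidableEq E] (cl cl' : Bool → Dart E → Finset (Dart E))
      (op : Bool → Finset (Finset (Dart E))) (ι : Type) [Fintype ι] [DecidableEq ι]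
      (u : Bool → Finset (Dart E) → ι) (pos : Bool → Finset (Dart E) → ℕ) (γ w l : ℕ)
      (ty : ℕ → Bool) (ap am : ℕ → Finset (Dart E)) (up um : ι) (ok : Bool → Vec E → Prop),
      (∀ s, IsCl (cl s)) → (∀ s, ∀ x ∈ op s, ∃ d, cl s d = x) → IsUnits cl op u pos → Rk cl γ →
      (∀ s, ∀ x ∈ op s, pos s x < w) → up ≠ um →
      (∀ t ∈ Icc 1 l, (ap t ∈ op (ty t) ∧ u (ty t) (ap t) = up ∧ pos (ty t) (ap t) = t) ∧
        am t ∈ op (ty t) ∧ u (ty t) (am t) = um ∧ pos (ty t) (am t) = t) →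
      (∀ s, ∀ x ∈ op s, (u s x = up → ∃ t ∈ Icc 1 l, ty t = s ∧ x = ap t) ∧
        (u s x = um → ∃ t ∈ Icc 1 l, ty t = s ∧ x = am t)) →
      (∀ s d, (∀ t ∈ Icc 1 l, ty t = s → cl s d = ap t ∨ cl s d = am t →
          cl' s d = ap t ∪ am t) ∧
        ((∀ t ∈ Icc 1 l, ty t = s → cl s d ≠ ap t ∧ cl s d ≠ am t) → cl' s d = cl s d)) →
      (∀ s M, ok s M → (∀ d, cl s d ∉ op s → M ⬝ᵥ st (cl s d) = 0) ∧
        ∀ t ∈ Ico 1 l, ty t = s → M ⬝ᵥ st (ap t) + M ⬝ᵥ st (am t) = 0) →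
      Step cl cl' ok (K * 4 ^ γ * (Fintype.card ι : ℝ) ^ 4 * (w : ℝ) ^ (2 + ε))

variable {E : Type} [Fintype E] [DecidableEq E] {τ : Flag E → Flag E} {B B' : Finset (Flag E)}
  {σ : Bool → Flag E → Flag E} {s : Bool} {Bs Bs' : Bool → Finset (Flag E)} {p q : Sl E}

theorem mem_gcl' {d d' : Dart E} : d' ∈ gcl τ B s d ↔ gcl τ B s d' = gcl τ B s d :=
  mem_gcl.trans (gcl_eq_iff.symm.trans eq_comm)

theorem gcl_sub {A : Finset (Dart E)} {d : Dart E} (hd : d ∈ A)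
    (h : ∀ x ∉ B, pr s x ∈ A ↔ pr s (τ x) ∈ A) : gcl τ B s d ⊆ A :=
  fun _ H => ((mem_gcl.1 H).iff (p := (· ∈ A)) h).1 hd

theorem gcl_eq (h : B' ⊆ B) {d : Dart E}
    (H : ∀ x ∈ B, x ∉ B' → (pr s x ∈ gcl τ B s d ↔ pr s (τ x) ∈ gcl τ B s d)) :
    gcl τ B' s d = gcl τ B s d :=
  (gcl_sub (self_mem_gcl d) fun x hx => (em (x ∈ B)).elim (H x · hx) (mem_gcl_step · d)).antisymm
    (gcl_mono h d)

theorem gok_mono (h : B' ⊆ B) (hB : ∀ x ∈ B, τ x ∈ B) {M : Vec E} (H : gok τ B' s M) :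
    gok τ B s M := fun d hd => by
  have h1 : ∀ x ∈ B, pr s x ∉ gcl τ B s d := fun x hx e => hd (mem_image.2 ⟨x, hx, mem_gcl'.1 e⟩)
  have h2 := gcl_eq h fun x hx _ => iff_of_false (h1 x hx) (h1 _ (hB x hx))
  rw [← h2]
  refine H d fun e => ?_
  obtain ⟨x, hx, e⟩ := mem_image.1 e
  exact h1 x (h hx) (h2 ▸ e ▸ self_mem_gcl _)

/-- The class of a slot. -/
noncomputable def cls (τ : Flag E → Flag E) (Bs : Bool → Finset (Flag E)) (p : Sl E) :
    Finset (Dart E) := gcl τ (Bs p.2) p.2 (pr p.2 p.1)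

theorem cls_mem (h : p.1 ∈ Bs p.2) : cls τ Bs p ∈ gop τ (Bs p.2) p.2 := mem_image_of_mem _ h

theorem merge {ε K : ℝ} (hK : Run ε K) (hτ : IsMap τ) {γ w l : ℕ} (hγ : Rk (gcl τ ∅) γ) {ι : Type}
    [Fintype ι] [DecidableEq ι] {u : Bool → Finset (Dart E) → ι}
    {pos : Bool → Finset (Dart E) → ℕ}
    (hu : IsUnits (fun s => gcl τ (Bs s) s) (fun s => gop τ (Bs s) s) u pos)
    (hw : ∀ s, ∀ x ∈ gop τ (Bs s) s, pos s x < w) (a : ℕ → Sl E) {up um : ι} (hne : up ≠ um)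
    (sub : ∀ s, Bs' s ⊆ Bs s) (t1 : ∀ s, ∀ x ∈ Bs s, τ x ∈ Bs s) (t2 : ∀ s, ∀ x ∈ Bs' s, τ x ∈ Bs' s)
    (h1 : ∀ t ∈ Icc 1 l, (a t).1 ∈ Bs (a t).2 ∧ (a t).1 ∉ Bs' (a t).2 ∧
      (u (a t).2 (cls τ Bs (a t)) = up ∧ pos (a t).2 (cls τ Bs (a t)) = t) ∧
      u (a t).2 (cls τ Bs (tw τ (a t))) = um ∧ pos (a t).2 (cls τ Bs (tw τ (a t))) = t)
    (h2 : ∀ s, ∀ x ∈ gop τ (Bs s) s,
      (u s x = up → ∃ t ∈ Icc 1 l, (a t).2 = s ∧ x = cls τ Bs (a t)) ∧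
      (u s x = um → ∃ t ∈ Icc 1 l, (a t).2 = s ∧ x = cls τ Bs (tw τ (a t))))
    (h3 : ∀ q : Sl E, q.1 ∈ Bs q.2 → q.1 ∉ Bs' q.2 → ∃ t ∈ Icc 1 l, (a t).2 = q.2 ∧
      (cls τ Bs q = cls τ Bs (a t) ∨ cls τ Bs q = cls τ Bs (tw τ (a t))) ∧
      (cls τ Bs (tw τ q) = cls τ Bs (a t) ∨ cls τ Bs (tw τ q) = cls τ Bs (tw τ (a t))))
    (h4 : ∀ t ∈ Ico 1 l, ∀ x ∈ Bs' (a t).2, cls τ Bs (x, (a t).2) ≠ cls τ Bs (a t) ∧
      cls τ Bs (x, (a t).2) ≠ cls τ Bs (tw τ (a t))) :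
    Step (fun s => gcl τ (Bs s) s) (fun s => gcl τ (Bs' s) s) (fun s => gok τ (Bs' s) s)
      (K * 4 ^ γ * (Fintype.card ι : ℝ) ^ 4 * (w : ℝ) ^ (2 + ε)) := by
  have m : ∀ t d, d ∈ cls τ Bs (a t) ∪ cls τ Bs (tw τ (a t)) ↔
      gcl τ (Bs (a t).2) (a t).2 d = cls τ Bs (a t) ∨
      gcl τ (Bs (a t).2) (a t).2 d = cls τ Bs (tw τ (a t)) := fun t d =>
    mem_union.trans (or_congr mem_gcl' mem_gcl')
  have U : ∀ t ∈ Icc 1 l, gcl τ (Bs' (a t).2) (a t).2 (pr (a t).2 (a t).1) =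
      cls τ Bs (a t) ∪ cls τ Bs (tw τ (a t)) := fun t ht => by
    refine (gcl_sub (mem_union_left _ (self_mem_gcl _)) fun x hx => ?_).antisymm
      (union_subset (gcl_mono (sub _) _) (gcl_step (h1 t ht).2.1 ▸ gcl_mono (sub _) _))
    by_cases hx' : x ∈ Bs (a t).2
    · obtain ⟨t', ht', e, b1, b2⟩ := h3 (x, (a t).2) hx' hx
      have key : ∀ X, X = cls τ Bs (a t') ∨ X = cls τ Bs (tw τ (a t')) →
          X = cls τ Bs (a t) ∨ X = cls τ Bs (tw τ (a t)) → t' = t := fun X c1 c2 => by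
        have d1 : pos (a t').2 X = t' := c1.elim (· ▸ (h1 t' ht').2.2.1.2) (· ▸ (h1 t' ht').2.2.2.2)
        have d2 : pos (a t).2 X = t := c2.elim (· ▸ (h1 t ht).2.2.1.2) (· ▸ (h1 t ht).2.2.2.2)
        rw [← d1, ← d2, e]
      exact (m t _).trans
        (Iff.trans ⟨fun H => key _ b1 H ▸ b2, fun H => key _ b2 H ▸ b1⟩ (m t _).symm)
    · exact mem_union.trans ((or_congr (mem_gcl_step hx' _) (mem_gcl_step hx' _)).trans
        mem_union.symm)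
  refine hK E _ _ _ ι u pos γ w l (fun t => (a t).2) (fun t => cls τ Bs (a t))
    (fun t => cls τ Bs (tw τ (a t))) up um _ (fun s => isCl_gcl _ _ s)
    (fun s x hx => (mem_image.1 hx).elim fun y hy => ⟨_, hy.2⟩) hu
    (hγ.refine (fun s => isCl_gcl _ _ s) fun s d d' hd =>
      mem_gcl'.1 hd ▸ gcl_mono (empty_subset _) d') hw hne
    (fun t ht => ⟨⟨cls_mem (h1 t ht).1, (h1 t ht).2.2.1⟩,
      cls_mem (p := tw τ (a t)) (t1 _ _ (h1 t ht).1), (h1 t ht).2.2.2⟩) h2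
    (fun s d => ⟨?_, fun H => gcl_eq (sub s) fun x hx hx' => ?_⟩)
    fun s M H => ⟨gok_mono (sub s) (t1 s) H, ?_⟩
  · rintro t ht rfl H
    exact (mem_gcl'.1 (U t ht ▸ (m t d).2 H)).trans (U t ht)
  · obtain ⟨t, ht, e, b1, b2⟩ := h3 (x, s) hx hx'
    have := H t ht e
    exact iff_of_false (fun c => b1.elim (this.1 <| (mem_gcl'.1 c).symm.trans ·)
      (this.2 <| (mem_gcl'.1 c).symm.trans ·)) fun c => b2.elim
      (this.1 <| (mem_gcl'.1 c).symm.trans ·) (this.2 <| (mem_gcl'.1 c).symm.trans ·)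
  · rintro t ht rfl
    have ht' := Ico_subset_Icc_self ht
    rw [← dotProduct_add, ← st_union (disjoint_left.2 fun d c1 c2 => hne ?_), ← U t ht']
    · refine H _ fun e => ?_
      obtain ⟨x, hx, e⟩ := mem_image.1 e
      exact ((m t _).1 (U t ht' ▸ e ▸ self_mem_gcl _)).elim (h4 t ht x hx).1 (h4 t ht x hx).2
    · rw [← (h1 t ht').2.2.1.1, ← (h1 t ht').2.2.2.1]
      exact congrArg _ ((mem_gcl'.1 c1).symm.trans (mem_gcl'.1 c2))

/-- An oriented system of paths. -/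
structure Ori (τ : Flag E → Flag E) (B : Finset (Flag E)) (σ : Bool → Flag E → Flag E)
    (N : Sl E → Prop) (fd : Sl E → ℕ) (O : Sl E → Prop) : Prop extends Cut τ B σ N fd where
  osr : ∀ p, N p → (O (sr σ p) ↔ ¬O p)
  otw : ∀ p, N p → (O (tw τ p) ↔ O p)
  onx : ∀ p, N p → N (nx σ p) → (O (nx σ p) ↔ O p)

/-- A set of unglued slots that is a union of paths and cuts. -/
structure St (τ : Flag E → Flag E) (B : Finset (Flag E)) (σ : Bool → Flag E → Flag E)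
    (N : Sl E → Prop) (Bs : Bool → Finset (Flag E)) : Prop where
  sub : ∀ s, Bs s ⊆ B
  tau : ∀ s, ∀ x ∈ Bs s, τ x ∈ Bs s
  sr : ∀ p, N p → p.1 ∈ Bs p.2 → σ p.2 p.1 ∈ Bs p.2
  nx : ∀ p, N p → N (nx σ p) → p.1 ∈ Bs p.2 → σ p.2 p.1 ∈ Bs !p.2

open Classical in
/-- The cut at the end of the path of a slot. -/
noncomputable def un (σ : Bool → Flag E → Flag E) (N : Sl E → Prop) (fd : Sl E → ℕ)
    (O : Sl E → Prop) (p : Sl E) : Sl E := en σ fd (if N p ∧ ¬O p then sr σ p else p)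

namespace Ori

variable {N O : Sl E → Prop} {fd : Sl E → ℕ} (h : Ori τ B σ N fd O)
include h

theorem un0 (H : N p → O p) : un σ N fd O p = en σ fd p := by rw [un, if_neg (by tauto)]

theorem un1 (H : N p) (H' : ¬O p) : un σ N fd O p = en σ fd (sr σ p) := by rw [un, if_pos ⟨H, H'⟩]

theorem un_tw (p : Sl E) : un σ N fd O (tw τ p) = tw τ (un σ N fd O p) := by
  by_cases H : N p → O p
  · rw [h.un0 H, h.un0 fun a => (h.otw p (h.ntw_iff.1 a)).2 (H (h.ntw_iff.1 a)), (h.en_tw p).2]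
  · push Not at H
    rw [h.un1 H.1 H.2, h.un1 (h.ntw p H.1) (mt (h.otw p H.1).1 H.2), h.sr_tw H.1, (h.en_tw _).2]

theorem un_sr (H : N p) : un σ N fd O (sr σ p) = un σ N fd O p := by
  by_cases H' : O p
  · rw [h.un0 fun _ => H', h.un1 (h.nsr p H) fun a => (h.osr p H).1 a H', h.sr_sr]
  · rw [h.un1 H H', h.un0 fun _ => (h.osr p H).2 H']

theorem un_nx (H : N p) (H1 : N (nx σ p)) : un σ N fd O (nx σ p) = un σ N fd O p := by
  by_cases H' : O p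
  · rw [h.un0 fun _ => H', h.un0 fun _ => (h.onx p H H1).2 H', h.en1 H]
  · rw [h.un1 H H', h.un1 H1 (mt (h.onx p H H1).1 H'), ← h.en1 (h.nsr _ H1), h.nx_sr_nx]

theorem un_iff {B₁ : Finset (Flag E)} (h1 : ∀ p, N p → p.1 ∈ B₁ → σ p.2 p.1 ∈ B₁) (p : Sl E) :
    (un σ N fd O p).1 ∈ B₁ ↔ p.1 ∈ B₁ := by
  have a : ∀ p, N p → (σ p.2 p.1 ∈ B₁ ↔ p.1 ∈ B₁) := fun p H =>
    ⟨fun b => h.inv p.2 p.1 ▸ h1 _ (h.nsr p H) b, h1 p H⟩
  have b := h.ind (P := fun p => (en σ fd p).1 ∈ B₁ ↔ p.1 ∈ B₁) (fun p H => by rw [h.en0 H])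
    fun p H ih => h.en1 H ▸ ih.trans (a p H)
  rw [un, b]
  split_ifs with H
  exacts [a p H.1, Iff.rfl]

variable (S : St τ B σ N Bs)
include S

theorem cls_eq (H : N p) (hp : p.1 ∈ Bs p.2) : cls τ Bs p = gcl τ B p.2 (pr p.2 p.1) := by
  have : ∀ x ∈ B, x ∉ Bs p.2 → pr p.2 x ∉ gcl τ B p.2 (pr p.2 p.1) := fun x hx hx' e => by
    obtain rfl | rfl := (h.sec _ _ (h.nm p H) x hx).1 (mem_gcl.1 e)
    exacts [hx' hp, hx' (S.sr p H hp)]
  exact gcl_eq (S.sub _) fun x hx hx' => iff_of_false (this x hx hx')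
    (this _ (h.tau hx) fun a => hx' (h.map.1 x ▸ S.tau _ _ a))

theorem cls_sr (H : N p) : cls τ Bs (sr σ p) = cls τ Bs p :=
  (gcl_eq_iff.2 ((h.step (h.nm p H)).mono (S.sub _))).symm

theorem eq_of_cls (H : N p) (hp : p.1 ∈ Bs p.2) (hq : q.1 ∈ B) (e : q.2 = p.2)
    (e' : cls τ Bs q = cls τ Bs p) : q = p ∨ q = sr σ p := by
  have : pr q.2 q.1 ∈ cls τ Bs q := self_mem_gcl _
  rw [e', h.cls_eq S H hp, e] at this
  exact ((h.sec _ _ (h.nm p H) _ hq).1 (mem_gcl.1 this)).imp (Prod.ext · e) (Prod.ext · e)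

theorem eq_of_cls' (H : N p) (H' : O p) (hp : p.1 ∈ Bs p.2) (hq : q.1 ∈ B) (e : q.2 = p.2)
    (e' : cls τ Bs q = cls τ Bs p) (hq' : N q → O q) : q = p :=
  (h.eq_of_cls S H hp hq e e').resolve_right fun a =>
    (h.osr p H).1 (a ▸ hq' (a ▸ h.nsr p H)) H'

theorem it_mem (H' : O p) (hp : p.1 ∈ Bs p.2) {k : ℕ} (hk : k < fd p) :
    N ((nx σ)^[k] p) ∧ O ((nx σ)^[k] p) ∧ ((nx σ)^[k] p).1 ∈ Bs ((nx σ)^[k] p).2 := by
  have a : ∀ k < fd p, N ((nx σ)^[k] p) := fun k hk => h.n_iff.2 (by rw [(h.it hk.le).1]; omega)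
  refine ⟨a k hk, ?_⟩
  induction k with
  | zero => exact ⟨H', hp⟩
  | succ k ih =>
    have b := a _ hk
    have c := a k (by omega)
    rw [iterate_succ_apply'] at b ⊢
    exact ⟨(h.onx _ c b).2 (ih (by omega)).1, S.nx _ c b (ih (by omega)).2⟩

theorem exists_units {ι : Type} [DecidableEq ι] (φ : Sl E → ι)
    (hφ : ∀ p q, p.1 ∈ B → q.1 ∈ B → φ p = φ q → (N p ↔ N q) ∧ en σ fd p = en σ fd q)
    (hφ' : ∀ p q, N p → N q → en σ fd p = en σ fd q → φ p = φ q) [Nonempty (Sl E)] :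
    ∃ rp : Bool → Finset (Dart E) → Sl E, (∀ s, ∀ x ∈ gop τ (Bs s) s, (rp s x).2 = s ∧
      (rp s x).1 ∈ Bs (rp s x).2 ∧ cls τ Bs (rp s x) = x ∧ (N (rp s x) → O (rp s x))) ∧
      (∀ p, N p → O p → p.1 ∈ Bs p.2 → rp p.2 (cls τ Bs p) = p) ∧
      IsUnits (fun s => gcl τ (Bs s) s) (fun s => gop τ (Bs s) s) (fun s x => φ (rp s x))
        fun s x => max 1 (fd (rp s x)) := by
  have : ∀ s, ∀ x ∈ gop τ (Bs s) s, ∃ q : Sl E, q.2 = s ∧ q.1 ∈ Bs q.2 ∧ cls τ Bs q = x ∧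
      (N q → O q) := fun s x hx => by
    obtain ⟨y, hy, rfl⟩ := mem_image.1 hx
    by_cases H : N (y, s) → O (y, s)
    · exact ⟨(y, s), rfl, hy, rfl, H⟩
    · push Not at H
      exact ⟨sr σ (y, s), rfl, S.sr _ H.1 hy, h.cls_sr S H.1, fun _ => (h.osr _ H.1).2 H.2⟩
  choose! rp r1 r2 r3 r4 using this
  have r5 : ∀ p, N p → O p → p.1 ∈ Bs p.2 → rp p.2 (cls τ Bs p) = p := fun p a b c =>
    h.eq_of_cls' S a b c (S.sub _ (r2 _ _ (cls_mem c))) (r1 _ _ (cls_mem c)) (r3 _ _ (cls_mem c))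
      (r4 _ _ (cls_mem c))
  refine ⟨rp, fun s x hx => ⟨r1 s x hx, r2 s x hx, r3 s x hx, r4 s x hx⟩, r5, ?_⟩
  have key : ∀ s, ∀ x ∈ gop τ (Bs s) s, N (rp s x) → ∀ d, pth (fun s => gop τ (Bs s) s)
      (fun s x => φ (rp s x)) (fun s x => max 1 (fd (rp s x))) s x ⬝ᵥ st (gcl τ (Bs s) s d) =
      iz (gcl τ (Bs s) s d = x) + iz (pr s (en σ fd (rp s x)).1 ∈ gcl τ (Bs s) s d) := by
    intro s x hx H d
    have a0 := r1 s x hx
    have a1 := fun k => h.it_mem S (r4 s x hx H) (r2 s x hx) (k := k)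
    have a2 := r3 s x hx
    have a3 := h.n_iff.1 H
    simp only [pth]
    generalize rp s x = p at *
    let g (k : ℕ) : Z2 := iz (pr s ((nx σ)^[k] p).1 ∈ gcl τ (Bs s) s d)
    have a4 : ∀ n, ∑ k ∈ range n, (g k + g (k + 1)) = g 0 + g n := fun n => by
      induction n with
      | zero => simp [z2_add_self]
      | succ n ih => rw [sum_range_succ, ih, add_assoc, ← add_assoc (g n), z2_add_self, zero_add]
    have a5 : ∀ k < fd p, ((nx σ)^[k] p).2 = !s → rp (!s) (cls τ Bs ((nx σ)^[k] p)) = (nx σ)^[k] p :=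
      fun k hk e => e ▸ r5 _ (a1 k hk).1 (a1 k hk).2.1 (a1 k hk).2.2
    rw [show filter _ _ = ((range (fd p)).filter fun k => ((nx σ)^[k] p).2 = !s).image
      fun k => cls τ Bs ((nx σ)^[k] p) from ?_, sum_image, sum_dotProduct, sum_filter,
      sum_congr rfl (g := fun k => g k + g (k + 1)), a4]
    · refine congrArg (· + _) (iz_congr ?_)
      rw [← a2, ← a0]
      exact mem_gcl'.trans eq_comm
    · intro k hk
      obtain ⟨b1, -, b2⟩ := a1 k (mem_range.1 hk)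
      simp only [g, iterate_succ_apply']
      generalize (nx σ)^[k] p = q at *
      obtain ⟨y, s'⟩ := q
      have b3 := h.nm _ b1
      split_ifs with e
      · obtain rfl : s' = !s := e
        rw [h.cls_eq S b1 b2, st_dot (s := !s) h.map (fun _ => h.tau) (fun _ H => mem_gcl_step H _)
          (fun _ H => by rw [Bool.not_not]; exact mem_gcl_step (mt (S.sub _ ·) H) _), Bool.not_not,
          show filter _ B = ({y, σ (!s) y} : Finset _).filter (pr s · ∈ gcl τ (Bs s) s d) from ?_,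
          card_filter, sum_pair (h.ne _ _ b3).symm]
        · simp [iz_eq_ite, nx]
        · ext z
          simp only [mem_filter, mem_insert, mem_singleton, ← and_assoc]
          refine and_congr_left fun _ => ⟨fun c => (h.sec _ _ b3 _ c.1).1 (mem_gcl.1 c.2), ?_⟩
          rintro (rfl | rfl)
          exacts [⟨b3, self_mem_gcl _⟩, ⟨h.mem _ _ b3, mem_gcl.2 (h.step b3)⟩]
      · obtain rfl : s' = s := by simpa using e
        rw [eq_comm, z2_add_eq_zero, mem_gcl', mem_gcl']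
        exact congrArg (fun X => iz (X = _)) (h.cls_sr S b1).symm
    · intro i hi j hj e
      simp only [coe_filter, mem_range, Set.mem_ofPred_eq] at hi hj
      have b1 := (h.it hi.1.le).1
      have b2 := (h.it hj.1.le).1
      rw [← a5 i hi.1 hi.2, show cls τ Bs _ = _ from e, a5 j hj.1 hj.2] at b1
      omega
    · ext A
      simp only [mem_filter, mem_image, mem_range]
      constructor
      · rintro ⟨b1, b2, b3⟩
        obtain ⟨c1, c2⟩ := hφ _ _ (S.sub _ (r2 _ _ b1)) (h.nm p H) b2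
        have c3 := h.n_iff.1 (c1.2 H)
        have c4 := h.eq_it c2 (by omega)
        exact ⟨_, ⟨by omega, c4 ▸ r1 _ _ b1⟩, c4 ▸ r3 _ _ b1⟩
      · rintro ⟨k, ⟨b1, b2⟩, rfl⟩
        rw [a5 k b1 b2, (h.it b1.le).1]
        refine ⟨b2 ▸ cls_mem (a1 k b1).2.2, hφ' _ _ (a1 k b1).1 H (h.it b1.le).2, ?_⟩
        have : k ≠ 0 := by
          rintro rfl
          simp [a0] at b2
        omega
  intro s x hx x' hx' e d
  obtain ⟨a1, a2⟩ := hφ _ _ (S.sub _ (r2 s x hx)) (S.sub _ (r2 s x' hx')) e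
  rw [add_dotProduct]
  by_cases H : N (rp s x)
  · rw [key s x hx H, key s x' hx' (a1.1 H), a2]
    linear_combination z2_add_self (iz (pr s (en σ fd (rp s x')).1 ∈ gcl τ (Bs s) s d))
  · rw [h.en0 H, h.en0 (mt a1.2 H)] at a2
    rw [show x' = x by rw [← r3 s x hx, a2, r3 s x' hx'], z2_add_self, z2_add_self]

omit S

open Classical in
theorem one_step {ε K : ℝ} (hK : Run ε K) (hK0 : 0 < K) {γ : ℕ} (hγ : Rk (gcl τ ∅) γ)
    {C : Finset (Sl E)} (hC : ∀ p, p.1 ∈ B → ¬N p → p ∈ C) {key : Sl E → ℕ}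
    (hk : ∀ p q, key p = key q ↔ q = p ∨ q = tw τ p) (S : Finset (Prop × ℕ)) (j : Prop × ℕ) :
    Step (fun s => gcl τ (B.filter fun x => (N (x, s), key (un σ N fd O (x, s))) ∈ insert j S) s)
      (fun s => gcl τ (B.filter fun x => (N (x, s), key (un σ N fd O (x, s))) ∈ S) s)
      (fun s => gok τ (B.filter fun x => (N (x, s), key (un σ N fd O (x, s))) ∈ S) s)
      (K * 4 ^ γ * (2 * (C.card + 1)) ^ 4 * (2 * (B.card + 1)) ^ (2 + ε)) := by
  let lb (p : Sl E) : Prop × ℕ := (N p, key (un σ N fd O p))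
  have l1 : ∀ p, lb (tw τ p) = lb p := fun p => Prod.ext (propext h.ntw_iff)
    ((hk _ _).2 (.inr (by rw [h.un_tw, h.tw_tw])))
  have l2 : ∀ p, N p → lb (sr σ p) = lb p := fun p H =>
    Prod.ext (propext h.nsr_iff) (congrArg key (h.un_sr H))
  have hS : ∀ S : Finset (Prop × ℕ), St τ B σ N fun s => B.filter fun x => lb (x, s) ∈ S := fun S =>
    ⟨fun _ => filter_subset _ _, fun s x hx => mem_filter.2 ⟨h.tau (mem_filter.1 hx).1,
      (l1 (x, s)).symm ▸ (mem_filter.1 hx).2⟩, fun p H hp => mem_filter.2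
      ⟨h.mem _ _ (h.nm p H), (l2 p H).symm ▸ (mem_filter.1 hp).2⟩, fun p H H' hp => mem_filter.2
      ⟨h.mem _ _ (h.nm p H), (show lb (nx σ p) = lb p from Prod.ext (propext (iff_of_true H' H))
        (congrArg key (h.un_nx H H'))).symm ▸ (mem_filter.1 hp).2⟩⟩
  have S1 := hS (insert j S)
  have S2 := hS S
  set Bs := fun s => B.filter fun x => lb (x, s) ∈ insert j S
  set Bs' := fun s => B.filter fun x => lb (x, s) ∈ S
  show Step (fun s => gcl τ (Bs s) s) (fun s => gcl τ (Bs' s) s) (fun s => gok τ (Bs' s) s) _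
  have sub : ∀ s, Bs' s ⊆ Bs s := fun s x hx =>
    mem_filter.2 ⟨(mem_filter.1 hx).1, mem_insert_of_mem (mem_filter.1 hx).2⟩
  have d1 : ∀ q : Sl E, q.1 ∈ Bs q.2 → q.1 ∉ Bs' q.2 → lb q = j ∧ j ∉ S := fun q a b => by
    have c : lb q ∉ S := fun c => b (mem_filter.2 ⟨(mem_filter.1 a).1, c⟩)
    have := (mem_insert.1 (mem_filter.1 a).2).resolve_right c
    exact ⟨this, this ▸ c⟩
  have triv : (∀ q : Sl E, q.1 ∈ Bs q.2 → q.1 ∉ Bs' q.2 → cls τ Bs q = cls τ Bs (tw τ q)) →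
      Step (fun s => gcl τ (Bs s) s) (fun s => gcl τ (Bs' s) s) (fun s => gok τ (Bs' s) s)
        (K * 4 ^ γ * (2 * (C.card + 1)) ^ 4 * (2 * (B.card + 1)) ^ (2 + ε)) := fun H => by
    rw [show (fun s => gcl τ (Bs' s) s) = fun s => gcl τ (Bs s) s from funext fun s =>
      funext fun d => gcl_eq (sub s) fun x a b => mem_gcl'.trans
        (((H (x, s) a b).congr_left).trans mem_gcl'.symm)]
    exact (Step.refl _ _).mono (by positivity)
  by_cases ex : ∃ q : Sl E, q.1 ∈ Bs q.2 ∧ q.1 ∉ Bs' q.2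
  swap
  · exact triv fun q a b => (ex ⟨q, a, b⟩).elim
  obtain ⟨p, hp, hp'⟩ := ex
  obtain ⟨rfl, hj⟩ := d1 p hp hp'
  have d2 : ∀ q : Sl E, q.1 ∈ B → lb q = lb p → q.1 ∈ Bs q.2 ∧ q.1 ∉ Bs' q.2 := fun q a b =>
    ⟨mem_filter.2 ⟨a, b ▸ mem_insert_self _ _⟩, fun c => hj (b ▸ (mem_filter.1 c).2)⟩
  have d3 : ∀ q : Sl E, q.1 ∈ Bs q.2 → q.1 ∉ Bs' q.2 → (N q ↔ N p) ∧
      (un σ N fd O q = un σ N fd O p ∨ un σ N fd O (tw τ q) = un σ N fd O p) := fun q a b =>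
    ⟨(congrArg Prod.fst (d1 q a b).1).to_iff, ((hk _ _).1 (congrArg Prod.snd (d1 q a b).1)).imp
      Eq.symm fun e => by rw [e, h.un_tw]⟩
  have : Nonempty (Sl E) := ⟨p⟩
  let φ (q : Sl E) : Prop × Option C :=
    (N q, if h : en σ fd q ∈ C then some ⟨_, h⟩ else none)
  have f1 : ∀ p q, p.1 ∈ B → q.1 ∈ B → φ p = φ q → (N p ↔ N q) ∧ en σ fd p = en σ fd q :=
    fun p q a b e => ⟨(congrArg Prod.fst e).to_iff, by
      simpa [φ, hC _ (h.en_mem a).1 (h.en_mem a).2, hC _ (h.en_mem b).1 (h.en_mem b).2] using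
        congrArg Prod.snd e⟩
  have f2 : ∀ p q, N p → N q → en σ fd p = en σ fd q → φ p = φ q := fun p q a b e => by
    simp only [φ, a, b, e]
  obtain ⟨rp, r1, r2, hu⟩ := h.exists_units S1 φ f1 f2
  have M := fun l => merge (Bs' := Bs') (w := 2 * (B.card + 1)) (l := l) hK h.map hγ hu
    fun s x hx => max_lt (by omega) (h.fd_lt (S1.sub _ (r1 s x hx).2.1))
  simp only [Fintype.card_prod, Fintype.card_prop, Fintype.card_option, Fintype.card_coe,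
    Nat.cast_mul, Nat.cast_add, Nat.cast_ofNat, Nat.cast_one] at M
  by_cases H : N p
  · have ori : ∀ q, N q → ∃ o, o.2 = q.2 ∧ N o ∧ O o ∧ en σ fd o = un σ N fd O q ∧
        cls τ Bs q = cls τ Bs o ∧ cls τ Bs (tw τ q) = cls τ Bs (tw τ o) := fun q a => by
      by_cases b : O q
      · exact ⟨q, rfl, a, b, (h.un0 fun _ => b).symm, rfl, rfl⟩
      · exact ⟨sr σ q, rfl, h.nsr q a, (h.osr q a).2 b, (h.un1 a b).symm, (h.cls_sr S1 a).symm,
          by rw [← h.sr_tw a, h.cls_sr S1 (h.ntw q a)]⟩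
    obtain ⟨o, ho, mx⟩ := exists_max_image (univ.filter fun q => N q ∧ O q ∧
      en σ fd q = un σ N fd O p) fd ((ori p H).imp fun o ho => mem_filter.2
        ⟨mem_univ _, ho.2.1, ho.2.2.1, ho.2.2.2.1⟩)
    obtain ⟨-, o1, o2, o3⟩ := mem_filter.1 ho
    have b0 : ∀ q, N q → O q → en σ fd q = un σ N fd O p → lb q = lb p := fun q a b c =>
      Prod.ext (propext (iff_of_true a H)) (congrArg key ((h.un0 fun _ => b).trans c))
    have b1 : ∀ q, N q → O q → en σ fd q = un σ N fd O p →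
        fd q ∈ Icc 1 (fd o) ∧ (nx σ)^[fd o - fd q] o = q := fun q a b c =>
      have := mx q (mem_filter.2 ⟨mem_univ _, a, b, c⟩)
      ⟨mem_Icc.2 ⟨h.n_iff.1 a, this⟩, (h.eq_it (c.trans o3.symm) this).symm⟩
    have b2 : ∀ t ∈ Icc 1 (fd o), ∀ q, q = (nx σ)^[fd o - t] o → N q ∧ O q ∧ lb q = lb p ∧
        fd q = t ∧ en σ fd q = en σ fd o := by
      rintro t ht _ rfl
      rw [mem_Icc] at ht
      obtain ⟨a, b, -⟩ := h.it_mem S1 o2 (d2 o (h.nm o o1) (b0 o o1 o2 o3)).1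
        (k := fd o - t) (by omega)
      obtain ⟨c, d⟩ := h.it (p := o) (k := fd o - t) (by omega)
      exact ⟨a, b, b0 _ a b (d.trans o3), by omega, d⟩
    have b3 : ∀ q, N q → lb q = lb p → ∀ x ∈ Bs' q.2, cls τ Bs (x, q.2) ≠ cls τ Bs q :=
      fun q a b x hx e => (d2 (x, q.2) (S2.sub _ hx) (by
        rcases h.eq_of_cls (q := (x, q.2)) S1 a (d2 q (h.nm q a) b).1 (S2.sub _ hx) rfl e with
          c | c <;> rw [c]
        exacts [b, (l2 q a).trans b])).2 hx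
    refine M (fd o) (fun t => (nx σ)^[fd o - t] o) (up := φ o) (um := φ (tw τ o)) (fun e => ?_) sub
      S1.tau S2.tau (fun t ht => ?_) (fun s x hx => ?_) (fun q a b => ?_) fun t ht x hx => ?_
    · have := (f1 _ _ (h.nm o o1) (h.tau (h.nm o o1)) e).2
      exact h.map.2 _ (congrArg Prod.fst (this.trans (h.en_tw o).2)).symm
    · obtain ⟨a, b, c, d, e⟩ := b2 t ht _ rfl
      generalize (nx σ)^[fd o - t] o = q at *
      have g := d2 q (h.nm q a) c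
      have g1 := r2 (tw τ q) (h.ntw q a) ((h.otw q a).2 b) (S1.tau _ _ g.1)
      have g2 := max_eq_right (mem_Icc.1 ht).1
      refine ⟨g.1, g.2, ?_, ?_⟩
      · rw [r2 q a b g.1, d]
        exact ⟨f2 _ _ a o1 e, g2⟩
      · rw [show rp q.2 _ = _ from g1, (h.en_tw q).1, d]
        exact ⟨f2 _ _ (h.ntw q a) (h.ntw o o1) (by rw [(h.en_tw q).2, (h.en_tw o).2, e]), g2⟩
    · obtain ⟨a, b, c, d⟩ := r1 s x hx
      refine ⟨fun e => ?_, fun e => ?_⟩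
      · obtain ⟨g1, g2⟩ := f1 _ _ (S1.sub _ b) (h.nm o o1) e
        obtain ⟨g3, g4⟩ := b1 _ (g1.2 o1) (d (g1.2 o1)) (g2.trans o3)
        exact ⟨_, g3, by rw [g4]; exact ⟨a, c.symm⟩⟩
      · obtain ⟨g1, g2⟩ := f1 _ _ (S1.sub _ b) (h.tau (h.nm o o1)) e
        have g0 := g1.2 (h.ntw o o1)
        obtain ⟨g3, g4⟩ := b1 _ (h.ntw _ g0) ((h.otw _ g0).2 (d g0))
          (by rw [(h.en_tw _).2, g2, (h.en_tw _).2, h.tw_tw, o3])
        exact ⟨_, g3, by rw [g4, h.tw_tw]; exact ⟨a, c.symm⟩⟩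
    · obtain ⟨c, d | d⟩ := d3 q a b
      · obtain ⟨o', g1, g2, g3, g4, g5, g6⟩ := ori q (c.2 H)
        obtain ⟨g7, g8⟩ := b1 o' g2 g3 (g4.trans d)
        exact ⟨_, g7, by rw [g8]; exact ⟨g1, .inl g5, .inr g6⟩⟩
      · obtain ⟨o', g1, g2, g3, g4, g5, g6⟩ := ori _ (h.ntw q (c.2 H))
        obtain ⟨g7, g8⟩ := b1 o' g2 g3 (g4.trans d)
        exact ⟨_, g7, by rw [g8]; exact ⟨g1, .inr (h.tw_tw q ▸ g6), .inl g5⟩⟩
    · obtain ⟨a, -, c, -⟩ := b2 t (Ico_subset_Icc_self ht) _ rfl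
      exact ⟨b3 _ a c x hx, b3 _ (h.ntw _ a) ((l1 _).trans c) x hx⟩
  have b0 : ∀ q, ¬N q → un σ N fd O q = q := fun q a => (h.un0 fun b => (a b).elim).trans (h.en0 a)
  have b1 : ∀ q : Sl E, q.1 ∈ Bs q.2 → q.1 ∉ Bs' q.2 → q = p ∨ q = tw τ p := fun q a b => by
    obtain ⟨c, d⟩ := d3 q a b
    rw [b0 p H, b0 q (mt c.1 H), b0 _ (mt h.ntw_iff.1 (mt c.1 H))] at d
    exact d.imp_right fun e => by rw [← e, h.tw_tw]
  by_cases e : cls τ Bs p = cls τ Bs (tw τ p)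
  · refine triv fun q a b => ?_
    obtain rfl | rfl := b1 q a b
    exacts [e, by rw [h.tw_tw, e]]
  have b2 : ∀ q : Sl E, ¬N q → q.1 ∈ Bs q.2 → max 1 (fd (rp q.2 (cls τ Bs q))) = 1 ∧ ∀ s,
      ∀ x ∈ gop τ (Bs s) s, φ (rp s x) = φ (rp q.2 (cls τ Bs q)) → q.2 = s ∧ x = cls τ Bs q :=
    fun q a b => by
      obtain ⟨c1, c2, c3, -⟩ := r1 _ _ (cls_mem b)
      have c4 : ¬N (rp q.2 (cls τ Bs q)) := fun c =>
        (h.eq_of_cls S1 c c2 (S1.sub _ b) c1.symm c3.symm).elim (a <| · ▸ c) (a <| · ▸ h.nsr _ c)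
      refine ⟨by simp [h.fd0 _ c4], fun s x hx e => ?_⟩
      obtain ⟨g1, g2, g3, -⟩ := r1 s x hx
      obtain ⟨g4, g5⟩ := f1 _ _ (S1.sub _ g2) (S1.sub _ c2) e
      rw [h.en0 c4, h.en0 (mt g4.1 c4)] at g5
      exact ⟨by rw [← g1, g5, c1], by rw [← g3, g5, c3]⟩
  have b3 := b2 p H hp
  have b4 := b2 (tw τ p) (mt h.ntw_iff.1 H) (S1.tau _ _ hp)
  refine M 1 (fun _ => p) (up := φ (rp p.2 (cls τ Bs p))) (um := φ (rp p.2 (cls τ Bs (tw τ p))))
    (fun a => e (b4.2 _ _ (cls_mem hp) a).2) sub S1.tau S2.tau (fun t ht => ?_)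
    (fun s x hx => ⟨fun a => ⟨1, by simp, b3.2 s x hx a⟩, fun a => ⟨1, by simp, b4.2 s x hx a⟩⟩)
    (fun q a b => ⟨1, by simp, ?_⟩) (by simp)
  · obtain rfl : t = 1 := by simpa using ht
    exact ⟨hp, hp', ⟨rfl, b3.1⟩, rfl, b4.1⟩
  · obtain rfl | rfl := b1 q a b
    exacts [⟨rfl, .inl rfl, .inr rfl⟩, ⟨rfl, .inr rfl, .inl (by rw [h.tw_tw])⟩]

end Ori

end Glue

open Glue Finset in
/-- Step 5: gluing along a seam with small cycle space. -/
theorem glue (h : RunStmt) : GlueStmt := fun ε hε => by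
  classical
  obtain ⟨K, hK0, hK⟩ := h ε hε
  refine ⟨K * 48 ^ 5 * 2 ^ (2 + ε), by positivity, fun E _ _ τ B B₁ γ μ hτ hγ h1 h2 h3 hμ => ?_⟩
  obtain ⟨σ, hσ⟩ := exists_par hτ h2
  obtain ⟨N, fd, hc, C, c1, c2⟩ := hσ.exists_fd
  obtain ⟨key, O, k1, k2, k3, k4⟩ := hc.exists_or
  have H : Ori τ B σ N fd O := ⟨hc, k2, k3, k4⟩
  let lb (p : Sl E) : Prop × ℕ := (N p, key (un σ N fd O p))
  let S₁ := (B₁ ×ˢ univ).image lb
  have u1 := H.un_iff (B₁ := B₁) fun p a b => hσ.closed h1 h3 b (hc.com p a)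
  have a1 : ∀ S s, B₁ ⊆ B.filter fun x => lb (x, s) ∈ S₁ ∪ S := fun S s x hx => mem_filter.2
    ⟨h1 hx, mem_union_left _ (mem_image_of_mem _ (mem_product.2 ⟨hx, mem_univ _⟩))⟩
  have ind : ∀ S : Finset (Prop × ℕ), Step (fun s => gcl τ (B.filter fun x => lb (x, s) ∈ S₁ ∪ S) s)
      (gcl τ B₁) (gok τ B₁) (S.card * (K * 4 ^ γ * (2 * (C.card + 1)) ^ 4 *
        (2 * (B.card + 1)) ^ (2 + ε))) := fun S => by
    induction S using Finset.induction_on with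
    | empty =>
      rw [show (fun s => gcl τ (B.filter fun x => lb (x, s) ∈ S₁ ∪ ∅) s) = gcl τ B₁ from
        funext fun s => congrArg (gcl τ · s) (subset_antisymm (fun x hx => ?_) (a1 _ s))]
      · simpa using Step.refl _ _
      obtain ⟨p, hp, e⟩ := mem_image.1 (union_empty S₁ ▸ (mem_filter.1 hx).2)
      have := (u1 p).2 (mem_product.1 hp).1
      refine (u1 (x, s)).1 ?_
      rcases (k1 _ _).1 (congrArg Prod.snd e) with e | e <;> rw [e]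
      exacts [this, (h3 _ this).1]
    | insert j S hj ih =>
      rw [union_insert, card_insert_of_notMem hj, Nat.cast_succ, add_mul, one_mul, add_comm]
      refine ((H.one_step hK hK0 hγ c2 k1 (S₁ ∪ S) j).mono_ok fun s M hM =>
        gok_mono (a1 S s) (fun x hx => mem_filter.2 ⟨hσ.tau (mem_filter.1 hx).1, ?_⟩) hM).trans ih
      exact (show lb (tw τ (x, s)) = lb (x, s) from Prod.ext (propext hc.ntw_iff)
        ((k1 _ _).2 (.inr (by rw [H.un_tw, hσ.tw_tw])))).symm ▸ (mem_filter.1 hx).2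
  have a2 := ind (univ ×ˢ C.image key)
  rw [show (fun s => gcl τ (B.filter fun x => lb (x, s) ∈ S₁ ∪ univ ×ˢ C.image key) s) = gcl τ B from
    funext fun s => congrArg (gcl τ · s) (filter_true_of_mem fun x hx => ?_)] at a2
  · refine a2.mono ?_
    have b1 : (C.card : ℝ) ≤ 24 * μ := by exact_mod_cast c1.trans (by omega)
    have b2 : ((univ ×ˢ C.image key : Finset (Prop × ℕ)).card : ℝ) ≤ 48 * (μ + 1) := by
      have : ((C.image key).card : ℝ) ≤ C.card := by exact_mod_cast card_image_le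
      rw [card_product, card_univ, Fintype.card_prop]
      push_cast
      linarith
    have b3 : 2 * ((C.card : ℝ) + 1) ≤ 48 * (μ + 1) := by linarith
    rw [Real.mul_rpow (by norm_num) (by positivity)]
    calc _ ≤ 48 * (μ + 1) * (K * 4 ^ γ * (48 * (μ + 1)) ^ 4 *
          (2 ^ (2 + ε) * ((B.card : ℝ) + 1) ^ (2 + ε))) := by gcongr
      _ = _ := by ring
  · refine mem_union_right _ (mem_product.2 ⟨mem_univ _, mem_image_of_mem _ ?_⟩)
    have : (if N (x, s) ∧ ¬O (x, s) then sr σ (x, s) else (x, s)).1 ∈ B := by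
      split_ifs
      exacts [hσ.mem _ _ hx, hx]
    exact c2 _ (hc.en_mem this).1 (hc.en_mem this).2

end Pool.Agent.Lib.MP_234305_co
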