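import Pool.Agent.Lib.MP_234305_co.H77Basic

/-!
The partner of an unglued flag in its sector, and a small set of cuts of the seam.
-/

set_option linter.unusedSectionVars false

namespace Pool.Agent.Lib.MP_234305_co.Glue

open Finset Matrix Function

variable {E : Type} [Fintype E] [DecidableEq E] {τ : Flag E → Flag E} {B : Finset (Flag E)}
  {σ : Bool → Flag E → Flag E} {s : Bool} {x y : Flag E}

/-- The other flag with the same dart. -/
def fl (s : Bool) (x : Flag E) : Flag E :=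
  if s then (x.1, x.2.1, !x.2.2) else (x.1, !x.2.1, x.2.2)

theorem fl_fl (x : Flag E) : fl s (fl s x) = x := by cases s <;> simp [fl]

theorem pr_eq_iff : pr s y = pr s x ↔ y = x ∨ y = fl s x := by
  obtain ⟨e, i, j⟩ := x
  obtain ⟨e', i', j'⟩ := y
  cases s <;> cases i <;> cases j <;> cases i' <;> cases j' <;> simp [pr, fl]

theorem st_dot (hτ : IsMap τ) (hB : ∀ x ∈ B, τ x ∈ B) {A A' : Finset (Dart E)}
    (hA : ∀ x ∉ B, (pr s x ∈ A ↔ pr s (τ x) ∈ A))
    (hA' : ∀ x ∉ B, (pr (!s) x ∈ A' ↔ pr (!s) (τ x) ∈ A')) :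
    st A ⬝ᵥ st A' = ((B.filter fun x => pr s x ∈ A ∧ pr (!s) x ∈ A').card : Z2) := by
  cases s
  · rw [dotProduct_comm, st_dot_st hτ hB hA' hA]
    simp only [and_comm, Bool.not_false]
  · exact st_dot_st hτ hB hA hA'

theorem exists_partner (hτ : IsMap τ) (hB : ∀ x ∈ B, τ x ∈ B) (s : Bool) (hx : x ∈ B) :
    ∃ z ∈ B, z ≠ x ∧ ∀ y ∈ B, Sec τ B s (pr s x) (pr s y) ↔ y = x ∨ y = z := by
  let g : Flag E → Flag E := fun y => fl s (τ y)
  have hg : Injective g := fun a b h => by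
    rw [← hτ.1 a, ← fl_fl (s := s) (τ a), show fl s (τ a) = fl s (τ b) from h, fl_fl, hτ.1]
  have hex : ∃ n, g^[n] (fl s x) ∈ B := by
    obtain ⟨n, h0, hn⟩ := hg.mem_periodicPts (τ x)
    obtain ⟨n, rfl⟩ := Nat.exists_eq_succ_of_ne_zero h0.ne'
    refine ⟨n, ?_⟩
    rw [IsPeriodicPt, IsFixedPt, iterate_succ_apply, show g (τ x) = fl s x by simp [g, hτ.1]] at hn
    exact hn ▸ hB x hx
  have h1 : ∀ k ≤ Nat.find hex, Sec τ B s (pr s x) (pr s (g^[k] (fl s x))) := by
    intro k hk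
    induction k with
    | zero => rw [iterate_zero_apply, pr_eq_iff.2 (.inr rfl)]; exact Link.refl _
    | succ k ih =>
      rw [iterate_succ_apply', pr_eq_iff.2 (.inr rfl)]
      exact (ih (by omega)).trans (Sec.step (Nat.find_min hex hk))
  have h2 : ∀ z ∉ B, (∃ k ≤ Nat.find hex, pr s z = pr s (g^[k] (fl s x))) →
      ∃ k ≤ Nat.find hex, pr s (τ z) = pr s (g^[k] (fl s x)) := by
    rintro z hz ⟨k, hk, h⟩
    obtain rfl | rfl := pr_eq_iff.1 h
    · refine ⟨k + 1, lt_of_le_of_ne hk fun e => hz (e ▸ Nat.find_spec hex), ?_⟩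
      rw [iterate_succ_apply']
      exact (pr_eq_iff.2 (.inr rfl)).symm
    · obtain _ | k := k
      · exact (hz (by simpa [fl_fl] using hx)).elim
      · exact ⟨k, by omega, by rw [iterate_succ_apply', fl_fl, hτ.1]⟩
  have h3 : ∀ y ∈ B, Sec τ B s (pr s x) (pr s y) ↔ y = x ∨ y = g^[Nat.find hex] (fl s x) := by
    refine fun y hy => ⟨fun h => ?_, ?_⟩
    · obtain ⟨k, hk, h⟩ := (h.iff (p := fun d => ∃ k ≤ Nat.find hex, d = pr s (g^[k] (fl s x)))
        fun z hz => ⟨h2 z hz, fun h => by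
          simpa [hτ.1] using h2 (τ z) (fun h => hz (hτ.1 z ▸ hB _ h)) h⟩).1
        ⟨0, by omega, (pr_eq_iff.2 (.inr rfl)).symm⟩
      obtain rfl | rfl := pr_eq_iff.1 h
      · exact .inr (by rw [hk.antisymm (Nat.find_min' hex hy)])
      · obtain _ | k := k
        · exact .inl (fl_fl x)
        · rw [iterate_succ_apply', fl_fl] at hy
          exact (Nat.find_min hex hk (hτ.1 (g^[k] _) ▸ hB _ hy)).elim
    · rintro (rfl | rfl)
      exacts [Link.refl _, h1 _ le_rfl]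
  refine ⟨_, Nat.find_spec hex, fun e => ?_, h3⟩
  have h4 := st_dot (s := s) hτ hB (A' := univ) (fun _ hz => mem_gcl_step hz (pr s x)) (by simp)
  rw [show st (univ : Finset (Dart E)) = 0 from funext fun e => by simp [st]; rfl, dotProduct_zero,
    show B.filter _ = {x} from ?_] at h4
  · simp at h4
  · ext y
    simp only [mem_filter, mem_gcl, mem_univ, and_true, mem_singleton]
    exact ⟨fun h => by simpa [e] using (h3 y h.1).1 h.2, fun h => by rw [h]; exact ⟨hx, Link.refl _⟩⟩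

/-- `σ s x` is the other unglued flag in the sector of type `s` of the unglued flag `x`. -/
structure Par (τ : Flag E → Flag E) (B : Finset (Flag E)) (σ : Bool → Flag E → Flag E) :
    Prop where
  map : IsMap τ
  leaf : NoLeaf τ B
  out : ∀ s, ∀ x ∉ B, σ s x = x
  mem : ∀ s, ∀ x ∈ B, σ s x ∈ B
  ne : ∀ s, ∀ x ∈ B, σ s x ≠ x
  sec : ∀ s, ∀ x ∈ B, ∀ y ∈ B, Sec τ B s (pr s x) (pr s y) ↔ y = x ∨ y = σ s x

theorem exists_par (hτ : IsMap τ) (hB : NoLeaf τ B) : ∃ σ, Par τ B σ := by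
  choose! σ h1 h2 h3 using fun s x hx => exists_partner (x := x) hτ (fun x h => (hB x h).1) s hx
  exact ⟨fun s x => if x ∈ B then σ s x else x, hτ, hB, fun s x h => if_neg h,
    fun s x h => by simpa [h] using h1 s x h, fun s x h => by simpa [h] using h2 s x h,
    fun s x h => by simpa [h] using h3 s x h⟩

/-- Slots: a flag and a type. -/
abbrev Sl (E : Type) := Flag E × Bool

/-- The next slot along the boundary. -/
def nx (σ : Bool → Flag E → Flag E) (p : Sl E) : Sl E := (σ p.2 p.1, !p.2)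

/-- The other slot of the sector. -/
def sr (σ : Bool → Flag E → Flag E) (p : Sl E) : Sl E := (σ p.2 p.1, p.2)

/-- The mirror slot. -/
def tw (τ : Flag E → Flag E) (p : Sl E) : Sl E := (τ p.1, p.2)

/-- One of the two flags of a corner. -/
noncomputable def cor (hτ : IsMap τ) (y : Flag E) : Cor τ :=
  if h : Fintype.equivFin _ y < Fintype.equivFin _ (τ y) then ⟨y, h⟩ else
    ⟨τ y, by
      rw [hτ.1]
      exact lt_of_le_of_ne (not_lt.1 h) fun e => hτ.2 y ((Fintype.equivFin _).injective e)⟩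

theorem cor_eq (hτ : IsMap τ) {k : Cor τ} : cor hτ y = k ↔ y = k.x ∨ y = τ k.x := by
  have := k.lt
  rw [Cor.ext_iff, cor]
  split_ifs with h
  · refine ⟨.inl, fun h' => h'.elim id fun e => ?_⟩
    rw [e, hτ.1] at h
    exact (lt_asymm h this).elim
  · refine ⟨fun e => .inr (by rw [← e, hτ.1]), fun h' => h'.elim (fun e => ?_) fun e => ?_⟩
    · exact (h (e ▸ this)).elim
    · exact e ▸ hτ.1 _

theorem cor_x (hτ : IsMap τ) (y : Flag E) : (cor hτ y).x = y ∨ (cor hτ y).x = τ y :=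
  ((cor_eq hτ).1 rfl).imp Eq.symm fun e => by rw [← hτ.1 (cor hτ y).x, ← e]

namespace Par

variable (h : Par τ B σ)
include h

theorem tau (hx : x ∈ B) : τ x ∈ B := (h.leaf x hx).1

theorem tau_iff : τ x ∈ B ↔ x ∈ B := ⟨fun H => h.map.1 x ▸ h.tau H, h.tau⟩

theorem step (hx : x ∈ B) : Sec τ B s (pr s x) (pr s (σ s x)) :=
  (h.sec s x hx _ (h.mem s x hx)).2 (.inr rfl)

theorem inv (s : Bool) (x : Flag E) : σ s (σ s x) = x := by
  by_cases hx : x ∈ B
  · exact (((h.sec s _ (h.mem s x hx) x hx).1 (h.step hx).symm).resolve_left (h.ne s x hx).symm).symm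
  · rw [h.out s x hx, h.out s x hx]

theorem mem_iff : σ s x ∈ B ↔ x ∈ B := ⟨fun H => h.inv s x ▸ h.mem s _ H, h.mem s x⟩

theorem sr_sr (p : Sl E) : sr σ (sr σ p) = p := Prod.ext (h.inv _ _) rfl

theorem tw_tw (p : Sl E) : tw τ (tw τ p) = p := Prod.ext (h.map.1 _) rfl

theorem nx_sr_nx (p : Sl E) : nx σ (sr σ (nx σ p)) = sr σ p := by simp [nx, sr, h.inv]

theorem nx_inj : Injective (nx σ) := by
  rintro ⟨x, s⟩ ⟨y, s'⟩ e
  obtain ⟨e1, e2⟩ := Prod.ext_iff.1 e
  obtain rfl : s = s' := Bool.not_inj e2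
  rw [← h.inv s x, show σ s x = σ s y from e1, h.inv]

/-- The unglued flags at a node of degree two. -/
theorem node (hx : x ∈ B) (hc : σ s (τ x) = τ (σ s x)) (hy : y ∈ B)
    (e : gcl τ ∅ s (pr s y) = gcl τ ∅ s (pr s x)) :
    y = x ∨ y = σ s x ∨ y = τ x ∨ y = τ (σ s x) := by
  have key : ∀ y ∈ B, Sec τ B s (pr s x) (pr s y) ∨ Sec τ B s (pr s (τ x)) (pr s y) ↔
      y = x ∨ y = σ s x ∨ y = τ x ∨ y = τ (σ s x) := fun y hy => by
    rw [h.sec s x hx y hy, h.sec s _ (h.tau hx) y hy, hc, or_assoc]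
  refine (key y hy).1 (((gcl_eq_iff.1 e).iff (p := fun d => Sec τ B s (pr s x) d ∨
    Sec τ B s (pr s (τ x)) d) fun z _ => ?_).2 (.inl (Link.refl _)))
  by_cases hz : z ∈ B
  · have : ∀ a b, τ a = b ↔ a = τ b := fun a b =>
      ⟨fun e => by rw [← e, h.map.1], fun e => by rw [e, h.map.1]⟩
    rw [key z hz, key _ (h.tau hz)]
    simp only [this, h.map.1]
    tauto
  · exact or_congr ⟨fun H => H.trans (Sec.step hz), fun H => H.trans (Sec.step hz).symm⟩
      ⟨fun H => H.trans (Sec.step hz), fun H => H.trans (Sec.step hz).symm⟩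

theorem ne_tau (hx : x ∈ B) : σ s x ≠ τ x := fun e => by
  obtain ⟨y, hy, h1, h2, h3⟩ := (h.leaf x hx).2 s
  have := h.node hx (by rw [← e, h.inv, e, h.map.1]) hy h3
  rw [e, h.map.1] at this
  tauto

theorem closed {B₁ : Finset (Flag E)} (h1 : B₁ ⊆ B) (h2 : NoLeaf τ B₁) (hx : x ∈ B₁)
    (hc : σ s (τ x) = τ (σ s x)) : σ s x ∈ B₁ := by
  obtain ⟨y, hy, h3, h4, h5⟩ := (h2 x hx).2 s
  obtain e | e | e | e := h.node (h1 hx) hc (h1 hy) h5
  exacts [(h3 e).elim, e ▸ hy, (h4 e).elim, h.map.1 (σ s x) ▸ e ▸ (h2 y hy).1]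

theorem card_le : B.card * 2 ≤ 4 * (Module.finrank Z2 (radCyc τ B) +
    ((B ×ˢ univ).image fun p : Sl E => (p.2, gcl τ ∅ p.2 (pr p.2 p.1))).card) := by
  set Nd := (B ×ˢ univ).image fun p : Sl E => (p.2, gcl τ ∅ p.2 (pr p.2 p.1)) with hNd
  let Φ : (Cor τ → Z2) →ₗ[Z2] ({k : Cor τ // k.x ∉ B} → Z2) × (Nd → Z2) :=
    (LinearMap.funLeft Z2 Z2 Subtype.val).prod (LinearMap.funLeft Z2 Z2 Subtype.val ∘ₗ bdL (rad τ))
  have h1 : LinearMap.ker Φ ≤ radCyc τ B := fun z hz => by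
    have a1 : ∀ k : Cor τ, k.x ∉ B → z k = 0 := fun k hk => congrFun (congrArg Prod.fst hz) ⟨k, hk⟩
    refine ⟨a1, fun p => ?_⟩
    by_cases hp : p ∈ Nd
    · exact congrFun (congrArg Prod.snd hz) ⟨p, hp⟩
    · refine sum_eq_zero fun k _ => ?_
      by_cases hk : k.x ∈ B
      · have : ∀ s, rad τ k s ≠ p := fun s e =>
          hp (mem_image.2 ⟨(k.x, s), mem_product.2 ⟨hk, mem_univ _⟩, e⟩)
        simp [iz_neg (this _)]
      · simp [a1 k hk]
  have h2 := Φ.finrank_range_add_finrank_ker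
  have h3 := Submodule.finrank_mono h1
  have h4 := Submodule.finrank_le (LinearMap.range Φ)
  have h5 := Fintype.card_subtype_compl fun k : Cor τ => k.x ∈ B
  have h6 := Fintype.card_subtype_le fun k : Cor τ => k.x ∈ B
  have h7 : B.card ≤ 2 * (B.image (cor h.map)).card := card_le_mul_card_image _ _ fun k _ =>
    (card_le_card (t := {k.x, τ k.x}) fun y hy => by
      simpa using (cor_eq h.map).1 (mem_filter.1 hy).2).trans card_le_two
  have h8 : (B.image (cor h.map)).card ≤ Fintype.card {k : Cor τ // k.x ∈ B} := by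
    rw [Fintype.card_subtype]
    refine card_le_card fun k hk => ?_
    obtain ⟨y, hy, rfl⟩ := mem_image.1 hk
    rcases cor_x h.map y with e | e <;> simp [e, hy, h.tau_iff]
  simp only [Module.finrank_prod, Module.finrank_fintype_fun_eq_card, Fintype.card_coe] at h2 h4
  omega

theorem card_branch : (univ.filter fun p : Sl E => σ p.2 (τ p.1) ≠ τ (σ p.2 p.1)).card ≤
    20 * Module.finrank Z2 (radCyc τ B) := by
  have h1 := h.card_le
  set f := fun p : Sl E => (p.2, gcl τ ∅ p.2 (pr p.2 p.1)) with hf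
  set Br := univ.filter fun p : Sl E => σ p.2 (τ p.1) ≠ τ (σ p.2 p.1)
  have h2 : ∀ p ∈ Br, p.1 ∈ B := fun p hp => by
    by_contra hx
    exact (mem_filter.1 hp).2 (by rw [h.out _ _ hx, h.out _ _ (mt h.tau_iff.1 hx)])
  have h3 := card_eq_sum_card_image f (B ×ˢ univ)
  have h4 := card_eq_sum_card_fiberwise (f := f) (s := Br) (t := (B ×ˢ univ).image f)
    fun p hp => mem_image_of_mem _ (mem_product.2 ⟨h2 p hp, mem_univ _⟩)
  have h5 : ∀ v ∈ (B ×ˢ univ).image f, (Br.filter fun p => f p = v).card + 20 ≤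
      5 * ((B ×ˢ univ).filter fun p => f p = v).card := fun v hv => by
    set F := (B ×ˢ univ).filter fun p => f p = v
    have a0 : ∀ {x s}, (x, s) ∈ F ↔ x ∈ B ∧ f (x, s) = v := by simp [F]
    have a1 : ∀ {x s}, (x, s) ∈ F → (τ x, s) ∈ F := fun {x s} hp => a0.2 ⟨h.tau (a0.1 hp).1,
      (congrArg (Prod.mk s) (gcl_step (notMem_empty x))).trans (a0.1 hp).2⟩
    have a2 : ∀ {x s}, (x, s) ∈ F → (σ s x, s) ∈ F := fun {x s} hp => a0.2 ⟨h.mem _ _ (a0.1 hp).1,
      (congrArg (Prod.mk s) (gcl_eq_iff.2 ((h.step (a0.1 hp).1).mono (empty_subset _)).symm)).trans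
        (a0.1 hp).2⟩
    have a3 : ∀ x s, (x, s) ∈ F → ∀ l : List (Flag E), (∀ y ∈ l, (y, s) ∈ F) →
        (∀ y ∈ l, y ≠ x ∧ y ≠ τ x ∧ y ≠ σ s x ∧ y ≠ τ (σ s x)) → l.Nodup →
        l.length + 4 ≤ F.card := fun x s hp l b1 b2 b3 => by
      have hx := (a0.1 hp).1
      have b4 : (l ++ [x, τ x, σ s x, τ (σ s x)]).Nodup := by
        have c1 := h.map.2 x
        have c2 := h.ne s x hx
        have c3 := h.ne_tau (s := s) hx
        have c4 := h.map.2 (σ s x)
        have c5 : τ (σ s x) ≠ x := fun e => c3 (by rw [← h.map.1 (σ s x), e])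
        have c6 : τ (σ s x) ≠ τ x := fun e => c2 (by rw [← h.map.1 (σ s x), e, h.map.1])
        simp only [List.nodup_append, b3, true_and]
        exact ⟨by simp [c1.symm, c2.symm, c3.symm, c4.symm, c5.symm, c6.symm], by simpa using b2⟩
      have := card_le_card_of_injOn (s := (l ++ [x, τ x, σ s x, τ (σ s x)]).toFinset) (t := F)
        (fun y => (y, s)) (fun y hy => by
          simp only [List.coe_toFinset, Set.mem_ofPred_eq, List.mem_append, List.mem_cons,
            List.not_mem_nil, or_false] at hy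
          rcases hy with hy | rfl | rfl | rfl | rfl
          exacts [b1 y hy, hp, a1 hp, a2 hp, a1 (a2 hp)]) fun _ _ _ _ e => (Prod.ext_iff.1 e).1
      rwa [List.toFinset_card_of_nodup b4, List.length_append] at this
    rcases (Br.filter fun p => f p = v).eq_empty_or_nonempty with e | ⟨⟨x, s⟩, hp⟩
    · obtain ⟨⟨x, s⟩, hp, e'⟩ := mem_image.1 hv
      have := a3 x s (mem_filter.2 ⟨hp, e'⟩) [] (by simp) (by simp) (by simp)
      simp only [e, card_empty]
      omega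
    · have hx := h2 _ (mem_filter.1 hp).1
      have b0 := a0.2 ⟨hx, (mem_filter.1 hp).2⟩
      have b1 := a3 x s b0 [σ s (τ x)] (by simpa using a2 (a1 b0)) (by
        simp only [List.mem_singleton, forall_eq]
        exact ⟨fun e => h.ne_tau (h.tau hx) (e.trans (h.map.1 x).symm), h.ne s _ (h.tau hx),
          fun e => h.map.2 x (by rw [← h.inv s (τ x), e, h.inv]),
          (mem_filter.1 (mem_filter.1 hp).1).2⟩) (by simp)
      have b2 : (Br.filter fun p => f p = v).card ≤ F.card := card_le_card fun p hp =>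
        a0.2 ⟨h2 _ (mem_filter.1 hp).1, (mem_filter.1 hp).2⟩
      simp only [List.length_singleton] at b1
      omega
  have h6 := sum_le_sum h5
  rw [sum_add_distrib, ← mul_sum, ← h3, ← h4, sum_const, card_product, card_univ,
    Fintype.card_bool, smul_eq_mul] at h6
  omega

theorem exists_cut : ∃ C : Finset (Sl E), C.card ≤ 24 * Module.finrank Z2 (radCyc τ B) ∧
    (∀ p ∈ C, sr σ p ∈ C ∧ tw τ p ∈ C) ∧ (∀ p ∉ C, σ p.2 (τ p.1) = τ (σ p.2 p.1)) ∧
    ∀ p : Sl E, p.1 ∈ B → ∃ k, (nx σ)^[k] p ∈ C := by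
  classical
  let r : Flag E → Flag E → Prop := Relation.EqvGen fun x y => y = τ x ∨ ∃ s, y = σ s x
  have r0 : Equivalence r := Relation.EqvGen.is_equivalence _
  have r1 : ∀ {x} y, r x y → r x (τ y) := fun y H => r0.trans H (.rel _ _ (.inl rfl))
  have r2 : ∀ {x} s y, r x y → r x (σ s y) := fun s y H => r0.trans H (.rel _ _ (.inr ⟨s, rfl⟩))
  have r3 : ∀ P : Flag E → Prop, (∀ x, P x → P (τ x)) → (∀ s x, P x → P (σ s x)) →
      ∀ x y, r x y → (P x ↔ P y) := fun P a b x y H => by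
    induction H with
    | rel x y H =>
      obtain rfl | ⟨s, rfl⟩ := H
      exacts [⟨a x, fun H => h.map.1 x ▸ a _ H⟩, ⟨b s x, fun H => h.inv s x ▸ b s _ H⟩]
    | refl => rfl
    | symm _ _ _ ih => exact ih.symm
    | trans _ _ _ _ _ ih ih' => exact ih.trans ih'
  have r4 := r3 (· ∈ B) (fun _ => h.tau) h.mem
  let rp (x : Flag E) : Flag E := (Quot.mk r x).out
  have r5 : ∀ x y, r x y → rp x = rp y := fun x y H => congrArg Quot.out (Quot.sound H)
  have r6 : ∀ x k, r x (cor h.map k).x ↔ r x k := fun x k => by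
    rcases cor_x h.map k with e | e <;> rw [e]
    exact ⟨fun H => h.map.1 k ▸ r1 _ H, r1 _⟩
  let R := B.filter fun x => x = rp x ∧ ∀ y, r x y → ∀ s, σ s (τ y) = τ (σ s y)
  have hz : ∀ x ∈ R, (fun k : Cor τ => iz (r x k.x)) ∈ radCyc τ B := fun x hx => by
    obtain ⟨a1, -, a2⟩ := mem_filter.1 hx
    refine ⟨fun k hk => iz_neg fun H => hk ((r4 _ _ H).1 a1), fun p => ?_⟩
    have key : ∀ s, ∑ k : Cor τ, iz (r x k.x) * iz (rad τ k s = p) = 0 := fun s => by
      rw [← sum_filter_of_ne (p := fun k : Cor τ => r x k.x)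
        fun k _ H => by_contra fun H' => H (by simp [iz_neg H'])]
      refine sum_invol _ (fun k => cor h.map (σ s k.x)) _
        (fun k hk => by simpa [r6] using r2 s _ (mem_filter.1 hk).2) (fun k hk => ?_)
        (fun k hk e => ?_) fun k hk => ?_ <;> have b1 := (mem_filter.1 hk).2
      · rw [cor_eq]
        rcases cor_x h.map (σ s k.x) with e | e <;> rw [e]
        exacts [.inl (h.inv _ _), .inr (by rw [a2 _ (r2 s _ b1), h.inv])]
      · exact ((cor_eq h.map).1 e).elim (h.ne s _ ((r4 _ _ b1).1 a1)) (h.ne_tau ((r4 _ _ b1).1 a1))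
      · rw [iz_pos b1, iz_pos ((r6 _ _).2 (r2 s _ b1)), show rad τ (cor h.map (σ s k.x)) s =
          rad τ k s from congrArg (Prod.mk s) ?_]
        refine Eq.trans ?_ (gcl_eq_iff.2 ((h.step ((r4 _ _ b1).1 a1)).mono (empty_subset _)).symm)
        rcases cor_x h.map (σ s k.x) with e | e <;> rw [e]
        exact gcl_step (notMem_empty _)
    simp only [bd, mul_add, sum_add_distrib, key, add_zero]
  have hR : R.card ≤ Module.finrank Z2 (radCyc τ B) := by
    rw [← Fintype.card_coe]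
    refine LinearIndependent.fintype_card_le_finrank (b := fun x : R => ⟨_, hz x.1 x.2⟩)
      (.of_comp (radCyc τ B).subtype (Fintype.linearIndependent_iff.2 fun g hg x => ?_))
    have := congrFun hg (cor h.map x)
    rw [Finset.sum_apply, sum_eq_single x (fun y _ hy => ?_) (by simp)] at this
    · simpa [r6, iz_pos (r0.refl _)] using this
    · have : ¬ r y x := fun H => hy (Subtype.ext (by
        rw [(mem_filter.1 y.2).2.1, (mem_filter.1 x.2).2.1, r5 _ _ H]))
      simp [r6, iz_neg this]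
  let C := univ.filter (fun p : Sl E => σ p.2 (τ p.1) ≠ τ (σ p.2 p.1)) ∪ R.biUnion fun x =>
    {(x, true), (τ x, true), (σ true x, true), (τ (σ true x), true)}
  have c1 : ∀ p ∈ C, sr σ p ∈ C ∧ tw τ p ∈ C := fun p hp => by
    rcases mem_union.1 hp with hp | hp
    · have := (mem_filter.1 hp).2
      refine ⟨mem_union_left _ (mem_filter.2 ⟨mem_univ _, fun e => this ?_⟩),
        mem_union_left _ (mem_filter.2 ⟨mem_univ _, fun e => this ?_⟩)⟩
      · simp only [sr, h.inv] at e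
        rw [← e, h.inv]
      · simp only [tw, h.map.1] at e
        rw [e, h.map.1]
    · obtain ⟨x, hx, hp⟩ := mem_biUnion.1 hp
      have a := (mem_filter.1 hx).2.2
      refine ⟨mem_union_right _ (mem_biUnion.2 ⟨x, hx, ?_⟩),
        mem_union_right _ (mem_biUnion.2 ⟨x, hx, ?_⟩)⟩ <;>
      simp only [mem_insert, mem_singleton] at hp <;> rcases hp with rfl | rfl | rfl | rfl <;>
      simp [sr, tw, h.inv, h.map.1, a x (r0.refl x), a _ (r2 true _ (r0.refl x))]
  have c2 : ∀ p ∉ C, σ p.2 (τ p.1) = τ (σ p.2 p.1) := fun p hp => by_contra fun e =>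
    hp (mem_union_left _ (mem_filter.2 ⟨mem_univ _, e⟩))
  refine ⟨C, (card_union_le _ _).trans ?_, c1, c2, fun p hp => ?_⟩
  · have := card_biUnion_le_card_mul R (fun x => ({(x, true), (τ x, true), (σ true x, true),
      (τ (σ true x), true)} : Finset (Sl E))) 4 fun _ _ => card_le_four
    have := h.card_branch
    omega
  let S (p : Sl E) : Prop := ∃ k, (nx σ)^[k] p ∈ C
  have s1 : ∀ p, S (nx σ p) → S p := fun p ⟨k, hk⟩ => ⟨k + 1, hk⟩
  have s2 : ∀ p, S p → S (nx σ p) := fun p ⟨k, hk⟩ => by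
    obtain ⟨n, h0, hn⟩ := h.nx_inj.mem_periodicPts p
    refine ⟨k + (n - 1), ?_⟩
    rwa [← iterate_succ_apply, show (k + (n - 1)).succ = k + n by omega, iterate_add_apply, hn.eq]
  have s3 : ∀ p, S p → S (sr σ p) ∧ S (tw τ p) := by
    rintro p ⟨k, hk⟩
    induction k generalizing p with
    | zero => exact ⟨⟨0, (c1 p hk).1⟩, 0, (c1 p hk).2⟩
    | succ k ih =>
      refine ⟨h.nx_sr_nx p ▸ s2 _ (ih _ hk).1, ?_⟩
      by_cases hp : p ∈ C
      · exact ⟨0, (c1 p hp).2⟩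
      · exact s1 _ (by simpa [nx, tw, c2 p hp] using (ih _ hk).2)
  have s4 : ∀ x s s', S (x, s) → S (x, s') := fun x s s' H => by
    by_cases e : s' = s
    · rwa [e]
    · simpa [nx, sr, h.inv, ← Bool.eq_not.2 e] using s2 _ (s3 _ H).1
  have s5 := r3 (fun x => S (x, true)) (fun x H => (s3 _ H).2)
    fun s x H => s4 _ s _ (s3 _ (s4 _ _ s H)).1
  refine s4 p.1 true p.2 ?_
  by_cases hp' : ∀ y, r p.1 y → ∀ s, σ s (τ y) = τ (σ s y)
  · have a : r p.1 (rp p.1) := r0.eqvGen_iff.1 (Quot.eqvGen_exact (Quot.out_eq _).symm)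
    exact (s5 _ _ a).2 ⟨0, mem_union_right _ (mem_biUnion.2 ⟨_, mem_filter.2 ⟨(r4 _ _ a).1 hp,
      r5 _ _ a, fun y H => hp' y (r0.trans a H)⟩, by simp⟩)⟩
  · push Not at hp'
    obtain ⟨y, a, s, e⟩ := hp'
    exact (s5 _ _ a).2 (s4 _ s _ ⟨0, mem_union_left _ (mem_filter.2 ⟨mem_univ _, e⟩)⟩)

end Par

/-- `N` is the set of internal slots and `fd` is the distance to the next cut. -/
structure Cut (τ : Flag E → Flag E) (B : Finset (Flag E)) (σ : Bool → Flag E → Flag E)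
    (N : Sl E → Prop) (fd : Sl E → ℕ) : Prop extends Par τ B σ where
  nm : ∀ p, N p → p.1 ∈ B
  nsr : ∀ p, N p → N (sr σ p)
  ntw : ∀ p, N p → N (tw τ p)
  com : ∀ p, N p → σ p.2 (τ p.1) = τ (σ p.2 p.1)
  fd0 : ∀ p, ¬N p → fd p = 0
  fd1 : ∀ p, N p → fd p = fd (nx σ p) + 1

theorem Par.exists_fd (h : Par τ B σ) : ∃ N fd, Cut τ B σ N fd ∧ ∃ C : Finset (Sl E),
    C.card ≤ 24 * Module.finrank Z2 (radCyc τ B) ∧ ∀ p, p.1 ∈ B → ¬N p → p ∈ C := by
  obtain ⟨C, h1, h2, h3, h4⟩ := h.exists_cut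
  have h5 : ∀ p : Sl E, ∃ k, ¬(((nx σ)^[k] p).1 ∈ B ∧ (nx σ)^[k] p ∉ C) := fun p =>
    (em (p.1 ∈ B)).elim (fun H => (h4 p H).imp fun k a b => b.2 a) fun H => ⟨0, fun a => H a.1⟩
  exact ⟨fun p => p.1 ∈ B ∧ p ∉ C, fun p => Nat.find (h5 p), ⟨h, fun _ H => H.1,
    fun p H => ⟨h.mem _ _ H.1, fun a => H.2 (h.sr_sr p ▸ (h2 _ a).1)⟩,
    fun p H => ⟨h.tau H.1, fun a => H.2 (h.tw_tw p ▸ (h2 _ a).2)⟩, fun p H => h3 p H.2,
    fun p H => (Nat.find_eq_zero _).2 H, fun p H => Nat.find_comp_succ _ (h5 (nx σ p)) fun a => a H⟩,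
    C, h1, fun p a b => by_contra fun c => b ⟨a, c⟩⟩

/-- The next cut. -/
def en (σ : Bool → Flag E → Flag E) (fd : Sl E → ℕ) (p : Sl E) : Sl E := (nx σ)^[fd p] p

namespace Cut

variable {N : Sl E → Prop} {fd : Sl E → ℕ} (h : Cut τ B σ N fd) {p q : Sl E}
include h

theorem nsr_iff : N (sr σ p) ↔ N p := ⟨fun H => h.sr_sr p ▸ h.nsr _ H, h.nsr p⟩

theorem ntw_iff : N (tw τ p) ↔ N p := ⟨fun H => h.tw_tw p ▸ h.ntw _ H, h.ntw p⟩

theorem n_iff : N p ↔ 0 < fd p :=
  ⟨fun H => by rw [h.fd1 p H]; omega, fun H => by_contra fun a => by simp [h.fd0 p a] at H⟩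

theorem en0 (H : ¬N p) : en σ fd p = p := by simp [en, h.fd0 p H]

theorem en1 (H : N p) : en σ fd (nx σ p) = en σ fd p := by rw [en, en, h.fd1 p H]; rfl

theorem nx_tw (H : N p) : nx σ (tw τ p) = tw τ (nx σ p) := Prod.ext (h.com p H) rfl

theorem sr_tw (H : N p) : sr σ (tw τ p) = tw τ (sr σ p) := Prod.ext (h.com p H) rfl

theorem ind {P : Sl E → Prop} (h0 : ∀ p, ¬N p → P p) (h1 : ∀ p, N p → P (nx σ p) → P p)
    (p : Sl E) : P p := by
  induction' e : fd p with n ih generalizing p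
  · exact h0 p (by simp [h.n_iff, e])
  · have H := h.n_iff.2 (e.symm ▸ n.succ_pos : 0 < fd p)
    exact h1 p H (ih _ (by have := h.fd1 p H; omega))

theorem it {k : ℕ} (hk : k ≤ fd p) :
    fd ((nx σ)^[k] p) = fd p - k ∧ en σ fd ((nx σ)^[k] p) = en σ fd p := by
  induction k with
  | zero => simp
  | succ k ih =>
    obtain ⟨a, b⟩ := ih (by omega)
    have H : N ((nx σ)^[k] p) := h.n_iff.2 (by omega)
    have := h.fd1 _ H
    rw [iterate_succ_apply', h.en1 H]
    exact ⟨by omega, b⟩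

theorem eq_it (e : en σ fd p = en σ fd q) (H : fd p ≤ fd q) : p = (nx σ)^[fd q - fd p] q :=
  h.nx_inj.iterate (fd p) (by rwa [← iterate_add_apply, Nat.add_sub_cancel' H])

theorem en_tw (p : Sl E) : fd (tw τ p) = fd p ∧ en σ fd (tw τ p) = tw τ (en σ fd p) :=
  h.ind (P := fun p => fd (tw τ p) = fd p ∧ en σ fd (tw τ p) = tw τ (en σ fd p))
    (fun p H => by
      have := mt h.ntw_iff.1 H
      rw [h.fd0 _ H, h.fd0 _ this, h.en0 H, h.en0 this]
      exact ⟨rfl, rfl⟩)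
    (fun p H ih => by
      rw [h.fd1 _ H, h.fd1 _ (h.ntw p H), ← h.en1 H, ← h.en1 (h.ntw p H), h.nx_tw H, ih.1]
      exact ⟨rfl, ih.2⟩) p

theorem en_mem (hp : p.1 ∈ B) : (en σ fd p).1 ∈ B ∧ ¬N (en σ fd p) :=
  h.ind (P := fun p => p.1 ∈ B → (en σ fd p).1 ∈ B ∧ ¬N (en σ fd p))
    (fun p H hp => by rw [h.en0 H]; exact ⟨hp, H⟩)
    (fun p H ih hp => h.en1 H ▸ ih (h.mem _ _ hp)) p hp

theorem fd_lt (hp : p.1 ∈ B) : fd p < 2 * (B.card + 1) := by
  have := card_le_card_of_injOn (s := range (fd p + 1)) (t := B ×ˢ univ) (fun k => (nx σ)^[k] p)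
    (fun k _ => by
      simp only [coe_product, coe_univ, Set.mem_prod, mem_coe, Set.mem_univ, and_true]
      induction k with
      | zero => exact hp
      | succ k ih => rw [iterate_succ_apply']; exact h.mem _ _ (ih (by simp at *; omega)))
    fun i hi j hj e => by
      simp only [coe_range, Set.mem_Iio] at hi hj
      have a := (h.it (k := i) (p := p) (by omega)).1
      have b := (h.it (k := j) (p := p) (by omega)).1
      simp only at e
      rw [e] at a
      omega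
  simp only [card_range, card_product, card_univ, Fintype.card_bool] at this
  omega

theorem palin {θ : Sl E → Sl E} (h1 : ∀ q, N q → nx σ (θ q) = θ (nx σ q))
    (h2 : ∀ q, N q → sr σ q ≠ θ q) (h3 : ∀ q, (θ q).2 = q.2) (m : ℕ) :
    ∀ p, N p → m ≤ fd (sr σ p) → (nx σ)^[m] (sr σ p) ≠ θ p := by
  induction m using Nat.twoStepInduction with
  | zero => exact fun p H _ => h2 p H
  | one => exact fun p _ _ e => by simpa [h3, nx, sr] using congrArg Prod.snd e
  | more m ih _ =>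
    intro p H hm e
    have a := h.fd1 _ (h.nsr p H)
    have b : N (sr σ (nx σ (sr σ p))) := h.nsr _ (h.n_iff.2 (by omega))
    refine ih _ b (by rw [h.sr_sr]; omega) (h.nx_inj ?_)
    rw [h1 _ b, h.nx_sr_nx, h.sr_sr, h.sr_sr, ← e, iterate_succ_apply', iterate_succ_apply]

theorem en_sr_ne {θ : Sl E → Sl E} (h1 : ∀ q, N q → nx σ (θ q) = θ (nx σ q))
    (h2 : ∀ q, N q → sr σ q ≠ θ q) (h3 : ∀ q, (θ q).2 = q.2) (h4 : ∀ q, θ (θ q) = q)
    (h5 : ∀ q, fd (θ q) = fd q ∧ en σ fd (θ q) = θ (en σ fd q)) (H : N p) :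
    en σ fd (sr σ p) ≠ θ (en σ fd p) := by
  have key : ∀ p, N p → fd p ≤ fd (sr σ p) → en σ fd (sr σ p) ≠ θ (en σ fd p) := fun p H a e =>
    h.palin h1 h2 h3 _ p H (Nat.sub_le _ _)
      (h.eq_it ((h5 p).2.trans e.symm) ((h5 p).1 ▸ a)).symm
  rcases le_total (fd p) (fd (sr σ p)) with a | a
  · exact key p H a
  · exact fun e => key _ (h.nsr p H) (by rwa [h.sr_sr]) (by rw [h.sr_sr, e, h4])

/-- An orientation of the paths between cuts. -/
theorem exists_or : ∃ (key : Sl E → ℕ) (O : Sl E → Prop),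
    (∀ p q, key p = key q ↔ q = p ∨ q = tw τ p) ∧ (∀ p, N p → (O (sr σ p) ↔ ¬O p)) ∧
    (∀ p, N p → (O (tw τ p) ↔ O p)) ∧ ∀ p, N p → N (nx σ p) → (O (nx σ p) ↔ O p) := by
  let key (p : Sl E) : ℕ := min (Fintype.equivFin _ p) (Fintype.equivFin _ (tw τ p))
  have k0 : ∀ p, key (tw τ p) = key p := fun p => by simp only [key, h.tw_tw, min_comm]
  have k1 : ∀ p q, key p = key q ↔ q = p ∨ q = tw τ p := fun p q => by
    refine ⟨fun e => ?_, by rintro (rfl | rfl); exacts [rfl, (k0 p).symm]⟩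
    have a : ∀ p q : Sl E, (Fintype.equivFin _ p : ℕ) = Fintype.equivFin _ q → q = p :=
      fun p q e => ((Fintype.equivFin _).injective (Fin.ext e)).symm
    rcases min_choice (Fintype.equivFin _ p : ℕ) (Fintype.equivFin _ (tw τ p)) with b | b <;>
    rcases min_choice (Fintype.equivFin _ q : ℕ) (Fintype.equivFin _ (tw τ q)) with c | c <;>
    have d := a _ _ (b.symm.trans (e.trans c))
    exacts [.inl d, .inr (by rw [← d, h.tw_tw]), .inr d, .inl (by rw [← h.tw_tw q, d, h.tw_tw])]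
  refine ⟨key, fun p => key (en σ fd p) < key (en σ fd (sr σ p)), k1, fun p H => ?_,
    fun p H => ?_, fun p H H' => ?_⟩ <;> dsimp only
  · have : key (en σ fd p) ≠ key (en σ fd (sr σ p)) := fun e => ((k1 _ _).1 e).elim
      (h.en_sr_ne (θ := id) (fun _ _ => rfl) (fun q H e => h.ne _ _ (h.nm q H) (congrArg Prod.fst e))
        (fun _ => rfl) (fun _ => rfl) (fun _ => ⟨rfl, rfl⟩) H)
      (h.en_sr_ne (fun _ => h.nx_tw) (fun q H e => h.ne_tau (h.nm q H) (congrArg Prod.fst e))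
        (fun _ => rfl) h.tw_tw h.en_tw H)
    rw [h.sr_sr]
    omega
  · rw [h.sr_tw H, (h.en_tw _).2, (h.en_tw _).2, k0, k0]
  · rw [h.en1 H, ← h.en1 (h.nsr _ H'), h.nx_sr_nx]

end Cut

end Pool.Agent.Lib.MP_234305_co.Glue
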