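import Pool.Agent.Lib.MP_234305_co.H98SepCut

/-!
Separators with few pieces.
-/

namespace Pool.Agent.Lib.MP_234305_co

open Finset Matrix

namespace Sep

open Classical in
theorem cotree' {Q K N : Type} [Fintype Q] [Fintype K] [Fintype N] [DecidableEq K] [Nonempty K]
    {q : K → Bool → Q} {n : K → Bool → N} {r0 : N} (t : Bfs n (fun _ => True) r0) {γ : ℕ}
    (Y : Fin γ → K → Z2) (wt : Q → ℝ)
    (h6 : ∀ e, (univ.filter fun kb : K × Bool => q kb.1 kb.2 = e).card ≤ 4)
    (h7 : ∀ f p, bd n (cob q f) p = 0)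
    (h8 : ∀ z, (∀ p, bd n z p = 0) → (∀ i, z ⬝ᵥ Y i = 0) → ∃ f, z = cob q f)
    (h9 : ∀ e e', Link q (fun _ => True) e e') (h10 : ∀ e, 0 ≤ wt e)
    (h11 : ∀ e, 4 * wt e ≤ ∑ e', wt e') (hW : 0 < ∑ e', wt e') :
    ∃ (X : Q → Prop) (X1 : Finset K), X1.card ≤ γ + 1 ∧
      2 * ∑ e ∈ univ.filter X, wt e ≤ ∑ e, wt e ∧ ∑ e, wt e ≤ 16 * ∑ e ∈ univ.filter X, wt e ∧
      ∀ k, Cut q X k → k ∈ X1 ∨ ∃ k' ∈ X1, ∃ b u, u ≠ r0 ∧ t.par u = k ∧ t.Anc (n k' b) u := by
  have e0 : Q := q (Classical.arbitrary K) false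
  have cz : ∀ (X : Q → Prop) k, cob q (fun e => iz (X e)) k ≠ 0 ↔ Cut q X k := fun X k => by
    by_cases h1 : X (q k false) <;> by_cases h2 : X (q k true) <;>
      simp [cob, Cut, h1, h2, z2_add_self]
  have h1 : ∀ e, Link q (¬t.T ·) e0 e := fun e => by
    have h1 := t.acyclic (z := cob q fun e => iz (Link q (¬t.T ·) e0 e)) (fun k hk => by
      by_contra hT
      have := Link.edge (n := q) (S := (¬t.T ·)) hT
      exact (cz _ k).1 hk ⟨fun h => h.trans this, fun h => h.trans this.symm⟩)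
      (h7 _)
    exact (Link.iff (fun k _ => not_not.1 fun hc => (cz _ k).2 hc (congrFun h1 k)) (h9 e0 e)).1
      (Link.refl _)
  obtain ⟨s⟩ := exists_bfs h1
  obtain ⟨Z, z1, z2, z3⟩ := t.exists_fund
  set X0 := univ.filter fun k => ¬t.T k ∧ ¬s.T k with hX0
  have z4 : ∀ k k', ¬t.T k' → k' ≠ k → Z k k' = 0 := fun k k' h1 h2 => by
    by_contra h0
    rcases z3 _ _ h0 with e | ⟨b, u, e1, e2, -⟩
    exacts [h2 e, h1 ⟨u, e1, e2⟩]
  have h2 : X0.card ≤ γ := by
    let F : (X0 → Z2) →ₗ[Z2] (K → Z2) := Fintype.linearCombination Z2 fun k => Z k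
    have hF : ∀ a, F a = ∑ k, a k • Z k := fun a => Fintype.linearCombination_apply _ _ _
    have := card_le_of_inj ((Matrix.of Y).mulVecLin ∘ₗ F) fun a ha => by
      obtain ⟨f, hf⟩ := h8 (F a) (fun p => by simp [hF, bd_sum, bd_smul, z1])
        fun i => (dotProduct_comm _ _).trans (congrFun ha i)
      have h2 := s.const f fun k hk => z2_add_eq_zero.1 (by
        obtain ⟨v, hv, rfl⟩ := id hk
        refine (congrFun hf _).symm.trans ?_
        rw [hF, Finset.sum_apply]
        refine sum_eq_zero fun k _ => ?_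
        rw [Pi.smul_apply, z4 k _ (s.mem v hv) fun e => (mem_filter.1 k.2).2.2 (e ▸ hk),
          smul_zero])
      funext k
      have h3 := congrFun hf k
      have h4 := (mem_filter.1 k.2).2.1
      rw [cob, h2, h2 (q k true), z2_add_self, hF, Finset.sum_apply, sum_eq_single k
        (fun k' _ hk' => by
          rw [Pi.smul_apply, z4 _ _ h4 fun e => hk' (Subtype.ext e.symm), smul_zero])
        (by simp), Pi.smul_apply, z2 _ h4, smul_eq_mul, mul_one] at h3
      exact h3
    rwa [Fintype.card_coe, Fintype.card_fin] at this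
  obtain ⟨c, -, w1, w2⟩ := s.centroid wt h10 h11 hW h6
  refine ⟨(s.Anc · c), insert (s.par c) X0, (card_insert_le _ _).trans (by omega), w1, w2,
    fun k hk => t.cycle_supp (h7 fun e => iz (s.Anc e c)) _ (fun k hk => ?_) k ((cz _ k).2 hk)⟩
  by_contra hc
  simp only [hX0, mem_insert, mem_filter, mem_univ, true_and, not_or, not_and, not_not] at hc
  exact (cz _ k).1 hk (s.anc_iff (hc.2.2 hc.1) hc.2.1)

end Sep

open _root_.Pool.Agent.Lib.MP_234305_co.Sep in
theorem separator : SepStmt := by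
  refine ⟨42, by norm_num, fun Q K N _ _ _ _ _ _ q n Inc γ Y wt h1 h2 h3 h4 h5 h6 h7 h8 h9 h10
    h11 => ?_⟩
  classical
  have hγ : (0 : ℝ) ≤ γ := Nat.cast_nonneg γ
  rcases (sum_nonneg fun e (_ : e ∈ univ) => h10 e).eq_or_lt with hW | hW
  · obtain ⟨lab, hl⟩ := exists_lab q fun _ => True
    have hc : ∀ e e', lab e = lab e' := fun e e' => (hl e e').2 (h9 e e')
    refine ⟨lab, fun e e' => iff_of_true (hc e e') ((h9 e e').mono fun _ _ => hc _ _), ?_, ?_,
      fun a => ?_⟩
    · have : (univ.image lab).card ≤ 1 := card_le_one.2 fun a ha b hb => by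
        obtain ⟨e, -, rfl⟩ := mem_image.1 ha
        obtain ⟨e', -, rfl⟩ := mem_image.1 hb
        exact hc e e'
      have : ((univ.image lab).card : ℝ) ≤ 1 := by exact_mod_cast this
      linarith
    · rw [filter_false_of_mem fun k _ hk => hk (hc _ _), card_empty, Nat.cast_zero]
      positivity
    · have := sum_le_sum_of_subset_of_nonneg (filter_subset (lab · = a) univ) fun e _ _ => h10 e
      linarith
  obtain ⟨e1, -, -⟩ := exists_ne_zero_of_sum_ne_zero hW.ne'
  have : Nonempty K := by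
    by_contra hK
    have hc : ∀ e, e = e1 := fun e => Link.const id (fun k _ => (hK ⟨k⟩).elim) (h9 e e1)
    have := h11 e1
    rw [Fintype.sum_eq_single e1 fun e he => (he (hc e)).elim] at this hW
    linarith
  have h : Hyp q n Inc := ⟨h1, h2, h3, h4, h5, h9⟩
  obtain ⟨r0, -⟩ := h3 e1
  obtain ⟨t⟩ := exists_bfs (h.conn r0)
  have ha : 1 ≤ Fintype.card Q := Fintype.card_pos_iff.2 ⟨e1⟩
  obtain ⟨H, R, i, j, e0, L⟩ := h.levels t h10 (Nat.succ_pos (Nat.sqrt (Fintype.card Q)))
  obtain ⟨X, X1, hg, w1, w2, hX⟩ := cotree' t Y wt (fun e => by convert h6 e) h7 h8 h9 h10 h11 hW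
  obtain ⟨lab, hl⟩ := exists_lab q (Same q H (Tch q t R j X1) X)
  have hs : ∀ k, Same q H (Tch q t R j X1) X k → lab (q k false) = lab (q k true) :=
    fun k hk => (hl _ _).2 (Link.edge hk)
  refine ⟨lab, fun e e' => ⟨fun he => ((hl e e').1 he).mono hs, Link.const lab fun _ hk => hk⟩,
    ?_, ?_, fun a => ?_⟩
  · have : ((univ.image lab).card : ℝ) ≤ 12 * (γ + 1) := by
      exact_mod_cast L.card_lab h hX h7 h8 hg hs
    linarith
  · have hK : Fintype.card K * 2 ≤ Fintype.card Q * 4 := by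
      have := card_le_mul_card_image (f := fun kb : K × Bool => q kb.1 kb.2) univ 4
        fun e _ => h6 e
      rw [card_univ, Fintype.card_prod, Fintype.card_bool] at this
      have h0 := card_le_univ (univ.image fun kb : K × Bool => q kb.1 kb.2)
      omega
    have h0 := Nat.lt_succ_sqrt (Fintype.card Q)
    have c0 := L.card_cut h hX hg (Nat.succ_pos _) (by rw [mul_assoc]; omega)
    have c1 : (univ.filter fun k => lab (q k false) ≠ lab (q k true)).card ≤ _ :=
      c0.trans' (card_le_card fun k hk => by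
        simp only [mem_filter, mem_univ, true_and] at hk ⊢
        exact fun hk' => hk (hs k hk'))
    have c2 : ((univ.filter fun k => lab (q k false) ≠ lab (q k true)).card : ℝ) ≤
        21 * (Nat.sqrt (Fintype.card Q) + 1) * (γ + 1) := by exact_mod_cast c1
    have c3 := Real.nat_sqrt_le_real_sqrt (a := Fintype.card Q)
    have c4 : (1 : ℝ) ≤ √(Fintype.card Q) := Real.one_le_sqrt.2 (by exact_mod_cast ha)
    nlinarith
  · rcases (univ.filter (lab · = a)).eq_empty_or_nonempty with he | ⟨x, hx⟩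
    · rw [he, sum_empty]; linarith
    · exact L.weight h h10 w1 w2 x _ fun e he =>
        (hl _ _).1 ((mem_filter.1 hx).2.trans (mem_filter.1 he).2.symm)

end Pool.Agent.Lib.MP_234305_co
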