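import Pool.Agent.Lib.MP_234305_co.H98SepLev

/-!
The pieces of the separator: cut size, weights and number of pieces.
-/

namespace Pool.Agent.Lib.MP_234305_co.Sep

open Finset Matrix

variable {Q K N : Type} {q : K → Bool → Q} {n : K → Bool → N} {Inc : Q → N → Prop} {r0 : N}

/-- The holes that contain a deep end of a corner in `X1`. -/
def Tch (q : K → Bool → Q) (t : Bfs n (fun _ => True) r0) (R : Q → Prop) (j : ℕ) (X1 : Finset K)
    (e : Q) : Prop :=
  ∃ k ∈ X1, (∃ b, j + 1 ≤ t.lv (n k b)) ∧ Link q (Both q (¬R ·)) (q k false) e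

/-- Corners that are not cut. -/
def Same (q : K → Bool → Q) (H U X : Q → Prop) (k : K) : Prop :=
  ¬Cut q H k ∧ ¬Cut q U k ∧ (H (q k false) → ¬U (q k false) → ¬Cut q X k)

/-- The ancestor of an end of a corner at a given level. -/
def anc (t : Bfs n (fun _ => True) r0) (x : K × Bool × ℕ) : N :=
  t.up^[t.lv (n x.1 x.2.1) - x.2.2] (n x.1 x.2.1)

theorem tch_closed (t : Bfs n (fun _ => True) r0) (R : Q → Prop) (j : ℕ) (X1 : Finset K) (k : K)
    (hk : Both q (¬R ·) k) : ¬Cut q (Tch q t R j X1) k := fun hc =>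
  hc ⟨fun ⟨k', h1, h2, h3⟩ => ⟨k', h1, h2, h3.trans (Link.edge hk)⟩,
    fun ⟨k', h1, h2, h3⟩ => ⟨k', h1, h2, h3.trans (Link.edge hk).symm⟩⟩

theorem exists_lab (q : K → Bool → Q) (S : K → Prop) :
    ∃ lab : Q → Q, ∀ e e', lab e = lab e' ↔ Link q S e e' :=
  ⟨fun e => (Quotient.mk ⟨Link q S, Link.equiv⟩ e).out, fun _ _ =>
    Quotient.out_inj.trans Quotient.eq⟩

variable [Fintype Q] [Fintype K] {t : Bfs n (fun _ => True) r0} {wt : Q → ℝ} {D i j : ℕ}
  {H R X : Q → Prop} {e0 : Q} {X1 : Finset K}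

namespace Lev

variable (L : Lev q Inc t wt D H R i j e0) (h : Hyp q n Inc)
include L h

theorem tch_not (e : Q) : Tch q t R j X1 e → ¬R e := fun ⟨k, _, ⟨b, hb⟩, h3⟩ =>
  (both_iff h3).1 fun h4 => by have := L.lR _ _ h4 (h.h1 k false b); omega

theorem cut_tch {k : K} (hk : Cut q (Tch q t R j X1) k) : Cut q R k :=
  cut_of_cut (L.tch_not h) (tch_closed t R j X1) hk

theorem lv_H {k : K} (hk : Cut q H k) (b : Bool) : i ≤ t.lv (n k b) + 1 ∧ t.lv (n k b) ≤ i := by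
  obtain ⟨c, -, h1, -⟩ := hk.ex
  exact ⟨L.lH' _ _ h1 (h.h1 k c b), L.lH k hk b⟩

theorem lv_U {k : K} (hk : Cut q (Tch q t R j X1) k) (b : Bool) :
    j ≤ t.lv (n k b) + 1 ∧ t.lv (n k b) ≤ j := by
  obtain ⟨c, c', h1, h2⟩ := (L.cut_tch h hk).ex
  exact ⟨L.lR' _ _ h2 (h.h1 k c' b), L.lR _ _ h1 (h.h1 k c b)⟩

variable (hX : ∀ k, Cut q X k → k ∈ X1 ∨ ∃ k' ∈ X1, ∃ b u, u ≠ r0 ∧ t.par u = k ∧ t.Anc (n k' b) u)
include hX

theorem not_same {k : K} (hk : ¬Same q H (Tch q t R j X1) X k) :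
    Cut q H k ∨ Cut q (Tch q t R j X1) k ∨ k ∈ X1 ∨ ∃ k' ∈ X1, ∃ b u, u ≠ r0 ∧ t.par u = k ∧
      t.Anc (n k' b) u ∧ i ≤ t.lv u ∧ t.lv u ≤ j := by
  by_contra hc
  simp only [not_or] at hc
  refine hk ⟨hc.1, hc.2.1, fun h1 h2 h3 => ?_⟩
  rcases hX k h3 with h4 | ⟨k', h4, b, u, hu, rfl, h5⟩
  · exact hc.2.2.1 h4
  refine hc.2.2.2 ⟨k', h4, b, u, hu, rfl, h5, ?_, not_lt.1 fun h6 => h2 ⟨k', h4,
    ⟨b, le_trans h6 h5.eq.1⟩, h.touched t L.lR h5 (h.h1 k' false b) h6 _ (h.inc_par t hu).1⟩⟩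
  rw [t.hlv u hu]
  exact L.lH' _ _ h1 (h.inc_par t hu).2

open Classical in
theorem card_cut {g : ℕ} (hg : X1.card ≤ g + 1) (hD : 0 < D) (hK : Fintype.card K ≤ 2 * D * D) :
    (univ.filter (¬Same q H (Tch q t R j X1) X ·)).card ≤ 21 * D * (g + 1) := by
  have h1 : univ.filter (¬Same q H (Tch q t R j X1) X ·) ⊆ univ.filter (Cut q H) ∪
      univ.filter (Cut q R) ∪ X1 ∪ (X1 ×ˢ univ ×ˢ Icc i j).image fun x => t.par (anc t x) := by
    intro k hk
    simp only [mem_union, mem_filter, mem_univ, true_and, mem_image, mem_product, mem_Icc] at hk ⊢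
    rcases L.not_same h hX hk with h1 | h1 | h1 | ⟨k', h1, b, u, -, rfl, h2, h3⟩
    · exact .inl (.inl (.inl h1))
    · exact .inl (.inl (.inr (L.cut_tch h h1)))
    · exact .inl (.inr h1)
    · exact .inr ⟨(k', b, t.lv u), ⟨h1, h3⟩, congrArg _ h2.eq.2.symm⟩
  have h2 := (card_le_card h1).trans ((card_union_le _ _).trans (add_le_add
    ((card_union_le _ _).trans (add_le_add (card_union_le _ _) hg)) card_image_le))
  have h3 := Nat.le_of_mul_le_mul_right (L.dH.trans hK) hD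
  have h4 := Nat.le_of_mul_le_mul_right (L.dR.trans hK) hD
  have h5 : (X1 ×ˢ (univ : Finset Bool) ×ˢ Icc i j).card ≤ (g + 1) * (2 * (4 * D + 4)) := by
    rw [card_product, card_product, Nat.card_Icc, card_univ, Fintype.card_bool]
    have := L.ji
    exact Nat.mul_le_mul hg (by omega)
  nlinarith [Nat.mul_le_mul_right (g + 1) hD, Nat.zero_le (D * g)]

omit hX in
open Classical in
theorem weight (h0 : ∀ e, 0 ≤ wt e) (w1 : 2 * ∑ e ∈ univ.filter X, wt e ≤ ∑ e, wt e)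
    (w2 : ∑ e, wt e ≤ 16 * ∑ e ∈ univ.filter X, wt e) (a : Q) (A : Finset Q)
    (hA : ∀ e ∈ A, Link q (Same q H (Tch q t R j X1) X) a e) :
    16 * ∑ e ∈ A, wt e ≤ 15 * ∑ e, wt e := by
  have key : ∀ (P : Q → Prop) [DecidablePred P],
      (∀ e, Link q (Same q H (Tch q t R j X1) X) a e → P e) →
      ∑ e ∈ A, wt e ≤ ∑ e ∈ univ.filter P, wt e := fun P _ hP =>
    sum_le_sum_of_subset_of_nonneg (fun e he => mem_filter.2 ⟨mem_univ _, hP e (hA e he)⟩)
      fun e _ _ => h0 e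
  have hW : 0 ≤ ∑ e, wt e := sum_nonneg fun e _ => h0 e
  by_cases h1 : H a
  swap
  · have := key (¬H ·) fun e he h2 => h1 ((Link.iff (fun k hk => not_not.1 hk.1) he).2 h2)
    linarith [L.wH]
  by_cases h2 : Tch q t R j X1 a
  · have h3 : ∀ e, Link q (Same q H (Tch q t R j X1) X) a e → ¬R e := fun e he =>
      L.tch_not h e ((Link.iff (fun k hk => not_not.1 hk.2.1) he).1 h2)
    have := key (Link q (Both q (¬R ·)) a) fun e he =>
      (restrict he).mono fun k hk => ⟨h3 _ hk.1, h3 _ hk.2⟩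
    linarith [L.wR a (L.tch_not h a h2)]
  have h3 : ∀ e, Link q (Same q H (Tch q t R j X1) X) a e → (X e ↔ X a) := fun e he =>
    ((Link.iff (p := fun e => H e ∧ ¬Tch q t R j X1 e ∧ (X e ↔ X a)) (fun k hk => by
      simp only [Same, Cut, not_not] at hk
      tauto) he).1 ⟨h1, h2, Iff.rfl⟩).2.2
  by_cases h4 : X a
  · linarith [key X fun e he => (h3 e he).2 h4]
  · linarith [key (¬X ·) fun e he h5 => h4 ((h3 e he).1 h5),
      sum_filter_add_sum_filter_not univ X wt]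

theorem bits [Fintype N] {γ : ℕ} {Y : Fin γ → K → Z2} (h7 : ∀ f p, bd n (cob q f) p = 0)
    (h8 : ∀ z, (∀ p, bd n z p = 0) → (∀ i, z ⬝ᵥ Y i = 0) → ∃ f, z = cob q f) (f : Q → Z2)
    (hf : ∀ k, Same q H (Tch q t R j X1) X k → cob q f k = 0) (b1 : ∀ k ∈ X1, cob q f k = 0)
    (b2 : ∀ k ∈ X1, ∀ b, ∀ l ∈ ({i - 1, i, j - 1, j} : Finset ℕ), bd n (fun k => cob q f k *
      iz (¬Cut q H k ∧ ¬Cut q (Tch q t R j X1) k)) (anc t (k, b, l)) = 0)
    (b3 : ∀ m, (fun k => cob q f k * iz (Cut q H k)) ⬝ᵥ Y m = 0)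
    (b4 : ∀ k, Cut q H k → ∃ k0, Cut q H k0 ∧ cob q f k0 = 0) (a1 : f e0 = 0)
    (a2 : ∀ k ∈ X1, f (q k false) = 0) : f = 0 := by
  set U := Tch q t R j X1 with hU
  set z' : K → Z2 := fun k => cob q f k * iz (¬Cut q H k ∧ ¬Cut q U k) with hz'
  set zH : K → Z2 := fun k => cob q f k * iz (Cut q H k) with hzH
  set zU : K → Z2 := fun k => cob q f k * iz (Cut q U k) with hzU
  have hij := L.ij
  have sp : ∀ {p : Prop} {a : Z2}, a * iz p ≠ 0 → a ≠ 0 ∧ p := fun h1 =>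
    ⟨left_ne_zero_of_mul h1, by_contra fun h2 => h1 (by rw [iz_neg h2, mul_zero])⟩
  have hs : cob q f = z' + zH + zU := funext fun k => by
    simp only [hz', hzH, hzU, Pi.add_apply]
    by_cases h1 : Cut q H k <;> by_cases h2 : Cut q U k
    · have h3 := L.lv_H h h1 false
      have h4 := L.lv_U h h2 false
      omega
    all_goals simp [h1, h2]
  have hb : ∀ v, bd n z' v + bd n zH v + bd n zU v = 0 := fun v => by
    rw [← bd_add, ← bd_add, ← hs, h7]
  have hH : ∀ v, t.lv v + 1 < i ∨ i < t.lv v → bd n zH v = 0 := fun v hv =>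
    bd_eq_zero fun k hk b e => by have := L.lv_H h (sp hk).2 b; rw [e] at this; omega
  have hU' : ∀ v, t.lv v + 1 < j ∨ j < t.lv v → bd n zU v = 0 := fun v hv =>
    bd_eq_zero fun k hk b e => by have := L.lv_U h (sp hk).2 b; rw [e] at this; omega
  have h1 : ∀ k, z' k ≠ 0 → ∃ k' ∈ X1, ∃ b u, u ≠ r0 ∧ t.par u = k ∧ t.Anc (n k' b) u :=
    fun k hk => by
      obtain ⟨h1, h2, h3⟩ := sp hk
      rcases L.not_same h hX fun h4 => h1 (hf k h4) with h4 | h4 | h4 | ⟨k', a, b, u, c, d, e, -⟩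
      exacts [(h2 h4).elim, (h3 h4).elim, (h1 (b1 k h4)).elim, ⟨k', a, b, u, c, d, e⟩]
  have h2 : z' = 0 := t.acyclic (fun k hk => by
    obtain ⟨-, -, -, u, hu, e, -⟩ := h1 k hk
    exact ⟨u, hu, e⟩) fun v => by
      by_cases h2 : ∃ k ∈ X1, ∃ b, t.Anc (n k b) v
      · obtain ⟨k, hk, b, h2⟩ := h2
        by_cases h3 : t.lv v ∈ ({i - 1, i, j - 1, j} : Finset ℕ)
        · rw [h2.eq.2]; exact b2 k hk b _ h3
        · simp only [mem_insert, mem_singleton] at h3
          simpa [hH v (by omega), hU' v (by omega)] using hb v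
      · refine bd_eq_zero fun k hk b e => h2 ?_
        obtain ⟨k', hk', c, u, hu, rfl, h3⟩ := h1 k hk
        rcases t.ends hu b with h4 | h4 <;> rw [← e, h4]
        exacts [⟨k', hk', c, h3⟩, ⟨k', hk', c, h3.tail ⟨hu, rfl⟩⟩]
  obtain ⟨f1, hf1⟩ := h8 zH (fun v => by
    by_cases hv : i < t.lv v
    · exact hH v (Or.inr hv)
    · simpa [h2, bd_zero, hU' v (by omega)] using hb v) b3
  have h3 : ∀ k, ¬Cut q H k → f1 (q k false) = f1 (q k true) := fun k hk =>
    z2_add_eq_zero.1 (by simpa [hzH, iz_neg hk, cob] using (congrFun hf1 k).symm)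
  have h4 : ∀ e e', (H e ↔ H e') → f1 e = f1 e' := fun e e' he => by
    by_cases h5 : H e
    · exact Link.const f1 (fun k hk => h3 k fun hc => hc (iff_of_true hk.1 hk.2))
        (L.cH e e' h5 (he.1 h5))
    · exact Link.const f1 (fun k hk => h3 k fun hc => hc (iff_of_false hk.1 hk.2))
        ((L.cH' e h5).trans (L.cH' e' fun h6 => h5 (he.2 h6)).symm)
  have h5 : zH = 0 := funext fun k => by
    by_contra hk
    have hc := (sp hk).2
    obtain ⟨k0, hk0, h6⟩ := b4 k hc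
    have h7 : zH k0 = 0 := by simp [hzH, h6]
    rw [hf1, Pi.zero_apply, cob] at hk
    rw [hf1, cob] at h7
    simp only [Cut] at hc hk0
    by_cases h8 : H (q k false) ↔ H (q k0 false)
    · exact hk (by rw [h4 _ _ h8, h4 (q k true) (q k0 true) (by tauto), h7])
    · exact hk (by rw [h4 _ (q k0 true) (by tauto), h4 (q k true) (q k0 false) (by tauto),
        add_comm, h7])
  have h6 : ∀ k, ¬Cut q U k → f (q k false) = f (q k true) := fun k hk =>
    z2_add_eq_zero.1 (by simpa [h2, h5, hzU, iz_neg hk, cob] using congrFun hs k)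
  funext e
  by_cases he : U e
  · obtain ⟨k, hk, -, h7⟩ := he
    rw [← Link.const f (fun k hk => h6 k (tch_closed t R j X1 k hk)) h7, a2 k hk, Pi.zero_apply]
  · rw [Link.const f (fun k hk => h6 k fun hc => hc (iff_of_false hk.1 hk.2))
      (compl_conn h.h9 L.cR (L.tch_not h) (tch_closed t R j X1) e he), a1, Pi.zero_apply]

theorem card_lab [Fintype N] [DecidableEq Q] {γ : ℕ} {Y : Fin γ → K → Z2}
    (h7 : ∀ f p, bd n (cob q f) p = 0)
    (h8 : ∀ z, (∀ p, bd n z p = 0) → (∀ i, z ⬝ᵥ Y i = 0) → ∃ f, z = cob q f)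
    (hg : X1.card ≤ γ + 1) {lab : Q → Q}
    (hl : ∀ k, Same q H (Tch q t R j X1) X k → lab (q k false) = lab (q k true)) :
    (univ.image lab).card ≤ 12 * (γ + 1) := by
  classical
  obtain ⟨X2, hX2, hX2'⟩ : ∃ X2 : Finset K, X2.card ≤ 1 ∧
      ∀ k, Cut q H k → ∃ k0 ∈ X2, Cut q H k0 := by
    by_cases hc : ∃ k, Cut q H k
    · obtain ⟨k, hk⟩ := hc
      exact ⟨{k}, by simp, fun _ _ => ⟨k, by simp, hk⟩⟩
    · exact ⟨∅, by simp, fun k hk => (hc ⟨k, hk⟩).elim⟩
  let B1 : Finset (K → Z2) := (X1 ∪ X2).image fun k => Pi.single k 1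
  let B2 : Finset (K → Z2) := (X1 ×ˢ univ ×ˢ ({i - 1, i, j - 1, j} : Finset ℕ)).image fun x k =>
    iz (¬Cut q H k ∧ ¬Cut q (Tch q t R j X1) k) *
      (iz (n k false = anc t x) + iz (n k true = anc t x))
  let B3 : Finset (K → Z2) := univ.image fun m k => iz (Cut q H k) * Y m k
  refine (card_image_le_bits q lab (B1 ∪ B2 ∪ B3) (insert e0 (X1.image (q · false)))
    fun f hf hB hA => ?_).trans ?_
  · have b1 : ∀ k ∈ X1 ∪ X2, cob q f k = 0 := fun k hk => by
      simpa using hB _ (mem_union_left _ (mem_union_left _ (mem_image_of_mem _ hk)))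
    refine L.bits h hX h7 h8 f (fun k hk => z2_add_eq_zero.2 (hf _ _ (hl k hk)))
      (fun k hk => b1 k (mem_union_left _ hk)) (fun k hk b l hl => ?_) (fun m => ?_)
      (fun k hk => ?_) (hA _ (mem_insert_self _ _))
      fun k hk => hA _ (mem_insert_of_mem (mem_image_of_mem _ hk))
    · rw [← hB _ (mem_union_left _ (mem_union_right _ (mem_image_of_mem _
        (show (k, b, l) ∈ _ from mem_product.2 ⟨hk, mem_product.2 ⟨mem_univ _, hl⟩⟩))))]
      exact sum_congr rfl fun k _ => mul_assoc _ _ _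
    · rw [← hB _ (mem_union_right _ (mem_image_of_mem _ (mem_univ m)))]
      exact sum_congr rfl fun k _ => mul_assoc _ _ _
    · obtain ⟨k0, h1, h2⟩ := hX2' k hk
      exact ⟨k0, h2, b1 k0 (mem_union_right _ h1)⟩
  · have c1 : B1.card ≤ γ + 1 + 1 :=
      card_image_le.trans ((card_union_le _ _).trans (add_le_add hg hX2))
    have c2 : B2.card ≤ (γ + 1) * (2 * 4) := card_image_le.trans (by
      rw [card_product, card_product, card_univ, Fintype.card_bool]
      exact Nat.mul_le_mul hg (Nat.mul_le_mul_left _ card_le_four))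
    have c3 : B3.card ≤ γ := card_image_le.trans (by simp)
    have c4 := (card_insert_le e0 (X1.image (q · false))).trans
      (Nat.add_le_add_right (card_image_le.trans hg) 1)
    have c5 := (card_union_le (B1 ∪ B2) B3).trans (Nat.add_le_add_right (card_union_le _ _) _)
    omega

end Lev

end Pool.Agent.Lib.MP_234305_co.Sep
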