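import Pool.Agent.Lib.MP_234305_co.H98SepTree

/-!
Level sets of the breadth first search and their holes.
-/

namespace Pool.Agent.Lib.MP_234305_co.Sep

open Finset Matrix

variable {Q K N : Type} {q : K → Bool → Q} {n : K → Bool → N} {Inc : Q → N → Prop}

/-- Both ends satisfy `P`. -/
def Both (q : K → Bool → Q) (P : Q → Prop) (k : K) : Prop := P (q k false) ∧ P (q k true)

/-- Exactly one end satisfies `P`. -/
def Cut (q : K → Bool → Q) (P : Q → Prop) (k : K) : Prop := ¬(P (q k false) ↔ P (q k true))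

theorem Cut.ex {P : Q → Prop} {k : K} (h : Cut q P k) : ∃ b b', P (q k b) ∧ ¬P (q k b') := by
  by_cases h1 : P (q k false)
  · exact ⟨false, true, h1, fun h2 => h (iff_of_true h1 h2)⟩
  · exact ⟨true, false, by_contra fun h2 => h (iff_of_false h1 h2), h1⟩

theorem restrict {S : K → Prop} {a b : Q} (h : Link q S a b) :
    Link q (Both q (Link q S a)) a b :=
  (Link.iff (p := Link q (Both q (Link q S a)) a) (fun k hk => by
    have key : ∀ x, Link q (Both q (Link q S a)) a x → Link q S a x := fun x hx =>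
      (Link.iff (p := Link q S a) (fun k hk => iff_of_true hk.1 hk.2) hx).1 (Link.refl _)
    exact ⟨fun h1 => h1.trans (Link.edge ⟨key _ h1, (key _ h1).trans (Link.edge hk)⟩),
      fun h1 => h1.trans (Link.edge ⟨(key _ h1).trans (Link.edge hk).symm, key _ h1⟩).symm⟩)
    h).1 (Link.refl _)

theorem both_iff {P : Q → Prop} {a b : Q} (h : Link q (Both q P) a b) : P a ↔ P b :=
  Link.iff (fun _ hk => iff_of_true hk.1 hk.2) h

/-- The complement of a union of holes of a connected set is connected. -/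
theorem compl_conn (h9 : ∀ e e', Link q (fun _ => True) e e') {R U : Q → Prop} {e0 : Q}
    (hR : ∀ e, R e → Link q (Both q R) e0 e) (hU : ∀ e, U e → ¬R e)
    (hc : ∀ k, Both q (¬R ·) k → ¬Cut q U k) (e : Q) (he : ¬U e) :
    Link q (Both q (¬U ·)) e e0 := by
  by_contra h0
  have h1 : ∀ x, Link q (Both q (¬U ·)) e x → ¬U x ∧ ¬R x := fun x hx =>
    ⟨(both_iff hx).1 he, fun h => h0 (hx.trans ((hR x h).mono fun k hk =>
      ⟨fun h => hU _ h hk.1, fun h => hU _ h hk.2⟩).symm)⟩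
  refine h0 ((Link.iff (p := Link q (Both q (¬U ·)) e) (fun k _ => ?_) (h9 e e0)).1 (Link.refl _))
  refine ⟨fun h => h.trans (Link.edge ⟨(h1 _ h).1, fun h2 => ?_⟩),
    fun h => h.trans (Link.edge ⟨fun h2 => ?_, (h1 _ h).1⟩).symm⟩
  · exact hc k ⟨(h1 _ h).2, hU _ h2⟩ fun h3 => (h1 _ h).1 (h3.2 h2)
  · exact hc k ⟨hU _ h2, (h1 _ h).2⟩ fun h3 => (h1 _ h).1 (h3.1 h2)

theorem hole_not_cut {R : Q → Prop} (h : Q) (k : K) (hk : Both q (¬R ·) k) :
    ¬Cut q (Link q (Both q (¬R ·)) h) k := fun hc =>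
  hc ⟨fun h1 => h1.trans (Link.edge hk), fun h1 => h1.trans (Link.edge hk).symm⟩

theorem cut_of_cut {R U : Q → Prop} (hU : ∀ e, U e → ¬R e)
    (hc : ∀ k, Both q (¬R ·) k → ¬Cut q U k) {k : K} (h : Cut q U k) : Cut q R k := fun h1 => by
  obtain ⟨b, -, h2, -⟩ := h.ex
  have h3 := hU _ h2
  refine hc k ?_ h
  cases b
  exacts [⟨h3, fun h4 => h3 (h1.2 h4)⟩, ⟨fun h4 => h3 (h1.1 h4), h3⟩]

/-- The incidence hypotheses. -/
structure Hyp (q : K → Bool → Q) (n : K → Bool → N) (Inc : Q → N → Prop) : Prop where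
  h1 : ∀ k b b', Inc (q k b) (n k b')
  h2 : ∀ e p p', Inc e p → Inc e p' → ∃ p'', (p = p'' ∨ ∃ k b, n k b = p ∧ n k (!b) = p'') ∧
      (p'' = p' ∨ ∃ k b, n k b = p'' ∧ n k (!b) = p')
  h3 : ∀ e, ∃ p, Inc e p
  h4 : ∀ p, ∃ e, Inc e p
  h5 : ∀ e e' p, Inc e p → Inc e' p → Link q (fun k => ∃ b, n k b = p) e e'
  h9 : ∀ e e', Link q (fun _ => True) e e'

namespace Hyp

variable (h : Hyp q n Inc)
include h

theorem conn (p p' : N) : Link n (fun _ => True) p p' := by
  have h1 : ∀ e p p', Inc e p → Inc e p' → Link n (fun _ => True) p p' := fun e p p' hp hp' => by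
    obtain ⟨x, h1, h2⟩ := h.h2 e p p' hp hp'
    have : ∀ a b, (a = b ∨ ∃ k c, n k c = a ∧ n k (!c) = b) → Link n (fun _ => True) a b := by
      rintro a b (rfl | ⟨k, c, rfl, rfl⟩)
      exacts [Link.refl _, Link.edge' trivial _ _]
    exact (this _ _ h1).trans (this _ _ h2)
  choose φ hφ using h.h3
  obtain ⟨e, he⟩ := h.h4 p
  obtain ⟨e', he'⟩ := h.h4 p'
  exact ((h1 e _ _ he (hφ e)).trans (Link.map φ (fun k _ =>
    (h1 _ _ _ (hφ _) (h.h1 k false false)).trans (h1 _ _ _ (h.h1 k true false) (hφ _)))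
      (h.h9 e e'))).trans (h1 e' _ _ (hφ e') he')

theorem link_at {P : Q → Prop} {e e' : Q} {p : N} (he : Inc e p) (he' : Inc e' p)
    (hP : ∀ x, Inc x p → P x) : Link q (Both q P) e e' :=
  (h.h5 e e' p he he').mono fun k ⟨b, hb⟩ => ⟨hP _ (hb ▸ h.h1 k _ b), hP _ (hb ▸ h.h1 k _ b)⟩

variable {r0 : N} (t : Bfs n (fun _ => True) r0)

theorem inc_lv {e : Q} {p p' : N} (hp : Inc e p) (hp' : Inc e p') : t.lv p ≤ t.lv p' + 2 := by
  obtain ⟨x, h1, h2⟩ := h.h2 e p p' hp hp'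
  have : ∀ a b, (a = b ∨ ∃ k c, n k c = a ∧ n k (!c) = b) → t.lv a ≤ t.lv b + 1 := by
    rintro a b (rfl | ⟨k, c, rfl, rfl⟩)
    exacts [Nat.le_succ _, t.lip k trivial _ _]
  have h3 := this _ _ h1
  have h4 := this _ _ h2
  omega

theorem inc_par {p : N} (hp : p ≠ r0) :
    Inc (q (t.par p) false) p ∧ Inc (q (t.par p) false) (t.up p) :=
  ⟨by simpa only [t.self p hp] using h.h1 (t.par p) false (t.side p),
    by simpa only [t.hup p hp] using h.h1 (t.par p) false (!t.side p)⟩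

/-- Quads along a root path above the level `i` lie in one hole. -/
theorem touched {R : Q → Prop} {i : ℕ} (hR : ∀ e p, R e → Inc e p → t.lv p ≤ i) {p u : N}
    (ha : t.Anc p u) {e : Q} (he : Inc e p) :
    i + 1 ≤ t.lv u → ∀ e', Inc e' u → Link q (Both q (¬R ·)) e e' := by
  induction ha with
  | refl =>
    exact fun hi e' he' => h.link_at he he' fun x hx h1 => by have := hR x _ h1 hx; omega
  | @tail a b _ hab ih =>
    obtain ⟨ha, rfl⟩ := hab
    intro hi e' he'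
    have := t.hlv a ha
    exact (ih (by omega) _ (h.inc_par t ha).1).trans (h.link_at (h.inc_par t ha).2 he'
      fun x hx h1 => by have := hR x _ h1 hx; omega)

end Hyp

variable {r0 : N}

/-- The component of `e0` among the quads of level at most `i`. -/
def Rg (q : K → Bool → Q) (Inc : Q → N → Prop) (t : Bfs n (fun _ => True) r0) (e0 : Q) (i : ℕ) :
    Q → Prop :=
  Link q (Both q fun e => ∀ p, Inc e p → t.lv p ≤ i) e0

namespace Hyp

variable (h : Hyp q n Inc) (t : Bfs n (fun _ => True) r0) {e0 : Q} (he0 : Inc e0 r0)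
include h he0

theorem rg_low {i : ℕ} (hi : 2 ≤ i) (e : Q) (p : N) (he : Rg q Inc t e0 i e) (hp : Inc e p) :
    t.lv p ≤ i :=
  (both_iff he).1 (fun p hp => by have := h.inc_lv t hp he0; have := t.root; omega) p hp

theorem rg_of_inc {i : ℕ} (p : N) : t.lv p + 2 ≤ i → ∀ e, Inc e p → Rg q Inc t e0 i e := by
  refine t.ind (P := fun p => t.lv p + 2 ≤ i → ∀ e, Inc e p → Rg q Inc t e0 i e)
    (fun hi e he => h.link_at he0 he fun x hx p hp => (h.inc_lv t hp hx).trans hi)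
    (fun p hp ih hi e he => ?_) p
  have := t.hlv p hp
  exact (ih (by omega) _ (h.inc_par t hp).2).trans
    (h.link_at (h.inc_par t hp).1 he fun x hx p hp => (h.inc_lv t hp hx).trans hi)

theorem rg_cut {i : ℕ} (hi : 2 ≤ i) {k : K} (hk : Cut q (Rg q Inc t e0 i) k) (b : Bool) :
    i ≤ t.lv (n k b) + 1 ∧ t.lv (n k b) ≤ i := by
  obtain ⟨c, c', h1, h2⟩ := hk.ex
  exact ⟨not_lt.1 fun h3 => h2 (h.rg_of_inc t he0 _ h3 _ (h.h1 k c' b)),
    h.rg_low t he0 hi _ _ h1 (h.h1 k c b)⟩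

open Classical in
theorem rg_avg [Fintype K] {j D : ℕ} (hj : 2 ≤ j) (hD : 0 < D) : ∃ i, j ≤ i ∧ i < j + 2 * D ∧
    (univ.filter (Cut q (Rg q Inc t e0 i))).card * D ≤ Fintype.card K := by
  have h1 : ∑ m ∈ range D, (univ.filter (Cut q (Rg q Inc t e0 (j + 2 * m)))).card ≤
      Fintype.card K := by
    rw [← card_biUnion]
    · exact card_le_univ _
    · intro m _ m' _ hm
      refine disjoint_filter.2 fun k _ h1 h2 => hm ?_
      have h3 := h.rg_cut t he0 (by omega) h1 false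
      have h4 := h.rg_cut t he0 (by omega) h2 false
      omega
  obtain ⟨m, hm, h2⟩ := exists_le_of_sum_le (s := range D) ⟨0, mem_range.2 hD⟩
    (f := fun m => (univ.filter (Cut q (Rg q Inc t e0 (j + 2 * m)))).card * D)
    (g := fun _ => Fintype.card K) (by
      rw [← sum_mul, sum_const, card_range, smul_eq_mul, mul_comm D]
      exact Nat.mul_le_mul_right _ h1)
  exact ⟨j + 2 * m, by omega, by have := mem_range.1 hm; omega, h2⟩

end Hyp

theorem rg_mono {t : Bfs n (fun _ => True) r0} {e0 : Q} {i j : ℕ} (hij : i ≤ j) {e : Q}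
    (he : Rg q Inc t e0 i e) : Rg q Inc t e0 j e :=
  Link.mono (fun _ hk => ⟨fun p hp => (hk.1 p hp).trans hij, fun p hp => (hk.2 p hp).trans hij⟩) he

open Classical in
/-- The output of the level analysis. -/
structure Lev [Fintype Q] [Fintype K] (q : K → Bool → Q) (Inc : Q → N → Prop)
    (t : Bfs n (fun _ => True) r0) (wt : Q → ℝ) (D : ℕ) (H R : Q → Prop) (i j : ℕ) (e0 : Q) :
    Prop where
  wH : 2 * ∑ e ∈ univ.filter (¬H ·), wt e ≤ ∑ e, wt e
  cH : ∀ e e', H e → H e' → Link q (Both q H) e e'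
  cH' : ∀ e, ¬H e → Link q (Both q (¬H ·)) e e0
  dH : (univ.filter (Cut q H)).card * D ≤ Fintype.card K
  lH : ∀ k, Cut q H k → ∀ b, t.lv (n k b) ≤ i
  lH' : ∀ e p, H e → Inc e p → i ≤ t.lv p + 1
  ij : i + 2 ≤ j
  ji : j ≤ i + 4 * D + 3
  lR : ∀ e p, R e → Inc e p → t.lv p ≤ j
  lR' : ∀ e p, ¬R e → Inc e p → j ≤ t.lv p + 1
  cR : ∀ e, R e → Link q (Both q R) e0 e
  dR : (univ.filter (Cut q R)).card * D ≤ Fintype.card K
  wR : ∀ h, ¬R h → 2 * ∑ e ∈ univ.filter (Link q (Both q (¬R ·)) h), wt e ≤ ∑ e, wt e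

open Classical in
theorem Hyp.levels [Fintype Q] [Fintype K] [Fintype N] (h : Hyp q n Inc)
    (t : Bfs n (fun _ => True) r0) {wt : Q → ℝ} (h0 : ∀ e, 0 ≤ wt e) {D : ℕ} (hD : 0 < D) :
    ∃ H R i j e0, Lev q Inc t wt D H R i j e0 := by
  obtain ⟨e0, he0⟩ := h.h4 r0
  let L : ℕ → Prop := fun i => 2 ≤ i ∧ ∀ x, ¬Rg q Inc t e0 i x →
    2 * ∑ e ∈ univ.filter (Link q (Both q (¬Rg q Inc t e0 i ·)) x), wt e ≤ ∑ e, wt e
  have ex : ∃ i, L i := ⟨univ.sup t.lv + 2, by omega, fun x hx => by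
    obtain ⟨p, hp⟩ := h.h3 x
    exact (hx (h.rg_of_inc t he0 p (Nat.add_le_add_right (le_sup (mem_univ p)) 2) x hp)).elim⟩
  obtain ⟨h1, h2⟩ := Nat.find_spec ex
  obtain ⟨j, hj1, hj2, hj3⟩ := h.rg_avg t he0 (j := Nat.find ex + 2) (by omega) hD
  have hout : ∀ i e p, ¬Rg q Inc t e0 i e → Inc e p → i ≤ t.lv p + 1 := fun i e p he hp =>
    not_lt.1 fun h3 => he (h.rg_of_inc t he0 _ h3 _ hp)
  have hw : ∀ x, ¬Rg q Inc t e0 j x →
      2 * ∑ e ∈ univ.filter (Link q (Both q (¬Rg q Inc t e0 j ·)) x), wt e ≤ ∑ e, wt e :=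
    fun x hx => by
      have hle : Nat.find ex ≤ j := by omega
      refine le_trans (mul_le_mul_of_nonneg_left (sum_le_sum_of_subset_of_nonneg
        (monotone_filter_right _ fun e _ he => ?_) fun e _ _ => h0 e) zero_le_two)
        (h2 x fun h3 => hx (rg_mono hle h3))
      exact he.mono fun k hk => ⟨fun h3 => hk.1 (rg_mono hle h3), fun h3 => hk.2 (rg_mono hle h3)⟩
  by_cases hc : 2 * D + 2 ≤ Nat.find ex
  · obtain ⟨i, hi1, hi2, hi3⟩ := h.rg_avg t he0 (j := Nat.find ex - 2 * D) (by omega) hD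
    have h3 := Nat.find_min ex (show i < Nat.find ex by omega)
    simp only [L, not_and, not_forall, not_le] at h3
    obtain ⟨x, hx, h4⟩ := h3 (by omega)
    have h5 : ∀ e, Link q (Both q (¬Rg q Inc t e0 i ·)) x e → ¬Rg q Inc t e0 i e :=
      fun e he => (both_iff he).1 hx
    have h6 := fun k => cut_of_cut h5 (hole_not_cut x) (k := k)
    refine ⟨Link q (Both q (¬Rg q Inc t e0 i ·)) x, Rg q Inc t e0 j, i, j, e0, ?_,
      fun e e' he he' => (restrict he).symm.trans (restrict he'),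
      compl_conn h.h9 (fun _ => restrict) h5 (hole_not_cut x),
      le_trans (Nat.mul_le_mul_right _ (card_le_card
        (monotone_filter_right _ fun k _ => h6 k))) hi3,
      fun k hk b => (h.rg_cut t he0 (by omega) (h6 k hk) b).2,
      fun e p he => hout i e p (h5 e he), by omega, by omega, h.rg_low t he0 (by omega), hout j,
      fun _ => restrict, hj3, hw⟩
    have := sum_filter_add_sum_filter_not univ (Link q (Both q (¬Rg q Inc t e0 i ·)) x) wt
    linarith
  · refine ⟨fun _ => True, Rg q Inc t e0 j, 0, j, e0, ?_,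
      fun e e' _ _ => (h.h9 e e').mono fun _ _ => ⟨trivial, trivial⟩,
      fun _ he => (he trivial).elim,
      by rw [filter_false_of_mem fun _ _ hk => hk Iff.rfl]; simp, fun _ hk => (hk Iff.rfl).elim,
      fun _ _ _ _ => Nat.zero_le _, by omega, by omega, h.rg_low t he0 (by omega), hout j,
      fun _ => restrict, hj3, hw⟩
    simpa using sum_nonneg fun e _ => h0 e

end Pool.Agent.Lib.MP_234305_co.Sep
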