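import Pool.Agent.Lib.MP_234305_co.H77Basic

/-!
Breadth first search trees, fundamental cycles, centroids and dimension counts.
-/

namespace Pool.Agent.Lib.MP_234305_co.Sep

open Finset Matrix

variable {K V : Type} {g : K → Bool → V} {S : K → Prop} {r : V}

/-- A breadth first search tree with root `r` that uses only edges in `S`. -/
structure Bfs (g : K → Bool → V) (S : K → Prop) (r : V) where
  lv : V → ℕ
  par : V → K
  up : V → V
  side : V → Bool
  root : lv r = 0
  mem : ∀ v, v ≠ r → S (par v)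
  self : ∀ v, v ≠ r → g (par v) (side v) = v
  hup : ∀ v, v ≠ r → g (par v) (!side v) = up v
  hlv : ∀ v, v ≠ r → lv v = lv (up v) + 1
  lip : ∀ k, S k → ∀ b b', lv (g k b) ≤ lv (g k b') + 1

/-- Nodes at distance at most `i` from the root. -/
def Reach (g : K → Bool → V) (S : K → Prop) (r : V) : ℕ → V → Prop
  | 0, v => v = r
  | i + 1, v => Reach g S r i v ∨ ∃ k b, S k ∧ g k b = v ∧ Reach g S r i (g k (!b))

theorem exists_bfs [Nonempty K] (h : ∀ v, Link g S r v) : Nonempty (Bfs g S r) := by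
  classical
  have ex : ∀ v, ∃ i, Reach g S r i v := fun v =>
    (Link.iff (p := fun v => ∃ i, Reach g S r i v) (fun k hk =>
      ⟨fun ⟨i, hi⟩ => ⟨i + 1, Or.inr ⟨k, true, hk, rfl, hi⟩⟩,
        fun ⟨i, hi⟩ => ⟨i + 1, Or.inr ⟨k, false, hk, rfl, hi⟩⟩⟩) (h v)).1 ⟨0, rfl⟩
  have lip : ∀ k, S k → ∀ b, Nat.find (ex (g k b)) ≤ Nat.find (ex (g k (!b))) + 1 :=
    fun k hk b => Nat.find_min' _ (Or.inr ⟨k, b, hk, rfl, Nat.find_spec (ex _)⟩)
  have key : ∀ v, ∃ k b, v ≠ r → S k ∧ g k b = v ∧
      Nat.find (ex v) = Nat.find (ex (g k (!b))) + 1 := fun v => by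
    by_cases hv : v = r
    · exact ⟨Classical.arbitrary K, true, fun h => (h hv).elim⟩
    have h1 := Nat.find_spec (ex v)
    rcases hi : Nat.find (ex v) with _ | i
    · rw [hi] at h1; exact (hv h1).elim
    rw [hi] at h1
    rcases h1 with h1 | ⟨k, b, hk, rfl, h1⟩
    · exact (Nat.find_min (ex v) (by omega) h1).elim
    · have h2 := Nat.find_min' (ex _) h1
      have h3 := lip k hk b
      exact ⟨k, b, fun _ => ⟨hk, rfl, by omega⟩⟩
  choose par side h using key
  refine ⟨⟨fun v => Nat.find (ex v), par, fun v => g (par v) (!side v), side,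
    (Nat.find_eq_zero _).2 rfl, fun v hv => (h v hv).1, fun v hv => (h v hv).2.1, fun _ _ => rfl, fun v hv => (h v hv).2.2,
    fun k hk b b' => ?_⟩⟩
  rcases eq_or_ne b b' with rfl | hb
  · omega
  · have : b' = !b := by revert b b'; decide
    rw [this]; exact lip k hk b

theorem bd_eq_zero [Fintype K] {z : K → Z2} {v : V} (h : ∀ k, z k ≠ 0 → ∀ b, g k b ≠ v) :
    bd g z v = 0 := by
  refine sum_eq_zero fun k _ => ?_
  by_cases hk : z k = 0
  · rw [hk, zero_mul]
  · rw [iz_neg (h k hk false), iz_neg (h k hk true), add_zero, mul_zero]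

theorem bd_single [Fintype K] [DecidableEq K] (k : K) (b : Bool) (v : V) :
    bd g (Pi.single k 1) v = iz (g k b = v) + iz (g k (!b) = v) := by
  rw [bd, sum_eq_single k (fun k' _ h => by simp [h]) (by simp)]
  cases b <;> simp [add_comm]

theorem bd_sum [Fintype K] {ι : Type} (s : Finset ι) (z : ι → K → Z2) (v : V) :
    bd g (∑ i ∈ s, z i) v = ∑ i ∈ s, bd g (z i) v := by
  have := congrFun (map_sum (bdL g) z s) v
  rw [Finset.sum_apply] at this
  exact this

namespace Bfs

variable (t : Bfs g S r)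

theorem ind {P : V → Prop} (h0 : P r) (h : ∀ v, v ≠ r → P (t.up v) → P v) (v : V) : P v := by
  induction hn : t.lv v using Nat.strong_induction_on generalizing v with
  | _ m ih =>
    by_cases hv : v = r
    · exact hv ▸ h0
    · exact h v hv (ih _ (by have := t.hlv v hv; omega) _ rfl)

/-- The edges of the tree. -/
def T (k : K) : Prop := ∃ v, v ≠ r ∧ t.par v = k

/-- `u` is an ancestor of `v`. -/
def Anc : V → V → Prop := Relation.ReflTransGen fun a b => a ≠ r ∧ t.up a = b

theorem ends {v : V} (hv : v ≠ r) (b : Bool) : g (t.par v) b = v ∨ g (t.par v) b = t.up v := by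
  rcases eq_or_ne b (t.side v) with rfl | hb
  · exact Or.inl (t.self v hv)
  · have : b = !t.side v := by revert hb; cases b <;> cases t.side v <;> simp
    exact Or.inr (this ▸ t.hup v hv)

theorem const {α : Type} (f : V → α) (h : ∀ k, t.T k → f (g k false) = f (g k true)) (v : V) :
    f v = f r := by
  refine t.ind (P := fun v => f v = f r) rfl (fun v hv ih => ?_) v
  have h1 := h _ ⟨v, hv, rfl⟩
  have h2 := t.self v hv
  have h3 := t.hup v hv
  rw [← ih, ← h3]
  conv_lhs => rw [← h2]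
  cases t.side v
  exacts [h1, h1.symm]

theorem acyclic [Fintype K] [Fintype V] {z : K → Z2} (h : ∀ k, z k ≠ 0 → t.T k)
    (hz : ∀ v, bd g z v = 0) : z = 0 := by
  classical
  by_contra h0
  obtain ⟨k, hk⟩ := Function.ne_iff.1 h0
  obtain ⟨v, hv, rfl⟩ := h k hk
  obtain ⟨u, hu, hm⟩ := exists_max_image (univ.filter fun v => v ≠ r ∧ z (t.par v) ≠ 0) t.lv
    ⟨v, by simpa using ⟨hv, hk⟩⟩
  simp only [mem_filter, mem_univ, true_and, and_imp] at hu hm
  have h1 : bd g (z + Pi.single (t.par u) 1) u = 0 := bd_eq_zero fun k hk b e => by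
    have hne : k ≠ t.par u := by
      rintro rfl
      rcases z2_cases (z (t.par u)) with h1 | h1
      · exact hu.2 h1
      · simp [h1, z2_add_self] at hk
    rw [Pi.add_apply, Pi.single_eq_of_ne hne, add_zero] at hk
    obtain ⟨w, hw, rfl⟩ := h k hk
    have h2 := hm w hw hk
    have h3 := t.hlv w hw
    rcases t.ends hw b with h4 | h4
    · exact hne (by rw [← e, h4])
    · rw [← e, h4] at h2; omega
  have h2 : t.up u ≠ u := fun e => by have := t.hlv u hu.1; rw [e] at this; omega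
  rw [bd_add, hz, zero_add, bd_single _ (t.side u), t.self u hu.1, t.hup u hu.1, iz_neg h2,
    iz_pos rfl] at h1
  exact absurd h1 (by decide)

theorem Anc.eq {t : Bfs g S r} {v u : V} (h : t.Anc v u) :
    t.lv u ≤ t.lv v ∧ u = t.up^[t.lv v - t.lv u] v := by
  induction h with
  | refl => simp
  | @tail a b _ hab ih =>
    obtain ⟨ha, rfl⟩ := hab
    have := t.hlv a ha
    refine ⟨by omega, ?_⟩
    rw [show t.lv v - t.lv (t.up a) = t.lv v - t.lv a + 1 by omega, Function.iterate_succ_apply',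
      ← ih.2]

theorem anc_root (v : V) : t.Anc v r :=
  t.ind (P := fun v => t.Anc v r) .refl (fun _ hv ih => .head ⟨hv, rfl⟩ ih) v

theorem exists_rp [Fintype K] [DecidableEq K] (v : V) : ∃ z : K → Z2,
    (∀ p, bd g z p = iz (v = p) + iz (r = p)) ∧
      ∀ k, z k ≠ 0 → ∃ u, u ≠ r ∧ t.par u = k ∧ t.Anc v u := by
  refine t.ind (P := fun v => ∃ z : K → Z2, (∀ p, bd g z p = iz (v = p) + iz (r = p)) ∧
    ∀ k, z k ≠ 0 → ∃ u, u ≠ r ∧ t.par u = k ∧ t.Anc v u)
    ⟨0, fun p => by rw [bd_zero, z2_add_self], fun k hk => (hk rfl).elim⟩ ?_ v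
  rintro v hv ⟨z, h1, h2⟩
  refine ⟨z + Pi.single (t.par v) 1, fun p => ?_, fun k hk => ?_⟩
  · rw [bd_add, h1, bd_single _ (t.side v), t.self v hv, t.hup v hv]
    linear_combination z2_add_self (iz (t.up v = p))
  · by_cases e : k = t.par v
    · exact ⟨v, hv, e.symm, .refl⟩
    · rw [Pi.add_apply, Pi.single_eq_of_ne e, add_zero] at hk
      obtain ⟨u, h3, h4, h5⟩ := h2 k hk
      exact ⟨u, h3, h4, .head ⟨hv, rfl⟩ h5⟩

/-- Fundamental cycles. -/
theorem exists_fund [Fintype K] [DecidableEq K] : ∃ Z : K → K → Z2,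
    (∀ k p, bd g (Z k) p = 0) ∧ (∀ k, ¬t.T k → Z k k = 1) ∧
      ∀ k k', Z k k' ≠ 0 → k' = k ∨ ∃ b u, u ≠ r ∧ t.par u = k' ∧ t.Anc (g k b) u := by
  choose rp h1 h2 using t.exists_rp
  refine ⟨fun k => Pi.single k 1 + rp (g k false) + rp (g k true), fun k p => ?_, fun k hk => ?_,
    fun k k' h => ?_⟩
  · rw [bd_add, bd_add, bd_single _ false, h1, h1, Bool.not_false]
    linear_combination z2_add_self (iz (g k false = p)) + z2_add_self (iz (g k true = p)) +
      z2_add_self (iz (r = p))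
  · have : ∀ v, rp v k = 0 := fun v => by
      by_contra h
      obtain ⟨u, h3, h4, -⟩ := h2 v k h
      exact hk ⟨u, h3, h4⟩
    simp [this]
  · by_contra hc
    push Not at hc
    have : ∀ b, rp (g k b) k' = 0 := fun b => by
      by_contra h
      obtain ⟨u, h3, h4, h5⟩ := h2 _ k' h
      exact hc.2 b u h3 h4 h5
    simp [this, Pi.single_eq_of_ne hc.1] at h

/-- A cycle is supported on its edges outside the tree and the root paths of their ends. -/
theorem cycle_supp [Fintype K] [DecidableEq K] [Fintype V] {z : K → Z2} (hz : ∀ v, bd g z v = 0)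
    (X : Finset K) (h : ∀ k, z k ≠ 0 → t.T k ∨ k ∈ X) (k : K)
    (hk : z k ≠ 0) : k ∈ X ∨ ∃ k' ∈ X, ∃ b u, u ≠ r ∧ t.par u = k ∧ t.Anc (g k' b) u := by
  obtain ⟨Z, h1, h2, h3⟩ := t.exists_fund
  have h4 : z + ∑ k ∈ X, z k • Z k = 0 := t.acyclic (fun k hk => by
    by_contra hT
    have h5 : ∀ k' ∈ X, k' ≠ k → z k' • Z k' k = 0 := fun k' _ hne => by
      have : Z k' k = 0 := by
        by_contra h0
        rcases h3 _ _ h0 with e | ⟨b, u, e1, e2, -⟩
        exacts [hne e.symm, hT ⟨u, e1, e2⟩]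
      rw [this, smul_zero]
    simp only [Pi.add_apply, Finset.sum_apply, Pi.smul_apply] at hk
    rw [sum_eq_single k h5 fun hk' => by
      have : z k = 0 := by by_contra h0; exact (h k h0).elim hT hk'
      rw [this, zero_smul], h2 k hT, smul_eq_mul, mul_one] at hk
    exact hk (z2_add_self _)) fun v => by
      simp only [bd_add, bd_sum, bd_smul, hz, h1, mul_zero, sum_const_zero, add_zero]
  by_contra hc
  push Not at hc
  have h5 := congrFun h4 k
  simp only [Pi.add_apply, Finset.sum_apply, Pi.smul_apply, Pi.zero_apply] at h5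
  rw [sum_eq_zero fun k' hk' => by
    have : Z k' k = 0 := by
      by_contra h0
      rcases h3 _ _ h0 with e | ⟨b, u, e1, e2, e3⟩
      exacts [hc.1 (e ▸ hk'), hc.2 k' hk' b u e1 e2 e3]
    rw [this, smul_zero], add_zero] at h5
  exact hk h5

open Classical in
theorem centroid [Fintype K] [Fintype V] (wt : V → ℝ) (h0 : ∀ e, 0 ≤ wt e)
    (h4 : ∀ e, 4 * wt e ≤ ∑ e', wt e') (hW : 0 < ∑ e', wt e')
    (hd : ∀ e, (univ.filter fun kb : K × Bool => g kb.1 kb.2 = e).card ≤ 4) :
    ∃ c, c ≠ r ∧ 2 * ∑ e ∈ univ.filter (fun e => t.Anc e c), wt e ≤ ∑ e, wt e ∧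
      ∑ e, wt e ≤ 16 * ∑ e ∈ univ.filter (fun e => t.Anc e c), wt e := by
  set w : V → ℝ := fun c => ∑ e ∈ univ.filter (fun e => t.Anc e c), wt e with hw
  obtain ⟨v, hv, hm⟩ := exists_max_image (univ.filter fun v => ∑ e, wt e < 2 * w v) t.lv
    ⟨r, by simp only [mem_filter, mem_univ, true_and, hw, t.anc_root, filter_true]; linarith⟩
  simp only [mem_filter, mem_univ, true_and] at hv hm
  set ch := univ.filter fun c => c ≠ r ∧ t.up c = v with hch
  have hcard : ch.card ≤ 4 := by
    refine le_trans (card_le_card_of_injOn (fun c => (t.par c, !t.side c)) (fun c hc => ?_)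
      fun c hc c' hc' e => ?_) (hd v)
    · simp only [hch, coe_filter, mem_univ, true_and, Set.mem_ofPred_eq] at hc ⊢
      rw [t.hup c hc.1, hc.2]
    · simp only [hch, coe_filter, mem_univ, true_and, Set.mem_ofPred_eq, Prod.mk.injEq,
        Bool.not_inj_iff] at hc hc' e
      rw [← t.self c hc.1, ← t.self c' hc'.1, e.1, e.2]
  have hsum : w v ≤ wt v + ∑ c ∈ ch, w c := by
    simp only [hw, sum_filter]
    rw [sum_comm, ← Fintype.sum_ite_eq' v wt, ← sum_add_distrib]
    refine sum_le_sum fun e _ => ?_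
    have hn : ∀ c ∈ ch, 0 ≤ if t.Anc e c then wt e else 0 := fun c _ => by
      split_ifs; exacts [h0 e, le_rfl]
    have hn' := sum_nonneg hn
    split_ifs with h1 h2 h2
    · linarith
    · rcases h1.cases_tail with e1 | ⟨c, h3, h5⟩
      · exact (h2 e1.symm).elim
      · have := single_le_sum hn (show c ∈ ch by simpa [hch] using h5)
        rw [if_pos (show t.Anc e c from h3)] at this
        linarith
    · linarith [h0 e]
    · linarith
  have h1 : ∃ c ∈ ch, ∑ e, wt e ≤ 16 * w c := by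
    by_contra hc
    push Not at hc
    have h2 := sum_le_card_nsmul ch w ((∑ e, wt e) / 16) fun c h => by linarith [hc c h]
    have h3 : (ch.card : ℝ) ≤ 4 := by exact_mod_cast hcard
    rw [nsmul_eq_mul] at h2
    nlinarith [h4 v]
  obtain ⟨c, hc, h2⟩ := h1
  simp only [hch, mem_filter, mem_univ, true_and] at hc
  refine ⟨c, hc.1, not_lt.1 fun h3 => ?_, h2⟩
  have h5 := hm c h3
  have h6 := t.hlv c hc.1
  rw [hc.2] at h6
  omega

theorem anc_iff {c : V} {k : K} (hk : t.T k) (hc : k ≠ t.par c) :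
    t.Anc (g k false) c ↔ t.Anc (g k true) c := by
  obtain ⟨v, hv, rfl⟩ := hk
  have h1 : t.Anc v c ↔ t.Anc (t.up v) c := ⟨fun h => by
    rcases h.cases_head with e | ⟨x, ⟨-, rfl⟩, h⟩
    exacts [(hc (e ▸ rfl)).elim, h], fun h => .head ⟨hv, rfl⟩ h⟩
  have h2 := t.self v hv
  have h3 := t.hup v hv
  revert h2 h3
  cases t.side v <;> intro h2 h3
  · rw [h2, show g (t.par v) true = t.up v from h3, h1]
  · rw [h2, show g (t.par v) false = t.up v from h3, h1]

end Bfs

theorem card_le_of_inj {ι κ : Type} [Fintype ι] [Fintype κ] (φ : (ι → Z2) →ₗ[Z2] (κ → Z2))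
    (h : ∀ a, φ a = 0 → a = 0) : Fintype.card ι ≤ Fintype.card κ := by
  simpa using LinearMap.finrank_le_finrank_of_injective ((injective_iff_map_eq_zero φ).2 h)

/-- Counting classes by linear conditions. -/
theorem card_image_le_bits {Q : Type} [Fintype Q] [DecidableEq Q] [Fintype K] (q : K → Bool → Q)
    (lab : Q → Q) (B : Finset (K → Z2)) (A : Finset Q)
    (h : ∀ f : Q → Z2, (∀ e e', lab e = lab e' → f e = f e') → (∀ u ∈ B, cob q f ⬝ᵥ u = 0) →
      (∀ e ∈ A, f e = 0) → f = 0) : (univ.image lab).card ≤ B.card + A.card := by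
  let F : (↥(univ.image lab) → Z2) →ₗ[Z2] (Q → Z2) :=
    LinearMap.funLeft Z2 Z2 fun e => ⟨lab e, mem_image_of_mem _ (mem_univ e)⟩
  let G : (Q → Z2) →ₗ[Z2] (B ⊕ A → Z2) :=
    { toFun f := Sum.elim (fun u => cob q f ⬝ᵥ u.1) fun e => f e.1
      map_add' f f' := funext fun x => by
        rcases x with u | e
        · exact (congrArg (· ⬝ᵥ u.1) (map_add (cobL q) f f')).trans (add_dotProduct _ _ _)
        · rfl
      map_smul' c f := funext fun x => by
        rcases x with u | e
        · exact (congrArg (· ⬝ᵥ u.1) (map_smul (cobL q) c f)).trans (smul_dotProduct _ _ _)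
        · rfl }
  have := card_le_of_inj (G ∘ₗ F) fun a ha => by
    have h1 := h (F a) (fun e e' he => congrArg a (Subtype.ext he))
      (fun u hu => congrFun ha (Sum.inl ⟨u, hu⟩)) fun e he => congrFun ha (Sum.inr ⟨e, he⟩)
    funext x
    obtain ⟨e, -, he⟩ := mem_image.1 x.2
    rw [show x = ⟨lab e, mem_image_of_mem _ (mem_univ e)⟩ from Subtype.ext he.symm]
    exact congrFun h1 e
  rwa [Fintype.card_coe, Fintype.card_sum, Fintype.card_coe, Fintype.card_coe] at this

end Pool.Agent.Lib.MP_234305_co.Sep
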